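import Mathlib
import Pool.Agent.H604.LD.Stm

/-!
# Primes `a ^ 2 + c` over `F_q[X]`, `q` even (helper604): the general case

`f_a = a² + X (γ b)²`, `b` monic.  `a` runs over the monic polynomials of degree `d` in a residue
class `a₀` modulo `M`, `b ^ 5 ∣ M`; `α ∣ M` is squarefree, `α ∣ f_{a₀}` and `f_{a₀} / α` is prime to
`M`.  Then `α ∣ f_a` and `f_a / α` is prime to `M` for all these `a`.
-/

namespace Pool.Agent.H604.LD

open Polynomial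
open scoped Classical
open Pool.Agent.H985.Chow (mob lc)
open Pool.Agent.H985.KP (sg PA mobg Good2 S_typ2)
open Pool.Agent.H985.FC (GP S_gcs S_winF)
open Pool.Agent.H694.Typ (Mn PU)

/-- The polynomial `a² + X (γ b)²`. -/
noncomputable def fa {K : Type} [Field K] (γ : K) (b a : K[X]) : K[X] := a ^ 2 + X * (C γ * b) ^ 2

/-- The phase at infinity: the coefficient of `X⁻¹` in `X a' ^ 3 / (a (γ b) ^ 2)`. -/
noncomputable def phg {K : Type} [Field K] (γ : K) (b a : K[X]) : K :=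
  (γ⁻¹) ^ 2 * lc (a * b ^ 2) (X * derivative a ^ 3)

/-- **Task PARINFG.** -/
def S_parinfg : Prop :=
  ∀ (K : Type) [Field K] [Fintype K] [CharP K 2] (γ : K) (b a₀ : K[X]) (d : ℕ), γ ≠ 0 → b.Monic →
    IsCoprime a₀ b → 5 * b.natDegree < d →
    ∃ η : ℝ, (η = 1 ∨ η = -1) ∧ ∀ a : K[X], a.Monic → a.natDegree = d → b ^ 5 ∣ a - a₀ →
      (mob (fa γ b a) : ℝ) = η * sg (phg γ b a)

/-- **Task CUBEG.** -/
def S_cubeg : Prop :=
  ∀ (K : Type) [Field K] [Fintype K] [CharP K 2] (k d τ : ℕ) (γ : K) (b a D s : K[X])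
    (h : Fin k → K[X]),
    1 ≤ k → γ ≠ 0 → b.Monic → a.Monic → a.natDegree = d → D.Monic → b ^ 5 ∣ D → s ≠ 0 →
    s ^ 2 = derivative (a * D) →
    (∀ A : Finset (Fin k), A.Nonempty → ∑ j ∈ A, h j ≠ 0 ∧ τ < (∑ j ∈ A, h j).natDegree ∧
      D.natDegree + 2 * (∑ j ∈ A, h j).natDegree < d) →
    3 * s.natDegree + (2 ^ k - 2) * D.natDegree +
      2 * ∑ A : Finset (Fin k), (∑ j ∈ A, h j).natDegree + τ + 1 = 2 ^ k * d + b.natDegree →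
    ∃ ω : K, ω ≠ 0 ∧ ∀ α : K,
      ∏ A : Finset (Fin k), (sg (phg γ b (a + D * (∑ j ∈ A, h j) ^ 2)) *
        sg (phg γ b (a + D * (∑ j ∈ A, h j + C α * X ^ τ) ^ 2))) = sg (α * ω)

/-- **Task WEYLG.** -/
def S_weylg : Prop :=
  ∀ (K : Type) [Field K] [Fintype K] [CharP K 2] (γ : K) (b : K[X]) (κ : ℝ), γ ≠ 0 → b.Monic →
    0 < κ → ∃ c : ℝ, 0 < c ∧ ∃ d₀ : ℕ, ∀ d : ℕ, d₀ ≤ d → ∀ D r : K[X], D.Monic → b ^ 5 ∣ D →
      IsCoprime r b → (D.natDegree : ℝ) ≤ (1 - κ) * d → r.degree < (d : WithBot ℕ) →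
      |∑ c ∈ Mn K (d - D.natDegree), (mob (fa γ b (r + D * c)) : ℝ)| ≤
        (Fintype.card K : ℝ) ^ ((d : ℝ) - D.natDegree - c * d)

/-- The residue class. -/
noncomputable def As (K : Type) [Field K] [Fintype K] (d : ℕ) (M a₀ : K[X]) : Finset K[X] :=
  (Mn K d).filter (fun a => M ∣ a - a₀)

/-- The polynomial `f_a / α`. -/
noncomputable def ga {K : Type} [Field K] (γ : K) (b α a : K[X]) : K[X] := fa γ b a / α

/-- The data of the problem. -/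
structure Dat {K : Type} [Field K] (γ : K) (b M a₀ α : K[X]) : Prop where
  γ0 : γ ≠ 0
  hb : b.Monic
  hM : M.Monic
  hbM : b ^ 5 ∣ M
  hα : α.Monic
  sα : Squarefree α
  αM : α ∣ M
  αf : α ∣ fa γ b a₀
  cop : IsCoprime (ga γ b α a₀) M

/-- The density of `P ∣ A B` in the family with `t w ≡ γ b` modulo `m`. -/
noncomputable def wmg {K : Type} [Field K] [Fintype K] (M m P : K[X]) : ℝ :=
  if P ∣ M then 0 else wm m P

/-- Universal upper bound sieve weights for the primes of degree at most `z`, of level `A z`. -/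
def BHWG (K : Type) [Field K] [Fintype K] (z A : ℕ) (C : ℝ) (U : Finset K[X] → ℝ) : Prop :=
  (∀ T, |U T| ≤ 1) ∧ U ∅ = 1 ∧
  (∀ T, U T ≠ 0 → T ⊆ Pz K z ∧ ∑ P ∈ T, P.natDegree ≤ A * z) ∧
  (∀ B ⊆ Pz K z, 0 ≤ ∑ T ∈ B.powerset, U T) ∧
  (∀ M m : K[X], M.Monic → m.Monic → (∑ T ∈ (Pz K z).powerset, U T * ∏ P ∈ T, wmg M m P) *
    (∏ᶠ P ∈ PA m, (1 - 1 / (Fintype.card K : ℝ) ^ P.natDegree)) *
    (∏ᶠ P ∈ PA M, (1 - 1 / (Fintype.card K : ℝ) ^ P.natDegree)) ^ 2 ≤ C / (z : ℝ) ^ 2)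

/-- **Task BHWG.** -/
def S_bhwg : Prop :=
  ∀ (K : Type) [Field K] [Fintype K], ∃ (A : ℕ) (C : ℝ), 1 ≤ A ∧ 0 < C ∧
    ∀ z : ℕ, 1 ≤ z → ∃ U : Finset K[X] → ℝ, BHWG K z A C U

/-- The sum over the divisors of degree `n`. -/
noncomputable def NnG {K : Type} [Field K] [Fintype K] (γ : K) (b M a₀ α : K[X]) (d n z : ℕ)
    (U : Finset K[X] → ℝ) : ℝ :=
  ∑ a ∈ As K d M a₀, ∑ D ∈ (Mn K n).filter (fun D => D ∣ ga γ b α a),
    (mob D : ℝ) * bw z U (ga γ b α a)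

/-- The twisted sum over the divisors of degree `n`. -/
noncomputable def NmG {K : Type} [Field K] [Fintype K] (γ : K) (b M a₀ α : K[X]) (d n z : ℕ)
    (U : Finset K[X] → ℝ) : ℝ :=
  ∑ a ∈ As K d M a₀, ∑ D ∈ (Mn K n).filter (fun D => D ∣ ga γ b α a),
    (mob D : ℝ) * (mob (ga γ b α a) : ℝ) * bw z U (ga γ b α a)

/-- **Task FAR1G.** -/
def S_far1g : Prop :=
  ∀ (K : Type) [Field K] [Fintype K] [CharP K 2] (γ : K) (b M a₀ α : K[X]) (A : ℕ) (C : ℝ),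
    Dat γ b M a₀ α → ∃ θ : ℝ, 0 < θ ∧ ∃ d₀ : ℕ,
    ∀ (d z J : ℕ) (U : Finset K[X] → ℝ), d₀ ≤ d → ((A * z : ℕ) : ℝ) ≤ θ * d → BHWG K z A C U →
      d ≤ 2 * J → J + A * z + M.natDegree ≤ d → J < d →
      |∑ j ∈ Finset.range (J + 1), ((d : ℝ) - (α.natDegree : ℝ) / 2 - j) * NnG γ b M a₀ α d j z U -
        (Fintype.card K : ℝ) ^ (d - M.natDegree) /
          ∏ᶠ P ∈ PA M, (1 - 1 / (Fintype.card K : ℝ) ^ P.natDegree)| ≤
        (Fintype.card K : ℝ) ^ ((1 - θ) * d)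

/-- **Task FAR2G.** -/
def S_far2g : Prop :=
  ∀ (K : Type) [Field K] [Fintype K] [CharP K 2] (γ : K) (b M a₀ α : K[X]) (A : ℕ) (C κ : ℝ),
    Dat γ b M a₀ α → 0 < κ → ∃ θ : ℝ, 0 < θ ∧
    ∃ d₀ : ℕ, ∀ (d z j : ℕ) (U : Finset K[X] → ℝ), d₀ ≤ d → BHWG K z A C U →
      ((j + A * z : ℕ) : ℝ) ≤ (1 - κ) * d →
      |NmG γ b M a₀ α d j z U| ≤ (Fintype.card K : ℝ) ^ ((1 - θ) * d)

/-- The polynomial `x` with `m x + t w = γ b`. -/
noncomputable def xG {K : Type} [Field K] (γ : K) (b t m w : K[X]) : K[X] :=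
  (t * w - C γ * b) / m

/-- The polynomial `a` with `a² + X (γ b)² = A B`. -/
noncomputable def aG {K : Type} [Field K] (o : Bool) (γ : K) (b t m w : K[X]) : K[X] :=
  if o then t * xG γ b t m w + X * (m * w) else m * w + X * (t * xG γ b t m w)

/-- The pairs `(t, w)`, `w` monic of degree `σ'`, `t w ≡ γ b` modulo `m`, in the residue class, with
`A` prime to `M`. -/
def FamG {K : Type} [Field K] (γ : K) (b M a₀ : K[X]) (o : Bool) (σ σ' : ℕ) (m : K[X]) :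
    Set (K[X] × K[X]) :=
  {p | p.1.degree < ((σ + o.toNat : ℕ) : WithBot ℕ) ∧ p.2.Monic ∧ p.2.natDegree = σ' ∧
    m ∣ p.1 * p.2 - C γ * b ∧ M ∣ aG o γ b p.1 m p.2 - a₀ ∧ IsCoprime (fA o p.1 m) M}

/-- The polynomial `A B / α`. -/
noncomputable def fABg {K : Type} [Field K] (o : Bool) (γ : K) (b α t m w : K[X]) : K[X] :=
  fA o t m * fA o (xG γ b t m w) w / α

/-- **Task PAIRG.** -/
def S_pairg : Prop :=
  ∀ (K : Type) [Field K] [Fintype K] [CharP K 2] (γ : K) (b M a₀ α : K[X]) (o : Bool)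
    (d σ σ' : ℕ) (Φ : K[X] → K[X] → ℝ), Dat γ b M a₀ α → b.natDegree < d →
    1 ≤ σ → 1 ≤ σ' → σ + σ' + o.toNat = d →
    ∑ a ∈ As K d M a₀, ∑ D ∈ (Mn K (2 * σ + o.toNat)).filter (fun D => D ∣ ga γ b α a),
        Φ D (ga γ b α a) =
      ∑ m ∈ Mn K σ, ∑ᶠ p ∈ FamG γ b M a₀ o σ σ' m, Φ (fA o p.1 m) (fABg o γ b α p.1 m p.2)

/-- **Task HYPG.** -/
def S_hypg : Prop :=
  ∀ (K : Type) [Field K] [Fintype K] [CharP K 2], ∃ M : ℝ, 1 ≤ M ∧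
    ∀ (m E₁ E₂ t₀ w₀ : K[X]) (L₁ L₂ : ℕ), m.Monic → Squarefree m → IsCoprime E₁ m →
      IsCoprime E₂ m →
      |(({p : K[X] × K[X] | p.1.degree < (L₁ : WithBot ℕ) ∧ p.2.degree < (L₂ : WithBot ℕ) ∧
          m ∣ (t₀ + E₁ * p.1) * (w₀ + E₂ * p.2) - 1}.ncard : ℝ)) -
        (Fintype.card K : ℝ) ^ (L₁ + L₂) / (Fintype.card K : ℝ) ^ m.natDegree *
          ∏ᶠ P ∈ PA m, (1 - 1 / (Fintype.card K : ℝ) ^ P.natDegree)| ≤
        M ^ (PA m).ncard * ((Fintype.card K : ℝ) ^ ((m.natDegree : ℝ) / 2) +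
          (Fintype.card K : ℝ) ^ ((L₁ - L₂) + (L₂ - L₁)))

/-- **Task UP2G.** -/
def S_up2g : Prop :=
  ∀ (K : Type) [Field K] [Fintype K] [CharP K 2] (γ : K) (b M a₀ α : K[X]) (A : ℕ) (C : ℝ),
    Dat γ b M a₀ α → 0 < C → ∃ C₁ θ : ℝ, 0 < C₁ ∧ 0 < θ ∧ ∃ σ₀ : ℕ,
    ∀ (o : Bool) (σ σ' z : ℕ) (U : Finset K[X] → ℝ) (m m₁ m₂ : K[X]), σ₀ ≤ σ → 1 ≤ z →
      ((A * z : ℕ) : ℝ) ≤ θ * σ → |(σ : ℝ) - σ'| ≤ θ * σ → BHWG K z A C U →
      m = m₁ * m₂ → m₁.Monic → m₂.Monic → m.natDegree = σ → IsCoprime m₁ m₂ → Squarefree m₂ →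
      (m₁.natDegree : ℝ) ≤ θ * σ →
      ∑ᶠ p ∈ FamG γ b M a₀ o σ σ' m, bw z U (fABg o γ b α p.1 m p.2) ≤
        C₁ * (Fintype.card K : ℝ) ^ σ' / (z : ℝ) ^ 2

/-- **Task TYPCG.** -/
def S_typcg : Prop :=
  ∀ (K : Type) [Field K] [Fintype K] [CharP K 2] (γ : K) (b M a₀ α : K[X]) (A E₀ : ℕ)
    (C δ : ℝ), Dat γ b M a₀ α → 0 < δ → ∃ θ : ℝ, 0 < θ ∧ ∃ σ₀ : ℕ,
    ∀ (o : Bool) (σ σ' z : ℕ) (U : Finset K[X] → ℝ) (m : K[X]), σ₀ ≤ σ →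
      ((A * z : ℕ) : ℝ) ≤ θ * σ → |(σ : ℝ) - σ'| ≤ θ * σ → BHWG K z A C U →
      m.Monic → m.natDegree = σ → Good2 1 δ E₀ σ m →
      |∑ᶠ p ∈ FamG γ b M a₀ o σ σ' m,
        (mob (fA o p.1 m) : ℝ) * bw z U (fABg o γ b α p.1 m p.2)| ≤
        (Fintype.card K : ℝ) ^ ((σ' : ℝ) - θ * σ)

/-- **Task NEARG.** -/
def S_nearg : Prop :=
  ∀ (K : Type) [Field K] [Fintype K] [CharP K 2] (γ : K) (b M a₀ α : K[X]) (A : ℕ) (C ε : ℝ),
    Dat γ b M a₀ α → 0 < C → 0 < ε → ∃ θ : ℝ, 0 < θ ∧ ∃ d₀ : ℕ,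
    ∀ (d n z : ℕ) (U : Finset K[X] → ℝ), d₀ ≤ d → 1 ≤ z → ((A * z : ℕ) : ℝ) ≤ θ * d →
      |(n : ℝ) - d| ≤ θ * d → BHWG K z A C U →
      |NnG γ b M a₀ α d n z U| ≤ ε * (Fintype.card K : ℝ) ^ d / (z : ℝ) ^ 2

/-- **Task HIDG.**  The identity for the primes, any degree. -/
def S_hidg : Prop :=
  ∀ (K : Type) [Field K] [Fintype K] (n : ℕ) (f : K[X]), 1 ≤ n → f.Monic → Squarefree f →
    f.natDegree = n →
    (1 - (mob f : ℝ)) * ∑ j ∈ Finset.range (n / 2 + 1), ((n : ℝ) / 2 - j) *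
      ∑ D ∈ (Mn K j).filter (fun D => D ∣ f), (mob D : ℝ) = if Irreducible f then (n : ℝ) else 0

/-- **The general theorem.** -/
def S_landaug : Prop :=
  ∀ (K : Type) [Field K] [Fintype K] [CharP K 2] (γ : K) (b M a₀ α : K[X]), Dat γ b M a₀ α →
    Filter.Tendsto (fun d : ℕ => 2 * (d : ℝ) *
      (((As K d M a₀).filter (fun a => Irreducible (ga γ b α a))).card : ℝ) *
        (∏ᶠ P ∈ PA M, (1 - 1 / (Fintype.card K : ℝ) ^ P.natDegree)) /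
          (Fintype.card K : ℝ) ^ (d - M.natDegree))
      Filter.atTop (nhds 1)

/-- Task FING. -/
def S_ldfing : Prop := S_hidg → S_far1g → S_far2g → S_nearg → S_bhwg → S_landaug

/-- **The Bateman–Horn asymptotic for the inseparable quadratic polynomials.**  Let `α T² + β` be
irreducible over `K(X)`, `α` and `β` coprime.  The number of the monic `T` of degree `d` with
`α T² + β` irreducible is asymptotic to `q ^ d / (2 d)` times the product of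
`(1 - 1 / |P|)⁻¹` over the primes `P ∣ α`. -/
def S_bhq : Prop :=
  ∀ (K : Type) [Field K] [Fintype K] [CharP K 2] (α β : K[X]), α ≠ 0 → IsCoprime α β →
    ¬ IsSquare (α * β) →
    Filter.Tendsto (fun d : ℕ => 2 * (d : ℝ) *
      (((Mn K d).filter (fun T => Irreducible (α * T ^ 2 + β))).card : ℝ) *
        (∏ᶠ P ∈ PA α, (1 - 1 / (Fintype.card K : ℝ) ^ P.natDegree)) /
          (Fintype.card K : ℝ) ^ d)
      Filter.atTop (nhds 1)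

/-- **Task BHQ.** -/
def S_tbhq : Prop := S_landaug → S_bhq

end Pool.Agent.H604.LD
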