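import Pool.Agent.H604.LD.StmM
import Pool.Agent.H604.LD.Cube

/-!
# Task DEG: the degenerate case (helper328, for helper604)
-/

set_option autoImplicit false

namespace Pool.Agent.H604.LD

open Polynomial
open scoped Classical
open Pool.Agent.H985.Chow (mob lc)
open Pool.Agent.H985.KP (sg)

namespace DegL

variable {K : Type} [Field K]

lemma rf_mul (p q : K[X]) : rf (p * q) = rf p * rf q := map_mul _ p q
lemma rf_add (p q : K[X]) : rf (p + q) = rf p + rf q := map_add _ p q
lemma rf_sub (p q : K[X]) : rf (p - q) = rf p - rf q := map_sub _ p q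
lemma rf_pow (p : K[X]) (n : ℕ) : rf (p ^ n) = rf p ^ n := map_pow _ p n
lemma rf_one : rf (1 : K[X]) = 1 := map_one _
lemma rf_zero : rf (0 : K[X]) = 0 := map_zero _
lemma rf_inj {p q : K[X]} (h : rf p = rf q) : p = q := RatFunc.algebraMap_injective K h
lemma rf_ne {p : K[X]} (h : p ≠ 0) : rf p ≠ 0 := fun h' => h (rf_inj (h'.trans rf_zero.symm))

lemma rf_C_ne {c : K} (h : c ≠ 0) : rf (C c) ≠ 0 := rf_ne (by simpa using h)

lemma rf_C_inv {c : K} (h : c ≠ 0) : rf (C c⁻¹) = (rf (C c))⁻¹ := by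
  apply eq_inv_of_mul_eq_one_left
  rw [← rf_mul, ← C_mul, inv_mul_cancel₀ h, C_1, rf_one]

/-- The coefficient of `X⁻¹`. -/
noncomputable def res (f : RatFunc K) : K := lc f.denom f.num

lemma res_div {p q : K[X]} (hq : q.Monic) : res (rf p / rf q) = lc q p := by
  set f := rf p / rf q with hf
  have hq0 : rf q ≠ 0 := rf_ne hq.ne_zero
  have hd : f.denom.Monic := RatFunc.monic_denom f
  have hd0 : rf f.denom ≠ 0 := rf_ne hd.ne_zero
  have h1 : rf f.num / rf f.denom = f := RatFunc.num_div_denom f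
  have h2 : p * f.denom = f.num * q := by
    apply rf_inj
    rw [rf_mul, rf_mul]
    have h3 : rf f.num / rf f.denom = rf p / rf q := h1.trans hf
    rw [div_eq_div_iff hd0 hq0] at h3
    exact h3.symm
  unfold res
  rw [← Pool.Agent.H985.Chow.RT.lc_mul hd hq f.num, ← Pool.Agent.H985.Chow.RT.lc_mul hq hd p, h2,
    mul_comm q]

lemma res_add (f g : RatFunc K) : res (f + g) = res f + res g := by
  have hf : f.denom.Monic := RatFunc.monic_denom f
  have hg : g.denom.Monic := RatFunc.monic_denom g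
  have h1 : rf f.num / rf f.denom = f := RatFunc.num_div_denom f
  have h2 : rf g.num / rf g.denom = g := RatFunc.num_div_denom g
  have h3 : f + g = rf (f.num * g.denom + g.num * f.denom) / rf (f.denom * g.denom) := by
    conv_lhs => rw [← h1, ← h2]
    rw [div_add_div _ _ (rf_ne hf.ne_zero) (rf_ne hg.ne_zero), rf_add, rf_mul, rf_mul, rf_mul]
    ring
  rw [h3, res_div (hf.mul hg), Pool.Agent.H985.Chow.RT.lc_add,
    Pool.Agent.H985.Chow.RT.lc_mul hf hg, mul_comm f.denom g.denom,
    Pool.Agent.H985.Chow.RT.lc_mul hg hf]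
  rfl

lemma res_zero : res (0 : RatFunc K) = 0 := by
  have := res_add (0 : RatFunc K) 0
  rw [add_zero] at this
  exact left_eq_add.1 this

lemma res_sum {ι : Type} (s : Finset ι) (f : ι → RatFunc K) :
    res (∑ i ∈ s, f i) = ∑ i ∈ s, res (f i) := by
  induction s using Finset.induction_on with
  | empty => simp [res_zero]
  | insert a s ha ih => rw [Finset.sum_insert ha, Finset.sum_insert ha, res_add, ih]

lemma lc_C_mul (D N : K[X]) (c : K) : lc D (C c * N) = c * lc D N := by
  unfold lc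
  rw [← smul_eq_C_mul, smul_modByMonic, coeff_smul, smul_eq_mul]

lemma res_C_mul (c : K) (f : RatFunc K) : res (rf (C c) * f) = c * res f := by
  have hf : f.denom.Monic := RatFunc.monic_denom f
  have h1 : rf f.num / rf f.denom = f := RatFunc.num_div_denom f
  have h2 : rf (C c) * f = rf (C c * f.num) / rf f.denom := by
    conv_lhs => rw [← h1]
    rw [rf_mul, mul_div_assoc]
  rw [h2, res_div hf, lc_C_mul]
  rfl

/-- The degree is at most `m`. -/
def Le (f : RatFunc K) (m : ℤ) : Prop := f = 0 ∨ f.intDegree ≤ m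

lemma Le.mono {f : RatFunc K} {m n : ℤ} (h : Le f m) (hmn : m ≤ n) : Le f n :=
  h.imp id (fun h => h.trans hmn)

lemma Le.mul {f g : RatFunc K} {m n : ℤ} (hf : Le f m) (hg : Le g n) : Le (f * g) (m + n) := by
  rcases hf with rfl | hf
  · exact Or.inl (zero_mul _)
  rcases hg with rfl | hg
  · exact Or.inl (mul_zero _)
  by_cases hf0 : f = 0
  · exact Or.inl (by rw [hf0, zero_mul])
  by_cases hg0 : g = 0
  · exact Or.inl (by rw [hg0, mul_zero])
  right
  rw [RatFunc.intDegree_mul hf0 hg0]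
  exact add_le_add hf hg

lemma Le.add {f g : RatFunc K} {m : ℤ} (hf : Le f m) (hg : Le g m) : Le (f + g) m := by
  rcases hf with rfl | hf
  · rwa [zero_add]
  rcases hg with rfl | hg
  · rw [add_zero]; exact Or.inr hf
  by_cases hg0 : g = 0
  · rw [hg0, add_zero]; exact Or.inr hf
  by_cases h0 : f + g = 0
  · exact Or.inl h0
  right
  exact (RatFunc.intDegree_add_le hg0 h0).trans (max_le hf hg)

lemma Le.neg {f : RatFunc K} {m : ℤ} (hf : Le f m) : Le (-f) m := by
  rcases hf with rfl | hf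
  · exact Or.inl neg_zero
  · right
    rwa [RatFunc.intDegree_neg]

lemma Le.sub {f g : RatFunc K} {m : ℤ} (hf : Le f m) (hg : Le g m) : Le (f - g) m := by
  rw [sub_eq_add_neg]
  exact hf.add hg.neg

lemma Le.sum {ι : Type} (s : Finset ι) {f : ι → RatFunc K} {m : ℤ} (h : ∀ i ∈ s, Le (f i) m) :
    Le (∑ i ∈ s, f i) m := by
  induction s using Finset.induction_on with
  | empty => left; simp
  | insert a s ha ih =>
    rw [Finset.sum_insert ha]
    exact (h a (Finset.mem_insert_self a s)).add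
      (ih fun i hi => h i (Finset.mem_insert_of_mem hi))

lemma Le.poly {p : K[X]} {m : ℤ} (h : (p.natDegree : ℤ) ≤ m) : Le (rf p) m := by
  right
  unfold rf
  rwa [RatFunc.intDegree_polynomial]

lemma Le.div {p q : K[X]} {m : ℤ} (hq : q ≠ 0) (h : (p.natDegree : ℤ) ≤ q.natDegree + m) :
    Le (rf p / rf q) m := by
  have h1 : Le (rf q)⁻¹ (-(q.natDegree : ℤ)) := by
    right
    rw [RatFunc.intDegree_inv]
    unfold rf
    rw [RatFunc.intDegree_polynomial]
  rw [div_eq_mul_inv]
  refine ((Le.poly (p := p) le_rfl).mul h1).mono ?_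
  linarith

lemma res_eq_zero {f : RatFunc K} (h : Le f (-2)) : res f = 0 := by
  rcases h with rfl | h
  · exact res_zero
  · unfold res
    apply Pool.Agent.H985.Chow.RT.lc_small (RatFunc.monic_denom f)
    unfold RatFunc.intDegree at h
    omega

lemma quot_diff {p q p' q' : K[X]} {d N : ℕ} (hp' : p'.natDegree ≤ d)
    (hq : q.Monic) (hqd : q.natDegree = d) (hq' : q'.Monic) (hqd' : q'.natDegree = d)
    (h1 : (p - p').natDegree + N ≤ d) (h2 : (q - q').natDegree + N ≤ d) :
    Le (rf p / rf q - rf p' / rf q') (-(N : ℤ)) := by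
  have e : rf p / rf q - rf p' / rf q' =
      rf ((p - p') * q' - p' * (q - q')) / rf (q * q') := by
    rw [div_sub_div _ _ (rf_ne hq.ne_zero) (rf_ne hq'.ne_zero), ← rf_mul, ← rf_mul, ← rf_mul,
      ← rf_sub]
    congr 2
    ring
  rw [e]
  apply Le.div (hq.mul hq').ne_zero
  have h3 : ((p - p') * q' - p' * (q - q')).natDegree + N ≤ 2 * d := by
    have h4 : ((p - p') * q').natDegree ≤ (p - p').natDegree + q'.natDegree := natDegree_mul_le
    have h5 : (p' * (q - q')).natDegree ≤ p'.natDegree + (q - q').natDegree := natDegree_mul_le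
    have h6 := natDegree_sub_le ((p - p') * q') (p' * (q - q'))
    rcases le_max_iff.1 h6 with h | h <;> omega
  rw [hq.natDegree_mul hq', hqd, hqd']
  push_cast
  omega

lemma cong_mul {f f' g g' : RatFunc K} {m : ℤ} (hg : Le g 0) (hf' : Le f' 0)
    (h1 : Le (f - f') m) (h2 : Le (g - g') m) : Le (f * g - f' * g') m := by
  have e : f * g - f' * g' = (f - f') * g + f' * (g - g') := by ring
  rw [e]
  exact ((h1.mul hg).mono (by linarith)).add ((hf'.mul h2).mono (by linarith))

/-- The part of `(a' + e') ^ 3 / (a + e)` of bounded degree. -/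
noncomputable def G (e a : K[X]) : RatFunc K :=
  rf e ^ 2 * (rf (derivative a) / rf a * (rf (derivative a) / rf a) *
      (rf (derivative a) / rf (a + e))) -
    3 * rf e * rf (derivative e) * (rf (derivative a) / rf a * (rf (derivative a) / rf (a + e))) +
    3 * rf (derivative e) ^ 2 * (rf (derivative a) / rf (a + e)) +
    rf (derivative e) ^ 3 * (rf 1 / rf (a + e))

lemma expand {e a : K[X]} (ha : a ≠ 0) (hae : a + e ≠ 0) :
    rf (derivative (a + e)) ^ 3 / rf (a + e) =
      rf (derivative a) ^ 3 / rf a - rf (derivative a) ^ 3 / rf a ^ 2 * rf e +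
        3 * (rf (derivative a) ^ 2 / rf a) * rf (derivative e) + G e a := by
  have h1 := rf_ne ha
  have h2 := rf_ne hae
  have h3 : rf (a + e) = rf a + rf e := rf_add a e
  have h4 : rf (derivative (a + e)) = rf (derivative a) + rf (derivative e) := by
    rw [derivative_add, rf_add]
  unfold G
  rw [h4, rf_one]
  rw [h3] at h2 ⊢
  field_simp
  ring

lemma G_diff {e a a' : K[X]} {d N M : ℕ} (ha : a.Monic) (had : a.natDegree = d)
    (ha' : a'.Monic) (had' : a'.natDegree = d) (he : e.natDegree < d) (heM : e.natDegree ≤ M)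
    (h : (a - a').natDegree + N ≤ d) : Le (G e a - G e a') (3 * M - N) := by
  have hN : N ≤ d := by omega
  have hdeg : ∀ x : K[X], x.natDegree = d → e.degree < x.degree := by
    intro x hx
    apply degree_lt_degree
    omega
  have hm : (a + e).Monic := ha.add_of_left (hdeg a had)
  have hm' : (a' + e).Monic := ha'.add_of_left (hdeg a' had')
  have hd : (a + e).natDegree = d := by
    rw [natDegree_add_eq_left_of_degree_lt (hdeg a had), had]
  have hd' : (a' + e).natDegree = d := by
    rw [natDegree_add_eq_left_of_degree_lt (hdeg a' had'), had']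
  have hda : (derivative a).natDegree ≤ d := by
    have := natDegree_derivative_le a
    omega
  have hda' : (derivative a').natDegree ≤ d := by
    have := natDegree_derivative_le a'
    omega
  have hdd : (derivative a - derivative a').natDegree + N ≤ d := by
    rw [← derivative_sub]
    have := natDegree_derivative_le (a - a')
    omega
  have hae : (a + e - (a' + e)).natDegree + N ≤ d := by
    rw [add_sub_add_right_eq_sub]
    exact h
  have hU : Le (rf (derivative a) / rf a) 0 := Le.div ha.ne_zero (by rw [had]; simpa using hda)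
  have hU' : Le (rf (derivative a') / rf a') 0 :=
    Le.div ha'.ne_zero (by rw [had']; simpa using hda')
  have hW : Le (rf (derivative a) / rf (a + e)) 0 :=
    Le.div hm.ne_zero (by rw [hd]; simpa using hda)
  have hW' : Le (rf (derivative a') / rf (a' + e)) 0 :=
    Le.div hm'.ne_zero (by rw [hd']; simpa using hda')
  have h1 : Le (rf (derivative a) / rf a - rf (derivative a') / rf a') (-(N : ℤ)) :=
    quot_diff hda' ha had ha' had' hdd h
  have h2 : Le (rf (derivative a) / rf (a + e) - rf (derivative a') / rf (a' + e)) (-(N : ℤ)) :=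
    quot_diff hda' hm hd hm' hd' hdd hae
  have h3 : Le (rf 1 / rf (a + e) - rf 1 / rf (a' + e)) (-(N : ℤ)) :=
    quot_diff (by simp) hm hd hm' hd' (by simpa using hN) hae
  have h4 := cong_mul hU hU' h1 h1
  have h5 := cong_mul hW ((hU'.mul hU').mono (by norm_num)) h4 h2
  have h6 := cong_mul hW hU' h1 h2
  have hE : Le (rf e) M := Le.poly (by exact_mod_cast heM)
  have hE' : Le (rf (derivative e)) M := Le.poly (by
    have := natDegree_derivative_le e
    omega)
  have hc : Le (3 : RatFunc K) 0 := by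
    have : (3 : RatFunc K) = rf (3 : K[X]) := by
      unfold rf
      rw [map_ofNat]
    rw [this]
    apply Le.poly
    have : (3 : K[X]) = C 3 := by rw [map_ofNat]
    rw [this, natDegree_C]
    simp
  have e1 : G e a - G e a' =
      rf e ^ 2 * (rf (derivative a) / rf a * (rf (derivative a) / rf a) *
        (rf (derivative a) / rf (a + e)) - rf (derivative a') / rf a' *
          (rf (derivative a') / rf a') * (rf (derivative a') / rf (a' + e))) -
      3 * rf e * rf (derivative e) * (rf (derivative a) / rf a *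
        (rf (derivative a) / rf (a + e)) - rf (derivative a') / rf a' *
          (rf (derivative a') / rf (a' + e))) +
      3 * rf (derivative e) ^ 2 * (rf (derivative a) / rf (a + e) -
        rf (derivative a') / rf (a' + e)) +
      rf (derivative e) ^ 3 * (rf 1 / rf (a + e) - rf 1 / rf (a' + e)) := by
    unfold G
    ring
  rw [e1]
  have hM0 : (0 : ℤ) ≤ M := Nat.cast_nonneg M
  refine ((Le.sub ?_ ?_).add ?_).add ?_
  · rw [sq]
    exact ((hE.mul hE).mul h5).mono (by linarith)
  · exact (((hc.mul hE).mul hE').mul h6).mono (by linarith)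
  · rw [sq]
    exact ((hc.mul (hE'.mul hE')).mul h2).mono (by linarith)
  · rw [pow_succ, sq]
    exact (((hE'.mul hE').mul hE').mul h3).mono (by linarith)

lemma phg_eq {γ : K} (hγ : γ ≠ 0) {b a : K[X]} (hb : b.Monic) (ha : a.Monic) :
    phg γ b a = res (rf X * (1 / rf (C γ * b) ^ 2 * (rf (derivative a) ^ 3 / rf a))) := by
  unfold phg
  rw [← res_div (ha.mul (hb.pow 2)), ← res_C_mul]
  congr 1
  have h1 := rf_ne ha.ne_zero
  have h2 := rf_ne hb.ne_zero
  have h3 := rf_C_ne hγ
  rw [C_pow, rf_pow, rf_C_inv hγ, rf_mul, rf_mul, rf_mul, rf_pow, rf_pow]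
  field_simp

section char2

variable [CharP K 2] {n : ℕ} {γ : Fin n → K} {b e : Fin n → K[X]}

lemma rf_bt (hγ : ∀ i, γ i ≠ 0) (hb : ∀ i, (b i).Monic) (i : Fin n) :
    1 / rf (C (γ i) * b i) ^ 2 = 1 / rf (bB γ b) ^ 2 * rf (bt γ b i ^ 2) := by
  have h1 : ∀ j, C (γ j) * b j ≠ 0 := fun j =>
    mul_ne_zero (by simpa using hγ j) (hb j).ne_zero
  have h2 : bB γ b = C (γ i) * b i * bt γ b i := by
    unfold bB bt
    exact (Finset.mul_prod_erase _ _ (Finset.mem_univ i)).symm
  have h3 : bt γ b i ≠ 0 := Finset.prod_ne_zero_iff.2 fun j _ => h1 j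
  have h4 := rf_ne (h1 i)
  have h5 := rf_ne h3
  rw [h2, rf_mul _ (bt γ b i), rf_pow]
  field_simp

lemma sq_sum (s : Finset (Fin n)) (f : Fin n → K[X]) :
    (∑ i ∈ s, f i) ^ 2 = ∑ i ∈ s, f i ^ 2 := by
  have : CharP K[X] 2 := inferInstance
  exact sum_pow_char 2 s f

lemma sum_w0 (hγ : ∀ i, γ i ≠ 0) (hb : ∀ i, (b i).Monic) (h : om γ b = 0) :
    ∑ i, 1 / rf (C (γ i) * b i) ^ 2 = 0 := by
  have h1 : ∑ i, bt γ b i ^ 2 = 0 := by
    rw [← sq_sum]
    have : ∑ i, bt γ b i = 0 := h
    rw [this]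
    ring
  have h2 : ∑ i, 1 / rf (C (γ i) * b i) ^ 2 = 1 / rf (bB γ b) ^ 2 * rf (∑ i, bt γ b i ^ 2) := by
    unfold rf
    rw [map_sum, Finset.mul_sum]
    exact Finset.sum_congr rfl fun i _ => rf_bt hγ hb i
  rw [h2, h1, rf_zero, mul_zero]

lemma sum_w1 (hγ : ∀ i, γ i ≠ 0) (hb : ∀ i, (b i).Monic) (h : p1 γ b e = 0) :
    ∑ i, 1 / rf (C (γ i) * b i) ^ 2 * rf (e i) = 0 := by
  have h2 : ∑ i, 1 / rf (C (γ i) * b i) ^ 2 * rf (e i) =
      1 / rf (bB γ b) ^ 2 * rf (∑ i, e i * bt γ b i ^ 2) := by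
    have e1 : rf (∑ i, e i * bt γ b i ^ 2) = ∑ i, rf (e i * bt γ b i ^ 2) := map_sum _ _ _
    rw [e1, Finset.mul_sum]
    refine Finset.sum_congr rfl fun i _ => ?_
    rw [rf_bt hγ hb i, rf_mul]
    ring
  have h1 : ∑ i, e i * bt γ b i ^ 2 = 0 := h
  rw [h2, h1, rf_zero, mul_zero]

lemma der_sq (f : K[X]) : derivative (f ^ 2) = 0 := by
  have h2 : (2 : K[X]) = 0 := by
    have := CharP.cast_eq_zero K[X] 2
    exact_mod_cast this
  rw [derivative_pow]
  simp only [Nat.cast_ofNat]
  rw [map_ofNat, h2]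
  ring

lemma sum_w2 (hγ : ∀ i, γ i ≠ 0) (hb : ∀ i, (b i).Monic) (h : p1 γ b e = 0) :
    ∑ i, 1 / rf (C (γ i) * b i) ^ 2 * rf (derivative (e i)) = 0 := by
  apply sum_w1 hγ hb
  have h1 : derivative (p1 γ b e) = 0 := by rw [h, derivative_zero]
  unfold p1 at h1 ⊢
  rw [derivative_sum] at h1
  rw [← h1]
  refine Finset.sum_congr rfl fun i _ => ?_
  rw [derivative_mul, der_sq, mul_zero, add_zero]

/-- the sum of the phases -/
noncomputable def Ph (γ : Fin n → K) (b e : Fin n → K[X]) (a : K[X]) : RatFunc K :=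
  rf X * ∑ i, 1 / rf (C (γ i) * b i) ^ 2 * G (e i) a

lemma sum_phg (hγ : ∀ i, γ i ≠ 0) (hb : ∀ i, (b i).Monic) (h0 : om γ b = 0) (h1 : p1 γ b e = 0)
    {a : K[X]} (ha : a.Monic) (hae : ∀ i, (a + e i).Monic) :
    ∑ i, phg (γ i) (b i) (a + e i) = res (Ph γ b e a) := by
  have e1 : ∀ i, phg (γ i) (b i) (a + e i) =
      res (rf X * (1 / rf (C (γ i) * b i) ^ 2 * (rf (derivative (a + e i)) ^ 3 / rf (a + e i)))) :=
    fun i => phg_eq (hγ i) (hb i) (hae i)
  rw [Finset.sum_congr rfl fun i _ => e1 i, ← res_sum, ← Finset.mul_sum]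
  congr 2
  have e2 : ∀ i, 1 / rf (C (γ i) * b i) ^ 2 * (rf (derivative (a + e i)) ^ 3 / rf (a + e i)) =
      1 / rf (C (γ i) * b i) ^ 2 * (rf (derivative a) ^ 3 / rf a) -
      1 / rf (C (γ i) * b i) ^ 2 * rf (e i) * (rf (derivative a) ^ 3 / rf a ^ 2) +
      1 / rf (C (γ i) * b i) ^ 2 * rf (derivative (e i)) * (3 * (rf (derivative a) ^ 2 / rf a)) +
      1 / rf (C (γ i) * b i) ^ 2 * G (e i) a := by
    intro i
    rw [expand ha.ne_zero (hae i).ne_zero]
    ring
  rw [Finset.sum_congr rfl fun i _ => e2 i, Finset.sum_add_distrib, Finset.sum_add_distrib,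
    Finset.sum_sub_distrib, ← Finset.sum_mul, ← Finset.sum_mul, ← Finset.sum_mul,
    sum_w0 hγ hb h0, sum_w1 hγ hb h1, sum_w2 hγ hb h1]
  ring

lemma Ph_eq (hγ : ∀ i, γ i ≠ 0) (hb : ∀ i, (b i).Monic) {a a' : K[X]} {d M N : ℕ}
    (ha : a.Monic) (had : a.natDegree = d) (ha' : a'.Monic) (had' : a'.natDegree = d)
    (hM : ∀ i, (e i).natDegree ≤ M) (hN : 3 * M + 3 ≤ N) (h : (a - a').natDegree + N ≤ d) :
    res (Ph γ b e a) = res (Ph γ b e a') := by
  have h1 : Le (Ph γ b e a - Ph γ b e a') (-2) := by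
    have e1 : Ph γ b e a - Ph γ b e a' =
        rf X * ∑ i, 1 / rf (C (γ i) * b i) ^ 2 * (G (e i) a - G (e i) a') := by
      unfold Ph
      rw [← mul_sub, ← Finset.sum_sub_distrib]
      congr 1
      exact Finset.sum_congr rfl fun i _ => (mul_sub _ _ _).symm
    rw [e1]
    have h2 : Le (∑ i, 1 / rf (C (γ i) * b i) ^ 2 * (G (e i) a - G (e i) a')) (-3) := by
      apply Le.sum
      intro i _
      have h3 : Le (G (e i) a - G (e i) a') (3 * M - N) :=
        G_diff ha had ha' had' (by have := hM i; omega) (hM i) h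
      have h4 : Le (1 / rf (C (γ i) * b i) ^ 2) 0 := by
        have h5 : C (γ i) * b i ≠ 0 := mul_ne_zero (by simpa using hγ i) (hb i).ne_zero
        rw [← rf_one, ← rf_pow]
        apply Le.div (pow_ne_zero 2 h5)
        simp
      exact (h4.mul h3).mono (by push_cast; omega)
    have h3 : Le (rf (X : K[X])) 1 := Le.poly (by simp)
    exact (h3.mul h2).mono (by norm_num)
  have h2 := res_add (Ph γ b e a - Ph γ b e a') (Ph γ b e a')
  rw [sub_add_cancel, res_eq_zero h1, zero_add] at h2
  exact h2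

omit [CharP K 2] in
/-- not coprime: not squarefree -/
lemma mob_zero {c : K} {g x : K[X]} (hg : g.Monic) (h : ¬ IsCoprime x g) :
    mob (fa c g x) = 0 := by
  unfold mob
  rw [if_neg]
  intro hs
  apply h
  by_contra hc
  obtain ⟨P, hP, hPx, hPg⟩ : ∃ P : K[X], Prime P ∧ P ∣ x ∧ P ∣ g := by
    by_contra hne
    push Not at hne
    exact hc (isCoprime_of_prime_dvd (fun h => hg.ne_zero h.2)
      (fun P hP h1 h2 => hne P hP h1 h2))
  have h1 : P * P ∣ fa c g x := by
    unfold fa
    rw [← sq]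
    exact dvd_add (pow_dvd_pow_of_dvd hPx 2)
      (Dvd.dvd.mul_left (pow_dvd_pow_of_dvd (Dvd.dvd.mul_left hPg _) 2) _)
  exact hP.not_unit (hs P h1)

end char2

end DegL

open DegL in
/-- **Task DEG.** -/
theorem deg (hp : S_parinfg) : S_deg := by
  intro K _ _ _ n γ b e hγ hb h0 h1
  set M := ∑ i, (e i).natDegree with hM
  set B := ∑ i, (b i).natDegree with hB
  have hMi : ∀ i, (e i).natDegree ≤ M := fun i =>
    Finset.single_le_sum (f := fun i => (e i).natDegree) (fun _ _ => Nat.zero_le _)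
      (Finset.mem_univ i)
  have hBi : ∀ i, (b i).natDegree ≤ B := fun i =>
    Finset.single_le_sum (f := fun i => (b i).natDegree) (fun _ _ => Nat.zero_le _)
      (Finset.mem_univ i)
  refine ⟨3 * M + 5 * B + 3, ?_⟩
  intro d a a' hNd ha had ha' had' hdvd hdeg
  have hdg : ∀ i, ∀ x : K[X], x.natDegree = d → (e i).degree < x.degree := by
    intro i x hx
    apply degree_lt_degree
    have := hMi i
    omega
  have hm : ∀ i, (a + e i).Monic := fun i => ha.add_of_left (hdg i a had)
  have hm' : ∀ i, (a' + e i).Monic := fun i => ha'.add_of_left (hdg i a' had')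
  have hd : ∀ i, (a + e i).natDegree = d := fun i => by
    rw [natDegree_add_eq_left_of_degree_lt (hdg i a had), had]
  have hd' : ∀ i, (a' + e i).natDegree = d := fun i => by
    rw [natDegree_add_eq_left_of_degree_lt (hdg i a' had'), had']
  unfold mobP
  by_cases hcop : ∀ i, IsCoprime (a + e i) (b i)
  · have hη : ∀ i, ∃ η : ℝ, (mob (fa (γ i) (b i) (a + e i)) : ℝ) =
        η * sg (phg (γ i) (b i) (a + e i)) ∧ (mob (fa (γ i) (b i) (a' + e i)) : ℝ) =
        η * sg (phg (γ i) (b i) (a' + e i)) := by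
      intro i
      obtain ⟨η, -, h⟩ := hp K (γ i) (b i) (a + e i) d (hγ i) (hb i) (hcop i) (by
        have := hBi i
        omega)
      refine ⟨η, h _ (hm i) (hd i) (by simp), h _ (hm' i) (hd' i) ?_⟩
      rw [add_sub_add_right_eq_sub]
      rw [← neg_sub]
      exact (dvd_neg).2 (hdvd i)
    choose η hη1 hη2 using hη
    rw [Finset.prod_congr rfl fun i _ => hη1 i, Finset.prod_congr rfl fun i _ => hη2 i,
      Finset.prod_mul_distrib, Finset.prod_mul_distrib, CubeL.sg_sum, CubeL.sg_sum,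
      sum_phg hγ hb h0 h1 ha hm, sum_phg hγ hb h0 h1 ha' hm',
      Ph_eq hγ hb ha had ha' had' hMi (by omega) hdeg]
  · push Not at hcop
    obtain ⟨i, hi⟩ := hcop
    have hi' : ¬ IsCoprime (a' + e i) (b i) := by
      intro h
      apply hi
      have h2 : b i ∣ a - a' := (dvd_pow_self _ (by norm_num)).trans (hdvd i)
      obtain ⟨c, hc⟩ := h2
      have h3 : a + e i = a' + e i + b i * c := by
        rw [← hc]
        ring
      rw [h3]
      exact h.add_mul_left_left c
    rw [Finset.prod_eq_zero (Finset.mem_univ i), Finset.prod_eq_zero (Finset.mem_univ i)]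
    · rw [mob_zero (hb i) hi', Int.cast_zero]
    · rw [mob_zero (hb i) hi, Int.cast_zero]

end Pool.Agent.H604.LD
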