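import Pool.Agent.H604.LD.StmM

/-!
# Task FINM: the dichotomy in terms of the `c_i` (helper118, for helper604)
-/

set_option autoImplicit false
set_option linter.unusedSectionVars false

namespace Pool.Agent.H604.LD

open Polynomial
open scoped Classical
open Pool.Agent.H985.Chow (mob lc)
open Pool.Agent.H985.KP (sg PA)
open Pool.Agent.H694.Typ (Mn mem_Mn)

namespace FINM

section

variable {K : Type} [Field K] [Fintype K] [CharP K 2]

theorem two0 : (2 : K[X]) = 0 := by
  have h2 : ((2 : ℕ) : K[X]) = 0 := CharP.cast_eq_zero K[X] 2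
  exact_mod_cast h2

theorem add_sq' (a b : K[X]) : (a + b) ^ 2 = a ^ 2 + b ^ 2 := by
  linear_combination (a * b) * (two0 (K := K))

theorem exists_sqrt (a : K) : ∃ z : K, z ^ 2 = a := by
  have h := (PerfectRing.bijective_frobenius (R := K) (p := 2)).2 a
  obtain ⟨z, hz⟩ := h
  exact ⟨z, hz⟩

/-- every polynomial is `x² + X y²` -/
theorem decomp (c : K[X]) : ∃ x y : K[X], c = x ^ 2 + X * y ^ 2 := by
  induction c using Polynomial.induction_on' with
  | add p q hp hq =>
    obtain ⟨x, y, rfl⟩ := hp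
    obtain ⟨x', y', rfl⟩ := hq
    refine ⟨x + x', y + y', ?_⟩
    rw [add_sq', add_sq']
    ring
  | monomial n a =>
    obtain ⟨z, hz⟩ := exists_sqrt a
    rcases Nat.even_or_odd' n with ⟨k, hk | hk⟩
    · refine ⟨monomial k z, 0, ?_⟩
      rw [monomial_pow, hz, hk, mul_comm k 2]
      simp
    · refine ⟨0, monomial k z, ?_⟩
      rw [monomial_pow, hz, hk, X_mul_monomial, mul_comm k 2]
      simp

theorem data {c : K[X]} (hc : ¬ IsSquare c) : ∃ (γ : K) (b e : K[X]), γ ≠ 0 ∧ b.Monic ∧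
    c = e ^ 2 + X * (C γ * b) ^ 2 := by
  obtain ⟨x, y, hxy⟩ := decomp c
  have hy : y ≠ 0 := by
    rintro rfl
    apply hc
    refine ⟨x, ?_⟩
    rw [hxy]
    ring
  refine ⟨y.leadingCoeff, C (y.leadingCoeff)⁻¹ * y, x, leadingCoeff_ne_zero.2 hy, ?_, ?_⟩
  · rw [mul_comm]
    exact monic_mul_leadingCoeff_inv hy
  · rw [← mul_assoc, ← C_mul, mul_inv_cancel₀ (leadingCoeff_ne_zero.2 hy), C_1, one_mul]
    exact hxy

theorem der {c e y : K[X]} (h : c = e ^ 2 + X * y ^ 2) : derivative c = y ^ 2 := by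
  have h2 : ((2 : ℕ) : K) = 0 := CharP.cast_eq_zero K 2
  rw [h, derivative_add, derivative_mul, derivative_X, derivative_pow, derivative_pow, h2]
  simp

theorem fa_eq {γ : K} {b e c : K[X]} (h : c = e ^ 2 + X * (C γ * b) ^ 2) (a : K[X]) :
    fa γ b (a + e) = a ^ 2 + c := by
  unfold fa
  rw [add_sq', h]
  ring

/-! ### rational functions -/

theorem rf_inj {f : K[X]} (h : rf f = 0) : f = 0 := by
  have := RatFunc.algebraMap_injective K
  exact this (h.trans (map_zero _).symm)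

theorem rf_ne {f : K[X]} (h : f ≠ 0) : rf f ≠ 0 := fun h0 => h (rf_inj h0)

theorem rf_add (f g : K[X]) : rf (f + g) = rf f + rf g := map_add _ _ _

theorem rf_mul (f g : K[X]) : rf (f * g) = rf f * rf g := map_mul _ _ _

theorem rf_pow (f : K[X]) (n : ℕ) : rf (f ^ n) = rf f ^ n := map_pow _ _ _

theorem rf_sum {ι : Type} (s : Finset ι) (f : ι → K[X]) : rf (∑ i ∈ s, f i) = ∑ i ∈ s, rf (f i) :=
  map_sum _ _ _

theorem two0' : (2 : RatFunc K) = 0 := by
  have h1 : rf (2 : K[X]) = 0 := by rw [two0]; exact map_zero _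
  have h2 : rf (2 : K[X]) = 2 := map_ofNat _ 2
  rw [← h2, h1]

theorem sum_sq {ι : Type} (s : Finset ι) (f : ι → RatFunc K) :
    ∑ i ∈ s, f i ^ 2 = (∑ i ∈ s, f i) ^ 2 := by
  classical
  induction s using Finset.induction_on with
  | empty => simp
  | insert i s hi ih =>
    rw [Finset.sum_insert hi, Finset.sum_insert hi, ih]
    linear_combination (-(f i * ∑ i ∈ s, f i)) * (two0' (K := K))

variable {n : ℕ} {γ : Fin n → K} {b e : Fin n → K[X]}

theorem y_ne (hγ : ∀ i, γ i ≠ 0) (hb : ∀ i, (b i).Monic) (i : Fin n) : C (γ i) * b i ≠ 0 :=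
  mul_ne_zero (C_ne_zero.2 (hγ i)) (hb i).ne_zero

theorem bB_ne (hγ : ∀ i, γ i ≠ 0) (hb : ∀ i, (b i).Monic) : bB γ b ≠ 0 :=
  Finset.prod_ne_zero_iff.2 fun i _ => y_ne hγ hb i

theorem bB_eq (i : Fin n) : bB γ b = (C (γ i) * b i) * bt γ b i := by
  unfold bB bt
  exact (Finset.mul_prod_erase Finset.univ (fun j => C (γ j) * b j) (Finset.mem_univ i)).symm

theorem inv_eq (hγ : ∀ i, γ i ≠ 0) (hb : ∀ i, (b i).Monic) (i : Fin n) :
    1 / rf (C (γ i) * b i) = rf (bt γ b i) / rf (bB γ b) := by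
  have h1 := rf_ne (y_ne hγ hb i)
  have h2 := rf_ne (bB_ne hγ hb)
  rw [div_eq_div_iff h1 h2, one_mul, bB_eq i, rf_mul]
  ring

/-- the first sum -/
theorem sum1 (hγ : ∀ i, γ i ≠ 0) (hb : ∀ i, (b i).Monic) :
    ∑ i, 1 / rf ((C (γ i) * b i) ^ 2) = (rf (om γ b) / rf (bB γ b)) ^ 2 := by
  have h1 : ∀ i, 1 / rf ((C (γ i) * b i) ^ 2) = (rf (bt γ b i) / rf (bB γ b)) ^ 2 := by
    intro i
    rw [← inv_eq hγ hb i, rf_pow, div_pow, one_pow]
  rw [Finset.sum_congr rfl fun i _ => h1 i, sum_sq, om, rf_sum, Finset.sum_div]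

/-- the second sum -/
theorem sum2 (hγ : ∀ i, γ i ≠ 0) (hb : ∀ i, (b i).Monic) :
    ∑ i, rf (e i ^ 2 + X * (C (γ i) * b i) ^ 2) / rf ((C (γ i) * b i) ^ 2) ^ 2 =
      (rf (p1 γ b e) / rf (bB γ b) ^ 2) ^ 2 + rf X * (rf (om γ b) / rf (bB γ b)) ^ 2 := by
  have h1 : ∀ i, rf (e i ^ 2 + X * (C (γ i) * b i) ^ 2) / rf ((C (γ i) * b i) ^ 2) ^ 2 =
      (rf (e i * bt γ b i ^ 2) / rf (bB γ b) ^ 2) ^ 2 +
        rf X * (1 / rf ((C (γ i) * b i) ^ 2)) := by
    intro i
    have h3 := rf_ne (y_ne hγ hb i)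
    have h4 : rf (e i * bt γ b i ^ 2) / rf (bB γ b) ^ 2 = rf (e i) * (1 / rf (C (γ i) * b i)) ^ 2 := by
      rw [inv_eq hγ hb i, rf_mul, rf_pow, div_pow]
      ring
    rw [h4, rf_add, rf_mul, rf_pow, rf_pow]
    field_simp
  rw [Finset.sum_congr rfl fun i _ => h1 i, Finset.sum_add_distrib, ← Finset.mul_sum,
    sum1 hγ hb, sum_sq, p1, rf_sum, Finset.sum_div]

theorem mobP_eq {c : Fin n → K[X]} (hc : ∀ i, c i = e i ^ 2 + X * (C (γ i) * b i) ^ 2) (a : K[X]) :
    mobP γ b e a = ∏ i, (mob (a ^ 2 + c i) : ℝ) := by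
  unfold mobP
  refine Finset.prod_congr rfl fun i _ => ?_
  rw [fa_eq (hc i)]

/-- the monic polynomials in a residue class -/
theorem sum_class {d L : ℕ} {D r r' : K[X]} (hD : D.Monic) (hr' : r'.Monic)
    (hd : r'.natDegree = d) (hrr : D ∣ r' - r) (hL : D.natDegree + L = d) (f : K[X] → ℝ) :
    ∑ a ∈ (Mn K d).filter (fun a => D ∣ a - r), f a =
      ∑ᶠ c ∈ {c : K[X] | c.degree < (L : WithBot ℕ)}, f (r' + D * c) := by
  have hdeg : ∀ c : K[X], c.degree < (L : WithBot ℕ) → (D * c).degree < r'.degree := by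
    intro c hc
    by_cases h0 : c = 0
    · rw [h0, mul_zero, degree_zero, degree_eq_natDegree hr'.ne_zero]
      exact WithBot.bot_lt_coe _
    · have h1 : c.natDegree < L := (natDegree_lt_iff_degree_lt h0).2 hc
      rw [degree_eq_natDegree hr'.ne_zero, degree_eq_natDegree (mul_ne_zero hD.ne_zero h0),
        natDegree_mul hD.ne_zero h0, hd]
      have : D.natDegree + c.natDegree < d := by omega
      exact_mod_cast this
  have himg : ((Mn K d).filter (fun a => D ∣ a - r) : Finset K[X]) =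
      (fun c => r' + D * c) '' {c : K[X] | c.degree < (L : WithBot ℕ)} := by
    ext a
    rw [Finset.mem_coe, Finset.mem_filter, mem_Mn, Set.mem_image]
    constructor
    · rintro ⟨⟨ha, had⟩, har⟩
      have h1 : D ∣ a - r' := by
        have : a - r' = (a - r) - (r' - r) := by ring
        rw [this]
        exact dvd_sub har hrr
      obtain ⟨c, hc⟩ := h1
      refine ⟨c, ?_, ?_⟩
      · change c.degree < (L : WithBot ℕ)
        by_cases h0 : c = 0
        · rw [h0, degree_zero]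
          exact WithBot.bot_lt_coe _
        · have h2 : (a - r').degree < a.degree := by
            refine degree_sub_lt_left ?_ ha.ne_zero ?_
            · rw [degree_eq_natDegree ha.ne_zero, degree_eq_natDegree hr'.ne_zero, had, hd]
            · rw [ha.leadingCoeff, hr'.leadingCoeff]
          rw [hc, degree_eq_natDegree (mul_ne_zero hD.ne_zero h0),
            degree_eq_natDegree ha.ne_zero, natDegree_mul hD.ne_zero h0, had] at h2
          have h3 : D.natDegree + c.natDegree < d := by exact_mod_cast h2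
          rw [degree_eq_natDegree h0]
          have : c.natDegree < L := by omega
          exact_mod_cast this
      · rw [← hc]
        ring
    · rintro ⟨c, hc, rfl⟩
      have h1 := hdeg c hc
      refine ⟨⟨hr'.add_of_left h1, ?_⟩, ?_⟩
      · rw [natDegree_add_eq_left_of_degree_lt h1, hd]
      · have : r' + D * c - r = (r' - r) + D * c := by ring
        rw [this]
        exact dvd_add hrr (dvd_mul_right _ _)
  rw [← finsum_mem_coe_finset, himg, finsum_mem_image]
  intro c _ c' _ hcc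
  exact mul_left_cancel₀ hD.ne_zero (add_left_cancel hcc)

end

end FINM

/-- **Task FINM.** -/
theorem finm : S_finm := by
  intro hW hDg K _ _ _ n c hc
  choose γ b e hγ hb hcd using fun i => FINM.data (hc i)
  have hder : ∀ i, derivative (c i) = (C (γ i) * b i) ^ 2 := fun i => FINM.der (hcd i)
  have hs1 : ∑ i, 1 / rf (derivative (c i)) = (rf (om γ b) / rf (bB γ b)) ^ 2 := by
    rw [← FINM.sum1 hγ hb]
    exact Finset.sum_congr rfl fun i _ => by rw [hder]
  have hs2 : ∑ i, rf (c i) / rf (derivative (c i)) ^ 2 =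
      (rf (p1 γ b e) / rf (bB γ b) ^ 2) ^ 2 + rf X * (rf (om γ b) / rf (bB γ b)) ^ 2 := by
    rw [← FINM.sum2 hγ hb]
    exact Finset.sum_congr rfl fun i _ => by rw [hder, hcd i]
  have hB := FINM.rf_ne (FINM.bB_ne hγ hb)
  have hz : rf (0 : K[X]) = 0 := map_zero _
  by_cases hcase : om γ b = 0 ∧ p1 γ b e = 0
  · right
    obtain ⟨h1, h2⟩ := hcase
    refine ⟨⟨?_, ?_⟩, ?_⟩
    · rw [hs1, h1, hz, zero_div, zero_pow (by norm_num)]
    · rw [hs2, h1, h2, hz, zero_div, zero_div, zero_pow (by norm_num), mul_zero, add_zero]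
    · obtain ⟨N, hN⟩ := hDg K n γ b e hγ hb h1 h2
      refine ⟨N, ∏ i, b i ^ 5, Finset.prod_ne_zero_iff.2 fun i _ => pow_ne_zero 5 (hb i).ne_zero,
        fun a a' ha ha' hdeg hdvd hle => ?_⟩
      have hle' : N ≤ a.natDegree := le_trans (Nat.le_add_left _ _) hle
      have hdv : ∀ i, b i ^ 5 ∣ a - a' := fun i =>
        dvd_trans (Finset.dvd_prod_of_mem (fun i => b i ^ 5) (Finset.mem_univ i)) hdvd
      have h3 := hN a.natDegree a a' hle' ha rfl ha' hdeg hdv hle
      rw [FINM.mobP_eq hcd, FINM.mobP_eq hcd] at h3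
      have h4 : ((∏ i, mob (a ^ 2 + c i) : ℤ) : ℝ) = ((∏ i, mob (a' ^ 2 + c i) : ℤ) : ℝ) := by
        rw [Int.cast_prod, Int.cast_prod]
        exact h3
      exact Int.cast_injective h4
  · left
    have hor : om γ b ≠ 0 ∨ p1 γ b e ≠ 0 := by
      by_contra hcon
      push Not at hcon
      exact hcase hcon
    refine ⟨?_, ?_⟩
    · by_cases h1 : om γ b = 0
      · right
        have h2 : p1 γ b e ≠ 0 := by
          rcases hor with h | h
          · exact absurd h1 h
          · exact h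
        rw [hs2, h1, hz, zero_div, zero_pow (by norm_num : (2 : ℕ) ≠ 0), mul_zero, add_zero]
        exact pow_ne_zero 2 (div_ne_zero (FINM.rf_ne h2) (pow_ne_zero 2 hB))
      · left
        rw [hs1]
        exact pow_ne_zero 2 (div_ne_zero (FINM.rf_ne h1) hB)
    · intro κ hκ
      obtain ⟨δ, θ, hδ, hθ, d₀, hd₀⟩ := hW K n γ b e κ hγ hb hor hκ
      refine ⟨δ, hδ, d₀, fun d D r hd hD hDd => ?_⟩
      have hq : (0 : ℝ) < Fintype.card K := by exact_mod_cast Fintype.card_pos
      rcases ((Mn K d).filter (fun a => D ∣ a - r)).eq_empty_or_nonempty with h0 | ⟨r', hr'⟩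
      · rw [h0, Finset.sum_empty, abs_zero]
        positivity
      · rw [Finset.mem_filter, mem_Mn] at hr'
        obtain ⟨⟨hr1, hr2⟩, hr3⟩ := hr'
        have hle : D.natDegree ≤ d := by
          have h1 : (D.natDegree : ℝ) ≤ d := by
            have : (0 : ℝ) ≤ d := Nat.cast_nonneg d
            nlinarith
          exact_mod_cast h1
        have hL : D.natDegree + (d - D.natDegree) = d := by omega
        have hLr : ((d - D.natDegree : ℕ) : ℝ) = (d : ℝ) - D.natDegree := by
          rw [Nat.cast_sub hle]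
        have h1 := FINM.sum_class hD hr1 hr2 hr3 hL (fun a => mobP γ b e a)
        have h2 : ∑ a ∈ (Mn K d).filter (fun a => D ∣ a - r), ∏ i, (mob (a ^ 2 + c i) : ℝ) =
            ∑ a ∈ (Mn K d).filter (fun a => D ∣ a - r), mobP γ b e a :=
          Finset.sum_congr rfl fun a _ => (FINM.mobP_eq hcd a).symm
        rw [h2, h1]
        have h3 := hd₀ d (d - D.natDegree) D r' hd hD hr1 hr2 (by rw [hLr]; linarith) (by omega)
          (by rw [hLr]; nlinarith [(Nat.cast_nonneg d : (0 : ℝ) ≤ d)])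
        rw [hLr] at h3
        exact h3

end Pool.Agent.H604.LD
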