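import Mathlib
import Pool.Agent.H604.LD.StmG

/-!
# Primes `α T ^ 2 + β` over `F_q[X]`, `q` even (helper604): the uniform version

`a` runs over the monic polynomials of degree `d` with `a ≡ a₀` modulo `M` and
`deg (a - g) < d - ℓ`; everything is uniform in the data as long as `deg M + ℓ ≤ θ d`.
-/

namespace Pool.Agent.H604.LD

open Polynomial
open scoped Classical
open Pool.Agent.H985.Chow (mob lc)
open Pool.Agent.H985.KP (sg PA mobg Good2 S_typ2)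
open Pool.Agent.H985.FC (GP S_gcs S_winF)
open Pool.Agent.H694.Typ (Mn PU)

/-- **Task WEYLU.**  The level of distribution, in short intervals and uniformly. -/
def S_weylu : Prop :=
  ∀ (K : Type) [Field K] [Fintype K] [CharP K 2] (κ : ℝ), 0 < κ →
    ∃ c θ : ℝ, 0 < c ∧ 0 < θ ∧ ∃ d₀ : ℕ, ∀ (d L : ℕ) (γ : K) (b D r : K[X]), d₀ ≤ d → γ ≠ 0 →
      b.Monic → D.Monic → b ^ 5 ∣ D → r.Monic → r.natDegree = d → IsCoprime r b →
      κ * d ≤ L → D.natDegree + L ≤ d → (d : ℝ) ≤ D.natDegree + L + θ * d →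
      |∑ᶠ c ∈ {c : K[X] | c.degree < (L : WithBot ℕ)}, (mob (fa γ b (r + D * c)) : ℝ)| ≤
        (Fintype.card K : ℝ) ^ ((L : ℝ) - c * d)

/-- The product of the `1 - 1 / |P|` over the primes `P ∣ M`. -/
noncomputable def PiM {K : Type} [Field K] [Fintype K] (M : K[X]) : ℝ :=
  ∏ᶠ P ∈ PA M, (1 - 1 / (Fintype.card K : ℝ) ^ P.natDegree)

/-- The monic `a` of degree `d` in the residue class and in the short interval. -/
noncomputable def AsU (K : Type) [Field K] [Fintype K] (d : ℕ) (M a₀ g : K[X]) (l : ℕ) :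
    Finset K[X] :=
  (As K d M a₀).filter (fun a => (a - g).degree < ((d - l : ℕ) : WithBot ℕ))

/-- The data: `Dat`, and `g` is monic of degree `d`. -/
structure DatU {K : Type} [Field K] (γ : K) (b M a₀ α g : K[X]) (d : ℕ) : Prop where
  dat : Dat γ b M a₀ α
  hg : g.Monic
  hd : g.natDegree = d

/-- The sum over the divisors of degree `n`. -/
noncomputable def NnU {K : Type} [Field K] [Fintype K] (γ : K) (b M a₀ α g : K[X]) (l d n z : ℕ)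
    (U : Finset K[X] → ℝ) : ℝ :=
  ∑ a ∈ AsU K d M a₀ g l, ∑ D ∈ (Mn K n).filter (fun D => D ∣ ga γ b α a),
    (mob D : ℝ) * bw z U (ga γ b α a)

/-- The twisted sum over the divisors of degree `n`. -/
noncomputable def NmU {K : Type} [Field K] [Fintype K] (γ : K) (b M a₀ α g : K[X]) (l d n z : ℕ)
    (U : Finset K[X] → ℝ) : ℝ :=
  ∑ a ∈ AsU K d M a₀ g l, ∑ D ∈ (Mn K n).filter (fun D => D ∣ ga γ b α a),
    (mob D : ℝ) * (mob (ga γ b α a) : ℝ) * bw z U (ga γ b α a)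

/-- **Task FAR1U.** -/
def S_far1u : Prop :=
  ∀ (K : Type) [Field K] [Fintype K] [CharP K 2] (A : ℕ) (C : ℝ), ∃ θ : ℝ, 0 < θ ∧ ∃ d₀ : ℕ,
    ∀ (γ : K) (b M a₀ α g : K[X]) (l d z J : ℕ) (U : Finset K[X] → ℝ), DatU γ b M a₀ α g d →
      d₀ ≤ d → ((A * z : ℕ) : ℝ) ≤ θ * d → ((M.natDegree + l : ℕ) : ℝ) ≤ θ * d →
      BHWG K z A C U → d ≤ 2 * J → J + A * z + M.natDegree + l ≤ d → J < d →
      |∑ j ∈ Finset.range (J + 1),
          ((d : ℝ) - (α.natDegree : ℝ) / 2 - j) * NnU γ b M a₀ α g l d j z U -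
        (Fintype.card K : ℝ) ^ (d - M.natDegree - l) / PiM M| ≤
        (Fintype.card K : ℝ) ^ ((1 - 2 * θ) * d)

/-- **Task FAR2U.** -/
def S_far2u : Prop :=
  ∀ (K : Type) [Field K] [Fintype K] [CharP K 2] (A : ℕ) (C κ : ℝ), 0 < κ → ∃ θ : ℝ, 0 < θ ∧
    ∃ d₀ : ℕ, ∀ (γ : K) (b M a₀ α g : K[X]) (l d z j : ℕ) (U : Finset K[X] → ℝ),
      DatU γ b M a₀ α g d → d₀ ≤ d → BHWG K z A C U → ((M.natDegree + l : ℕ) : ℝ) ≤ θ * d →
      ((j + A * z : ℕ) : ℝ) ≤ (1 - κ) * d →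
      |NmU γ b M a₀ α g l d j z U| ≤ (Fintype.card K : ℝ) ^ ((1 - 2 * θ) * d)

/-- The pairs `(t, w)` of `FamG` with `a` in the short interval. -/
def FamU {K : Type} [Field K] (γ : K) (b M a₀ g : K[X]) (l : ℕ) (o : Bool) (σ σ' : ℕ)
    (m : K[X]) : Set (K[X] × K[X]) :=
  {p | p ∈ FamG γ b M a₀ o σ σ' m ∧
    (aG o γ b p.1 m p.2 - g).degree < ((σ + σ' + o.toNat - l : ℕ) : WithBot ℕ)}

/-- **Task PAIRU.** -/
def S_pairu : Prop :=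
  ∀ (K : Type) [Field K] [Fintype K] [CharP K 2] (γ : K) (b M a₀ α g : K[X]) (o : Bool)
    (l d σ σ' : ℕ) (Φ : K[X] → K[X] → ℝ), DatU γ b M a₀ α g d → b.natDegree < d →
    1 ≤ σ → 1 ≤ σ' → σ + σ' + o.toNat = d →
    ∑ a ∈ AsU K d M a₀ g l, ∑ D ∈ (Mn K (2 * σ + o.toNat)).filter (fun D => D ∣ ga γ b α a),
        Φ D (ga γ b α a) =
      ∑ m ∈ Mn K σ, ∑ᶠ p ∈ FamU γ b M a₀ g l o σ σ' m, Φ (fA o p.1 m) (fABg o γ b α p.1 m p.2)

/-- **Task UP2U.** -/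
def S_up2u : Prop :=
  ∀ (K : Type) [Field K] [Fintype K] [CharP K 2] (A : ℕ) (C : ℝ), 0 < C →
    ∃ C₁ θ : ℝ, 0 < C₁ ∧ 0 < θ ∧ ∃ σ₀ : ℕ,
    ∀ (γ : K) (b M a₀ α g : K[X]) (l : ℕ) (o : Bool) (σ σ' z : ℕ) (U : Finset K[X] → ℝ)
      (m m₁ m₂ : K[X]), DatU γ b M a₀ α g (σ + σ' + o.toNat) → σ₀ ≤ σ → 1 ≤ z →
      ((A * z : ℕ) : ℝ) ≤ θ * σ → |(σ : ℝ) - σ'| ≤ θ * σ →
      ((M.natDegree + l : ℕ) : ℝ) ≤ θ * σ → BHWG K z A C U →
      m = m₁ * m₂ → m₁.Monic → m₂.Monic → m.natDegree = σ → IsCoprime m₁ m₂ → Squarefree m₂ →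
      (m₁.natDegree : ℝ) ≤ θ * σ →
      ∑ᶠ p ∈ FamU γ b M a₀ g l o σ σ' m, bw z U (fABg o γ b α p.1 m p.2) ≤
        C₁ * (Fintype.card K : ℝ) ^ σ' /
          ((Fintype.card K : ℝ) ^ (M.natDegree + l) * PiM M * (z : ℝ) ^ 2)

/-- **Task TYPCU.** -/
def S_typcu : Prop :=
  ∀ (K : Type) [Field K] [Fintype K] [CharP K 2] (A E₀ : ℕ) (C δ : ℝ), 0 < δ →
    ∃ θ : ℝ, 0 < θ ∧ ∃ σ₀ : ℕ,
    ∀ (γ : K) (b M a₀ α g : K[X]) (l : ℕ) (o : Bool) (σ σ' z : ℕ) (U : Finset K[X] → ℝ)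
      (m : K[X]), DatU γ b M a₀ α g (σ + σ' + o.toNat) → σ₀ ≤ σ →
      ((A * z : ℕ) : ℝ) ≤ θ * σ → |(σ : ℝ) - σ'| ≤ θ * σ →
      ((M.natDegree + l : ℕ) : ℝ) ≤ θ * σ → BHWG K z A C U →
      m.Monic → m.natDegree = σ → Good2 1 δ E₀ σ m →
      |∑ᶠ p ∈ FamU γ b M a₀ g l o σ σ' m,
        (mob (fA o p.1 m) : ℝ) * bw z U (fABg o γ b α p.1 m p.2)| ≤
        (Fintype.card K : ℝ) ^ ((σ' : ℝ) - 2 * θ * σ)

/-- **Task NEARU.** -/
def S_nearu : Prop :=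
  ∀ (K : Type) [Field K] [Fintype K] [CharP K 2] (A : ℕ) (C ε : ℝ), 0 < C → 0 < ε →
    ∃ θ : ℝ, 0 < θ ∧ ∃ d₀ : ℕ,
    ∀ (γ : K) (b M a₀ α g : K[X]) (l d n z : ℕ) (U : Finset K[X] → ℝ), DatU γ b M a₀ α g d →
      d₀ ≤ d → 1 ≤ z → ((A * z : ℕ) : ℝ) ≤ θ * d → |(n : ℝ) - d| ≤ θ * d →
      ((M.natDegree + l : ℕ) : ℝ) ≤ θ * d → BHWG K z A C U →
      |NnU γ b M a₀ α g l d n z U| ≤ ε * (Fintype.card K : ℝ) ^ d /
        ((Fintype.card K : ℝ) ^ (M.natDegree + l) * PiM M * (z : ℝ) ^ 2)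

/-- **The uniform theorem.** -/
def S_landauu : Prop :=
  ∀ (K : Type) [Field K] [Fintype K] [CharP K 2] (ε : ℝ), 0 < ε → ∃ θ : ℝ, 0 < θ ∧ ∃ d₀ : ℕ,
    ∀ (γ : K) (b M a₀ α g : K[X]) (l d : ℕ), DatU γ b M a₀ α g d → d₀ ≤ d →
      ((M.natDegree + l : ℕ) : ℝ) ≤ θ * d →
      |(2 * (d : ℝ) - α.natDegree) *
          (((AsU K d M a₀ g l).filter (fun a => Irreducible (ga γ b α a))).card : ℝ) *
          PiM M * (Fintype.card K : ℝ) ^ (M.natDegree + l) / (Fintype.card K : ℝ) ^ d - 1| ≤ ε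

/-- **Task FINU.** -/
def S_ldfinu : Prop := S_hidg → S_far1u → S_far2u → S_nearu → S_bhwg → S_landauu

/-- **The uniform Bateman–Horn asymptotic for the inseparable quadratic polynomials**, for the
monic `T` of degree `d` with `deg (T - g) < d - l`, uniformly for
`deg α + deg β + l ≤ θ d`. -/
def S_bhqu : Prop :=
  ∀ (K : Type) [Field K] [Fintype K] [CharP K 2] (ε : ℝ), 0 < ε → ∃ θ : ℝ, 0 < θ ∧ ∃ d₀ : ℕ,
    ∀ (α β g : K[X]) (l d : ℕ), α ≠ 0 → IsCoprime α β → ¬ IsSquare (α * β) → d₀ ≤ d →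
      g.Monic → g.natDegree = d → ((α.natDegree + β.natDegree + l : ℕ) : ℝ) ≤ θ * d →
      |(2 * (d : ℝ) + α.natDegree) *
          (((Mn K d).filter (fun T => (T - g).degree < ((d - l : ℕ) : WithBot ℕ) ∧
            Irreducible (α * T ^ 2 + β))).card : ℝ) *
          PiM α * (Fintype.card K : ℝ) ^ l / (Fintype.card K : ℝ) ^ d - 1| ≤ ε

/-- **Task BHQU.** -/
def S_tbhqu : Prop := S_landauu → S_bhqu

end Pool.Agent.H604.LD
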