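import Mathlib
import Pool.Agent.H604.LD.StmU

/-!
# Primes `α T ^ 2 + β` over `F_q[X]`, `q` even: the asymptotic formula with a power saving

(helper604; the covering idea is due to helper251.)  The divisors `A` of `f_a` of degree near `d`
are treated with the fibres `A + m v ^ 2`, `m` irreducible of small degree: `s ^ 2 = (m A)'` is
constant on the fibre, `m A = T ^ 2 + X s ^ 2`, `T = T₀ + m v`.  The average over `m` of the number
of the prime factors of `s` of a given degree is almost constant.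
-/

namespace Pool.Agent.H604.LD

open Polynomial
open scoped Classical
open Pool.Agent.H985.Chow (mob lc)
open Pool.Agent.H985.KP (sg PA)
open Pool.Agent.H985.FC (S_winF)
open Pool.Agent.H694.Typ (Mn PU)

/-- The monic irreducible polynomials of degree `u`. -/
noncomputable def Irr (K : Type) [Field K] [Fintype K] (u : ℕ) : Finset K[X] :=
  (Mn K u).filter (fun P => Irreducible P)

/-- The number of the monic irreducible `P` of degree `a` with `P ∣ (m A)'`. -/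
noncomputable def cntP (K : Type) [Field K] [Fintype K] (a : ℕ) (m A : K[X]) : ℝ :=
  (((Irr K a).filter (fun P => P ∣ derivative (m * A))).card : ℝ)

/-- The expected value. -/
noncomputable def lamP (K : Type) [Field K] [Fintype K] (a : ℕ) : ℝ :=
  ((Irr K a).card : ℝ) / (Fintype.card K : ℝ) ^ a

/-- **Task COV.**  The covering lemma (idea of helper251). -/
def S_cov : Prop :=
  ∀ (K : Type) [Field K] [Fintype K] [CharP K 2] (n a u : ℕ), 1 ≤ u → 2 * u ≤ a → 4 * a ≤ n →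
    ∑ A ∈ Mn K n, (∑ m ∈ Irr K u, (cntP K a m A - lamP K a)) ^ 2 ≤
      ((Irr K u).card : ℝ) * (Fintype.card K : ℝ) ^ n

/-- The `ρ` modulo `A M` with `ρ ≡ a₀` modulo `M` and `A ∣ f_ρ`. -/
noncomputable def rho {K : Type} [Field K] (γ : K) (b M a₀ A : K[X]) : K[X] :=
  if h : ∃ ρ : K[X], M ∣ ρ - a₀ ∧ A ∣ fa γ b ρ ∧ ρ.degree < (A * M).degree then h.choose else 0

/-- `μ(A)` times the character of `ξ ρ / (A M)`, for `A` prime to `M`. -/
noncomputable def pAx {K : Type} [Field K] (γ : K) (b M a₀ ξ A : K[X]) : ℝ :=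
  if IsCoprime A M then (mob A : ℝ) * sg (lc (A * M) (ξ * rho γ b M a₀ A)) else 0

/-- **Task FIB.**  Cancellation on a good fibre. -/
def S_fib : Prop :=
  ∀ (K : Type) [Field K] [Fintype K] [CharP K 2] (η : ℝ), 0 < η → ∃ c : ℝ, 0 < c ∧ ∃ n₀ : ℕ,
    ∀ (γ c₁ : K) (b M a₀ α m A₀ e h P ξ : K[X]) (n u a V : ℕ), n₀ ≤ n → Dat γ b M a₀ α →
      m.Monic → Irreducible m → m.natDegree = u → A₀.Monic → A₀.natDegree = n → ¬ m ∣ A₀ →
      c₁ ≠ 0 → e.Monic → h.Monic → IsCoprime e h → Squarefree h → IsCoprime m (e * h) →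
      (C c₁ * (e * h)) ^ 2 = derivative (m * A₀) →
      P.Monic → Irreducible P → P.natDegree = a → P ∣ h →
      (e.natDegree : ℝ) ≤ η * n → (M.natDegree : ℝ) ≤ η * n → (ξ.natDegree : ℝ) ≤ η * n →
      u + 2 * V ≤ n → 2 * V + 5 * u + 3 * n ≤ 8 * (e * h).natDegree →
      ((e * h).natDegree : ℝ) + 40 * η * n ≤ V + a → (a : ℝ) + 40 * η * n ≤ V →
      (V : ℝ) + 10 * η * n ≤ 2 * ((e * h).natDegree - a) →
      |∑ᶠ v ∈ {v : K[X] | v.degree < (V : WithBot ℕ)}, pAx γ b M a₀ ξ (A₀ + m * v ^ 2)| ≤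
        (Fintype.card K : ℝ) ^ ((V : ℝ) - c * n)

/-- **Task WSUM.**  The sum over all `A` of degree `n`, with a weight that depends only on the
leading coefficients of `A`. -/
def S_wsum : Prop :=
  ∀ (K : Type) [Field K] [Fintype K] [CharP K 2], ∃ c θ : ℝ, 0 < c ∧ 0 < θ ∧ ∃ n₀ : ℕ,
    ∀ (γ : K) (b M a₀ α ξ : K[X]) (n : ℕ) (φ : K[X] → ℝ), n₀ ≤ n → Dat γ b M a₀ α →
      (M.natDegree : ℝ) ≤ θ * n → (ξ.natDegree : ℝ) ≤ θ * n → (∀ A, |φ A| ≤ 1) →
      (∀ A A' : K[X], A.Monic → A'.Monic → A.natDegree = n → A'.natDegree = n →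
        ((A - A').natDegree : ℝ) + θ * n ≤ n → φ A = φ A') →
      |∑ A ∈ Mn K n, φ A * pAx γ b M a₀ ξ A| ≤ (Fintype.card K : ℝ) ^ ((1 - c) * n)

/-- **Task NEARP.** -/
def S_nearp : Prop :=
  ∀ (K : Type) [Field K] [Fintype K] [CharP K 2], ∃ c θ : ℝ, 0 < c ∧ 0 < θ ∧ ∃ d₀ : ℕ,
    ∀ (γ : K) (b M a₀ α g : K[X]) (l d n : ℕ), DatU γ b M a₀ α g d → d₀ ≤ d →
      |(n : ℝ) - d| ≤ θ * d → ((M.natDegree + l : ℕ) : ℝ) ≤ θ * d →
      |∑ a ∈ AsU K d M a₀ g l, ∑ D ∈ (Mn K n).filter (fun D => D ∣ ga γ b α a), (mob D : ℝ)| ≤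
        (Fintype.card K : ℝ) ^ ((1 - c) * d)

/-- **The uniform theorem with a power saving.** -/
def S_landaup : Prop :=
  ∀ (K : Type) [Field K] [Fintype K] [CharP K 2], ∃ c θ : ℝ, 0 < c ∧ 0 < θ ∧ ∃ d₀ : ℕ,
    ∀ (γ : K) (b M a₀ α g : K[X]) (l d : ℕ), DatU γ b M a₀ α g d → d₀ ≤ d →
      ((M.natDegree + l : ℕ) : ℝ) ≤ θ * d →
      |(2 * (d : ℝ) - α.natDegree) *
          (((AsU K d M a₀ g l).filter (fun a => Irreducible (ga γ b α a))).card : ℝ) -
          (Fintype.card K : ℝ) ^ (d - M.natDegree - l) / PiM M| ≤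
        (Fintype.card K : ℝ) ^ ((1 - c) * d)

/-- **Task FINP.**  (The sums without sieve weights: `z = 1`, `U ∅ = 1`, `U T = 0` otherwise.) -/
def S_ldfinp : Prop := S_hidg → S_far1u → S_far2u → S_nearp → S_landaup

/-- **The uniform Bateman–Horn asymptotic for the inseparable quadratic polynomials, with a power
saving.** -/
def S_bhqp : Prop :=
  ∀ (K : Type) [Field K] [Fintype K] [CharP K 2], ∃ c θ : ℝ, 0 < c ∧ 0 < θ ∧ ∃ d₀ : ℕ,
    ∀ (α β g : K[X]) (l d : ℕ), α ≠ 0 → IsCoprime α β → ¬ IsSquare (α * β) → d₀ ≤ d →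
      g.Monic → g.natDegree = d → ((α.natDegree + β.natDegree + l : ℕ) : ℝ) ≤ θ * d →
      |(2 * (d : ℝ) + α.natDegree) *
          (((Mn K d).filter (fun T => (T - g).degree < ((d - l : ℕ) : WithBot ℕ) ∧
            Irreducible (α * T ^ 2 + β))).card : ℝ) -
          (Fintype.card K : ℝ) ^ (d - l) / PiM α| ≤ (Fintype.card K : ℝ) ^ ((1 - c) * d)

/-- **Task BHQP.** -/
def S_tbhqp : Prop := S_landaup → S_bhqp

end Pool.Agent.H604.LD
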