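import Pool.Agent.H604.LD.Stm

/-! Task FAR2: the far twisted sums. -/

set_option autoImplicit false
set_option linter.all false

open scoped Classical
open Finset Polynomial

namespace Pool.Agent.H604.LD

open Pool.Agent.H985.Chow (mob lc)
open Pool.Agent.H985.KP (sg PA mobg Good2 S_typ2)
open Pool.Agent.H694.Typ (Mn PU mem_Mn card_dvd_le card_Mn wt mem_PU wt_nonneg wt_add coprime_of_ne q_ge)

namespace Far2

variable {K : Type} [Field K] [Fintype K]

/-- the product of a finite set of polynomials -/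
noncomputable def ET (T : Finset K[X]) : K[X] := ∏ P ∈ T, P

/-- a finite set of monic irreducible polynomials -/
def MI (T : Finset K[X]) : Prop := ∀ P ∈ T, P.Monic ∧ Irreducible P

theorem MI.sub {T S : Finset K[X]} (h : MI T) (hS : S ⊆ T) : MI S := fun P hP => h P (hS hP)

theorem ET_monic {T : Finset K[X]} (h : MI T) : (ET T).Monic :=
  monic_prod_of_monic _ _ fun P hP => (h P hP).1

theorem ET_deg {T : Finset K[X]} (h : MI T) : (ET T).natDegree = ∑ P ∈ T, P.natDegree :=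
  natDegree_prod_of_monic _ _ fun P hP => (h P hP).1

theorem MI.cop {T : Finset K[X]} (h : MI T) :
    (T : Set K[X]).Pairwise (Function.onFun IsCoprime fun P => P) := by
  intro P hP Q hQ hPQ
  exact coprime_of_ne (h P hP).1 (h P hP).2 (h Q hQ).1 (h Q hQ).2 hPQ

theorem ET_dvd {T : Finset K[X]} (h : MI T) (f : K[X]) : ET T ∣ f ↔ ∀ P ∈ T, P ∣ f := by
  constructor
  · intro h1 P hP
    exact (dvd_prod_of_mem (fun P => P) hP).trans h1
  · intro h1
    exact prod_dvd_of_coprime h.cop h1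

theorem ET_sqf {T : Finset K[X]} (h : MI T) : Squarefree (ET T) := by
  refine squarefree_prod_of_pairwise_isCoprime ?_ fun P hP => (h P hP).2.squarefree
  intro P hP Q hQ hPQ
  exact (h.cop hP hQ hPQ).isRelPrime

theorem ET_inj {T S : Finset K[X]} (hT : MI T) (hS : MI S) (h : ET T = ET S) : T = S := by
  have key : ∀ T S : Finset K[X], MI T → MI S → ET T = ET S → T ⊆ S := by
    intro T S hT hS h P hP
    have h1 : P ∣ ET S := h ▸ (dvd_prod_of_mem (fun P => P) hP)
    obtain ⟨Q, hQ, h2⟩ := ((hT P hP).2.prime.dvd_finset_prod_iff _).1 h1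
    have h3 := eq_of_monic_of_associated (hT P hP).1 (hS Q hQ).1
      ((hT P hP).2.associated_of_dvd (hS Q hQ).2 h2)
    rw [h3]; exact hQ
  exact Subset.antisymm (key T S hT hS h) (key S T hS hT h.symm)

/-- the modulus -/
noncomputable def GG (D : K[X]) (T : Finset K[X]) : K[X] := D * ET (T.filter fun P => ¬ P ∣ D)

theorem GG_cop {D : K[X]} {T : Finset K[X]} (h : MI T) :
    IsCoprime D (ET (T.filter fun P => ¬ P ∣ D)) := by
  unfold ET
  rw [IsCoprime.prod_right_iff]
  intro P hP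
  rw [mem_filter] at hP
  exact (((h P hP.1).2.coprime_iff_not_dvd).2 hP.2).symm

theorem GG_dvd {D : K[X]} {T : Finset K[X]} (h : MI T) (f : K[X]) :
    GG D T ∣ f ↔ D ∣ f ∧ ∀ P ∈ T, P ∣ f := by
  constructor
  · intro h1
    have h2 : D ∣ f := (dvd_mul_right _ _).trans h1
    refine ⟨h2, fun P hP => ?_⟩
    by_cases h3 : P ∣ D
    · exact h3.trans h2
    · exact ((ET_dvd (h.sub (filter_subset _ _)) f).1 ((dvd_mul_left _ _).trans h1)) P
        (mem_filter.2 ⟨hP, h3⟩)
  · rintro ⟨h1, h2⟩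
    refine (GG_cop h).mul_dvd h1 ((ET_dvd (h.sub (filter_subset _ _)) f).2 fun P hP => ?_)
    exact h2 P (mem_filter.1 hP).1

theorem GG_monic {D : K[X]} {T : Finset K[X]} (hD : D.Monic) (h : MI T) : (GG D T).Monic :=
  hD.mul (ET_monic (h.sub (filter_subset _ _)))

theorem GG_deg {D : K[X]} {T : Finset K[X]} (hD : D.Monic) (h : MI T) :
    (GG D T).natDegree = D.natDegree + (ET (T.filter fun P => ¬ P ∣ D)).natDegree :=
  hD.natDegree_mul (ET_monic (h.sub (filter_subset _ _)))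

theorem GG_sqf {D : K[X]} {T : Finset K[X]} (hD : Squarefree D) (h : MI T) :
    Squarefree (GG D T) := by
  unfold GG
  rw [squarefree_mul_iff]
  exact ⟨(GG_cop h).isRelPrime, hD, ET_sqf (h.sub (filter_subset _ _))⟩

theorem dvd_sub_of_sq [CharP K 2] {G r s : K[X]} (hG : Squarefree G) (h : G ∣ r ^ 2 - s ^ 2) :
    G ∣ r - s := by
  have h1 : r ^ 2 - s ^ 2 = (r - s) ^ 2 := by
    have h2 : (r - s) ^ 2 = r ^ 2 - s ^ 2 - 2 * (s * (r - s)) := by ring
    have h3 : (2 : K[X]) = 0 := by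
      have := CharP.cast_eq_zero (K[X]) 2
      exact_mod_cast this
    rw [h2, h3]; ring
  rw [h1] at h
  exact hG.isRadical 2 _ h

theorem sqrt_exists [CharP K 2] {G : K[X]} (hG : G.Monic) (hsq : Squarefree G)
    (F : K[X]) : ∃ r : K[X], r.degree < G.degree ∧ G ∣ r ^ 2 + F := by
  have hfin : Module.Finite K (AdjoinRoot G) := (AdjoinRoot.powerBasis' hG).finite
  have hfin' : Finite (AdjoinRoot G) := Module.finite_of_finite K
  have hinj : Function.Injective (fun x : AdjoinRoot G => x ^ 2) := by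
    intro x y hxy
    obtain ⟨r, rfl⟩ := AdjoinRoot.mk_surjective x
    obtain ⟨s, rfl⟩ := AdjoinRoot.mk_surjective y
    dsimp only at hxy
    have h1 : AdjoinRoot.mk G (r ^ 2 - s ^ 2) = 0 := by
      rw [map_sub, map_pow, map_pow, hxy, sub_self]
    have h2 := dvd_sub_of_sq hsq (AdjoinRoot.mk_eq_zero.1 h1)
    have h3 := AdjoinRoot.mk_eq_zero.2 h2
    rw [map_sub] at h3
    exact sub_eq_zero.1 h3
  obtain ⟨x, hx⟩ := Finite.injective_iff_surjective.1 hinj (-AdjoinRoot.mk G F)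
  obtain ⟨r, rfl⟩ := AdjoinRoot.mk_surjective x
  dsimp only at hx
  have h1 : AdjoinRoot.mk G (r ^ 2 + F) = 0 := by
    rw [map_add, map_pow, hx, neg_add_cancel]
  have h2 := AdjoinRoot.mk_eq_zero.1 h1
  refine ⟨r %ₘ G, degree_modByMonic_lt _ hG, ?_⟩
  have h3 : G ∣ r - r %ₘ G := by
    refine ⟨r /ₘ G, ?_⟩
    have := modByMonic_add_div r G
    rw [sub_eq_iff_eq_add, add_comm]
    exact this.symm
  have h4 : (r %ₘ G) ^ 2 + F = (r ^ 2 + F) - (r - r %ₘ G) * (r + r %ₘ G) := by ring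
  rw [h4]
  exact dvd_sub h2 (h3.mul_right _)

theorem sum_res [CharP K 2] {G r : K[X]} {d : ℕ} (hG : G.Monic) (hsq : Squarefree G)
    (hd : G.natDegree ≤ d) (hr : r.degree < G.degree) (hr2 : G ∣ r ^ 2 + X) (F : K[X] → ℝ) :
    ∑ a ∈ (Mn K d).filter (fun a => G ∣ a ^ 2 + X), F a =
      ∑ c ∈ Mn K (d - G.natDegree), F (r + G * c) := by
  symm
  have hdeg : ∀ f : K[X], f.Monic → f.natDegree = d → (f - r).Monic ∧ (f - r).natDegree = d ∧
      (f + r).Monic ∧ (f + r).natDegree = d := by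
    intro f h1 h2
    have h3 : r.degree < f.degree := by
      refine hr.trans_le ?_
      rw [degree_eq_natDegree hG.ne_zero, degree_eq_natDegree h1.ne_zero, h2]
      exact_mod_cast hd
    refine ⟨h1.sub_of_left h3, ?_, h1.add_of_left h3, ?_⟩
    · rw [← h2]; exact natDegree_eq_of_degree_eq (degree_sub_eq_left_of_degree_lt h3)
    · rw [← h2]; exact natDegree_add_eq_left_of_degree_lt h3
  refine sum_bij (fun c _ => r + G * c) ?_ ?_ ?_ (fun _ _ => rfl)
  · intro c hc
    rw [mem_Mn] at hc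
    have h1 : (G * c).Monic := hG.mul hc.1
    have h2 : (G * c).natDegree = d := by rw [hG.natDegree_mul hc.1, hc.2]; omega
    obtain ⟨-, -, h3, h4⟩ := hdeg _ h1 h2
    rw [mem_filter, mem_Mn, add_comm r]
    refine ⟨⟨h3, h4⟩, ?_⟩
    have h5 : (G * c + r) ^ 2 + X = (r ^ 2 + X) + G * (c * (G * c + 2 * r)) := by ring
    rw [h5]
    exact dvd_add hr2 (dvd_mul_right _ _)
  · intro c _ c' _ h
    exact mul_left_cancel₀ hG.ne_zero (add_left_cancel h)
  · intro a ha
    rw [mem_filter, mem_Mn] at ha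
    obtain ⟨h1, h2, -, -⟩ := hdeg a ha.1.1 ha.1.2
    have h3 : G ∣ a ^ 2 - r ^ 2 := by
      have := dvd_sub ha.2 hr2
      rwa [add_sub_add_right_eq_sub] at this
    obtain ⟨c, hc⟩ := dvd_sub_of_sq hsq h3
    have h4 : c.Monic := by rw [hc] at h1; exact hG.of_mul_monic_left h1
    refine ⟨c, ?_, ?_⟩
    · rw [mem_Mn]
      refine ⟨h4, ?_⟩
      rw [hc, hG.natDegree_mul h4] at h2
      omega
    · rw [← hc]; ring

theorem mob_le (F : K[X]) : |(mob F : ℝ)| ≤ 1 := by
  unfold mob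
  split_ifs
  · push_cast
    rw [abs_pow, abs_neg, abs_one, one_pow]
  · simp

/-- the inner sum -/
theorem inner [CharP K 2] {κ c : ℝ} {d : ℕ}
    (hw : ∀ D r : K[X], D.Monic →
      (D.natDegree : ℝ) ≤ (1 - κ) * d → r.degree < (d : WithBot ℕ) →
      |∑ c ∈ Mn K (d - D.natDegree), (mob ((r + D * c) ^ 2 + X) : ℝ)| ≤
        (Fintype.card K : ℝ) ^ ((d : ℝ) - D.natDegree - c * d))
    (hκ : 0 < κ) {D : K[X]} {T : Finset K[X]} (hD : D.Monic) (hD2 : Squarefree D) (hT : MI T)
    (h : (D.natDegree + ∑ P ∈ T, P.natDegree : ℝ) ≤ (1 - κ) * d) :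
    |∑ a ∈ (Mn K d).filter (fun a => D ∣ a ^ 2 + X ∧ ∀ P ∈ T, P ∣ a ^ 2 + X),
      (mob (a ^ 2 + X) : ℝ)| ≤
      (Fintype.card K : ℝ) ^ ((d : ℝ) - c * d) * (wt K D.natDegree *
        wt K (ET (T.filter fun P => ¬ P ∣ D)).natDegree) := by
  have hG := GG_monic hD hT
  have hGs := GG_sqf hD2 hT
  have hGd := GG_deg hD hT
  have hE : (ET (T.filter fun P => ¬ P ∣ D)).natDegree ≤ ∑ P ∈ T, P.natDegree := by
    rw [ET_deg (hT.sub (filter_subset _ _))]
    exact sum_le_sum_of_subset (filter_subset _ _)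
  have hGle : ((GG D T).natDegree : ℝ) ≤ (1 - κ) * d := by
    refine le_trans ?_ h
    rw [hGd]
    push_cast
    have : ((ET (T.filter fun P => ¬ P ∣ D)).natDegree : ℝ) ≤ ((∑ P ∈ T, P.natDegree : ℕ) : ℝ) := by
      exact_mod_cast hE
    push_cast at this
    linarith
  have hd0 : (0 : ℝ) ≤ d := Nat.cast_nonneg d
  have hGd' : (GG D T).natDegree ≤ d := by
    have : ((GG D T).natDegree : ℝ) ≤ d := by nlinarith
    exact_mod_cast this
  obtain ⟨r, hr, hr2⟩ := sqrt_exists hG hGs X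
  have hfil : (Mn K d).filter (fun a => D ∣ a ^ 2 + X ∧ ∀ P ∈ T, P ∣ a ^ 2 + X) =
      (Mn K d).filter (fun a => GG D T ∣ a ^ 2 + X) :=
    filter_congr fun a _ => (GG_dvd hT _).symm
  rw [hfil, sum_res hG hGs hGd' hr hr2]
  have hr3 : r.degree < (d : WithBot ℕ) := by
    refine hr.trans_le ?_
    rw [degree_eq_natDegree hG.ne_zero]
    exact_mod_cast hGd'
  refine (hw _ _ hG hGle hr3).trans (le_of_eq ?_)
  have hq : (0 : ℝ) < Fintype.card K := by
    have := q_ge (k := K)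
    linarith
  have e1 : (d : ℝ) - (GG D T).natDegree - c * d = ((d : ℝ) - c * d) - (((GG D T).natDegree : ℕ) : ℝ) := by
    ring
  rw [e1, Real.rpow_sub hq, Real.rpow_natCast, hGd, pow_add, div_eq_mul_inv, mul_inv]
  rfl

/-- the sets of primes of small total degree -/
noncomputable def TT (K : Type) [Field K] [Fintype K] (z B : ℕ) : Finset (Finset K[X]) :=
  (Pz K z).powerset.filter (fun T => ∑ P ∈ T, P.natDegree ≤ B)

theorem MI_Pz (z : ℕ) : MI (Pz K z) := by
  intro P hP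
  unfold Pz at hP
  have := mem_PU.1 (mem_of_mem_erase hP)
  exact ⟨this.1, this.2.1⟩

theorem mem_TT {z B : ℕ} {T : Finset K[X]} :
    T ∈ TT K z B ↔ T ⊆ Pz K z ∧ ∑ P ∈ T, P.natDegree ≤ B := by
  unfold TT; rw [mem_filter, mem_powerset]

theorem TT_MI {z B : ℕ} {T : Finset K[X]} (h : T ∈ TT K z B) : MI T :=
  (MI_Pz z).sub (mem_TT.1 h).1

theorem TT_sub {z B : ℕ} {T S : Finset K[X]} (h : T ∈ TT K z B) (hS : S ⊆ T) :
    S ∈ TT K z B := by
  rw [mem_TT] at *
  exact ⟨hS.trans h.1, (sum_le_sum_of_subset hS).trans h.2⟩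

theorem sum_TT (z B : ℕ) : ∑ T ∈ TT K z B, wt K (ET T).natDegree ≤ (B : ℝ) + 1 := by
  have hinj : Set.InjOn (ET : Finset K[X] → K[X]) (TT K z B : Set (Finset K[X])) := by
    intro T hT S hS h
    exact ET_inj (TT_MI (mem_coe.1 hT)) (TT_MI (mem_coe.1 hS)) h
  have e1 : ∑ T ∈ TT K z B, wt K (ET T).natDegree =
      ∑ F ∈ (TT K z B).image ET, wt K F.natDegree :=
    (sum_image (f := fun F : K[X] => wt K F.natDegree) hinj).symm
  have e2 : (TT K z B).image ET ⊆ (range (B + 1)).biUnion (fun n => Mn K n) := by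
    intro F hF
    obtain ⟨T, hT, rfl⟩ := mem_image.1 hF
    rw [mem_biUnion]
    refine ⟨(ET T).natDegree, ?_, mem_Mn.2 ⟨ET_monic (TT_MI hT), rfl⟩⟩
    rw [mem_range, ET_deg (TT_MI hT)]
    exact Nat.lt_succ_of_le (mem_TT.1 hT).2
  have hdis : ∀ x ∈ range (B + 1), ∀ y ∈ range (B + 1), x ≠ y → Disjoint (Mn K x) (Mn K y) := by
    intro x _ y _ hxy
    rw [disjoint_left]
    intro F h1 h2
    exact hxy ((mem_Mn.1 h1).2.symm.trans (mem_Mn.1 h2).2)
  rw [e1]
  refine (sum_le_sum_of_subset_of_nonneg e2 fun F _ _ => wt_nonneg _).trans ?_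
  rw [sum_biUnion hdis]
  have e3 : ∀ n ∈ range (B + 1), ∑ F ∈ Mn K n, wt K F.natDegree = 1 := by
    intro n _
    rw [sum_congr rfl fun F hF => by rw [(mem_Mn.1 hF).2], sum_const, card_Mn, nsmul_eq_mul]
    unfold wt
    have := q_ge (k := K)
    push_cast
    exact mul_inv_cancel₀ (by positivity)
  rw [sum_congr rfl e3]
  simp

/-- the sum of the densities -/
theorem dens (z B j : ℕ) :
    ∑ D ∈ Mn K j, ∑ T ∈ TT K z B, wt K j * wt K (ET (T.filter fun P => ¬ P ∣ D)).natDegree ≤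
      ((B : ℝ) + 1) ^ 2 := by
  have h1 : ∀ D ∈ Mn K j, ∑ T ∈ TT K z B, wt K j * wt K (ET (T.filter fun P => ¬ P ∣ D)).natDegree ≤
      ∑ S ∈ TT K z B, ∑ S' ∈ TT K z B,
        if ET S' ∣ D then wt K j * wt K (ET S).natDegree else 0 := by
    intro D hD
    have hinj : Set.InjOn (fun T : Finset K[X] => (T.filter (fun P => ¬ P ∣ D), T.filter (fun P => P ∣ D)))
        (TT K z B : Set (Finset K[X])) := by
      intro T _ S _ h
      have h2 := congrArg Prod.fst h
      have h3 := congrArg Prod.snd h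
      dsimp only at h2 h3
      rw [← filter_union_filter_not_eq (fun P => P ∣ D) T, ← filter_union_filter_not_eq (fun P => P ∣ D) S,
        h2, h3]
    rw [← sum_product' (TT K z B) (TT K z B) (fun S S' =>
      if ET S' ∣ D then wt K j * wt K (ET S).natDegree else 0)]
    calc ∑ T ∈ TT K z B, wt K j * wt K (ET (T.filter fun P => ¬ P ∣ D)).natDegree
        = ∑ T ∈ TT K z B, (fun p : Finset K[X] × Finset K[X] =>
            if ET p.2 ∣ D then wt K j * wt K (ET p.1).natDegree else 0)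
            ((fun T : Finset K[X] => (T.filter (fun P => ¬ P ∣ D), T.filter (fun P => P ∣ D))) T) := by
          refine sum_congr rfl fun T hT => ?_
          show _ = if ET (T.filter (fun P => P ∣ D)) ∣ D then
            wt K j * wt K (ET (T.filter (fun P => ¬ P ∣ D))).natDegree else 0
          rw [if_pos]
          rw [ET_dvd ((TT_MI hT).sub (filter_subset _ _))]
          intro P hP
          exact (mem_filter.1 hP).2
      _ = ∑ p ∈ (TT K z B).image (fun T : Finset K[X] =>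
            (T.filter (fun P => ¬ P ∣ D), T.filter (fun P => P ∣ D))),
            (fun p : Finset K[X] × Finset K[X] =>
            if ET p.2 ∣ D then wt K j * wt K (ET p.1).natDegree else 0) p :=
          (sum_image (f := fun p : Finset K[X] × Finset K[X] =>
            if ET p.2 ∣ D then wt K j * wt K (ET p.1).natDegree else 0) hinj).symm
      _ ≤ _ := by
          refine sum_le_sum_of_subset_of_nonneg ?_ ?_
          · intro p hp
            obtain ⟨T, hT, rfl⟩ := mem_image.1 hp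
            exact mem_product.2 ⟨TT_sub hT (filter_subset _ _), TT_sub hT (filter_subset _ _)⟩
          · intro p _ _
            split_ifs
            · exact mul_nonneg (wt_nonneg _) (wt_nonneg _)
            · exact le_rfl
  refine (sum_le_sum h1).trans ?_
  rw [sum_comm]
  have h2 : ∀ S ∈ TT K z B, ∑ D ∈ Mn K j, ∑ S' ∈ TT K z B,
      (if ET S' ∣ D then wt K j * wt K (ET S).natDegree else 0) ≤
      wt K (ET S).natDegree * ((B : ℝ) + 1) := by
    intro S hS
    rw [sum_comm]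
    calc ∑ S' ∈ TT K z B, ∑ D ∈ Mn K j, (if ET S' ∣ D then wt K j * wt K (ET S).natDegree else 0)
        ≤ ∑ S' ∈ TT K z B, wt K (ET S).natDegree * wt K (ET S').natDegree := by
          refine sum_le_sum fun S' hS' => ?_
          rw [← sum_filter, sum_const, nsmul_eq_mul]
          have h3 := card_dvd_le (n := j) (ET_monic (TT_MI hS'))
          have h4 : (Fintype.card K : ℝ) ^ j * wt K j = 1 := by
            unfold wt
            have := q_ge (k := K)
            exact mul_inv_cancel₀ (by positivity)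
          calc (((Mn K j).filter (fun D => ET S' ∣ D)).card : ℝ) * (wt K j * wt K (ET S).natDegree)
              ≤ ((Fintype.card K : ℝ) ^ j * wt K (ET S').natDegree) *
                (wt K j * wt K (ET S).natDegree) :=
                mul_le_mul_of_nonneg_right h3 (mul_nonneg (wt_nonneg _) (wt_nonneg _))
            _ = ((Fintype.card K : ℝ) ^ j * wt K j) *
                (wt K (ET S).natDegree * wt K (ET S').natDegree) := by ring
            _ = wt K (ET S).natDegree * wt K (ET S').natDegree := by rw [h4, one_mul]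
      _ = wt K (ET S).natDegree * ∑ S' ∈ TT K z B, wt K (ET S').natDegree := by rw [mul_sum]
      _ ≤ wt K (ET S).natDegree * ((B : ℝ) + 1) :=
          mul_le_mul_of_nonneg_left (sum_TT z B) (wt_nonneg _)
  refine (sum_le_sum h2).trans ?_
  rw [← sum_mul, sq]
  exact mul_le_mul_of_nonneg_right (sum_TT z B) (by positivity)

theorem bw_eq (z : ℕ) (U : Finset K[X] → ℝ) (f : K[X]) :
    bw z U f = ∑ T ∈ (Pz K z).powerset, if ∀ P ∈ T, P ∣ f then U T else 0 := by
  unfold bw
  rw [← sum_filter]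
  refine sum_congr ?_ fun _ _ => rfl
  ext T
  rw [mem_powerset, mem_filter, mem_powerset]
  constructor
  · intro h
    exact ⟨h.trans (filter_subset _ _), fun P hP => (mem_filter.1 (h hP)).2⟩
  · rintro ⟨h1, h2⟩ P hP
    exact mem_filter.2 ⟨h1 hP, h2 P hP⟩

theorem Nm_eq (d j z : ℕ) (U : Finset K[X] → ℝ) :
    Nm K d j z U = ∑ D ∈ Mn K j, ∑ T ∈ (Pz K z).powerset, U T * (mob D : ℝ) *
      ∑ a ∈ (Mn K d).filter (fun a => D ∣ a ^ 2 + X ∧ ∀ P ∈ T, P ∣ a ^ 2 + X),
        (mob (a ^ 2 + X) : ℝ) := by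
  unfold Nm
  have e1 : ∀ a ∈ Mn K d, ∑ D ∈ (Mn K j).filter (fun D => D ∣ a ^ 2 + X),
      (mob D : ℝ) * (mob (a ^ 2 + X) : ℝ) * bw z U (a ^ 2 + X) =
      ∑ D ∈ Mn K j, ∑ T ∈ (Pz K z).powerset,
        if D ∣ a ^ 2 + X ∧ ∀ P ∈ T, P ∣ a ^ 2 + X then
          U T * (mob D : ℝ) * (mob (a ^ 2 + X) : ℝ) else 0 := by
    intro a _
    rw [sum_filter]
    refine sum_congr rfl fun D _ => ?_
    by_cases h : D ∣ a ^ 2 + X
    · rw [if_pos h, bw_eq, mul_sum]
      refine sum_congr rfl fun T _ => ?_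
      by_cases h2 : ∀ P ∈ T, P ∣ a ^ 2 + X
      · rw [if_pos h2, if_pos ⟨h, h2⟩]; ring
      · rw [if_neg h2, if_neg (fun h3 => h2 h3.2), mul_zero]
    · rw [if_neg h]
      symm
      exact sum_eq_zero fun T _ => if_neg (fun h3 => h h3.1)
  rw [sum_congr rfl e1, sum_comm]
  refine sum_congr rfl fun D _ => ?_
  rw [sum_comm]
  refine sum_congr rfl fun T _ => ?_
  rw [← sum_filter, mul_sum]

end Far2

open Far2 in
theorem far2 (hw : S_weyl) : S_far2 := by
  intro K _ _ _ A C κ hκ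
  obtain ⟨c, hc, d₁, hd₁⟩ := hw K κ hκ
  have hq := q_ge (k := K)
  have hq0 : (0 : ℝ) < Fintype.card K := by linarith
  have hq1 : (1 : ℝ) < (Fintype.card K : ℝ) ^ (c / 2) := by
    exact Real.one_lt_rpow (by linarith) (by positivity)
  have ht := tendsto_pow_const_div_const_pow_of_one_lt 2 hq1
  have hev := (ht.eventually (eventually_le_nhds (show (0 : ℝ) < 1 / 4 by norm_num))).and
    (Filter.eventually_ge_atTop 1)
  obtain ⟨d₂, hd₂⟩ := Filter.eventually_atTop.1 hev
  refine ⟨c / 2, by positivity, max d₁ d₂, ?_⟩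
  intro d z j U hd hU hle
  have hw' := hd₁ d (le_of_max_le_left hd)
  obtain ⟨h2a, h2b⟩ := hd₂ d (le_of_max_le_right hd)
  obtain ⟨hU1, -, hU3, -, -⟩ := hU
  have hd0 : (0 : ℝ) ≤ d := Nat.cast_nonneg d
  set Q : ℝ := (Fintype.card K : ℝ) ^ ((d : ℝ) - c * d) with hQ
  have hQ0 : 0 < Q := Real.rpow_pos_of_pos hq0 _
  have hB : ((A * z : ℕ) : ℝ) ≤ d := by
    push_cast at hle ⊢
    have : (0:ℝ) ≤ j := Nat.cast_nonneg j
    nlinarith
  -- the terms
  have hterm : ∀ D ∈ Mn K j, ∀ T ∈ (Pz K z).powerset, |U T * (mob D : ℝ) *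
      ∑ a ∈ (Mn K d).filter (fun a => D ∣ a ^ 2 + X ∧ ∀ P ∈ T, P ∣ a ^ 2 + X),
        (mob (a ^ 2 + X) : ℝ)| ≤ if T ∈ TT K z (A * z) then
          Q * (wt K j * wt K (ET (T.filter fun P => ¬ P ∣ D)).natDegree) else 0 := by
    intro D hD T hT
    have hD' := mem_Mn.1 hD
    by_cases hUT : U T = 0
    · rw [hUT, zero_mul, zero_mul, abs_zero]
      split_ifs
      · exact mul_nonneg hQ0.le (mul_nonneg (wt_nonneg _) (wt_nonneg _))
      · exact le_rfl
    · have h3 := hU3 T hUT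
      have h4 : T ∈ TT K z (A * z) := mem_TT.2 h3
      rw [if_pos h4]
      by_cases hDs : Squarefree D
      · have h5 : (D.natDegree + ∑ P ∈ T, P.natDegree : ℝ) ≤ (1 - κ) * d := by
          refine le_trans ?_ hle
          rw [hD'.2]
          push_cast
          have : ((∑ P ∈ T, P.natDegree : ℕ) : ℝ) ≤ ((A * z : ℕ) : ℝ) := by exact_mod_cast h3.2
          push_cast at this
          linarith
        have h6 := inner hw' hκ hD'.1 hDs (TT_MI h4) h5
        rw [hD'.2] at h6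
        rw [abs_mul, abs_mul]
        calc |U T| * |(mob D : ℝ)| * _ ≤ 1 * 1 * _ := by
              refine mul_le_mul (mul_le_mul (hU1 T) (mob_le D) (abs_nonneg _) (by norm_num)) h6
                (abs_nonneg _) (by norm_num)
          _ = _ := by rw [one_mul, one_mul]
      · have h5 : (mob D : ℝ) = 0 := by
          unfold mob; rw [if_neg hDs]; simp
        rw [h5, mul_zero, zero_mul, abs_zero]
        exact mul_nonneg hQ0.le (mul_nonneg (wt_nonneg _) (wt_nonneg _))
  have hmain : |Nm K d j z U| ≤ Q * (((A * z : ℕ) : ℝ) + 1) ^ 2 := by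
    rw [Nm_eq]
    refine (abs_sum_le_sum_abs _ _).trans ?_
    calc ∑ D ∈ Mn K j, |∑ T ∈ (Pz K z).powerset, U T * (mob D : ℝ) *
          ∑ a ∈ (Mn K d).filter (fun a => D ∣ a ^ 2 + X ∧ ∀ P ∈ T, P ∣ a ^ 2 + X),
            (mob (a ^ 2 + X) : ℝ)|
        ≤ ∑ D ∈ Mn K j, ∑ T ∈ (Pz K z).powerset, (if T ∈ TT K z (A * z) then
          Q * (wt K j * wt K (ET (T.filter fun P => ¬ P ∣ D)).natDegree) else 0) :=
          sum_le_sum fun D hD => (abs_sum_le_sum_abs _ _).trans (sum_le_sum fun T hT => hterm D hD T hT)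
      _ = ∑ D ∈ Mn K j, ∑ T ∈ TT K z (A * z),
          Q * (wt K j * wt K (ET (T.filter fun P => ¬ P ∣ D)).natDegree) := by
          refine sum_congr rfl fun D _ => ?_
          rw [← sum_filter]
          refine sum_congr ?_ fun _ _ => rfl
          ext T
          rw [mem_filter]
          exact ⟨fun h => h.2, fun h => ⟨mem_powerset.2 (mem_TT.1 h).1, h⟩⟩
      _ = Q * ∑ D ∈ Mn K j, ∑ T ∈ TT K z (A * z),
          wt K j * wt K (ET (T.filter fun P => ¬ P ∣ D)).natDegree := by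
          rw [mul_sum]
          exact sum_congr rfl fun D _ => by rw [mul_sum]
      _ ≤ Q * (((A * z : ℕ) : ℝ) + 1) ^ 2 := mul_le_mul_of_nonneg_left (dens z (A * z) j) hQ0.le
  refine hmain.trans ?_
  have hd1 : (1 : ℝ) ≤ d := by exact_mod_cast h2b
  have h7 : (((A * z : ℕ) : ℝ) + 1) ^ 2 ≤ 4 * (d : ℝ) ^ 2 := by
    have : (0:ℝ) ≤ ((A * z : ℕ) : ℝ) := Nat.cast_nonneg _
    nlinarith
  have hpow : (0 : ℝ) < ((Fintype.card K : ℝ) ^ (c / 2)) ^ d := by positivity
  have h8 : 4 * (d : ℝ) ^ 2 ≤ ((Fintype.card K : ℝ) ^ (c / 2)) ^ d := by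
    rw [div_le_iff₀ hpow] at h2a
    linarith
  have h9 : Q * ((Fintype.card K : ℝ) ^ (c / 2)) ^ d = (Fintype.card K : ℝ) ^ ((1 - c / 2) * d) := by
    rw [hQ, ← Real.rpow_natCast, ← Real.rpow_mul hq0.le, ← Real.rpow_add hq0]
    congr 1; ring
  rw [← h9]
  exact mul_le_mul_of_nonneg_left (h7.trans h8) hQ0.le

end Pool.Agent.H604.LD
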