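import Pool.Agent.H604.LD.Stm

/-!
# Task FIN: the assembly
-/

set_option autoImplicit false
set_option linter.unusedSectionVars false

namespace Pool.Agent.H604.LD

open Polynomial
open scoped Classical
open Pool.Agent.H985.Chow (mob lc)
open Pool.Agent.H694.Typ (Mn PU mem_Mn mem_PU)

namespace FIN

/-! ### The Möbius function -/

section mobs

variable {K : Type} [Field K]

theorem mob_eq (F : K[X]) : mob F = if Squarefree F then
    (-1) ^ Multiset.card (UniqueFactorizationMonoid.factors F) else 0 := rfl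

theorem mob_mul_sqf {F G : K[X]} (h : Squarefree (F * G)) : mob (F * G) = mob F * mob G := by
  have h1 := squarefree_mul_iff.1 h
  rw [mob_eq, mob_eq, mob_eq, if_pos h1.2.1, if_pos h1.2.2, if_pos h, ← pow_add]
  congr 1
  rw [Multiset.card_eq_card_of_rel (UniqueFactorizationMonoid.factors_mul h1.2.1.ne_zero
    h1.2.2.ne_zero), Multiset.card_add]

theorem mob_mul_self {F : K[X]} (h : Squarefree F) : mob F * mob F = 1 := by
  rw [mob_eq, if_pos h, ← mul_pow]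
  norm_num

end mobs

section

variable {K : Type} [Field K] [Fintype K] [CharP K 2]

theorem sqf (a : K[X]) : Squarefree (a ^ 2 + X) := by
  have h1 : derivative (a ^ 2 + X) = 1 := by
    rw [derivative_add, derivative_X, derivative_pow]
    have h2 : ((2 : ℕ) : K) = 0 := by exact_mod_cast CharP.cast_eq_zero K 2
    rw [h2]
    simp
  refine Separable.squarefree ?_
  unfold Polynomial.Separable
  rw [h1]
  exact isCoprime_one_right

theorem fmon {d : ℕ} (hd : 1 ≤ d) {a : K[X]} (ha : a ∈ Mn K d) :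
    (a ^ 2 + X).Monic ∧ (a ^ 2 + X).natDegree = 2 * d := by
  rw [mem_Mn] at ha
  have h1 : (a ^ 2).natDegree = 2 * d := by rw [natDegree_pow, ha.2]
  have h0 : (X : K[X]).degree < (a ^ 2).degree := by
    rw [degree_X, degree_eq_natDegree (ha.1.pow 2).ne_zero, h1]
    exact_mod_cast (by omega : 1 < 2 * d)
  refine ⟨(ha.1.pow 2).add_of_left h0, ?_⟩
  rw [natDegree_add_eq_left_of_degree_lt h0, h1]

/-- The reflection. -/
theorem refl {d : ℕ} (hd : 1 ≤ d) {j : ℕ} (hj : j ≤ 2 * d) (z : ℕ) (U : Finset K[X] → ℝ) :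
    Nm K d j z U = Nn K d (2 * d - j) z U := by
  unfold Nm Nn
  refine Finset.sum_congr rfl fun a ha => ?_
  obtain ⟨h1, h2⟩ := fmon hd ha
  have h3 := sqf a
  have hdiv : ∀ i : ℕ, i ≤ 2 * d → ∀ D ∈ (Mn K i).filter (fun D => D ∣ a ^ 2 + X),
      (a ^ 2 + X) / D ∈ (Mn K (2 * d - i)).filter (fun D => D ∣ a ^ 2 + X) ∧
        D * ((a ^ 2 + X) / D) = a ^ 2 + X := by
    intro i hi D hD
    rw [Finset.mem_filter, mem_Mn] at hD
    obtain ⟨⟨h4, h5⟩, h6⟩ := hD
    have h7 : D * ((a ^ 2 + X) / D) = a ^ 2 + X := EuclideanDomain.mul_div_cancel' h4.ne_zero h6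
    have h8 : ((a ^ 2 + X) / D).Monic := by
      refine h4.of_mul_monic_left ?_
      rw [h7]
      exact h1
    refine ⟨?_, h7⟩
    rw [Finset.mem_filter, mem_Mn]
    refine ⟨⟨h8, ?_⟩, ⟨D, ?_⟩⟩
    · have h9 := h4.natDegree_mul h8
      rw [h7, h2, h5] at h9
      omega
    · rw [mul_comm]
      exact h7.symm
  refine Finset.sum_bij (fun D _ => (a ^ 2 + X) / D) (fun D hD => (hdiv j hj D hD).1) ?_ ?_ ?_
  · intro D hD D' hD' hDD
    have e1 := (hdiv j hj D hD).2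
    have e2 := (hdiv j hj D' hD').2
    rw [hDD] at e1
    have h0 : (a ^ 2 + X) / D' ≠ 0 := by
      intro h
      rw [h, mul_zero] at e2
      exact h1.ne_zero e2.symm
    exact mul_right_cancel₀ h0 (e1.trans e2.symm)
  · intro D hD
    have e1 := hdiv (2 * d - j) (by omega) D hD
    have e2 : 2 * d - (2 * d - j) = j := by omega
    rw [e2] at e1
    refine ⟨(a ^ 2 + X) / D, e1.1, ?_⟩
    have e3 := (hdiv j hj _ e1.1).2
    have e4 := e1.2
    have h0 : (a ^ 2 + X) / D ≠ 0 := by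
      intro h
      rw [h, mul_zero] at e4
      exact h1.ne_zero e4.symm
    apply mul_left_cancel₀ h0
    rw [e3, mul_comm]
    exact e4.symm
  · intro D hD
    have e1 := (hdiv j hj D hD).2
    have h4 : Squarefree (D * ((a ^ 2 + X) / D)) := by rw [e1]; exact h3
    have h5 := mob_mul_sqf h4
    rw [e1] at h5
    have h6 := mob_mul_self (squarefree_mul_iff.1 h4).2.1
    have h7 : (mob D : ℝ) * (mob D : ℝ) = 1 := by exact_mod_cast h6
    have h8 : (mob (a ^ 2 + X) : ℝ) = mob D * mob ((a ^ 2 + X) / D) := by exact_mod_cast h5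
    rw [h8]
    linear_combination (mob ((a ^ 2 + X) / D) : ℝ) * bw z U (a ^ 2 + X) * h7

theorem bw_irr {z : ℕ} {U : Finset K[X] → ℝ} (hU : U ∅ = 1) {f : K[X]} (hf : Irreducible f)
    (hz : z < f.natDegree) : bw z U f = 1 := by
  unfold bw
  have h1 : (Pz K z).filter (fun P => P ∣ f) = ∅ := by
    rw [Finset.filter_eq_empty_iff]
    intro P hP h
    unfold Pz at hP
    rw [Finset.mem_erase, mem_PU] at hP
    obtain ⟨-, -, h2, h3⟩ := hP
    have h4 : Associated P f := h2.associated_of_dvd hf h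
    have h5 := natDegree_eq_of_degree_eq (degree_eq_degree_of_associated h4)
    omega
  rw [h1, Finset.powerset_empty, Finset.sum_singleton, hU]

/-- the identity for the number of the primes -/
theorem ident (hh : S_hid) {d z : ℕ} (hd : 1 ≤ d) (hz : z < 2 * d) {U : Finset K[X] → ℝ}
    (hU : U ∅ = 1) :
    2 * (d : ℝ) * (((Mn K d).filter (fun a => Irreducible (a ^ 2 + X))).card : ℝ) =
      ∑ j ∈ Finset.range d, ((d : ℝ) - j) * (Nn K d j z U - Nm K d j z U) := by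
  have h1 : ∀ a ∈ Mn K d, (if Irreducible (a ^ 2 + X) then 2 * (d : ℝ) else 0) =
      ∑ j ∈ Finset.range d, ((d : ℝ) - j) *
        ((∑ D ∈ (Mn K j).filter (fun D => D ∣ a ^ 2 + X), (mob D : ℝ) * bw z U (a ^ 2 + X)) -
        ∑ D ∈ (Mn K j).filter (fun D => D ∣ a ^ 2 + X),
          (mob D : ℝ) * (mob (a ^ 2 + X) : ℝ) * bw z U (a ^ 2 + X)) := by
    intro a ha
    obtain ⟨e1, e2⟩ := fmon hd ha
    have e3 := hh K d (a ^ 2 + X) hd e1 (sqf a) e2
    have e4 : bw z U (a ^ 2 + X) * (if Irreducible (a ^ 2 + X) then 2 * (d : ℝ) else 0) =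
        if Irreducible (a ^ 2 + X) then 2 * (d : ℝ) else 0 := by
      split_ifs with h
      · rw [bw_irr hU h (by rw [e2]; exact hz), one_mul]
      · rw [mul_zero]
    rw [← e4, ← e3, Finset.mul_sum, Finset.mul_sum]
    refine Finset.sum_congr rfl fun j _ => ?_
    rw [← Finset.sum_mul, ← Finset.sum_mul, ← Finset.sum_mul]
    ring
  have h2 : 2 * (d : ℝ) * (((Mn K d).filter (fun a => Irreducible (a ^ 2 + X))).card : ℝ) =
      ∑ a ∈ Mn K d, if Irreducible (a ^ 2 + X) then 2 * (d : ℝ) else 0 := by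
    rw [← Finset.sum_filter, Finset.sum_const, nsmul_eq_mul]
    ring
  rw [h2, Finset.sum_congr rfl h1, Finset.sum_comm]
  refine Finset.sum_congr rfl fun j _ => ?_
  rw [← Finset.mul_sum, Finset.sum_sub_distrib]
  rfl

end

/-- the estimate from the parts -/
theorem split {d J : ℕ} (hJ : J < d) (Nf Mf : ℕ → ℝ) (Q E1 E2 E3 : ℝ) (hE3 : 0 ≤ E3)
    (w : ℕ) (hw : d - J ≤ w)
    (hfar : |∑ j ∈ Finset.range (J + 1), ((d : ℝ) - j) * Nf j - Q| ≤ E1)
    (hm : ∀ j, j ≤ J → |Mf j| ≤ E2)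
    (hn : ∀ j, J < j → j < d → |Nf j| ≤ E3 ∧ |Mf j| ≤ E3) :
    |∑ j ∈ Finset.range d, ((d : ℝ) - j) * (Nf j - Mf j) - Q| ≤
      E1 + (d : ℝ) ^ 2 * E2 + (w : ℝ) ^ 2 * (2 * E3) := by
  have hE2 : 0 ≤ E2 := (abs_nonneg _).trans (hm 0 (Nat.zero_le _))
  have h1 : ∑ j ∈ Finset.range d, ((d : ℝ) - j) * (Nf j - Mf j) =
      ∑ j ∈ Finset.range (J + 1), ((d : ℝ) - j) * (Nf j - Mf j) +
        ∑ j ∈ Finset.Ico (J + 1) d, ((d : ℝ) - j) * (Nf j - Mf j) := by
    rw [Finset.sum_range_add_sum_Ico _ (by omega)]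
  have h2 : ∑ j ∈ Finset.range (J + 1), ((d : ℝ) - j) * (Nf j - Mf j) =
      ∑ j ∈ Finset.range (J + 1), ((d : ℝ) - j) * Nf j -
        ∑ j ∈ Finset.range (J + 1), ((d : ℝ) - j) * Mf j := by
    rw [← Finset.sum_sub_distrib]
    refine Finset.sum_congr rfl fun j _ => ?_
    ring
  have h3 : |∑ j ∈ Finset.range (J + 1), ((d : ℝ) - j) * Mf j| ≤ (d : ℝ) ^ 2 * E2 := by
    refine (Finset.abs_sum_le_sum_abs _ _).trans ?_
    have e1 : ∀ j ∈ Finset.range (J + 1), |((d : ℝ) - j) * Mf j| ≤ d * E2 := by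
      intro j hj
      rw [Finset.mem_range] at hj
      have e2 : (j : ℝ) ≤ d := by exact_mod_cast (by omega : j ≤ d)
      rw [abs_mul, abs_of_nonneg (by linarith)]
      have e3 : (0 : ℝ) ≤ j := Nat.cast_nonneg j
      exact mul_le_mul (by linarith) (hm j (by omega)) (abs_nonneg _) (Nat.cast_nonneg _)
    refine (Finset.sum_le_sum e1).trans ?_
    rw [Finset.sum_const, Finset.card_range, nsmul_eq_mul, sq, mul_assoc]
    refine mul_le_mul_of_nonneg_right ?_ (by positivity)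
    exact_mod_cast hJ
  have h4 : |∑ j ∈ Finset.Ico (J + 1) d, ((d : ℝ) - j) * (Nf j - Mf j)| ≤
      (w : ℝ) ^ 2 * (2 * E3) := by
    refine (Finset.abs_sum_le_sum_abs _ _).trans ?_
    have e1 : ∀ j ∈ Finset.Ico (J + 1) d, |((d : ℝ) - j) * (Nf j - Mf j)| ≤ w * (2 * E3) := by
      intro j hj
      rw [Finset.mem_Ico] at hj
      have e2 : (j : ℝ) ≤ d := by exact_mod_cast (by omega : j ≤ d)
      have e4 : ((d : ℝ) - j) ≤ w := by
        have e5 : (d : ℝ) ≤ w + j := by exact_mod_cast (by omega : d ≤ w + j)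
        linarith
      rw [abs_mul, abs_of_nonneg (by linarith)]
      have e3 : |Nf j - Mf j| ≤ 2 * E3 := by
        obtain ⟨e6, e7⟩ := hn j (by omega) hj.2
        have e8 := abs_sub (Nf j) (Mf j)
        linarith
      exact mul_le_mul e4 e3 (abs_nonneg _) (Nat.cast_nonneg _)
    refine (Finset.sum_le_sum e1).trans ?_
    rw [Finset.sum_const, Nat.card_Ico, nsmul_eq_mul, sq, mul_assoc]
    refine mul_le_mul_of_nonneg_right ?_ (by positivity)
    exact_mod_cast (by omega : d - (J + 1) ≤ w)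
  rw [h1, h2]
  rw [abs_le] at hfar h3 h4 ⊢
  constructor <;> linarith [hfar.1, hfar.2, h3.1, h3.2, h4.1, h4.2]

theorem rpow_split {q : ℝ} (hq : 0 < q) (θ : ℝ) (d : ℕ) :
    q ^ ((1 - θ) * (d : ℝ)) = q ^ d * (q ^ (-θ)) ^ d := by
  rw [← Real.rpow_natCast (q ^ (-θ)) d, ← Real.rpow_mul hq.le, ← Real.rpow_natCast q d,
    ← Real.rpow_add hq]
  congr 1
  ring

end FIN

open FIN in
theorem ldfin : S_ldfin := by
  intro hhid hfar1 hfar2 hnear hbhw K _ _ _
  obtain ⟨A, C, hA, hC, hbw⟩ := hbhw K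
  obtain ⟨q, hq⟩ : ∃ q : ℝ, q = (Fintype.card K : ℝ) := ⟨_, rfl⟩
  have hq2 : (2 : ℝ) ≤ q := by
    rw [hq]
    exact_mod_cast (Fintype.one_lt_card (α := K))
  have hq0 : 0 < q := by linarith
  have hA0 : (0 : ℝ) < A := by exact_mod_cast hA
  rw [Metric.tendsto_atTop]
  intro ε hε
  obtain ⟨θ₁, hθ₁, d₁, H1⟩ := hfar1 K A C
  obtain ⟨θ₃, hθ₃, d₃, H3⟩ := hnear K A C (ε / (16 * (A : ℝ) ^ 2)) hC (by positivity)
  -- the choice of η
  obtain ⟨η, hη0, hη1, hη3, hη4⟩ : ∃ η : ℝ, 0 < η ∧ A * η ≤ θ₁ ∧ 2 * (A * η) ≤ θ₃ ∧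
      4 * (A * η) ≤ 1 := by
    refine ⟨min θ₁ (min (θ₃ / 2) (1 / 4)) / A, by positivity, ?_, ?_, ?_⟩
    · rw [mul_div_cancel₀ _ hA0.ne']
      exact min_le_left _ _
    · rw [mul_div_cancel₀ _ hA0.ne']
      have h := (min_le_right θ₁ (min (θ₃ / 2) (1 / 4))).trans (min_le_left _ _)
      linarith
    · rw [mul_div_cancel₀ _ hA0.ne']
      have h := (min_le_right θ₁ (min (θ₃ / 2) (1 / 4))).trans (min_le_right _ _)
      linarith
  obtain ⟨θ₂, hθ₂, d₂, H2⟩ := hfar2 K A C (A * η / 2) (by positivity)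
  -- the limits
  have hr : ∀ θ : ℝ, 0 < θ → |q ^ (-θ)| < 1 := by
    intro θ hθ
    rw [abs_of_pos (Real.rpow_pos_of_pos hq0 _)]
    exact Real.rpow_lt_one_of_one_lt_of_neg (by linarith) (by linarith)
  have l1 := tendsto_pow_const_mul_const_pow_of_abs_lt_one 0 (hr θ₁ hθ₁)
  have l2 := tendsto_pow_const_mul_const_pow_of_abs_lt_one 2 (hr θ₂ hθ₂)
  rw [Metric.tendsto_atTop] at l1 l2
  obtain ⟨n1, L1⟩ := l1 (ε / 8) (by positivity)
  obtain ⟨n2, L2⟩ := l2 (ε / 8) (by positivity)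
  obtain ⟨n3, L3⟩ := exists_nat_ge (2 / η)
  refine ⟨max (max d₁ d₂) (max d₃ (max n1 (max n2 (n3 + 1)))), fun d hd => ?_⟩
  simp only [ge_iff_le, max_le_iff] at hd
  obtain ⟨⟨hd1, hd2⟩, hd3, hn1, hn2, hn3⟩ := hd
  have hdpos : (0 : ℝ) < d := by exact_mod_cast (by omega : 0 < d)
  have hηd : 2 ≤ η * d := by
    have h1 : (n3 : ℝ) ≤ d := by exact_mod_cast (by omega : n3 ≤ d)
    have h2 : 2 / η ≤ d := L3.trans h1
    rw [div_le_iff₀ hη0] at h2
    linarith
  obtain ⟨z, hz⟩ : ∃ z : ℕ, z = ⌊η * d⌋₊ := ⟨_, rfl⟩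
  have hz1 : (z : ℝ) ≤ η * d := by
    rw [hz]
    exact Nat.floor_le (by positivity)
  have hz2 : η * d / 2 ≤ z := by
    have h1 : η * d < (z : ℝ) + 1 := by
      rw [hz]
      exact Nat.lt_floor_add_one _
    linarith
  have hz3 : 1 ≤ z := by
    have h1 : (0 : ℝ) < z := by linarith
    exact_mod_cast h1
  have hz0 : (0 : ℝ) < z := by linarith
  obtain ⟨U, hU⟩ := hbw z hz3
  have hAz : ((A * z : ℕ) : ℝ) ≤ A * η * d := by
    push_cast
    rw [mul_assoc]
    exact mul_le_mul_of_nonneg_left hz1 hA0.le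
  have hAz4 : 4 * (A * z) ≤ d := by
    have h1 : (4 : ℝ) * ((A * z : ℕ) : ℝ) ≤ d := by
      calc (4 : ℝ) * ((A * z : ℕ) : ℝ) ≤ 4 * (A * η * d) := by linarith
        _ = (4 * (A * η)) * d := by ring
        _ ≤ 1 * d := mul_le_mul_of_nonneg_right hη4 hdpos.le
        _ = d := one_mul _
    exact_mod_cast h1
  have hAz1 : z ≤ A * z := Nat.le_mul_of_pos_left z (by omega)
  obtain ⟨J, hJ⟩ : ∃ J : ℕ, J = d - 2 * (A * z) := ⟨_, rfl⟩
  have hid := ident (K := K) hhid (d := d) (z := z) (by omega) (by omega) hU.2.1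
  -- the three bounds
  have b1 := H1 d z J U hd1 (hAz.trans (mul_le_mul_of_nonneg_right hη1 hdpos.le)) hU (by omega)
    (by omega) (by omega)
  have b2 : ∀ j, j ≤ J → |Nm K d j z U| ≤ (Fintype.card K : ℝ) ^ ((1 - θ₂) * d) := by
    intro j hj
    refine H2 d z j U hd2 hU ?_
    have h1 : j + A * z ≤ d - A * z := by omega
    have h2 : ((j + A * z : ℕ) : ℝ) + ((A * z : ℕ) : ℝ) ≤ d := by
      exact_mod_cast (by omega : j + A * z + A * z ≤ d)
    have h3 : A * η / 2 * d ≤ ((A * z : ℕ) : ℝ) := by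
      push_cast
      calc A * η / 2 * d = A * (η * d / 2) := by ring
        _ ≤ A * z := mul_le_mul_of_nonneg_left hz2 hA0.le
    linarith
  have b3 : ∀ j, J < j → j < d → |Nn K d j z U| ≤
      ε / (16 * (A : ℝ) ^ 2) * (Fintype.card K : ℝ) ^ d / (z : ℝ) ^ 2 ∧
      |Nm K d j z U| ≤ ε / (16 * (A : ℝ) ^ 2) * (Fintype.card K : ℝ) ^ d / (z : ℝ) ^ 2 := by
    intro j hj1 hj2
    have h1 : ((A * z : ℕ) : ℝ) ≤ θ₃ * d := by
      refine hAz.trans (mul_le_mul_of_nonneg_right ?_ hdpos.le)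
      nlinarith [mul_pos hA0 hη0]
    have h2 : (d : ℝ) - j ≤ θ₃ * d := by
      have e1 : (d : ℝ) ≤ j + 2 * ((A * z : ℕ) : ℝ) := by
        exact_mod_cast (by omega : d ≤ j + 2 * (A * z))
      have e2 : 2 * ((A * z : ℕ) : ℝ) ≤ θ₃ * d := by
        calc 2 * ((A * z : ℕ) : ℝ) ≤ 2 * (A * η * d) := by linarith
          _ = (2 * (A * η)) * d := by ring
          _ ≤ _ := mul_le_mul_of_nonneg_right hη3 hdpos.le
      linarith
    have h3 : (j : ℝ) ≤ d := by exact_mod_cast hj2.le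
    refine ⟨H3 d j z U hd3 hz3 h1 ?_ hU, ?_⟩
    · rw [abs_le]
      constructor <;> linarith
    · rw [refl (by omega) (by omega)]
      refine H3 d (2 * d - j) z U hd3 hz3 h1 ?_ hU
      have h4 : ((2 * d - j : ℕ) : ℝ) = 2 * d - j := by
        rw [Nat.cast_sub (by omega)]
        push_cast
        ring
      rw [h4, abs_le]
      constructor <;> linarith
  have b4 := split (by omega : J < d) (fun j => Nn K d j z U) (fun j => Nm K d j z U) _ _ _ _
    (by positivity) (2 * (A * z)) (by omega) b1 b2 b3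
  rw [← hid, ← hq] at b4
  have hqd : 0 < q ^ d := pow_pos hq0 d
  rw [Real.dist_eq]
  have e0 : 2 * (d : ℝ) * (((Mn K d).filter (fun a => Irreducible (a ^ 2 + X))).card : ℝ) /
      (Fintype.card K : ℝ) ^ d - 1 =
      (2 * (d : ℝ) * (((Mn K d).filter (fun a => Irreducible (a ^ 2 + X))).card : ℝ) - q ^ d) /
        q ^ d := by
    rw [← hq]
    field_simp
  rw [e0, abs_div, abs_of_pos hqd, div_lt_iff₀ hqd]
  refine b4.trans_lt ?_
  have m1 : (q ^ (-θ₁)) ^ d < ε / 8 := by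
    have h := L1 d hn1
    rw [Real.dist_eq, sub_zero, pow_zero, one_mul] at h
    exact (le_abs_self _).trans_lt h
  have m2 : (d : ℝ) ^ 2 * (q ^ (-θ₂)) ^ d < ε / 8 := by
    have h := L2 d hn2
    rw [Real.dist_eq, sub_zero] at h
    exact (le_abs_self _).trans_lt h
  rw [rpow_split hq0, rpow_split hq0]
  have m3 : ((2 * (A * z) : ℕ) : ℝ) ^ 2 * (2 * (ε / (16 * (A : ℝ) ^ 2) * q ^ d / (z : ℝ) ^ 2)) =
      ε / 2 * q ^ d := by
    push_cast
    field_simp
    ring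
  rw [m3]
  have m4 : q ^ d * (q ^ (-θ₁)) ^ d < ε / 8 * q ^ d := by
    rw [mul_comm]
    exact mul_lt_mul_of_pos_right m1 hqd
  have m5 : (d : ℝ) ^ 2 * (q ^ d * (q ^ (-θ₂)) ^ d) < ε / 8 * q ^ d := by
    calc (d : ℝ) ^ 2 * (q ^ d * (q ^ (-θ₂)) ^ d) = ((d : ℝ) ^ 2 * (q ^ (-θ₂)) ^ d) * q ^ d := by ring
      _ < _ := mul_lt_mul_of_pos_right m2 hqd
  have m6 : 0 < ε * q ^ d := mul_pos hε hqd
  linarith

end Pool.Agent.H604.LD
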