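import Mathlib
import Pool.Agent.H604.FC.Win4e
import Pool.Agent.H604.LD.Stm

/-!
# Primes `a ^ 2 + X`, `q` even (helper604): the window bound with factors of the first digit
-/

set_option autoImplicit false
set_option linter.unusedSectionVars false

namespace Pool.Agent.H604.LD

open Polynomial
open Pool.Agent.H985.Chow (mob MD Wl S_key S_cmp)
open Pool.Agent.H985.KP (sg PA mobg S_cnt)
open Pool.Agent.H985.FC (gl GP S_lock S_locf S_gcs S_winF S_full)
open Pool.Agent.H985.Chow.Win (facs two0 twoP finU card_P cop_der)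

open Pool.Agent.H604.FC
open Pool.Agent.H604.FC.W4

/-- The window bound with a further factor `e` that disappears after the differences. -/
theorem win4e (hgcs : S_gcs) (hlock : S_lock) (hlocf : S_locf) (hfin : S_fin) (hbadt : S_badt)
    (hcnt : S_cnt) : ∀ k r : ℕ, ∃ M : ℝ, 1 ≤ M ∧
  ∀ (K : Type) [Field K] [Fintype K] [CharP K 2] (L D T : ℕ) (E : K[X])
    (b h' h'' : Fin r → K[X]) (Z g : Fin k → K[X]) (cl : Fin k → Fin r) (j₀ : Fin r)
    (e : K[X] → ℝ),
    (∀ j, (h' j).Monic ∧ (h'' j).Monic ∧ Squarefree (h' j * h'' j) ∧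
      IsCoprime E (h' j * h'' j) ∧ (h' j).natDegree + D ≤ L ∧ (h'' j).natDegree + D ≤ L ∧
      ∀ P ∈ PA (h' j * h'' j), ¬ P ∣ derivative (b j)) →
    (∀ i j, i ≠ j → IsCoprime (h' i * h'' i) (h' j * h'' j)) → (∃ i, cl i = j₀) →
    (∀ i j, i ≠ j → cl i = cl j → IsCoprime (Z i - Z j) (h'' (cl i))) →
    L ≤ 2 * (h'' j₀).natDegree → (6 * r + 3) * T ≤ D → (∀ u, |e u| ≤ 1) →
    (∀ (t : Fin r × Bool × Fin 3 → K[X]) (t₀ u : K[X]),
      (∏ A : Finset (Fin r × Bool × Fin 3), e (u + ∑ l ∈ A, Hk h' h'' j₀ l * t l)) *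
      ∏ A : Finset (Fin r × Bool × Fin 3),
        e (u + h'' j₀ * t₀ + ∑ l ∈ A, Hk h' h'' j₀ l * t l) = 1) →
    |∑ᶠ u ∈ {u : K[X] | u.degree < (L : WithBot ℕ)}, e u * ∏ i,
        ∏ᶠ P ∈ PA (h' (cl i) * h'' (cl i)), GP (b (cl i)) (g i) P (Z i + E * u)| ^
          (2 ^ (6 * r + 1)) ≤
      M ^ (∑ j, (PA (h' j * h'' j)).ncard) * (Fintype.card K : ℝ) ^ (L * 2 ^ (6 * r + 1)) /
        (Fintype.card K : ℝ) ^ T := by
  intro k r
  rcases Nat.eq_zero_or_pos r with rfl | hr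
  · exact ⟨1, le_rfl, fun K _ _ _ L D T E b h' h'' Z g cl j₀ => j₀.elim0⟩
  obtain ⟨M2, hM2, hbad⟩ := hbadt (6 * r) ((k * 2 ^ (6 * r)) * (k * 2 ^ (6 * r))) (by omega)
  set X1 : ℝ := (2 * (2 * (k * 2 ^ (6 * r)) : ℕ) + 1 : ℝ) with hX1
  set X2 : ℝ := (2 * (k * 2 ^ (6 * r) : ℝ) + 1) with hX2
  have hX1' : 1 ≤ X1 := by
    rw [hX1]
    have : (0 : ℝ) ≤ ((2 * (k * 2 ^ (6 * r)) : ℕ) : ℝ) := Nat.cast_nonneg _
    linarith
  have hX2' : 1 ≤ X2 := by
    rw [hX2]
    have : (0 : ℝ) ≤ (k * 2 ^ (6 * r) : ℝ) := by positivity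
    linarith
  set M1 : ℝ := X1 * X2 with hM1
  have hM1' : 1 ≤ M1 := one_le_mul_of_one_le_of_one_le hX1' hX2'
  refine ⟨2 * M2 + 4 + M1, by linarith, ?_⟩
  intro K _ _ _ L D T E b h' h'' Z g cl j₀ e c1 c2 c3 c4 c5 c6 c7 c8
  classical
  have H : Hyp L D E b h' h'' Z cl j₀ := ⟨c1, c2, c3, c4, c5⟩
  choose Is hIs hIsp using fun j => facs ((c1 j).1.mul (c1 j).2.1) (c1 j).2.2.1
  obtain ⟨Il, hIl, hIlp⟩ := facs (c1 j₀).2.1
    ((c1 j₀).2.2.1.squarefree_of_dvd (Dvd.intro_left _ rfl))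
  let _ : Fintype (degreeLT K L) := Fintype.ofFinite _
  let _ : Fintype (degreeLT K D) := Fintype.ofFinite _
  set q : ℝ := (Fintype.card K : ℝ) with hq
  have hq1 : 1 ≤ q := by
    rw [hq]
    exact_mod_cast Fintype.card_pos
  have hq0 : 0 < q := by linarith
  set f0 : K[X] → ℝ := fun u => (1 : AddChar K[X] ℝ) u * ∏ i,
    ∏ᶠ P ∈ PA (h' (cl i) * h'' (cl i)), GP (b (cl i)) (g i) P (Z i + E * u) with hf0
  set f : K[X] → ℝ := fun u => e u * ∏ i, ∏ᶠ P ∈ PA (h' (cl i) * h'' (cl i)),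
    GP (b (cl i)) (g i) P (Z i + E * u) with hf
  have hf0abs : ∀ u, |f0 u| ≤ 1 := fun u => abs_f b (fun j => h' j * h'' j) Z g cl E hIs 1 u
  have hff : ∀ u, f u = e u * f0 u := fun u => by
    rw [hf, hf0]
    simp only [AddChar.one_apply, one_mul]
  have hfabs : ∀ u, |f u| ≤ 1 := fun u => by
    rw [hff, abs_mul]
    exact mul_le_one₀ (c7 u) (abs_nonneg _) (hf0abs u)
  set ω : ℕ := ∑ j, (PA (h' j * h'' j)).ncard with hω
  have hPA : ∀ j, PA (h' j * h'' j) = ↑(Is j) := by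
    intro j
    ext P
    rw [Finset.mem_coe, hIs]
    rfl
  have hPAl : PA (h'' j₀) = ↑Il := by
    ext P
    rw [Finset.mem_coe, hIl]
    rfl
  have hIω : (Finset.univ.biUnion Is).card ≤ ω := by
    refine Finset.card_biUnion_le.trans (le_of_eq ?_)
    rw [hω]
    refine Finset.sum_congr rfl fun j _ => ?_
    rw [hPA, Set.ncard_coe_finset]
  have hIlI : Il ⊆ Finset.univ.biUnion Is := by
    intro P hP
    obtain ⟨h1, h2, h3⟩ := (hIl P).1 hP
    rw [Finset.mem_biUnion]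
    exact ⟨j₀, Finset.mem_univ _, (hIs _ _).2 ⟨h1, h2, h3.mul_left _⟩⟩
  have hIlω : Il.card ≤ ω := (Finset.card_le_card hIlI).trans hIω
  have hcU : Fintype.card (degreeLT K L) = Fintype.card K ^ L := card_dl L
  have hcD : Fintype.card (degreeLT K D) = Fintype.card K ^ D := card_dl D
  have hcU' : (Fintype.card (degreeLT K L) : ℝ) = q ^ L := by rw [hcU]; push_cast; rfl
  have hcD' : (Fintype.card (degreeLT K D) : ℝ) = q ^ D := by rw [hcD]; push_cast; rfl
  rw [fsum_eq]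
  have htriv : ∀ F : degreeLT K L → ℝ, (∀ u, |F u| ≤ 1) → |∑ u, F u| ≤ q ^ L := by
    intro F hF
    refine (Finset.abs_sum_le_sum_abs _ _).trans ((Finset.sum_le_sum fun u _ => hF u).trans ?_)
    rw [Finset.sum_const, Finset.card_univ, nsmul_eq_mul, mul_one, hcU']
  have hT0 : T ≤ (6 * r + 3) * T := Nat.le_mul_of_pos_left _ (by omega)
  have hDL : (h'' j₀).natDegree + D ≤ L := (c1 j₀).2.2.2.2.2.1
  have hexp : (q ^ L) ^ (2 ^ (6 * r + 1)) = q ^ (L * 2 ^ (6 * r + 1)) := by rw [pow_mul]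
  by_cases hω0 : ω = 0
  · have hIl0 : Il = ∅ := Finset.card_eq_zero.1 (by omega)
    have hdeg0 : (h'' j₀).natDegree = 0 := by
      rw [← hIlp, hIl0, Finset.prod_empty, natDegree_one]
    have hT : T = 0 := by omega
    rw [hT, hω0, pow_zero, pow_zero, one_mul, div_one, ← hexp]
    exact pow_le_pow_left₀ (abs_nonneg _) (htriv _ fun u => hfabs _) _
  have hω1 : 1 ≤ ω := Nat.one_le_iff_ne_zero.2 hω0
  have hcΛ : Fintype.card (Fin r × Bool × Fin 3) = 6 * r := by
    rw [Fintype.card_prod, Fintype.card_prod, Fintype.card_fin, Fintype.card_bool,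
      Fintype.card_fin]
    ring
  have hbox := box hgcs (U := degreeLT K L) (T := degreeLT K D) (Λ := Fin r × Bool × Fin 3)
    (fun l => mh (Hk h' h'' j₀ l) (Hk_deg H l)) (mh (h'' j₀) hDL) (fun u => f u.1)
    (fun u => hfabs _) (B := (2 * M2 + 4 + M1) ^ ω / q ^ T) ?_
  · rw [hcΛ, hcU', hexp] at hbox
    refine hbox.trans (le_of_eq ?_)
    ring
  -- the main estimate
  have hterm : ∀ (t : Fin r × Bool × Fin 3 → degreeLT K D) (t₀ : degreeLT K D)
      (u : degreeLT K L),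
      (∏ A : Finset (Fin r × Bool × Fin 3), f ((u + ∑ l ∈ A, mh (Hk h' h'' j₀ l) (Hk_deg H l) (t l) :
        degreeLT K L) : K[X])) *
      ∏ A : Finset (Fin r × Bool × Fin 3), f ((u + mh (h'' j₀) hDL t₀ +
        ∑ l ∈ A, mh (Hk h' h'' j₀ l) (Hk_deg H l) (t l) : degreeLT K L) : K[X]) =
        ∏ P ∈ Finset.univ.biUnion Is, phiW E b (fun j => h' j * h'' j) Z g cl
          (fun l => Hk h' h'' j₀ l * (t l : K[X])) (h'' j₀ * (t₀ : K[X])) P (rp P (E * u)) := by
    intro t t₀ u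
    have h0 := F_eq E b (fun j => h' j * h'' j) Z g cl hIs 1
      (fun l => Hk h' h'' j₀ l * (t l : K[X])) (h'' j₀ * (t₀ : K[X])) (u : K[X]) f0 (fun u => rfl)
    rw [AddChar.one_apply, one_pow, one_mul] at h0
    rw [← h0]
    have h1 := c8 (fun l => (t l : K[X])) (t₀ : K[X]) (u : K[X])
    have e1 : ∏ A : Finset (Fin r × Bool × Fin 3), f ((u + ∑ l ∈ A,
        mh (Hk h' h'' j₀ l) (Hk_deg H l) (t l) : degreeLT K L) : K[X]) =
        (∏ A : Finset (Fin r × Bool × Fin 3), e (u + ∑ l ∈ A, Hk h' h'' j₀ l * (t l : K[X]))) *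
        ∏ A : Finset (Fin r × Bool × Fin 3), f0 (u + ∑ l ∈ A, Hk h' h'' j₀ l * (t l : K[X])) := by
      rw [← Finset.prod_mul_distrib]
      refine Finset.prod_congr rfl fun A _ => ?_
      rw [← hff]
      congr 1
      rw [Submodule.coe_add, Submodule.coe_sum]
      rfl
    have e2 : ∏ A : Finset (Fin r × Bool × Fin 3), f ((u + mh (h'' j₀) hDL t₀ +
        ∑ l ∈ A, mh (Hk h' h'' j₀ l) (Hk_deg H l) (t l) : degreeLT K L) : K[X]) =
        (∏ A : Finset (Fin r × Bool × Fin 3),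
          e (u + h'' j₀ * (t₀ : K[X]) + ∑ l ∈ A, Hk h' h'' j₀ l * (t l : K[X]))) *
        ∏ A : Finset (Fin r × Bool × Fin 3),
          f0 (u + h'' j₀ * (t₀ : K[X]) + ∑ l ∈ A, Hk h' h'' j₀ l * (t l : K[X])) := by
      rw [← Finset.prod_mul_distrib]
      refine Finset.prod_congr rfl fun A _ => ?_
      rw [← hff]
      congr 1
      rw [Submodule.coe_add, Submodule.coe_add, Submodule.coe_sum]
      rfl
    rw [e1, e2, mul_mul_mul_comm, h1, one_mul]
  set p : (Fin r × Bool × Fin 3 → degreeLT K D) → Prop := fun t => 6 * r * T ≤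
    ∑ P ∈ Il with (∃ l, ∃ z ∈ BB E Z (Hk h' h'' j₀) l t P, P ∣ (t l : K[X]) - z),
      P.natDegree with hp
  set p₀ : degreeLT K D → Prop := fun t₀ => T ≤ ∑ P ∈ Il with P ∣ (t₀ : K[X]), P.natDegree
    with hp₀
  have hsplit := split_sum p p₀ (fun t t₀ => |∑ u : degreeLT K L,
      (∏ A : Finset (Fin r × Bool × Fin 3), f ((u + ∑ l ∈ A, mh (Hk h' h'' j₀ l) (Hk_deg H l) (t l) :
        degreeLT K L) : K[X])) *
      ∏ A : Finset (Fin r × Bool × Fin 3), f ((u + mh (h'' j₀) hDL t₀ +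
        ∑ l ∈ A, mh (Hk h' h'' j₀ l) (Hk_deg H l) (t l) : degreeLT K L) : K[X])|)
    (A := q ^ L) (z := M1 ^ (Finset.univ.biUnion Is).card *
      q ^ ((h'' j₀).natDegree + (6 * r * T + T))) (by positivity) (by positivity) ?_ ?_
  · refine hsplit.trans ?_
    have hcΛT : (Fintype.card (Fin r × Bool × Fin 3 → degreeLT K D) : ℝ) = q ^ (D * (6 * r)) := by
      rw [Fintype.card_fun, hcΛ, Nat.cast_pow, hcD', ← pow_mul]
    rw [hcΛT, hcD', hcΛ, hcU']
    have hx : ((Finset.univ.filter p).card : ℝ) ≤ M2 ^ (PA (h'' j₀)).ncard * q ^ (D * (6 * r)) *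
        (1 / q ^ T + 1 / q ^ D) := by
      have h1 := hbad K (Fin r × Bool × Fin 3) D T (h'' j₀) (fun l t P => BB E Z (Hk h' h'' j₀) l t P)
        (le_of_eq hcΛ) (c1 j₀).2.1 ((c1 j₀).2.2.1.squarefree_of_dvd (Dvd.intro_left _ rfl))
        (fun l t P => by
          have := BB_card E Z (Hk h' h'' j₀) l t P
          rwa [hcΛ] at this)
        (fun l t t' h P => BB_indep E Z (Hk h' h'' j₀) l t t' h P)
      rw [hcΛ] at h1
      have h2 : {t : Fin r × Bool × Fin 3 → degreeLT K D | 6 * r * T ≤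
          ∑ᶠ P ∈ PA (h'' j₀) ∩ {P | ∃ l, ∃ z ∈ BB E Z (Hk h' h'' j₀) l t P,
            P ∣ (t l : K[X]) - z}, P.natDegree} = ↑(Finset.univ.filter p) := by
        ext t
        rw [Finset.coe_filter, Set.mem_ofPred_eq, Set.mem_ofPred_eq]
        have h3 : PA (h'' j₀) ∩ {P | ∃ l, ∃ z ∈ BB E Z (Hk h' h'' j₀) l t P,
            P ∣ (t l : K[X]) - z} = ↑(Il.filter (fun P => ∃ l, ∃ z ∈ BB E Z (Hk h' h'' j₀) l t P,
            P ∣ (t l : K[X]) - z)) := by
          rw [Finset.coe_filter, hPAl]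
          rfl
        rw [h3, finsum_mem_coe_finset]
        simp only [Finset.mem_univ, true_and]
        rfl
      rw [h2, Set.ncard_coe_finset] at h1
      exact h1
    have hy : ((Finset.univ.filter p₀).card : ℝ) ≤ 2 ^ (PA (h'' j₀)).ncard *
        (q ^ D / q ^ T + 1) := by
      have h1 := hcnt K D T 1 (h'' j₀) le_rfl (c1 j₀).2.1
        ((c1 j₀).2.2.1.squarefree_of_dvd (Dvd.intro_left _ rfl)) (fun _ => {0})
        (fun P _ => by simp)
      have h2 : ((Finset.univ.filter p₀).card : ℝ) ≤ ({y : K[X] | y.degree < (D : WithBot ℕ) ∧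
          T ≤ ∑ᶠ P ∈ PA (h'' j₀) ∩ {P | ∃ z ∈ ({0} : Finset K[X]), P ∣ y - z},
            P.natDegree}.ncard : ℝ) := by
        have h4 : (Finset.univ.filter p₀).card =
            (((Finset.univ.filter p₀).image (fun t : degreeLT K D => (t : K[X])) :
              Finset K[X]) : Set K[X]).ncard := by
          rw [Set.ncard_coe_finset, Finset.card_image_of_injective _ Subtype.val_injective]
        rw [h4]
        have hfinD : {y : K[X] | y.degree < (D : WithBot ℕ)}.Finite := by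
          rw [set_eq]
          exact Set.toFinite _
        have hsub : (((Finset.univ.filter p₀).image (fun t : degreeLT K D => (t : K[X])) :
            Finset K[X]) : Set K[X]) ⊆ {y : K[X] | y.degree < (D : WithBot ℕ) ∧
            T ≤ ∑ᶠ P ∈ PA (h'' j₀) ∩ {P | ∃ z ∈ ({0} : Finset K[X]), P ∣ y - z},
            P.natDegree} := by
          intro y hy
          rw [Finset.mem_coe, Finset.mem_image] at hy
          obtain ⟨t₀, ht₀, rfl⟩ := hy
          rw [Finset.mem_filter] at ht₀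
          refine ⟨mem_degreeLT.1 t₀.2, ?_⟩
          have h3 : PA (h'' j₀) ∩ {P | ∃ z ∈ ({0} : Finset K[X]), P ∣ (t₀ : K[X]) - z} =
              ↑(Il.filter (fun P => P ∣ (t₀ : K[X]))) := by
            rw [Finset.coe_filter, hPAl]
            ext P
            simp
          rw [h3, finsum_mem_coe_finset]
          exact ht₀.2
        have h5 := Set.ncard_le_ncard hsub (hfinD.subset fun y hy => hy.1)
        exact_mod_cast h5
      refine h2.trans (h1.trans (le_of_eq ?_))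
      rw [Nat.cast_one, mul_one]
    have h6 := numer (q := q) (M1 := M1) (M2 := M2) (M := 2 * M2 + 4 + M1) (D := D) (L := L)
      (T := T) (n := 6 * r * T + T) (d := (h'' j₀).natDegree) (ω := ω) (a := 6 * r)
      (b'' := (Finset.univ.biUnion Is).card) (a1 := (PA (h'' j₀)).ncard)
      (a2 := (PA (h'' j₀)).ncard) hq1 hM1' hM2 rfl hω1
      (by rw [hPAl, Set.ncard_coe_finset]; exact hIlω)
      (by rw [hPAl, Set.ncard_coe_finset]; exact hIlω) hIω (by omega)
      (by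
        have : (6 * r + 3) * T = 6 * r * T + 3 * T := by ring
        omega) (by omega) hx hy le_rfl
    refine h6.trans (le_of_eq ?_)
    rw [← pow_mul, mul_add, mul_one]
  · intro t t₀
    refine htriv _ fun u => ?_
    rw [abs_mul, Finset.abs_prod, Finset.abs_prod]
    exact mul_le_one₀ (Finset.prod_le_one (fun _ _ => abs_nonneg _) fun A _ => hfabs _)
      (Finset.prod_nonneg fun _ _ => abs_nonneg _)
      (Finset.prod_le_one (fun _ _ => abs_nonneg _) fun A _ => hfabs _)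
  · intro t t₀ ht ht₀
    rw [Finset.sum_congr rfl fun u _ => hterm t t₀ u]
    have h1 := fixed hlock hlocf hfin H g hIs hIl hIlp t t₀
    rw [fsum_eq] at h1
    refine h1.trans ?_
    have h2 : X1 ^ ((Finset.univ.biUnion Is) \ Il).card * X2 ^ Il.card ≤
        M1 ^ (Finset.univ.biUnion Is).card := by
      have h3 : ((Finset.univ.biUnion Is) \ Il).card + Il.card = (Finset.univ.biUnion Is).card :=
        Finset.card_sdiff_add_card_eq_card hIlI
      rw [← h3, hM1, pow_add]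
      have h4 : X1 ≤ X1 * X2 := le_mul_of_one_le_right (by linarith) hX2'
      have h5 : X2 ≤ X1 * X2 := le_mul_of_one_le_left (by linarith) hX1'
      gcongr
    have h3 : q ^ ((h'' j₀).natDegree +
          (∑ P ∈ Il with (∃ l, ∃ z ∈ BB E Z (Hk h' h'' j₀) l t P, P ∣ (t l : K[X]) - z),
            P.natDegree + ∑ P ∈ Il with P ∣ (t₀ : K[X]), P.natDegree)) ≤
        q ^ ((h'' j₀).natDegree + (6 * r * T + T)) := by
      apply pow_le_pow_right₀ hq1
      rw [hp] at ht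
      rw [hp₀] at ht₀
      simp only [not_le] at ht ht₀
      omega
    exact mul_le_mul h2 h3 (by positivity) (by positivity)

end Pool.Agent.H604.LD
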