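import Pool.Agent.H604.LD.Stm
import Pool.Agent.H604.FC.Asm4
import Pool.Agent.H985.KP.Loc2
import Pool.Agent.H985.Chow.RT
import Pool.Agent.H985.Chow.Win

/-!
# Task TYPC (helper662): cancellation for a typical `m`
-/

set_option autoImplicit false
set_option linter.unusedSectionVars false
set_option linter.unusedVariables false

/-!
# Task TYPC, part 1: completion of the sum over the hyperbola with real additive characters
-/


namespace Pool.Agent.H604.LD.TypcAux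

open Polynomial
open Pool.Agent.H985.Chow (mob lc)
open Pool.Agent.H985.Chow.RT (lc_add lc_dvd lc_of_deg lc_zero)
open Pool.Agent.H985.KP (sg PA mobg)
open Pool.Agent.H985.KP.Loc2 (sg_pm sg_abs sg_mul_self sg_zero sg_add exists_sg_neg)
open Pool.Agent.H985.Chow.Asm (instFD card_deg mem_of_natDegree_lt natDegree_lt_of_mem coprime_of_ne)

section inv
variable {K : Type} [Field K]

open Classical in
/-- an inverse of `y` modulo `P` -/
noncomputable def J (P y : K[X]) : K[X] :=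
  if h : ∃ s, P ∣ (y %ₘ P) * s - 1 then h.choose else 0

theorem J_congr {P : K[X]} (hP : P.Monic) (y u : K[X]) : J P (y + P * u) = J P y := by
  unfold J
  have e : (y + P * u) %ₘ P = y %ₘ P := by
    rw [Polynomial.add_modByMonic, (Polynomial.modByMonic_eq_zero_iff_dvd hP).2 (dvd_mul_right P u), add_zero]
  rw [e]

theorem dvd_sub_mod {P : K[X]} (hP : P.Monic) (y : K[X]) : P ∣ y - y %ₘ P := by
  refine ⟨y /ₘ P, ?_⟩
  have := Polynomial.modByMonic_add_div y P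
  linear_combination -this

theorem J_spec {P y : K[X]} (hP : P.Monic) (hPi : Irreducible P) (hy : ¬ P ∣ y) :
    P ∣ y * J P y - 1 := by
  have h1 : ∃ s, P ∣ (y %ₘ P) * s - 1 := by
    have hc : IsCoprime P y := (hPi.coprime_iff_not_dvd).2 hy
    obtain ⟨a, b, hab⟩ := hc
    refine ⟨b, ?_⟩
    obtain ⟨c, hc⟩ := dvd_sub_mod hP y
    refine ⟨-(a + c * b), ?_⟩
    linear_combination hab - b * hc
  have h2 : P ∣ (y %ₘ P) * J P y - 1 := by
    unfold J
    rw [dif_pos h1]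
    exact h1.choose_spec
  obtain ⟨c, hc⟩ := dvd_sub_mod hP y
  obtain ⟨d, hd⟩ := h2
  exact ⟨c * J P y + d, by linear_combination (J P y) * hc + hd⟩

end inv

section sums
variable {K : Type} [Field K] [Fintype K] [CharP K 2]

theorem lc_mod {P : K[X]} (hP : P.Monic) (a y : K[X]) : lc P (a * y) = lc P (a * (y %ₘ P)) := by
  obtain ⟨c, hc⟩ := dvd_sub_mod hP y
  have e : a * y = a * (y %ₘ P) + P * (a * c) := by linear_combination a * hc
  rw [e, lc_add, lc_dvd hP _ (dvd_mul_right P _), add_zero]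

/-- nondegeneracy of the pairing -/
theorem exists_neg {P : K[X]} (hP : P.Monic) {y : K[X]} (hy : ¬ P ∣ y) :
    ∃ a : degreeLT K P.natDegree, sg (lc P ((a : K[X]) * y)) = -1 := by
  set r := y %ₘ P with hr
  have hr0 : r ≠ 0 := fun h => hy ((Polynomial.modByMonic_eq_zero_iff_dvd hP).1 h)
  have hP1 : P ≠ 1 := fun h => hy (h ▸ one_dvd _)
  have hrd : r.natDegree < P.natDegree := Polynomial.natDegree_modByMonic_lt y hP hP1
  obtain ⟨x, hx⟩ := exists_sg_neg (F := K)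
  have hlc : r.leadingCoeff ≠ 0 := leadingCoeff_ne_zero.2 hr0
  set a : K[X] := C (x / r.leadingCoeff) * X ^ (P.natDegree - 1 - r.natDegree) with ha
  have hadeg : a.natDegree ≤ P.natDegree - 1 - r.natDegree := natDegree_C_mul_X_pow_le _ _
  have hmem : a ∈ degreeLT K P.natDegree := mem_of_natDegree_lt (Or.inr (by omega))
  refine ⟨⟨a, hmem⟩, ?_⟩
  show sg (lc P (a * y)) = -1
  rw [lc_mod hP, ← hr, lc_of_deg hP]
  · have e : (a * r).coeff (P.natDegree - 1) = x := by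
      rw [ha, mul_assoc, coeff_C_mul, mul_comm (X ^ _) r,
        show P.natDegree - 1 = r.natDegree + (P.natDegree - 1 - r.natDegree) by omega]
      rw [show r.natDegree + (P.natDegree - 1 - r.natDegree) - r.natDegree = P.natDegree - 1 - r.natDegree by omega]
      rw [coeff_mul_X_pow]
      show x / r.leadingCoeff * r.leadingCoeff = x
      field_simp
    rw [e, hx]
  · have := natDegree_mul_le (p := a) (q := r)
    omega

/-- the sum of a real character over a finite group is `0` or the order -/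
theorem sum_char {G : Type} [AddCommGroup G] [Fintype G] (f : G → ℝ) (hf : ∀ a b, f (a + b) = f a * f b)
    (h : ∃ a, f a = -1) : ∑ a, f a = 0 := by
  obtain ⟨a₁, h1⟩ := h
  have e : ∑ a, f a = ∑ a, f (a + a₁) := (Equiv.sum_comp (Equiv.addRight a₁) f).symm
  have e2 : ∑ a, f (a + a₁) = - ∑ a, f a := by
    rw [← Finset.sum_neg_distrib]
    refine Finset.sum_congr rfl fun a _ => ?_
    rw [hf, h1]; ring
  linarith

theorem sum_char_nonneg {G : Type} [AddCommGroup G] [Fintype G] (f : G → ℝ)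
    (hf : ∀ a b, f (a + b) = f a * f b) (hp : ∀ a, f a = 1 ∨ f a = -1) : 0 ≤ ∑ a, f a := by
  by_cases h : ∃ a, f a = -1
  · rw [sum_char f hf h]
  · push Not at h
    refine Finset.sum_nonneg fun a _ => ?_
    rcases hp a with h1 | h1
    · rw [h1]; norm_num
    · exact absurd h1 (h a)

theorem sum_sg_lc {P : K[X]} (hP : P.Monic) (y : K[X]) [Decidable (P ∣ y)] :
    ∑ a : degreeLT K P.natDegree, sg (lc P ((a : K[X]) * y)) =
      if P ∣ y then (Fintype.card K : ℝ) ^ P.natDegree else 0 := by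
  split_ifs with h
  · have e : ∀ a : degreeLT K P.natDegree, sg (lc P ((a : K[X]) * y)) = 1 := by
      intro a
      rw [lc_dvd hP _ (h.mul_left _), sg_zero]
    rw [Finset.sum_congr rfl fun a _ => e a, Finset.sum_const, Finset.card_univ, card_deg, nsmul_eq_mul, mul_one]
    push_cast
    rfl
  · apply sum_char
    · intro a b
      rw [Submodule.coe_add, add_mul, lc_add, sg_add]
    · exact exists_neg hP h

/-- local expansion -/
theorem local_exp {P : K[X]} (hP : P.Monic) (hPi : Irreducible P) (ρ t w : K[X]) (ht : ¬ P ∣ ρ * t)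
    [Decidable (P ∣ t * w - 1)] :
    (if P ∣ t * w - 1 then (1 : ℝ) else 0) = ((Fintype.card K : ℝ) ^ P.natDegree)⁻¹ *
      ∑ a : degreeLT K P.natDegree, sg (lc P ((a : K[X]) * w)) * sg (lc P ((a : K[X]) * (ρ * J P (ρ * t)))) := by
  classical
  have hJ := J_spec hP hPi ht
  have hq : ((Fintype.card K : ℝ) ^ P.natDegree) ≠ 0 := by
    have : (0 : ℝ) < Fintype.card K := by exact_mod_cast Fintype.card_pos
    positivity
  have hiff : P ∣ w + ρ * J P (ρ * t) ↔ P ∣ t * w - 1 := by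
    have h2 : (2 : K[X]) = 0 := CharTwo.two_eq_zero
    obtain ⟨c, hc⟩ := hJ
    constructor
    · rintro ⟨d, hd⟩
      refine ⟨t * d - c, ?_⟩
      linear_combination t * hd - hc - h2
    · rintro ⟨d, hd⟩
      refine ⟨-(c * w) + ρ * J P (ρ * t) * d, ?_⟩
      linear_combination (-w) * hc + (ρ * J P (ρ * t)) * hd + (ρ * J P (ρ * t)) * h2
  have e : ∀ a : degreeLT K P.natDegree, sg (lc P ((a : K[X]) * w)) *
      sg (lc P ((a : K[X]) * (ρ * J P (ρ * t)))) = sg (lc P ((a : K[X]) * (w + ρ * J P (ρ * t)))) := by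
    intro a
    rw [mul_add, lc_add, sg_add]
  rw [Finset.sum_congr rfl fun a _ => e a, sum_sg_lc hP]
  by_cases h : P ∣ t * w - 1
  · rw [if_pos h, if_pos (hiff.2 h), inv_mul_cancel₀ hq]
  · rw [if_neg h, if_neg (fun h' => h (hiff.1 h')), mul_zero]

/-! ### The expansion for all the primes -/

variable (I : Finset K[X])

theorem prod_sum_gen {ι : Type} [Fintype ι] [DecidableEq ι] {δ : ι → Type} [∀ i, Fintype (δ i)]
    (F : (i : ι) → δ i → ℝ) : ∏ i, ∑ a, F i a = ∑ g : (i : ι) → δ i, ∏ i, F i (g i) := by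
  rw [Finset.prod_univ_sum, Fintype.piFinset_univ]

/-- the factor `∏ |P|⁻¹` -/
noncomputable def cI : ℝ := ∏ P : I, ((Fintype.card K : ℝ) ^ P.1.natDegree)⁻¹

theorem cI_nonneg : 0 ≤ cI I := Finset.prod_nonneg fun _ _ => by positivity

/-- tuples of local frequencies -/
abbrev Fr (I : Finset K[X]) : Type := (P : I) → degreeLT K P.1.natDegree

/-- the character of the second variable -/
noncomputable def Ψ (g : Fr I) (w : K[X]) : ℝ := ∏ P : I, sg (lc P.1 ((g P : K[X]) * w))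

open Classical in
/-- the local signs -/
noncomputable def eps (ρ : K[X]) (g : Fr I) (P y : K[X]) : ℝ :=
  if h : P ∈ I then sg (lc P ((g ⟨P, h⟩ : K[X]) * (ρ * J P y))) else 1

theorem eps_pm (ρ : K[X]) (g : Fr I) (P y : K[X]) : eps I ρ g P y = 1 ∨ eps I ρ g P y = -1 := by
  unfold eps
  split_ifs
  · exact sg_pm _
  · exact Or.inl rfl

theorem eps_congr (hI : ∀ P ∈ I, P.Monic ∧ Irreducible P) (ρ : K[X]) (g : Fr I) (P y u : K[X]) :
    eps I ρ g P (y + P * u) = eps I ρ g P y := by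
  unfold eps
  split_ifs with h
  · rw [J_congr (hI P h).1]
  · rfl

theorem Ψ_pm (g : Fr I) (w : K[X]) : Ψ I g w = 1 ∨ Ψ I g w = -1 := by
  classical
  unfold Ψ
  induction (Finset.univ : Finset I) using Finset.induction_on with
  | empty => left; simp
  | insert a s ha ih =>
    rw [Finset.prod_insert ha]
    rcases sg_pm (lc a.1 ((g a : K[X]) * w)) with h | h <;> rcases ih with h' | h' <;> rw [h, h'] <;> norm_num

theorem Ψ_add (g : Fr I) (w w' : K[X]) : Ψ I g (w + w') = Ψ I g w * Ψ I g w' := by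
  unfold Ψ
  rw [← Finset.prod_mul_distrib]
  refine Finset.prod_congr rfl fun P _ => ?_
  rw [mul_add, lc_add, sg_add]

open Classical in
theorem expand (hI : ∀ P ∈ I, P.Monic ∧ Irreducible P) (ρ t w : K[X]) (ht : ∀ P ∈ I, ¬ P ∣ ρ * t) :
    (if ∀ P ∈ I, P ∣ t * w - 1 then (1 : ℝ) else 0) =
      cI I * ∑ g : Fr I, Ψ I g w * ∏ P ∈ I, eps I ρ g P (ρ * t) := by
  have e1 : (if ∀ P ∈ I, P ∣ t * w - 1 then (1 : ℝ) else 0) =
      ∏ P : I, (if P.1 ∣ t * w - 1 then (1 : ℝ) else 0) := by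
    rw [Finset.prod_boole]
    congr 1
    simp
  have e2 : ∀ P : I, (if P.1 ∣ t * w - 1 then (1 : ℝ) else 0) = ((Fintype.card K : ℝ) ^ P.1.natDegree)⁻¹ *
      ∑ a : degreeLT K P.1.natDegree, sg (lc P.1 ((a : K[X]) * w)) *
        sg (lc P.1 ((a : K[X]) * (ρ * J P.1 (ρ * t)))) := by
    intro P
    exact local_exp (hI P.1 P.2).1 (hI P.1 P.2).2 ρ t w (ht P.1 P.2)
  rw [e1, Finset.prod_congr rfl fun P _ => e2 P, Finset.prod_mul_distrib]
  have e3 := prod_sum_gen (δ := fun P : I => degreeLT K P.1.natDegree) (fun P a =>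
    sg (lc P.1 ((a : K[X]) * w)) * sg (lc P.1 ((a : K[X]) * (ρ * J P.1 (ρ * t)))))
  rw [e3]
  unfold cI
  congr 1
  refine Finset.sum_congr rfl fun g _ => ?_
  rw [Finset.prod_mul_distrib]
  unfold Ψ
  congr 1
  rw [← Finset.prod_coe_sort I]
  refine Finset.prod_congr rfl fun P _ => ?_
  unfold eps
  rw [dif_pos P.2]

open Classical in
theorem sum_Ψ (hI : ∀ P ∈ I, P.Monic ∧ Irreducible P) (w : K[X]) :
    cI I * ∑ g : Fr I, Ψ I g w = if ∀ P ∈ I, P ∣ w then (1 : ℝ) else 0 := by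
  have e1 : (if ∀ P ∈ I, P ∣ w then (1 : ℝ) else 0) =
      ∏ P : I, (if P.1 ∣ w then (1 : ℝ) else 0) := by
    rw [Finset.prod_boole]
    congr 1
    simp
  have e2 : ∀ P : I, (if P.1 ∣ w then (1 : ℝ) else 0) = ((Fintype.card K : ℝ) ^ P.1.natDegree)⁻¹ *
      ∑ a : degreeLT K P.1.natDegree, sg (lc P.1 ((a : K[X]) * w)) := by
    intro P
    have hq : ((Fintype.card K : ℝ) ^ P.1.natDegree) ≠ 0 := by
      have : (0 : ℝ) < Fintype.card K := by exact_mod_cast Fintype.card_pos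
      positivity
    rw [sum_sg_lc (hI P.1 P.2).1]
    split_ifs
    · rw [inv_mul_cancel₀ hq]
    · rw [mul_zero]
  have e3 := prod_sum_gen (δ := fun P : I => degreeLT K P.1.natDegree) (fun P a =>
    sg (lc P.1 ((a : K[X]) * w)))
  rw [e1, Finset.prod_congr rfl fun P _ => e2 P, Finset.prod_mul_distrib, e3]
  rfl

/-- the Fourier coefficients -/
noncomputable def cg (Q w₀ : K[X]) (L₂ : ℕ) (g : Fr I) : ℝ :=
  cI I * ∑ v : degreeLT K L₂, Ψ I g (w₀ + Q * (v : K[X]))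

open Classical in
theorem sum_abs_cg (hI : ∀ P ∈ I, P.Monic ∧ Irreducible P) (Q w₀ : K[X]) (hQ : ∀ P ∈ I, ¬ P ∣ Q) (L₂ : ℕ) :
    ∑ g : Fr I, |cg I Q w₀ L₂ g| =
      ((Finset.univ.filter fun v : degreeLT K L₂ => ∀ P ∈ I, P ∣ (v : K[X])).card : ℝ) := by
  have e1 : ∀ g : Fr I, |cg I Q w₀ L₂ g| = ∑ v : degreeLT K L₂, cI I * Ψ I g (Q * (v : K[X])) := by
    intro g
    unfold cg
    rw [abs_mul, abs_of_nonneg (cI_nonneg I), ← Finset.mul_sum]
    congr 1
    rw [Finset.sum_congr rfl fun (v : degreeLT K L₂) _ => Ψ_add I g w₀ (Q * (v : K[X])), ← Finset.mul_sum,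
      abs_mul]
    have h1 : |Ψ I g w₀| = 1 := by
      rcases Ψ_pm I g w₀ with h | h <;> rw [h] <;> simp
    rw [h1, one_mul, abs_of_nonneg]
    apply sum_char_nonneg (fun v : degreeLT K L₂ => Ψ I g (Q * (v : K[X])))
    · intro a b
      rw [Submodule.coe_add, mul_add, Ψ_add]
    · intro a
      exact Ψ_pm I g _
  rw [Finset.sum_congr rfl fun g _ => e1 g, Finset.sum_comm]
  have e2 : ∀ v : degreeLT K L₂, ∑ g : Fr I, cI I * Ψ I g (Q * (v : K[X])) =
      if ∀ P ∈ I, P ∣ (v : K[X]) then 1 else 0 := by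
    intro v
    rw [← Finset.mul_sum, sum_Ψ I hI]
    congr 1
    apply propext
    constructor
    · intro h P hP
      exact ((hI P hP).2.prime.dvd_or_dvd (h P hP)).resolve_left (hQ P hP)
    · intro h P hP
      exact (h P hP).mul_left _
  rw [Finset.sum_congr rfl fun v _ => e2 v, Finset.sum_boole]

theorem cop_I (hI : ∀ P ∈ I, P.Monic ∧ Irreducible P) :
    ∀ P ∈ I, ∀ P' ∈ I, P ≠ P' → IsCoprime P P' := fun P hP P' hP' hne =>
  coprime_of_ne (hI P hP) (hI P' hP') hne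

theorem prod_dvd_iff (hI : ∀ P ∈ I, P.Monic ∧ Irreducible P) (y : K[X]) :
    ∏ P ∈ I, P ∣ y ↔ ∀ P ∈ I, P ∣ y := by
  constructor
  · intro h P hP
    exact (Finset.dvd_prod_of_mem (fun P => P) hP).trans h
  · intro h
    apply Finset.prod_dvd_of_coprime
    · intro P hP P' hP' hne
      exact cop_I I hI P hP P' hP' hne
    · exact h

open Classical in
theorem card_mult (hI : ∀ P ∈ I, P.Monic ∧ Irreducible P) (L₂ : ℕ) :
    (Finset.univ.filter fun v : degreeLT K L₂ => ∀ P ∈ I, P ∣ (v : K[X])).card ≤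
      Fintype.card K ^ (L₂ - (∏ P ∈ I, P).natDegree) := by
  set h := ∏ P ∈ I, P with hh
  have hm : h.Monic := monic_prod_of_monic _ _ fun P hP => (hI P hP).1
  rw [← card_deg, ← Finset.card_univ]
  have hmem : ∀ v : degreeLT K L₂, (∀ P ∈ I, P ∣ (v : K[X])) →
      (v : K[X]) /ₘ h ∈ degreeLT K (L₂ - h.natDegree) ∧ h * ((v : K[X]) /ₘ h) = v := by
    intro v hv
    have h1 : h ∣ (v : K[X]) := (prod_dvd_iff I hI _).2 hv
    obtain ⟨c, hc⟩ := h1
    have h2 : (v : K[X]) /ₘ h = c := by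
      rw [hc]
      exact mul_divByMonic_cancel_left c hm
    rw [h2]
    refine ⟨mem_of_natDegree_lt ?_, hc.symm⟩
    by_cases hc0 : c = 0
    · exact Or.inl hc0
    · right
      have h3 : (v : K[X]) ≠ 0 := by
        rw [hc]
        exact mul_ne_zero hm.ne_zero hc0
      have h4 := natDegree_lt_of_mem v.2 h3
      rw [hc, hm.natDegree_mul' hc0] at h4
      omega
  refine Finset.card_le_card_of_injOn
    (fun v => if hv : ∀ P ∈ I, P ∣ (v : K[X]) then ⟨(v : K[X]) /ₘ h, (hmem v hv).1⟩ else 0)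
    (fun _ _ => Finset.mem_coe.2 (Finset.mem_univ _)) ?_
  intro v hv v' hv' hvv
  rw [Finset.mem_coe, Finset.mem_filter] at hv hv'
  have hvv' := hvv
  simp only [dif_pos hv.2, dif_pos hv'.2, Subtype.mk.injEq] at hvv'
  apply Subtype.ext
  rw [← (hmem v hv.2).2, ← (hmem v' hv'.2).2, hvv']

open Classical in
/-- **Completion of the sum over the hyperbola.** -/
theorem fourier_main (hI : ∀ P ∈ I, P.Monic ∧ Irreducible P) (h Q ρ : K[X]) (hh : h = ∏ P ∈ I, P)
    (hQ : ∀ P ∈ I, ¬ P ∣ Q) (L L₂ : ℕ) (t₀ w₀ : K[X]) (G : K[X] → K[X] → ℝ)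
    (hG0 : ∀ P ∈ I, ∀ y, P ∣ y → G P y = 0) (B : ℝ)
    (hB : ∀ ε : K[X] → K[X] → ℝ, (∀ P w, ε P w = 1 ∨ ε P w = -1) →
      (∀ P w u, ε P (w + P * u) = ε P w) →
      |∑ u : degreeLT K L, ∏ P ∈ I, (G P (ρ * (t₀ + Q * (u : K[X]))) *
        ε P (ρ * (t₀ + Q * (u : K[X]))))| ≤ B) :
    |∑ u : degreeLT K L, ∑ v : degreeLT K L₂,
      (if h ∣ (t₀ + Q * (u : K[X])) * (w₀ + Q * (v : K[X])) - 1 then
        ∏ P ∈ I, G P (ρ * (t₀ + Q * (u : K[X]))) else 0)| ≤
      (Fintype.card K : ℝ) ^ (L₂ - h.natDegree) * B := by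
  have hB0 : 0 ≤ B := (abs_nonneg _).trans
    (hB (fun _ _ => 1) (fun _ _ => Or.inl rfl) (fun _ _ _ => rfl))
  -- the sum over `v`
  have e1 : ∀ u : degreeLT K L, ∑ v : degreeLT K L₂,
      (if h ∣ (t₀ + Q * (u : K[X])) * (w₀ + Q * (v : K[X])) - 1 then
        ∏ P ∈ I, G P (ρ * (t₀ + Q * (u : K[X]))) else 0) =
      ∑ g : Fr I, cg I Q w₀ L₂ g * ∏ P ∈ I, (G P (ρ * (t₀ + Q * (u : K[X]))) *
        eps I ρ g P (ρ * (t₀ + Q * (u : K[X])))) := by
    intro u
    set t := t₀ + Q * (u : K[X]) with ht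
    by_cases hz : ∃ P ∈ I, P ∣ ρ * t
    · obtain ⟨P, hP, hPt⟩ := hz
      have h0 : ∏ P ∈ I, G P (ρ * t) = 0 := Finset.prod_eq_zero hP (hG0 P hP _ hPt)
      rw [h0]
      have h1 : ∀ g : Fr I, cg I Q w₀ L₂ g * ∏ P ∈ I, (G P (ρ * t) * eps I ρ g P (ρ * t)) = 0 := by
        intro g
        rw [Finset.prod_mul_distrib, h0, zero_mul, mul_zero]
      rw [Finset.sum_congr rfl fun g _ => h1 g]
      simp
    · push Not at hz
      have h1 : ∀ v : degreeLT K L₂, (if h ∣ t * (w₀ + Q * (v : K[X])) - 1 then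
          ∏ P ∈ I, G P (ρ * t) else 0) = (∏ P ∈ I, G P (ρ * t)) *
          (cI I * ∑ g : Fr I, Ψ I g (w₀ + Q * (v : K[X])) * ∏ P ∈ I, eps I ρ g P (ρ * t)) := by
        intro v
        rw [← expand I hI ρ t _ hz, hh, mul_ite, mul_one, mul_zero]
        congr 1
        exact propext (prod_dvd_iff I hI _)
      rw [Finset.sum_congr rfl fun v _ => h1 v, ← Finset.mul_sum, ← Finset.mul_sum, Finset.sum_comm,
        Finset.mul_sum, Finset.mul_sum]
      refine Finset.sum_congr rfl fun g _ => ?_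
      unfold cg
      rw [Finset.prod_mul_distrib, ← Finset.sum_mul]
      ring
  rw [Finset.sum_congr rfl fun u _ => e1 u, Finset.sum_comm]
  calc |∑ g : Fr I, ∑ u : degreeLT K L, cg I Q w₀ L₂ g * ∏ P ∈ I,
        (G P (ρ * (t₀ + Q * (u : K[X]))) * eps I ρ g P (ρ * (t₀ + Q * (u : K[X]))))|
      ≤ ∑ g : Fr I, |∑ u : degreeLT K L, cg I Q w₀ L₂ g * ∏ P ∈ I,
        (G P (ρ * (t₀ + Q * (u : K[X]))) * eps I ρ g P (ρ * (t₀ + Q * (u : K[X]))))| :=
        Finset.abs_sum_le_sum_abs _ _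
    _ ≤ ∑ g : Fr I, |cg I Q w₀ L₂ g| * B := by
        refine Finset.sum_le_sum fun g _ => ?_
        rw [← Finset.mul_sum, abs_mul]
        exact mul_le_mul_of_nonneg_left (hB _ (eps_pm I ρ g) (eps_congr I hI ρ g)) (abs_nonneg _)
    _ = ((Finset.univ.filter fun v : degreeLT K L₂ => ∀ P ∈ I, P ∣ (v : K[X])).card : ℝ) * B := by
        rw [← Finset.sum_mul, sum_abs_cg I hI Q w₀ hQ]
    _ ≤ (Fintype.card K : ℝ) ^ (L₂ - h.natDegree) * B := by
        apply mul_le_mul_of_nonneg_right _ hB0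
        rw [hh]
        exact_mod_cast card_mult I hI L₂

end sums

end Pool.Agent.H604.LD.TypcAux

/-!
# Task TYPC, part 2: decomposition into classes
-/


namespace Pool.Agent.H604.LD.TypcAux

open Polynomial
open Pool.Agent.H985.Chow (mob lc)
open Pool.Agent.H985.KP (sg PA mobg)
open Pool.Agent.H694.Typ (Mn PU mem_PU)
open Pool.Agent.H985.Chow.Asm (instFD card_deg mem_of_natDegree_lt natDegree_lt_of_mem coprime_of_ne mem_deg)

section congr
variable {K : Type} [Field K]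

theorem fA_congr (o : Bool) {t t' m m' D : K[X]} (h1 : D ∣ t - t') (h2 : D ∣ m - m') :
    D ∣ fA o t m - fA o t' m' := by
  obtain ⟨a, ha⟩ := h1
  obtain ⟨b, hb⟩ := h2
  unfold fA
  cases o
  · refine ⟨b * (m + m') + X * (a * (t + t')), ?_⟩
    simp only [Bool.false_eq_true, if_false]
    linear_combination (m + m') * hb + X * (t + t') * ha
  · refine ⟨a * (t + t') + X * (b * (m + m')), ?_⟩
    simp only [if_true]
    linear_combination X * (m + m') * hb + (t + t') * ha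

theorem fAB_congr (o : Bool) {m e h E t w t' w' : K[X]} (hm : m = e * h) (hm0 : m ≠ 0) (hc : IsCoprime E h)
    (h1 : m ∣ t * w - 1) (h2 : m ∣ t' * w' - 1) (h3 : e * E ∣ t - t') (h4 : e * E ∣ w - w') :
    E ∣ fAB o t m w - fAB o t' m w' := by
  obtain ⟨x, hx⟩ := h1
  obtain ⟨x', hx'⟩ := h2
  have he0 : e ≠ 0 := by rintro rfl; rw [zero_mul] at hm; exact hm0 hm
  have hxx : E ∣ x - x' := by
    obtain ⟨a, ha⟩ := h3
    obtain ⟨b, hb⟩ := h4
    apply hc.dvd_of_dvd_mul_left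
    refine ⟨a * w + t' * b, ?_⟩
    apply mul_left_cancel₀ he0
    rw [hm] at hx hx'
    linear_combination hx' - hx + w * ha + t' * hb
  have hEt : E ∣ t - t' := (dvd_mul_left E e).trans h3
  have hEw : E ∣ w - w' := (dvd_mul_left E e).trans h4
  have h5 : E ∣ fA o t m - fA o t' m := fA_congr o hEt (by rw [sub_self]; exact dvd_zero _)
  have h6 : E ∣ fA o x w - fA o x' w' := fA_congr o hxx hEw
  unfold fAB
  rw [hx, hx', mul_div_cancel_left₀ _ hm0, mul_div_cancel_left₀ _ hm0]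
  obtain ⟨a, ha⟩ := h5
  obtain ⟨b, hb⟩ := h6
  exact ⟨a * fA o x w + fA o t' m * b, by linear_combination (fA o x w) * ha + (fA o t' m) * hb⟩

end congr

section fin
variable {K : Type} [Field K] [Fintype K]

theorem Fam_finite (o : Bool) (σ σ' : ℕ) (m : K[X]) : (Fam K o σ σ' m).Finite := by
  have h1 : (Set.range (fun p : degreeLT K (σ + o.toNat) × degreeLT K (σ' + 1) =>
      ((p.1 : K[X]), (p.2 : K[X])))).Finite := Set.finite_range _
  refine h1.subset ?_
  rintro ⟨t, w⟩ ⟨h2, h3, h4, h5⟩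
  exact ⟨(⟨t, mem_degreeLT.2 h2⟩, ⟨w, mem_of_natDegree_lt (Or.inr (by simp only at h4; omega))⟩), rfl⟩

/-- the class of a pair -/
noncomputable def cls (Q : K[X]) (τ : ℕ) (p : K[X] × K[X]) : K[X] × K[X] × K :=
  (p.1 %ₘ Q, p.2 %ₘ Q, p.1.coeff τ)

open Classical in
theorem card_cls (Q : K[X]) (hQ : Q.Monic) (τ : ℕ) (S : Finset (K[X] × K[X])) :
    (S.image (cls Q τ)).card ≤ Fintype.card K ^ (2 * Q.natDegree + 1) := by
  have hmem : ∀ y : K[X], y %ₘ Q ∈ degreeLT K Q.natDegree := by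
    intro y
    rw [mem_degreeLT, ← degree_eq_natDegree hQ.ne_zero]
    exact degree_modByMonic_lt y hQ
  have h1 : S.image (cls Q τ) ⊆ (Finset.univ : Finset (degreeLT K Q.natDegree × degreeLT K Q.natDegree × K)).image
      (fun x => ((x.1 : K[X]), (x.2.1 : K[X]), x.2.2)) := by
    intro c hc
    rw [Finset.mem_image] at hc ⊢
    obtain ⟨p, -, rfl⟩ := hc
    exact ⟨(⟨p.1 %ₘ Q, hmem _⟩, ⟨p.2 %ₘ Q, hmem _⟩, p.1.coeff τ), Finset.mem_univ _, rfl⟩
  refine (Finset.card_le_card h1).trans (Finset.card_image_le.trans (le_of_eq ?_))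
  rw [Finset.card_univ, Fintype.card_prod, Fintype.card_prod, card_deg]
  ring

open Classical in
theorem cls_sum (Q : K[X]) (hQ : Q.Monic) (τ : ℕ) (S : Finset (K[X] × K[X])) (f : K[X] × K[X] → ℝ)
    (Bd : ℝ) (hBd : 0 ≤ Bd)
    (h : ∀ p₀ ∈ S, |∑ p ∈ S.filter (fun p => cls Q τ p = cls Q τ p₀), f p| ≤ Bd) :
    |∑ p ∈ S, f p| ≤ (Fintype.card K : ℝ) ^ (2 * Q.natDegree + 1) * Bd := by
  rw [← Finset.sum_fiberwise_of_maps_to (t := S.image (cls Q τ)) (g := cls Q τ)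
    (fun p hp => Finset.mem_image_of_mem _ hp)]
  refine (Finset.abs_sum_le_sum_abs _ _).trans ?_
  calc ∑ c ∈ S.image (cls Q τ), |∑ p ∈ S.filter (fun p => cls Q τ p = c), f p|
      ≤ ∑ c ∈ S.image (cls Q τ), Bd := by
        refine Finset.sum_le_sum fun c hc => ?_
        obtain ⟨p₀, hp₀, rfl⟩ := Finset.mem_image.1 hc
        exact h p₀ hp₀
    _ = ((S.image (cls Q τ)).card : ℝ) * Bd := by rw [Finset.sum_const, nsmul_eq_mul]
    _ ≤ (Fintype.card K : ℝ) ^ (2 * Q.natDegree + 1) * Bd := by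
        apply mul_le_mul_of_nonneg_right _ hBd
        exact_mod_cast card_cls Q hQ τ S

theorem mul_mem_deg {Q : K[X]} (hQ : Q.Monic) {n : ℕ} (hn : Q.natDegree ≤ n) {u : K[X]} :
    Q * u ∈ degreeLT K n ↔ u ∈ degreeLT K (n - Q.natDegree) := by
  by_cases hu : u = 0
  · subst hu
    rw [mul_zero]
    exact ⟨fun _ => zero_mem _, fun _ => zero_mem _⟩
  · have h1 : Q * u ≠ 0 := mul_ne_zero hQ.ne_zero hu
    constructor
    · intro h
      have h2 := natDegree_lt_of_mem h h1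
      rw [hQ.natDegree_mul' hu] at h2
      exact mem_of_natDegree_lt (Or.inr (by omega))
    · intro h
      have h2 := natDegree_lt_of_mem h hu
      refine mem_of_natDegree_lt (Or.inr ?_)
      rw [hQ.natDegree_mul' hu]
      omega

theorem mod_eq_iff {Q : K[X]} (hQ : Q.Monic) {x y : K[X]} : x %ₘ Q = y %ₘ Q ↔ Q ∣ x - y := by
  rw [← Polynomial.modByMonic_eq_zero_iff_dvd hQ, Polynomial.sub_modByMonic, sub_eq_zero]

open Classical in
/-- a fibre of the class map is a product of two windows with the condition at `h` -/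
theorem fibre_sum (o : Bool) (σ σ' τ : ℕ) (m e h E Q : K[X]) (T : Finset K[X]) (hm : m = e * h)
    (hm0 : m ≠ 0) (hEh : IsCoprime E h) (heh : IsCoprime e h) (hQ : Q.Monic) (heQ : e * E ∣ Q)
    (hτ : τ + 1 = σ + o.toNat) (hQτ : Q.natDegree ≤ τ) (hQσ : Q.natDegree ≤ σ')
    (hT : ∀ P ∈ T, P ∣ E) (S : Finset (K[X] × K[X]))
    (hS : ∀ p, p ∈ S ↔ p ∈ Fam K o σ σ' m ∧ ∀ P ∈ T, P ∣ fAB o p.1 m p.2) (f : K[X] × K[X] → ℝ)
    (p₀ : K[X] × K[X]) (hp₀ : p₀ ∈ S) :
    ∑ p ∈ S.filter (fun p => cls Q τ p = cls Q τ p₀), f p =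
      ∑ u : degreeLT K (τ - Q.natDegree), ∑ v : degreeLT K (σ' - Q.natDegree),
        (if h ∣ (p₀.1 + Q * (u : K[X])) * (p₀.2 + Q * (v : K[X])) - 1 then
          f (p₀.1 + Q * (u : K[X]), p₀.2 + Q * (v : K[X])) else 0) := by
  obtain ⟨hF, hcond⟩ := (hS p₀).1 hp₀
  obtain ⟨hd0, hw0, hw0d, hdv0⟩ := hF
  have hQ0 := hQ.ne_zero
  have he : e ∣ Q := (dvd_mul_right e E).trans heQ
  set g : degreeLT K (τ - Q.natDegree) × degreeLT K (σ' - Q.natDegree) → K[X] × K[X] :=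
    fun x => (p₀.1 + Q * (x.1 : K[X]), p₀.2 + Q * (x.2 : K[X])) with hg
  have hginj : Function.Injective g := by
    intro x y hxy
    rw [hg] at hxy
    simp only [Prod.mk.injEq] at hxy
    have h1 := mul_left_cancel₀ hQ0 (add_left_cancel hxy.1)
    have h2 := mul_left_cancel₀ hQ0 (add_left_cancel hxy.2)
    exact Prod.ext (Subtype.ext h1) (Subtype.ext h2)
  have hset : S.filter (fun p => cls Q τ p = cls Q τ p₀) =
      ((Finset.univ : Finset (degreeLT K (τ - Q.natDegree) × degreeLT K (σ' - Q.natDegree))).filter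
        (fun x => h ∣ (g x).1 * (g x).2 - 1)).image g := by
    ext p
    rw [Finset.mem_filter, Finset.mem_image]
    constructor
    · rintro ⟨hp, hcl⟩
      obtain ⟨hF, -⟩ := (hS p).1 hp
      obtain ⟨hd, hw, hwd, hdv⟩ := hF
      unfold cls at hcl
      simp only [Prod.mk.injEq] at hcl
      obtain ⟨hc1, hc2, hc3⟩ := hcl
      obtain ⟨u, hu⟩ := (mod_eq_iff hQ).1 hc1
      obtain ⟨v, hv⟩ := (mod_eq_iff hQ).1 hc2
      have hum : Q * u ∈ degreeLT K τ := by
        rw [← hu, mem_deg]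
        intro i hi
        rw [coeff_sub]
        rcases hi.eq_or_lt with h1 | h1
        · rw [← h1, hc3, sub_self]
        · have hi' : ((σ + o.toNat : ℕ) : WithBot ℕ) ≤ (i : WithBot ℕ) := by
            exact_mod_cast (by omega : σ + o.toNat ≤ i)
          rw [coeff_eq_zero_of_degree_lt (lt_of_lt_of_le hd hi'),
            coeff_eq_zero_of_degree_lt (lt_of_lt_of_le hd0 hi'), sub_self]
      have hvm : Q * v ∈ degreeLT K σ' := by
        rw [← hv, mem_deg]
        intro i hi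
        rw [coeff_sub]
        rcases hi.eq_or_lt with h1 | h1
        · have e1 : p.2.coeff i = 1 := by
            rw [← h1, ← hwd]; exact hw.coeff_natDegree
          have e2 : p₀.2.coeff i = 1 := by
            rw [← h1, ← hw0d]; exact hw0.coeff_natDegree
          rw [e1, e2, sub_self]
        · rw [coeff_eq_zero_of_natDegree_lt (by omega), coeff_eq_zero_of_natDegree_lt (by omega), sub_self]
      have hpe : g (⟨u, (mul_mem_deg hQ hQτ).1 hum⟩, ⟨v, (mul_mem_deg hQ hQσ).1 hvm⟩) = p := by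
        rw [hg]
        simp only
        rw [← hu, ← hv]
        exact Prod.ext (by ring) (by ring)
      refine ⟨(⟨u, (mul_mem_deg hQ hQτ).1 hum⟩, ⟨v, (mul_mem_deg hQ hQσ).1 hvm⟩), ?_, hpe⟩
      rw [Finset.mem_filter]
      refine ⟨Finset.mem_univ _, ?_⟩
      rw [hpe]
      rw [hm] at hdv
      exact (dvd_mul_left h e).trans hdv
    · rintro ⟨x, hx, rfl⟩
      rw [Finset.mem_filter] at hx
      have hx2 := hx.2
      have hu := (mul_mem_deg hQ hQτ).2 x.1.2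
      have hv := (mul_mem_deg hQ hQσ).2 x.2.2
      have hd1 : (g x).1.degree < ((σ + o.toNat : ℕ) : WithBot ℕ) := by
        have h1 : p₀.1 ∈ degreeLT K (σ + o.toNat) := mem_degreeLT.2 hd0
        have h2 : Q * (x.1 : K[X]) ∈ degreeLT K (σ + o.toNat) := by
          rw [mem_degreeLT] at hu ⊢
          exact lt_of_lt_of_le hu (by exact_mod_cast (by omega : τ ≤ σ + o.toNat))
        exact mem_degreeLT.1 (add_mem h1 h2)
      have hdw : (Q * (x.2 : K[X])).degree < p₀.2.degree := by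
        rw [degree_eq_natDegree hw0.ne_zero, hw0d]
        exact mem_degreeLT.1 hv
      have hmw : (g x).2.Monic := hw0.add_of_left hdw
      have hmd : (g x).2.natDegree = σ' := by
        show (p₀.2 + Q * (x.2 : K[X])).natDegree = σ'
        rw [natDegree_add_eq_left_of_degree_lt hdw, hw0d]
      have hdv : m ∣ (g x).1 * (g x).2 - 1 := by
        rw [hm]
        apply heh.mul_dvd _ hx2
        obtain ⟨c, hc⟩ := he
        have h1 : e ∣ p₀.1 * p₀.2 - 1 := by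
          rw [hm] at hdv0
          exact (dvd_mul_right e h).trans hdv0
        obtain ⟨d, hd⟩ := h1
        refine ⟨d + c * ((x.1 : K[X]) * p₀.2 + p₀.1 * (x.2 : K[X]) + Q * (x.1 : K[X]) * (x.2 : K[X])), ?_⟩
        show (p₀.1 + Q * (x.1 : K[X])) * (p₀.2 + Q * (x.2 : K[X])) - 1 = _
        linear_combination hd + ((x.1 : K[X]) * p₀.2 + p₀.1 * (x.2 : K[X]) + Q * (x.1 : K[X]) * (x.2 : K[X])) * hc
      refine ⟨(hS _).2 ⟨⟨hd1, hmw, hmd, hdv⟩, ?_⟩, ?_⟩
      · intro P hP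
        have h1 : E ∣ fAB o (g x).1 m (g x).2 - fAB o p₀.1 m p₀.2 := by
          apply fAB_congr o hm hm0 hEh hdv hdv0
          · refine heQ.trans ⟨(x.1 : K[X]), ?_⟩
            show p₀.1 + Q * (x.1 : K[X]) - p₀.1 = _
            ring
          · refine heQ.trans ⟨(x.2 : K[X]), ?_⟩
            show p₀.2 + Q * (x.2 : K[X]) - p₀.2 = _
            ring
        have h2 := (hT P hP).trans h1
        exact (dvd_sub_left (hcond P hP)).1 h2
      · unfold cls
        have h1 : (g x).1 %ₘ Q = p₀.1 %ₘ Q := by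
          rw [mod_eq_iff hQ]
          exact ⟨(x.1 : K[X]), by show p₀.1 + Q * (x.1 : K[X]) - p₀.1 = _; ring⟩
        have h2 : (g x).2 %ₘ Q = p₀.2 %ₘ Q := by
          rw [mod_eq_iff hQ]
          exact ⟨(x.2 : K[X]), by show p₀.2 + Q * (x.2 : K[X]) - p₀.2 = _; ring⟩
        have h3 : (g x).1.coeff τ = p₀.1.coeff τ := by
          show (p₀.1 + Q * (x.1 : K[X])).coeff τ = _
          rw [coeff_add, (mem_deg.1 hu) τ le_rfl, add_zero]
        rw [h1, h2, h3]
  rw [hset, Finset.sum_image (fun x _ y _ hxy => hginj hxy), Finset.sum_filter, Fintype.sum_prod_type]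

end fin

end Pool.Agent.H604.LD.TypcAux

/-!
# Task TYPC, part 3: the sieve weights
-/


namespace Pool.Agent.H604.LD.TypcAux

open Polynomial
open Pool.Agent.H985.Chow (mob lc)
open Pool.Agent.H985.KP (sg PA mobg)
open Pool.Agent.H694.Typ (Mn PU mem_PU)
open Pool.Agent.H985.Chow.Asm (instFD card_deg mem_of_natDegree_lt natDegree_lt_of_mem coprime_of_ne mem_deg)

variable {K : Type} [Field K] [Fintype K]

theorem mem_Pz {z : ℕ} {P : K[X]} : P ∈ Pz K z ↔ P ≠ X ∧ P.Monic ∧ Irreducible P ∧ P.natDegree ≤ z := by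
  classical
  unfold Pz
  rw [Finset.mem_erase, mem_PU]

open Classical in
theorem bw_expand (z : ℕ) (U : Finset K[X] → ℝ) (f : K[X]) :
    bw z U f = ∑ T ∈ (Pz K z).powerset, (if ∀ P ∈ T, P ∣ f then U T else 0) := by
  unfold bw
  rw [← Finset.sum_filter]
  congr 1
  · ext T
    rw [Finset.mem_powerset, Finset.mem_filter, Finset.mem_powerset]
    constructor
    · intro h
      exact ⟨fun P hP => (Finset.mem_filter.1 (h hP)).1, fun P hP => (Finset.mem_filter.1 (h hP)).2⟩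
    · rintro ⟨h1, h2⟩ P hP
      exact Finset.mem_filter.2 ⟨h1 hP, h2 P hP⟩

theorem prod_ne {z : ℕ} {T : Finset K[X]} (hT : T ⊆ Pz K z) : (∏ P ∈ T, P).Monic :=
  monic_prod_of_monic _ _ fun P hP => (mem_Pz.1 (hT hP)).2.1

theorem prod_deg {z : ℕ} {T : Finset K[X]} (hT : T ⊆ Pz K z) :
    (∏ P ∈ T, P).natDegree = ∑ P ∈ T, P.natDegree :=
  natDegree_prod_of_monic _ _ fun P hP => (mem_Pz.1 (hT hP)).2.1

theorem mem_of_dvd_prod {z : ℕ} {T : Finset K[X]} (hT : T ⊆ Pz K z) {P : K[X]} (hP : P ∈ Pz K z)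
    (h : P ∣ ∏ P ∈ T, P) : P ∈ T := by
  obtain ⟨P', hP', hd⟩ := (mem_Pz.1 hP).2.2.1.prime.exists_mem_finset_dvd h
  by_contra hn
  have hne : P ≠ P' := fun h1 => hn (h1 ▸ hP')
  have h1 := mem_Pz.1 hP
  have h2 := mem_Pz.1 (hT hP')
  have hc := coprime_of_ne ⟨h1.2.1, h1.2.2.1⟩ ⟨h2.2.1, h2.2.2.1⟩ hne
  exact h1.2.2.1.not_isUnit (hc.isUnit_of_dvd' dvd_rfl hd)

open Classical in
theorem card_T (z n : ℕ) (U : Finset K[X] → ℝ)
    (hU : ∀ T, U T ≠ 0 → T ⊆ Pz K z ∧ ∑ P ∈ T, P.natDegree ≤ n) :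
    ((Pz K z).powerset.filter (fun T => U T ≠ 0)).card ≤ Fintype.card K ^ (n + 1) := by
  rw [← card_deg, ← Finset.card_univ]
  refine Finset.card_le_card_of_injOn
    (fun T => if h : (∏ P ∈ T, P) ∈ degreeLT K (n + 1) then ⟨∏ P ∈ T, P, h⟩ else 0)
    (fun _ _ => Finset.mem_coe.2 (Finset.mem_univ _)) ?_
  have hmem : ∀ T, T ∈ (Pz K z).powerset.filter (fun T => U T ≠ 0) →
      (∏ P ∈ T, P) ∈ degreeLT K (n + 1) := by
    intro T hT
    rw [Finset.mem_filter] at hT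
    have h1 := hU T hT.2
    refine mem_of_natDegree_lt (Or.inr ?_)
    rw [prod_deg h1.1]
    omega
  intro T hT T' hT' hTT
  rw [Finset.mem_coe] at hT hT'
  simp only [dif_pos (hmem T hT), dif_pos (hmem T' hT'), Subtype.mk.injEq] at hTT
  rw [Finset.mem_filter] at hT hT'
  have h1 := hU T hT.2
  have h2 := hU T' hT'.2
  ext P
  constructor
  · intro hP
    apply mem_of_dvd_prod h2.1 (h1.1 hP)
    rw [← hTT]
    exact Finset.dvd_prod_of_mem (fun P => P) hP
  · intro hP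
    apply mem_of_dvd_prod h1.1 (h2.1 hP)
    rw [hTT]
    exact Finset.dvd_prod_of_mem (fun P => P) hP

open Classical in
/-- reduction to a single `T` -/
theorem sieve_sum (z n : ℕ) (U : Finset K[X] → ℝ) (hU1 : ∀ T, |U T| ≤ 1)
    (hU : ∀ T, U T ≠ 0 → T ⊆ Pz K z ∧ ∑ P ∈ T, P.natDegree ≤ n)
    (F : Finset (K[X] × K[X])) (f : K[X] × K[X] → ℝ) (a : K[X] × K[X] → K[X]) (Bd : ℝ) (hBd : 0 ≤ Bd)
    (h : ∀ T : Finset K[X], T ⊆ Pz K z → ∑ P ∈ T, P.natDegree ≤ n →
      |∑ p ∈ F.filter (fun p => ∀ P ∈ T, P ∣ a p), f p| ≤ Bd) :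
    |∑ p ∈ F, f p * bw z U (a p)| ≤ (Fintype.card K : ℝ) ^ (n + 1) * Bd := by
  have e1 : ∑ p ∈ F, f p * bw z U (a p) = ∑ T ∈ (Pz K z).powerset,
      U T * ∑ p ∈ F.filter (fun p => ∀ P ∈ T, P ∣ a p), f p := by
    have e2 : ∀ p ∈ F, f p * bw z U (a p) = ∑ T ∈ (Pz K z).powerset,
        (if ∀ P ∈ T, P ∣ a p then U T * f p else 0) := by
      intro p _
      rw [bw_expand, Finset.mul_sum]
      refine Finset.sum_congr rfl fun T _ => ?_
      split_ifs
      · ring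
      · ring
    rw [Finset.sum_congr rfl e2, Finset.sum_comm]
    refine Finset.sum_congr rfl fun T _ => ?_
    rw [Finset.mul_sum, Finset.sum_filter]
  have e3 : ∑ T ∈ (Pz K z).powerset, U T * ∑ p ∈ F.filter (fun p => ∀ P ∈ T, P ∣ a p), f p =
      ∑ T ∈ (Pz K z).powerset.filter (fun T => U T ≠ 0),
        U T * ∑ p ∈ F.filter (fun p => ∀ P ∈ T, P ∣ a p), f p := by
    rw [Finset.sum_filter]
    refine Finset.sum_congr rfl fun T _ => ?_
    split_ifs with h0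
    · rfl
    · rw [not_not] at h0
      rw [h0, zero_mul]
  rw [e1, e3]
  refine (Finset.abs_sum_le_sum_abs _ _).trans ?_
  calc ∑ T ∈ (Pz K z).powerset.filter (fun T => U T ≠ 0),
        |U T * ∑ p ∈ F.filter (fun p => ∀ P ∈ T, P ∣ a p), f p|
      ≤ ∑ T ∈ (Pz K z).powerset.filter (fun T => U T ≠ 0), Bd := by
        refine Finset.sum_le_sum fun T hT => ?_
        rw [Finset.mem_filter] at hT
        have h1 := hU T hT.2
        rw [abs_mul]
        calc |U T| * |∑ p ∈ F.filter (fun p => ∀ P ∈ T, P ∣ a p), f p| ≤ 1 * Bd :=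
              mul_le_mul (hU1 T) (h T h1.1 h1.2) (abs_nonneg _) zero_le_one
          _ = Bd := one_mul _
    _ = (((Pz K z).powerset.filter (fun T => U T ≠ 0)).card : ℝ) * Bd := by
        rw [Finset.sum_const, nsmul_eq_mul]
    _ ≤ (Fintype.card K : ℝ) ^ (n + 1) * Bd := by
        apply mul_le_mul_of_nonneg_right _ hBd
        exact_mod_cast card_T z n U hU

end Pool.Agent.H604.LD.TypcAux

/-!
# Task TYPC, part 4: the bound for a class
-/


namespace Pool.Agent.H604.LD.TypcAux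

open Polynomial
open Pool.Agent.H985.Chow (mob lc)
open Pool.Agent.H985.KP (sg PA mobg)
open Pool.Agent.H985.FC (GP S_winF gl)
open Pool.Agent.H985.Chow.Asm (instFD card_deg mem_of_natDegree_lt natDegree_lt_of_mem coprime_of_ne mem_deg
  window_finsum)

section mob
variable {K : Type} [Field K]

theorem mob_mul_cop {F G : K[X]} (h : IsCoprime F G) : mob (F * G) = mob F * mob G := by
  classical
  have mob_eq : ∀ F : K[X], mob F = if Squarefree F then
    (-1) ^ Multiset.card (UniqueFactorizationMonoid.factors F) else 0 := fun _ => rfl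
  by_cases hF : Squarefree F
  · by_cases hG : Squarefree G
    · have hFG : Squarefree (F * G) := squarefree_mul_iff.2 ⟨h.isRelPrime, hF, hG⟩
      rw [mob_eq, mob_eq, mob_eq, if_pos hF, if_pos hG, if_pos hFG, ← pow_add]
      congr 1
      rw [Multiset.card_eq_card_of_rel (UniqueFactorizationMonoid.factors_mul hF.ne_zero hG.ne_zero),
        Multiset.card_add]
    · rw [mob_eq G, if_neg hG, mob_eq, if_neg, mul_zero]
      exact fun h' => hG (squarefree_mul_iff.1 h').2.2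
  · rw [mob_eq F, if_neg hF, mob_eq, if_neg, zero_mul]
    exact fun h' => hF (squarefree_mul_iff.1 h').2.1

theorem mob_X : mob (X : K[X]) = -1 := by
  unfold mob
  rw [if_pos irreducible_X.squarefree]
  rw [UniqueFactorizationMonoid.card_factors_of_irreducible irreducible_X, pow_one]

theorem mob_X_mul {f : K[X]} (h : ¬ X ∣ f) : mob (X * f) = - mob f := by
  rw [mob_mul_cop ((irreducible_X.coprime_iff_not_dvd).2 h), mob_X]
  ring

/-- the factor `1` or `X` -/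
noncomputable def rho (K : Type) [Field K] (o : Bool) : K[X] := if o then 1 else X

/-- the sign -/
def kap (o : Bool) : ℤ := if o then 1 else -1

open Classical in
/-- the square divisor -/
noncomputable def gg (o : Bool) (m : K[X]) : K[X] := if o then 1 else if X ∣ m then X else 1

theorem mobg_one (f : K[X]) : mobg 1 f = mob f := by
  unfold mobg
  rw [if_pos (by rw [one_pow]; exact one_dvd _), one_pow, EuclideanDomain.div_one]

theorem mob_fA (o : Bool) (t m : K[X]) (h : X ∣ m → ¬ X ∣ t) :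
    mob (fA o t m) = kap o * mobg (gg o m) ((rho K o * t) ^ 2 + X * m ^ 2) := by
  unfold fA kap gg rho
  cases o
  · simp only [Bool.false_eq_true, if_false]
    have e : (X * t) ^ 2 + X * m ^ 2 = X * (m ^ 2 + X * t ^ 2) := by ring
    by_cases hm : X ∣ m
    · rw [if_pos hm]
      obtain ⟨m', hm'⟩ := hm
      have ht := h (Dvd.intro _ hm'.symm)
      have e1 : m ^ 2 + X * t ^ 2 = X * (t ^ 2 + X * m' ^ 2) := by rw [hm']; ring
      have e2 : (X * t) ^ 2 + X * m ^ 2 = X ^ 2 * (t ^ 2 + X * m' ^ 2) := by rw [hm']; ring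
      have hnd : ¬ X ∣ t ^ 2 + X * m' ^ 2 := by
        intro hd
        have h2 : X ∣ t ^ 2 := (dvd_add_left (Dvd.intro _ rfl)).1 hd
        exact ht (prime_X.dvd_of_dvd_pow h2)
      have hX2 : (X : K[X]) ^ 2 ≠ 0 := pow_ne_zero _ X_ne_zero
      unfold mobg
      rw [e1, e2, mob_X_mul hnd, if_pos (Dvd.intro _ rfl), mul_div_cancel_left₀ _ hX2]
      ring
    · rw [if_neg hm, mobg_one, e, mob_X_mul]
      · ring
      · intro hd
        have h2 : X ∣ m ^ 2 := (dvd_add_left (Dvd.intro _ rfl)).1 hd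
        exact hm (prime_X.dvd_of_dvd_pow h2)
  · simp only [if_true]
    rw [mobg_one, one_mul, one_mul]

theorem GP_zero {b g P y : K[X]} (hP : Irreducible P) (hy : P ∣ y) : GP b g P y = 0 := by
  unfold GP
  rw [dif_pos hP]
  unfold gl
  rw [if_pos (AdjoinRoot.mk_eq_zero.2 hy)]

end mob

/-- the body of `S_win6` -/
def W6 (M : ℝ) : Prop :=
  ∀ (K : Type) [Field K] [Fintype K] [CharP K 2] (L D T : ℕ) (E b h' h'' Z g : K[X])
    (ε : K[X] → K[X] → ℝ),
    h'.Monic → h''.Monic → Squarefree (h' * h'') → IsCoprime E (h' * h'') →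
    h'.natDegree + D ≤ L → h''.natDegree + D ≤ L →
    (∀ P ∈ PA (h' * h''), ¬ P ∣ derivative b) →
    (∀ P w, ε P w = 1 ∨ ε P w = -1) → (∀ P w u, ε P (w + P * u) = ε P w) →
    L ≤ 2 * h''.natDegree → 9 * T ≤ D →
    |∑ᶠ u ∈ {u : K[X] | u.degree < (L : WithBot ℕ)},
        ∏ᶠ P ∈ PA (h' * h''), (GP b g P (Z + E * u) * ε P (Z + E * u))| ^ (2 ^ 7) ≤
      M ^ (PA (h' * h'')).ncard * (Fintype.card K : ℝ) ^ (L * 2 ^ 7) / (Fintype.card K : ℝ) ^ T

theorem root_bound {q x y : ℝ} (hq : 0 < q) (hx : 0 ≤ x) (hy : 0 ≤ y) (L : ℕ)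
    (h : x ^ (2 ^ 7) ≤ y * q ^ (L * 2 ^ 7)) : x ≤ q ^ L * y ^ ((1 : ℝ) / 128) := by
  have h1 : (q ^ L * y ^ ((1 : ℝ) / 128)) ^ (2 ^ 7) = y * q ^ (L * 2 ^ 7) := by
    rw [mul_pow, ← pow_mul, ← Real.rpow_natCast (y ^ ((1 : ℝ) / 128)), ← Real.rpow_mul hy]
    norm_num
    ring
  rw [← h1] at h
  exact (pow_le_pow_iff_left₀ hx (by positivity) (by norm_num)).1 h

open Classical in
theorem class_bd {M : ℝ} (hM1 : 1 ≤ M) (h6 : W6 M) (hF : S_winF) {K : Type} [Field K] [Fintype K]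
    [CharP K 2] (o : Bool) (σ σ' τ D T : ℕ) (m e h₁ h₂ Q t₀ w₀ : K[X]) (hm : m = e * (h₁ * h₂))
    (he : e.Monic) (hh₁ : h₁.Monic) (hh₂ : h₂.Monic) (heh : IsCoprime e (h₁ * h₂))
    (hsq : Squarefree (h₁ * h₂)) (hmd : m.natDegree = σ) (hXh : IsCoprime X (h₁ * h₂)) (hQ : Q.Monic)
    (h5 : e ^ 5 ∣ Q) (hQh : IsCoprime Q (h₁ * h₂)) (hτ : τ + 1 = σ + o.toNat)
    (hL : Q.natDegree + 1 ≤ τ) (hD1 : h₁.natDegree + D ≤ τ - Q.natDegree)
    (hD2 : h₂.natDegree + D ≤ τ - Q.natDegree) (hL2 : τ - Q.natDegree ≤ 2 * h₂.natDegree) (h9 : 9 * T ≤ D)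
    (ht₀ : t₀.degree < ((σ + o.toNat : ℕ) : WithBot ℕ)) (hdv : m ∣ t₀ * w₀ - 1) :
    |∑ u : degreeLT K (τ - Q.natDegree), ∑ v : degreeLT K (σ' - Q.natDegree),
      (if h₁ * h₂ ∣ (t₀ + Q * (u : K[X])) * (w₀ + Q * (v : K[X])) - 1 then
        (mob (fA o (t₀ + Q * (u : K[X])) m) : ℝ) else 0)| ≤
      (Fintype.card K : ℝ) ^ ((σ' - Q.natDegree) - (h₁ * h₂).natDegree) *
        ((Fintype.card K : ℝ) ^ (τ - Q.natDegree) *
          (M ^ (PA (h₁ * h₂)).ncard / (Fintype.card K : ℝ) ^ T) ^ ((1 : ℝ) / 128)) := by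
  have hq0 : (0 : ℝ) < Fintype.card K := by exact_mod_cast Fintype.card_pos
  set h := h₁ * h₂ with hh
  have hhm : h.Monic := hh₁.mul hh₂
  obtain ⟨I, hI, hp⟩ := Pool.Agent.H985.Chow.Win.facs hhm hsq
  have hI' : ∀ P ∈ I, P.Monic ∧ Irreducible P := fun P hP => ⟨((hI P).1 hP).1, ((hI P).1 hP).2.1⟩
  have hPA : PA h = ↑I := by
    ext P
    rw [Finset.mem_coe, hI]
    rfl
  have hfp : ∀ f : K[X] → ℝ, ∏ᶠ P ∈ PA h, f P = ∏ P ∈ I, f P := by
    intro f
    rw [hPA]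
    exact finprod_mem_coe_finset _ _
  have hmm : m.Monic := by rw [hm]; exact he.mul hhm
  have hρ : (rho K o).Monic := by
    unfold rho; cases o
    · simp
    · simp
  have hρd : (rho K o).natDegree = 1 - o.toNat := by
    unfold rho; cases o
    · simp
    · simp
  have hρh : IsCoprime (rho K o) h := by
    unfold rho; cases o
    · simpa using hXh
    · simpa using isCoprime_one_left
  have hEh : IsCoprime (rho K o * Q) h := hρh.mul_left hQh
  have hE : (rho K o * Q).Monic := hρ.mul hQ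
  have hEd : (rho K o * Q).natDegree = 1 - o.toNat + Q.natDegree := by rw [hρ.natDegree_mul hQ, hρd]
  have heQ : e ∣ Q := (dvd_pow_self e (by norm_num)).trans h5
  -- `X ∣ m` implies `X ∣ e`
  have hXe : X ∣ m → X ∣ e := by
    intro hd
    rw [hm] at hd
    exact hXh.dvd_of_dvd_mul_right hd
  have hXt : ∀ u : K[X], X ∣ m → ¬ X ∣ t₀ + Q * u := by
    intro u hd hd2
    have h1 : X ∣ Q * u := ((hXe hd).trans heQ).mul_right u
    have h2 : X ∣ t₀ := (dvd_add_left h1).1 hd2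
    have h3 : X ∣ t₀ * w₀ - 1 := hd.trans hdv
    have h4 : (X : K[X]) ∣ 1 := by
      have := (dvd_sub_right (h2.mul_right w₀)).1 h3
      exact this
    exact irreducible_X.not_isUnit (isUnit_of_dvd_one h4)
  have hgm : (gg o m).Monic := by
    unfold gg
    split_ifs
    · exact monic_one
    · exact monic_X
    · exact monic_one
  have hge : gg o m ∣ e := by
    unfold gg
    split_ifs with h1 h2
    · exact one_dvd _
    · exact hXe h2
    · exact one_dvd _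
  have hC1 : (C (1 : K)) * (e * h) = m := by rw [C_1, one_mul, hm]
  -- the degree of `Z`
  have hZd : (rho K o * t₀).natDegree ≤ σ := by
    refine natDegree_mul_le.trans ?_
    rw [hρd]
    by_cases h0 : t₀ = 0
    · rw [h0, natDegree_zero]
      have : 1 ≤ σ := by
        have h1 : h₁.natDegree + D ≤ τ := hD1.trans (Nat.sub_le _ _)
        cases o
        · simp only [Bool.toNat_false] at hτ; omega
        · simp only [Bool.toNat_true] at hτ; omega
      omega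
    · rw [← natDegree_lt_iff_degree_lt h0] at ht₀
      cases o
      · simp only [Bool.toNat_false] at ht₀ ⊢; omega
      · simp only [Bool.toNat_true] at ht₀ ⊢; omega
  have hXm : (X * m ^ 2).Monic := monic_X.mul (hmm.pow 2)
  have hXmd : (X * m ^ 2).natDegree = 2 * σ + 1 := by
    rw [monic_X.natDegree_mul (hmm.pow 2), natDegree_X, hmm.natDegree_pow, hmd]
    ring
  have hlt : ((rho K o * t₀) ^ 2).degree < (X * m ^ 2).degree := by
    rw [degree_eq_natDegree hXm.ne_zero, hXmd]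
    refine lt_of_le_of_lt degree_le_natDegree ?_
    have h1 : ((rho K o * t₀) ^ 2).natDegree ≤ 2 * σ := by
      rw [natDegree_pow]
      omega
    exact_mod_cast (by omega : ((rho K o * t₀) ^ 2).natDegree < 2 * σ + 1)
  have hZm : ((rho K o * t₀) ^ 2 + X * (C (1 : K) * (e * h)) ^ 2).Monic := by
    rw [hC1]
    exact hXm.add_of_right hlt
  have hZn : ((rho K o * t₀) ^ 2 + X * (C (1 : K) * (e * h)) ^ 2).natDegree = 2 * σ + 1 := by
    rw [hC1, natDegree_add_eq_right_of_degree_lt hlt, hXmd]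
  have hL1 : 1 ≤ τ - Q.natDegree := by omega
  have hehd : (e * h).natDegree = σ := by rw [← hm, hmd]
  obtain ⟨η, hη1, hη2⟩ := hF K (2 * σ + 1) (τ - Q.natDegree) 1 (rho K o * t₀) e h (rho K o * Q) (gg o m)
    one_ne_zero he hhm heh hsq hgm hge hE.ne_zero (h5.mul_left _) hEh hL1 hZm hZn (by
      rw [hEd, hehd]
      cases o
      · simp only [Bool.toNat_false] at hτ ⊢; omega
      · simp only [Bool.toNat_true] at hτ ⊢; omega)
  have hterm : ∀ u : degreeLT K (τ - Q.natDegree), (mob (fA o (t₀ + Q * (u : K[X])) m) : ℝ) =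
      (kap o : ℝ) * η * ∏ P ∈ I, GP m (gg o m) P (rho K o * (t₀ + Q * (u : K[X]))) := by
    intro u
    have h1 := hη2 (u : K[X]) (mem_degreeLT.1 u.2)
    rw [hC1, hfp] at h1
    have e1 : rho K o * t₀ + rho K o * Q * (u : K[X]) = rho K o * (t₀ + Q * (u : K[X])) := by ring
    rw [e1] at h1
    rw [mob_fA o _ m (hXt _), Int.cast_mul, h1]
    ring
  have hκη : |(kap o : ℝ) * η| ≤ 1 := by
    rw [abs_mul]
    have : |(kap o : ℝ)| = 1 := by unfold kap; cases o <;> simp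
    rw [this, one_mul]
    exact hη1
  have e1 : ∑ u : degreeLT K (τ - Q.natDegree), ∑ v : degreeLT K (σ' - Q.natDegree),
      (if h ∣ (t₀ + Q * (u : K[X])) * (w₀ + Q * (v : K[X])) - 1 then
        (mob (fA o (t₀ + Q * (u : K[X])) m) : ℝ) else 0) = ((kap o : ℝ) * η) *
      ∑ u : degreeLT K (τ - Q.natDegree), ∑ v : degreeLT K (σ' - Q.natDegree),
      (if h ∣ (t₀ + Q * (u : K[X])) * (w₀ + Q * (v : K[X])) - 1 then
        ∏ P ∈ I, GP m (gg o m) P (rho K o * (t₀ + Q * (u : K[X]))) else 0) := by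
    rw [Finset.mul_sum]
    refine Finset.sum_congr rfl fun u _ => ?_
    rw [Finset.mul_sum]
    refine Finset.sum_congr rfl fun v _ => ?_
    rw [hterm u]
    split_ifs
    · rfl
    · rw [mul_zero]
  have hB := fourier_main I hI' h Q (rho K o) hp.symm (fun P hP hd =>
      (hI' P hP).2.not_isUnit (hQh.isUnit_of_dvd' hd ((hI P).1 hP).2.2))
    (τ - Q.natDegree) (σ' - Q.natDegree) t₀ w₀ (fun P y => GP m (gg o m) P y)
    (fun P hP y hy => GP_zero (hI' P hP).2 hy)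
    ((Fintype.card K : ℝ) ^ (τ - Q.natDegree) *
          (M ^ (PA h).ncard / (Fintype.card K : ℝ) ^ T) ^ ((1 : ℝ) / 128)) (by
      intro ε hε1 hε2
      apply root_bound hq0 (abs_nonneg _) (by positivity)
      have h7 := h6 K (τ - Q.natDegree) D T (rho K o * Q) m h₁ h₂ (rho K o * t₀) (gg o m) ε hh₁ hh₂ hsq hEh
        hD1 hD2 (by
          intro P hP hd
          have hPi : Irreducible P := hP.2.1
          have : Fact (Irreducible P) := ⟨hPi⟩
          have h8 := Pool.Agent.H985.Chow.Win.be_ne P (one_ne_zero (α := K)) heh hsq hP.2.2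
          rw [hC1] at h8
          exact h8 (AdjoinRoot.mk_eq_zero.2 hd)) hε1 hε2 hL2 h9
      rw [window_finsum] at h7
      rw [← hh] at h7
      have e2 : ∀ u : degreeLT K (τ - Q.natDegree),
          ∏ᶠ P ∈ PA h, (GP m (gg o m) P (rho K o * t₀ + rho K o * Q * (u : K[X])) *
            ε P (rho K o * t₀ + rho K o * Q * (u : K[X]))) =
          ∏ P ∈ I, (GP m (gg o m) P (rho K o * (t₀ + Q * (u : K[X]))) *
            ε P (rho K o * (t₀ + Q * (u : K[X])))) := by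
        intro u
        rw [hfp]
        have e3 : rho K o * t₀ + rho K o * Q * (u : K[X]) = rho K o * (t₀ + Q * (u : K[X])) := by ring
        rw [e3]
      rw [Finset.sum_congr rfl fun u _ => e2 u] at h7
      refine h7.trans (le_of_eq ?_)
      ring)
  rw [e1, abs_mul]
  refine le_trans ?_ hB
  calc |(kap o : ℝ) * η| * _ ≤ 1 * _ := mul_le_mul_of_nonneg_right hκη (abs_nonneg _)
    _ = _ := one_mul _

end Pool.Agent.H604.LD.TypcAux

/-!
# Task TYPC: cancellation for a typical `m`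
-/


namespace Pool.Agent.H604.LD.TypcAux

open Polynomial
open Pool.Agent.H985.Chow (mob lc)
open Pool.Agent.H985.KP (sg PA mobg Good2)
open Pool.Agent.H985.FC (GP S_winF gl)
open Pool.Agent.H985.Chow.Asm (instFD card_deg mem_of_natDegree_lt natDegree_lt_of_mem coprime_of_ne mem_deg
  window_finsum)

open Classical in
theorem split_sq {K : Type} [Field K] [Fintype K] [CharP K 2] {h : K[X]} (hm : h.Monic) (hs : Squarefree h)
    (B : K[X]) : ∃ g h' : K[X], g.Monic ∧ h'.Monic ∧ h = g * h' ∧ g ∣ B ∧ IsCoprime h' B := by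
  obtain ⟨I, hI, hp⟩ := Pool.Agent.H985.Chow.Win.facs hm hs
  have hI' : ∀ P ∈ I, P.Monic ∧ Irreducible P := fun P hP => ⟨((hI P).1 hP).1, ((hI P).1 hP).2.1⟩
  refine ⟨∏ P ∈ I.filter (fun P => P ∣ B), P, ∏ P ∈ I.filter (fun P => ¬ P ∣ B), P, ?_, ?_, ?_, ?_, ?_⟩
  · exact monic_prod_of_monic _ _ fun P hP => (hI' P (Finset.mem_filter.1 hP).1).1
  · exact monic_prod_of_monic _ _ fun P hP => (hI' P (Finset.mem_filter.1 hP).1).1
  · rw [Finset.prod_filter_mul_prod_filter_not, hp]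
  · apply Finset.prod_dvd_of_coprime
    · intro P hP P' hP' hne
      exact coprime_of_ne (hI' P (Finset.mem_filter.1 hP).1) (hI' P' (Finset.mem_filter.1 hP').1) hne
    · intro P hP
      exact (Finset.mem_filter.1 hP).2
  · apply IsCoprime.prod_left
    intro P hP
    exact ((hI' P (Finset.mem_filter.1 hP).1).2.coprime_iff_not_dvd).2 (Finset.mem_filter.1 hP).2

/-- the structure of `m` with respect to `E` -/
theorem structure_m {K : Type} [Field K] [Fintype K] [CharP K 2] {m e₀ k₁ k₂ E : K[X]}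
    (hm : m = e₀ * (k₁ * k₂)) (he₀ : e₀.Monic) (hk₁ : k₁.Monic) (hk₂ : k₂.Monic)
    (hc : IsCoprime e₀ (k₁ * k₂)) (hsq : Squarefree (k₁ * k₂)) (hE : E.Monic) :
    ∃ e h₁ h₂ Q : K[X], m = e * (h₁ * h₂) ∧ e.Monic ∧ h₁.Monic ∧ h₂.Monic ∧ IsCoprime e (h₁ * h₂) ∧
      Squarefree (h₁ * h₂) ∧ IsCoprime X (h₁ * h₂) ∧ IsCoprime E (h₁ * h₂) ∧ Q.Monic ∧ e ^ 5 ∣ Q ∧ e * E ∣ Q ∧
      IsCoprime Q (h₁ * h₂) ∧ e.natDegree ≤ e₀.natDegree + 2 * (1 + E.natDegree) ∧
      Q.natDegree = 5 * e.natDegree + 1 + E.natDegree ∧ h₁.natDegree ≤ k₁.natDegree ∧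
      h₂.natDegree ≤ k₂.natDegree ∧ k₂.natDegree ≤ h₂.natDegree + (1 + E.natDegree) := by
  have hXE : (X * E).Monic := monic_X.mul hE
  have hXEd : (X * E).natDegree = 1 + E.natDegree := by rw [monic_X.natDegree_mul hE, natDegree_X]
  obtain ⟨g₁, h₁, hg₁, hh₁, hk1, hgd1, hco1⟩ := split_sq hk₁ (hsq.squarefree_of_dvd (dvd_mul_right k₁ k₂)) (X * E)
  obtain ⟨g₂, h₂, hg₂, hh₂, hk2, hgd2, hco2⟩ := split_sq hk₂ (hsq.squarefree_of_dvd (dvd_mul_left k₂ k₁)) (X * E)
  have hkk : k₁ * k₂ = (g₁ * g₂) * (h₁ * h₂) := by rw [hk1, hk2]; ring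
  have hgh : IsCoprime (g₁ * g₂) (h₁ * h₂) := by
    rw [hkk] at hsq
    exact (squarefree_mul_iff.1 hsq).1.isCoprime
  have hsq' : Squarefree (h₁ * h₂) := hsq.squarefree_of_dvd (by rw [hkk]; exact dvd_mul_left _ _)
  have he₀h : IsCoprime e₀ (h₁ * h₂) := by
    rw [hkk] at hc
    exact hc.of_mul_right_right
  have heh : IsCoprime (e₀ * (g₁ * g₂)) (h₁ * h₂) := he₀h.mul_left hgh
  have hXEh : IsCoprime (X * E) (h₁ * h₂) := (hco1.mul_left hco2).symm
  have he : (e₀ * (g₁ * g₂)).Monic := he₀.mul (hg₁.mul hg₂)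
  have hd1 : g₁.natDegree ≤ 1 + E.natDegree := by
    rw [← hXEd]; exact natDegree_le_of_dvd hgd1 hXE.ne_zero
  have hd2 : g₂.natDegree ≤ 1 + E.natDegree := by
    rw [← hXEd]; exact natDegree_le_of_dvd hgd2 hXE.ne_zero
  have hk1d : k₁.natDegree = g₁.natDegree + h₁.natDegree := by rw [hk1, hg₁.natDegree_mul hh₁]
  have hk2d : k₂.natDegree = g₂.natDegree + h₂.natDegree := by rw [hk2, hg₂.natDegree_mul hh₂]
  refine ⟨e₀ * (g₁ * g₂), h₁, h₂, (e₀ * (g₁ * g₂)) ^ 5 * (X * E), ?_, he, hh₁, hh₂, heh, hsq',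
    hXEh.of_mul_left_left, hXEh.of_mul_left_right, (he.pow 5).mul hXE, dvd_mul_right _ _, ?_, ?_, ?_, ?_, ?_,
    ?_, ?_⟩
  · rw [hm, hkk]; ring
  · exact mul_dvd_mul (dvd_pow_self _ (by norm_num)) (dvd_mul_left _ _)
  · exact (heh.pow_left).mul_left hXEh
  · rw [he₀.natDegree_mul (hg₁.mul hg₂), hg₁.natDegree_mul hg₂]
    omega
  · rw [(he.pow 5).natDegree_mul hXE, he.natDegree_pow, hXEd]
    ring
  · omega
  · omega
  · omega

/-- the final estimate of exponents -/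
theorem exp_bound {q : ℝ} (hq : 1 < q) {Y y t : ℝ} (hY0 : 0 ≤ Y) (hY : Y ≤ q ^ y) (k₁ k₂ k₃ : ℕ)
    (h : (k₁ : ℝ) + k₂ + k₃ + y ≤ t) : q ^ k₁ * (q ^ k₂ * (q ^ k₃ * Y)) ≤ q ^ t := by
  have hq0 : 0 < q := by linarith
  calc q ^ k₁ * (q ^ k₂ * (q ^ k₃ * Y)) ≤ q ^ k₁ * (q ^ k₂ * (q ^ k₃ * q ^ y)) := by gcongr
    _ = q ^ ((k₁ : ℝ) + (k₂ + (k₃ + y))) := by
        rw [Real.rpow_add hq0, Real.rpow_add hq0, Real.rpow_add hq0, Real.rpow_natCast, Real.rpow_natCast,
          Real.rpow_natCast]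
    _ ≤ q ^ t := Real.rpow_le_rpow_of_exponent_le hq.le (by linarith)

theorem Y_bound {q M : ℝ} (hq : 1 < q) (hM : 1 ≤ M) (ω T σ a : ℕ) (A₁ ε : ℝ)
    (h1 : M ^ ω ≤ A₁ * (q ^ ε) ^ σ) (h2 : A₁ ≤ q ^ a) :
    (M ^ ω / q ^ T) ^ ((1 : ℝ) / 128) ≤ q ^ (((a : ℝ) + ε * σ - T) / 128) := by
  have hq0 : 0 < q := by linarith
  have e1 : M ^ ω / q ^ T ≤ q ^ ((a : ℝ) + ε * σ - T) := by
    rw [div_le_iff₀ (by positivity), ← Real.rpow_natCast q T, ← Real.rpow_add hq0]
    refine h1.trans ?_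
    calc A₁ * (q ^ ε) ^ σ ≤ q ^ a * (q ^ ε) ^ σ := by gcongr
      _ = q ^ ((a : ℝ) + ε * σ - T + T) := by
          rw [← Real.rpow_natCast q a, ← Real.rpow_natCast (q ^ ε) σ, ← Real.rpow_mul hq0.le, ← Real.rpow_add hq0]
          congr 1
          ring
  calc (M ^ ω / q ^ T) ^ ((1 : ℝ) / 128) ≤ (q ^ ((a : ℝ) + ε * σ - T)) ^ ((1 : ℝ) / 128) :=
        Real.rpow_le_rpow (by positivity) e1 (by norm_num)
    _ = q ^ (((a : ℝ) + ε * σ - T) / 128) := by
        rw [← Real.rpow_mul hq0.le]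
        congr 1
        ring

end Pool.Agent.H604.LD.TypcAux

namespace Pool.Agent.H604.LD

open Polynomial TypcAux
open Pool.Agent.H985.Chow (mob lc)
open Pool.Agent.H985.KP (sg PA mobg Good2)
open Pool.Agent.H985.FC (GP S_winF gl)
open Pool.Agent.H985.Chow.Asm (instFD card_deg mem_of_natDegree_lt natDegree_lt_of_mem coprime_of_ne mem_deg
  window_finsum)
open Pool.Agent.H604.FC.Asm4 (omega_bound)

/-- **Task TYPC.** -/
theorem typc (h6 : S_win6) (hF : Pool.Agent.H985.FC.S_winF) : S_typc := by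
  classical
  obtain ⟨M, hM1, h6⟩ := h6
  intro K _ _ _ A E₀ C δ hδ
  obtain ⟨q, hqdef⟩ : ∃ q : ℝ, q = Fintype.card K := ⟨_, rfl⟩
  have hq1 : (1 : ℝ) < q := by rw [hqdef]; exact_mod_cast Fintype.one_lt_card
  have hq0 : (0 : ℝ) < q := by linarith
  obtain ⟨A₁, hA1, hA⟩ := omega_bound K M hM1 (q ^ (δ / 72)) (Real.one_lt_rpow hq1 (by positivity))
  obtain ⟨a, ha⟩ := pow_unbounded_of_one_lt A₁ hq1
  obtain ⟨σ₀, hσ₀⟩ := exists_nat_gt ((11 * (E₀ : ℝ) + 40 + a) * 18432 / δ)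
  refine ⟨δ / 516096, by positivity, σ₀ + 1, ?_⟩
  intro o σ σ' z U m hσ hAz hσσ' hB hm hmd hg
  obtain ⟨hU1, -, hU3, -, -⟩ := hB
  obtain ⟨e₀, k₁, k₂, hmk, he₀, hk₁, hk₂, hc, hsq, -, hE₀, hδ1, hδ2⟩ := hg
  rw [← hqdef]
  -- real quantities
  obtain ⟨x, hx⟩ : ∃ x : ℝ, x = δ * σ := ⟨_, rfl⟩
  obtain ⟨n, hn⟩ : ∃ n : ℕ, n = A * z := ⟨_, rfl⟩
  have hσR : (σ₀ : ℝ) + 1 ≤ σ := by exact_mod_cast hσ
  have hx0 : 11 * (E₀ : ℝ) + 40 + a ≤ x / 18432 := by
    rw [le_div_iff₀ (by norm_num), hx]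
    have h1 : (11 * (E₀ : ℝ) + 40 + a) * 18432 / δ ≤ σ := by linarith
    rw [div_le_iff₀ hδ] at h1
    linarith
  have hE0R : (0 : ℝ) ≤ E₀ := Nat.cast_nonneg _
  have ha0R : (0 : ℝ) ≤ a := Nat.cast_nonneg _
  have hx4 : x ≤ (σ : ℝ) / 4 := by
    have h1 := hδ1.trans hδ2
    rw [hx]
    linarith
  have hθ : δ / 516096 * (σ : ℝ) = x / 516096 := by rw [hx]; ring
  rw [hθ] at hAz hσσ' ⊢
  rw [← hn] at hAz
  rw [← hx] at hδ1
  have hδ2' : (k₁.natDegree : ℝ) ≤ (σ : ℝ) / 2 - x := by rw [hx]; linarith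
  have hkd : e₀.natDegree + (k₁.natDegree + k₂.natDegree) = σ := by
    rw [← hmd, hmk, he₀.natDegree_mul (hk₁.mul hk₂), hk₁.natDegree_mul hk₂]
  have hkdR : (e₀.natDegree : ℝ) + (k₁.natDegree + k₂.natDegree) = σ := by exact_mod_cast hkd
  have hE₀R : (e₀.natDegree : ℝ) ≤ E₀ := by exact_mod_cast hE₀
  have he0R : (0 : ℝ) ≤ (e₀.natDegree : ℝ) := Nat.cast_nonneg _
  obtain ⟨hs1, hs2⟩ := abs_le.1 hσσ'
  -- the parameters
  obtain ⟨D, hD⟩ : ∃ D : ℕ, D = ⌊x / 4⌋₊ := ⟨_, rfl⟩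
  have hx00 : 0 ≤ x := by rw [hx]; positivity
  have hD1 : (D : ℝ) ≤ x / 4 := by rw [hD]; exact Nat.floor_le (by positivity)
  have hD2 : x / 4 < D + 1 := by rw [hD]; exact Nat.lt_floor_add_one _
  obtain ⟨T, hT⟩ : ∃ T : ℕ, T = D / 9 := ⟨_, rfl⟩
  have h9 : 9 * T ≤ D := by rw [hT]; omega
  have hT2 : (D : ℝ) ≤ 9 * T + 8 := by
    have : D ≤ 9 * T + 8 := by rw [hT]; omega
    exact_mod_cast this
  obtain ⟨τ, hτ⟩ : ∃ τ : ℕ, τ + 1 = σ + o.toNat := ⟨σ + o.toNat - 1, by omega⟩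
  have hτ1 : σ ≤ τ + 1 := by omega
  have hτ2 : τ ≤ σ := by
    have := Bool.toNat_le o
    omega
  -- the bound for one `T`
  obtain ⟨Bd, hBd⟩ : ∃ Bd : ℝ, Bd = q ^ ((σ' : ℝ) - x / 516096 - (n + 1)) := ⟨_, rfl⟩
  have hBd0 : 0 ≤ Bd := by rw [hBd]; positivity
  have key : ∀ Ts : Finset K[X], Ts ⊆ Pz K z → ∑ P ∈ Ts, P.natDegree ≤ n →
      |∑ p ∈ (Fam_finite o σ σ' m).toFinset.filter (fun p => ∀ P ∈ Ts, P ∣ fAB o p.1 m p.2),
        (mob (fA o p.1 m) : ℝ)| ≤ Bd := by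
    intro Ts hTs hTd
    set E : K[X] := ∏ P ∈ Ts, P with hE
    have hEm : E.Monic := prod_ne hTs
    have hEd : E.natDegree ≤ n := by rw [hE, prod_deg hTs]; exact hTd
    obtain ⟨e, h₁, h₂, Q, hme, he, hh₁, hh₂, heh, hsq', hXh, hEh, hQ, h5, heE, hQh, hed, hQd, hk1, hk2, hk3⟩ :=
      structure_m hmk he₀ hk₁ hk₂ hc hsq hEm
    have hhd : e.natDegree + (h₁.natDegree + h₂.natDegree) = σ := by
      rw [← hmd, hme, he.natDegree_mul (hh₁.mul hh₂), hh₁.natDegree_mul hh₂]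
    have hhd' : (h₁ * h₂).natDegree = h₁.natDegree + h₂.natDegree := hh₁.natDegree_mul hh₂
    -- real versions
    have rEd : (E.natDegree : ℝ) ≤ n := by exact_mod_cast hEd
    have red : (e.natDegree : ℝ) ≤ e₀.natDegree + 2 * (1 + E.natDegree) := by exact_mod_cast hed
    have rQd : (Q.natDegree : ℝ) = 5 * e.natDegree + 1 + E.natDegree := by exact_mod_cast hQd
    have rk1 : (h₁.natDegree : ℝ) ≤ k₁.natDegree := by exact_mod_cast hk1
    have rk2 : (h₂.natDegree : ℝ) ≤ k₂.natDegree := by exact_mod_cast hk2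
    have rk3 : (k₂.natDegree : ℝ) ≤ h₂.natDegree + (1 + E.natDegree) := by exact_mod_cast hk3
    have rQ : (Q.natDegree : ℝ) ≤ 5 * E₀ + 11 * n + 11 := by linarith
    have hn0 : (0 : ℝ) ≤ n := Nat.cast_nonneg _
    have cQτ : Q.natDegree + 2 ≤ σ := by
      have : (Q.natDegree : ℝ) + 2 ≤ σ := by linarith
      exact_mod_cast this
    have cQσ : Q.natDegree ≤ σ' := by
      have : (Q.natDegree : ℝ) ≤ σ' := by linarith
      exact_mod_cast this
    have cD1 : h₁.natDegree + D + Q.natDegree + 1 ≤ σ := by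
      have : (h₁.natDegree : ℝ) + D + Q.natDegree + 1 ≤ σ := by linarith
      exact_mod_cast this
    have cD2 : h₂.natDegree + D + Q.natDegree + 1 ≤ σ := by
      have : (h₂.natDegree : ℝ) + D + Q.natDegree + 1 ≤ σ := by linarith
      exact_mod_cast this
    have cL2 : σ ≤ 2 * h₂.natDegree := by
      have : (σ : ℝ) ≤ 2 * h₂.natDegree := by linarith
      exact_mod_cast this
    obtain ⟨Y, hY⟩ : ∃ Y : ℝ, Y = (M ^ (PA (h₁ * h₂)).ncard / q ^ T) ^ ((1 : ℝ) / 128) := ⟨_, rfl⟩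
    have hY0 : 0 ≤ Y := by rw [hY]; positivity
    have hcls := cls_sum Q hQ τ
      ((Fam_finite o σ σ' m).toFinset.filter (fun p => ∀ P ∈ Ts, P ∣ fAB o p.1 m p.2))
      (fun p => (mob (fA o p.1 m) : ℝ))
      (q ^ ((σ' - Q.natDegree) - (h₁ * h₂).natDegree) * (q ^ (τ - Q.natDegree) * Y)) (by positivity) (by
        intro p₀ hp₀
        have hp₀' := hp₀
        rw [Finset.mem_filter, Set.Finite.mem_toFinset] at hp₀'
        obtain ⟨⟨hd0, -, -, hdv0⟩, -⟩ := hp₀'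
        rw [fibre_sum o σ σ' τ m e (h₁ * h₂) E Q Ts hme hm.ne_zero hEh heh hQ heE hτ (by omega) cQσ
          (fun P hP => Finset.dvd_prod_of_mem (fun P => P) hP) _
          (fun p => by rw [Finset.mem_filter, Set.Finite.mem_toFinset]) _ p₀ hp₀]
        rw [hY, hqdef]
        exact class_bd hM1 h6 hF o σ σ' τ D T m e h₁ h₂ Q p₀.1 p₀.2 hme he hh₁ hh₂ heh hsq' hmd hXh hQ h5 hQh hτ
          (by omega) (by omega) (by omega) (by omega) h9 hd0 hdv0)
    rw [← hqdef] at hcls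
    refine hcls.trans ?_
    rw [hBd]
    have hYb : Y ≤ q ^ (((a : ℝ) + δ / 72 * σ - T) / 128) := by
      rw [hY]
      apply Y_bound hq1 hM1 _ _ _ _ A₁ _ _ ha.le
      apply hA _ (hh₁.mul hh₂).ne_zero
      omega
    apply exp_bound hq1 hY0 hYb
    have h72 : δ / 72 * (σ : ℝ) = x / 72 := by rw [hx]; ring
    rw [h72]
    have c1 : (((σ' - Q.natDegree) - (h₁ * h₂).natDegree : ℕ) : ℝ) ≤ x / 516096 + (E₀ + 2 * n + 2) := by
      have h1 : (σ' - Q.natDegree) - (h₁ * h₂).natDegree ≤ (σ' - σ) + e.natDegree := by omega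
      have h2 : (((σ' - Q.natDegree) - (h₁ * h₂).natDegree : ℕ) : ℝ) ≤ ((σ' - σ : ℕ) : ℝ) + e.natDegree := by
        exact_mod_cast h1
      have h3 : ((σ' - σ : ℕ) : ℝ) ≤ x / 516096 := by
        rcases le_total σ' σ with h4 | h4
        · rw [Nat.sub_eq_zero_of_le h4, Nat.cast_zero]
          positivity
        · rw [Nat.cast_sub h4]
          linarith
      linarith
    have c2 : ((τ - Q.natDegree : ℕ) : ℝ) ≤ σ := by
      exact_mod_cast (by omega : τ - Q.natDegree ≤ σ)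
    have c3 : ((2 * Q.natDegree + 1 : ℕ) : ℝ) ≤ 2 * (5 * E₀ + 11 * n + 11) + 1 := by
      push_cast
      linarith
    linarith
  rw [finsum_mem_eq_finite_toFinset_sum _ (Fam_finite o σ σ' m)]
  have hfin := sieve_sum z n U hU1 (fun T hT => by rw [hn]; exact hU3 T hT) (Fam_finite o σ σ' m).toFinset
    (fun p => (mob (fA o p.1 m) : ℝ)) (fun p => fAB o p.1 m p.2) Bd hBd0 key
  refine hfin.trans (le_of_eq ?_)
  rw [← hqdef, hBd, ← Real.rpow_natCast, ← Real.rpow_add hq0]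
  congr 1
  push_cast
  ring

end Pool.Agent.H604.LD

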