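import Mathlib
import Pool.Agent.H604.LD.StmG

/-!
# Common lemmas about the data of the general version (helper604)
-/

set_option autoImplicit false
set_option linter.unusedSectionVars false

namespace Pool.Agent.H604.LD

open Polynomial
open scoped Classical

variable {K : Type} [Field K] [CharP K 2]

theorem fa_sub (γ : K) (b a a' : K[X]) : fa γ b a - fa γ b a' = (a - a') ^ 2 := by
  have h2 : (2 : K[X]) = 0 := CharTwo.two_eq_zero
  unfold fa
  linear_combination (a * a' - a' ^ 2) * h2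

theorem fa_monic (γ : K) {b a : K[X]} (ha : a.Monic) (h : b.natDegree < a.natDegree) :
    (fa γ b a).Monic := by
  unfold fa
  apply Monic.add_of_left (ha.pow 2)
  have h1 : (a ^ 2).degree = ((2 * a.natDegree : ℕ) : WithBot ℕ) := by
    rw [degree_eq_natDegree (ha.pow 2).ne_zero, natDegree_pow]
  rw [h1]
  by_cases h0 : X * (C γ * b) ^ 2 = 0
  · rw [h0, degree_zero]; exact WithBot.bot_lt_coe _
  · rw [degree_eq_natDegree h0]
    have h2 : (X * (C γ * b) ^ 2).natDegree ≤ 1 + 2 * b.natDegree := by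
      refine natDegree_mul_le.trans ?_
      have h3 : ((C γ * b) ^ 2).natDegree ≤ 2 * b.natDegree := by
        refine natDegree_pow_le.trans ?_
        exact Nat.mul_le_mul_left _ (natDegree_C_mul_le _ _)
      have h4 : (X : K[X]).natDegree ≤ 1 := natDegree_X_le
      omega
    exact_mod_cast (by omega : (X * (C γ * b) ^ 2).natDegree < 2 * a.natDegree)

theorem fa_natDegree (γ : K) {b a : K[X]} (ha : a.Monic) (h : b.natDegree < a.natDegree) :
    (fa γ b a).natDegree = 2 * a.natDegree := by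
  have h1 : (a ^ 2).degree = ((2 * a.natDegree : ℕ) : WithBot ℕ) := by
    rw [degree_eq_natDegree (ha.pow 2).ne_zero, natDegree_pow]
  have h5 : (X * (C γ * b) ^ 2).degree < (a ^ 2).degree := by
    rw [h1]
    by_cases h0 : X * (C γ * b) ^ 2 = 0
    · rw [h0, degree_zero]; exact WithBot.bot_lt_coe _
    · rw [degree_eq_natDegree h0]
      have h2 : (X * (C γ * b) ^ 2).natDegree ≤ 1 + 2 * b.natDegree := by
        refine natDegree_mul_le.trans ?_
        have h3 : ((C γ * b) ^ 2).natDegree ≤ 2 * b.natDegree := by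
          refine natDegree_pow_le.trans ?_
          exact Nat.mul_le_mul_left _ (natDegree_C_mul_le _ _)
        have h4 : (X : K[X]).natDegree ≤ 1 := natDegree_X_le
        omega
      exact_mod_cast (by omega : (X * (C γ * b) ^ 2).natDegree < 2 * a.natDegree)
  unfold fa
  rw [natDegree_add_eq_left_of_degree_lt h5, natDegree_pow]

theorem mob_mul_sqf' {F G : K[X]} (h : Squarefree (F * G)) :
    Pool.Agent.H985.Chow.mob (F * G) =
      Pool.Agent.H985.Chow.mob F * Pool.Agent.H985.Chow.mob G := by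
  have h1 := squarefree_mul_iff.1 h
  unfold Pool.Agent.H985.Chow.mob
  rw [if_pos h1.2.1, if_pos h1.2.2, if_pos h, ← pow_add]
  congr 1
  rw [Multiset.card_eq_card_of_rel (UniqueFactorizationMonoid.factors_mul h1.2.1.ne_zero
    h1.2.2.ne_zero), Multiset.card_add]

theorem mob_mul_self' {F : K[X]} (h : Squarefree F) :
    Pool.Agent.H985.Chow.mob F * Pool.Agent.H985.Chow.mob F = 1 := by
  unfold Pool.Agent.H985.Chow.mob
  rw [if_pos h, ← mul_pow]
  norm_num

namespace Dat

variable {γ : K} {b M a₀ α a : K[X]}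

theorem fa_eq₀ (h : Dat γ b M a₀ α) : fa γ b a₀ = α * ga γ b α a₀ := by
  unfold ga
  rw [EuclideanDomain.mul_div_cancel' h.hα.ne_zero h.αf]

theorem αf' (h : Dat γ b M a₀ α) (ha : M ∣ a - a₀) : α ∣ fa γ b a := by
  have h1 : fa γ b a = fa γ b a₀ + (a - a₀) ^ 2 := by rw [← fa_sub γ b a a₀]; ring
  rw [h1]
  exact dvd_add h.αf (dvd_pow (h.αM.trans ha) two_ne_zero)

theorem fa_eq (h : Dat γ b M a₀ α) (ha : M ∣ a - a₀) : fa γ b a = α * ga γ b α a := by
  unfold ga
  rw [EuclideanDomain.mul_div_cancel' h.hα.ne_zero (h.αf' ha)]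

/-- `f_a / α` is constant modulo `M`. -/
theorem ga_sub (h : Dat γ b M a₀ α) (ha : M ∣ a - a₀) : M ∣ ga γ b α a - ga γ b α a₀ := by
  have h1 : α * (ga γ b α a - ga γ b α a₀) = (a - a₀) ^ 2 := by
    rw [mul_sub, ← h.fa_eq ha, ← h.fa_eq₀, fa_sub]
  have h2 : α * M ∣ α * (ga γ b α a - ga γ b α a₀) := by
    rw [h1, sq]
    exact mul_dvd_mul (h.αM.trans ha) ha
  exact (mul_dvd_mul_iff_left h.hα.ne_zero).1 h2

theorem cop' (h : Dat γ b M a₀ α) (ha : M ∣ a - a₀) : IsCoprime (ga γ b α a) M := by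
  obtain ⟨k, hk⟩ := h.ga_sub ha
  have h1 : ga γ b α a = ga γ b α a₀ + M * k := by rw [← hk]; ring
  rw [h1]
  exact IsCoprime.add_mul_left_left h.cop k

theorem b_dvd (h : Dat γ b M a₀ α) : b ∣ M := (dvd_pow_self b (by norm_num)).trans h.hbM

theorem M_ne (h : Dat γ b M a₀ α) : M ≠ 0 := h.hM.ne_zero

/-- A common prime factor of `a` and `b` does not exist. -/
theorem cop_b (h : Dat γ b M a₀ α) (ha : M ∣ a - a₀) : IsCoprime a b := by
  refine isCoprime_of_irreducible_dvd (fun h0 => h.hb.ne_zero h0.2) ?_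
  intro P hP hPa hPb
  have hPf : P ^ 2 ∣ fa γ b a := by
    unfold fa
    refine dvd_add (pow_dvd_pow_of_dvd hPa 2) (Dvd.dvd.mul_left ?_ _)
    exact pow_dvd_pow_of_dvd (Dvd.dvd.mul_left hPb _) 2
  have hPM : P ∣ M := hPb.trans h.b_dvd
  rw [h.fa_eq ha, sq] at hPf
  have hPg : ¬ P ∣ ga γ b α a := by
    intro hd
    exact hP.not_isUnit ((h.cop' ha).isUnit_of_dvd' hd hPM)
  have hcop : IsCoprime (P * P) (ga γ b α a) :=
    IsCoprime.mul_left ((hP.coprime_iff_not_dvd).2 hPg) ((hP.coprime_iff_not_dvd).2 hPg)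
  exact hP.not_isUnit (h.sα P (hcop.dvd_of_dvd_mul_right hPf))

/-- `a₀` is prime to `b`. -/
theorem cop_b₀ (h : Dat γ b M a₀ α) : IsCoprime a₀ b := h.cop_b (by simp)

theorem squarefree_fa (h : Dat γ b M a₀ α) (ha : M ∣ a - a₀) : Squarefree (fa γ b a) := by
  have hd : derivative (fa γ b a) = (C γ * b) ^ 2 := by
    have h2 : (2 : K[X]) = 0 := CharTwo.two_eq_zero
    unfold fa
    simp only [derivative_add, derivative_mul, derivative_pow, derivative_X, one_mul,
      Nat.cast_ofNat, map_ofNat]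
    linear_combination (a * derivative a + X * (C γ * b) *
      (derivative (C γ) * b + C γ * derivative b)) * h2
  have hs : (fa γ b a).Separable := by
    rw [Polynomial.separable_def, hd]
    apply IsCoprime.pow_right
    refine isCoprime_mul_unit_left_right (isUnit_C.2 h.γ0.isUnit) _ _ |>.2 ?_
    unfold fa
    have h1 : X * (C γ * b) ^ 2 = b * (X * C γ ^ 2 * b) := by ring
    rw [h1]
    exact IsCoprime.add_mul_left_left ((h.cop_b ha).pow_left) _
  exact hs.squarefree

theorem squarefree_ga (h : Dat γ b M a₀ α) (ha : M ∣ a - a₀) : Squarefree (ga γ b α a) :=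
  (h.squarefree_fa ha).squarefree_of_dvd ⟨α, by rw [h.fa_eq ha, mul_comm]⟩

theorem ga_monic (h : Dat γ b M a₀ α) (ha : M ∣ a - a₀) (hm : a.Monic)
    (hd : b.natDegree < a.natDegree) : (ga γ b α a).Monic := by
  have h1 := fa_monic γ hm hd
  rw [h.fa_eq ha] at h1
  exact h.hα.of_mul_monic_left h1

theorem ga_natDegree (h : Dat γ b M a₀ α) (ha : M ∣ a - a₀) (hm : a.Monic)
    (hd : b.natDegree < a.natDegree) :
    (ga γ b α a).natDegree + α.natDegree = 2 * a.natDegree := by
  have h1 := fa_natDegree γ hm hd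
  rw [h.fa_eq ha, (h.hα).natDegree_mul (h.ga_monic ha hm hd)] at h1
  omega

theorem α_natDegree (h : Dat γ b M a₀ α) : α.natDegree ≤ M.natDegree :=
  natDegree_le_of_dvd h.αM h.M_ne

/-- The divisors of `f_a / α` are the divisors of `f_a` prime to `M`. -/
theorem dvd_ga_iff (h : Dat γ b M a₀ α) (ha : M ∣ a - a₀) (D : K[X]) :
    D ∣ ga γ b α a ↔ D ∣ fa γ b a ∧ IsCoprime D M := by
  constructor
  · intro hD
    exact ⟨by rw [h.fa_eq ha]; exact hD.mul_left _, (h.cop' ha).of_isCoprime_of_dvd_left hD⟩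
  · rintro ⟨h1, h2⟩
    rw [h.fa_eq ha] at h1
    exact (h2.of_isCoprime_of_dvd_right h.αM).dvd_of_dvd_mul_left h1

theorem mob_ga (h : Dat γ b M a₀ α) (ha : M ∣ a - a₀) :
    Pool.Agent.H985.Chow.mob (fa γ b a) =
      Pool.Agent.H985.Chow.mob α * Pool.Agent.H985.Chow.mob (ga γ b α a) := by
  rw [h.fa_eq ha]
  exact mob_mul_sqf' (by rw [← h.fa_eq ha]; exact h.squarefree_fa ha)

/-- `μ(f_a / α) = μ(α) μ(f_a)`. -/
theorem mob_ga' (h : Dat γ b M a₀ α) (ha : M ∣ a - a₀) :
    Pool.Agent.H985.Chow.mob (ga γ b α a) =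
      Pool.Agent.H985.Chow.mob α * Pool.Agent.H985.Chow.mob (fa γ b a) := by
  rw [h.mob_ga ha, ← mul_assoc, mob_mul_self' h.sα, one_mul]

end Dat

end Pool.Agent.H604.LD
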