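import Pool.Agent.H604.LD.StmP
import Pool.Agent.H604.LD.DatL
import Pool.Agent.H985.Chow.RT
import Pool.Agent.H985.KP.Loc2

/-!
# Primes `α T ^ 2 + β` over `F_q[X]`, `q` even: the near sums with a power saving (task NEARP)
-/

set_option autoImplicit false

namespace Pool.Agent.H604.LD

open Polynomial
open scoped Classical
open Pool.Agent.H985.Chow (mob lc)
open Pool.Agent.H985.KP (sg PA)
open Pool.Agent.H985.FC (S_winF)
open Pool.Agent.H694.Typ (Mn PU)

namespace NearPL

open Pool.Agent.H985.Chow.RT (lc_add lc_sub lc_zero lc_dvd lc_small lc_mul lc_of_deg)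
open Pool.Agent.H985.KP.Loc2 (sg_abs sg_add sg_zero exists_sg_neg)

section base
variable {K : Type} [Field K] [Fintype K]
set_option linter.unusedSectionVars false

instance finPT (n : ℕ) : Finite (degreeLT K n) :=
  Finite.of_equiv _ (degreeLTEquiv K n).toEquiv.symm

noncomputable instance fintPT (n : ℕ) : Fintype (degreeLT K n) := Fintype.ofFinite _

theorem card_PT (n : ℕ) : Fintype.card (degreeLT K n) = Fintype.card K ^ n := by
  rw [Fintype.card_congr (degreeLTEquiv K n).toEquiv, Fintype.card_fun, Fintype.card_fin]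

/-! ### The residue class -/

theorem dvd_of_dvd_sq {D z : K[X]} (hs : Squarefree D) (h : D ∣ z ^ 2) : D ∣ z :=
  hs.isRadical 2 z h

theorem sq_surj [CharP K 2] {D : K[X]} (hD : D.Monic) (hs : Squarefree D) (y : K[X]) :
    ∃ x : K[X], D ∣ x ^ 2 - y := by
  have h2 : (2 : K[X]) = 0 := CharTwo.two_eq_zero
  have hmem : ∀ p : K[X], p %ₘ D ∈ degreeLT K D.natDegree := by
    intro p
    rw [mem_degreeLT]
    have := degree_modByMonic_lt p hD
    rwa [degree_eq_natDegree hD.ne_zero] at this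
  let f : degreeLT K D.natDegree → degreeLT K D.natDegree := fun x => ⟨(x.1 ^ 2) %ₘ D, hmem _⟩
  have hinj : Function.Injective f := by
    intro x x' hxx
    have h1 : (x.1 ^ 2) %ₘ D = (x'.1 ^ 2) %ₘ D := congrArg Subtype.val hxx
    have h3 : D ∣ x.1 ^ 2 - x'.1 ^ 2 := by
      rw [← modByMonic_eq_zero_iff_dvd hD, sub_modByMonic, h1, sub_self]
    have h4 : x.1 ^ 2 - x'.1 ^ 2 = (x.1 - x'.1) ^ 2 := by
      linear_combination (x.1 * x'.1 - x'.1 ^ 2) * h2
    rw [h4] at h3
    have h5 := dvd_of_dvd_sq hs h3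
    apply Subtype.ext
    have h6 : (x.1 - x'.1).degree < D.degree := by
      have h7 : x.1 - x'.1 ∈ degreeLT K D.natDegree := Submodule.sub_mem _ x.2 x'.2
      rw [mem_degreeLT] at h7
      rwa [degree_eq_natDegree hD.ne_zero]
    have h8 := eq_zero_of_dvd_of_degree_lt h5 h6
    exact sub_eq_zero.1 h8
  obtain ⟨x, hx⟩ := (Finite.surjective_of_injective hinj) ⟨y %ₘ D, hmem y⟩
  refine ⟨x.1, ?_⟩
  have h1 : (x.1 ^ 2) %ₘ D = y %ₘ D := congrArg Subtype.val hx
  rw [← modByMonic_eq_zero_iff_dvd hD, sub_modByMonic, h1, sub_self]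

theorem exists_rho [CharP K 2] (γ : K) (b a₀ : K[X]) {M D : K[X]} (hM : M.Monic) (hD : D.Monic)
    (hs : Squarefree D) (hc : IsCoprime D M) :
    ∃ ρ : K[X], M ∣ ρ - a₀ ∧ D ∣ fa γ b ρ ∧ ρ.degree < (D * M).degree := by
  obtain ⟨x, hx⟩ := sq_surj hD hs (-(X * (C γ * b) ^ 2))
  have hx' : D ∣ fa γ b x := by
    unfold fa
    rwa [sub_neg_eq_add] at hx
  obtain ⟨u, v, huv⟩ := hc
  set ρ' := x * (v * M) + a₀ * (u * D) with hρ'
  have e1 : ρ' - x = D * (u * (a₀ - x)) := by
    rw [hρ']; linear_combination x * huv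
  have e2 : ρ' - a₀ = M * (v * (x - a₀)) := by
    rw [hρ']; linear_combination a₀ * huv
  have hDM : (D * M).Monic := hD.mul hM
  have e3 : D * M ∣ ρ' - ρ' %ₘ (D * M) := by
    have := modByMonic_add_div ρ' (D * M)
    exact ⟨ρ' /ₘ (D * M), by linear_combination -this⟩
  have e4 : D ∣ ρ' %ₘ (D * M) - x := by
    have h1 : ρ' %ₘ (D * M) - x = (ρ' - x) - (ρ' - ρ' %ₘ (D * M)) := by ring
    rw [h1]
    exact dvd_sub ⟨_, e1⟩ ((dvd_mul_right D M).trans e3)
  refine ⟨ρ' %ₘ (D * M), ?_, ?_, degree_modByMonic_lt _ hDM⟩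
  · have h1 : ρ' %ₘ (D * M) - a₀ = (ρ' - a₀) - (ρ' - ρ' %ₘ (D * M)) := by ring
    rw [h1]
    exact dvd_sub ⟨_, e2⟩ ((dvd_mul_left M D).trans e3)
  · have h1 : fa γ b (ρ' %ₘ (D * M)) = fa γ b x + (ρ' %ₘ (D * M) - x) ^ 2 := by
      rw [← fa_sub γ b]; ring
    rw [h1]
    exact dvd_add hx' (dvd_pow e4 two_ne_zero)

theorem rho_spec [CharP K 2] (γ : K) (b a₀ : K[X]) {M D : K[X]} (hM : M.Monic) (hD : D.Monic)
    (hs : Squarefree D) (hc : IsCoprime D M) :
    M ∣ rho γ b M a₀ D - a₀ ∧ D ∣ fa γ b (rho γ b M a₀ D) := by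
  have h := exists_rho γ b a₀ hM hD hs hc
  unfold rho
  rw [dif_pos h]
  exact ⟨h.choose_spec.1, h.choose_spec.2.1⟩

theorem class_iff [CharP K 2] (γ : K) (b a₀ : K[X]) {M D : K[X]} (hM : M.Monic) (hD : D.Monic)
    (hs : Squarefree D) (hc : IsCoprime D M) (a : K[X]) :
    (M ∣ a - a₀ ∧ D ∣ fa γ b a) ↔ D * M ∣ a - rho γ b M a₀ D := by
  obtain ⟨h1, h2⟩ := rho_spec γ b a₀ hM hD hs hc
  constructor
  · rintro ⟨h3, h4⟩
    apply hc.mul_dvd
    · apply dvd_of_dvd_sq hs
      rw [← fa_sub γ b]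
      exact dvd_sub h4 h2
    · have e : a - rho γ b M a₀ D = (a - a₀) - (rho γ b M a₀ D - a₀) := by ring
      rw [e]
      exact dvd_sub h3 h1
  · intro h3
    constructor
    · have e : a - a₀ = (a - rho γ b M a₀ D) + (rho γ b M a₀ D - a₀) := by ring
      rw [e]
      exact dvd_add ((dvd_mul_left M D).trans h3) h1
    · have e : fa γ b a = fa γ b (rho γ b M a₀ D) + (a - rho γ b M a₀ D) ^ 2 := by
        rw [← fa_sub γ b]; ring
      rw [e]
      exact dvd_add h2 (dvd_pow ((dvd_mul_right D M).trans h3) two_ne_zero)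

/-! ### Fourier detection -/

theorem lc_smul (N P : K[X]) (t : K) : lc N (C t * P) = t * lc N P := by
  unfold lc
  rw [← smul_eq_C_mul, smul_modByMonic, coeff_smul, smul_eq_mul]

theorem sum_sg [CharP K 2] (V : Submodule K K[X]) [Fintype V] (L : K[X] → K)
    (hadd : ∀ x y, L (x + y) = L x + L y) (hmul : ∀ (t : K) x, L (C t * x) = t * L x)
    (h : ∃ ξ ∈ V, L ξ ≠ 0) : ∑ ξ : V, sg (L ξ.1) = 0 := by
  obtain ⟨ξ₀, h0, hL⟩ := h
  obtain ⟨y, hy⟩ := exists_sg_neg (F := K)
  set ξ₁ : V := ⟨C (y * (L ξ₀)⁻¹) * ξ₀, by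
    rw [← smul_eq_C_mul]
    exact V.smul_mem _ h0⟩ with hξ₁
  have h1 : L ξ₁.1 = y := by
    rw [hξ₁]
    show L (C (y * (L ξ₀)⁻¹) * ξ₀) = y
    rw [hmul, mul_assoc, inv_mul_cancel₀ hL, mul_one]
  have h2 : ∑ ξ : V, sg (L (ξ + ξ₁).1) = ∑ ξ : V, sg (L ξ.1) :=
    Equiv.sum_comp (Equiv.addRight ξ₁) (fun ξ : V => sg (L ξ.1))
  have h3 : ∑ ξ : V, sg (L (ξ + ξ₁).1) = - ∑ ξ : V, sg (L ξ.1) := by
    rw [← Finset.sum_neg_distrib]
    apply Finset.sum_congr rfl
    intro ξ _
    rw [Submodule.coe_add, hadd, sg_add, h1, hy]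
    ring
  linarith

theorem card_big {N : K[X]} (hN : N.Monic) (e : K[X]) (H : ℕ) (hH : N.natDegree ≤ H) :
    ((Finset.univ : Finset (degreeLT K H)).filter (fun y => N ∣ y.1 - e)).card =
        Fintype.card K ^ (H - N.natDegree) := by
  have hr : (e %ₘ N).degree < ((N.natDegree : ℕ) : WithBot ℕ) := by
    have := degree_modByMonic_lt e hN
    rwa [degree_eq_natDegree hN.ne_zero] at this
  have hre : N ∣ e - e %ₘ N := by
    have := modByMonic_add_div e N
    exact ⟨e /ₘ N, by linear_combination -this⟩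
  have hmem : ∀ t : K[X], t ∈ degreeLT K (H - N.natDegree) →
      e %ₘ N + N * t ∈ degreeLT K H := by
    intro t h1
    apply Submodule.add_mem
    · rw [mem_degreeLT]
      exact hr.trans_le (by exact_mod_cast hH)
    · rw [mem_degreeLT] at h1 ⊢
      by_cases ht : t = 0
      · rw [ht, mul_zero, degree_zero]
        exact WithBot.bot_lt_coe _
      · rw [degree_eq_natDegree ht] at h1
        rw [degree_eq_natDegree (mul_ne_zero hN.ne_zero ht), hN.natDegree_mul' ht]
        have h2 : t.natDegree < H - N.natDegree := by exact_mod_cast h1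
        have h3 : N.natDegree + t.natDegree < H := by omega
        exact_mod_cast h3
  let f : degreeLT K (H - N.natDegree) → degreeLT K H :=
    fun t => ⟨e %ₘ N + N * t.1, hmem t.1 t.2⟩
  have hinj : Function.Injective f := by
    intro t t' htt
    have h1 : e %ₘ N + N * t.1 = e %ₘ N + N * t'.1 := congrArg Subtype.val htt
    apply Subtype.ext
    exact mul_left_cancel₀ hN.ne_zero (add_left_cancel h1)
  have himg : (Finset.univ : Finset (degreeLT K H)).filter (fun y => N ∣ y.1 - e) =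
      (Finset.univ : Finset (degreeLT K (H - N.natDegree))).image f := by
    ext y
    rw [Finset.mem_filter, Finset.mem_image]
    constructor
    · rintro ⟨-, hy⟩
      have h1 : y.1 %ₘ N = e %ₘ N := modByMonic_eq_of_dvd_sub hN hy
      have h2 := modByMonic_add_div y.1 N
      rw [h1] at h2
      have h3 : y.1 /ₘ N ∈ degreeLT K (H - N.natDegree) := by
        rw [mem_degreeLT]
        by_cases h4 : y.1 /ₘ N = 0
        · rw [h4, degree_zero]
          exact WithBot.bot_lt_coe _
        · rw [degree_eq_natDegree h4]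
          have h5 : y.1.natDegree < H := by
            have h6 := y.2
            rw [mem_degreeLT] at h6
            have h7 : y.1 ≠ 0 := by
              intro h8
              rw [h8, zero_divByMonic] at h4
              exact h4 rfl
            rw [degree_eq_natDegree h7] at h6
            exact_mod_cast h6
          have h6 : (y.1 /ₘ N).natDegree = y.1.natDegree - N.natDegree :=
            natDegree_divByMonic _ hN
          have h7 : N.natDegree ≤ y.1.natDegree := by
            by_contra hlt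
            push Not at hlt
            apply h4
            rw [divByMonic_eq_zero_iff hN]
            exact degree_lt_degree hlt
          have h8 : (y.1 /ₘ N).natDegree < H - N.natDegree := by omega
          exact_mod_cast h8
      exact ⟨⟨y.1 /ₘ N, h3⟩, Finset.mem_univ _, Subtype.ext h2⟩
    · rintro ⟨t, -, rfl⟩
      refine ⟨Finset.mem_univ _, ?_⟩
      have h1 : e %ₘ N + N * t.1 - e = N * t.1 - (e - e %ₘ N) := by ring
      show N ∣ e %ₘ N + N * t.1 - e
      rw [h1]
      exact dvd_sub (dvd_mul_right _ _) hre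
  rw [himg, Finset.card_image_of_injective _ hinj, Finset.card_univ, card_PT]

/-- orthogonality -/
theorem detect [CharP K 2] {N : K[X]} (hN : N.Monic) (e : K[X]) (H : ℕ) :
    (((Finset.univ : Finset (degreeLT K H)).filter (fun y => N ∣ y.1 - e)).card : ℝ) =
      (Fintype.card K : ℝ) ^ ((H : ℝ) - N.natDegree) *
        ∑ ξ : degreeLT K (N.natDegree - H), sg (lc N (ξ.1 * e)) := by
  have hq0 : (0 : ℝ) < Fintype.card K := by exact_mod_cast Fintype.card_pos
  have hr : (e %ₘ N).degree < ((N.natDegree : ℕ) : WithBot ℕ) := by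
    have := degree_modByMonic_lt e hN
    rwa [degree_eq_natDegree hN.ne_zero] at this
  have hre : N ∣ e - e %ₘ N := by
    have := modByMonic_add_div e N
    exact ⟨e /ₘ N, by linear_combination -this⟩
  have hlc : ∀ ξ : K[X], lc N (ξ * e) = lc N (ξ * (e %ₘ N)) := by
    intro ξ
    have h1 : ξ * e = ξ * (e %ₘ N) + ξ * (e - e %ₘ N) := by ring
    rw [h1, lc_add, lc_dvd hN _ (hre.mul_left ξ), add_zero]
  rcases le_or_gt N.natDegree H with hH | hH
  · -- `H ≥ ν`
    have hsum : ∑ ξ : degreeLT K (N.natDegree - H), sg (lc N (ξ.1 * e)) = 1 := by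
      have hz : ∀ ξ : degreeLT K (N.natDegree - H), sg (lc N (ξ.1 * e)) = 1 := by
        intro ξ
        have h1 := ξ.2
        rw [mem_degreeLT] at h1
        have h2 : ξ.1 = 0 := by
          by_contra hne
          rw [degree_eq_natDegree hne] at h1
          have h3 : ξ.1.natDegree < N.natDegree - H := by exact_mod_cast h1
          omega
        rw [h2, zero_mul, lc_zero, sg_zero]
      rw [Finset.sum_congr rfl fun ξ _ => hz ξ, Finset.sum_const, Finset.card_univ, card_PT,
        Nat.sub_eq_zero_of_le hH]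
      simp
    rw [hsum, mul_one, card_big hN e H hH]
    push_cast
    rw [← Real.rpow_natCast, Nat.cast_sub hH]
  · -- `H < ν`
    have huniq : ∀ y : degreeLT K H, N ∣ y.1 - e ↔ y.1 = e %ₘ N := by
      intro y
      have hy := y.2
      rw [mem_degreeLT] at hy
      constructor
      · intro h
        have h1 : y.1 %ₘ N = e %ₘ N := modByMonic_eq_of_dvd_sub hN h
        rw [← h1, (modByMonic_eq_self_iff hN).2]
        rw [degree_eq_natDegree hN.ne_zero]
        exact hy.trans (by exact_mod_cast hH)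
      · intro h
        rw [h]
        have := hre.neg_right
        rwa [neg_sub] at this
    by_cases hrH : (e %ₘ N).degree < ((H : ℕ) : WithBot ℕ)
    · have hsum : ∑ ξ : degreeLT K (N.natDegree - H), sg (lc N (ξ.1 * e)) =
          (Fintype.card K : ℝ) ^ (N.natDegree - H) := by
        have hz : ∀ ξ : degreeLT K (N.natDegree - H), sg (lc N (ξ.1 * e)) = 1 := by
          intro ξ
          have h1 := ξ.2
          rw [mem_degreeLT] at h1
          rw [hlc]
          by_cases hξ : ξ.1 = 0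
          · rw [hξ, zero_mul, lc_zero, sg_zero]
          by_cases hr0 : e %ₘ N = 0
          · rw [hr0, mul_zero, lc_zero, sg_zero]
          rw [degree_eq_natDegree hξ] at h1
          rw [degree_eq_natDegree hr0] at hrH
          have h2 : ξ.1.natDegree < N.natDegree - H := by exact_mod_cast h1
          have h3 : (e %ₘ N).natDegree < H := by exact_mod_cast hrH
          rw [lc_small hN _ (by
            have := natDegree_mul_le (p := ξ.1) (q := e %ₘ N)
            omega), sg_zero]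
        rw [Finset.sum_congr rfl fun ξ _ => hz ξ, Finset.sum_const, Finset.card_univ, card_PT]
        simp
      have hcard : ((Finset.univ : Finset (degreeLT K H)).filter (fun y => N ∣ y.1 - e)).card =
          1 := by
        rw [Finset.card_eq_one]
        refine ⟨⟨e %ₘ N, by rw [mem_degreeLT]; exact hrH⟩, ?_⟩
        ext y
        rw [Finset.mem_filter, Finset.mem_singleton, huniq]
        simp only [Finset.mem_univ, true_and]
        exact ⟨fun h => Subtype.ext h, fun h => congrArg Subtype.val h⟩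
      rw [hsum, hcard, ← Real.rpow_natCast, ← Real.rpow_add hq0, Nat.cast_sub hH.le]
      simp
    · have hsum : ∑ ξ : degreeLT K (N.natDegree - H), sg (lc N (ξ.1 * e)) = 0 := by
        apply sum_sg (degreeLT K (N.natDegree - H)) (fun ξ => lc N (ξ * e))
        · intro x y
          simp only [add_mul]
          exact lc_add _ _ _
        · intro t x
          simp only [mul_assoc]
          exact lc_smul _ _ _
        · have hr0 : e %ₘ N ≠ 0 := by
            intro h0
            apply hrH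
            rw [h0, degree_zero]
            exact WithBot.bot_lt_coe _
          rw [degree_eq_natDegree hr0] at hr hrH
          have h1 : (e %ₘ N).natDegree < N.natDegree := by exact_mod_cast hr
          have h2 : H ≤ (e %ₘ N).natDegree := by
            by_contra hlt
            exact hrH (by exact_mod_cast not_le.1 hlt)
          refine ⟨X ^ (N.natDegree - 1 - (e %ₘ N).natDegree), ?_, ?_⟩
          · rw [mem_degreeLT, degree_X_pow]
            exact_mod_cast (by omega : N.natDegree - 1 - (e %ₘ N).natDegree < N.natDegree - H)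
          · rw [hlc, lc_of_deg hN, X_pow_mul, coeff_mul_X_pow']
            · rw [if_pos (by omega)]
              have h3 : N.natDegree - 1 - (N.natDegree - 1 - (e %ₘ N).natDegree) =
                  (e %ₘ N).natDegree := by omega
              rw [h3]
              exact leadingCoeff_ne_zero.2 hr0
            · have := natDegree_mul_le (p := (X : K[X]) ^ (N.natDegree - 1 - (e %ₘ N).natDegree))
                (q := e %ₘ N)
              rw [natDegree_X_pow] at this
              omega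
      have hcard : ((Finset.univ : Finset (degreeLT K H)).filter (fun y => N ∣ y.1 - e)).card =
          0 := by
        rw [Finset.card_eq_zero, Finset.filter_eq_empty_iff]
        intro y _ h
        apply hrH
        have h1 := (huniq y).1 h
        rw [← h1]
        have := y.2
        rwa [mem_degreeLT] at this
      rw [hsum, hcard]
      simp

/-! ### The count for one divisor -/

theorem count [CharP K 2] {γ : K} {b M a₀ α g : K[X]} {d : ℕ} (hU : DatU γ b M a₀ α g d) (l : ℕ)
    {D : K[X]} (hD : D.Monic) (hs : Squarefree D) (hc : IsCoprime D M) :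
    (((AsU K d M a₀ g l).filter (fun a => D ∣ ga γ b α a)).card : ℝ) =
      (Fintype.card K : ℝ) ^ (((d - l : ℕ) : ℝ) - (D * M).natDegree) *
        ∑ ξ : degreeLT K ((D * M).natDegree - (d - l)),
          sg (lc (D * M) (ξ.1 * (rho γ b M a₀ D - g))) := by
  have hDat := hU.dat
  have hM := hDat.hM
  rw [← detect (hD.mul hM)]
  norm_cast
  have hmem : ∀ y : K[X], y ∈ degreeLT K (d - l) → g + y ∈ Mn K d := by
    intro y hy
    rw [mem_degreeLT] at hy
    have h1 : y.degree < g.degree := by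
      rw [degree_eq_natDegree hU.hg.ne_zero, hU.hd]
      exact hy.trans_le (by exact_mod_cast Nat.sub_le d l)
    rw [Pool.Agent.H694.Typ.mem_Mn]
    exact ⟨hU.hg.add_of_left h1, by rw [natDegree_add_eq_left_of_degree_lt h1, hU.hd]⟩
  have himg : (AsU K d M a₀ g l).filter (fun a => D ∣ ga γ b α a) =
      ((Finset.univ : Finset (degreeLT K (d - l))).filter
        (fun y => D * M ∣ y.1 - (rho γ b M a₀ D - g))).image (fun y => g + y.1) := by
    ext a
    rw [Finset.mem_filter, Finset.mem_image]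
    unfold AsU As
    rw [Finset.mem_filter, Finset.mem_filter]
    constructor
    · rintro ⟨⟨⟨ha, haM⟩, hag⟩, hDa⟩
      have h1 := (hDat.dvd_ga_iff haM D).1 hDa
      have h2 := (class_iff γ b a₀ hM hD hs hc a).1 ⟨haM, h1.1⟩
      refine ⟨⟨a - g, by rw [mem_degreeLT]; exact hag⟩, ?_, by
        show g + (a - g) = a
        ring⟩
      rw [Finset.mem_filter]
      refine ⟨Finset.mem_univ _, ?_⟩
      show D * M ∣ a - g - (rho γ b M a₀ D - g)
      have e : a - g - (rho γ b M a₀ D - g) = a - rho γ b M a₀ D := by ring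
      rw [e]
      exact h2
    · rintro ⟨y, hy, rfl⟩
      rw [Finset.mem_filter] at hy
      have e : y.1 - (rho γ b M a₀ D - g) = g + y.1 - rho γ b M a₀ D := by ring
      have h2 := hy.2
      rw [e] at h2
      obtain ⟨h3, h4⟩ := (class_iff γ b a₀ hM hD hs hc (g + y.1)).2 h2
      refine ⟨⟨⟨hmem y.1 y.2, h3⟩, ?_⟩, (hDat.dvd_ga_iff h3 D).2 ⟨h4, hc⟩⟩
      rw [add_sub_cancel_left]
      have := y.2
      rwa [mem_degreeLT] at this
  rw [himg, Finset.card_image_of_injective]
  intro y y' h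
  exact Subtype.ext (add_left_cancel h)

theorem count_zero [CharP K 2] {γ : K} {b M a₀ α g : K[X]} {d : ℕ} (hU : DatU γ b M a₀ α g d)
    (l : ℕ) {D : K[X]} (hc : ¬ IsCoprime D M) :
    (((AsU K d M a₀ g l).filter (fun a => D ∣ ga γ b α a)).card : ℝ) = 0 := by
  norm_cast
  rw [Finset.card_eq_zero, Finset.filter_eq_empty_iff]
  intro a ha hDa
  unfold AsU As at ha
  rw [Finset.mem_filter, Finset.mem_filter] at ha
  exact hc ((hU.dat.dvd_ga_iff ha.1.2 D).1 hDa).2

theorem mob_zero {D : K[X]} (h : ¬ Squarefree D) : mob D = 0 := by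
  unfold mob
  rw [if_neg h]

/-- the sum as a sum over the frequencies -/
theorem sum_eq [CharP K 2] {γ : K} {b M a₀ α g : K[X]} {d : ℕ} (hU : DatU γ b M a₀ α g d)
    (l n : ℕ) :
    ∑ a ∈ AsU K d M a₀ g l, ∑ D ∈ (Mn K n).filter (fun D => D ∣ ga γ b α a), (mob D : ℝ) =
      (Fintype.card K : ℝ) ^ (((d - l : ℕ) : ℝ) - (n + M.natDegree : ℕ)) *
        ∑ ξ : degreeLT K (n + M.natDegree - (d - l)),
          ∑ D ∈ Mn K n, sg (lc (D * M) (ξ.1 * g)) * pAx γ b M a₀ ξ.1 D := by
  have h1 : ∑ a ∈ AsU K d M a₀ g l, ∑ D ∈ (Mn K n).filter (fun D => D ∣ ga γ b α a), (mob D : ℝ) =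
      ∑ D ∈ Mn K n, (mob D : ℝ) *
        (((AsU K d M a₀ g l).filter (fun a => D ∣ ga γ b α a)).card : ℝ) := by
    have h2 : ∀ a ∈ AsU K d M a₀ g l, ∑ D ∈ (Mn K n).filter (fun D => D ∣ ga γ b α a), (mob D : ℝ) =
        ∑ D ∈ Mn K n, if D ∣ ga γ b α a then (mob D : ℝ) else 0 := fun a _ =>
      Finset.sum_filter _ _
    rw [Finset.sum_congr rfl h2, Finset.sum_comm]
    apply Finset.sum_congr rfl
    intro D _
    rw [← Finset.sum_filter, Finset.sum_const, nsmul_eq_mul, mul_comm]
  rw [h1, Finset.sum_comm, Finset.mul_sum]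
  apply Finset.sum_congr rfl
  intro D hD
  have hD' := Pool.Agent.H694.Typ.mem_Mn.1 hD
  by_cases hs : Squarefree D
  swap
  · have h3 : ∀ ξ : degreeLT K (n + M.natDegree - (d - l)),
        sg (lc (D * M) (ξ.1 * g)) * pAx γ b M a₀ ξ.1 D = 0 := by
      intro ξ
      unfold pAx
      split_ifs
      · rw [mob_zero hs]; simp
      · rw [mul_zero]
    rw [mob_zero hs, Finset.sum_congr rfl fun ξ _ => h3 ξ, Finset.sum_const_zero]
    simp
  by_cases hc : IsCoprime D M
  swap
  · have h3 : ∀ ξ : degreeLT K (n + M.natDegree - (d - l)),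
        sg (lc (D * M) (ξ.1 * g)) * pAx γ b M a₀ ξ.1 D = 0 := by
      intro ξ
      unfold pAx
      rw [if_neg hc, mul_zero]
    rw [count_zero hU l hc, Finset.sum_congr rfl fun ξ _ => h3 ξ, Finset.sum_const_zero]
    simp
  rw [count hU l hD'.1 hs hc]
  have hdeg : (D * M).natDegree = n + M.natDegree := by
    rw [hD'.1.natDegree_mul hU.dat.hM, hD'.2]
  rw [hdeg, mul_left_comm]
  congr 1
  rw [Finset.mul_sum]
  apply Finset.sum_congr rfl
  intro ξ _
  unfold pAx
  rw [if_pos hc]
  have e : ξ.1 * (rho γ b M a₀ D - g) = ξ.1 * rho γ b M a₀ D + ξ.1 * g := by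
    have h2 : (2 : K[X]) = 0 := CharTwo.two_eq_zero
    linear_combination (-(ξ.1 * g)) * h2
  rw [e, lc_add, sg_add]
  ring

/-- the weight depends only on the leading coefficients -/
theorem lc_lead {M g ξ A A' : K[X]} {n d : ℕ} (hM : M.Monic)
    (hgd : g.natDegree = d) (hA : A.Monic) (hA' : A'.Monic) (hAn : A.natDegree = n)
    (hAn' : A'.natDegree = n)
    (h : ξ ≠ 0 → ξ.natDegree + d + (A - A').natDegree + 1 < 2 * n + M.natDegree) :
    lc (A * M) (ξ * g) = lc (A' * M) (ξ * g) := by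
  by_cases hξ : ξ = 0
  · rw [hξ, zero_mul, lc_zero, lc_zero]
  have hAM := hA.mul hM
  have hAM' := hA'.mul hM
  rw [← lc_mul hAM hA' (ξ * g), ← lc_mul hAM' hA (ξ * g)]
  have e1 : A' * M * A = A * M * A' := by ring
  rw [e1, ← sub_eq_zero, ← lc_sub]
  apply lc_small (hAM.mul hA')
  have e2 : ξ * g * A' - ξ * g * A = -(ξ * g * (A - A')) := by ring
  rw [e2, natDegree_neg]
  have h1 : (A * M * A').natDegree = 2 * n + M.natDegree := by
    rw [hAM.natDegree_mul hA', hA.natDegree_mul hM, hAn, hAn']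
    ring
  have h2 : (ξ * g * (A - A')).natDegree ≤ ξ.natDegree + d + (A - A').natDegree := by
    refine natDegree_mul_le.trans (add_le_add_left ?_ _)
    refine natDegree_mul_le.trans (add_le_add_right ?_ _)
    exact hgd.le
  have := h hξ
  omega

end base

end NearPL

open NearPL

/-- **Task NEARP.** -/
theorem nearp (hw : S_wsum) : S_nearp := by
  intro K _ _ _
  obtain ⟨c₁, θ₁, hc₁, hθ₁, n₀, hw⟩ := hw K
  have hq : (2 : ℝ) ≤ (Fintype.card K : ℝ) := Pool.Agent.H694.Typ.q_ge
  obtain ⟨q, hqdef⟩ : ∃ q : ℝ, q = (Fintype.card K : ℝ) := ⟨_, rfl⟩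
  have hq0 : 0 < q := by rw [hqdef]; linarith
  have hq1 : 1 ≤ q := by rw [hqdef]; linarith
  obtain ⟨c₂, hc₂⟩ : ∃ c₂, c₂ = min c₁ (1 / 2) := ⟨_, rfl⟩
  have hc₂0 : 0 < c₂ := by rw [hc₂]; positivity
  have hc₂1 : c₂ ≤ c₁ := by rw [hc₂]; exact min_le_left _ _
  have hc₂2 : c₂ ≤ 1 / 2 := by rw [hc₂]; exact min_le_right _ _
  obtain ⟨θ, hθ⟩ : ∃ θ, θ = min (θ₁ / 8) (c₂ / 8) := ⟨_, rfl⟩
  have hθ0 : 0 < θ := by rw [hθ]; positivity
  have hθa : θ ≤ θ₁ / 8 := by rw [hθ]; exact min_le_left _ _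
  have hθb : θ ≤ c₂ / 8 := by rw [hθ]; exact min_le_right _ _
  have hθc : θ ≤ 1 / 16 := by linarith
  refine ⟨c₂ / 2, θ, by positivity, hθ0, max (2 * n₀) ⌈8 / θ₁⌉₊, ?_⟩
  intro γ b M a₀ α g l d n hU hd hnd hMl
  have hd1 : 2 * n₀ ≤ d := (le_max_left _ _).trans hd
  have hd2 : 8 / θ₁ ≤ (d : ℝ) := (Nat.le_ceil _).trans (by exact_mod_cast (le_max_right _ _).trans hd)
  have hd0 : (0 : ℝ) ≤ d := Nat.cast_nonneg d
  obtain ⟨hn1, hn2⟩ := abs_le.1 hnd
  have hθd : θ * d ≤ d / 16 := by
    have := mul_le_mul_of_nonneg_right hθc hd0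
    linarith
  have hnlow : (d : ℝ) / 2 ≤ n := by linarith
  have hn₀ : n₀ ≤ n := by
    have h1 : ((2 * n₀ : ℕ) : ℝ) ≤ d := by exact_mod_cast hd1
    have h2 : (n₀ : ℝ) ≤ n := by push_cast at h1; linarith
    exact_mod_cast h2
  have hθn : 4 * (θ * d) ≤ θ₁ * n := by
    have h1 : θ * d ≤ θ₁ / 8 * d := mul_le_mul_of_nonneg_right hθa hd0
    have h2 : θ₁ * (d / 2) ≤ θ₁ * n := mul_le_mul_of_nonneg_left hnlow hθ₁.le
    linarith
  have hθn2 : 4 ≤ θ₁ * n := by
    rw [div_le_iff₀ hθ₁] at hd2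
    have h2 : θ₁ * (d / 2) ≤ θ₁ * n := mul_le_mul_of_nonneg_left hnlow hθ₁.le
    linarith
  push_cast at hMl
  have hM0 : (0 : ℝ) ≤ M.natDegree := Nat.cast_nonneg _
  have hl0 : (0 : ℝ) ≤ l := Nat.cast_nonneg _
  have hld : l ≤ d := by
    have : (l : ℝ) ≤ d := by linarith
    exact_mod_cast this
  have hMn : (M.natDegree : ℝ) ≤ θ₁ * n := by linarith
  rw [sum_eq hU l n]
  have key : ∀ ξ : degreeLT K (n + M.natDegree - (d - l)),
      |∑ D ∈ Mn K n, sg (lc (D * M) (ξ.1 * g)) * pAx γ b M a₀ ξ.1 D| ≤ q ^ ((1 - c₁) * n) := by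
    intro ξ
    have hξd : ξ.1 ≠ 0 → ξ.1.natDegree < n + M.natDegree - (d - l) := by
      intro h0
      have h1 := ξ.2
      rw [mem_degreeLT, degree_eq_natDegree h0] at h1
      exact_mod_cast h1
    have hξ1 : (ξ.1.natDegree : ℝ) ≤ θ₁ * n := by
      by_cases h0 : ξ.1 = 0
      · rw [h0, natDegree_zero, Nat.cast_zero]
        positivity
      · have h1 := hξd h0
        have h2 : ξ.1.natDegree + d ≤ n + M.natDegree + l := by omega
        have h3 : (ξ.1.natDegree : ℝ) + d ≤ n + M.natDegree + l := by exact_mod_cast h2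
        linarith
    have h5 := hw γ b M a₀ α ξ.1 n (fun D => sg (lc (D * M) (ξ.1 * g))) hn₀ hU.dat hMn hξ1
      (fun A => (Pool.Agent.H985.KP.Loc2.sg_abs _).le) (by
        intro A A' hA hA' hAn hAn' hAA
        have hAA' : (A - A').natDegree + l + 1 ≤ n := by
          have h6 : ((A - A').natDegree : ℝ) + l + 1 ≤ n := by linarith
          exact_mod_cast h6
        show sg (lc (A * M) (ξ.1 * g)) = sg (lc (A' * M) (ξ.1 * g))
        rw [lc_lead hU.dat.hM hU.hd hA hA' hAn hAn' (fun h0 => by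
          have h1 := hξd h0
          omega)])
    rw [← hqdef] at h5
    exact h5
  rw [← hqdef, abs_mul, abs_of_nonneg (Real.rpow_nonneg hq0.le _)]
  have hsum : |∑ ξ : degreeLT K (n + M.natDegree - (d - l)),
      ∑ D ∈ Mn K n, sg (lc (D * M) (ξ.1 * g)) * pAx γ b M a₀ ξ.1 D| ≤
      q ^ (n + M.natDegree - (d - l)) * q ^ ((1 - c₁) * n) := by
    refine (Finset.abs_sum_le_sum_abs _ _).trans ((Finset.sum_le_sum fun ξ _ => key ξ).trans ?_)
    rw [Finset.sum_const, Finset.card_univ, card_PT, nsmul_eq_mul, Nat.cast_pow, ← hqdef]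
  refine (mul_le_mul_of_nonneg_left hsum (Real.rpow_nonneg hq0.le _)).trans ?_
  rw [← Real.rpow_natCast q (n + M.natDegree - (d - l)), ← Real.rpow_add hq0, ← Real.rpow_add hq0]
  apply Real.rpow_le_rpow_of_exponent_le hq1
  have hdl : ((d - l : ℕ) : ℝ) = d - l := by push_cast [Nat.cast_sub hld]; ring
  have hexp : ((d - l : ℕ) : ℝ) - ((n + M.natDegree : ℕ) : ℝ) +
      ((n + M.natDegree - (d - l) : ℕ) : ℝ) ≤ θ * d := by
    rcases le_total (d - l) (n + M.natDegree) with h | h
    · rw [Nat.cast_sub h]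
      have : 0 ≤ θ * d := by positivity
      linarith
    · rw [Nat.sub_eq_zero_of_le h, hdl]
      push_cast
      linarith
  have h1 : (1 - c₁) * (n : ℝ) ≤ (1 - c₂) * n :=
    mul_le_mul_of_nonneg_right (by linarith) (Nat.cast_nonneg n)
  have h2 : (1 - c₂) * (n : ℝ) ≤ (1 - c₂) * (d + θ * d) :=
    mul_le_mul_of_nonneg_left (by linarith) (by linarith)
  have h3 : (1 - c₂) * (θ * d) ≤ θ * d := by
    have : 0 ≤ c₂ * (θ * d) := by positivity
    linarith
  have h4 : θ * d ≤ c₂ / 8 * d := mul_le_mul_of_nonneg_right hθb hd0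
  have h5 : 0 ≤ c₂ * d := by positivity
  linarith

end Pool.Agent.H604.LD

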