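import Mathlib
import Pool.Agent.H604.LD.StmP

/-!
# Task COV (helper118): the covering lemma, exact second moment
-/

namespace Pool.Agent.H604.LD

open Polynomial
open scoped Classical
open Pool.Agent.H694.Typ (Mn mem_Mn card_Mn pol pol_coeff pol_degree coprime_of_ne)

namespace Cov

variable {K : Type} [Field K]

/-- all fibres of a surjective additive map that kills the multiples of `D` have the same size -/
lemma fiber [Fintype K] {W : Type} [AddCommGroup W] [Fintype W] (ψ : K[X] →+ W) (n : ℕ)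
    (D : K[X]) (hD : D.Monic) (hdeg : D.natDegree ≤ n) (h0 : ∀ c, ψ (D * c) = 0)
    (hs : Function.Surjective ψ) :
    ((Mn K n).filter (fun A => ψ A = 0)).card * Fintype.card W = Fintype.card K ^ n := by
  have h1 : ∀ w : W, ((Mn K n).filter (fun A => ψ A = 0)).card =
      ((Mn K n).filter (fun A => ψ A = w)).card := by
    intro w
    obtain ⟨g, hg⟩ := hs w
    have hg2 : ψ (g %ₘ D) = w := by
      have e := modByMonic_add_div g D
      have e2 : ψ (g %ₘ D + D * (g /ₘ D)) = w := by rw [e, hg]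
      rw [map_add, h0, add_zero] at e2
      exact e2
    have hdg : (g %ₘ D).degree < (n : WithBot ℕ) := by
      refine lt_of_lt_of_le (degree_modByMonic_lt g hD) ?_
      rw [degree_eq_natDegree hD.ne_zero]
      exact_mod_cast hdeg
    have hadd : ∀ A r : K[X], A ∈ Mn K n → r.degree < (n : WithBot ℕ) → A + r ∈ Mn K n := by
      intro A r hA hr
      rw [mem_Mn] at hA ⊢
      have h3 : r.degree < A.degree := by
        rw [degree_eq_natDegree hA.1.ne_zero, hA.2]
        exact hr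
      exact ⟨hA.1.add_of_left h3, by rw [natDegree_add_eq_left_of_degree_lt h3, hA.2]⟩
    apply Finset.card_bij' (fun A _ => A + g %ₘ D) (fun A _ => A + -(g %ₘ D))
    · intro A hA
      rw [Finset.mem_filter] at hA ⊢
      refine ⟨hadd A _ hA.1 hdg, ?_⟩
      rw [map_add, hA.2, zero_add, hg2]
    · intro A hA
      rw [Finset.mem_filter] at hA ⊢
      refine ⟨hadd A _ hA.1 (by rw [degree_neg]; exact hdg), ?_⟩
      rw [map_add, map_neg, hA.2, hg2, add_neg_cancel]
    · intro A _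
      ring
    · intro A _
      ring
  have h2 : (Mn K n).card = ∑ w ∈ (Finset.univ : Finset W),
      ((Mn K n).filter (fun A => ψ A = w)).card :=
    Finset.card_eq_sum_card_fiberwise (fun A _ => Finset.mem_coe.2 (Finset.mem_univ _))
  rw [card_Mn] at h2
  rw [h2, Finset.sum_congr rfl (fun w _ => (h1 w).symm), Finset.sum_const, smul_eq_mul,
    Finset.card_univ, mul_comm]

lemma fiber' [Fintype K] {W : Type} [AddCommGroup W] [Fintype W] (ψ : K[X] →+ W) (n : ℕ)
    (D : K[X]) (hD : D.Monic) (hdeg : D.natDegree ≤ n) (h0 : ∀ c, ψ (D * c) = 0)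
    (hs : Function.Surjective ψ) (E : Finset K[X])
    (hE : ∀ A, A ∈ E ↔ A ∈ Mn K n ∧ ψ A = 0) :
    E.card * Fintype.card W = Fintype.card K ^ n := by
  have h : E = (Mn K n).filter (fun A => ψ A = 0) := by
    ext A
    rw [hE, Finset.mem_filter]
  rw [h]
  exact fiber ψ n D hD hdeg h0 hs

/-- the coefficients of `(m A)'` modulo `P` -/
noncomputable def ps (P m : K[X]) (a : ℕ) : K[X] →+ (Fin a → K) where
  toFun A i := ((derivative (m * A)) %ₘ P).coeff i
  map_zero' := by
    funext i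
    simp
  map_add' A B := by
    funext i
    simp only [mul_add, derivative_add, add_modByMonic, coeff_add, Pi.add_apply]

lemma ps_zero {P m : K[X]} {a : ℕ} (hP : P.Monic) (ha : P.natDegree = a) (A : K[X]) :
    ps P m a A = 0 ↔ P ∣ derivative (m * A) := by
  rw [← modByMonic_eq_zero_iff_dvd hP]
  constructor
  · intro h
    ext i
    by_cases hi : i < a
    · have := congrFun h ⟨i, hi⟩
      simpa [ps] using this
    · rw [coeff_zero]
      apply coeff_eq_zero_of_degree_lt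
      refine lt_of_lt_of_le (degree_modByMonic_lt _ hP) ?_
      rw [degree_eq_natDegree hP.ne_zero, ha]
      exact_mod_cast not_lt.1 hi
  · intro h
    funext i
    show ((derivative (m * A)) %ₘ P).coeff i = 0
    rw [h, coeff_zero]

lemma ps_eq {P m : K[X]} {a : ℕ} (hP : P.Monic) (ha : P.natDegree = a) (A : K[X])
    (c : Fin a → K) (h : P ∣ derivative (m * A) - pol c) : ps P m a A = c := by
  funext i
  show ((derivative (m * A)) %ₘ P).coeff i = c i
  have h1 : (derivative (m * A)) %ₘ P = pol c := by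
    rw [modByMonic_eq_of_dvd_sub hP h, modByMonic_eq_self_iff hP, degree_eq_natDegree hP.ne_zero,
      ha]
    exact pol_degree c
  rw [h1, pol_coeff]

lemma ps_kill {P m : K[X]} {a : ℕ} (hP : P.Monic) (ha : P.natDegree = a) (c : K[X]) :
    ps P m a (P ^ 2 * c) = 0 := by
  rw [ps_zero hP ha]
  refine ⟨derivative P * (m * c) + derivative P * (m * c) + P * derivative (m * c), ?_⟩
  have e1 : derivative (P * (m * c)) = derivative P * (m * c) + P * derivative (m * c) :=
    derivative_mul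
  rw [show m * (P ^ 2 * c) = P * (P * (m * c)) by ring, derivative_mul, e1]
  ring

/-- `(m A)'` takes all values modulo `P` -/
lemma onto1 {P m : K[X]} (h : IsCoprime (m * derivative P) P) (r : K[X]) :
    ∃ A : K[X], P ∣ derivative (m * A) - r := by
  obtain ⟨s, t, hst⟩ := h
  refine ⟨P * (s * r), derivative (m * (s * r)) - t * r, ?_⟩
  rw [show m * (P * (s * r)) = P * (m * (s * r)) by ring, derivative_mul]
  linear_combination r * hst

/-- `((m₁ A)', (m₂ A)')` takes all values modulo `P` -/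
lemma onto2 {P m₁ m₂ : K[X]} (h : IsCoprime (derivative P) P)
    (hd : IsCoprime (derivative m₁ * m₂ - m₁ * derivative m₂) P) (r₁ r₂ : K[X]) :
    ∃ A : K[X], P ∣ derivative (m₁ * A) - r₁ ∧ P ∣ derivative (m₂ * A) - r₂ := by
  obtain ⟨s, t, hst⟩ := hd
  obtain ⟨s', t', hst'⟩ := h
  obtain ⟨α, hα⟩ : ∃ α : K[X], α = s * (m₂ * r₁ - m₁ * r₂) := ⟨_, rfl⟩
  obtain ⟨β, hβ⟩ : ∃ β : K[X], β = s * (derivative m₁ * r₂ - derivative m₂ * r₁) := ⟨_, rfl⟩
  obtain ⟨B, hB⟩ : ∃ B : K[X], B = s' * (β - derivative α) := ⟨_, rfl⟩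
  have e1 : derivative m₁ * α + m₁ * β - r₁ = -(t * P * r₁) := by
    rw [hα, hβ]
    linear_combination r₁ * hst
  have e2 : derivative m₂ * α + m₂ * β - r₂ = -(t * P * r₂) := by
    rw [hα, hβ]
    linear_combination r₂ * hst
  have e3 : derivative P * B + derivative α - β = -(t' * P * (β - derivative α)) := by
    rw [hB]
    linear_combination (β - derivative α) * hst'
  refine ⟨α + P * B, ⟨derivative m₁ * B + m₁ * derivative B - m₁ * t' * (β - derivative α) -
    t * r₁, ?_⟩, ⟨derivative m₂ * B + m₂ * derivative B - m₂ * t' * (β - derivative α) -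
    t * r₂, ?_⟩⟩
  · rw [derivative_mul, derivative_add, derivative_mul]
    linear_combination e1 + m₁ * e3
  · rw [derivative_mul, derivative_add, derivative_mul]
    linear_combination e2 + m₂ * e3

lemma sep [Fintype K] {P : K[X]} (hP : Irreducible P) : IsCoprime P (derivative P) :=
  PerfectField.separable_of_irreducible hP

lemma cop_deg {P m : K[X]} (hP : Irreducible P) (hm : m ≠ 0) (h : m.natDegree < P.natDegree) :
    IsCoprime m P := by
  rw [isCoprime_comm]
  refine (hP.coprime_iff_not_dvd).2 fun hd => ?_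
  exact absurd (natDegree_le_of_dvd hd hm) (not_le.2 h)

/-- one condition -/
lemma count1 [Fintype K] {P m : K[X]} {n a u : ℕ} (hP : P.Monic) (hPi : Irreducible P)
    (ha : P.natDegree = a) (hm : m.Monic) (hu : m.natDegree = u) (hua : u < a)
    (han : 2 * a ≤ n) :
    ((Mn K n).filter (fun A => P ∣ derivative (m * A))).card * Fintype.card K ^ a =
      Fintype.card K ^ n := by
  have h := fiber' (ps P m a) n (P ^ 2) (hP.pow 2) (by rw [hP.natDegree_pow, ha]; exact han)
    (fun c => ps_kill hP ha c) (by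
      intro c
      have hc : IsCoprime (m * derivative P) P :=
        IsCoprime.mul_left (cop_deg hPi hm.ne_zero (by omega)) (sep hPi).symm
      obtain ⟨A, hA⟩ := onto1 hc (pol c)
      exact ⟨A, ps_eq hP ha A c hA⟩)
    ((Mn K n).filter (fun A => P ∣ derivative (m * A)))
    (fun A => by rw [Finset.mem_filter, ps_zero hP ha])
  rw [Fintype.card_fun, Fintype.card_fin] at h
  exact h

/-- two conditions -/
lemma count2 [Fintype K] {P₁ P₂ m₁ m₂ : K[X]} {n a u : ℕ} (hP₁ : P₁.Monic)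
    (hP₁i : Irreducible P₁) (ha₁ : P₁.natDegree = a) (hP₂ : P₂.Monic)
    (hP₂i : Irreducible P₂) (ha₂ : P₂.natDegree = a) (hm₁ : m₁.Monic) (hm₁i : Irreducible m₁)
    (hu₁ : m₁.natDegree = u) (hm₂ : m₂.Monic) (hm₂i : Irreducible m₂)
    (hu₂ : m₂.natDegree = u) (hu : 1 ≤ u) (hua : 2 * u ≤ a) (han : 4 * a ≤ n)
    (hne : (m₁, P₁) ≠ (m₂, P₂)) :
    ((Mn K n).filter (fun A => P₁ ∣ derivative (m₁ * A) ∧ P₂ ∣ derivative (m₂ * A))).card *
      (Fintype.card K ^ a) ^ 2 = Fintype.card K ^ n := by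
  have h := fiber' ((ps P₁ m₁ a).prod (ps P₂ m₂ a)) n (P₁ ^ 2 * P₂ ^ 2)
    ((hP₁.pow 2).mul (hP₂.pow 2))
    (by
      rw [(hP₁.pow 2).natDegree_mul (hP₂.pow 2), hP₁.natDegree_pow, hP₂.natDegree_pow, ha₁, ha₂]
      omega)
    (by
      intro c
      rw [AddMonoidHom.prod_apply]
      have e1 : ps P₁ m₁ a (P₁ ^ 2 * P₂ ^ 2 * c) = 0 := by
        rw [mul_assoc]
        exact ps_kill hP₁ ha₁ _
      have e2 : ps P₂ m₂ a (P₁ ^ 2 * P₂ ^ 2 * c) = 0 := by
        rw [show P₁ ^ 2 * P₂ ^ 2 * c = P₂ ^ 2 * (P₁ ^ 2 * c) by ring]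
        exact ps_kill hP₂ ha₂ _
      rw [e1, e2]
      rfl)
    (by
      rintro ⟨c₁, c₂⟩
      by_cases hPP : P₁ = P₂
      · subst hPP
        have hmm : m₁ ≠ m₂ := by
          intro h
          exact hne (by rw [h])
        have hcm : IsCoprime m₁ m₂ := coprime_of_ne hm₁ hm₁i hm₂ hm₂i hmm
        have hd0 : derivative m₁ * m₂ - m₁ * derivative m₂ ≠ 0 := by
          intro h0
          have h1 : m₁ ∣ derivative m₁ * m₂ := ⟨derivative m₂, by linear_combination h0⟩
          have h2 : m₁ ∣ derivative m₁ := hcm.dvd_of_dvd_mul_right h1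
          exact hm₁i.not_isUnit ((sep hm₁i).isUnit_of_dvd' dvd_rfl h2)
        have hdd : (derivative m₁ * m₂ - m₁ * derivative m₂).natDegree < P₁.natDegree := by
          have k1 : (derivative m₁ * m₂).natDegree ≤ u - 1 + u := by
            refine natDegree_mul_le.trans ?_
            have := natDegree_derivative_le m₁
            omega
          have k2 : (m₁ * derivative m₂).natDegree ≤ u - 1 + u := by
            refine natDegree_mul_le.trans ?_
            have := natDegree_derivative_le m₂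
            omega
          have k3 := natDegree_sub_le (derivative m₁ * m₂) (m₁ * derivative m₂)
          have k4 := max_le k1 k2
          omega
        obtain ⟨A, hA1, hA2⟩ := onto2 (sep hP₁i).symm (cop_deg hP₁i hd0 hdd) (pol c₁) (pol c₂)
        refine ⟨A, ?_⟩
        rw [AddMonoidHom.prod_apply, ps_eq hP₁ ha₁ A c₁ hA1, ps_eq hP₁ ha₁ A c₂ hA2]
      · have hc : IsCoprime (P₁ ^ 2) (P₂ ^ 2) :=
          (coprime_of_ne hP₁ hP₁i hP₂ hP₂i hPP).pow
        obtain ⟨s, t, hst⟩ := hc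
        have hc₁ : IsCoprime (m₁ * derivative P₁) P₁ :=
          IsCoprime.mul_left (cop_deg hP₁i hm₁.ne_zero (by omega)) (sep hP₁i).symm
        have hc₂ : IsCoprime (m₂ * derivative P₂) P₂ :=
          IsCoprime.mul_left (cop_deg hP₂i hm₂.ne_zero (by omega)) (sep hP₂i).symm
        obtain ⟨A₁, hA₁⟩ := onto1 hc₁ (pol c₁)
        obtain ⟨A₂, hA₂⟩ := onto1 hc₂ (pol c₂)
        refine ⟨A₁ + P₁ ^ 2 * (s * (A₂ - A₁)), ?_⟩
        rw [AddMonoidHom.prod_apply]
        have e1 : ps P₁ m₁ a (A₁ + P₁ ^ 2 * (s * (A₂ - A₁))) = c₁ := by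
          rw [map_add, ps_kill hP₁ ha₁, add_zero, ps_eq hP₁ ha₁ A₁ c₁ hA₁]
        have e2 : ps P₂ m₂ a (A₁ + P₁ ^ 2 * (s * (A₂ - A₁))) = c₂ := by
          have e3 : A₁ + P₁ ^ 2 * (s * (A₂ - A₁)) = A₂ + P₂ ^ 2 * (-(t * (A₂ - A₁))) := by
            linear_combination (A₂ - A₁) * hst
          rw [e3, map_add, ps_kill hP₂ ha₂, add_zero, ps_eq hP₂ ha₂ A₂ c₂ hA₂]
        rw [e1, e2])
    ((Mn K n).filter (fun A => P₁ ∣ derivative (m₁ * A) ∧ P₂ ∣ derivative (m₂ * A)))
    (fun A => by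
      rw [Finset.mem_filter, AddMonoidHom.prod_apply, Prod.mk_eq_zero, ps_zero hP₁ ha₁,
        ps_zero hP₂ ha₂])
  rw [Fintype.card_prod, Fintype.card_fun, Fintype.card_fin, ← sq] at h
  exact h

lemma card_irr [Fintype K] (a : ℕ) : ((Irr K a).card : ℝ) ≤ (Fintype.card K : ℝ) ^ a := by
  have h : (Irr K a).card ≤ Fintype.card K ^ a := by
    rw [← card_Mn]
    exact Finset.card_le_card (Finset.filter_subset _ _)
  exact_mod_cast h

end Cov

/-- **COV.** -/
theorem cov : S_cov := by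
  intro K _ _ _ n a u hu hua han
  obtain ⟨q, hq⟩ : ∃ q : ℝ, q = (Fintype.card K : ℝ) := ⟨_, rfl⟩
  have hq0 : 0 < q := by
    rw [hq]
    exact_mod_cast Fintype.card_pos
  obtain ⟨I, hI⟩ : ∃ I : Finset (K[X] × K[X]), I = Irr K u ×ˢ Irr K a := ⟨_, rfl⟩
  obtain ⟨e, he⟩ : ∃ e : K[X] × K[X] → K[X] → ℝ,
    e = fun i A => if i.2 ∣ derivative (i.1 * A) then 1 else 0 := ⟨_, rfl⟩
  have hmem : ∀ i ∈ I, (i.1.Monic ∧ i.1.natDegree = u ∧ Irreducible i.1) ∧
      (i.2.Monic ∧ i.2.natDegree = a ∧ Irreducible i.2) := by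
    intro i hi
    rw [hI, Finset.mem_product] at hi
    obtain ⟨h1, h2⟩ := hi
    unfold Irr at h1 h2
    rw [Finset.mem_filter, mem_Mn] at h1 h2
    exact ⟨⟨h1.1.1, h1.1.2, h1.2⟩, ⟨h2.1.1, h2.1.2, h2.2⟩⟩
  have hcnt1 : ∀ i ∈ I, ∑ A ∈ Mn K n, e i A = q ^ n / q ^ a := by
    intro i hi
    obtain ⟨⟨h1, h2, h3⟩, ⟨h4, h5, h6⟩⟩ := hmem i hi
    have k := Cov.count1 (n := n) h4 h6 h5 h1 h2 (by omega) (by omega)
    rw [he]
    simp only
    rw [Finset.sum_boole, eq_div_iff (by positivity), hq]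
    exact_mod_cast k
  have hcnt2 : ∀ i ∈ I, ∀ j ∈ I, i ≠ j → ∑ A ∈ Mn K n, e i A * e j A = q ^ n / (q ^ a) ^ 2 := by
    intro i hi j hj hij
    obtain ⟨⟨h1, h2, h3⟩, ⟨h4, h5, h6⟩⟩ := hmem i hi
    obtain ⟨⟨h1', h2', h3'⟩, ⟨h4', h5', h6'⟩⟩ := hmem j hj
    have k := Cov.count2 (n := n) h4 h6 h5 h4' h6' h5' h1 h3 h2 h1' h3' h2' hu hua han
      (by intro h; exact hij h)
    have k2 : ∀ A, e i A * e j A = if (i.2 ∣ derivative (i.1 * A) ∧ j.2 ∣ derivative (j.1 * A))
        then 1 else 0 := by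
      intro A
      rw [he]
      simp only
      by_cases g1 : i.2 ∣ derivative (i.1 * A)
      · by_cases g2 : j.2 ∣ derivative (j.1 * A)
        · rw [if_pos g1, if_pos g2, if_pos ⟨g1, g2⟩, mul_one]
        · have g3 : ¬ (i.2 ∣ derivative (i.1 * A) ∧ j.2 ∣ derivative (j.1 * A)) :=
            fun h => g2 h.2
          rw [if_neg g2, if_neg g3, mul_zero]
      · have g3 : ¬ (i.2 ∣ derivative (i.1 * A) ∧ j.2 ∣ derivative (j.1 * A)) :=
          fun h => g1 h.1
        rw [if_neg g1, if_neg g3, zero_mul]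
    rw [Finset.sum_congr rfl fun A _ => k2 A, Finset.sum_boole, eq_div_iff (by positivity), hq]
    exact_mod_cast k
  have hesq : ∀ i A, e i A * e i A = e i A := by
    intro i A
    rw [he]
    simp only
    split_ifs <;> norm_num
  have hinner : ∀ A, ∑ m ∈ Irr K u, (cntP K a m A - lamP K a) = ∑ i ∈ I, (e i A - 1 / q ^ a) := by
    intro A
    rw [hI, Finset.sum_product]
    refine Finset.sum_congr rfl fun m _ => ?_
    rw [Finset.sum_sub_distrib, Finset.sum_const, nsmul_eq_mul]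
    unfold cntP lamP
    rw [he]
    simp only
    rw [Finset.sum_boole, hq]
    ring
  have hone : ∑ A ∈ Mn K n, (1 : ℝ) = q ^ n := by
    rw [Finset.sum_const, nsmul_eq_mul, mul_one, card_Mn, hq]
    push_cast
    rfl
  have hpair : ∀ i ∈ I, ∀ j ∈ I, ∑ A ∈ Mn K n, (e i A - 1 / q ^ a) * (e j A - 1 / q ^ a) =
      if i = j then q ^ n / q ^ a - q ^ n / (q ^ a) ^ 2 else 0 := by
    intro i hi j hj
    have k1 : ∑ A ∈ Mn K n, (e i A - 1 / q ^ a) * (e j A - 1 / q ^ a) =
        ∑ A ∈ Mn K n, e i A * e j A - 1 / q ^ a * ∑ A ∈ Mn K n, e i A -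
        1 / q ^ a * ∑ A ∈ Mn K n, e j A + 1 / q ^ a * (1 / q ^ a) * ∑ A ∈ Mn K n, (1 : ℝ) := by
      rw [Finset.mul_sum, Finset.mul_sum, Finset.mul_sum, ← Finset.sum_sub_distrib,
        ← Finset.sum_sub_distrib, ← Finset.sum_add_distrib]
      refine Finset.sum_congr rfl fun A _ => ?_
      ring
    rw [k1, hcnt1 i hi, hcnt1 j hj, hone]
    have hqa : q ^ a ≠ 0 := by positivity
    by_cases hij : i = j
    · rw [if_pos hij, ← hij, Finset.sum_congr rfl fun A _ => hesq i A, hcnt1 i hi]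
      field_simp
      ring
    · rw [if_neg hij, hcnt2 i hi j hj hij]
      field_simp
      ring
  have hsum : ∑ A ∈ Mn K n, (∑ m ∈ Irr K u, (cntP K a m A - lamP K a)) ^ 2 =
      (I.card : ℝ) * (q ^ n / q ^ a - q ^ n / (q ^ a) ^ 2) := by
    calc ∑ A ∈ Mn K n, (∑ m ∈ Irr K u, (cntP K a m A - lamP K a)) ^ 2
        = ∑ A ∈ Mn K n, ∑ i ∈ I, ∑ j ∈ I, (e i A - 1 / q ^ a) * (e j A - 1 / q ^ a) := by
          refine Finset.sum_congr rfl fun A _ => ?_
          rw [hinner, sq, Finset.sum_mul_sum]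
      _ = ∑ i ∈ I, ∑ j ∈ I, ∑ A ∈ Mn K n, (e i A - 1 / q ^ a) * (e j A - 1 / q ^ a) := by
          rw [Finset.sum_comm]
          refine Finset.sum_congr rfl fun i _ => ?_
          rw [Finset.sum_comm]
      _ = ∑ i ∈ I, ∑ j ∈ I, (if i = j then q ^ n / q ^ a - q ^ n / (q ^ a) ^ 2 else 0) :=
          Finset.sum_congr rfl fun i hi => Finset.sum_congr rfl fun j hj => hpair i hi j hj
      _ = ∑ i ∈ I, (q ^ n / q ^ a - q ^ n / (q ^ a) ^ 2) := by
          refine Finset.sum_congr rfl fun i hi => ?_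
          rw [Finset.sum_ite_eq, if_pos hi]
      _ = _ := by rw [Finset.sum_const, nsmul_eq_mul]
  rw [hsum, hI, Finset.card_product]
  push_cast
  have h1 : q ^ n / q ^ a - q ^ n / (q ^ a) ^ 2 ≤ q ^ n / q ^ a := by
    have : 0 ≤ q ^ n / (q ^ a) ^ 2 := by positivity
    linarith
  have h2 := Cov.card_irr (K := K) a
  rw [← hq] at h2 ⊢
  calc ((Irr K u).card : ℝ) * ((Irr K a).card : ℝ) * (q ^ n / q ^ a - q ^ n / (q ^ a) ^ 2)
      ≤ ((Irr K u).card : ℝ) * q ^ a * (q ^ n / q ^ a) := by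
        apply mul_le_mul _ h1 _ (by positivity)
        · exact mul_le_mul_of_nonneg_left h2 (by positivity)
        · rw [sub_nonneg]
          apply div_le_div_of_nonneg_left (by positivity) (by positivity)
          have h3 : 1 ≤ q ^ a := by
            apply one_le_pow₀
            rw [hq]
            exact_mod_cast Fintype.card_pos
          nlinarith
    _ = ((Irr K u).card : ℝ) * q ^ n := by
        field_simp

end Pool.Agent.H604.LD
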