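import Mathlib
import Pool.Agent.H604.LD.Stm

set_option autoImplicit false

namespace Pool.Agent.H604.LD

open Polynomial
open scoped Classical
open Pool.Agent.H985.Chow (mob)
open Pool.Agent.H694.Typ (Mn mem_Mn)

namespace Hid

section mob

variable {K : Type} [Field K]

theorem mob_eq (F : K[X]) : mob F = if Squarefree F then
    (-1) ^ Multiset.card (UniqueFactorizationMonoid.factors F) else 0 := rfl

theorem mob_of_not {F : K[X]} (h : ¬ Squarefree F) : mob F = 0 := by
  rw [mob_eq, if_neg h]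

theorem mob_mul_cop {F G : K[X]} (h : IsCoprime F G) : mob (F * G) = mob F * mob G := by
  by_cases hF : Squarefree F
  · by_cases hG : Squarefree G
    · have hFG : Squarefree (F * G) := squarefree_mul_iff.2 ⟨h.isRelPrime, hF, hG⟩
      rw [mob_eq, mob_eq, mob_eq, if_pos hF, if_pos hG, if_pos hFG, ← pow_add]
      congr 1
      rw [Multiset.card_eq_card_of_rel (UniqueFactorizationMonoid.factors_mul hF.ne_zero hG.ne_zero),
        Multiset.card_add]
    · rw [mob_of_not hG, mob_of_not, mul_zero]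
      exact fun h' => hG (squarefree_mul_iff.1 h').2.2
  · rw [mob_of_not hF, mob_of_not, zero_mul]
    exact fun h' => hF (squarefree_mul_iff.1 h').2.1

theorem mob_mul_self {F : K[X]} (h : Squarefree F) : mob F * mob F = 1 := by
  rw [mob_eq, if_pos h, ← mul_pow]
  norm_num

theorem mob_one : mob (1 : K[X]) = 1 := by
  rw [mob_eq, if_pos squarefree_one, UniqueFactorizationMonoid.factors_one, Multiset.card_zero,
    pow_zero]

theorem mob_irr {P : K[X]} (hP : Irreducible P) : mob P = -1 := by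
  rw [mob_eq, if_pos hP.squarefree, UniqueFactorizationMonoid.card_factors_of_irreducible hP,
    pow_one]

end mob

variable {K : Type} [Field K] [Fintype K]

/-- the monic divisors -/
noncomputable def Dv (f : K[X]) : Finset K[X] :=
  (Finset.range (f.natDegree + 1)).biUnion (fun j => (Mn K j).filter (fun D => D ∣ f))

theorem mem_Dv {f D : K[X]} (hf : f ≠ 0) : D ∈ Dv f ↔ D.Monic ∧ D ∣ f := by
  unfold Dv
  rw [Finset.mem_biUnion]
  constructor
  · rintro ⟨j, -, hD⟩
    rw [Finset.mem_filter, mem_Mn] at hD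
    exact ⟨hD.1.1, hD.2⟩
  · rintro ⟨h1, h2⟩
    refine ⟨D.natDegree, ?_, ?_⟩
    · rw [Finset.mem_range]
      have := natDegree_le_of_dvd h2 hf
      omega
    · rw [Finset.mem_filter, mem_Mn]
      exact ⟨⟨h1, rfl⟩, h2⟩

theorem sum_split {P g : K[X]} (hP : P.Monic) (hPi : Irreducible P) (hg : g.Monic) (hPg : ¬ P ∣ g)
    (φ : K[X] → ℝ) :
    ∑ D ∈ Dv (P * g), φ D = ∑ D ∈ Dv g, (φ D + φ (P * D)) := by
  have hPg0 : P * g ≠ 0 := mul_ne_zero hP.ne_zero hg.ne_zero
  have h1 : Dv (P * g) = Dv g ∪ (Dv g).image (fun D => P * D) := by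
    ext D
    rw [Finset.mem_union, Finset.mem_image, mem_Dv hPg0, mem_Dv hg.ne_zero]
    constructor
    · rintro ⟨hD, hdvd⟩
      by_cases hPD : P ∣ D
      · obtain ⟨D', rfl⟩ := hPD
        right
        refine ⟨D', ?_, rfl⟩
        rw [mem_Dv hg.ne_zero]
        exact ⟨hP.of_mul_monic_left hD, (mul_dvd_mul_iff_left hP.ne_zero).1 hdvd⟩
      · left
        refine ⟨hD, ?_⟩
        have hcop : IsCoprime D P := ((hPi.coprime_iff_not_dvd).2 hPD).symm
        exact hcop.dvd_of_dvd_mul_left hdvd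
    · rintro (⟨hD, hdvd⟩ | ⟨D', hD', rfl⟩)
      · exact ⟨hD, hdvd.mul_left P⟩
      · rw [mem_Dv hg.ne_zero] at hD'
        exact ⟨hP.mul hD'.1, mul_dvd_mul_left P hD'.2⟩
  have hdisj : Disjoint (Dv g) ((Dv g).image (fun D => P * D)) := by
    rw [Finset.disjoint_left]
    intro D hD hD'
    rw [Finset.mem_image] at hD'
    obtain ⟨D', -, rfl⟩ := hD'
    rw [mem_Dv hg.ne_zero] at hD
    exact hPg ((dvd_mul_right P D').trans hD.2)
  rw [h1, Finset.sum_union hdisj, Finset.sum_image, ← Finset.sum_add_distrib]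
  intro D _ D' _ h
  exact mul_left_cancel₀ hP.ne_zero h

theorem cop_of {P g : K[X]} (hPi : Irreducible P) (hPg : ¬ P ∣ g) {D : K[X]} (hD : D ∣ g) :
    IsCoprime P D :=
  (hPi.coprime_iff_not_dvd).2 fun h => hPg (h.trans hD)

theorem not_dvd_of_sqf {P g : K[X]} (hPi : Irreducible P) (h : Squarefree (P * g)) : ¬ P ∣ g := by
  intro hd
  exact hPi.not_isUnit (h P (mul_dvd_mul_left P hd))

theorem sum_mob_zero {f : K[X]} (hf : f.Monic) (hs : Squarefree f) (hd : 0 < f.natDegree) :
    ∑ D ∈ Dv f, (mob D : ℝ) = 0 := by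
  have hnu : ¬ IsUnit f := fun h => by
    rw [hf.isUnit_iff] at h
    rw [h, natDegree_one] at hd
    exact lt_irrefl 0 hd
  obtain ⟨P, hPi, hP, g, hg⟩ := exists_monic_irreducible_factor f hnu
  have hgm : g.Monic := by
    rw [hg] at hf
    exact hPi.of_mul_monic_left hf
  rw [hg] at hs ⊢
  have hPg := not_dvd_of_sqf hP hs
  rw [sum_split hPi hP hgm hPg]
  refine Finset.sum_eq_zero fun D hD => ?_
  rw [mem_Dv hgm.ne_zero] at hD
  rw [mob_mul_cop (cop_of hP hPg hD.2), mob_irr hP]
  push_cast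
  ring

/-- the total sum -/
theorem total (d : ℕ) {f : K[X]} (hd : 1 ≤ d) (hf : f.Monic) (hs : Squarefree f)
    (hdeg : f.natDegree = 2 * d) :
    ∑ D ∈ Dv f, (mob D : ℝ) * ((d : ℝ) - D.natDegree) =
      if Irreducible f then 2 * (d : ℝ) else 0 := by
  by_cases hi : Irreducible f
  · rw [if_pos hi]
    have h1 : Dv (1 : K[X]) = {1} := by
      ext D
      rw [mem_Dv one_ne_zero, Finset.mem_singleton]
      constructor
      · rintro ⟨h1, h2⟩
        exact (h1.isUnit_iff).1 (isUnit_of_dvd_one h2)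
      · rintro rfl
        exact ⟨monic_one, dvd_rfl⟩
    have h2 : f = f * 1 := (mul_one f).symm
    have hf1 : ¬ f ∣ 1 := fun h => hi.not_isUnit (isUnit_of_dvd_one h)
    have h3 := sum_split hf hi monic_one hf1 (fun D => (mob D : ℝ) * ((d : ℝ) - D.natDegree))
    rw [mul_one] at h3
    rw [h3, h1, Finset.sum_singleton, mul_one, mob_one, mob_irr hi, natDegree_one, hdeg]
    push_cast
    ring
  · rw [if_neg hi]
    have hnu : ¬ IsUnit f := fun h => by
      rw [hf.isUnit_iff] at h
      rw [h, natDegree_one] at hdeg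
      omega
    obtain ⟨P, hPi, hP, g, hg⟩ := exists_monic_irreducible_factor f hnu
    have hgm : g.Monic := by
      rw [hg] at hf
      exact hPi.of_mul_monic_left hf
    have hg0 : 0 < g.natDegree := by
      rw [Nat.pos_iff_ne_zero]
      intro h0
      have h1 : g = 1 := hgm.natDegree_eq_zero.1 h0
      rw [hg, h1, mul_one] at hi
      exact hi hP
    rw [hg] at hs ⊢
    have hPg := not_dvd_of_sqf hP hs
    have hgs : Squarefree g := (squarefree_mul_iff.1 hs).2.2
    rw [sum_split hPi hP hgm hPg]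
    have h1 : ∑ D ∈ Dv g, ((mob D : ℝ) * ((d : ℝ) - D.natDegree) +
        (mob (P * D) : ℝ) * ((d : ℝ) - (P * D).natDegree)) =
        (P.natDegree : ℝ) * ∑ D ∈ Dv g, (mob D : ℝ) := by
      rw [Finset.mul_sum]
      refine Finset.sum_congr rfl fun D hD => ?_
      rw [mem_Dv hgm.ne_zero] at hD
      rw [mob_mul_cop (cop_of hP hPg hD.2), mob_irr hP, hPi.natDegree_mul hD.1]
      push_cast
      ring
    rw [h1, sum_mob_zero hgm hgs hg0, mul_zero]

/-- the half sum -/
theorem halfsum (d : ℕ) {f : K[X]} (hf : f.Monic) (hdeg : f.natDegree = 2 * d) :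
    ∑ j ∈ Finset.range d, ((d : ℝ) - j) *
      ∑ D ∈ (Mn K j).filter (fun D => D ∣ f), (mob D : ℝ) =
    ∑ D ∈ Dv f, (if D.natDegree < d then (mob D : ℝ) * ((d : ℝ) - D.natDegree) else 0) := by
  unfold Dv
  rw [Finset.sum_biUnion, hdeg]
  · have h1 : ∀ j : ℕ, ∑ D ∈ (Mn K j).filter (fun D => D ∣ f),
        (if D.natDegree < d then (mob D : ℝ) * ((d : ℝ) - D.natDegree) else 0) =
        if j < d then ((d : ℝ) - j) * ∑ D ∈ (Mn K j).filter (fun D => D ∣ f), (mob D : ℝ)
          else 0 := by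
      intro j
      by_cases hj : j < d
      · rw [if_pos hj, Finset.mul_sum]
        refine Finset.sum_congr rfl fun D hD => ?_
        rw [Finset.mem_filter, mem_Mn] at hD
        rw [hD.1.2, if_pos hj, mul_comm]
      · rw [if_neg hj]
        refine Finset.sum_eq_zero fun D hD => ?_
        rw [Finset.mem_filter, mem_Mn] at hD
        rw [hD.1.2, if_neg hj]
    rw [Finset.sum_congr rfl fun j _ => h1 j]
    have hsub : Finset.range d ⊆ Finset.range (2 * d + 1) := by
      intro j hj
      rw [Finset.mem_range] at hj ⊢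
      omega
    rw [← Finset.sum_subset hsub]
    · refine Finset.sum_congr rfl fun j hj => ?_
      rw [if_pos (Finset.mem_range.1 hj)]
    · intro j _ hj
      rw [if_neg (fun h => hj (Finset.mem_range.2 h))]
  · intro i _ j _ hij
    rw [Function.onFun, Finset.disjoint_left]
    intro D hD hD'
    rw [Finset.mem_filter, mem_Mn] at hD hD'
    exact hij (hD.1.2.symm.trans hD'.1.2)

theorem invol (d : ℕ) {f : K[X]} (hf : f.Monic) (hs : Squarefree f) (hdeg : f.natDegree = 2 * d) :
    ∑ D ∈ Dv f, (if d < D.natDegree then (mob D : ℝ) * ((d : ℝ) - D.natDegree) else 0) =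
    -(mob f : ℝ) *
      ∑ D ∈ Dv f, (if D.natDegree < d then (mob D : ℝ) * ((d : ℝ) - D.natDegree) else 0) := by
  have hc : ∀ D ∈ Dv f, D * (f / D) = f := by
    intro D hD
    rw [mem_Dv hf.ne_zero] at hD
    exact EuclideanDomain.mul_div_cancel' hD.1.ne_zero hD.2
  have hm : ∀ D ∈ Dv f, f / D ∈ Dv f := by
    intro D hD
    have h1 := hc D hD
    rw [mem_Dv hf.ne_zero] at hD ⊢
    refine ⟨hD.1.of_mul_monic_left (by rw [h1]; exact hf), ?_⟩
    exact ⟨D, by rw [mul_comm]; exact h1.symm⟩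
  have hcc : ∀ D ∈ Dv f, f / (f / D) = D := by
    intro D hD
    have h1 := hc D hD
    have h2 := hc _ (hm D hD)
    have h3 := hm D hD
    rw [mem_Dv hf.ne_zero] at h3
    apply mul_left_cancel₀ h3.1.ne_zero
    rw [h2, mul_comm, h1]
  rw [Finset.mul_sum]
  refine Finset.sum_nbij' (fun D => f / D) (fun D => f / D) hm hm hcc hcc fun D hD => ?_
  have h1 := hc D hD
  have h3 := hm D hD
  rw [mem_Dv hf.ne_zero] at hD h3
  have hdg : D.natDegree + (f / D).natDegree = 2 * d := by
    rw [← hD.1.natDegree_mul h3.1, h1, hdeg]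
  have hsq : Squarefree (D * (f / D)) := by
    rw [h1]
    exact hs
  have hs2 := squarefree_mul_iff.1 hsq
  have hmob : mob f = mob D * mob (f / D) := by
    conv_lhs => rw [← h1]
    exact mob_mul_cop hs2.1.isCoprime
  have hmob2 : (mob D : ℝ) = (mob f : ℝ) * (mob (f / D) : ℝ) := by
    have h4 := mob_mul_self hs2.2.2
    have h5 : mob D = mob f * mob (f / D) := by
      rw [hmob, mul_assoc, h4, mul_one]
    exact_mod_cast h5
  by_cases h : d < D.natDegree
  · have h' : (f / D).natDegree < d := by omega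
    rw [if_pos h, if_pos h', hmob2]
    have h6 : (D.natDegree : ℝ) + ((f / D).natDegree : ℝ) = 2 * (d : ℝ) := by exact_mod_cast hdg
    have h7 : (D.natDegree : ℝ) = 2 * (d : ℝ) - ((f / D).natDegree : ℝ) := by linarith
    rw [h7]
    ring
  · have h' : ¬ (f / D).natDegree < d := by omega
    rw [if_neg h, if_neg h', mul_zero]

end Hid

theorem hid : S_hid := by
  intro K _ _ d f hd hf hs hdeg
  rw [Hid.halfsum d hf hdeg, ← Hid.total d hd hf hs hdeg]
  have h1 : ∑ D ∈ Hid.Dv f, (mob D : ℝ) * ((d : ℝ) - D.natDegree) =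
      ∑ D ∈ Hid.Dv f, (if D.natDegree < d then (mob D : ℝ) * ((d : ℝ) - D.natDegree) else 0) +
      ∑ D ∈ Hid.Dv f, (if d < D.natDegree then (mob D : ℝ) * ((d : ℝ) - D.natDegree) else 0) := by
    rw [← Finset.sum_add_distrib]
    refine Finset.sum_congr rfl fun D _ => ?_
    rcases lt_trichotomy D.natDegree d with h | h | h
    · rw [if_pos h, if_neg (by omega), add_zero]
    · rw [h, if_neg (lt_irrefl d), sub_self, mul_zero, add_zero]
    · rw [if_neg (by omega), if_pos h, zero_add]
  rw [h1, Hid.invol d hf hs hdeg]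
  ring

end Pool.Agent.H604.LD
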