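import Mathlib
import Pool.Agent.H604.LD.Stm

/-!
# The main term (task FAR1)
-/

set_option autoImplicit false
set_option linter.all false

namespace Pool.Agent.H604.LD.F1

open Polynomial Finset
open scoped Classical
open Pool.Agent.H985.Chow (mob)
open Pool.Agent.H694.Typ

/-! ### Real sequences -/

section seq

variable {s s' a : ℕ → ℝ} {Q B V : ℝ} {p : ℕ}

lemma two_thirds_geo (n : ℕ) : ∑ j ∈ range n, (2 / 3 : ℝ) ^ j ≤ 3 := by
  have h : ∀ n : ℕ, ∑ j ∈ range n, (2 / 3 : ℝ) ^ j = 3 - 3 * (2 / 3 : ℝ) ^ n := by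
    intro n
    induction n with
    | zero => simp
    | succ n ih => rw [sum_range_succ, ih, pow_succ]; ring
  rw [h]
  have : (0 : ℝ) ≤ (2 / 3 : ℝ) ^ n := by positivity
  linarith

lemma seq_a (hQ : 0 ≤ Q) (hQp : Q * (3 / 2) ^ p ≤ 3 / 4) (hp : 1 ≤ p) (hB0 : 0 ≤ B)
    (h1 : ∀ j, s j = a j - Q * (if p ≤ j then a (j - p) else 0))
    (hB : ∀ j, |s j| ≤ B * (2 / 3) ^ j) : ∀ j, |a j| ≤ 4 * B * (2 / 3) ^ j := by
  intro j
  induction j using Nat.strong_induction_on with
  | _ j ih =>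
    have e1 : a j = s j + Q * (if p ≤ j then a (j - p) else 0) := by rw [h1]; ring
    rw [e1]
    refine (abs_add_le _ _).trans ?_
    have h2 : |Q * (if p ≤ j then a (j - p) else 0)| ≤ 3 * B * (2 / 3) ^ j := by
      split_ifs with h
      · rw [abs_mul, abs_of_nonneg hQ]
        have h3 := ih (j - p) (by omega)
        have h4 : (2 / 3 : ℝ) ^ (j - p) = (3 / 2) ^ p * (2 / 3) ^ j := by
          have h5 : (2 / 3 : ℝ) ^ j = (2 / 3) ^ (j - p) * (2 / 3) ^ p := by
            rw [← pow_add]; congr 1; omega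
          rw [h5]
          have h6 : (3 / 2 : ℝ) ^ p * (2 / 3) ^ p = 1 := by rw [← mul_pow]; norm_num
          linear_combination -(2 / 3 : ℝ) ^ (j - p) * h6
        rw [h4] at h3
        calc Q * |a (j - p)| ≤ Q * (4 * B * ((3 / 2) ^ p * (2 / 3) ^ j)) :=
              mul_le_mul_of_nonneg_left h3 hQ
          _ = (Q * (3 / 2) ^ p) * (4 * B * (2 / 3) ^ j) := by ring
          _ ≤ (3 / 4) * (4 * B * (2 / 3) ^ j) :=
              mul_le_mul_of_nonneg_right hQp (by positivity)
          _ = 3 * B * (2 / 3) ^ j := by ring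
      · rw [mul_zero, abs_zero]
        positivity
    have h3 := hB j
    linarith

lemma pow_sub' {j : ℕ} (h : p ≤ j) : (2 / 3 : ℝ) ^ (j - p) = (3 / 2) ^ p * (2 / 3) ^ j := by
  have h5 : (2 / 3 : ℝ) ^ j = (2 / 3) ^ (j - p) * (2 / 3) ^ p := by
    rw [← pow_add]; congr 1; omega
  rw [h5]
  have h6 : (3 / 2 : ℝ) ^ p * (2 / 3) ^ p = 1 := by rw [← mul_pow]; norm_num
  linear_combination -(2 / 3 : ℝ) ^ (j - p) * h6

lemma seq_s' (hQ : 0 ≤ Q) (hQ2 : Q ≤ 1 / 2) (hQp : Q * (3 / 2) ^ p ≤ 3 / 4) (hp : 1 ≤ p)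
    (hB0 : 0 ≤ B) (h1 : ∀ j, s j = a j - Q * (if p ≤ j then a (j - p) else 0))
    (h2 : ∀ j, s' j = Q * (a j - (if p ≤ j then a (j - p) else 0)))
    (hB : ∀ j, |s j| ≤ B * (2 / 3) ^ j) : ∀ j, |s' j| ≤ 5 * B * (2 / 3) ^ j := by
  intro j
  have ha := seq_a hQ hQp hp hB0 h1 hB
  rw [h2, abs_mul, abs_of_nonneg hQ]
  have h3 : |a j - (if p ≤ j then a (j - p) else 0)| ≤
      4 * B * (2 / 3) ^ j + 4 * B * ((3 / 2) ^ p * (2 / 3) ^ j) := by
    refine (abs_sub _ _).trans (add_le_add (ha j) ?_)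
    split_ifs with h
    · rw [← pow_sub' h]
      exact ha (j - p)
    · rw [abs_zero]
      positivity
  calc Q * |a j - (if p ≤ j then a (j - p) else 0)| ≤
      Q * (4 * B * (2 / 3) ^ j + 4 * B * ((3 / 2) ^ p * (2 / 3) ^ j)) :=
        mul_le_mul_of_nonneg_left h3 hQ
    _ = Q * (4 * B * (2 / 3) ^ j) + (Q * (3 / 2) ^ p) * (4 * B * (2 / 3) ^ j) := by ring
    _ ≤ (1 / 2) * (4 * B * (2 / 3) ^ j) + (3 / 4) * (4 * B * (2 / 3) ^ j) :=
        add_le_add (mul_le_mul_of_nonneg_right hQ2 (by positivity))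
          (mul_le_mul_of_nonneg_right hQp (by positivity))
    _ = 5 * B * (2 / 3) ^ j := by ring

/-- shift of a sum -/
lemma sum_shift (b : ℕ → ℝ) (c : ℕ → ℝ) {N : ℕ} (h : p ≤ N) :
    ∑ j ∈ range (N + 1), c j * (if p ≤ j then b (j - p) else 0) =
      ∑ i ∈ range (N - p + 1), c (i + p) * b i := by
  have e : N + 1 = p + (N - p + 1) := by omega
  rw [e, sum_range_add]
  rw [sum_eq_zero (s := range p), zero_add]
  · refine sum_congr rfl fun i _ => ?_
    rw [if_pos (by omega), Nat.add_sub_cancel_left, add_comm]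
  · intro i hi
    rw [mem_range] at hi
    rw [if_neg (by omega), mul_zero]

/-- the weighted window sum -/
lemma window (x : ℝ) (hB0 : 0 ≤ B) (ha : ∀ j, |a j| ≤ 4 * B * (2 / 3) ^ j) {N : ℕ} (h : p ≤ N)
    (hx : (N : ℝ) ≤ x) (c : ℕ → ℝ) (hc : ∀ j ≤ N, |c j| ≤ x) :
    |∑ j ∈ range (N + 1), c j * a j - ∑ j ∈ range (N - p + 1), c j * a j| ≤
      8 * B * x * (2 / 3) ^ (N - p) := by
  have e : N + 1 = (N - p + 1) + p := by omega
  have hx0 : 0 ≤ x := le_trans (Nat.cast_nonneg _) hx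
  rw [e, sum_range_add, add_sub_cancel_left]
  refine (abs_sum_le_sum_abs _ _).trans ?_
  have h1 : ∀ i ∈ range p, |c (N - p + 1 + i) * a (N - p + 1 + i)| ≤
      x * (4 * B) * (2 / 3) ^ (N - p + 1) * (2 / 3) ^ i := by
    intro i hi
    rw [mem_range] at hi
    rw [abs_mul]
    calc |c (N - p + 1 + i)| * |a (N - p + 1 + i)| ≤ x * (4 * B * (2 / 3) ^ (N - p + 1 + i)) :=
          mul_le_mul (hc _ (by omega)) (ha _) (abs_nonneg _) hx0
      _ = x * (4 * B) * (2 / 3) ^ (N - p + 1) * (2 / 3) ^ i := by rw [pow_add]; ring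
  refine (sum_le_sum h1).trans ?_
  rw [← mul_sum]
  calc x * (4 * B) * (2 / 3) ^ (N - p + 1) * ∑ i ∈ range p, (2 / 3 : ℝ) ^ i ≤
      x * (4 * B) * (2 / 3) ^ (N - p + 1) * 3 :=
        mul_le_mul_of_nonneg_left (two_thirds_geo p) (by positivity)
    _ = 8 * B * x * (2 / 3) ^ (N - p) := by rw [pow_succ]; ring

/-- the plain window sum, all cases -/
lemma seq_w (hQ : 0 ≤ Q) (hQp : Q * (3 / 2) ^ p ≤ 3 / 4) (hB0 : 0 ≤ B)
    (ha : ∀ j, |a j| ≤ 4 * B * (2 / 3) ^ j) (N : ℕ) :
    Q * |∑ j ∈ range (N + 1), (a j - (if p ≤ j then a (j - p) else 0))| ≤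
      9 * B * (2 / 3) ^ N := by
  rcases le_or_gt p N with h | h
  · have e1 : ∑ j ∈ range (N + 1), (a j - (if p ≤ j then a (j - p) else 0)) =
        ∑ j ∈ range (N + 1), (1 : ℝ) * a j - ∑ j ∈ range (N - p + 1), (1 : ℝ) * a j := by
      rw [sum_sub_distrib]
      have e2 := sum_shift (p := p) a (fun _ => 1) h
      simp only [one_mul] at e2 ⊢
      rw [e2]
    have h2 : |∑ j ∈ range (N + 1), (1 : ℝ) * a j - ∑ j ∈ range (N - p + 1), (1 : ℝ) * a j| ≤
        8 * B * (2 / 3) ^ (N - p) := by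
      have hg : N + 1 = (N - p + 1) + p := by omega
      rw [hg, sum_range_add, add_sub_cancel_left]
      refine (abs_sum_le_sum_abs _ _).trans ?_
      have h1 : ∀ i ∈ range p, |1 * a (N - p + 1 + i)| ≤
          (4 * B) * (2 / 3) ^ (N - p + 1) * (2 / 3) ^ i := by
        intro i hi
        rw [one_mul]
        refine (ha _).trans (le_of_eq ?_)
        rw [pow_add]; ring
      refine (sum_le_sum h1).trans ?_
      rw [← mul_sum]
      calc (4 * B) * (2 / 3) ^ (N - p + 1) * ∑ i ∈ range p, (2 / 3 : ℝ) ^ i ≤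
          (4 * B) * (2 / 3) ^ (N - p + 1) * 3 :=
            mul_le_mul_of_nonneg_left (two_thirds_geo p) (by positivity)
        _ = 8 * B * (2 / 3) ^ (N - p) := by rw [pow_succ]; ring
    rw [e1]
    rw [pow_sub' h] at h2
    calc Q * |∑ j ∈ range (N + 1), (1 : ℝ) * a j - ∑ j ∈ range (N - p + 1), (1 : ℝ) * a j| ≤
        Q * (8 * B * ((3 / 2) ^ p * (2 / 3) ^ N)) := mul_le_mul_of_nonneg_left h2 hQ
      _ = (Q * (3 / 2) ^ p) * (8 * B * (2 / 3) ^ N) := by ring
      _ ≤ (3 / 4) * (8 * B * (2 / 3) ^ N) := mul_le_mul_of_nonneg_right hQp (by positivity)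
      _ ≤ 9 * B * (2 / 3) ^ N := by
        have : 0 ≤ B * (2 / 3 : ℝ) ^ N := by positivity
        nlinarith
  · have e1 : ∑ j ∈ range (N + 1), (a j - (if p ≤ j then a (j - p) else 0)) =
        ∑ j ∈ range (N + 1), a j := by
      refine sum_congr rfl fun j hj => ?_
      rw [mem_range] at hj
      rw [if_neg (by omega), sub_zero]
    have h2 : |∑ j ∈ range (N + 1), a j| ≤ 12 * B := by
      refine (abs_sum_le_sum_abs _ _).trans ((sum_le_sum fun j _ => ha j).trans ?_)
      rw [← mul_sum]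
      calc 4 * B * ∑ i ∈ range (N + 1), (2 / 3 : ℝ) ^ i ≤ 4 * B * 3 :=
            mul_le_mul_of_nonneg_left (two_thirds_geo _) (by positivity)
        _ = 12 * B := by ring
    rw [e1]
    have h3 : (1 : ℝ) = (3 / 2) ^ p * (2 / 3) ^ p := by rw [← mul_pow]; norm_num
    have h4 : (2 / 3 : ℝ) ^ p ≤ (2 / 3) ^ N := pow_le_pow_of_le_one (by norm_num) (by norm_num) h.le
    calc Q * |∑ j ∈ range (N + 1), a j| ≤ Q * (12 * B) := mul_le_mul_of_nonneg_left h2 hQ
      _ = (Q * (3 / 2) ^ p) * (12 * B * (2 / 3) ^ p) := by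
        linear_combination (Q * (12 * B)) * h3
      _ ≤ (3 / 4) * (12 * B * (2 / 3) ^ p) := mul_le_mul_of_nonneg_right hQp (by positivity)
      _ = 9 * B * (2 / 3) ^ p := by ring
      _ ≤ 9 * B * (2 / 3) ^ N := mul_le_mul_of_nonneg_left h4 (by positivity)

lemma seq_V' (hQ : 0 ≤ Q) (hQp : Q * (3 / 2) ^ p ≤ 3 / 4) (hp : 1 ≤ p)
    (hB0 : 0 ≤ B) (h1 : ∀ j, s j = a j - Q * (if p ≤ j then a (j - p) else 0))
    (h2 : ∀ j, s' j = Q * (a j - (if p ≤ j then a (j - p) else 0)))
    (hB : ∀ j, |s j| ≤ B * (2 / 3) ^ j) (N : ℕ) :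
    |∑ j ∈ range (N + 1), s' j| ≤ 9 * B * (2 / 3) ^ N := by
  have ha := seq_a hQ hQp hp hB0 h1 hB
  simp only [h2]
  rw [← mul_sum, abs_mul, abs_of_nonneg hQ]
  exact seq_w hQ hQp hB0 ha N

lemma seq_A (hQ : 0 ≤ Q) (hQ2 : Q ≤ 1 / 2) (hQp : Q * (3 / 2) ^ p ≤ 3 / 4) (hp : 1 ≤ p)
    (hB0 : 0 ≤ B) (h1 : ∀ j, s j = a j - Q * (if p ≤ j then a (j - p) else 0))
    (hB : ∀ j, |s j| ≤ B * (2 / 3) ^ j)
    (hV : ∀ N, |∑ j ∈ range (N + 1), s j| ≤ V * (2 / 3) ^ N) (N : ℕ) :
    |∑ j ∈ range (N + 1), a j| ≤ 2 * (V + 9 * B) * (2 / 3) ^ N := by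
  have ha := seq_a hQ hQp hp hB0 h1 hB
  have hw := seq_w hQ hQp hB0 ha N
  set w := ∑ j ∈ range (N + 1), (a j - (if p ≤ j then a (j - p) else 0)) with hwdef
  have e1 : (1 - Q) * ∑ j ∈ range (N + 1), a j = ∑ j ∈ range (N + 1), s j - Q * w := by
    rw [hwdef, mul_sum, mul_sum, ← sum_sub_distrib]
    refine sum_congr rfl fun j _ => ?_
    rw [h1]
    ring
  have h3 : (1 - Q) * |∑ j ∈ range (N + 1), a j| ≤ (V + 9 * B) * (2 / 3) ^ N := by
    have h4 : (1 - Q) * |∑ j ∈ range (N + 1), a j| = |∑ j ∈ range (N + 1), s j - Q * w| := by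
      rw [← e1, abs_mul, abs_of_nonneg (by linarith : (0 : ℝ) ≤ 1 - Q)]
    rw [h4]
    refine (abs_sub _ _).trans ?_
    rw [abs_mul, abs_of_nonneg hQ]
    have := hV N
    linarith
  have h5 : (1 / 2) * |∑ j ∈ range (N + 1), a j| ≤ (1 - Q) * |∑ j ∈ range (N + 1), a j| :=
    mul_le_mul_of_nonneg_right (by linarith) (abs_nonneg _)
  linarith

lemma seq_W' (hQ : 0 ≤ Q) (hQ2 : Q ≤ 1 / 2) (hQp : Q * (3 / 2) ^ p ≤ 3 / 4) (hp : 1 ≤ p)
    (hB0 : 0 ≤ B) (hV0 : 0 ≤ V) (h1 : ∀ j, s j = a j - Q * (if p ≤ j then a (j - p) else 0))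
    (h2 : ∀ j, s' j = Q * (a j - (if p ≤ j then a (j - p) else 0)))
    (hB : ∀ j, |s j| ≤ B * (2 / 3) ^ j)
    (hV : ∀ N, |∑ j ∈ range (N + 1), s j| ≤ V * (2 / 3) ^ N) {J : ℕ} (hJ : p ≤ J) (x : ℝ)
    (hx : (J : ℝ) ≤ x) :
    |∑ j ∈ range (J + 1), (x - j) * s' j| ≤ (20 * B + 2 * V) * x * (2 / 3) ^ J := by
  have ha := seq_a hQ hQp hp hB0 h1 hB
  have hA := seq_A hQ hQ2 hQp hp hB0 h1 hB hV (J - p)
  have hx0 : 0 ≤ x := le_trans (Nat.cast_nonneg _) hx
  have hpx : (p : ℝ) ≤ x := le_trans (by exact_mod_cast hJ) hx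
  have hw := window (p := p) (a := a) x hB0 ha hJ hx (fun j => x - j) (by
    intro j hj
    have : (j : ℝ) ≤ J := by exact_mod_cast hj
    rw [abs_of_nonneg (by linarith)]
    have : (0 : ℝ) ≤ j := Nat.cast_nonneg _
    linarith)
  have e1 : ∑ j ∈ range (J + 1), (x - j) * s' j =
      Q * ((∑ j ∈ range (J + 1), (x - j) * a j - ∑ j ∈ range (J - p + 1), (x - j) * a j) +
        p * ∑ j ∈ range (J - p + 1), a j) := by
    have e2 := sum_shift (p := p) a (fun j => x - j) hJ
    have e3 : ∑ i ∈ range (J - p + 1), (x - ((i + p : ℕ) : ℝ)) * a i =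
        ∑ j ∈ range (J - p + 1), (x - j) * a j - p * ∑ j ∈ range (J - p + 1), a j := by
      rw [mul_sum, ← sum_sub_distrib]
      refine sum_congr rfl fun i _ => ?_
      push_cast
      ring
    have e4 : ∑ j ∈ range (J + 1), (x - j) * s' j = Q * (∑ j ∈ range (J + 1), (x - j) * a j -
        ∑ j ∈ range (J + 1), (x - j) * (if p ≤ j then a (j - p) else 0)) := by
      rw [← sum_sub_distrib, mul_sum]
      refine sum_congr rfl fun j _ => ?_
      rw [h2]
      ring
    rw [e4, e2, e3]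
    ring
  rw [e1, abs_mul, abs_of_nonneg hQ]
  have h3 : |(∑ j ∈ range (J + 1), (x - j) * a j - ∑ j ∈ range (J - p + 1), (x - j) * a j) +
        p * ∑ j ∈ range (J - p + 1), a j| ≤ (26 * B + 2 * V) * x * (2 / 3) ^ (J - p) := by
    refine (abs_add_le _ _).trans ?_
    have h4 : |(p : ℝ) * ∑ j ∈ range (J - p + 1), a j| ≤
        x * (2 * (V + 9 * B) * (2 / 3) ^ (J - p)) := by
      rw [abs_mul, abs_of_nonneg (Nat.cast_nonneg _)]
      exact mul_le_mul hpx hA (abs_nonneg _) hx0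
    calc _ ≤ 8 * B * x * (2 / 3) ^ (J - p) + x * (2 * (V + 9 * B) * (2 / 3) ^ (J - p)) :=
          add_le_add hw h4
      _ = (26 * B + 2 * V) * x * (2 / 3) ^ (J - p) := by ring
  rw [pow_sub' hJ] at h3
  calc Q * _ ≤ Q * ((26 * B + 2 * V) * x * ((3 / 2) ^ p * (2 / 3) ^ J)) :=
        mul_le_mul_of_nonneg_left h3 hQ
    _ = (Q * (3 / 2) ^ p) * ((26 * B + 2 * V) * x * (2 / 3) ^ J) := by ring
    _ ≤ (3 / 4) * ((26 * B + 2 * V) * x * (2 / 3) ^ J) :=
        mul_le_mul_of_nonneg_right hQp (by positivity)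
    _ ≤ (20 * B + 2 * V) * x * (2 / 3) ^ J := by
      have : 0 ≤ B * x * (2 / 3 : ℝ) ^ J := by positivity
      have : 0 ≤ V * x * (2 / 3 : ℝ) ^ J := by positivity
      nlinarith

end seq

/-! ### The Moebius function -/

section mobius

variable {K : Type} [Field K]

lemma mob_one' : mob (1 : K[X]) = 1 := by
  unfold Pool.Agent.H985.Chow.mob
  rw [if_pos squarefree_one]
  have h : UniqueFactorizationMonoid.factors (1 : K[X]) = 0 :=
    UniqueFactorizationMonoid.factors_one
  rw [h]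
  simp

lemma mob_nsq {g : K[X]} (h : ¬ Squarefree g) : mob g = 0 := by
  unfold Pool.Agent.H985.Chow.mob
  rw [if_neg h]

lemma mob_irr_mul {P g : K[X]} (hP : Irreducible P) (hg : g ≠ 0)
    (hs : Squarefree (P * g)) : mob (P * g) = - mob g := by
  have hsg : Squarefree g := hs.squarefree_of_dvd (dvd_mul_left _ _)
  unfold Pool.Agent.H985.Chow.mob
  rw [if_pos hs, if_pos hsg]
  have hPg : P * g ≠ 0 := mul_ne_zero hP.ne_zero hg
  have h1 : Multiset.Rel Associated (UniqueFactorizationMonoid.factors (P * g))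
      (P ::ₘ UniqueFactorizationMonoid.factors g) := by
    refine UniqueFactorizationMonoid.factors_unique
      (fun x hx => UniqueFactorizationMonoid.irreducible_of_factor x hx) ?_ ?_
    · intro x hx
      rcases Multiset.mem_cons.mp hx with h | h
      · rw [h]; exact hP
      · exact UniqueFactorizationMonoid.irreducible_of_factor x h
    · rw [Multiset.prod_cons]
      exact (UniqueFactorizationMonoid.factors_prod hPg).trans
        ((UniqueFactorizationMonoid.factors_prod hg).symm.mul_left P)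
  rw [Multiset.card_eq_card_of_rel h1, Multiset.card_cons, pow_succ]
  ring

lemma mob_mul_P {P g : K[X]} (hP : Irreducible P) (hg : g ≠ 0) :
    mob (P * g) = if P ∣ g then 0 else - mob g := by
  split_ifs with h
  · apply mob_nsq
    intro hs
    obtain ⟨c, rfl⟩ := h
    exact hP.not_isUnit (hs P ⟨c, by ring⟩)
  · by_cases hs : Squarefree g
    · apply mob_irr_mul hP hg
      rw [squarefree_mul_iff]
      exact ⟨(hP.isRelPrime_iff_not_dvd).2 h, hP.squarefree, hs⟩
    · rw [mob_nsq hs, mob_nsq, neg_zero]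
      intro h2
      exact hs (h2.squarefree_of_dvd (dvd_mul_left _ _))

variable [Fintype K]

/-- the multiples of `P` in `Mn n` -/
lemma sum_mul {P : K[X]} (hP : P.Monic) {n : ℕ} (h : P.natDegree ≤ n) (f : K[X] → ℝ) :
    ∑ D ∈ (Mn K n).filter (fun D => P ∣ D), f D = ∑ D ∈ Mn K (n - P.natDegree), f (P * D) := by
  symm
  refine Finset.sum_bij (fun D _ => P * D) ?_ ?_ ?_ ?_
  · intro D hD
    rw [mem_Mn] at hD
    rw [mem_filter, mem_Mn]
    refine ⟨⟨hP.mul hD.1, ?_⟩, dvd_mul_right _ _⟩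
    rw [hP.natDegree_mul hD.1, hD.2]
    omega
  · intro D _ D' _ hh
    exact mul_left_cancel₀ hP.ne_zero hh
  · intro D hD
    rw [mem_filter, mem_Mn] at hD
    obtain ⟨⟨hD1, hD2⟩, D', rfl⟩ := hD
    have h1 : D'.Monic := hP.of_mul_monic_left hD1
    refine ⟨D', ?_, rfl⟩
    rw [mem_Mn]
    refine ⟨h1, ?_⟩
    rw [hP.natDegree_mul h1] at hD2
    omega
  · intro D _
    rfl

/-- the sum of the Moebius function over the monic divisors -/
lemma sum_dvd_mob {f : K[X]} (hf : f.Monic) (hf1 : f ≠ 1) :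
    ∑ j ∈ range (f.natDegree + 1), ∑ D ∈ (Mn K j).filter (fun D => D ∣ f), (mob D : ℝ) = 0 := by
  have hnu : ¬ IsUnit f := fun h => hf1 (hf.eq_one_of_isUnit h)
  obtain ⟨P, hPm, hPi, hPf⟩ := exists_monic_irreducible_factor f hnu
  have hp1 : 0 < P.natDegree := hPi.natDegree_pos
  obtain ⟨a, ha⟩ : ∃ a : ℕ → ℝ, ∀ j, a j =
      ∑ D ∈ (Mn K j).filter (fun D => D ∣ f ∧ ¬ P ∣ D), (mob D : ℝ) := ⟨_, fun _ => rfl⟩
  have hs : ∀ j, ∑ D ∈ (Mn K j).filter (fun D => D ∣ f), (mob D : ℝ) =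
      a j - (if P.natDegree ≤ j then a (j - P.natDegree) else 0) := by
    intro j
    have h1 : ∑ D ∈ (Mn K j).filter (fun D => D ∣ f), (mob D : ℝ) =
        a j + ∑ D ∈ (Mn K j).filter (fun D => P ∣ D), (if D ∣ f then (mob D : ℝ) else 0) := by
      rw [ha, sum_filter, sum_filter, sum_filter, ← sum_add_distrib]
      refine sum_congr rfl fun D _ => ?_
      by_cases h2 : D ∣ f
      · by_cases h3 : P ∣ D
        · rw [if_pos h2, if_neg (fun h => h.2 h3), if_pos h3, zero_add]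
        · rw [if_pos h2, if_pos ⟨h2, h3⟩, if_neg h3, add_zero]
      · rw [if_neg h2, if_neg (fun h => h2 h.1), zero_add]
        split_ifs <;> rfl
    rw [h1, sub_eq_add_neg]
    congr 1
    split_ifs with h
    · rw [sum_mul hPm h, ha, ← sum_neg_distrib, sum_filter]
      refine sum_congr rfl fun D hD => ?_
      rw [mem_Mn] at hD
      rw [mob_mul_P hPi hD.1.ne_zero]
      by_cases h3 : P ∣ D
      · rw [if_pos h3, if_neg (fun h : D ∣ f ∧ ¬ P ∣ D => h.2 h3)]
        simp
      · rw [if_neg h3]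
        have h4 : P * D ∣ f ↔ D ∣ f := by
          constructor
          · intro h; exact (dvd_mul_left D P).trans h
          · intro h
            exact (((hPi.coprime_iff_not_dvd).2 h3)).mul_dvd hPf h
        by_cases h5 : D ∣ f
        · rw [if_pos (h4.2 h5), if_pos ⟨h5, h3⟩]
          push_cast
          rfl
        · rw [if_neg (fun h => h5 (h4.1 h)), if_neg (fun h : D ∣ f ∧ ¬ P ∣ D => h5 h.1)]
    · rw [neg_zero]
      refine sum_eq_zero fun D hD => ?_
      rw [mem_filter, mem_Mn] at hD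
      exfalso
      apply h
      rw [← hD.1.2]
      exact natDegree_le_of_dvd hD.2 hD.1.1.ne_zero
  rw [sum_congr rfl fun j _ => hs j, sum_sub_distrib]
  have hpn : P.natDegree ≤ f.natDegree := natDegree_le_of_dvd hPf hf.ne_zero
  have e2 := sum_shift (p := P.natDegree) a (fun _ => 1) hpn
  simp only [one_mul] at e2
  rw [e2]
  -- the terms of large degree vanish
  have h0 : ∀ j, f.natDegree < j + P.natDegree → a j = 0 := by
    intro j hj
    rw [ha]
    refine sum_eq_zero fun D hD => ?_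
    rw [mem_filter, mem_Mn] at hD
    exfalso
    have h4 : P * D ∣ f := (((hPi.coprime_iff_not_dvd).2 hD.2.2)).mul_dvd hPf hD.2.1
    have h5 := natDegree_le_of_dvd h4 hf.ne_zero
    rw [hPm.natDegree_mul hD.1.1, hD.1.2] at h5
    omega
  have e : f.natDegree + 1 = (f.natDegree - P.natDegree + 1) + P.natDegree := by omega
  rw [e, sum_range_add, add_sub_assoc, add_comm, sub_add_cancel]
  exact sum_eq_zero fun i _ => h0 _ (by omega)

/-- the sums of the Moebius function -/
noncomputable def MS (K : Type) [Field K] [Fintype K] (j : ℕ) : ℝ := ∑ D ∈ Mn K j, (mob D : ℝ)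

lemma conv (n : ℕ) (hn : 1 ≤ n) :
    ∑ j ∈ range (n + 1), MS K j * (Fintype.card K : ℝ) ^ (n - j) = 0 := by
  have h1 : ∀ f ∈ Mn K n, ∑ j ∈ range (n + 1), ∑ D ∈ (Mn K j).filter (fun D => D ∣ f),
      (mob D : ℝ) = 0 := by
    intro f hf
    rw [mem_Mn] at hf
    have h := sum_dvd_mob hf.1 (by
      rintro rfl
      have := hf.2
      rw [natDegree_one] at this
      omega)
    rw [hf.2] at h
    exact h
  have h2 := sum_eq_zero h1
  rw [sum_comm] at h2
  rw [← h2]
  refine sum_congr rfl fun j hj => ?_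
  rw [mem_range] at hj
  unfold MS
  simp only [sum_filter]
  rw [sum_comm, Finset.sum_mul]
  refine sum_congr rfl fun D hD => ?_
  rw [mem_Mn] at hD
  rw [← sum_filter, sum_const, card_dvd hD.1 (by omega), hD.2, nsmul_eq_mul]
  push_cast
  ring

lemma MS_zero : MS K 0 = 1 := by
  unfold MS
  have h : Mn K 0 = {1} := by
    ext f
    rw [mem_Mn, mem_singleton]
    constructor
    · rintro ⟨h1, h2⟩
      exact (h1.natDegree_eq_zero).1 h2
    · rintro rfl
      exact ⟨monic_one, natDegree_one⟩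
  rw [h, sum_singleton, mob_one']
  simp

lemma MS_one : MS K 1 = -(Fintype.card K : ℝ) := by
  have h := conv (K := K) 1 le_rfl
  rw [sum_range_succ, sum_range_succ, sum_range_zero, MS_zero] at h
  simp at h
  linarith

lemma MS_ge {j : ℕ} (hj : 2 ≤ j) : MS K j = 0 := by
  obtain ⟨n, rfl⟩ : ∃ n, j = n + 1 := ⟨j - 1, by omega⟩
  have h := conv (K := K) (n + 1) (by omega)
  have h2 := conv (K := K) n (by omega)
  rw [sum_range_succ, Nat.sub_self, pow_zero, mul_one] at h
  have h3 : ∑ x ∈ range (n + 1), MS K x * (Fintype.card K : ℝ) ^ (n + 1 - x) =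
      (Fintype.card K : ℝ) * ∑ x ∈ range (n + 1), MS K x * (Fintype.card K : ℝ) ^ (n - x) := by
    rw [mul_sum]
    refine sum_congr rfl fun i hi => ?_
    rw [mem_range] at hi
    rw [show n + 1 - i = n - i + 1 by omega, pow_succ]
    ring
  rw [h3, h2, mul_zero, zero_add] at h
  exact h

end mobius

/-! ### The number of the solutions of `G ∣ a² + X` -/

section count

variable {K : Type} [Field K] [Fintype K] [CharP K 2]

lemma add_sq' (x y : K[X]) : (x + y) ^ 2 = x ^ 2 + y ^ 2 := CharTwo.add_sq x y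

lemma exists_root {G : K[X]} (hG : G.Monic) (hs : Squarefree G) :
    ∃ c : K[X], c.degree < G.degree ∧ G ∣ c ^ 2 + X := by
  have hGd : G.degree = (G.natDegree : WithBot ℕ) := degree_eq_natDegree hG.ne_zero
  have h1 : ∀ c : Fin G.natDegree → K, ∃ c' : Fin G.natDegree → K, pol c' = (pol c ^ 2) %ₘ G := by
    intro c
    apply exists_pol
    rw [← hGd]
    exact degree_modByMonic_lt _ hG
  choose φ hφ using h1
  have hinj : Function.Injective φ := by
    intro c c' h
    have h2 : (pol c ^ 2) %ₘ G = (pol c' ^ 2) %ₘ G := by rw [← hφ, ← hφ, h]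
    have h3 : G ∣ pol c ^ 2 - pol c' ^ 2 := by
      rw [← modByMonic_eq_zero_iff_dvd hG, sub_modByMonic, h2, sub_self]
    have h4 : pol c ^ 2 - pol c' ^ 2 = (pol c - pol c') ^ 2 := by
      rw [CharTwo.sub_eq_add, CharTwo.sub_eq_add, add_sq']
    rw [h4] at h3
    have h5 : G ∣ pol c - pol c' := (hs.dvd_pow_iff_dvd (by norm_num)).1 h3
    have h6 : pol c - pol c' = 0 := by
      refine eq_zero_of_dvd_of_degree_lt h5 ?_
      refine (degree_sub_le _ _).trans_lt (max_lt ?_ ?_)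
      · rw [hGd]; exact pol_degree c
      · rw [hGd]; exact pol_degree c'
    exact pol_inj (sub_eq_zero.1 h6)
  have hsurj := Finite.surjective_of_injective hinj
  obtain ⟨t, ht⟩ := exists_pol (n := G.natDegree) (f := X %ₘ G) (by
    rw [← hGd]; exact degree_modByMonic_lt _ hG)
  obtain ⟨c, hc⟩ := hsurj t
  refine ⟨pol c, by rw [hGd]; exact pol_degree c, ?_⟩
  rw [← CharTwo.sub_eq_add, ← modByMonic_eq_zero_iff_dvd hG, sub_modByMonic, ← hφ, hc, ht,
    sub_self]

lemma card_root {G : K[X]} (hG : G.Monic) (hs : Squarefree G) {d : ℕ} (hd : G.natDegree ≤ d) :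
    ((Mn K d).filter (fun a => G ∣ a ^ 2 + X)).card = Fintype.card K ^ (d - G.natDegree) := by
  obtain ⟨c, hc1, hc2⟩ := exists_root hG hs
  have hcd : c.degree < (d : WithBot ℕ) := by
    refine hc1.trans_le ?_
    rw [degree_eq_natDegree hG.ne_zero]
    exact_mod_cast hd
  rw [← card_Mn]
  symm
  refine Finset.card_bij (fun b _ => c + G * b) ?_ ?_ ?_
  · intro b hb
    rw [mem_Mn] at hb
    rw [mem_filter, mem_Mn]
    have h1 : (G * b).Monic := hG.mul hb.1
    have h2 : (G * b).natDegree = d := by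
      rw [hG.natDegree_mul hb.1, hb.2]
      omega
    have h3 : (G * b).degree = (d : WithBot ℕ) := by
      rw [degree_eq_natDegree h1.ne_zero, h2]
    refine ⟨⟨?_, ?_⟩, ?_⟩
    · rw [add_comm]
      exact h1.add_of_left (by rw [h3]; exact hcd)
    · rw [add_comm, natDegree_add_eq_left_of_degree_lt (by rw [h3]; exact hcd), h2]
    · rw [add_sq']
      have h4 : c ^ 2 + (G * b) ^ 2 + X = (c ^ 2 + X) + G * (G * b ^ 2) := by ring
      rw [h4]
      exact dvd_add hc2 (dvd_mul_right _ _)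
  · intro b _ b' _ h
    exact mul_left_cancel₀ hG.ne_zero (add_left_cancel h)
  · intro a ha
    rw [mem_filter, mem_Mn] at ha
    obtain ⟨⟨ha1, ha2⟩, ha3⟩ := ha
    have h1 : G ∣ (a - c) ^ 2 := by
      have h2 : (a - c) ^ 2 = (a ^ 2 + X) - (c ^ 2 + X) := by
        rw [CharTwo.sub_eq_add, add_sq']
        have h3 : (a ^ 2 + X) - (c ^ 2 + X) = a ^ 2 - c ^ 2 := by ring
        rw [h3, CharTwo.sub_eq_add]
      rw [h2]
      exact dvd_sub ha3 hc2
    have h2 : G ∣ a - c := (hs.dvd_pow_iff_dvd (by norm_num)).1 h1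
    obtain ⟨b, hb⟩ := h2
    have had : a.degree = (d : WithBot ℕ) := by rw [degree_eq_natDegree ha1.ne_zero, ha2]
    have h3 : (a - c).Monic := by
      rw [sub_eq_add_neg]
      exact ha1.add_of_left (by rw [had, degree_neg]; exact hcd)
    have h4 : (a - c).natDegree = d := by
      rw [← ha2]
      exact natDegree_eq_of_degree_eq (degree_sub_eq_left_of_degree_lt (by rw [had]; exact hcd))
    have h5 : b.Monic := by
      rw [hb] at h3
      exact hG.of_mul_monic_left h3
    refine ⟨b, ?_, ?_⟩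
    · rw [mem_Mn]
      refine ⟨h5, ?_⟩
      rw [hb, hG.natDegree_mul h5] at h4
      omega
    · rw [← hb]
      ring

end count

/-! ### The local sums -/

section loc

variable {K : Type} [Field K] [Fintype K]

/-- a set of monic irreducible polynomials -/
def Pr (T : Finset K[X]) : Prop := ∀ P ∈ T, P.Monic ∧ Irreducible P

noncomputable def gT (T : Finset K[X]) (D : K[X]) : ℝ :=
  ∏ P ∈ T, if P ∣ D then 1 else wt K P.natDegree

noncomputable def sT (T : Finset K[X]) (j : ℕ) : ℝ :=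
  wt K j * ∑ D ∈ Mn K j, (mob D : ℝ) * gT T D

noncomputable def aT (T : Finset K[X]) (P : K[X]) (j : ℕ) : ℝ :=
  wt K j * ∑ D ∈ (Mn K j).filter (fun D => ¬ P ∣ D), (mob D : ℝ) * gT T D

lemma not_dvd_of_ne {P Q : K[X]} (hP : P.Monic ∧ Irreducible P) (hQ : Q.Monic ∧ Irreducible Q)
    (h : Q ≠ P) : ¬ Q ∣ P := by
  intro h1
  exact h (eq_of_monic_of_associated hQ.1 hP.1 (hQ.2.associated_of_dvd hP.2 h1))

lemma gT_mul {T : Finset K[X]} {P : K[X]} (hT : Pr T) (hP : P.Monic ∧ Irreducible P) (h : P ∉ T)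
    (D : K[X]) : gT T (P * D) = gT T D := by
  unfold gT
  refine prod_congr rfl fun Q hQ => ?_
  have h1 : Q ≠ P := fun h' => h (h' ▸ hQ)
  have h2 : Q ∣ P * D ↔ Q ∣ D := by
    constructor
    · intro h3
      exact ((hT Q hQ).2.prime.dvd_or_dvd h3).resolve_left (not_dvd_of_ne hP (hT Q hQ) h1)
    · intro h3
      exact h3.mul_left P
  simp only [h2]

/-- the part of the multiples of `P` -/
lemma part {T : Finset K[X]} {P : K[X]} (hT : Pr T) (hP : P.Monic ∧ Irreducible P) (h : P ∉ T)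
    (j : ℕ) : wt K j * ∑ D ∈ (Mn K j).filter (fun D => P ∣ D), (mob D : ℝ) * gT T D =
      - (wt K P.natDegree * (if P.natDegree ≤ j then aT T P (j - P.natDegree) else 0)) := by
  split_ifs with hj
  · rw [sum_mul hP.1 hj]
    unfold aT
    rw [← mul_assoc, ← wt_add, show P.natDegree + (j - P.natDegree) = j by omega, ← mul_neg,
      ← sum_neg_distrib, sum_filter]
    congr 1
    refine sum_congr rfl fun D hD => ?_
    rw [mem_Mn] at hD
    rw [mob_mul_P hP.2 hD.1.ne_zero, gT_mul hT hP h]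
    by_cases h3 : P ∣ D
    · rw [if_pos h3, if_neg (not_not.2 h3)]
      simp
    · rw [if_neg h3, if_pos h3]
      push_cast
      ring
  · rw [mul_zero, neg_zero]
    have h1 : (Mn K j).filter (fun D => P ∣ D) = ∅ := by
      apply Finset.filter_false_of_mem
      intro f hf
      exact no_dvd (by omega) hf
    rw [h1, sum_empty, mul_zero]

lemma rec_s {T : Finset K[X]} {P : K[X]} (hT : Pr T) (hP : P.Monic ∧ Irreducible P) (h : P ∉ T)
    (j : ℕ) : sT T j = aT T P j -
      wt K P.natDegree * (if P.natDegree ≤ j then aT T P (j - P.natDegree) else 0) := by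
  have h1 := part hT hP h j
  rw [sub_eq_add_neg, ← h1]
  unfold sT aT
  rw [← mul_add]
  congr 1
  rw [add_comm]
  exact (sum_filter_add_sum_filter_not _ _ _).symm

lemma rec_s' {T : Finset K[X]} {P : K[X]} (hT : Pr T) (hP : P.Monic ∧ Irreducible P) (h : P ∉ T)
    (j : ℕ) : sT (insert P T) j = wt K P.natDegree * (aT T P j -
      (if P.natDegree ≤ j then aT T P (j - P.natDegree) else 0)) := by
  have h1 := part hT hP h j
  rw [mul_sub, sub_eq_add_neg, ← h1]
  unfold sT aT
  rw [← sum_filter_add_sum_filter_not (Mn K j) (fun D => P ∣ D), mul_add, add_comm]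
  have h2 : ∀ D, gT (insert P T) D = (if P ∣ D then 1 else wt K P.natDegree) * gT T D := by
    intro D
    unfold gT
    rw [prod_insert h]
  congr 1
  · rw [mul_left_comm]
    congr 1
    rw [mul_sum]
    refine sum_congr rfl fun D hD => ?_
    rw [mem_filter] at hD
    rw [h2, if_neg hD.2]
    ring
  · congr 1
    refine sum_congr rfl fun D hD => ?_
    rw [mem_filter] at hD
    rw [h2, if_pos hD.2, one_mul]

lemma wt_le {p : ℕ} (hp : 1 ≤ p) : wt K p ≤ 1 / 2 ∧ wt K p * (3 / 2) ^ p ≤ 3 / 4 := by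
  have hq := q_ge (k := K)
  have hw : wt K p ≤ (1 / 2) ^ p := by
    unfold wt
    rw [one_div, inv_pow]
    exact inv_anti₀ (by positivity) (pow_le_pow_left₀ (by norm_num) hq p)
  constructor
  · refine hw.trans ?_
    calc (1 / 2 : ℝ) ^ p ≤ (1 / 2) ^ 1 := pow_le_pow_of_le_one (by norm_num) (by norm_num) hp
      _ = 1 / 2 := pow_one _
  · calc wt K p * (3 / 2) ^ p ≤ (1 / 2) ^ p * (3 / 2) ^ p :=
          mul_le_mul_of_nonneg_right hw (by positivity)
      _ = (3 / 4) ^ p := by rw [← mul_pow]; norm_num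
      _ ≤ (3 / 4) ^ 1 := pow_le_pow_of_le_one (by norm_num) (by norm_num) hp
      _ = 3 / 4 := pow_one _

lemma sT_empty (j : ℕ) : sT (∅ : Finset K[X]) j = if j = 0 then 1 else if j = 1 then -1 else 0 := by
  have h1 : sT (∅ : Finset K[X]) j = wt K j * MS K j := by
    unfold sT MS gT
    congr 1
    exact sum_congr rfl fun D _ => by rw [prod_empty, mul_one]
  have hq := q_ge (k := K)
  rw [h1]
  rcases j with _ | _ | j
  · rw [MS_zero]
    simp [wt]
  · rw [zero_add, MS_one, wt, pow_one]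
    simp only [one_ne_zero, if_false, if_true]
    field_simp
  · rw [MS_ge (by omega), mul_zero, if_neg (by omega), if_neg (by omega)]

/-- the bounds -/
lemma sT_bound (T : Finset K[X]) : Pr T → (∀ j, |sT T j| ≤ (3 / 2) * 5 ^ T.card * (2 / 3) ^ j) ∧
    ∀ N, |∑ j ∈ range (N + 1), sT T j| ≤ 3 * 5 ^ T.card * (2 / 3) ^ N := by
  induction T using Finset.induction_on with
  | empty =>
    intro _
    rw [card_empty, pow_zero]
    constructor
    · intro j
      rw [sT_empty]
      rcases j with _ | _ | j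
      · simp; norm_num
      · simp
      · rw [if_neg (by omega), if_neg (by omega), abs_zero]
        positivity
    · intro N
      rcases N with _ | N
      · rw [zero_add, range_one, sum_singleton, sT_empty]
        simp
      · have h : ∀ N : ℕ, ∑ j ∈ range (N + 2), sT (∅ : Finset K[X]) j = 0 := by
          intro N
          induction N with
          | zero =>
            rw [sum_range_succ, sum_range_succ, sum_range_zero, sT_empty, sT_empty]
            simp
          | succ N ih =>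
            rw [sum_range_succ, ih, sT_empty, if_neg (by omega), if_neg (by omega), add_zero]
        rw [h, abs_zero]
        positivity
  | insert P T hPT ih =>
    intro hT
    have hP := hT P (mem_insert_self _ _)
    have hT' : Pr T := fun Q hQ => hT Q (mem_insert_of_mem hQ)
    obtain ⟨hB, hV⟩ := ih hT'
    have hp : 1 ≤ P.natDegree := hP.2.natDegree_pos
    obtain ⟨hw1, hw2⟩ := wt_le (K := K) hp
    have hw0 := wt_nonneg (k := K) P.natDegree
    rw [card_insert_of_notMem hPT, pow_succ]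
    constructor
    · intro j
      have h1 := seq_s' hw0 hw1 hw2 hp (by positivity) (rec_s hT' hP hPT) (rec_s' hT' hP hPT) hB j
      refine h1.trans (le_of_eq ?_)
      ring
    · intro N
      have h1 := seq_V' hw0 hw2 hp (by positivity) (rec_s hT' hP hPT) (rec_s' hT' hP hPT) hB N
      refine h1.trans ?_
      have h2 : (0 : ℝ) ≤ 5 ^ T.card * (2 / 3) ^ N := by positivity
      nlinarith

/-- the main sum for nonempty sets -/
lemma W_bound {T : Finset K[X]} (hT : Pr T) (hne : T.Nonempty) {J : ℕ}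
    (hJ : ∀ P ∈ T, P.natDegree ≤ J) (x : ℝ) (hx : (J : ℝ) ≤ x) :
    |∑ j ∈ range (J + 1), (x - j) * sT T j| ≤ 8 * 5 ^ T.card * x * (2 / 3) ^ J := by
  obtain ⟨P, hPT⟩ := hne
  obtain ⟨T', hT', rfl⟩ : ∃ T', P ∉ T' ∧ insert P T' = T :=
    ⟨T.erase P, notMem_erase _ _, insert_erase hPT⟩
  have hP := hT P (mem_insert_self _ _)
  have hT2 : Pr T' := fun Q hQ => hT Q (mem_insert_of_mem hQ)
  obtain ⟨hB, hV⟩ := sT_bound T' hT2
  have hp : 1 ≤ P.natDegree := hP.2.natDegree_pos
  obtain ⟨hw1, hw2⟩ := wt_le (K := K) hp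
  have hw0 := wt_nonneg (k := K) P.natDegree
  have h1 := seq_W' hw0 hw1 hw2 hp (by positivity) (by positivity) (rec_s hT2 hP hT')
    (rec_s' hT2 hP hT') hB hV (hJ P hPT) x hx
  refine h1.trans ?_
  rw [card_insert_of_notMem hT', pow_succ]
  have hx0 : 0 ≤ x := le_trans (Nat.cast_nonneg _) hx
  have h2 : (0 : ℝ) ≤ 5 ^ T'.card * x * (2 / 3) ^ J := by positivity
  nlinarith

/-- the main sum for the empty set -/
lemma W_empty {J : ℕ} (hJ : 1 ≤ J) (x : ℝ) :
    ∑ j ∈ range (J + 1), (x - j) * sT (∅ : Finset K[X]) j = 1 := by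
  obtain ⟨N, rfl⟩ : ∃ N, J = N + 1 := ⟨J - 1, by omega⟩
  induction N with
  | zero =>
    rw [sum_range_succ, sum_range_succ, sum_range_zero, sT_empty, sT_empty]
    simp
  | succ N ih =>
    rw [sum_range_succ, ih (by omega), sT_empty, if_neg (by omega), if_neg (by omega), mul_zero,
      add_zero]

end loc

/-! ### The sums over the divisors -/

section div

variable {K : Type} [Field K] [Fintype K]

lemma prod_facts {T : Finset K[X]} (hT : Pr T) : (∏ P ∈ T, P).Monic ∧ Squarefree (∏ P ∈ T, P) ∧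
    (∏ P ∈ T, P).natDegree = ∑ P ∈ T, P.natDegree ∧
    ∀ Q, Irreducible Q → Q.Monic → Q ∉ T → IsCoprime Q (∏ P ∈ T, P) := by
  have h4 : ∀ Q, Irreducible Q → Q.Monic → Q ∉ T → IsCoprime Q (∏ P ∈ T, P) := by
    intro Q hQ hQm hQT
    rw [IsCoprime.prod_right_iff]
    intro P hP
    rw [hQ.coprime_iff_not_dvd]
    refine not_dvd_of_ne (hT P hP) ⟨hQm, hQ⟩ ?_
    rintro rfl
    exact hQT hP
  refine ⟨monic_prod_of_monic _ _ fun P hP => (hT P hP).1, ?_,
    natDegree_prod_of_monic _ _ fun P hP => (hT P hP).1, h4⟩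
  clear h4
  induction T using Finset.induction_on with
  | empty => rw [prod_empty]; exact squarefree_one
  | insert P T hPT ih =>
    have hP := hT P (mem_insert_self _ _)
    have hT' : Pr T := fun Q hQ => hT Q (mem_insert_of_mem hQ)
    rw [prod_insert hPT, squarefree_mul_iff]
    refine ⟨?_, hP.2.squarefree, ih hT'⟩
    apply IsCoprime.isRelPrime
    rw [IsCoprime.prod_right_iff]
    intro Q hQ
    rw [hP.2.coprime_iff_not_dvd]
    refine not_dvd_of_ne (hT' Q hQ) hP ?_
    rintro rfl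
    exact hPT hQ

variable [CharP K 2]

/-- the number of the `a` divisible by `D` and the elements of `T` -/
lemma card_both {T : Finset K[X]} (hT : Pr T) {D : K[X]} (hD : D.Monic) {d : ℕ}
    (hd : D.natDegree + ∑ P ∈ T, P.natDegree ≤ d) :
    (mob D : ℝ) * (((Mn K d).filter (fun a => D ∣ a ^ 2 + X ∧ ∀ P ∈ T, P ∣ a ^ 2 + X)).card : ℝ) =
      (Fintype.card K : ℝ) ^ d * (wt K D.natDegree * ((mob D : ℝ) * gT T D)) := by
  by_cases hs : Squarefree D
  · set T₁ := T.filter (fun P => ¬ P ∣ D) with hT₁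
    have hT₁P : Pr T₁ := fun P hP => hT P (mem_filter.1 hP).1
    obtain ⟨hm, hsq, hdeg, -⟩ := prod_facts hT₁P
    have hcop : IsCoprime D (∏ P ∈ T₁, P) := by
      rw [IsCoprime.prod_right_iff]
      intro P hP
      have h1 := mem_filter.1 hP
      exact (((hT P h1.1).2.coprime_iff_not_dvd).2 h1.2).symm
    set G := D * ∏ P ∈ T₁, P with hG
    have hGm : G.Monic := hD.mul hm
    have hGs : Squarefree G := by
      rw [hG, squarefree_mul_iff]
      exact ⟨hcop.isRelPrime, hs, hsq⟩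
    have hGd : G.natDegree = D.natDegree + ∑ P ∈ T₁, P.natDegree := by
      rw [hG, hD.natDegree_mul hm, hdeg]
    have hle : ∑ P ∈ T₁, P.natDegree ≤ ∑ P ∈ T, P.natDegree :=
      sum_le_sum_of_subset (filter_subset _ _)
    have h1 : (Mn K d).filter (fun a => D ∣ a ^ 2 + X ∧ ∀ P ∈ T, P ∣ a ^ 2 + X) =
        (Mn K d).filter (fun a => G ∣ a ^ 2 + X) := by
      refine filter_congr fun a _ => ?_
      constructor
      · rintro ⟨h2, h3⟩
        refine hcop.mul_dvd h2 ?_
        refine Finset.prod_dvd_of_coprime ?_ ?_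
        · intro P hP Q hQ hPQ
          have hP' := hT₁P P hP
          have hQ' := hT₁P Q hQ
          exact (hP'.2.coprime_iff_not_dvd).2 (not_dvd_of_ne hQ' hP' hPQ)
        · intro P hP
          exact h3 P (mem_filter.1 hP).1
      · intro h2
        refine ⟨(dvd_mul_right _ _).trans h2, fun P hP => ?_⟩
        by_cases h3 : P ∣ D
        · exact h3.trans ((dvd_mul_right _ _).trans h2)
        · exact (dvd_prod_of_mem _ (mem_filter.2 ⟨hP, h3⟩)).trans ((dvd_mul_left _ _).trans h2)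
    have hq := q_ge (k := K)
    rw [h1, card_root hGm hGs (by rw [hGd]; omega)]
    have h2 : (((Fintype.card K ^ (d - G.natDegree) : ℕ)) : ℝ) =
        (Fintype.card K : ℝ) ^ d * wt K G.natDegree := by
      rw [wt, Nat.cast_pow, pow_sub₀ _ (by positivity) (by rw [hGd]; omega)]
    have h3 : gT T D = wt K (∑ P ∈ T₁, P.natDegree) := by
      have h4 : ∀ S : Finset K[X], wt K (∑ P ∈ S, P.natDegree) = ∏ P ∈ S, wt K P.natDegree := by
        intro S
        induction S using Finset.induction_on with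
        | empty => simp [wt]
        | insert P S hPS ih => rw [sum_insert hPS, prod_insert hPS, wt_add, ih]
      rw [h4, hT₁, prod_filter]
      unfold gT
      refine prod_congr rfl fun P _ => ?_
      by_cases h5 : P ∣ D
      · rw [if_pos h5, if_neg (not_not.2 h5)]
      · rw [if_neg h5, if_pos h5]
    rw [h2, h3, hGd, wt_add]
    ring
  · rw [mob_nsq hs]
    simp

/-- the formula for the sum over the divisors of degree `j` -/
lemma Nn_eq {A z d j : ℕ} {C : ℝ} {U : Finset K[X] → ℝ} (hU : BHW K z A C U)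
    (hd : j + A * z ≤ d) :
    Nn K d j z U = (Fintype.card K : ℝ) ^ d * ∑ T ∈ (Pz K z).powerset, U T * sT T j := by
  have hPz : ∀ T, T ⊆ Pz K z → Pr T := by
    intro T hT P hP
    have h1 := mem_of_mem_erase (hT hP)
    rw [mem_PU] at h1
    exact ⟨h1.1, h1.2.1⟩
  have hbw : ∀ f : K[X], bw z U f = ∑ T ∈ (Pz K z).powerset,
      if ∀ P ∈ T, P ∣ f then U T else 0 := by
    intro f
    unfold bw
    rw [← sum_filter]
    refine sum_congr ?_ fun _ _ => rfl
    ext T
    rw [mem_powerset, mem_filter, mem_powerset]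
    constructor
    · intro h
      exact ⟨fun P hP => (mem_filter.1 (h hP)).1, fun P hP => (mem_filter.1 (h hP)).2⟩
    · rintro ⟨h1, h2⟩ P hP
      exact mem_filter.2 ⟨h1 hP, h2 P hP⟩
  unfold Nn
  have e1 : ∀ a ∈ Mn K d, ∑ D ∈ (Mn K j).filter (fun D => D ∣ a ^ 2 + X),
      (mob D : ℝ) * bw z U (a ^ 2 + X) = ∑ T ∈ (Pz K z).powerset, ∑ D ∈ Mn K j,
        U T * ((mob D : ℝ) * if D ∣ a ^ 2 + X ∧ ∀ P ∈ T, P ∣ a ^ 2 + X then 1 else 0) := by
    intro a _
    rw [sum_comm, sum_filter]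
    refine sum_congr rfl fun D _ => ?_
    rw [hbw]
    by_cases h : D ∣ a ^ 2 + X
    · rw [if_pos h, mul_sum]
      refine sum_congr rfl fun T _ => ?_
      by_cases h2 : ∀ P ∈ T, P ∣ a ^ 2 + X
      · rw [if_pos h2, if_pos ⟨h, h2⟩]
        ring
      · rw [if_neg h2, if_neg (fun h3 => h2 h3.2)]
        ring
    · rw [if_neg h]
      symm
      refine sum_eq_zero fun T _ => ?_
      rw [if_neg (fun h3 => h h3.1)]
      ring
  rw [sum_congr rfl e1, sum_comm, mul_sum]
  refine sum_congr rfl fun T hT => ?_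
  rw [mem_powerset] at hT
  by_cases hUT : U T = 0
  · rw [hUT]
    simp
  · have h1 := (hU.2.2.1 T hUT).2
    rw [sum_comm]
    unfold sT
    have e2 : ∀ D ∈ Mn K j, ∑ a ∈ Mn K d,
        U T * ((mob D : ℝ) * if D ∣ a ^ 2 + X ∧ ∀ P ∈ T, P ∣ a ^ 2 + X then 1 else 0) =
        U T * ((Fintype.card K : ℝ) ^ d * (wt K j * ((mob D : ℝ) * gT T D))) := by
      intro D hD
      rw [mem_Mn] at hD
      rw [← mul_sum, ← mul_sum, ← sum_filter, sum_const, nsmul_eq_mul, mul_one,
        card_both (hPz T hT) hD.1 (by rw [hD.2]; omega), hD.2]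
    rw [sum_congr rfl e2, ← mul_sum, ← mul_sum, ← mul_sum]
    ring

/-- the number of the sets of small degree -/
lemma card_sets (z N : ℕ) : ((Pz K z).powerset.filter
    (fun T => ∑ P ∈ T, P.natDegree ≤ N)).card ≤ Fintype.card K ^ (N + 1) := by
  have hPz : ∀ T, T ⊆ Pz K z → Pr T := by
    intro T hT P hP
    have h1 := mem_of_mem_erase (hT hP)
    rw [mem_PU] at h1
    exact ⟨h1.1, h1.2.1⟩
  have h1 : ((Pz K z).powerset.filter (fun T => ∑ P ∈ T, P.natDegree ≤ N)).card ≤
      ((range (N + 1)).biUnion (fun n => Mn K n)).card := by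
    refine card_le_card_of_injOn (fun T => ∏ P ∈ T, P) ?_ ?_
    · intro T hT
      rw [Finset.mem_coe, mem_filter, mem_powerset] at hT
      obtain ⟨hm, -, hdeg, -⟩ := prod_facts (hPz T hT.1)
      rw [Finset.mem_coe, mem_biUnion]
      exact ⟨∑ P ∈ T, P.natDegree, mem_range.2 (by omega), mem_Mn.2 ⟨hm, hdeg⟩⟩
    · have key : ∀ T ∈ (Pz K z).powerset.filter (fun T => ∑ P ∈ T, P.natDegree ≤ N),
          ∀ T' ∈ (Pz K z).powerset.filter (fun T => ∑ P ∈ T, P.natDegree ≤ N),
          ∏ P ∈ T, P = ∏ P ∈ T', P → T ⊆ T' := by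
        intro T hT T' hT' h P hP
        rw [mem_filter, mem_powerset] at hT hT'
        have h1 := hPz T hT.1 P hP
        by_contra h2
        have h3 := (prod_facts (hPz T' hT'.1)).2.2.2 P h1.2 h1.1 h2
        rw [← h] at h3
        exact (h1.2.coprime_iff_not_dvd.1 h3) (dvd_prod_of_mem _ hP)
      intro T hT T' hT' h
      exact Subset.antisymm (key T hT T' hT' h) (key T' hT' T hT h.symm)
  refine h1.trans (card_biUnion_le.trans ?_)
  simp only [card_Mn]
  have hq : 2 ≤ Fintype.card K := Fintype.one_lt_card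
  have h2 : ∀ N : ℕ, ∑ n ∈ range N, Fintype.card K ^ n ≤ Fintype.card K ^ N := by
    intro N
    induction N with
    | zero => simp
    | succ N ih =>
      rw [sum_range_succ, pow_succ]
      have : Fintype.card K ^ N * 2 ≤ Fintype.card K ^ N * Fintype.card K :=
        Nat.mul_le_mul_left _ hq
      omega
  exact h2 (N + 1)

end div

end Pool.Agent.H604.LD.F1

namespace Pool.Agent.H604.LD

open Polynomial Finset F1
open scoped Classical
open Pool.Agent.H694.Typ

/-- **Task FAR1.** -/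
theorem far1 : S_far1 := by
  intro K _ _ _ A C
  have hq : (2 : ℝ) ≤ (Fintype.card K : ℝ) := q_ge
  set q : ℝ := (Fintype.card K : ℝ) with hqdef
  have hq0 : 0 < q := by linarith
  set lam := Real.log (3 / 2) with hlamdef
  have hlam : 0 < lam := Real.log_pos (by norm_num)
  set L := Real.log (5 * q ^ 2) with hLdef
  have hL : 0 < L := Real.log_pos (by nlinarith)
  set θ := lam / (4 * L) with hθdef
  have hθ : 0 < θ := by positivity
  have hθL : θ * L = lam / 4 := by
    rw [hθdef]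
    field_simp
  have hr1 : Real.exp (-lam / 4) < 1 := by
    rw [Real.exp_lt_one_iff]
    linarith
  have ht := tendsto_pow_const_mul_const_pow_of_abs_lt_one 1 (r := Real.exp (-lam / 4)) (by
    rw [abs_of_pos (Real.exp_pos _)]
    exact hr1)
  obtain ⟨d₀, hd₀⟩ := Filter.eventually_atTop.1
    (ht.eventually (gt_mem_nhds (show (0 : ℝ) < 1 / (8 * q) by positivity)))
  refine ⟨θ, hθ, max d₀ 2, ?_⟩
  intro d z J U hd hAz hU hdJ hJd hJ
  have hd2 : 2 ≤ d := (le_max_right _ _).trans hd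
  have hdd : (d : ℝ) * Real.exp (-lam / 4) ^ d < 1 / (8 * q) := by
    have := hd₀ d ((le_max_left _ _).trans hd)
    rwa [pow_one] at this
  have hPz : ∀ T, T ⊆ Pz K z → Pr T := by
    intro T hT P hP
    have h1 := mem_of_mem_erase (hT hP)
    rw [mem_PU] at h1
    exact ⟨h1.1, h1.2.1⟩
  -- the sum
  have e1 : ∑ j ∈ Finset.range (J + 1), ((d : ℝ) - j) * Nn K d j z U =
      q ^ d * ∑ T ∈ (Pz K z).powerset, U T * ∑ j ∈ range (J + 1), ((d : ℝ) - j) * sT T j := by
    have e2 : ∀ j ∈ range (J + 1), ((d : ℝ) - j) * Nn K d j z U =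
        ∑ T ∈ (Pz K z).powerset, q ^ d * (U T * (((d : ℝ) - j) * sT T j)) := by
      intro j hj
      rw [mem_range] at hj
      rw [Nn_eq hU (by omega), mul_left_comm, mul_sum, mul_sum]
      refine sum_congr rfl fun T _ => ?_
      ring
    rw [sum_congr rfl e2, sum_comm, mul_sum]
    refine sum_congr rfl fun T _ => ?_
    rw [← mul_sum, ← mul_sum]
  have e3 : ∑ j ∈ Finset.range (J + 1), ((d : ℝ) - j) * Nn K d j z U - q ^ d =
      q ^ d * ∑ T ∈ (Pz K z).powerset.erase ∅,
        U T * ∑ j ∈ range (J + 1), ((d : ℝ) - j) * sT T j := by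
    rw [e1, ← add_sum_erase _ _ (empty_mem_powerset _), hU.2.1, W_empty (by omega)]
    ring
  set N := A * z with hN
  have hbound : |∑ T ∈ (Pz K z).powerset.erase ∅,
      U T * ∑ j ∈ range (J + 1), ((d : ℝ) - j) * sT T j| ≤
      q ^ (N + 1) * (8 * 5 ^ N * d * (2 / 3) ^ J) := by
    refine (abs_sum_le_sum_abs _ _).trans ?_
    have h1 : ∀ T ∈ (Pz K z).powerset.erase ∅,
        |U T * ∑ j ∈ range (J + 1), ((d : ℝ) - j) * sT T j| ≤
        if ∑ P ∈ T, P.natDegree ≤ N then 8 * 5 ^ N * d * (2 / 3 : ℝ) ^ J else 0 := by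
      intro T hT
      rw [mem_erase, mem_powerset] at hT
      by_cases hUT : U T = 0
      · rw [hUT, zero_mul, abs_zero]
        split_ifs
        · positivity
        · exact le_rfl
      · have h2 := (hU.2.2.1 T hUT).2
        have hPT := hPz T hT.2
        rw [if_pos h2, abs_mul]
        have h3 : ∀ P ∈ T, P.natDegree ≤ J := by
          intro P hP
          have : P.natDegree ≤ ∑ P ∈ T, P.natDegree :=
            single_le_sum (f := fun P : K[X] => P.natDegree) (fun _ _ => Nat.zero_le _) hP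
          omega
        have h4 : T.card ≤ N := by
          refine le_trans ?_ h2
          rw [card_eq_sum_ones]
          exact sum_le_sum fun P hP => (hPT P hP).2.natDegree_pos
        have h5 := W_bound hPT (nonempty_iff_ne_empty.2 hT.1) h3 (d : ℝ) (by exact_mod_cast hJ.le)
        calc |U T| * |∑ j ∈ range (J + 1), ((d : ℝ) - j) * sT T j| ≤
            1 * (8 * 5 ^ T.card * d * (2 / 3) ^ J) :=
              mul_le_mul (hU.1 T) h5 (abs_nonneg _) zero_le_one
          _ = 8 * 5 ^ T.card * d * (2 / 3) ^ J := one_mul _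
          _ ≤ 8 * 5 ^ N * d * (2 / 3) ^ J := by
            have : (5 : ℝ) ^ T.card ≤ 5 ^ N := pow_le_pow_right₀ (by norm_num) h4
            gcongr
    refine (sum_le_sum h1).trans ?_
    refine (sum_le_sum_of_subset_of_nonneg (erase_subset _ _) ?_).trans ?_
    · intro T _ _
      split_ifs
      · positivity
      · exact le_rfl
    rw [← sum_filter, sum_const, nsmul_eq_mul]
    refine mul_le_mul_of_nonneg_right ?_ (by positivity)
    have := card_sets (K := K) z N
    calc _ ≤ (((Fintype.card K ^ (N + 1) : ℕ)) : ℝ) := by exact_mod_cast this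
      _ = q ^ (N + 1) := by push_cast; rfl
  rw [e3, abs_mul, abs_of_nonneg (by positivity)]
  -- the numerical part
  have hNθ : (N : ℝ) ≤ θ * d := hAz
  have hlog : Real.log (5 * q) + Real.log q = L := by
    rw [hLdef, ← Real.log_mul (by positivity) (by positivity)]
    congr 1
    ring
  have h5q : 0 ≤ Real.log (5 * q) := Real.log_nonneg (by nlinarith)
  have f1 : (5 * q) ^ N = Real.exp (N * Real.log (5 * q)) := by
    rw [mul_comm (N : ℝ), Real.exp_mul, Real.exp_log (by positivity), Real.rpow_natCast]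
  have f2 : q ^ (θ * (d : ℝ)) = Real.exp (Real.log q * (θ * d)) := by
    rw [Real.rpow_def_of_pos hq0]
  have f3 : (2 / 3 : ℝ) ^ J = Real.exp (-lam * J) := by
    rw [Real.exp_mul, Real.rpow_natCast, Real.exp_neg, hlamdef, Real.exp_log (by norm_num)]
    norm_num
  have f4 : Real.exp (-lam / 4) ^ d = Real.exp (-lam / 4 * d) := by
    rw [Real.exp_mul, Real.rpow_natCast]
  have f5 : (5 * q) ^ N * q ^ (θ * (d : ℝ)) * (2 / 3 : ℝ) ^ J ≤ Real.exp (-lam / 4) ^ d := by
    rw [f1, f2, f3, f4, ← Real.exp_add, ← Real.exp_add, Real.exp_le_exp]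
    have g1 : (N : ℝ) * Real.log (5 * q) ≤ θ * d * Real.log (5 * q) :=
      mul_le_mul_of_nonneg_right hNθ h5q
    have g2 : (d : ℝ) ≤ 2 * J := by exact_mod_cast hdJ
    have g3 : θ * d * Real.log (5 * q) + Real.log q * (θ * d) = lam / 4 * d := by
      rw [← hθL, ← hlog]
      ring
    have g4 : lam * d ≤ lam * (2 * J) := mul_le_mul_of_nonneg_left g2 hlam.le
    nlinarith
  have f6 : q ^ ((1 - θ) * (d : ℝ)) * q ^ (θ * (d : ℝ)) = q ^ d := by
    rw [← Real.rpow_add hq0, ← Real.rpow_natCast]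
    congr 1
    ring
  have f7 : 0 < q ^ (θ * (d : ℝ)) := Real.rpow_pos_of_pos hq0 _
  refine le_of_mul_le_mul_right ?_ f7
  rw [f6]
  calc q ^ d * |∑ T ∈ (Pz K z).powerset.erase ∅,
      U T * ∑ j ∈ range (J + 1), ((d : ℝ) - j) * sT T j| * q ^ (θ * (d : ℝ)) ≤
      q ^ d * (q ^ (N + 1) * (8 * 5 ^ N * d * (2 / 3) ^ J)) * q ^ (θ * (d : ℝ)) :=
        mul_le_mul_of_nonneg_right (mul_le_mul_of_nonneg_left hbound (by positivity)) f7.le
    _ = q ^ d * (8 * q * (d * ((5 * q) ^ N * q ^ (θ * (d : ℝ)) * (2 / 3) ^ J))) := by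
        rw [mul_pow]
        ring
    _ ≤ q ^ d * (8 * q * (d * Real.exp (-lam / 4) ^ d)) := by gcongr
    _ ≤ q ^ d * (8 * q * (1 / (8 * q))) := by gcongr
    _ = q ^ d := by field_simp

end Pool.Agent.H604.LD

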