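import Pool.Agent.H604.LD.StmU
import Pool.Agent.H604.LD.Far1
import Pool.Agent.H604.LD.NearP

/-!
# The main term, uniform version (task FAR1U, helper975; the method is that of `Far1.lean` by
helper670)
-/

set_option autoImplicit false
set_option linter.all false

namespace Pool.Agent.H604.LD.F1U

open Polynomial Finset
open scoped Classical
open Pool.Agent.H985.Chow (mob)
open Pool.Agent.H694.Typ
open Pool.Agent.H604.LD.F1

/-! ### Local sums over the `D` prime to a set of primes -/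

section loc

variable {K : Type} [Field K] [Fintype K]

/-- no element of `S` divides `D` -/
def ND (S : Finset K[X]) (D : K[X]) : Prop := ∀ P ∈ S, ¬ P ∣ D

noncomputable def sS (S T : Finset K[X]) (j : ℕ) : ℝ :=
  wt K j * ∑ D ∈ (Mn K j).filter (fun D => ND S D), (mob D : ℝ) * gT T D

lemma sS_empty (T : Finset K[X]) (j : ℕ) : sS (∅ : Finset K[X]) T j = sT T j := by
  unfold sS sT
  congr 1
  refine sum_congr ?_ fun _ _ => rfl
  apply Finset.filter_true_of_mem
  intro D _ P hP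
  exact absurd hP (notMem_empty _)

lemma ND_mul {S : Finset K[X]} {P D : K[X]} (hS : Pr S) (hP : P.Monic ∧ Irreducible P)
    (h : P ∉ S) : ND S (P * D) ↔ ND S D := by
  have key : ∀ Q ∈ S, (Q ∣ P * D ↔ Q ∣ D) := by
    intro Q hQ
    have h1 : Q ≠ P := fun h' => h (h' ▸ hQ)
    constructor
    · intro h3
      exact ((hS Q hQ).2.prime.dvd_or_dvd h3).resolve_left (not_dvd_of_ne hP (hS Q hQ) h1)
    · intro h3
      exact h3.mul_left P
  constructor
  · intro h1 Q hQ h2
    exact h1 Q hQ ((key Q hQ).2 h2)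
  · intro h1 Q hQ h2
    exact h1 Q hQ ((key Q hQ).1 h2)

lemma ND_insert {S : Finset K[X]} {P D : K[X]} : ND (insert P S) D ↔ ¬ P ∣ D ∧ ND S D := by
  unfold ND
  constructor
  · intro h
    exact ⟨h P (mem_insert_self _ _), fun Q hQ => h Q (mem_insert_of_mem hQ)⟩
  · rintro ⟨h1, h2⟩ Q hQ
    rcases mem_insert.1 hQ with rfl | h3
    · exact h1
    · exact h2 Q h3

/-- the part of the multiples of `P` -/
lemma part' {S T : Finset K[X]} {P : K[X]} (hS : Pr S) (hT : Pr T) (hP : P.Monic ∧ Irreducible P)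
    (hPS : P ∉ S) (hPT : P ∉ T) (j : ℕ) :
    wt K j * ∑ D ∈ (Mn K j).filter (fun D => P ∣ D),
        (if ND S D then (mob D : ℝ) * gT T D else 0) =
      - (wt K P.natDegree * (if P.natDegree ≤ j then sS (insert P S) T (j - P.natDegree) else 0)) := by
  split_ifs with hj
  · rw [sum_mul hP.1 hj]
    unfold sS
    rw [← mul_assoc, ← wt_add, show P.natDegree + (j - P.natDegree) = j by omega, ← mul_neg,
      ← sum_neg_distrib, sum_filter]
    congr 1
    refine sum_congr rfl fun D hD => ?_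
    rw [mem_Mn] at hD
    rw [mob_mul_P hP.2 hD.1.ne_zero, gT_mul hT hP hPT, ND_mul hS hP hPS, ND_insert]
    by_cases h3 : P ∣ D
    · rw [if_pos h3, if_neg (fun h : ¬ P ∣ D ∧ ND S D => h.1 h3)]
      split_ifs <;> simp
    · by_cases h4 : ND S D
      · rw [if_neg h3, if_pos h4, if_pos ⟨h3, h4⟩]
        push_cast
        ring
      · rw [if_neg h4, if_neg (fun h : ¬ P ∣ D ∧ ND S D => h4 h.2)]
  · rw [mul_zero, neg_zero]
    have h1 : (Mn K j).filter (fun D => P ∣ D) = ∅ := by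
      apply Finset.filter_false_of_mem
      intro f hf
      exact no_dvd (by omega) hf
    rw [h1, sum_empty, mul_zero]

lemma split_P (S T : Finset K[X]) (P : K[X]) (j : ℕ) (f : K[X] → ℝ) :
    ∑ D ∈ (Mn K j).filter (fun D => ND S D), f D =
      ∑ D ∈ (Mn K j).filter (fun D => P ∣ D), (if ND S D then f D else 0) +
        ∑ D ∈ (Mn K j).filter (fun D => ND (insert P S) D), f D := by
  rw [sum_filter, sum_filter, sum_filter, ← sum_add_distrib]
  refine sum_congr rfl fun D _ => ?_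
  rw [ND_insert]
  by_cases h1 : P ∣ D
  · rw [if_pos h1, if_neg (fun h : ¬ P ∣ D ∧ ND S D => h.1 h1), add_zero]
  · by_cases h2 : ND S D
    · rw [if_pos h2, if_neg h1, if_pos ⟨h1, h2⟩, zero_add]
    · rw [if_neg h2, if_neg h1, if_neg (fun h : ¬ P ∣ D ∧ ND S D => h2 h.2), zero_add]

lemma rec1 {S T : Finset K[X]} {P : K[X]} (hS : Pr S) (hT : Pr T) (hP : P.Monic ∧ Irreducible P)
    (hPS : P ∉ S) (hPT : P ∉ T) (j : ℕ) : sS S T j = sS (insert P S) T j -
      wt K P.natDegree *
        (if P.natDegree ≤ j then sS (insert P S) T (j - P.natDegree) else 0) := by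
  have h1 := part' hS hT hP hPS hPT j
  rw [sub_eq_add_neg, ← h1]
  unfold sS
  rw [split_P S T P j, mul_add, add_comm]

lemma rec2 {S T : Finset K[X]} {P : K[X]} (hS : Pr S) (hT : Pr T) (hP : P.Monic ∧ Irreducible P)
    (hPS : P ∉ S) (hPT : P ∉ T) (j : ℕ) : sS S (insert P T) j = wt K P.natDegree *
      (sS (insert P S) T j -
        (if P.natDegree ≤ j then sS (insert P S) T (j - P.natDegree) else 0)) := by
  have h1 := part' hS hT hP hPS hPT j
  rw [mul_sub, sub_eq_add_neg, ← h1]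
  have h2 : ∀ D, gT (insert P T) D = (if P ∣ D then 1 else wt K P.natDegree) * gT T D := by
    intro D
    unfold gT
    rw [prod_insert hPT]
  unfold sS
  rw [split_P S T P j, mul_add, add_comm]
  congr 1
  · rw [mul_left_comm]
    congr 1
    rw [mul_sum]
    refine sum_congr rfl fun D hD => ?_
    rw [mem_filter, ND_insert] at hD
    rw [h2, if_neg hD.2.1]
    ring
  · congr 1
    refine sum_congr rfl fun D hD => ?_
    rw [mem_filter] at hD
    rw [h2, if_pos hD.2, one_mul]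

/-- the bounds for `T = ∅` -/
lemma bound_S (S : Finset K[X]) : Pr S →
    (∀ j, |sS S ∅ j| ≤ (3 / 2) * 4 ^ S.card * (2 / 3) ^ j) ∧
    ∀ N, |∑ j ∈ range (N + 1), sS S ∅ j| ≤ 14 * 4 ^ S.card * (2 / 3) ^ N := by
  induction S using Finset.induction_on with
  | empty =>
    intro _
    obtain ⟨h1, h2⟩ := sT_bound (K := K) ∅ (fun P hP => absurd hP (notMem_empty _))
    rw [card_empty, pow_zero] at h1 h2 ⊢
    simp only [sS_empty]
    refine ⟨h1, fun N => (h2 N).trans ?_⟩
    have : (0 : ℝ) ≤ (2 / 3) ^ N := by positivity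
    linarith
  | insert P S hPS ih =>
    intro hS
    have hP := hS P (mem_insert_self _ _)
    have hS' : Pr S := fun Q hQ => hS Q (mem_insert_of_mem hQ)
    obtain ⟨hB, hV⟩ := ih hS'
    have hp : 1 ≤ P.natDegree := hP.2.natDegree_pos
    obtain ⟨hw1, hw2⟩ := wt_le (K := K) hp
    have hw0 := wt_nonneg (k := K) P.natDegree
    have hE : Pr (∅ : Finset K[X]) := fun P hP => absurd hP (notMem_empty _)
    rw [card_insert_of_notMem hPS, pow_succ]
    have hr := rec1 hS' hE hP hPS (notMem_empty P)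
    constructor
    · intro j
      have h1 := seq_a hw0 hw2 hp (by positivity) hr hB j
      refine h1.trans (le_of_eq ?_)
      ring
    · intro N
      have h1 := seq_A hw0 hw1 hw2 hp (by positivity) hr hB hV N
      refine h1.trans ?_
      have h2 : (0 : ℝ) ≤ 4 ^ S.card * (2 / 3) ^ N := by positivity
      nlinarith

/-- the bounds -/
lemma bound_ST {S : Finset K[X]} (hS : Pr S) (T : Finset K[X]) : Pr T → Disjoint S T →
    (∀ j, |sS S T j| ≤ (3 / 2) * (4 ^ S.card * 5 ^ T.card) * (2 / 3) ^ j) ∧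
    ∀ N, |∑ j ∈ range (N + 1), sS S T j| ≤ 14 * (4 ^ S.card * 5 ^ T.card) * (2 / 3) ^ N := by
  induction T using Finset.induction_on with
  | empty =>
    intro _ _
    obtain ⟨h1, h2⟩ := bound_S S hS
    rw [card_empty, pow_zero, mul_one]
    exact ⟨h1, h2⟩
  | insert P T hPT ih =>
    intro hT hST
    have hP := hT P (mem_insert_self _ _)
    have hT' : Pr T := fun Q hQ => hT Q (mem_insert_of_mem hQ)
    rw [disjoint_insert_right] at hST
    obtain ⟨hB, hV⟩ := ih hT' hST.2
    have hp : 1 ≤ P.natDegree := hP.2.natDegree_pos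
    obtain ⟨hw1, hw2⟩ := wt_le (K := K) hp
    have hw0 := wt_nonneg (k := K) P.natDegree
    rw [card_insert_of_notMem hPT, pow_succ]
    have hr1 := rec1 hS hT' hP hST.1 hPT
    have hr2 := rec2 hS hT' hP hST.1 hPT
    constructor
    · intro j
      have h1 := seq_s' hw0 hw1 hw2 hp (by positivity) hr1 hr2 hB j
      refine h1.trans (le_of_eq ?_)
      ring
    · intro N
      have h1 := seq_V' hw0 hw2 hp (by positivity) hr1 hr2 hB N
      refine h1.trans ?_
      have h2 : (0 : ℝ) ≤ 4 ^ S.card * 5 ^ T.card * (2 / 3) ^ N := by positivity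
      nlinarith

/-- the main sum for nonempty sets -/
lemma W_bound' {S T : Finset K[X]} (hS : Pr S) (hT : Pr T) (hST : Disjoint S T)
    (hne : T.Nonempty) {J : ℕ} (hJ : ∀ P ∈ T, P.natDegree ≤ J) (x : ℝ) (hx : (J : ℝ) ≤ x) :
    |∑ j ∈ range (J + 1), (x - j) * sS S T j| ≤
      58 * (4 ^ S.card * 5 ^ T.card) * x * (2 / 3) ^ J := by
  obtain ⟨P, hPT⟩ := hne
  obtain ⟨T', hT', rfl⟩ : ∃ T', P ∉ T' ∧ insert P T' = T :=
    ⟨T.erase P, notMem_erase _ _, insert_erase hPT⟩
  have hP := hT P (mem_insert_self _ _)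
  have hT2 : Pr T' := fun Q hQ => hT Q (mem_insert_of_mem hQ)
  rw [disjoint_insert_right] at hST
  obtain ⟨hB, hV⟩ := bound_ST hS T' hT2 hST.2
  have hp : 1 ≤ P.natDegree := hP.2.natDegree_pos
  obtain ⟨hw1, hw2⟩ := wt_le (K := K) hp
  have hw0 := wt_nonneg (k := K) P.natDegree
  have h1 := seq_W' hw0 hw1 hw2 hp (by positivity) (by positivity) (rec1 hS hT2 hP hST.1 hT')
    (rec2 hS hT2 hP hST.1 hT') hB hV (hJ P hPT) x hx
  refine h1.trans ?_
  rw [card_insert_of_notMem hT', pow_succ]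
  have hx0 : 0 ≤ x := le_trans (Nat.cast_nonneg _) hx
  have h2 : (0 : ℝ) ≤ 4 ^ S.card * 5 ^ T'.card * x * (2 / 3) ^ J := by positivity
  nlinarith

/-- the main sum for the empty set -/
lemma W_main {J : ℕ} (hJ1 : 1 ≤ J) (x : ℝ) (hx : (J : ℝ) ≤ x) (S : Finset K[X]) : Pr S →
    (∀ P ∈ S, P.natDegree ≤ J) →
    |∑ j ∈ range (J + 1), (x - j) * sS S ∅ j - (∏ P ∈ S, (1 - wt K P.natDegree))⁻¹| ≤
      58 * 4 ^ S.card * x * (2 / 3) ^ J := by
  have hx0 : 0 ≤ x := le_trans (Nat.cast_nonneg _) hx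
  induction S using Finset.induction_on with
  | empty =>
    intro _ _
    simp only [sS_empty]
    rw [W_empty hJ1, prod_empty, inv_one, sub_self, abs_zero]
    positivity
  | insert P S hPS ih =>
    intro hS hSJ
    have hP := hS P (mem_insert_self _ _)
    have hS' : Pr S := fun Q hQ => hS Q (mem_insert_of_mem hQ)
    have ih := ih hS' fun Q hQ => hSJ Q (mem_insert_of_mem hQ)
    obtain ⟨hB, hV⟩ := bound_S S hS'
    have hp : 1 ≤ P.natDegree := hP.2.natDegree_pos
    obtain ⟨hw1, hw2⟩ := wt_le (K := K) hp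
    have hw0 := wt_nonneg (k := K) P.natDegree
    have hE : Pr (∅ : Finset K[X]) := fun P hP => absurd hP (notMem_empty _)
    have hr1 := rec1 hS' hE hP hPS (notMem_empty P)
    have hr2 := rec2 hS' hE hP hPS (notMem_empty P)
    have hpJ : P.natDegree ≤ J := hSJ P (mem_insert_self _ _)
    have h1 := seq_W' hw0 hw1 hw2 hp (by positivity) (by positivity) hr1 hr2 hB hV hpJ x hx
    rw [card_insert_of_notMem hPS, pow_succ, prod_insert hPS]
    set Q := wt K P.natDegree with hQ
    have e1 : (1 - Q) * ∑ j ∈ range (J + 1), (x - j) * sS (insert P S) ∅ j =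
        ∑ j ∈ range (J + 1), (x - j) * sS S ∅ j -
          ∑ j ∈ range (J + 1), (x - j) * sS S (insert P ∅) j := by
      rw [← sum_sub_distrib, mul_sum]
      refine sum_congr rfl fun j _ => ?_
      rw [hr1 j, hr2 j]
      ring
    set E := ∑ j ∈ range (J + 1), (x - j) * sS (insert P S) ∅ j with hEdef
    set E₀ := ∑ j ∈ range (J + 1), (x - j) * sS S ∅ j with hE₀
    set E₁ := ∑ j ∈ range (J + 1), (x - j) * sS S (insert P ∅) j with hE₁
    set Rr := ∏ P ∈ S, (1 - wt K P.natDegree) with hRr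
    have hQ1 : 0 < 1 - Q := by linarith
    have e2 : E - ((1 - Q) * Rr)⁻¹ = ((E₀ - Rr⁻¹) - E₁) * (1 - Q)⁻¹ := by
      rw [mul_inv]
      have h3 : E = (E₀ - E₁) * (1 - Q)⁻¹ := by
        rw [← e1]
        field_simp
      rw [h3]
      ring
    have h4 : |(1 - Q)⁻¹| ≤ 2 := by
      rw [abs_of_pos (inv_pos.2 hQ1), inv_le_comm₀ hQ1 (by norm_num)]
      linarith
    rw [e2, abs_mul]
    have h5 : |(E₀ - Rr⁻¹) - E₁| ≤ 116 * 4 ^ S.card * x * (2 / 3) ^ J := by
      refine (abs_sub _ _).trans ?_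
      have h6 : |E₁| ≤ 58 * 4 ^ S.card * x * (2 / 3) ^ J := by
        refine h1.trans (le_of_eq ?_)
        ring
      linarith
    calc |(E₀ - Rr⁻¹) - E₁| * |(1 - Q)⁻¹| ≤ (116 * 4 ^ S.card * x * (2 / 3) ^ J) * 2 :=
          mul_le_mul h5 h4 (abs_nonneg _) (by positivity)
      _ = 58 * (4 ^ S.card * 4) * x * (2 / 3) ^ J := by ring

end loc

/-! ### The primes of `M` -/

section primes

variable {K : Type} [Field K] [Fintype K]

/-- the monic irreducible divisors of `M` -/
noncomputable def SM (M : K[X]) : Finset K[X] := (PU K M.natDegree).filter (fun P => P ∣ M)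

lemma mem_SM {M P : K[X]} (hM : M ≠ 0) : P ∈ SM M ↔ P.Monic ∧ Irreducible P ∧ P ∣ M := by
  unfold SM
  rw [mem_filter, mem_PU]
  constructor
  · rintro ⟨⟨h1, h2, -⟩, h3⟩
    exact ⟨h1, h2, h3⟩
  · rintro ⟨h1, h2, h3⟩
    exact ⟨⟨h1, h2, natDegree_le_of_dvd h3 hM⟩, h3⟩

lemma Pr_SM {M : K[X]} (hM : M ≠ 0) : Pr (SM M) := by
  intro P hP
  have := (mem_SM hM).1 hP
  exact ⟨this.1, this.2.1⟩

lemma PiM_eq {M : K[X]} (hM : M ≠ 0) : PiM M = ∏ P ∈ SM M, (1 - wt K P.natDegree) := by
  unfold PiM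
  have h : Pool.Agent.H985.KP.PA M = (SM M : Set K[X]) := by
    ext P
    rw [Finset.mem_coe, mem_SM hM]
    rfl
  rw [h, finprod_mem_coe_finset]
  refine prod_congr rfl fun P _ => ?_
  unfold wt
  rw [one_div]

lemma ND_SM {M D : K[X]} (hM : M ≠ 0) : ND (SM M) D ↔ IsCoprime D M := by
  constructor
  · intro h
    by_contra hc
    have hg : ¬ IsUnit (EuclideanDomain.gcd D M) := fun h1 =>
      hc (EuclideanDomain.gcd_isUnit_iff.1 h1)
    obtain ⟨P, hPm, hPi, hPg⟩ := exists_monic_irreducible_factor _ hg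
    exact h P ((mem_SM hM).2 ⟨hPm, hPi, hPg.trans (EuclideanDomain.gcd_dvd_right _ _)⟩)
      (hPg.trans (EuclideanDomain.gcd_dvd_left _ _))
  · intro h P hP hPD
    obtain ⟨_, h2, h3⟩ := (mem_SM hM).1 hP
    exact h2.not_isUnit (h.isUnit_of_dvd' hPD h3)

lemma card_SM {M : K[X]} (hM : M ≠ 0) : (SM M).card ≤ M.natDegree := by
  have hP := Pr_SM hM
  obtain ⟨-, -, hdeg, -⟩ := prod_facts hP
  have h1 : ∏ P ∈ SM M, P ∣ M := by
    refine Finset.prod_dvd_of_coprime ?_ ?_
    · intro P hP' Q hQ hPQ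
      exact ((hP P hP').2.coprime_iff_not_dvd).2 (not_dvd_of_ne (hP Q hQ) (hP P hP') hPQ)
    · intro P hP'
      exact ((mem_SM hM).1 hP').2.2
  have h2 := natDegree_le_of_dvd h1 hM
  rw [hdeg] at h2
  refine le_trans ?_ h2
  rw [card_eq_sum_ones]
  exact sum_le_sum fun P hP' => (hP P hP').2.natDegree_pos

end primes

/-! ### The count -/

section count

variable {K : Type} [Field K] [Fintype K] [CharP K 2]

lemma card_G {γ : K} {b M a₀ α g : K[X]} {d : ℕ} (hU : DatU γ b M a₀ α g d) (l : ℕ) {G : K[X]}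
    (hG : G.Monic) (hs : Squarefree G) (hc : IsCoprime G M)
    (hd : G.natDegree + M.natDegree + l ≤ d) :
    (((AsU K d M a₀ g l).filter (fun a => G ∣ ga γ b α a)).card : ℝ) =
      (Fintype.card K : ℝ) ^ (d - M.natDegree - l) * wt K G.natDegree := by
  have hq0 : (0 : ℝ) < (Fintype.card K : ℝ) := by
    have := q_ge (k := K)
    linarith
  have hdeg : (G * M).natDegree = G.natDegree + M.natDegree := by
    rw [hG.natDegree_mul hU.dat.hM]
  rw [NearPL.count hU l hG hs hc, hdeg]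
  have h0 : G.natDegree + M.natDegree - (d - l) = 0 := by omega
  have hsum : ∑ ξ : degreeLT K (G.natDegree + M.natDegree - (d - l)),
      Pool.Agent.H985.KP.sg (Pool.Agent.H985.Chow.lc (G * M) (ξ.1 * (rho γ b M a₀ G - g))) = 1 := by
    have hz : ∀ ξ : degreeLT K (G.natDegree + M.natDegree - (d - l)),
        Pool.Agent.H985.KP.sg
          (Pool.Agent.H985.Chow.lc (G * M) (ξ.1 * (rho γ b M a₀ G - g))) = 1 := by
      intro ξ
      have h1 := ξ.2
      rw [mem_degreeLT] at h1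
      have h2 : ξ.1 = 0 := by
        by_contra hne
        rw [degree_eq_natDegree hne] at h1
        have h3 : ξ.1.natDegree < G.natDegree + M.natDegree - (d - l) := by exact_mod_cast h1
        omega
      rw [h2, zero_mul, Pool.Agent.H985.Chow.RT.lc_zero, Pool.Agent.H985.KP.Loc2.sg_zero]
    rw [Finset.sum_congr rfl fun ξ _ => hz ξ, Finset.sum_const, Finset.card_univ,
      NearPL.card_PT, h0]
    simp
  rw [hsum, mul_one, Real.rpow_sub hq0, Real.rpow_natCast, Real.rpow_natCast]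
  unfold wt
  have h1 : (Fintype.card K : ℝ) ^ (d - l) =
      (Fintype.card K : ℝ) ^ (d - M.natDegree - l) * (Fintype.card K : ℝ) ^ M.natDegree := by
    rw [← pow_add]
    congr 1
    omega
  rw [h1, pow_add]
  field_simp

lemma card_bothU {γ : K} {b M a₀ α g : K[X]} {d : ℕ} (hU : DatU γ b M a₀ α g d) (l : ℕ)
    {T : Finset K[X]} (hT : Pr T) (hTM : ∀ P ∈ T, ¬ P ∣ M) {D : K[X]} (hD : D.Monic)
    (hDM : IsCoprime D M) (hd : D.natDegree + ∑ P ∈ T, P.natDegree + M.natDegree + l ≤ d) :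
    (mob D : ℝ) * (((AsU K d M a₀ g l).filter
        (fun a => D ∣ ga γ b α a ∧ ∀ P ∈ T, P ∣ ga γ b α a)).card : ℝ) =
      (Fintype.card K : ℝ) ^ (d - M.natDegree - l) *
        (wt K D.natDegree * ((mob D : ℝ) * gT T D)) := by
  by_cases hs : Squarefree D
  · set T₁ := T.filter (fun P => ¬ P ∣ D) with hT₁
    have hT₁P : Pr T₁ := fun P hP => hT P (mem_filter.1 hP).1
    obtain ⟨hm, hsq, hdeg, -⟩ := prod_facts hT₁P
    have hcop : IsCoprime D (∏ P ∈ T₁, P) := by
      rw [IsCoprime.prod_right_iff]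
      intro P hP
      have h1 := mem_filter.1 hP
      exact (((hT P h1.1).2.coprime_iff_not_dvd).2 h1.2).symm
    have hcopM : IsCoprime (∏ P ∈ T₁, P) M := by
      rw [IsCoprime.prod_left_iff]
      intro P hP
      have h1 := mem_filter.1 hP
      exact ((hT P h1.1).2.coprime_iff_not_dvd).2 (hTM P h1.1)
    set G := D * ∏ P ∈ T₁, P with hG
    have hGm : G.Monic := hD.mul hm
    have hGs : Squarefree G := by
      rw [hG, squarefree_mul_iff]
      exact ⟨hcop.isRelPrime, hs, hsq⟩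
    have hGM : IsCoprime G M := hDM.mul_left hcopM
    have hGd : G.natDegree = D.natDegree + ∑ P ∈ T₁, P.natDegree := by
      rw [hG, hD.natDegree_mul hm, hdeg]
    have hle : ∑ P ∈ T₁, P.natDegree ≤ ∑ P ∈ T, P.natDegree :=
      sum_le_sum_of_subset (filter_subset _ _)
    have h1 : (AsU K d M a₀ g l).filter (fun a => D ∣ ga γ b α a ∧ ∀ P ∈ T, P ∣ ga γ b α a) =
        (AsU K d M a₀ g l).filter (fun a => G ∣ ga γ b α a) := by
      refine filter_congr fun a _ => ?_
      constructor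
      · rintro ⟨h2, h3⟩
        refine hcop.mul_dvd h2 ?_
        refine Finset.prod_dvd_of_coprime ?_ ?_
        · intro P hP Q hQ hPQ
          have hP' := hT₁P P hP
          have hQ' := hT₁P Q hQ
          exact (hP'.2.coprime_iff_not_dvd).2 (not_dvd_of_ne hQ' hP' hPQ)
        · intro P hP
          exact h3 P (mem_filter.1 hP).1
      · intro h2
        refine ⟨(dvd_mul_right _ _).trans h2, fun P hP => ?_⟩
        by_cases h3 : P ∣ D
        · exact h3.trans ((dvd_mul_right _ _).trans h2)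
        · exact (dvd_prod_of_mem _ (mem_filter.2 ⟨hP, h3⟩)).trans ((dvd_mul_left _ _).trans h2)
    rw [h1, card_G hU l hGm hGs hGM (by rw [hGd]; omega)]
    have h3 : gT T D = wt K (∑ P ∈ T₁, P.natDegree) := by
      have h4 : ∀ S : Finset K[X], wt K (∑ P ∈ S, P.natDegree) = ∏ P ∈ S, wt K P.natDegree := by
        intro S
        induction S using Finset.induction_on with
        | empty => simp [wt]
        | insert P S hPS ih => rw [sum_insert hPS, prod_insert hPS, wt_add, ih]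
      rw [h4, hT₁, prod_filter]
      unfold gT
      refine prod_congr rfl fun P _ => ?_
      by_cases h5 : P ∣ D
      · rw [if_pos h5, if_neg (not_not.2 h5)]
      · rw [if_neg h5, if_pos h5]
    rw [h3, hGd, wt_add]
    ring
  · rw [mob_nsq hs]
    simp

/-- the formula for the sum over the divisors of degree `j` -/
lemma NnU_eq {γ : K} {b M a₀ α g : K[X]} {d : ℕ} (hU : DatU γ b M a₀ α g d) (l : ℕ) {A z j : ℕ}
    {C : ℝ} {U : Finset K[X] → ℝ} (hB : BHWG K z A C U) (hd : j + A * z + M.natDegree + l ≤ d) :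
    NnU γ b M a₀ α g l d j z U = (Fintype.card K : ℝ) ^ (d - M.natDegree - l) *
      ∑ T ∈ (Pz K z).powerset, if (∀ P ∈ T, ¬ P ∣ M) then U T * sS (SM M) T j else 0 := by
  have hM0 : M ≠ 0 := hU.dat.hM.ne_zero
  have hPz : ∀ T, T ⊆ Pz K z → Pr T := by
    intro T hT P hP
    have h1 := mem_of_mem_erase (hT hP)
    rw [mem_PU] at h1
    exact ⟨h1.1, h1.2.1⟩
  have hbw : ∀ f : K[X], bw z U f = ∑ T ∈ (Pz K z).powerset,
      if ∀ P ∈ T, P ∣ f then U T else 0 := by
    intro f
    unfold bw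
    rw [← sum_filter]
    refine sum_congr ?_ fun _ _ => rfl
    ext T
    rw [mem_powerset, mem_filter, mem_powerset]
    constructor
    · intro h
      exact ⟨fun P hP => (mem_filter.1 (h hP)).1, fun P hP => (mem_filter.1 (h hP)).2⟩
    · rintro ⟨h1, h2⟩ P hP
      exact mem_filter.2 ⟨h1 hP, h2 P hP⟩
  unfold NnU
  have e1 : ∀ a ∈ AsU K d M a₀ g l, ∑ D ∈ (Mn K j).filter (fun D => D ∣ ga γ b α a),
      (mob D : ℝ) * bw z U (ga γ b α a) = ∑ T ∈ (Pz K z).powerset, ∑ D ∈ Mn K j,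
        U T * ((mob D : ℝ) *
          if D ∣ ga γ b α a ∧ ∀ P ∈ T, P ∣ ga γ b α a then 1 else 0) := by
    intro a _
    rw [sum_comm, sum_filter]
    refine sum_congr rfl fun D _ => ?_
    rw [hbw]
    by_cases h : D ∣ ga γ b α a
    · rw [if_pos h, mul_sum]
      refine sum_congr rfl fun T _ => ?_
      by_cases h2 : ∀ P ∈ T, P ∣ ga γ b α a
      · rw [if_pos h2, if_pos ⟨h, h2⟩]
        ring
      · rw [if_neg h2, if_neg (fun h3 => h2 h3.2)]
        ring
    · rw [if_neg h]
      symm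
      refine sum_eq_zero fun T _ => ?_
      rw [if_neg (fun h3 => h h3.1)]
      ring
  have hcopa : ∀ a ∈ AsU K d M a₀ g l, IsCoprime (ga γ b α a) M := by
    intro a ha
    unfold AsU As at ha
    rw [mem_filter, mem_filter] at ha
    exact hU.dat.cop' ha.1.2
  rw [sum_congr rfl e1, sum_comm, mul_sum]
  refine sum_congr rfl fun T hT => ?_
  rw [mem_powerset] at hT
  by_cases hTM : ∀ P ∈ T, ¬ P ∣ M
  swap
  · rw [if_neg hTM, mul_zero]
    push Not at hTM
    obtain ⟨P, hPT, hPM⟩ := hTM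
    refine sum_eq_zero fun a ha => sum_eq_zero fun D _ => ?_
    rw [if_neg, mul_zero, mul_zero]
    rintro ⟨-, h⟩
    exact (hPz T hT P hPT).2.not_isUnit ((hcopa a ha).isUnit_of_dvd' (h P hPT) hPM)
  rw [if_pos hTM]
  by_cases hUT : U T = 0
  · rw [hUT]
    simp
  · have h1 := (hB.2.2.1 T hUT).2
    rw [sum_comm]
    unfold sS
    have e2 : ∀ D ∈ Mn K j, ∑ a ∈ AsU K d M a₀ g l,
        U T * ((mob D : ℝ) * if D ∣ ga γ b α a ∧ ∀ P ∈ T, P ∣ ga γ b α a then 1 else 0) =
        if ND (SM M) D then U T * ((Fintype.card K : ℝ) ^ (d - M.natDegree - l) *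
          (wt K j * ((mob D : ℝ) * gT T D))) else 0 := by
      intro D hD
      rw [mem_Mn] at hD
      by_cases hDM : IsCoprime D M
      · rw [if_pos ((ND_SM hM0).2 hDM)]
        rw [← mul_sum, ← mul_sum, ← sum_filter, sum_const, nsmul_eq_mul, mul_one,
          card_bothU hU l (hPz T hT) hTM hD.1 hDM (by rw [hD.2]; omega), hD.2]
      · rw [if_neg (fun h => hDM ((ND_SM hM0).1 h))]
        refine sum_eq_zero fun a ha => ?_
        rw [if_neg, mul_zero, mul_zero]
        rintro ⟨h, -⟩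
        exact hDM ((hcopa a ha).of_isCoprime_of_dvd_left h)
    rw [sum_congr rfl e2, ← sum_filter, ← mul_sum, ← mul_sum, ← mul_sum]
    ring

end count

end Pool.Agent.H604.LD.F1U

namespace Pool.Agent.H604.LD

open Polynomial Finset F1 F1U
open scoped Classical
open Pool.Agent.H694.Typ

/-- **Task FAR1U.** -/
theorem far1u : S_far1u := by
  intro K _ _ _ A C
  have hq : (2 : ℝ) ≤ (Fintype.card K : ℝ) := q_ge
  set q : ℝ := (Fintype.card K : ℝ) with hqdef
  have hq0 : 0 < q := by linarith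
  have hq1 : 1 ≤ q := by linarith
  set lam := Real.log (3 / 2) with hlamdef
  have hlam : 0 < lam := Real.log_pos (by norm_num)
  set L := Real.log 4 + Real.log (5 * q) + 2 * Real.log q with hLdef
  have hl4 : 0 < Real.log 4 := Real.log_pos (by norm_num)
  have h5q : 0 ≤ Real.log (5 * q) := Real.log_nonneg (by nlinarith)
  have hlq : 0 ≤ Real.log q := Real.log_nonneg hq1
  have hL : 0 < L := by positivity
  set θ := lam / (4 * L) with hθdef
  have hθ : 0 < θ := by positivity
  have hθL : θ * L = lam / 4 := by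
    rw [hθdef]
    field_simp
  have hr1 : Real.exp (-lam / 4) < 1 := by
    rw [Real.exp_lt_one_iff]
    linarith
  have ht := tendsto_pow_const_mul_const_pow_of_abs_lt_one 1 (r := Real.exp (-lam / 4)) (by
    rw [abs_of_pos (Real.exp_pos _)]
    exact hr1)
  obtain ⟨d₀, hd₀⟩ := Filter.eventually_atTop.1
    (ht.eventually (gt_mem_nhds (show (0 : ℝ) < 1 / (116 * q) by positivity)))
  refine ⟨θ, hθ, max d₀ 2, ?_⟩
  intro γ b M a₀ α g l d z J U hU hd hAz hMl hB hdJ hJd hJ
  have hM0 : M ≠ 0 := hU.dat.hM.ne_zero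
  have hd2 : 2 ≤ d := (le_max_right _ _).trans hd
  have hdd : (d : ℝ) * Real.exp (-lam / 4) ^ d < 1 / (116 * q) := by
    have := hd₀ d ((le_max_left _ _).trans hd)
    rwa [pow_one] at this
  have hPz : ∀ T, T ⊆ Pz K z → Pr T := by
    intro T hT P hP
    have h1 := mem_of_mem_erase (hT hP)
    rw [mem_PU] at h1
    exact ⟨h1.1, h1.2.1⟩
  have hαM : α.natDegree ≤ M.natDegree := natDegree_le_of_dvd hU.dat.αM hM0
  obtain ⟨x, hx⟩ : ∃ x : ℝ, x = (d : ℝ) - (α.natDegree : ℝ) / 2 := ⟨_, rfl⟩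
  have hxd : x ≤ d := by
    rw [hx]
    have : (0 : ℝ) ≤ α.natDegree := Nat.cast_nonneg _
    linarith
  have hJx : (J : ℝ) ≤ x := by
    rw [hx]
    have h1 : (J : ℝ) + α.natDegree ≤ d := by exact_mod_cast (by omega : J + α.natDegree ≤ d)
    have : (0 : ℝ) ≤ α.natDegree := Nat.cast_nonneg _
    linarith
  have hx0 : 0 ≤ x := le_trans (Nat.cast_nonneg _) hJx
  rw [← hx]
  set D₀ := d - M.natDegree - l with hD₀
  set S := SM M with hS
  have hSP : Pr S := Pr_SM hM0
  have hSJ : ∀ P ∈ S, P.natDegree ≤ J := by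
    intro P hP
    have h1 := ((mem_SM hM0).1 hP).2.2
    have := natDegree_le_of_dvd h1 hM0
    omega
  -- the sum
  have e1 : ∑ j ∈ Finset.range (J + 1), (x - j) * NnU γ b M a₀ α g l d j z U =
      q ^ D₀ * ∑ T ∈ (Pz K z).powerset, if (∀ P ∈ T, ¬ P ∣ M) then
        U T * ∑ j ∈ range (J + 1), (x - j) * sS S T j else 0 := by
    have e2 : ∀ j ∈ range (J + 1), (x - j) * NnU γ b M a₀ α g l d j z U =
        ∑ T ∈ (Pz K z).powerset, q ^ D₀ * (if (∀ P ∈ T, ¬ P ∣ M) then
          (U T * ((x - j) * sS S T j)) else 0) := by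
      intro j hj
      rw [mem_range] at hj
      rw [NnU_eq hU l hB (by omega), mul_left_comm, mul_sum, mul_sum]
      refine sum_congr rfl fun T _ => ?_
      congr 1
      split_ifs
      · ring
      · rw [mul_zero]
    rw [sum_congr rfl e2, sum_comm, mul_sum]
    refine sum_congr rfl fun T _ => ?_
    rw [← mul_sum]
    congr 1
    split_ifs
    · rw [← mul_sum]
    · rw [sum_const_zero]
  have e3 : ∑ j ∈ Finset.range (J + 1), (x - j) * NnU γ b M a₀ α g l d j z U - q ^ D₀ / PiM M =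
      q ^ D₀ * ((∑ j ∈ range (J + 1), (x - j) * sS S ∅ j - (PiM M)⁻¹) +
        ∑ T ∈ (Pz K z).powerset.erase ∅, if (∀ P ∈ T, ¬ P ∣ M) then
          U T * ∑ j ∈ range (J + 1), (x - j) * sS S T j else 0) := by
    rw [e1, ← add_sum_erase _ _ (empty_mem_powerset _),
      if_pos (fun P hP => absurd hP (notMem_empty _)), hB.2.1, div_eq_mul_inv]
    ring
  set N := A * z with hN
  have hm0 : |∑ j ∈ range (J + 1), (x - j) * sS S ∅ j - (PiM M)⁻¹| ≤
      58 * 4 ^ S.card * d * (2 / 3) ^ J := by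
    rw [PiM_eq hM0]
    refine (W_main (by omega) x hJx S hSP hSJ).trans ?_
    gcongr
  have hbound : |∑ T ∈ (Pz K z).powerset.erase ∅, if (∀ P ∈ T, ¬ P ∣ M) then
      U T * ∑ j ∈ range (J + 1), (x - j) * sS S T j else 0| ≤
      q ^ (N + 1) * (58 * (4 ^ S.card * 5 ^ N) * d * (2 / 3) ^ J) := by
    refine (abs_sum_le_sum_abs _ _).trans ?_
    have h1 : ∀ T ∈ (Pz K z).powerset.erase ∅, |if (∀ P ∈ T, ¬ P ∣ M) then
        U T * ∑ j ∈ range (J + 1), (x - j) * sS S T j else 0| ≤
        if ∑ P ∈ T, P.natDegree ≤ N then 58 * (4 ^ S.card * 5 ^ N) * d * (2 / 3 : ℝ) ^ J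
          else 0 := by
      intro T hT
      rw [mem_erase, mem_powerset] at hT
      have hnn : (0 : ℝ) ≤ if ∑ P ∈ T, P.natDegree ≤ N then
          58 * (4 ^ S.card * 5 ^ N) * d * (2 / 3 : ℝ) ^ J else 0 := by
        split_ifs
        · positivity
        · exact le_rfl
      by_cases hTM : ∀ P ∈ T, ¬ P ∣ M
      swap
      · rw [if_neg hTM, abs_zero]
        exact hnn
      rw [if_pos hTM]
      by_cases hUT : U T = 0
      · rw [hUT, zero_mul, abs_zero]
        exact hnn
      · have h2 := (hB.2.2.1 T hUT).2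
        have hPT := hPz T hT.2
        rw [if_pos h2, abs_mul]
        have h3 : ∀ P ∈ T, P.natDegree ≤ J := by
          intro P hP
          have : P.natDegree ≤ ∑ P ∈ T, P.natDegree :=
            single_le_sum (f := fun P : K[X] => P.natDegree) (fun _ _ => Nat.zero_le _) hP
          omega
        have h4 : T.card ≤ N := by
          refine le_trans ?_ h2
          rw [card_eq_sum_ones]
          exact sum_le_sum fun P hP => (hPT P hP).2.natDegree_pos
        have hdis : Disjoint S T := by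
          rw [Finset.disjoint_left]
          intro P hP hP'
          exact hTM P hP' ((mem_SM hM0).1 hP).2.2
        have h5 := W_bound' hSP hPT hdis (nonempty_iff_ne_empty.2 hT.1) h3 x hJx
        calc |U T| * |∑ j ∈ range (J + 1), (x - j) * sS S T j| ≤
            1 * (58 * (4 ^ S.card * 5 ^ T.card) * x * (2 / 3) ^ J) :=
              mul_le_mul (hB.1 T) h5 (abs_nonneg _) zero_le_one
          _ = 58 * (4 ^ S.card * 5 ^ T.card) * x * (2 / 3) ^ J := one_mul _
          _ ≤ 58 * (4 ^ S.card * 5 ^ N) * d * (2 / 3) ^ J := by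
            have : (5 : ℝ) ^ T.card ≤ 5 ^ N := pow_le_pow_right₀ (by norm_num) h4
            gcongr
    refine (sum_le_sum h1).trans ?_
    refine (sum_le_sum_of_subset_of_nonneg (erase_subset _ _) ?_).trans ?_
    · intro T _ _
      split_ifs
      · positivity
      · exact le_rfl
    rw [← sum_filter, sum_const, nsmul_eq_mul]
    refine mul_le_mul_of_nonneg_right ?_ (by positivity)
    have := card_sets (K := K) z N
    calc _ ≤ (((Fintype.card K ^ (N + 1) : ℕ)) : ℝ) := by exact_mod_cast this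
      _ = q ^ (N + 1) := by push_cast; rfl
  rw [e3, abs_mul, abs_of_nonneg (by positivity)]
  have htot : |(∑ j ∈ range (J + 1), (x - j) * sS S ∅ j - (PiM M)⁻¹) +
        ∑ T ∈ (Pz K z).powerset.erase ∅, (if (∀ P ∈ T, ¬ P ∣ M) then
          U T * ∑ j ∈ range (J + 1), (x - j) * sS S T j else 0)| ≤
      116 * q * (d * (4 ^ M.natDegree * (5 * q) ^ N * (2 / 3) ^ J)) := by
    refine (abs_add_le _ _).trans ?_
    have hc := card_SM hM0
    have h4 : (4 : ℝ) ^ S.card ≤ 4 ^ M.natDegree := pow_le_pow_right₀ (by norm_num) hc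
    have h6 : (1 : ℝ) ≤ (5 * q) ^ N := one_le_pow₀ (by linarith)
    have h7 : |∑ j ∈ range (J + 1), (x - j) * sS S ∅ j - (PiM M)⁻¹| ≤
        58 * q * (d * (4 ^ M.natDegree * (5 * q) ^ N * (2 / 3) ^ J)) := by
      refine hm0.trans ?_
      calc 58 * 4 ^ S.card * (d : ℝ) * (2 / 3) ^ J ≤
          58 * 4 ^ M.natDegree * (d : ℝ) * (2 / 3) ^ J := by gcongr
        _ = 58 * 1 * (d * (4 ^ M.natDegree * 1 * (2 / 3) ^ J)) := by ring
        _ ≤ 58 * q * (d * (4 ^ M.natDegree * (5 * q) ^ N * (2 / 3) ^ J)) := by gcongr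
    have h8 : q ^ (N + 1) * (58 * (4 ^ S.card * 5 ^ N) * (d : ℝ) * (2 / 3) ^ J) ≤
        58 * q * (d * (4 ^ M.natDegree * (5 * q) ^ N * (2 / 3) ^ J)) := by
      calc q ^ (N + 1) * (58 * (4 ^ S.card * 5 ^ N) * (d : ℝ) * (2 / 3) ^ J) ≤
          q ^ (N + 1) * (58 * (4 ^ M.natDegree * 5 ^ N) * (d : ℝ) * (2 / 3) ^ J) := by gcongr
        _ = 58 * q * (d * (4 ^ M.natDegree * (5 * q) ^ N * (2 / 3) ^ J)) := by
          rw [mul_pow]
          ring
    have := hbound.trans h8
    linarith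
  -- the numerical part
  have hNθ : (N : ℝ) ≤ θ * d := hAz
  have hMθ : (M.natDegree : ℝ) ≤ θ * d := by
    refine le_trans ?_ hMl
    push_cast
    have : (0 : ℝ) ≤ l := Nat.cast_nonneg _
    linarith
  have f0 : (4 : ℝ) ^ M.natDegree = Real.exp (M.natDegree * Real.log 4) := by
    rw [mul_comm (M.natDegree : ℝ), Real.exp_mul, Real.exp_log (by norm_num), Real.rpow_natCast]
  have f1 : (5 * q) ^ N = Real.exp (N * Real.log (5 * q)) := by
    rw [mul_comm (N : ℝ), Real.exp_mul, Real.exp_log (by positivity), Real.rpow_natCast]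
  have f2 : q ^ (2 * θ * (d : ℝ)) = Real.exp (Real.log q * (2 * θ * d)) := by
    rw [Real.rpow_def_of_pos hq0]
  have f3 : (2 / 3 : ℝ) ^ J = Real.exp (-lam * J) := by
    rw [Real.exp_mul, Real.rpow_natCast, Real.exp_neg, hlamdef, Real.exp_log (by norm_num)]
    norm_num
  have f4 : Real.exp (-lam / 4) ^ d = Real.exp (-lam / 4 * d) := by
    rw [Real.exp_mul, Real.rpow_natCast]
  have f5 : (4 : ℝ) ^ M.natDegree * (5 * q) ^ N * (2 / 3 : ℝ) ^ J * q ^ (2 * θ * (d : ℝ)) ≤
      Real.exp (-lam / 4) ^ d := by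
    rw [f0, f1, f2, f3, f4, ← Real.exp_add, ← Real.exp_add, ← Real.exp_add, Real.exp_le_exp]
    have g0 : (M.natDegree : ℝ) * Real.log 4 ≤ θ * d * Real.log 4 :=
      mul_le_mul_of_nonneg_right hMθ hl4.le
    have g1 : (N : ℝ) * Real.log (5 * q) ≤ θ * d * Real.log (5 * q) :=
      mul_le_mul_of_nonneg_right hNθ h5q
    have g2 : (d : ℝ) ≤ 2 * J := by exact_mod_cast hdJ
    have g3 : θ * d * Real.log 4 + θ * d * Real.log (5 * q) + Real.log q * (2 * θ * d) =
        lam / 4 * d := by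
      rw [← hθL, hLdef]
      ring
    have g4 : lam * d ≤ lam * (2 * J) := mul_le_mul_of_nonneg_left g2 hlam.le
    nlinarith
  have f6 : q ^ ((1 - 2 * θ) * (d : ℝ)) * q ^ (2 * θ * (d : ℝ)) = q ^ d := by
    rw [← Real.rpow_add hq0, ← Real.rpow_natCast]
    congr 1
    ring
  have f7 : 0 < q ^ (2 * θ * (d : ℝ)) := Real.rpow_pos_of_pos hq0 _
  have f8 : q ^ D₀ ≤ q ^ d := pow_le_pow_right₀ hq1 (by omega)
  refine le_of_mul_le_mul_right ?_ f7
  rw [f6]
  calc _ ≤ q ^ d * (116 * q * (d * (4 ^ M.natDegree * (5 * q) ^ N * (2 / 3) ^ J))) *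
        q ^ (2 * θ * (d : ℝ)) :=
        mul_le_mul_of_nonneg_right (mul_le_mul f8 htot (abs_nonneg _) (by positivity)) f7.le
    _ = q ^ d * (116 * q * (d * (4 ^ M.natDegree * (5 * q) ^ N * (2 / 3) ^ J *
          q ^ (2 * θ * (d : ℝ))))) := by ring
    _ ≤ q ^ d * (116 * q * (d * Real.exp (-lam / 4) ^ d)) := by gcongr
    _ ≤ q ^ d * (116 * q * (1 / (116 * q))) := by gcongr
    _ = q ^ d := by field_simp

end Pool.Agent.H604.LD

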