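import Mathlib
import Pool.Agent.H604.LD.StmG
import Pool.Agent.H604.LD.Hid

/-!
# Task HIDG (helper604, after helper122's HID): the identity for the primes, any degree
-/

set_option autoImplicit false

namespace Pool.Agent.H604.LD

open Polynomial
open scoped Classical
open Pool.Agent.H985.Chow (mob)
open Pool.Agent.H694.Typ (Mn mem_Mn)

namespace HidG

open Hid

variable {K : Type} [Field K] [Fintype K]

/-- the total sum -/
theorem total (n : ℕ) (x : ℝ) {f : K[X]} (hn : 1 ≤ n) (hf : f.Monic) (hs : Squarefree f)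
    (hdeg : f.natDegree = n) :
    ∑ D ∈ Dv f, (mob D : ℝ) * (x - D.natDegree) =
      if Irreducible f then (n : ℝ) else 0 := by
  by_cases hi : Irreducible f
  · rw [if_pos hi]
    have h1 : Dv (1 : K[X]) = {1} := by
      ext D
      rw [mem_Dv one_ne_zero, Finset.mem_singleton]
      constructor
      · rintro ⟨h1, h2⟩
        exact (h1.isUnit_iff).1 (isUnit_of_dvd_one h2)
      · rintro rfl
        exact ⟨monic_one, dvd_rfl⟩
    have h2 : f = f * 1 := (mul_one f).symm
    have hf1 : ¬ f ∣ 1 := fun h => hi.not_isUnit (isUnit_of_dvd_one h)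
    have h3 := sum_split hf hi monic_one hf1 (fun D => (mob D : ℝ) * (x - D.natDegree))
    rw [mul_one] at h3
    rw [h3, h1, Finset.sum_singleton, mul_one, mob_one, mob_irr hi, natDegree_one, hdeg]
    push_cast
    ring
  · rw [if_neg hi]
    have hnu : ¬ IsUnit f := fun h => by
      rw [hf.isUnit_iff] at h
      rw [h, natDegree_one] at hdeg
      omega
    obtain ⟨P, hPi, hP, g, hg⟩ := exists_monic_irreducible_factor f hnu
    have hgm : g.Monic := by
      rw [hg] at hf
      exact hPi.of_mul_monic_left hf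
    have hg0 : 0 < g.natDegree := by
      rw [Nat.pos_iff_ne_zero]
      intro h0
      have h1 : g = 1 := hgm.natDegree_eq_zero.1 h0
      rw [hg, h1, mul_one] at hi
      exact hi hP
    rw [hg] at hs ⊢
    have hPg := not_dvd_of_sqf hP hs
    have hgs : Squarefree g := (squarefree_mul_iff.1 hs).2.2
    rw [sum_split hPi hP hgm hPg]
    have h1 : ∑ D ∈ Dv g, ((mob D : ℝ) * (x - D.natDegree) +
        (mob (P * D) : ℝ) * (x - (P * D).natDegree)) =
        (P.natDegree : ℝ) * ∑ D ∈ Dv g, (mob D : ℝ) := by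
      rw [Finset.mul_sum]
      refine Finset.sum_congr rfl fun D hD => ?_
      rw [mem_Dv hgm.ne_zero] at hD
      rw [mob_mul_cop (cop_of hP hPg hD.2), mob_irr hP, hPi.natDegree_mul hD.1]
      push_cast
      ring
    rw [h1, sum_mob_zero hgm hgs hg0, mul_zero]

/-- the half sum -/
theorem halfsum (n : ℕ) {f : K[X]} (hf : f.Monic) (hdeg : f.natDegree = n) :
    ∑ j ∈ Finset.range (n / 2 + 1), ((n : ℝ) / 2 - j) *
      ∑ D ∈ (Mn K j).filter (fun D => D ∣ f), (mob D : ℝ) =
    ∑ D ∈ Dv f, (if 2 * D.natDegree < n then (mob D : ℝ) * ((n : ℝ) / 2 - D.natDegree) else 0) := by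
  unfold Dv
  rw [Finset.sum_biUnion, hdeg]
  · have h1 : ∀ j : ℕ, ∑ D ∈ (Mn K j).filter (fun D => D ∣ f),
        (if 2 * D.natDegree < n then (mob D : ℝ) * ((n : ℝ) / 2 - D.natDegree) else 0) =
        if 2 * j < n then ((n : ℝ) / 2 - j) * ∑ D ∈ (Mn K j).filter (fun D => D ∣ f), (mob D : ℝ)
          else 0 := by
      intro j
      by_cases hj : 2 * j < n
      · rw [if_pos hj, Finset.mul_sum]
        refine Finset.sum_congr rfl fun D hD => ?_
        rw [Finset.mem_filter, mem_Mn] at hD
        rw [hD.1.2, if_pos hj, mul_comm]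
      · rw [if_neg hj]
        refine Finset.sum_eq_zero fun D hD => ?_
        rw [Finset.mem_filter, mem_Mn] at hD
        rw [hD.1.2, if_neg hj]
    rw [Finset.sum_congr rfl fun j _ => h1 j]
    have hsub : Finset.range (n / 2 + 1) ⊆ Finset.range (n + 1) := by
      intro j hj
      rw [Finset.mem_range] at hj ⊢
      omega
    rw [← Finset.sum_subset hsub]
    · refine Finset.sum_congr rfl fun j hj => ?_
      rw [Finset.mem_range] at hj
      by_cases h2 : 2 * j < n
      · rw [if_pos h2]
      · rw [if_neg h2]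
        have h3 : 2 * j = n := by omega
        have h4 : (2 : ℝ) * j = n := by exact_mod_cast h3
        rw [← h4]
        ring
    · intro j _ hj
      rw [if_neg (fun h => hj (Finset.mem_range.2 (by omega)))]
  · intro i _ j _ hij
    rw [Function.onFun, Finset.disjoint_left]
    intro D hD hD'
    rw [Finset.mem_filter, mem_Mn] at hD hD'
    exact hij (hD.1.2.symm.trans hD'.1.2)

theorem invol (n : ℕ) {f : K[X]} (hf : f.Monic) (hs : Squarefree f) (hdeg : f.natDegree = n) :
    ∑ D ∈ Dv f, (if n < 2 * D.natDegree then (mob D : ℝ) * ((n : ℝ) / 2 - D.natDegree) else 0) =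
    -(mob f : ℝ) *
      ∑ D ∈ Dv f, (if 2 * D.natDegree < n then (mob D : ℝ) * ((n : ℝ) / 2 - D.natDegree) else 0) := by
  have hc : ∀ D ∈ Dv f, D * (f / D) = f := by
    intro D hD
    rw [mem_Dv hf.ne_zero] at hD
    exact EuclideanDomain.mul_div_cancel' hD.1.ne_zero hD.2
  have hm : ∀ D ∈ Dv f, f / D ∈ Dv f := by
    intro D hD
    have h1 := hc D hD
    rw [mem_Dv hf.ne_zero] at hD ⊢
    refine ⟨hD.1.of_mul_monic_left (by rw [h1]; exact hf), ?_⟩
    exact ⟨D, by rw [mul_comm]; exact h1.symm⟩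
  have hcc : ∀ D ∈ Dv f, f / (f / D) = D := by
    intro D hD
    have h1 := hc D hD
    have h2 := hc _ (hm D hD)
    have h3 := hm D hD
    rw [mem_Dv hf.ne_zero] at h3
    apply mul_left_cancel₀ h3.1.ne_zero
    rw [h2, mul_comm, h1]
  rw [Finset.mul_sum]
  refine Finset.sum_nbij' (fun D => f / D) (fun D => f / D) hm hm hcc hcc fun D hD => ?_
  have h1 := hc D hD
  have h3 := hm D hD
  rw [mem_Dv hf.ne_zero] at hD h3
  have hdg : D.natDegree + (f / D).natDegree = n := by
    rw [← hD.1.natDegree_mul h3.1, h1, hdeg]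
  have hsq : Squarefree (D * (f / D)) := by
    rw [h1]
    exact hs
  have hs2 := squarefree_mul_iff.1 hsq
  have hmob : mob f = mob D * mob (f / D) := by
    conv_lhs => rw [← h1]
    exact mob_mul_cop hs2.1.isCoprime
  have hmob2 : (mob D : ℝ) = (mob f : ℝ) * (mob (f / D) : ℝ) := by
    have h4 := mob_mul_self hs2.2.2
    have h5 : mob D = mob f * mob (f / D) := by
      rw [hmob, mul_assoc, h4, mul_one]
    exact_mod_cast h5
  by_cases h : n < 2 * D.natDegree
  · have h' : 2 * (f / D).natDegree < n := by omega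
    rw [if_pos h, if_pos h', hmob2]
    have h6 : (D.natDegree : ℝ) + ((f / D).natDegree : ℝ) = (n : ℝ) := by exact_mod_cast hdg
    have h7 : (D.natDegree : ℝ) = (n : ℝ) - ((f / D).natDegree : ℝ) := by linarith
    rw [h7]
    ring
  · have h' : ¬ 2 * (f / D).natDegree < n := by omega
    rw [if_neg h, if_neg h', mul_zero]

end HidG

theorem hidg : S_hidg := by
  intro K _ _ n f hn hf hs hdeg
  rw [HidG.halfsum n hf hdeg, ← HidG.total n ((n : ℝ) / 2) hn hf hs hdeg]
  have h1 : ∑ D ∈ Hid.Dv f, (mob D : ℝ) * ((n : ℝ) / 2 - D.natDegree) =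
      ∑ D ∈ Hid.Dv f, (if 2 * D.natDegree < n then
        (mob D : ℝ) * ((n : ℝ) / 2 - D.natDegree) else 0) +
      ∑ D ∈ Hid.Dv f, (if n < 2 * D.natDegree then
        (mob D : ℝ) * ((n : ℝ) / 2 - D.natDegree) else 0) := by
    rw [← Finset.sum_add_distrib]
    refine Finset.sum_congr rfl fun D _ => ?_
    rcases lt_trichotomy (2 * D.natDegree) n with h | h | h
    · rw [if_pos h, if_neg (by omega), add_zero]
    · have h4 : (2 : ℝ) * D.natDegree = n := by exact_mod_cast h
      rw [if_neg (by omega), if_neg (by omega), ← h4]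
      ring
    · rw [if_neg (by omega), if_pos h, zero_add]
  rw [h1, HidG.invol n hf hs hdeg]
  ring

end Pool.Agent.H604.LD
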