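import Mathlib
import Pool.Agent.H604.LD.StmP

/-!
# Primes `α T ^ 2 + β` in residue classes and short intervals (helper604)
-/

namespace Pool.Agent.H604.LD

open Polynomial
open scoped Classical
open Pool.Agent.H694.Typ (Mn PU)

/-- **The uniform Bateman–Horn asymptotic for the inseparable quadratic polynomials in residue
classes and short intervals, with a power saving.** -/
def S_bhqc : Prop :=
  ∀ (K : Type) [Field K] [Fintype K] [CharP K 2], ∃ c θ : ℝ, 0 < c ∧ 0 < θ ∧ ∃ d₀ : ℕ,
    ∀ (α β g M r : K[X]) (l d : ℕ), α ≠ 0 → IsCoprime α β → ¬ IsSquare (α * β) → d₀ ≤ d →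
      g.Monic → g.natDegree = d → M.Monic → IsCoprime (α * r ^ 2 + β) M →
      ((α.natDegree + β.natDegree + M.natDegree + l : ℕ) : ℝ) ≤ θ * d →
      |(2 * (d : ℝ) + α.natDegree) *
          (((Mn K d).filter (fun T => (T - g).degree < ((d - l : ℕ) : WithBot ℕ) ∧ M ∣ T - r ∧
            Irreducible (α * T ^ 2 + β))).card : ℝ) -
          (Fintype.card K : ℝ) ^ (d - l - M.natDegree) / PiM (α * M)| ≤
        (Fintype.card K : ℝ) ^ ((1 - c) * d)

/-- **Task BHQC.** -/
def S_tbhqc : Prop := S_landaup → S_bhqc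

end Pool.Agent.H604.LD
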