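import Mathlib
import Pool.Agent.H604.LD.StmC
import Pool.Agent.H604.LD.BhqP

/-!
# Task BHQC: polynomials `α T² + β` in residue classes and short intervals (helper161, for
helper604; the adaptation of helper553's `BhqP.lean` to the `T` in a residue class modulo `M`)
-/

set_option autoImplicit false
set_option linter.all false

namespace Pool.Agent.H604.LD

open Polynomial
open scoped Classical
open Pool.Agent.H985.Chow (mob lc)
open Pool.Agent.H985.KP (sg PA)
open Pool.Agent.H985.KP.Cnt (finite_PA)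
open Pool.Agent.H694.Typ (Mn mem_Mn card_Mn card_dvd)
open Far2 (MI ET ET_dvd ET_sqf ET_deg ET_monic sqrt_exists dvd_sub_of_sq)

namespace BHQC

open BHQ BHQ.Red

section

variable {K : Type} [Field K] [Fintype K]

/-- the good polynomials in a residue class modulo `M` -/
theorem card_goodM {n : ℕ} {T : Finset K[X]} (hT : MI T) {M : K[X]} (hM : M.Monic)
    (hcop : IsCoprime M (ET T)) (hn : (ET T).natDegree + M.natDegree ≤ n) (R r : K[X]) :
    (((Mn K n).filter (fun a => M ∣ a - r ∧ ∀ P ∈ T, ¬ P ∣ a - R)).card : ℝ) =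
      (Fintype.card K : ℝ) ^ (n - M.natDegree) *
        ∏ P ∈ T, (1 - 1 / (Fintype.card K : ℝ) ^ P.natDegree) := by
  have hq : (0 : ℝ) < Fintype.card K := by exact_mod_cast Fintype.card_pos
  have h1 : (((Mn K n).filter (fun a => M ∣ a - r ∧ ∀ P ∈ T, ¬ P ∣ a - R)).card : ℝ) =
      ∑ a ∈ (Mn K n).filter (fun a => M ∣ a - r),
        ∏ P ∈ T, (1 + (if P ∣ a - R then (-1 : ℝ) else 0)) := by
    rw [← Finset.filter_filter, Finset.card_filter, Nat.cast_sum]
    refine Finset.sum_congr rfl fun a _ => ?_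
    by_cases h : ∀ P ∈ T, ¬ P ∣ a - R
    · rw [if_pos h, Nat.cast_one]
      symm
      refine Finset.prod_eq_one fun P hP => ?_
      rw [if_neg (h P hP), add_zero]
    · rw [if_neg h, Nat.cast_zero]
      push Not at h
      obtain ⟨P, hP, hd⟩ := h
      symm
      refine Finset.prod_eq_zero hP ?_
      rw [if_pos hd]; norm_num
  rw [h1]
  have h2 : ∀ a ∈ (Mn K n).filter (fun a => M ∣ a - r),
      ∏ P ∈ T, (1 + (if P ∣ a - R then (-1 : ℝ) else 0)) =
      ∑ S ∈ T.powerset, ∏ P ∈ S, (if P ∣ a - R then (-1 : ℝ) else 0) :=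
    fun a _ => Finset.prod_one_add T
  rw [Finset.sum_congr rfl h2, Finset.sum_comm]
  have h3 : ∏ P ∈ T, (1 - 1 / (Fintype.card K : ℝ) ^ P.natDegree) =
      ∑ S ∈ T.powerset, ∏ P ∈ S, (-(1 / (Fintype.card K : ℝ) ^ P.natDegree)) := by
    rw [← Finset.prod_one_add]
    refine Finset.prod_congr rfl fun P _ => by ring
  rw [h3, Finset.mul_sum]
  refine Finset.sum_congr rfl fun S hS => ?_
  have hST : S ⊆ T := Finset.mem_powerset.1 hS
  have hMS : MI S := hT.sub hST
  have hdvS : ET S ∣ ET T := (ET_dvd hMS _).2 fun P hP => (ET_dvd hT _).1 dvd_rfl P (hST hP)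
  have hcS : IsCoprime M (ET S) := hcop.of_isCoprime_of_dvd_right hdvS
  have hdS : (ET S).natDegree + M.natDegree ≤ n := by
    have : (ET S).natDegree ≤ (ET T).natDegree := natDegree_le_of_dvd hdvS (ET_monic hT).ne_zero
    omega
  have h4 : ∀ a ∈ (Mn K n).filter (fun a => M ∣ a - r),
      ∏ P ∈ S, (if P ∣ a - R then (-1 : ℝ) else 0) =
      (-1) ^ S.card * (if ET S ∣ a - R then 1 else 0) := by
    intro a _
    by_cases h : ET S ∣ a - R
    · rw [if_pos h, mul_one, ← Finset.prod_const]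
      refine Finset.prod_congr rfl fun P hP => ?_
      rw [if_pos ((ET_dvd hMS _).1 h P hP)]
    · rw [if_neg h, mul_zero]
      rw [ET_dvd hMS] at h
      push Not at h
      obtain ⟨P, hP, hd⟩ := h
      exact Finset.prod_eq_zero hP (if_neg hd)
  -- Chinese remainder theorem
  obtain ⟨x, y, hxy⟩ := hcS
  have hcS : IsCoprime M (ET S) := ⟨x, y, hxy⟩
  obtain ⟨R', hR'⟩ : ∃ R' : K[X], R' = r + x * M * (R - r) := ⟨_, rfl⟩
  have hset : ((Mn K n).filter (fun a => M ∣ a - r)).filter (fun a => ET S ∣ a - R) =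
      (Mn K n).filter (fun a => M * ET S ∣ a - R') := by
    rw [Finset.filter_filter]
    refine Finset.filter_congr fun a _ => ?_
    have e1 : M ∣ r - R' := ⟨-(x * (R - r)), by rw [hR']; ring⟩
    have e2 : ET S ∣ R - R' := ⟨y * (R - r), by
      rw [hR']
      linear_combination (-(R - r)) * hxy⟩
    constructor
    · rintro ⟨h5, h6⟩
      refine hcS.mul_dvd ?_ ?_
      · have := dvd_add h5 e1
        rwa [sub_add_sub_cancel] at this
      · have := dvd_add h6 e2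
        rwa [sub_add_sub_cancel] at this
    · intro h5
      constructor
      · have := dvd_sub ((dvd_mul_right M (ET S)).trans h5) e1
        rwa [sub_sub_sub_cancel_right] at this
      · have := dvd_sub ((dvd_mul_left (ET S) M).trans h5) e2
        rwa [sub_sub_sub_cancel_right] at this
  have hdM : (M * ET S).natDegree = M.natDegree + (ET S).natDegree :=
    hM.natDegree_mul (ET_monic hMS)
  rw [Finset.sum_congr rfl h4, ← Finset.mul_sum, Finset.sum_boole, hset,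
    card_cong R' (hM.mul (ET_monic hMS)) (by rw [hdM]; omega)]
  have h5 : ∏ P ∈ S, (-(1 / (Fintype.card K : ℝ) ^ P.natDegree)) =
      (-1) ^ S.card * (1 / (Fintype.card K : ℝ) ^ (ET S).natDegree) := by
    rw [ET_deg hMS, ← Finset.prod_pow_eq_pow_sum, ← Finset.prod_const, one_div,
      ← Finset.prod_inv_distrib, ← Finset.prod_mul_distrib]
    refine Finset.prod_congr rfl fun P _ => by rw [one_div]; ring
  have h6 : n - (M * ET S).natDegree = (n - M.natDegree) - (ET S).natDegree := by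
    rw [hdM]; omega
  rw [h5, h6, Nat.cast_pow, pow_sub₀ _ hq.ne' (by omega)]
  ring

end

section

variable {K : Type} [Field K] [Fintype K] [CharP K 2]
variable {κ α₁ B c₁ b : K[X]} {γ : K}

/-- the primes with a bad class -/
theorem exists_T0M (h : Red κ α₁ B c₁ b γ) (M : K[X]) : ∃ T : Finset K[X],
    (∀ P, P ∈ T ↔ P ∈ PA b ∧ ¬ P ∣ κ ^ 2 * α₁ * M) := by
  have hf := finite_PA (K := K) h.hb.ne_zero
  refine ⟨hf.toFinset.filter (fun P => ¬ P ∣ κ ^ 2 * α₁ * M), fun P => ?_⟩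
  rw [Finset.mem_filter, Set.Finite.mem_toFinset]

/-- the good classes -/
theorem datM (h : Red κ α₁ B c₁ b γ) {M r₀ : K[X]} (hM : M.Monic)
    (hr₀ : IsCoprime (κ ^ 2 * α₁ * r₀ ^ 2 + B) M) {T : Finset K[X]}
    (hT : ∀ P, P ∈ T ↔ P ∈ PA b ∧ ¬ P ∣ κ ^ 2 * α₁ * M) {r : K[X]} (hrM : M ∣ r - r₀)
    (hr : ∀ P ∈ T, ¬ P ∣ κ ^ 2 * α₁ * r ^ 2 + B) :
    Dat γ b (κ * α₁ * (b ^ 5 * M)) (κ * α₁ * r + c₁) α₁ := by
  have hgM : IsCoprime (κ ^ 2 * α₁ * r ^ 2 + B) M := by
    obtain ⟨k, hk⟩ := hrM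
    have h1 : κ ^ 2 * α₁ * r ^ 2 + B = (κ ^ 2 * α₁ * r₀ ^ 2 + B) +
        M * (κ ^ 2 * α₁ * k * (r + r₀)) := by
      linear_combination (κ ^ 2 * α₁ * (r + r₀)) * hk
    rw [h1]
    exact hr₀.add_mul_left_left _
  have hgb : IsCoprime (κ ^ 2 * α₁ * r ^ 2 + B) b := by
    refine cop_of_PA h.hb.ne_zero fun P hP => ?_
    by_cases hd : P ∣ κ ^ 2 * α₁
    · exact h.dvd_A (T := T) hP.2.1 hd
    · by_cases hdM : P ∣ M
      · intro hcon
        exact hP.2.1.not_isUnit (hgM.isUnit_of_dvd' hcon hdM)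
      · refine hr P ((hT P).2 ⟨hP, fun hcon => ?_⟩)
        rcases hP.2.1.prime.dvd_or_dvd hcon with h1 | h1
        · exact hd h1
        · exact hdM h1
  have hgA : IsCoprime (κ ^ 2 * α₁ * r ^ 2 + B) (κ ^ 2 * α₁) := by
    have h2 := IsCoprime.add_mul_left_left h.hcop.symm (r ^ 2)
    rwa [add_comm] at h2
  refine ⟨h.hγ, h.hb, (h.hκ.mul h.h1).mul ((h.hb.pow 5).mul hM),
    (dvd_mul_right _ _).mul_left _, h.h1, h.hs, ?_, ?_, ?_⟩
  · exact (dvd_mul_left α₁ κ).mul_right _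
  · rw [h.fa_at]; exact dvd_mul_right _ _
  · rw [h.ga_at]
    refine IsCoprime.mul_right ?_ (IsCoprime.mul_right (IsCoprime.pow_right hgb) hgM)
    refine hgA.of_isCoprime_of_dvd_right ?_
    exact mul_dvd_mul_right (dvd_pow_self κ two_ne_zero) α₁

/-- the number of the good classes -/
theorem countM (h : Red κ α₁ B c₁ b γ) {M : K[X]} (hM : M.Monic) (r₀ : K[X]) {T : Finset K[X]}
    (hT : ∀ P, P ∈ T ↔ P ∈ PA b ∧ ¬ P ∣ κ ^ 2 * α₁ * M) :
    (((Mn K (b ^ 5 * M).natDegree).filter (fun r => M ∣ r - r₀ ∧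
        ∀ P ∈ T, ¬ P ∣ κ ^ 2 * α₁ * r ^ 2 + B)).card : ℝ) =
      (Fintype.card K : ℝ) ^ (b ^ 5).natDegree *
        ∏ P ∈ T, (1 - 1 / (Fintype.card K : ℝ) ^ P.natDegree) := by
  have hMT : MI T := fun P hP => ⟨((hT P).1 hP).1.1, ((hT P).1 hP).1.2.1⟩
  have hcopT : IsCoprime (κ ^ 2 * α₁ * M) (ET T) := by
    unfold ET
    rw [IsCoprime.prod_right_iff]
    intro P hP
    exact (((hMT P hP).2.coprime_iff_not_dvd).2 ((hT P).1 hP).2).symm
  have hcopM : IsCoprime M (ET T) := hcopT.of_isCoprime_of_dvd_left (dvd_mul_left _ _)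
  obtain ⟨v, w, hvw⟩ : IsCoprime (κ ^ 2 * α₁) (ET T) :=
    hcopT.of_isCoprime_of_dvd_left (dvd_mul_right _ _)
  obtain ⟨R, -, hR⟩ := sqrt_exists (ET_monic hMT) (ET_sqf hMT) (v * B)
  have hR2 : ET T ∣ κ ^ 2 * α₁ * R ^ 2 + B := by
    have h1 : κ ^ 2 * α₁ * R ^ 2 + B = κ ^ 2 * α₁ * (R ^ 2 + v * B) + ET T * (w * B) := by
      linear_combination (-B) * hvw
    rw [h1]
    exact dvd_add (hR.mul_left _) (dvd_mul_right _ _)
  have hdvd : ET T ∣ b := (ET_dvd hMT b).2 fun P hP => ((hT P).1 hP).1.2.2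
  have hNd : (b ^ 5 * M).natDegree = (b ^ 5).natDegree + M.natDegree :=
    (h.hb.pow 5).natDegree_mul hM
  have hn : (ET T).natDegree + M.natDegree ≤ (b ^ 5 * M).natDegree := by
    have := natDegree_le_of_dvd (hdvd.trans (dvd_pow_self b (by norm_num))) (h.hb.pow 5).ne_zero
    omega
  have hNd2 : (b ^ 5).natDegree = (b ^ 5 * M).natDegree - M.natDegree := by omega
  rw [hNd2, ← card_goodM hMT hM hcopM hn R r₀]
  congr 2
  refine Finset.filter_congr fun r _ => ?_
  refine and_congr_right fun _ => ?_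
  refine forall_congr' fun P => ?_
  refine forall_congr' fun hP => ?_
  refine not_congr ?_
  have hPR : P ∣ κ ^ 2 * α₁ * R ^ 2 + B := (ET_dvd hMT _).1 hR2 P hP
  have hPA : ¬ P ∣ κ ^ 2 * α₁ := fun hcon => ((hT P).1 hP).2 (hcon.mul_right _)
  have hpr := (hMT P hP).2.prime
  constructor
  · intro h1
    have h2 : P ∣ κ ^ 2 * α₁ * (r ^ 2 - R ^ 2) := by
      have h3 := dvd_sub h1 hPR
      have h4 : κ ^ 2 * α₁ * (r ^ 2 - R ^ 2) =
        κ ^ 2 * α₁ * r ^ 2 + B - (κ ^ 2 * α₁ * R ^ 2 + B) := by ring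
      rw [h4]; exact h3
    exact dvd_sub_of_sq (hMT P hP).2.squarefree ((hpr.dvd_or_dvd h2).resolve_left hPA)
  · intro h1
    have h2 : κ ^ 2 * α₁ * r ^ 2 + B = (κ ^ 2 * α₁ * R ^ 2 + B) +
        (r - R) * (κ ^ 2 * α₁ * (r + R)) := by ring
    rw [h2]
    exact dvd_add hPR (h1.mul_right _)

/-- the product of the local factors -/
theorem PiM_eqM (h : Red κ α₁ B c₁ b γ) {M : K[X]} (hM : M.Monic) {T : Finset K[X]}
    (hT : ∀ P, P ∈ T ↔ P ∈ PA b ∧ ¬ P ∣ κ ^ 2 * α₁ * M) :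
    PiM (κ * α₁ * (b ^ 5 * M)) = PiM (κ ^ 2 * α₁ * M) *
      ∏ P ∈ T, (1 - 1 / (Fintype.card K : ℝ) ^ P.natDegree) := by
  have hA0 : κ ^ 2 * α₁ * M ≠ 0 := (((h.hκ.pow 2).mul h.h1).mul hM).ne_zero
  have hset : PA (κ * α₁ * (b ^ 5 * M)) = PA (κ ^ 2 * α₁ * M) ∪ (T : Set K[X]) := by
    ext P
    rw [Set.mem_union, Finset.mem_coe, hT]
    unfold PA
    simp only [Set.mem_ofPred_eq]
    constructor
    · rintro ⟨h1, h2, h3⟩
      by_cases hd : P ∣ κ ^ 2 * α₁ * M
      · exact Or.inl ⟨h1, h2, hd⟩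
      · right
        refine ⟨⟨h1, h2, ?_⟩, hd⟩
        rcases h2.prime.dvd_or_dvd h3 with h4 | h4
        · exfalso
          apply hd
          exact (h4.trans (mul_dvd_mul_right (dvd_pow_self κ two_ne_zero) α₁)).mul_right _
        · rcases h2.prime.dvd_or_dvd h4 with h5 | h5
          · exact h2.prime.dvd_of_dvd_pow h5
          · exact absurd (h5.mul_left _) hd
    · rintro (⟨h1, h2, h3⟩ | ⟨⟨h1, h2, h3⟩, -⟩)
      · refine ⟨h1, h2, ?_⟩
        rcases h2.prime.dvd_or_dvd h3 with h4 | h4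
        · refine Dvd.dvd.mul_right ?_ _
          rcases h2.prime.dvd_or_dvd h4 with h5 | h5
          · exact (h2.prime.dvd_of_dvd_pow h5).mul_right _
          · exact h5.mul_left _
        · exact (h4.mul_left _).mul_left _
      · exact ⟨h1, h2, ((h3.trans (dvd_pow_self b (by norm_num))).mul_right _).mul_left _⟩
  have hdis : Disjoint (PA (κ ^ 2 * α₁ * M)) (T : Set K[X]) := by
    rw [Set.disjoint_left]
    intro P hP hPT
    exact ((hT P).1 hPT).2 hP.2.2
  unfold PiM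
  rw [hset, finprod_mem_union hdis (finite_PA hA0) (Finset.finite_toSet _),
    finprod_mem_coe_finset]

/-- one class modulo `N` -/
theorem card_classN (h : Red κ α₁ B c₁ b γ) {N g r : K[X]} {d l : ℕ} (hg : g.Monic)
    (hgd : g.natDegree = d) (hd : c₁.natDegree < d) (hl : l ≤ d) :
    ((Mn K d).filter (fun T => ((T - g).degree < ((d - l : ℕ) : WithBot ℕ) ∧
        Irreducible (κ ^ 2 * α₁ * T ^ 2 + B)) ∧ N ∣ T - r)).card =
      ((AsU K (d + (κ * α₁).natDegree) (κ * α₁ * N) (κ * α₁ * r + c₁) (κ * α₁ * g + c₁)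
        l).filter (fun a => Irreducible (ga γ b α₁ a))).card := by
  have hk : (κ * α₁).Monic := h.hκ.mul h.h1
  have hk0 : κ * α₁ ≠ 0 := hk.ne_zero
  have hmon : ∀ T : K[X], T.Monic → T.natDegree = d → (κ * α₁ * T + c₁).Monic ∧
      (κ * α₁ * T + c₁).natDegree = d + (κ * α₁).natDegree := by
    intro T h1 h2
    have h3 : (κ * α₁ * T).natDegree = d + (κ * α₁).natDegree := by
      rw [hk.natDegree_mul h1, h2, add_comm]
    have h4 : c₁.degree < (κ * α₁ * T).degree := by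
      refine degree_le_natDegree.trans_lt ?_
      rw [degree_eq_natDegree (hk.mul h1).ne_zero, h3]
      exact_mod_cast (by omega : c₁.natDegree < d + (κ * α₁).natDegree)
    exact ⟨(hk.mul h1).add_of_left h4, by rw [natDegree_add_eq_left_of_degree_lt h4, h3]⟩
  have hdeg : ∀ T : K[X], (κ * α₁ * T + c₁ - (κ * α₁ * g + c₁)).degree <
      ((d + (κ * α₁).natDegree - l : ℕ) : WithBot ℕ) ↔
      (T - g).degree < ((d - l : ℕ) : WithBot ℕ) := by
    intro T
    have h1 : κ * α₁ * T + c₁ - (κ * α₁ * g + c₁) = κ * α₁ * (T - g) := by ring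
    rw [h1]
    by_cases h0 : T - g = 0
    · rw [h0, mul_zero, degree_zero]
      exact ⟨fun _ => WithBot.bot_lt_coe _, fun _ => WithBot.bot_lt_coe _⟩
    · rw [degree_eq_natDegree (mul_ne_zero hk0 h0), degree_eq_natDegree h0,
        natDegree_mul hk0 h0, Nat.cast_lt, Nat.cast_lt]
      omega
  have hcl : ∀ T : K[X], κ * α₁ * N ∣ κ * α₁ * T + c₁ - (κ * α₁ * r + c₁) ↔
      N ∣ T - r := by
    intro T
    have h1 : κ * α₁ * T + c₁ - (κ * α₁ * r + c₁) = κ * α₁ * (T - r) := by ring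
    rw [h1, mul_dvd_mul_iff_left hk0]
  refine Finset.card_bij (fun T _ => κ * α₁ * T + c₁) ?_ ?_ ?_
  · intro T hT
    rw [Finset.mem_filter, mem_Mn] at hT
    obtain ⟨h1, h2⟩ := hmon T hT.1.1 hT.1.2
    rw [Finset.mem_filter]
    unfold AsU As
    rw [Finset.mem_filter, Finset.mem_filter, mem_Mn, h.ga_at, hdeg, hcl]
    exact ⟨⟨⟨⟨h1, h2⟩, hT.2.2⟩, hT.2.1.1⟩, hT.2.1.2⟩
  · intro T _ T' _ hTT
    exact mul_left_cancel₀ hk0 (add_right_cancel hTT)
  · intro a ha
    rw [Finset.mem_filter] at ha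
    unfold AsU As at ha
    rw [Finset.mem_filter, Finset.mem_filter, mem_Mn] at ha
    obtain ⟨⟨⟨⟨h1, h2⟩, h3⟩, h4⟩, h5⟩ := ha
    obtain ⟨c, hc⟩ := h3
    have h6 : a = κ * α₁ * (r + N * c) + c₁ := by
      linear_combination hc
    have h7 : (κ * α₁ * (r + N * c)).Monic ∧
        (κ * α₁ * (r + N * c)).natDegree = d + (κ * α₁).natDegree := by
      have h8 : κ * α₁ * (r + N * c) = a - c₁ := by rw [h6]; ring
      have h9 : c₁.degree < a.degree := by
        refine degree_le_natDegree.trans_lt ?_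
        rw [degree_eq_natDegree h1.ne_zero, h2]
        exact_mod_cast (by omega : c₁.natDegree < d + (κ * α₁).natDegree)
      rw [h8]
      exact ⟨h1.sub_of_left h9, by
        rw [← h2]; exact natDegree_eq_of_degree_eq (degree_sub_eq_left_of_degree_lt h9)⟩
    have h8 : (r + N * c).Monic := hk.of_mul_monic_left h7.1
    have h9 : (r + N * c).natDegree = d := by
      have := h7.2
      rw [hk.natDegree_mul h8] at this
      omega
    refine ⟨r + N * c, ?_, h6.symm⟩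
    rw [Finset.mem_filter, mem_Mn]
    rw [h6, h.ga_at] at h5
    rw [h6, hdeg] at h4
    exact ⟨⟨h8, h9⟩, ⟨h4, h5⟩, by rw [add_sub_cancel_left]; exact dvd_mul_right _ _⟩

end

end BHQC

open BHQ BHQ.Red BHQC in
/-- **Task BHQC.** -/
theorem tbhqc : S_tbhqc := by
  intro hL K _ _ _
  obtain ⟨c, θ, hc, hθ, d₀, hmain⟩ := hL K
  refine ⟨c / 2, min (min (θ / 6) (c / 12)) (1 / 12), by positivity, by positivity, max d₀ 2, ?_⟩
  intro α β g M r₀ l d hα hcop hsq hd hg hgd hM hr₀ hdeg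
  have hq1 : (1 : ℝ) < Fintype.card K := by exact_mod_cast (Fintype.one_lt_card (α := K))
  have hq : (0 : ℝ) < Fintype.card K := by linarith
  set q : ℝ := (Fintype.card K : ℝ) with hqdef
  -- the parameters
  set θ' : ℝ := min (min (θ / 6) (c / 12)) (1 / 12) with hθ'
  have ht1 : θ' ≤ θ / 6 := (min_le_left _ _).trans (min_le_left _ _)
  have ht2 : θ' ≤ c / 12 := (min_le_left _ _).trans (min_le_right _ _)
  have ht3 : θ' ≤ 1 / 12 := min_le_right _ _
  have hd0 : d₀ ≤ d := (le_max_left _ _).trans hd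
  have hd2 : 2 ≤ d := (le_max_right _ _).trans hd
  have hdR : (2 : ℝ) ≤ d := by exact_mod_cast hd2
  -- the decomposition
  obtain ⟨u, hu⟩ : ∃ u : K, u = α.leadingCoeff := ⟨_, rfl⟩
  have hu0 : u ≠ 0 := by rw [hu]; exact leadingCoeff_ne_zero.2 hα
  have hCu : (C u : K[X]) * C u⁻¹ = 1 := by rw [← C_mul, mul_inv_cancel₀ hu0, C_1]
  have hαm : (α * C u⁻¹).Monic := by rw [hu]; exact monic_mul_leadingCoeff_inv hα
  obtain ⟨κ, α₁, hκ, h1, hs, hA⟩ := sq_dec _ (α * C u⁻¹) hαm le_rfl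
  have hαA : α = C u * (κ ^ 2 * α₁) := by
    rw [← hA]; linear_combination (-α) * hCu
  obtain ⟨B, hB⟩ : ∃ B : K[X], B = C u⁻¹ * β := ⟨_, rfl⟩
  have hβB : β = C u * B := by
    rw [hB]; linear_combination (-β) * hCu
  have hcop' : IsCoprime (κ ^ 2 * α₁) B := by
    obtain ⟨x, y, hxy⟩ := hcop
    refine ⟨x * C u, y * C u, ?_⟩
    rw [hαA, hβB] at hxy
    linear_combination hxy
  have hsq' : ¬ IsSquare (α₁ * B) := by
    rintro ⟨s, hs'⟩
    apply hsq
    refine ⟨C u * κ * s, ?_⟩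
    rw [hαA, hβB]
    linear_combination (C u * κ) ^ 2 * hs'
  obtain ⟨γ, b, c₁, hγ, hb, hdec⟩ := FINM.data hsq'
  have hR : Red κ α₁ B c₁ b γ := ⟨hκ, h1, hs, hcop', hγ, hb, hdec⟩
  obtain ⟨T0, hT0⟩ := exists_T0M hR M
  have hr₀' : IsCoprime (κ ^ 2 * α₁ * r₀ ^ 2 + B) M := by
    obtain ⟨x, y, hxy⟩ := hr₀
    refine ⟨x * C u, y, ?_⟩
    rw [hαA, hβB] at hxy
    linear_combination hxy
  have hMT : Far2.MI T0 := fun P hP => ⟨((hT0 P).1 hP).1.1, ((hT0 P).1 hP).1.2.1⟩
  -- degrees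
  have hkd : (κ * α₁).natDegree = κ.natDegree + α₁.natDegree := hκ.natDegree_mul h1
  have hAd : α.natDegree = 2 * κ.natDegree + α₁.natDegree := by
    rw [hαA, natDegree_C_mul hu0, (hκ.pow 2).natDegree_mul h1, natDegree_pow]
  have hBd : B.natDegree = β.natDegree := by rw [hβB, natDegree_C_mul hu0]
  have hDd : (α₁ * B).natDegree ≤ α₁.natDegree + β.natDegree := by
    rw [← hBd]; exact natDegree_mul_le
  have hbd := hR.deg_b
  have hcd := hR.deg_c
  have hnd : (b ^ 5).natDegree = 5 * b.natDegree := natDegree_pow _ _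
  obtain ⟨N, hN⟩ : ∃ N : K[X], N = b ^ 5 * M := ⟨_, rfl⟩
  have hNm : N.Monic := by rw [hN]; exact (hb.pow 5).mul hM
  have hNd : N.natDegree = (b ^ 5).natDegree + M.natDegree := by
    rw [hN]; exact (hb.pow 5).natDegree_mul hM
  have hMd : (κ * α₁ * N).natDegree = (κ * α₁).natDegree + N.natDegree :=
    (hκ.mul h1).natDegree_mul hNm
  have hm0 : (0 : ℝ) ≤ M.natDegree := Nat.cast_nonneg _
  have hdeg' : ((α.natDegree : ℝ) + β.natDegree + M.natDegree + l) ≤ θ' * d := by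
    have := hdeg; push_cast at this; exact this
  have hAd' : (α.natDegree : ℝ) = 2 * κ.natDegree + α₁.natDegree := by
    rw [hAd]; push_cast; ring
  have hk0 : (0 : ℝ) ≤ κ.natDegree := Nat.cast_nonneg _
  have ha0 : (0 : ℝ) ≤ α₁.natDegree := Nat.cast_nonneg _
  have hβ0 : (0 : ℝ) ≤ β.natDegree := Nat.cast_nonneg _
  have hl0 : (0 : ℝ) ≤ l := Nat.cast_nonneg _
  have hbR : 2 * (b.natDegree : ℝ) ≤ α₁.natDegree + β.natDegree := by
    exact_mod_cast hbd.trans hDd
  have hnR : (N.natDegree : ℝ) = 5 * b.natDegree + M.natDegree := by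
    rw [hNd, hnd]; push_cast; ring
  have hkR : ((κ * α₁).natDegree : ℝ) = κ.natDegree + α₁.natDegree := by rw [hkd]; push_cast; ring
  have hθd : θ' * d ≤ θ / 6 * d := mul_le_mul_of_nonneg_right ht1 (by linarith)
  have hθc : θ' * d ≤ c / 12 * d := mul_le_mul_of_nonneg_right ht2 (by linarith)
  have hθ1 : θ' * d ≤ 1 / 12 * d := mul_le_mul_of_nonneg_right ht3 (by linarith)
  have hnl : N.natDegree + l ≤ d := by
    have : (N.natDegree : ℝ) + l ≤ d := by rw [hnR]; linarith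
    exact_mod_cast this
  have hld : l ≤ d := by omega
  have hc1d : c₁.natDegree < d := by
    have h3 : (2 * (c₁.natDegree : ℝ)) ≤ α₁.natDegree + β.natDegree + 1 := by
      have h4 : 2 * c₁.natDegree ≤ α₁.natDegree + β.natDegree + 1 := by omega
      exact_mod_cast h4
    have h4 : (c₁.natDegree : ℝ) < d := by linarith
    exact_mod_cast h4
  -- the error term
  set E : ℝ := q ^ ((1 - c) * ((d + (κ * α₁).natDegree : ℕ) : ℝ)) with hE
  set Mt : ℝ := q ^ (d - N.natDegree - l) / PiM (κ * α₁ * N) with hMt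
  have hclass : ∀ r ∈ Mn K N.natDegree,
      |(2 * (d : ℝ) + α.natDegree) * ((((Mn K d).filter (fun T =>
        (T - g).degree < ((d - l : ℕ) : WithBot ℕ) ∧ M ∣ T - r₀ ∧
          Irreducible (κ ^ 2 * α₁ * T ^ 2 + B))).filter
          (fun T => N ∣ T - r)).card : ℝ) -
        (if M ∣ r - r₀ ∧ ∀ P ∈ T0, ¬ P ∣ κ ^ 2 * α₁ * r ^ 2 + B then Mt else 0)| ≤ E := by
    intro r _
    rw [Finset.filter_filter]
    have hMN : M ∣ N := by rw [hN]; exact dvd_mul_left _ _
    by_cases hrM : M ∣ r - r₀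
    swap
    · rw [if_neg (fun h => hrM h.1)]
      have h4 : (Mn K d).filter (fun T => ((T - g).degree < ((d - l : ℕ) : WithBot ℕ) ∧
          M ∣ T - r₀ ∧ Irreducible (κ ^ 2 * α₁ * T ^ 2 + B)) ∧ N ∣ T - r) = ∅ := by
        rw [Finset.filter_eq_empty_iff]
        rintro T _ ⟨⟨-, h5, -⟩, h6⟩
        apply hrM
        have h7 := dvd_sub h5 (hMN.trans h6)
        rwa [sub_sub_sub_cancel_left] at h7
      rw [h4, Finset.card_empty, Nat.cast_zero, mul_zero, sub_zero, abs_zero]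
      positivity
    have hfil : (Mn K d).filter (fun T => ((T - g).degree < ((d - l : ℕ) : WithBot ℕ) ∧
        M ∣ T - r₀ ∧ Irreducible (κ ^ 2 * α₁ * T ^ 2 + B)) ∧ N ∣ T - r) =
        (Mn K d).filter (fun T => ((T - g).degree < ((d - l : ℕ) : WithBot ℕ) ∧
        Irreducible (κ ^ 2 * α₁ * T ^ 2 + B)) ∧ N ∣ T - r) := by
      refine Finset.filter_congr fun T _ => ?_
      constructor
      · rintro ⟨⟨h5, -, h6⟩, h7⟩
        exact ⟨⟨h5, h6⟩, h7⟩
      · rintro ⟨⟨h5, h6⟩, h7⟩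
        refine ⟨⟨h5, ?_, h6⟩, h7⟩
        have h8 := dvd_add (hMN.trans h7) hrM
        rwa [sub_add_sub_cancel] at h8
    rw [hfil]
    by_cases hgood : ∀ P ∈ T0, ¬ P ∣ κ ^ 2 * α₁ * r ^ 2 + B
    · rw [if_pos ⟨hrM, hgood⟩, card_classN hR hg hgd hc1d hld]
      have hdat := datM hR hM hr₀' hT0 hrM hgood
      rw [← hN] at hdat
      have hk : (κ * α₁).Monic := hκ.mul h1
      have h4 : (κ * α₁ * g).natDegree = d + (κ * α₁).natDegree := by
        rw [hk.natDegree_mul hg, hgd, add_comm]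
      have h5 : c₁.degree < (κ * α₁ * g).degree := by
        refine degree_le_natDegree.trans_lt ?_
        rw [degree_eq_natDegree (hk.mul hg).ne_zero, h4]
        exact_mod_cast (by omega : c₁.natDegree < d + (κ * α₁).natDegree)
      have hD : DatU γ b (κ * α₁ * N) (κ * α₁ * r + c₁) α₁ (κ * α₁ * g + c₁)
          (d + (κ * α₁).natDegree) :=
        ⟨hdat, (hk.mul hg).add_of_left h5, by
          rw [natDegree_add_eq_left_of_degree_lt h5, h4]⟩
      have h6 : (((κ * α₁ * N).natDegree + l : ℕ) : ℝ) ≤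
          θ * ((d + (κ * α₁).natDegree : ℕ) : ℝ) := by
        rw [hMd]
        push_cast
        rw [hnR, hkR]
        have h7 : 0 ≤ θ * ((κ.natDegree : ℝ) + α₁.natDegree) := by positivity
        nlinarith
      have h7 := hmain γ b _ _ α₁ _ l _ hD (by omega) h6
      have h8 : d + (κ * α₁).natDegree - (κ * α₁ * N).natDegree - l =
          d - N.natDegree - l := by rw [hMd]; omega
      have h9 : 2 * ((d + (κ * α₁).natDegree : ℕ) : ℝ) - α₁.natDegree =
          2 * (d : ℝ) + α.natDegree := by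
        push_cast; rw [hkR, hAd']; ring
      rw [h8, h9] at h7
      exact h7
    · rw [if_neg (fun h => hgood h.2)]
      push Not at hgood
      obtain ⟨P, hP, hPr⟩ := hgood
      have h4 : (Mn K d).filter (fun T => ((T - g).degree < ((d - l : ℕ) : WithBot ℕ) ∧
          Irreducible (κ ^ 2 * α₁ * T ^ 2 + B)) ∧ N ∣ T - r) = ∅ := by
        rw [Finset.filter_eq_empty_iff]
        rintro T _ ⟨⟨-, h5⟩, h6⟩
        have h7 : b ^ 5 ∣ N := by rw [hN]; exact dvd_mul_right _ _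
        exact hR.bad ((hT0 P).1 hP).1 (fun hcon => ((hT0 P).1 hP).2 (hcon.mul_right _)) hPr
          (h7.trans h6) h5
      rw [h4, Finset.card_empty, Nat.cast_zero, mul_zero, sub_zero, abs_zero]
      positivity
  -- irreducibility
  have hirr : (Mn K d).filter (fun T => (T - g).degree < ((d - l : ℕ) : WithBot ℕ) ∧
      M ∣ T - r₀ ∧ Irreducible (α * T ^ 2 + β)) = (Mn K d).filter (fun T =>
        (T - g).degree < ((d - l : ℕ) : WithBot ℕ) ∧ M ∣ T - r₀ ∧
          Irreducible (κ ^ 2 * α₁ * T ^ 2 + B)) := by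
    refine Finset.filter_congr fun T _ => ?_
    have h4 : α * T ^ 2 + β = C u * (κ ^ 2 * α₁ * T ^ 2 + B) := by
      rw [hβB]
      linear_combination T ^ 2 * hαA
    have h5 : Associated (κ ^ 2 * α₁ * T ^ 2 + B) (α * T ^ 2 + β) := by
      rw [h4]
      exact (associated_unit_mul_left _ _ (isUnit_C.2 hu0.isUnit)).symm
    rw [h5.irreducible_iff]
  have hPiM : PiM (α * M) = PiM (κ ^ 2 * α₁ * M) := by
    have h4 : PA (α * M) = PA (κ ^ 2 * α₁ * M) := by
      ext P
      unfold PA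
      simp only [Set.mem_ofPred_eq]
      rw [hαA, mul_assoc (C u), (isUnit_C.2 hu0.isUnit : IsUnit (C u : K[X])).dvd_mul_left]
    unfold PiM
    rw [h4]
  rw [hirr, hPiM, split hNm _]
  -- the main term
  have hpos := prod_pos T0 hMT
  have hmt : ∑ r ∈ Mn K N.natDegree,
      (if M ∣ r - r₀ ∧ ∀ P ∈ T0, ¬ P ∣ κ ^ 2 * α₁ * r ^ 2 + B then Mt else 0) =
        q ^ (d - l - M.natDegree) / PiM (κ ^ 2 * α₁ * M) := by
    have hcnt := countM hR hM r₀ hT0
    have hpi := PiM_eqM hR hM hT0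
    rw [← hN] at hcnt hpi
    rw [← Finset.sum_filter, Finset.sum_const, nsmul_eq_mul, hcnt, hMt, hpi]
    have h4 : q ^ (d - l - M.natDegree) = q ^ (b ^ 5).natDegree * q ^ (d - N.natDegree - l) := by
      rw [← pow_add]; congr 1; omega
    rw [h4]
    rw [← hqdef] at hpos ⊢
    have h5 := hpos.ne'
    rw [mul_div_assoc', mul_assoc, mul_comm (∏ P ∈ T0, _) (q ^ (d - N.natDegree - l)),
      ← mul_assoc, mul_div_mul_right _ _ h5]
  rw [← hmt, Nat.cast_sum, Finset.mul_sum, ← Finset.sum_sub_distrib]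
  refine (Finset.abs_sum_le_sum_abs _ _).trans ((Finset.sum_le_sum hclass).trans ?_)
  rw [Finset.sum_const, card_Mn, nsmul_eq_mul, Nat.cast_pow, ← hqdef, hE, ← Real.rpow_natCast,
    ← Real.rpow_add hq]
  refine Real.rpow_le_rpow_of_exponent_le hq1.le ?_
  push_cast
  rw [hnR, hkR]
  have h4 : 0 ≤ c * ((κ.natDegree : ℝ) + α₁.natDegree) := by positivity
  nlinarith

end Pool.Agent.H604.LD
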