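import Pool.Agent.H604.LD.StmF
import Pool.Agent.H604.LD.NearP

/-!
# Primes `α T ^ 2 + β` over `F_q[X]`, `q` even: the sign on a class of the fibre (task FIB1)

(helper187; the lemmas of the first two sections are taken from the file `PKrec` of helper253.)
-/

set_option autoImplicit false

namespace Pool.Agent.H604.LD

open Polynomial
open scoped Classical
open Pool.Agent.H985.Chow (mob lc)
open Pool.Agent.H985.KP (sg PA)
open Pool.Agent.H985.FC (S_winF)
open Pool.Agent.H694.Typ (Mn PU)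

namespace Fib1L

open Pool.Agent.H985.KP.Loc2 (sg_zero sg_add sg_pm)

section lcs

variable {K : Type} [Field K]

theorem lc_add (D N N' : K[X]) : lc D (N + N') = lc D N + lc D N' := by
  unfold lc
  rw [add_modByMonic, coeff_add]

theorem lc_sub (D N N' : K[X]) : lc D (N - N') = lc D N - lc D N' := by
  unfold lc
  rw [sub_modByMonic, coeff_sub]

theorem lc_zero (D : K[X]) : lc D 0 = 0 := by
  unfold lc
  rw [zero_modByMonic, coeff_zero]

theorem lc_congr {D N N' : K[X]} (hD : D.Monic) (h : D ∣ N - N') : lc D N = lc D N' := by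
  unfold lc
  rw [modByMonic_eq_of_dvd_sub hD h]

theorem lc_cancel {D E : K[X]} (hD : D.Monic) (hE : E.Monic) (N : K[X]) :
    lc (D * E) (N * E) = lc D N := by
  unfold lc
  have h : (N * E) %ₘ (D * E) = (N %ₘ D) * E := by
    refine (div_modByMonic_unique (N /ₘ D) ((N %ₘ D) * E) (hD.mul hE) ⟨?_, ?_⟩).2
    · have h1 := modByMonic_add_div N D
      calc N %ₘ D * E + D * E * (N /ₘ D) = (N %ₘ D + D * (N /ₘ D)) * E := by ring
        _ = N * E := by rw [h1]
    · rw [degree_mul, degree_mul]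
      have h1 := degree_modByMonic_lt N hD
      rw [degree_eq_natDegree hE.ne_zero]
      exact WithBot.add_lt_add_right (WithBot.natCast_ne_bot _) h1
  rw [h, hD.natDegree_mul hE]
  by_cases h0 : D.natDegree = 0
  · have h1 : D = 1 := eq_one_of_monic_natDegree_zero hD h0
    rw [h1, modByMonic_one]
    simp
  · have h1 : D.natDegree + E.natDegree - 1 = (D.natDegree - 1) + E.natDegree := by omega
    have h2 : (N %ₘ D).natDegree < D.natDegree :=
      natDegree_modByMonic_lt N hD (by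
        intro h3
        apply h0
        rw [h3, natDegree_one])
    rw [h1, coeff_mul_add_eq_of_natDegree_le (by omega) le_rfl, hE.coeff_natDegree, mul_one]

theorem recip {A S x y : K[X]} (hA : A.Monic) (hS : S.Monic) (h : A * x + S * y = 1) (N : K[X]) :
    lc (A * S) N = lc S (N * x) + lc A (N * y) := by
  have h1 : N = (N * x) * A + (N * y) * S := by
    calc N = N * (A * x + S * y) := by rw [h, mul_one]
      _ = _ := by ring
  calc lc (A * S) N = lc (A * S) ((N * x) * A + (N * y) * S) := by rw [← h1]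
    _ = lc (A * S) ((N * x) * A) + lc (A * S) ((N * y) * S) := lc_add _ _ _
    _ = lc S (N * x) + lc A (N * y) := by
      rw [lc_cancel hA hS, mul_comm A S, lc_cancel hS hA]

theorem lc_small {D N : K[X]} (hD : D.Monic) (h : N.natDegree + 1 < D.natDegree) :
    lc D N = 0 := by
  unfold lc
  rw [(modByMonic_eq_self_iff hD).2 (degree_lt_degree (by omega))]
  exact coeff_eq_zero_of_natDegree_lt (by omega)

end lcs

section sgs

variable {K : Type} [Field K] [Fintype K] [CharP K 2]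

set_option linter.unusedSectionVars false

theorem sg_sub (x y : K) : sg (x - y) = sg x * sg y := by
  rw [CharTwo.sub_eq_add, sg_add]

theorem parfrac_one : (PA (1 : K[X])) = ∅ := by
  ext P
  constructor
  · rintro ⟨_, h2, h3⟩
    exact absurd (isUnit_of_dvd_one h3) h2.not_isUnit
  · intro h
    exact absurd h (Set.notMem_empty P)

theorem parfrac : ∀ (d : ℕ) (h : K[X]), h.natDegree ≤ d → h.Monic → Squarefree h →
    (PA h).Finite ∧ ∃ γ : K[X] → K[X], ∀ N : K[X],
      sg (lc h N) = ∏ᶠ P ∈ PA h, sg (lc P (N * γ P)) := by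
  have hbase : ∀ h : K[X], h.natDegree = 0 → h.Monic → (PA h).Finite ∧
      ∃ γ : K[X] → K[X], ∀ N : K[X], sg (lc h N) = ∏ᶠ P ∈ PA h, sg (lc P (N * γ P)) := by
    intro h h0 hm
    have h1 : h = 1 := eq_one_of_monic_natDegree_zero hm h0
    rw [h1, parfrac_one]
    refine ⟨Set.finite_empty, fun _ => 0, fun N => ?_⟩
    rw [finprod_mem_empty]
    unfold lc
    rw [modByMonic_one, coeff_zero, sg_zero]
  intro d
  induction d with
  | zero =>
    intro h hd hm _
    exact hbase h (Nat.le_zero.1 hd) hm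
  | succ d ih =>
    intro h hd hm hsq
    by_cases h0 : h.natDegree = 0
    · exact hbase h h0 hm
    obtain ⟨P, hP, hPi, h', hh'⟩ := exists_monic_irreducible_factor h (by
      intro hu
      exact h0 (natDegree_eq_zero_of_isUnit hu))
    have hm' : h'.Monic := by
      rw [hh'] at hm
      exact hP.of_mul_monic_left hm
    have hsq' : Squarefree h' := hsq.squarefree_of_dvd ⟨P, by rw [hh', mul_comm]⟩
    have hndvd : ¬ P ∣ h' := by
      intro h1
      have h2 : P * P ∣ h := by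
        rw [hh']
        exact mul_dvd_mul_left P h1
      exact hPi.not_isUnit (hsq P h2)
    have hdeg : h'.natDegree ≤ d := by
      have h1 : h.natDegree = P.natDegree + h'.natDegree := by
        rw [hh', hP.natDegree_mul hm']
      have h2 := hPi.natDegree_pos
      omega
    obtain ⟨hfin, γ', hγ'⟩ := ih h' hdeg hm' hsq'
    obtain ⟨x, y, hxy⟩ := (hPi.coprime_iff_not_dvd).2 hndvd
    have hPA : PA h = insert P (PA h') := by
      ext Q
      constructor
      · rintro ⟨h1, h2, h3⟩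
        rw [hh'] at h3
        rcases h2.prime.dvd_or_dvd h3 with h4 | h4
        · left
          exact eq_of_monic_of_associated h1 hP (h2.associated_of_dvd hPi h4)
        · right
          exact ⟨h1, h2, h4⟩
      · intro h1
        rcases h1 with h1 | h1
        · rw [h1]
          exact ⟨hP, hPi, ⟨h', hh'⟩⟩
        · exact ⟨h1.1, h1.2.1, h1.2.2.trans ⟨P, by rw [hh', mul_comm]⟩⟩
    have hPn : P ∉ PA h' := fun h1 => hndvd h1.2.2
    refine ⟨by rw [hPA]; exact hfin.insert P, fun Q => if Q = P then y else x * γ' Q, fun N => ?_⟩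
    have h1 : lc h N = lc h' (N * x) + lc P (N * y) := by
      rw [hh']
      exact recip hP hm' (by linear_combination hxy) N
    have h3 : ∏ᶠ Q ∈ PA h', sg (lc Q (N * (if Q = P then y else x * γ' Q))) =
        ∏ᶠ Q ∈ PA h', sg (lc Q (N * x * γ' Q)) := by
      apply finprod_mem_congr rfl
      intro Q hQ
      have h2 : Q ≠ P := fun h3 => hPn (h3 ▸ hQ)
      rw [if_neg h2, mul_assoc]
    rw [h1, sg_add, hγ', hPA, finprod_mem_insert _ hPn hfin]
    show _ = sg (lc P (N * (if P = P then y else x * γ' P))) *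
      ∏ᶠ Q ∈ PA h', sg (lc Q (N * (if Q = P then y else x * γ' Q)))
    rw [h3, if_pos rfl, mul_comm]

/-- the character of the residue field -/
noncomputable def psiK (g P : K[X]) : AddChar (AdjoinRoot P) ℝ :=
  if hP : P.Monic then
    { toFun := fun y =>
        sg ((AdjoinRoot.modByMonicHom hP (AdjoinRoot.mk P g * y)).coeff (P.natDegree - 1))
      map_zero_eq_one' := by rw [mul_zero, map_zero, coeff_zero, sg_zero]
      map_add_eq_mul' := by
        intro x y
        rw [mul_add, map_add, coeff_add, sg_add] }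
  else 1

theorem psiK_mk {P : K[X]} (hP : P.Monic) (g f : K[X]) :
    psiK g P (AdjoinRoot.mk P f) = sg (lc P (g * f)) := by
  unfold psiK
  rw [dif_pos hP]
  show sg ((AdjoinRoot.modByMonicHom hP (AdjoinRoot.mk P g * AdjoinRoot.mk P f)).coeff
    (P.natDegree - 1)) = _
  rw [← map_mul, AdjoinRoot.modByMonicHom_mk]
  rfl

theorem cop_aux {c₁ : K} {m A T S : K[X]} (hS0 : S ≠ 0) (hm : IsCoprime m S)
    (hsqA : Squarefree A) (h : m * A = T ^ 2 + X * (C c₁ * S) ^ 2) :
    IsCoprime T S ∧ IsCoprime A S := by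
  have key : ∀ P : K[X], Irreducible P → P ∣ S → ¬ P ∣ T := by
    intro P hP hPS hPT
    have h1 : P * P ∣ m * A := by
      rw [h]
      apply dvd_add
      · rw [sq]
        exact mul_dvd_mul hPT hPT
      · rw [sq]
        exact dvd_mul_of_dvd_right (mul_dvd_mul (dvd_mul_of_dvd_right hPS _)
          (dvd_mul_of_dvd_right hPS _)) _
    have h2 : IsCoprime P m := (hm.symm).of_isCoprime_of_dvd_left hPS
    have h3 : P * P ∣ A := (h2.mul_left h2).dvd_of_dvd_mul_left h1
    exact hP.not_isUnit (hsqA P h3)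
  constructor
  · apply isCoprime_of_irreducible_dvd
    · rintro ⟨_, h2⟩
      exact hS0 h2
    · intro P hP hPT hPS
      exact key P hP hPS hPT
  · apply isCoprime_of_irreducible_dvd
    · rintro ⟨_, h2⟩
      exact hS0 h2
    · intro P hP hPA hPS
      apply key P hP hPS
      have h1 : P ∣ T ^ 2 := by
        have h2 : T ^ 2 = m * A - X * (C c₁ * S) ^ 2 := by
          rw [h]
          ring
        rw [h2]
        apply dvd_sub
        · exact dvd_mul_of_dvd_right hPA _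
        · rw [sq]
          exact dvd_mul_of_dvd_right (dvd_mul_of_dvd_left (dvd_mul_of_dvd_right hPS _) _) _
      exact hP.prime.dvd_of_dvd_pow h1


theorem psiK_pm (g P : K[X]) (y : AdjoinRoot P) : psiK g P y = 1 ∨ psiK g P y = -1 := by
  unfold psiK
  split_ifs with hP
  · exact sg_pm _
  · left
    rfl

/-- `A ≡ A'` modulo `Q` -/
theorem A_congr (m A₀ v₀ Q v : K[X]) :
    (A₀ + m * (v₀ + Q * v) ^ 2) = (A₀ + m * v₀ ^ 2) + Q * (m * v * (2 * v₀ + Q * v)) := by
  ring

theorem monic_A {m A₀ W : K[X]} {n u V : ℕ} (hA₀ : A₀.Monic) (hn : A₀.natDegree = n)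
    (hm : m.natDegree = u) (hV : u + 2 * V ≤ n) (hW : W.degree < (V : WithBot ℕ)) :
    (A₀ + m * W ^ 2).Monic ∧ (A₀ + m * W ^ 2).natDegree = n := by
  rcases eq_or_ne W 0 with h0 | h0
  · rw [h0]
    have : A₀ + m * 0 ^ 2 = A₀ := by ring
    rw [this]
    exact ⟨hA₀, hn⟩
  have hWn : W.natDegree < V := (natDegree_lt_iff_degree_lt h0).2 hW
  have h1 : (m * W ^ 2).natDegree < A₀.natDegree := by
    have h2 : (m * W ^ 2).natDegree ≤ m.natDegree + (W ^ 2).natDegree := natDegree_mul_le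
    have h3 : (W ^ 2).natDegree ≤ 2 * W.natDegree := natDegree_pow_le
    omega
  refine ⟨hA₀.add_of_left (degree_lt_degree h1), ?_⟩
  rw [natDegree_add_eq_left_of_natDegree_lt h1, hn]

/-- `2 deg T ≤ n + u` -/
theorem deg_T {c₁ : K} {m A₀ T₀ A T S : K[X]} {n u : ℕ} (hu : 1 ≤ u)
    (hm : m.natDegree = u) (hn₀ : A₀.natDegree = n) (hn : A.natDegree = n)
    (h₀ : T₀ ^ 2 = m * A₀ + X * (C c₁ * S) ^ 2)
    (h : m * A = T ^ 2 + X * (C c₁ * S) ^ 2) : 2 * T.natDegree ≤ n + u := by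
  have h20 : (2 : K[X]) = 0 := CharTwo.two_eq_zero
  have h20' : (2 : K) = 0 := CharTwo.two_eq_zero
  have hder : (C c₁ * S) ^ 2 = -derivative (m * A₀) := by
    have h1 := congrArg derivative h₀
    have e1 : derivative (T₀ ^ 2) = 0 := by
      rw [sq, derivative_mul]
      linear_combination (T₀ * derivative T₀) * h20
    have e2 : derivative ((C c₁ * S) ^ 2) = 0 := by
      rw [sq, derivative_mul]
      linear_combination ((C c₁ * S) * derivative (C c₁ * S)) * h20
    have e3 : derivative (X * (C c₁ * S) ^ 2) = (C c₁ * S) ^ 2 := by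
      rw [derivative_mul, derivative_X, e2]
      ring
    rw [derivative_add, e1, e3] at h1
    linear_combination -h1
  have h2 : 2 * (C c₁ * S).natDegree ≤ n + u - 1 := by
    have h3 : ((C c₁ * S) ^ 2).natDegree = 2 * (C c₁ * S).natDegree := natDegree_pow _ _
    rw [← h3, hder, natDegree_neg]
    have h4 := natDegree_derivative_le (m * A₀)
    have h5 : (m * A₀).natDegree ≤ m.natDegree + A₀.natDegree := natDegree_mul_le
    omega
  have h1 : T ^ 2 = m * A - X * (C c₁ * S) ^ 2 := by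
    rw [h]
    ring
  have h3 : (T ^ 2).natDegree = 2 * T.natDegree := natDegree_pow T 2
  have h4 : (m * A).natDegree ≤ m.natDegree + A.natDegree := natDegree_mul_le
  have h5 : (X * (C c₁ * S) ^ 2).natDegree ≤ 1 + 2 * (C c₁ * S).natDegree := by
    have h6 : (X * (C c₁ * S) ^ 2).natDegree ≤ (X : K[X]).natDegree + ((C c₁ * S) ^ 2).natDegree :=
      natDegree_mul_le
    have h7 : ((C c₁ * S) ^ 2).natDegree ≤ 2 * (C c₁ * S).natDegree := natDegree_pow_le
    rw [natDegree_X] at h6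
    omega
  have h6 : (T ^ 2).natDegree ≤ max (m * A).natDegree (X * (C c₁ * S) ^ 2).natDegree := by
    rw [h1]
    exact natDegree_sub_le _ _
  rcases le_max_iff.1 h6 with h7 | h7 <;> omega

end sgs

end Fib1L

open Fib1L in
theorem fib1 : S_fib1 := by
  intro K _ _ _ γ c₁ b M a₀ α m A₀ T₀ e h ξ v₀ n u V hDat hmm hmi hmu hA₀ hn hmA hc₁ he hh heh
    hsq hmeh hMh hT₀ hV hdeg
  have h20 : (2 : K[X]) = 0 := CharTwo.two_eq_zero
  have hM := hDat.hM
  have hS : (e * h).Monic := he.mul hh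
  have heM : (e * M).Monic := he.mul hM
  have hu1 : 1 ≤ u := by
    rw [← hmu]
    exact hmi.natDegree_pos
  obtain ⟨x', y', hxy'⟩ : IsCoprime (e * M) h := heh.mul_left hMh
  obtain ⟨_, δ, hδ⟩ := parfrac h.natDegree h le_rfl hh hsq
  -- the facts for `v`
  have hid : ∀ v : K[X], m * (A₀ + m * (v₀ + (e ^ 5 * M) * v) ^ 2) =
      (T₀ + m * (v₀ + (e ^ 5 * M) * v)) ^ 2 + X * (C c₁ * (e * h)) ^ 2 := by
    intro v
    linear_combination (-1 : K[X]) * hT₀ -
      (X * (C c₁ * (e * h)) ^ 2 + T₀ * m * (v₀ + (e ^ 5 * M) * v)) * h20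
  have hsqf : ∀ v : K[X], mob (A₀ + m * (v₀ + (e ^ 5 * M) * v) ^ 2) ≠ 0 →
      Squarefree (A₀ + m * (v₀ + (e ^ 5 * M) * v) ^ 2) := by
    intro v hv
    by_contra hcon
    apply hv
    unfold Pool.Agent.H985.Chow.mob
    rw [if_neg hcon]
  by_cases hcop : IsCoprime (A₀ + m * v₀ ^ 2) (e * M)
  swap
  · refine ⟨0, fun _ _ => 1, by simp, fun _ _ => Or.inl rfl, fun _ _ _ => rfl, ?_⟩
    intro v _
    rw [zero_mul, zero_mul]
    unfold pAx
    split_ifs with hc
    · by_cases hmob : mob (A₀ + m * (v₀ + (e ^ 5 * M) * v) ^ 2) = 0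
      · rw [hmob, Int.cast_zero, zero_mul]
      · exfalso
        apply hcop
        have h1 := (cop_aux hS.ne_zero hmeh (hsqf v hmob) (hid v)).2
        have h2 : IsCoprime (A₀ + m * (v₀ + (e ^ 5 * M) * v) ^ 2) e :=
          h1.of_isCoprime_of_dvd_right ⟨h, rfl⟩
        obtain ⟨s, t, hst⟩ := h2.mul_right hc
        refine ⟨s, t + s * (e ^ 4 * (m * v * (2 * v₀ + (e ^ 5 * M) * v))), ?_⟩
        linear_combination hst
    · rfl
  obtain ⟨z, z', hz⟩ := hcop
  refine ⟨sg (lc (e * M) (C c₁⁻¹ * ξ * (z * (C c₁ * (e * h) * a₀ - C γ * b * (T₀ + m * v₀))) * y')),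
    fun P w => psiK (C c₁⁻¹ * ξ * x' * δ P * (C γ * b * m)) P (Ring.inverse (AdjoinRoot.mk P w)),
    (Pool.Agent.H985.KP.Loc2.sg_abs _).le, fun P w => psiK_pm _ _ _, ?_, ?_⟩
  · intro P w x
    show psiK _ P (Ring.inverse (AdjoinRoot.mk P (w + P * x))) =
      psiK _ P (Ring.inverse (AdjoinRoot.mk P w))
    have h1 : AdjoinRoot.mk P (w + P * x) = AdjoinRoot.mk P w := by
      rw [AdjoinRoot.mk_eq_mk]
      exact ⟨x, by ring⟩
    rw [h1]
  intro v hv
  by_cases hmob : mob (A₀ + m * (v₀ + (e ^ 5 * M) * v) ^ 2) = 0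
  · unfold pAx
    rw [hmob, Int.cast_zero, mul_zero, zero_mul, zero_mul]
    split_ifs
    · rfl
    · rfl
  have hsqA := hsqf v hmob
  obtain ⟨hAm, hAn⟩ := monic_A hA₀ hn hmu hV hv
  have hidv := hid v
  obtain ⟨hcT, hcA⟩ := cop_aux hS.ne_zero hmeh hsqA hidv
  -- `A` is prime to `e M`
  have hw : z * (A₀ + m * (v₀ + (e ^ 5 * M) * v) ^ 2) +
      (z' - z * (e ^ 4 * (m * v * (2 * v₀ + (e ^ 5 * M) * v)))) * (e * M) = 1 := by
    linear_combination hz
  have hTT : T₀ + m * (v₀ + (e ^ 5 * M) * v) - (T₀ + m * v₀) = (e * M) * (e ^ 4 * m * v) := by ring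
  have hcAM : IsCoprime (A₀ + m * (v₀ + (e ^ 5 * M) * v) ^ 2) M := by
    have h1 : IsCoprime (A₀ + m * (v₀ + (e ^ 5 * M) * v) ^ 2) (e * M) := ⟨_, _, hw⟩
    exact h1.of_isCoprime_of_dvd_right ⟨e, mul_comm _ _⟩
  obtain ⟨hρ1, hρ2⟩ := NearPL.rho_spec γ b a₀ hM hAm hsqA hcAM
  have hpA : pAx γ b M a₀ ξ (A₀ + m * (v₀ + (e ^ 5 * M) * v) ^ 2) =
      (mob (A₀ + m * (v₀ + (e ^ 5 * M) * v) ^ 2) : ℝ) *
        sg (lc ((A₀ + m * (v₀ + (e ^ 5 * M) * v) ^ 2) * M)
          (ξ * rho γ b M a₀ (A₀ + m * (v₀ + (e ^ 5 * M) * v) ^ 2))) := by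
    unfold pAx
    rw [if_pos hcAM]
  rw [hpA]
  generalize z' - z * (e ^ 4 * (m * v * (2 * v₀ + (e ^ 5 * M) * v))) = w' at hw
  generalize rho γ b M a₀ (A₀ + m * (v₀ + (e ^ 5 * M) * v) ^ 2) = ρ at hρ1 hρ2
  generalize A₀ + m * (v₀ + (e ^ 5 * M) * v) ^ 2 = A at hAm hAn hsqA hcA hidv hw hcAM hρ1 hρ2
  obtain ⟨T, hT⟩ : ∃ T : K[X], T = T₀ + m * (v₀ + (e ^ 5 * M) * v) := ⟨_, rfl⟩
  rw [← hT] at hcT hidv hTT
  rw [← hT]
  -- `k`
  obtain ⟨k, hk⟩ : A ∣ C c₁ * (e * h) * ρ - C γ * b * T := by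
    apply NearPL.dvd_of_dvd_sq hsqA
    obtain ⟨l, hl⟩ := hρ2
    unfold fa at hl
    refine ⟨(C c₁ * (e * h)) ^ 2 * l + (C γ * b) ^ 2 * m, ?_⟩
    linear_combination (C c₁ * (e * h)) ^ 2 * hl + (C γ * b) ^ 2 * (-hidv) +
      (-(C c₁ * (e * h) * ρ) * (C γ * b * T) - (C c₁ * (e * h)) ^ 2 * X * (C γ * b) ^ 2) * h20
  have hcc : (C c₁⁻¹ * C c₁ : K[X]) = 1 := by
    rw [← C_mul, inv_mul_cancel₀ hc₁, C_1]
  -- step 1
  have h1 : lc (A * M) (ξ * ρ) = lc (e * M * h) (C c₁⁻¹ * ξ * k) := by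
    have hsm : lc (A * M * (e * h)) (C c₁⁻¹ * ξ * (C γ * b * T)) = 0 := by
      apply lc_small ((hAm.mul hM).mul hS)
      rw [(hAm.mul hM).natDegree_mul hS, hAm.natDegree_mul hM, hAn]
      have h2 := deg_T hu1 hmu hn hAn hT₀ hidv
      have h3 : (C c₁⁻¹ * ξ * (C γ * b * T)).natDegree ≤
          (C c₁⁻¹ * ξ).natDegree + (C γ * b * T).natDegree := natDegree_mul_le
      have h4 : (C c₁⁻¹ * ξ).natDegree ≤ ξ.natDegree := natDegree_C_mul_le _ _
      have h5 : (C γ * b * T).natDegree ≤ (C γ * b).natDegree + T.natDegree := natDegree_mul_le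
      have h6 : (C γ * b).natDegree ≤ b.natDegree := natDegree_C_mul_le _ _
      omega
    calc lc (A * M) (ξ * ρ) = lc (A * M * (e * h)) (ξ * ρ * (e * h)) :=
          (lc_cancel (hAm.mul hM) hS _).symm
      _ = lc (A * M * (e * h)) (C c₁⁻¹ * ξ * (C γ * b * T) + C c₁⁻¹ * ξ * k * A) := by
          have h2 : ξ * ρ * (e * h) = C c₁⁻¹ * ξ * (C γ * b * T) + C c₁⁻¹ * ξ * k * A := by
            linear_combination (C c₁⁻¹ * ξ) * hk - (ξ * ρ * (e * h)) * hcc
          rw [h2]
      _ = lc (A * M * (e * h)) (C c₁⁻¹ * ξ * k * A) := by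
          rw [lc_add, hsm, zero_add]
      _ = lc (e * M * h * A) (C c₁⁻¹ * ξ * k * A) := by
          have h2 : A * M * (e * h) = e * M * h * A := by ring
          rw [h2]
      _ = lc (e * M * h) (C c₁⁻¹ * ξ * k) := lc_cancel (heM.mul hh) hAm _
  -- step 2
  have h2 : lc (e * M * h) (C c₁⁻¹ * ξ * k) = lc h (C c₁⁻¹ * ξ * k * x') +
      lc (e * M) (C c₁⁻¹ * ξ * k * y') := recip heM hh (by linear_combination hxy') _
  -- step 3
  have h3 : lc (e * M) (C c₁⁻¹ * ξ * k * y') =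
      lc (e * M) (C c₁⁻¹ * ξ * (z * (C c₁ * (e * h) * a₀ - C γ * b * (T₀ + m * v₀))) * y') := by
    apply lc_congr heM
    obtain ⟨r, hr⟩ := hρ1
    refine ⟨C c₁⁻¹ * ξ * y' * (z * C c₁ * h * r - z * C γ * b * (e ^ 4 * m * v) + w' * k), ?_⟩
    linear_combination (C c₁⁻¹ * ξ * y') * (z * C c₁ * (e * h) * hr - z * hk -
      z * C γ * b * hTT - k * hw)
  -- step 4
  have h4 : sg (lc h (C c₁⁻¹ * ξ * k * x')) = ∏ᶠ P ∈ PA h,
      psiK (C c₁⁻¹ * ξ * x' * δ P * (C γ * b * m)) P (Ring.inverse (AdjoinRoot.mk P T)) := by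
    rw [hδ]
    apply finprod_mem_congr rfl
    intro P hP
    obtain ⟨hPm, hPi, q, hq⟩ := hP
    obtain ⟨a, b', hab⟩ : IsCoprime T P :=
      hcT.of_isCoprime_of_dvd_right ⟨e * q, by rw [hq]; ring⟩
    have h8 : AdjoinRoot.mk P a * AdjoinRoot.mk P T = 1 := by
      rw [← map_mul, ← map_one (AdjoinRoot.mk P), AdjoinRoot.mk_eq_mk]
      exact ⟨-b', by linear_combination hab⟩
    have h9 : Ring.inverse (AdjoinRoot.mk P T) = AdjoinRoot.mk P a := by
      have h10 : IsUnit (AdjoinRoot.mk P T) := IsUnit.of_mul_eq_one_right _ h8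
      have h11 := Ring.mul_inverse_cancel _ h10
      calc Ring.inverse (AdjoinRoot.mk P T)
          = AdjoinRoot.mk P a * AdjoinRoot.mk P T * Ring.inverse (AdjoinRoot.mk P T) := by
            rw [h8, one_mul]
        _ = AdjoinRoot.mk P a := by rw [mul_assoc, h11, mul_one]
    rw [h9, psiK_mk hPm]
    have h10 : P ∣ k - C γ * b * m * a := by
      have hq2 : h = P * q := hq
      rw [hq2] at hidv hk
      have h11 : P ∣ T ^ 2 * (k - C γ * b * m * a) := by
        refine ⟨m * C c₁ * e * q * ρ - k * X * (C c₁ * e * q) ^ 2 * P + C γ * b * m * T * b', ?_⟩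
        linear_combination (-k) * hidv - m * hk - (m * C γ * b * T) * hab -
          (m * C γ * b * T) * h20
      have h12 : IsCoprime P (T ^ 2) := IsCoprime.pow_right ⟨b', a, by linear_combination hab⟩
      exact h12.dvd_of_dvd_mul_left h11
    congr 1
    apply lc_congr hPm
    obtain ⟨l, hl⟩ := h10
    refine ⟨C c₁⁻¹ * ξ * x' * δ P * l, ?_⟩
    linear_combination (C c₁⁻¹ * ξ * x' * δ P) * hl
  rw [h1, h2, Pool.Agent.H985.KP.Loc2.sg_add, h3, h4]
  ring

end Pool.Agent.H604.LD
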