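import Pool.Agent.H604.LD.StmF
import Pool.Agent.H604.LD.Typc
import Pool.Agent.H604.LD.FinM

/-!
# Task FIB2 (helper181): the fibre bound from FIB1, WIN6 and WINF
-/

set_option autoImplicit false
set_option linter.unusedSectionVars false
set_option linter.unusedVariables false

namespace Pool.Agent.H604.LD.Fib2Aux

open Polynomial
open Pool.Agent.H985.Chow (mob lc)
open Pool.Agent.H985.KP (sg PA mobg)
open Pool.Agent.H985.FC (GP S_winF gl)
open Pool.Agent.H985.Chow.Asm (instFD card_deg mem_of_natDegree_lt natDegree_lt_of_mem coprime_of_ne mem_deg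
  window_finsum)
open Pool.Agent.H604.LD.TypcAux

variable {K : Type} [Field K] [Fintype K] [CharP K 2]

theorem two0 : (2 : K[X]) = 0 := CharTwo.two_eq_zero

theorem sq_inj {a b : K[X]} (h : a ^ 2 = b ^ 2) : a = b := by
  have h1 : (a - b) ^ 2 = 0 := by linear_combination h + (b ^ 2 - a * b) * (two0 (K := K))
  exact sub_eq_zero.mp (pow_eq_zero_iff (two_ne_zero) |>.mp h1)

theorem mob_irr {m : K[X]} (hm : Irreducible m) : mob m = -1 := by
  unfold mob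
  rw [if_pos hm.squarefree]
  rw [UniqueFactorizationMonoid.card_factors_of_irreducible hm, pow_one]

theorem fibre_id {m A₀ T₀ s : K[X]} (h : T₀ ^ 2 = m * A₀ + X * s ^ 2) (w : K[X]) :
    (T₀ + m * w) ^ 2 + X * s ^ 2 = m * (A₀ + m * w ^ 2) := by
  linear_combination h + (X * s ^ 2 + T₀ * m * w) * (two0 (K := K))

theorem mob_fibre {m A₀ T₀ s : K[X]} (hm : Irreducible m) (hA : ¬ m ∣ A₀)
    (h : T₀ ^ 2 = m * A₀ + X * s ^ 2) (w : K[X]) :
    mob (A₀ + m * w ^ 2) = - mobg 1 ((T₀ + m * w) ^ 2 + X * s ^ 2) := by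
  have h1 : ¬ m ∣ A₀ + m * w ^ 2 := by
    intro h2
    exact hA ((dvd_add_left (Dvd.intro _ rfl)).1 h2)
  rw [mobg_one, fibre_id h, mob_mul_cop ((hm.coprime_iff_not_dvd).2 h1), mob_irr hm]
  ring

/-- the bound for one class of the fibre -/
theorem class_fib {M₀ : ℝ} (hM1 : 1 ≤ M₀) (h6 : W6 M₀) (hF : S_winF) (h1 : S_fib1)
    {γ c₁ : K} {b M a₀ α m A₀ T₀ e h'' P ξ : K[X]} {n u V L D T : ℕ} (hdat : Dat γ b M a₀ α)
    (hm : m.Monic) (hmi : Irreducible m) (hmu : m.natDegree = u) (hA₀ : A₀.Monic)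
    (hA₀n : A₀.natDegree = n) (hmA : ¬ m ∣ A₀) (hc₁ : c₁ ≠ 0) (he : e.Monic) (hP : P.Monic)
    (hh'' : h''.Monic) (heh : IsCoprime e (P * h'')) (hsq : Squarefree (P * h''))
    (hmeh : IsCoprime m (e * (P * h''))) (hMh : IsCoprime M (P * h''))
    (hT₀ : T₀ ^ 2 = m * A₀ + X * (C c₁ * (e * (P * h''))) ^ 2) (huV : u + 2 * V ≤ n)
    (hVL : (e ^ 5 * M).natDegree + L = V) (hL1 : 1 ≤ L)
    (hdeg : 2 * (ξ.natDegree + b.natDegree) + u + 4 ≤ 2 * (e * (P * h'')).natDegree + n)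
    (hdeg2 : 2 * V + 5 * u + 3 * n ≤ 8 * (e * (P * h'')).natDegree)
    (hD1 : P.natDegree + D ≤ L) (hD2 : h''.natDegree + D ≤ L) (hL2 : L ≤ 2 * h''.natDegree)
    (h9 : 9 * T ≤ D) (v₀ : K[X]) (hv₀ : v₀ ∈ degreeLT K V) :
    |∑ w : degreeLT K L, pAx γ b M a₀ ξ (A₀ + m * (v₀ + (e ^ 5 * M) * (w : K[X])) ^ 2)| ≤
      (Fintype.card K : ℝ) ^ L *
        (M₀ ^ (PA (P * h'')).ncard / (Fintype.card K : ℝ) ^ T) ^ ((1 : ℝ) / 128) := by
  classical
  have hq0 : (0 : ℝ) < Fintype.card K := by exact_mod_cast Fintype.card_pos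
  obtain ⟨h, hh⟩ : ∃ h, h = P * h'' := ⟨_, rfl⟩
  obtain ⟨Q, hQ⟩ : ∃ Q, Q = e ^ 5 * M := ⟨_, rfl⟩
  obtain ⟨s, hs⟩ : ∃ s, s = C c₁ * (e * h) := ⟨_, rfl⟩
  have hhm : h.Monic := by rw [hh]; exact hP.mul hh''
  have hQm : Q.Monic := by rw [hQ]; exact (he.pow 5).mul hdat.hM
  have hEm : (m * Q).Monic := hm.mul hQm
  rw [← hh] at heh hsq hmeh hMh hT₀ hdeg hdeg2 ⊢
  rw [← hQ] at hVL ⊢
  have hmh : IsCoprime m h := hmeh.of_mul_right_right
  have hQh : IsCoprime Q h := by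
    rw [hQ]
    exact (heh.pow_left).mul_left hMh
  have hEh : IsCoprime (m * Q) h := hmh.mul_left hQh
  obtain ⟨I, hI, hp⟩ := Pool.Agent.H985.Chow.Win.facs hhm hsq
  have hPA : PA h = ↑I := by
    ext P
    rw [Finset.mem_coe, hI]
    rfl
  have hfp : ∀ f : K[X] → ℝ, ∏ᶠ P ∈ PA h, f P = ∏ P ∈ I, f P := by
    intro f
    rw [hPA]
    exact finprod_mem_coe_finset _ _
  -- FIB1
  obtain ⟨κ, ε, hκ, hε1, hε2, hf1⟩ := h1 K γ c₁ b M a₀ α m A₀ T₀ e h ξ v₀ n u V hdat hm hmi hmu hA₀ hA₀n hmA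
    hc₁ he hhm heh hsq hmeh hMh hT₀ huV hdeg
  rw [← hQ] at hf1
  -- WINF
  have hVn : 2 * V ≤ n := by omega
  have hlt : (m * v₀ ^ 2).degree < A₀.degree := by
    by_cases h0 : v₀ = 0
    · rw [h0, zero_pow two_ne_zero, mul_zero, degree_zero]
      exact bot_lt_iff_ne_bot.2 (fun hb => hA₀.ne_zero (degree_eq_bot.1 hb))
    · have h2 := natDegree_lt_of_mem hv₀ h0
      have h3 : m * v₀ ^ 2 ≠ 0 := mul_ne_zero hm.ne_zero (pow_ne_zero _ h0)
      rw [degree_eq_natDegree h3, degree_eq_natDegree hA₀.ne_zero, hm.natDegree_mul' (pow_ne_zero _ h0),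
        natDegree_pow, hmu, hA₀n]
      exact_mod_cast (by omega : u + 2 * v₀.natDegree < n)
  have hAm : (A₀ + m * v₀ ^ 2).Monic := hA₀.add_of_left hlt
  have hAn : (A₀ + m * v₀ ^ 2).natDegree = n := by
    rw [natDegree_add_eq_left_of_degree_lt hlt, hA₀n]
  have hZ : (T₀ + m * v₀) ^ 2 + X * (C c₁ * (e * h)) ^ 2 = m * (A₀ + m * v₀ ^ 2) := fibre_id hT₀ v₀
  obtain ⟨η₁, hη1, hη2⟩ := hF K (n + u) L c₁ (T₀ + m * v₀) e h (m * Q) 1 hc₁ he hhm heh hsq monic_one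
    (one_dvd _) hEm.ne_zero (by rw [hQ]; exact (Dvd.intro _ rfl : e ^ 5 ∣ e ^ 5 * M).mul_left m) hEh hL1
    (by rw [hZ]; exact hm.mul hAm)
    (by rw [hZ, hm.natDegree_mul hAm, hmu, hAn]; ring)
    (by rw [hm.natDegree_mul hQm, hmu]; omega)
  have hin : ∀ w : degreeLT K L, v₀ + Q * (w : K[X]) ∈ degreeLT K V := by
    intro w
    refine add_mem hv₀ ?_
    rw [mul_mem_deg hQm (by omega)]
    have h2 : V - Q.natDegree = L := by omega
    rw [h2]
    exact w.2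
  have hterm : ∀ w : degreeLT K L, pAx γ b M a₀ ξ (A₀ + m * (v₀ + Q * (w : K[X])) ^ 2) =
      (κ * (-η₁)) * ∏ᶠ P' ∈ PA h, (GP s 1 P' (T₀ + m * v₀ + m * Q * (w : K[X])) *
        ε P' (T₀ + m * v₀ + m * Q * (w : K[X]))) := by
    intro w
    have h2 := hf1 (w : K[X]) (mem_degreeLT.1 (hin w))
    have h3 := hη2 (w : K[X]) (mem_degreeLT.1 w.2)
    have e1 : T₀ + m * (v₀ + Q * (w : K[X])) = T₀ + m * v₀ + m * Q * (w : K[X]) := by ring
    rw [mob_fibre hmi hmA hT₀, e1, Int.cast_neg, h3, hfp, hfp] at h2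
    rw [h2, hfp, Finset.prod_mul_distrib, hs]
    ring
  have h7 := h6 K L D T (m * Q) s P h'' (T₀ + m * v₀) 1 ε hP hh'' (by rw [← hh]; exact hsq)
    (by rw [← hh]; exact hEh) hD1 hD2 (by
      intro P' hP' hd
      rw [← hh] at hP'
      have hPi : Irreducible P' := hP'.2.1
      have : Fact (Irreducible P') := ⟨hPi⟩
      have h8 := Pool.Agent.H985.Chow.Win.be_ne P' hc₁ heh hsq hP'.2.2
      rw [← hs] at h8
      exact h8 (AdjoinRoot.mk_eq_zero.2 hd)) hε1 hε2 hL2 h9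
  rw [window_finsum, ← hh] at h7
  rw [Finset.sum_congr rfl fun w _ => hterm w, ← Finset.mul_sum, abs_mul]
  have hκη : |κ * (-η₁)| ≤ 1 := by
    rw [abs_mul, abs_neg]
    exact mul_le_one₀ hκ (abs_nonneg _) hη1
  have h8 : |∑ w : degreeLT K L, ∏ᶠ P' ∈ PA h, (GP s 1 P' (T₀ + m * v₀ + m * Q * (w : K[X])) *
        ε P' (T₀ + m * v₀ + m * Q * (w : K[X])))| ≤ (Fintype.card K : ℝ) ^ L *
        (M₀ ^ (PA h).ncard / (Fintype.card K : ℝ) ^ T) ^ ((1 : ℝ) / 128) := by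
    apply root_bound hq0 (abs_nonneg _) (by positivity)
    refine h7.trans (le_of_eq ?_)
    ring
  calc |κ * (-η₁)| * _ ≤ 1 * _ := mul_le_mul_of_nonneg_right hκη (abs_nonneg _)
    _ ≤ _ := by rw [one_mul]; exact h8

end Pool.Agent.H604.LD.Fib2Aux

namespace Pool.Agent.H604.LD

open Polynomial TypcAux Fib2Aux
open Pool.Agent.H985.Chow (mob lc)
open Pool.Agent.H985.KP (sg PA mobg Good2)
open Pool.Agent.H985.FC (GP S_winF gl)
open Pool.Agent.H985.Chow.Asm (instFD card_deg mem_of_natDegree_lt natDegree_lt_of_mem coprime_of_ne mem_deg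
  window_finsum)
open Pool.Agent.H604.FC.Asm4 (omega_bound)

/-- **Task FIB2.** -/
theorem tfib2 : S_tfib2 := by
  classical
  intro h1 h6 hF
  obtain ⟨M₀, hM1, h6⟩ := h6
  intro K _ _ _ η hη
  obtain ⟨q, hqdef⟩ : ∃ q : ℝ, q = Fintype.card K := ⟨_, rfl⟩
  have hq1 : (1 : ℝ) < q := by rw [hqdef]; exact_mod_cast Fintype.one_lt_card
  have hq0 : (0 : ℝ) < q := by linarith
  obtain ⟨A₁, hA1, hA⟩ := omega_bound K M₀ hM1 (q ^ η) (Real.one_lt_rpow hq1 hη)
  obtain ⟨a₁, ha₁⟩ := pow_unbounded_of_one_lt A₁ hq1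
  obtain ⟨n₁, hn₁⟩ := exists_nat_gt (((a₁ : ℝ) + 1) / η)
  refine ⟨η / 128, by positivity, n₁ + 8, ?_⟩
  intro γ c₁ b M a₀ α m A₀ e h P ξ n u a V hn hdat hm hmi hmu hA₀ hA₀n hmA hc₁ he hh heh hsq hmeh hder hP hPi hPa
    hPh hed hMd hξd huV hdeg hc1 hc2 hc3
  -- real quantities
  obtain ⟨x, hx⟩ : ∃ x : ℝ, x = η * n := ⟨_, rfl⟩
  have hnR : (n₁ : ℝ) + 8 ≤ n := by exact_mod_cast hn
  have hxa : (a₁ : ℝ) + 1 ≤ x := by
    have h2 : ((a₁ : ℝ) + 1) / η ≤ n := by linarith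
    rw [div_le_iff₀ hη] at h2
    rw [hx]
    linarith
  have ha0 : (0 : ℝ) ≤ a₁ := Nat.cast_nonneg _
  have hx0 : 0 < x := by linarith
  have r1 : ((e * h).natDegree : ℝ) + 40 * x ≤ V + a := by rw [hx]; linarith
  have r2 : (a : ℝ) + 40 * x ≤ V := by rw [hx]; linarith
  have r3 : (V : ℝ) + 10 * x ≤ 2 * ((e * h).natDegree - a) := by rw [hx]; linarith
  rw [← hx] at hed hMd hξd
  have r4 : (u : ℝ) + 2 * V ≤ n := by exact_mod_cast huV
  have r5 : 2 * (V : ℝ) + 5 * u + 3 * n ≤ 8 * (e * h).natDegree := by exact_mod_cast hdeg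
  have hu0 : (0 : ℝ) ≤ u := Nat.cast_nonneg _
  have ra : 40 * x ≤ a := by linarith
  -- the decomposition
  obtain ⟨T₀, y, hTy⟩ := FINM.decomp (m * A₀)
  have hy : C c₁ * (e * h) = y := by
    apply sq_inj
    rw [hder]
    exact FINM.der hTy
  rw [← hy] at hTy
  obtain ⟨g, h', hg, hh', hgh, hgM, hMh'⟩ := split_sq hh hsq M
  have hM0 : M ≠ 0 := hdat.hM.ne_zero
  have hgd : (g.natDegree : ℝ) ≤ x := by
    have h2 := natDegree_le_of_dvd hgM hM0
    have h3 : (g.natDegree : ℝ) ≤ M.natDegree := by exact_mod_cast h2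
    linarith
  -- `P` divides `h'`
  have hPM : ¬ P ∣ M := by
    intro hd
    have h2 := natDegree_le_of_dvd hd hM0
    have h3 : (a : ℝ) ≤ M.natDegree := by rw [← hPa]; exact_mod_cast h2
    linarith
  have hPh' : P ∣ h' := by
    rw [hgh] at hPh
    rcases hPi.prime.dvd_or_dvd hPh with h2 | h2
    · exact absurd (h2.trans hgM) hPM
    · exact h2
  obtain ⟨h'', hh''⟩ := hPh'
  have hh''m : h''.Monic := by
    rw [hh''] at hh'
    exact hP.of_mul_monic_left hh'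
  have heh' : e * g * (P * h'') = e * h := by
    rw [hgh, hh'']
    ring
  have hsq' : Squarefree (P * h'') := by
    rw [← hh'']
    exact hsq.squarefree_of_dvd (by rw [hgh]; exact dvd_mul_left _ _)
  have hcop : IsCoprime (e * g) (P * h'') := by
    rw [← hh'']
    refine IsCoprime.mul_left ?_ ?_
    · rw [hgh] at heh
      exact heh.of_mul_right_right
    · rw [hgh] at hsq
      exact (squarefree_mul_iff.1 hsq).1.isCoprime
  have hegm : (e * g).Monic := he.mul hg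
  have hQd : ((e * g) ^ 5 * M).natDegree = 5 * (e.natDegree + g.natDegree) + M.natDegree := by
    rw [(hegm.pow 5).natDegree_mul hdat.hM, hegm.natDegree_pow, he.natDegree_mul hg]
  have hQdR : (((e * g) ^ 5 * M).natDegree : ℝ) = 5 * (e.natDegree + g.natDegree) + M.natDegree := by
    exact_mod_cast hQd
  have hHd : (e * h).natDegree = e.natDegree + g.natDegree + (a + h''.natDegree) := by
    rw [← heh', hegm.natDegree_mul (hP.mul hh''m), hP.natDegree_mul hh''m, he.natDegree_mul hg, hPa]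
  have hHdR : ((e * h).natDegree : ℝ) = e.natDegree + g.natDegree + (a + h''.natDegree) := by
    exact_mod_cast hHd
  have he0 : (0 : ℝ) ≤ e.natDegree := Nat.cast_nonneg _
  have hg0 : (0 : ℝ) ≤ g.natDegree := Nat.cast_nonneg _
  have hbd : 5 * b.natDegree ≤ M.natDegree := by
    have h2 := natDegree_le_of_dvd hdat.hbM hM0
    rw [natDegree_pow] at h2
    exact h2
  have hbdR : 5 * (b.natDegree : ℝ) ≤ M.natDegree := by exact_mod_cast hbd
  -- the parameters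
  obtain ⟨D, hD⟩ : ∃ D : ℕ, D = ⌊28 * x⌋₊ := ⟨_, rfl⟩
  have hD1 : (D : ℝ) ≤ 28 * x := by rw [hD]; exact Nat.floor_le (by positivity)
  have hD2 : 28 * x < D + 1 := by rw [hD]; exact Nat.lt_floor_add_one _
  obtain ⟨T, hT⟩ : ∃ T : ℕ, T = D / 9 := ⟨_, rfl⟩
  have h9 : 9 * T ≤ D := by rw [hT]; omega
  have hT2 : (D : ℝ) ≤ 9 * T + 8 := by
    have : D ≤ 9 * T + 8 := by rw [hT]; omega
    exact_mod_cast this
  have hD0 : (0 : ℝ) ≤ D := Nat.cast_nonneg _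
  obtain ⟨L, hL⟩ : ∃ L : ℕ, ((e * g) ^ 5 * M).natDegree + L = V := by
    refine ⟨V - ((e * g) ^ 5 * M).natDegree, ?_⟩
    have h2 : ((e * g) ^ 5 * M).natDegree ≤ V := by
      have h3 : (((e * g) ^ 5 * M).natDegree : ℝ) ≤ V := by rw [hQdR]; linarith
      exact_mod_cast h3
    omega
  have hLR : (((e * g) ^ 5 * M).natDegree : ℝ) + L = V := by exact_mod_cast hL
  rw [hQdR] at hLR
  have hL1 : 1 ≤ L := by
    have h2 : (0 : ℝ) < L := by linarith
    exact_mod_cast h2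
  have k1 : 2 * (ξ.natDegree + b.natDegree) + u + 4 ≤ 2 * (e * h).natDegree + n := by
    have h2 : 2 * ((ξ.natDegree : ℝ) + b.natDegree) + u + 4 ≤ 2 * (e * h).natDegree + n := by
      have hn1 : (0 : ℝ) ≤ n₁ := Nat.cast_nonneg _
      linarith
    exact_mod_cast h2
  have k2 : P.natDegree + D ≤ L := by
    rw [hPa]
    have h2 : (a : ℝ) + D ≤ L := by linarith
    exact_mod_cast h2
  have k3 : h''.natDegree + D ≤ L := by
    have h2 : (h''.natDegree : ℝ) + D ≤ L := by linarith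
    exact_mod_cast h2
  have k4 : L ≤ 2 * h''.natDegree := by
    have h2 : (L : ℝ) ≤ 2 * h''.natDegree := by linarith
    exact_mod_cast h2
  obtain ⟨Y, hY⟩ : ∃ Y : ℝ, Y = (M₀ ^ (PA (P * h'')).ncard / q ^ T) ^ ((1 : ℝ) / 128) := ⟨_, rfl⟩
  have hmain : ∀ v ∈ degreeLT K V, |∑ w : degreeLT K L,
      pAx γ b M a₀ ξ (A₀ + m * (v + ((e * g) ^ 5 * M) * (w : K[X])) ^ 2)| ≤ (Fintype.card K : ℝ) ^ L * Y := by
    intro v hv
    rw [hY, hqdef]
    refine class_fib (T₀ := T₀) hM1 h6 hF h1 hdat hm hmi hmu hA₀ hA₀n hmA hc₁ hegm hP hh''m hcop hsq' ?_ ?_ ?_ huV hL hL1 ?_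
      ?_ k2 k3 k4 h9 v hv
    · rw [heh']
      exact hmeh
    · rw [← hh'']
      exact hMh'.symm
    · rw [heh', hTy]
      linear_combination (-X * (C c₁ * (e * h)) ^ 2) * (Fib2Aux.two0 (K := K))
    · rw [heh']
      exact k1
    · rw [heh']
      exact hdeg
  have hQm : ((e * g) ^ 5 * M).Monic := (hegm.pow 5).mul hdat.hM
  rw [window_finsum]
  have havg := Pool.Agent.H985.Chow.Asm.avg V L ((e * g) ^ 5 * M) (fun w hw => by
    rw [mul_mem_deg hQm (by omega)]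
    have h2 : V - ((e * g) ^ 5 * M).natDegree = L := by omega
    rw [h2]
    exact hw) (fun v => pAx γ b M a₀ ξ (A₀ + m * v ^ 2)) Y hmain
  refine havg.trans ?_
  rw [← hqdef]
  have hdn : (P * h'').natDegree ≤ n := by
    have h2 : ((P * h'').natDegree : ℝ) ≤ n := by
      rw [hP.natDegree_mul hh''m, hPa]
      push_cast
      linarith
    exact_mod_cast h2
  have hYb : Y ≤ q ^ (((a₁ : ℝ) + η * n - T) / 128) := by
    rw [hY]
    exact Y_bound hq1 hM1 _ _ _ _ A₁ _ (hA _ (hP.mul hh''m).ne_zero n hdn) ha₁.le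
  calc q ^ V * Y ≤ q ^ V * q ^ (((a₁ : ℝ) + η * n - T) / 128) := by gcongr
    _ = q ^ ((V : ℝ) + ((a₁ : ℝ) + η * n - T) / 128) := by
        rw [Real.rpow_add hq0, Real.rpow_natCast]
    _ ≤ q ^ ((V : ℝ) - η / 128 * n) := by
        refine Real.rpow_le_rpow_of_exponent_le hq1.le ?_
        have h2 : η / 128 * (n : ℝ) = x / 128 := by rw [hx]; ring
        rw [h2, ← hx]
        linarith

end Pool.Agent.H604.LD

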