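import Pool.Agent.H604.LD.FinalF
import Pool.Agent.H604.LD.Fib1
import Pool.Agent.H604.LD.Fib2
import Pool.Agent.H604.LD.BhqC
import Pool.Agent.H604.LD.App.A4

/-!
# The uniform theorem with power saving (helper604)
-/

set_option autoImplicit false

namespace Pool.Agent.H604.LD

/-- **The fibre bound.** -/
theorem s_fib : S_fib := tfib2 fib1 s_win6 (Pool.Agent.H985.FC.winF Pool.Agent.H985.Chow.s_key)

/-- **The uniform theorem with power saving.** -/
theorem s_landaup : S_landaup := landaup_of_fib s_fib

/-- **Bateman–Horn for the inseparable quadratic polynomials.** -/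
theorem s_bhqp : S_bhqp := tbhqp s_landaup

/-- **Bateman–Horn for the inseparable quadratic polynomials in residue classes.** -/
theorem s_bhqc : S_bhqc := tbhqc s_landaup

end Pool.Agent.H604.LD
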