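import Mathlib
import Pool.Agent.H604.LD.StmG

/-!
# The Möbius function at products of polynomials `T ^ 2 + c`, `q` even (helper604)

`f_i(a) = (a + e_i)² + X (γ_i b_i)²`, `i < k`.  The product of the `μ(f_i(a))` is a phase at
infinity; it is degenerate if and only if `∑ 1 / (γ_i b_i) = 0` and `∑ e_i / (γ_i b_i)² = 0`.
-/

namespace Pool.Agent.H604.LD

open Polynomial
open scoped Classical
open Pool.Agent.H985.Chow (mob lc)
open Pool.Agent.H985.KP (sg PA)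
open Pool.Agent.H985.FC (S_gcs)
open Pool.Agent.H694.Typ (Mn)

section

variable {K : Type} [Field K] {n : ℕ}

/-- The product of the `γ_j b_j`. -/
noncomputable def bB (γ : Fin n → K) (b : Fin n → K[X]) : K[X] := ∏ j, C (γ j) * b j

/-- The product of the `γ_j b_j`, `j ≠ i`. -/
noncomputable def bt (γ : Fin n → K) (b : Fin n → K[X]) (i : Fin n) : K[X] :=
  ∏ j ∈ Finset.univ.erase i, C (γ j) * b j

/-- `B ∑ 1 / (γ_i b_i)`. -/
noncomputable def om (γ : Fin n → K) (b : Fin n → K[X]) : K[X] := ∑ i, bt γ b i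

/-- `B² ∑ e_i / (γ_i b_i)²`. -/
noncomputable def p1 (γ : Fin n → K) (b e : Fin n → K[X]) : K[X] := ∑ i, e i * bt γ b i ^ 2

/-- The product of the Möbius functions. -/
noncomputable def mobP (γ : Fin n → K) (b e : Fin n → K[X]) (a : K[X]) : ℝ :=
  ∏ i, (mob (fa (γ i) (b i) (a + e i)) : ℝ)

/-- The product of the phases. -/
noncomputable def phP (γ : Fin n → K) (b e : Fin n → K[X]) (a : K[X]) : ℝ :=
  ∏ i, sg (phg (γ i) (b i) (a + e i))

end

/-- **Task CUBEM0.**  The differences of the phase, `∑ 1 / (γ_i b_i) ≠ 0`. -/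
def S_cubem0 : Prop :=
  ∀ (K : Type) [Field K] [Fintype K] [CharP K 2] (n : ℕ) (γ : Fin n → K) (b e : Fin n → K[X]),
    (∀ i, γ i ≠ 0) → (∀ i, (b i).Monic) → om γ b ≠ 0 → ∃ N : ℕ,
    ∀ (k d τ : ℕ) (a D s : K[X]) (h : Fin k → K[X]),
    1 ≤ k → N ≤ τ → N ≤ d → a.Monic → a.natDegree = d → D.Monic → s ≠ 0 →
    D.natDegree + N ≤ 2 * s.natDegree → s ^ 2 = derivative (a * D) →
    (∀ A : Finset (Fin k), A.Nonempty → ∑ j ∈ A, h j ≠ 0 ∧ τ < (∑ j ∈ A, h j).natDegree ∧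
      D.natDegree + 2 * (∑ j ∈ A, h j).natDegree < d) →
    3 * s.natDegree + (2 ^ k - 2) * D.natDegree +
      2 * ∑ A : Finset (Fin k), (∑ j ∈ A, h j).natDegree + τ + 1 + (om γ b).natDegree =
        2 ^ k * d + (bB γ b).natDegree →
    ∃ ω : K, ω ≠ 0 ∧ ∀ α : K,
      ∏ A : Finset (Fin k), (phP γ b e (a + D * (∑ j ∈ A, h j) ^ 2) *
        phP γ b e (a + D * (∑ j ∈ A, h j + C α * X ^ τ) ^ 2)) = sg (α * ω)

/-- **Task CUBEM1.**  The differences of the phase, `∑ 1 / (γ_i b_i) = 0` and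
`∑ e_i / (γ_i b_i)² ≠ 0`. -/
def S_cubem1 : Prop :=
  ∀ (K : Type) [Field K] [Fintype K] [CharP K 2] (n : ℕ) (γ : Fin n → K) (b e : Fin n → K[X]),
    (∀ i, γ i ≠ 0) → (∀ i, (b i).Monic) → om γ b = 0 → p1 γ b e ≠ 0 → ∃ N : ℕ,
    ∀ (k d τ : ℕ) (a D s : K[X]) (h : Fin k → K[X]),
    1 ≤ k → N ≤ τ → N ≤ d → a.Monic → a.natDegree = d → D.Monic → s ≠ 0 →
    D.natDegree + N ≤ 2 * s.natDegree → s ^ 2 = derivative (a * D) →
    Odd (D.natDegree + (p1 γ b e).natDegree) →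
    (∀ A : Finset (Fin k), A.Nonempty → ∑ j ∈ A, h j ≠ 0 ∧ τ < (∑ j ∈ A, h j).natDegree ∧
      D.natDegree + 2 * (∑ j ∈ A, h j).natDegree < d) →
    4 * s.natDegree + (2 * 2 ^ k - 3) * D.natDegree +
      4 * ∑ A : Finset (Fin k), (∑ j ∈ A, h j).natDegree + 2 * τ + (p1 γ b e).natDegree + 1 =
        2 * 2 ^ k * d + 2 * (bB γ b).natDegree →
    ∃ ω : K, ω ≠ 0 ∧ ∀ α : K,
      ∏ A : Finset (Fin k), (phP γ b e (a + D * (∑ j ∈ A, h j) ^ 2) *
        phP γ b e (a + D * (∑ j ∈ A, h j + C α * X ^ τ) ^ 2)) = sg (α * ω)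

/-- **Task WEYLM.**  The level of distribution of the product of the Möbius functions. -/
def S_weylm : Prop :=
  ∀ (K : Type) [Field K] [Fintype K] [CharP K 2] (n : ℕ) (γ : Fin n → K) (b e : Fin n → K[X])
    (κ : ℝ), (∀ i, γ i ≠ 0) → (∀ i, (b i).Monic) → (om γ b ≠ 0 ∨ p1 γ b e ≠ 0) → 0 < κ →
    ∃ c θ : ℝ, 0 < c ∧ 0 < θ ∧ ∃ d₀ : ℕ, ∀ (d L : ℕ) (D r : K[X]), d₀ ≤ d → D.Monic →
      r.Monic → r.natDegree = d → κ * d ≤ L → D.natDegree + L ≤ d →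
      (d : ℝ) ≤ D.natDegree + L + θ * d →
      |∑ᶠ c ∈ {c : K[X] | c.degree < (L : WithBot ℕ)}, mobP γ b e (r + D * c)| ≤
        (Fintype.card K : ℝ) ^ ((L : ℝ) - c * d)

/-- **Task DEG.**  The degenerate case. -/
def S_deg : Prop :=
  ∀ (K : Type) [Field K] [Fintype K] [CharP K 2] (n : ℕ) (γ : Fin n → K) (b e : Fin n → K[X]),
    (∀ i, γ i ≠ 0) → (∀ i, (b i).Monic) → om γ b = 0 → p1 γ b e = 0 → ∃ N : ℕ,
    ∀ (d : ℕ) (a a' : K[X]), N ≤ d → a.Monic → a.natDegree = d → a'.Monic → a'.natDegree = d →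
      (∀ i, b i ^ 5 ∣ a - a') → (a - a').natDegree + N ≤ d → mobP γ b e a = mobP γ b e a'

/-- The image in the field of the rational functions. -/
noncomputable def rf {K : Type} [Field K] (f : K[X]) : RatFunc K := algebraMap K[X] (RatFunc K) f

/-- **The dichotomy.**  Let `c_i` be non-squares.  If `∑ 1 / c_i' ≠ 0` or `∑ c_i / c_i'² ≠ 0`, the
product of the `μ(a² + c_i)` has level of distribution one, with power saving; otherwise it depends,
for large degree, only on a residue class and on finitely many leading coefficients of `a`. -/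
def S_dich : Prop :=
  ∀ (K : Type) [Field K] [Fintype K] [CharP K 2] (n : ℕ) (c : Fin n → K[X]),
    (∀ i, ¬ IsSquare (c i)) →
    (((∑ i, 1 / rf (derivative (c i)) ≠ 0 ∨ ∑ i, rf (c i) / rf (derivative (c i)) ^ 2 ≠ 0) ∧
      ∀ κ : ℝ, 0 < κ → ∃ δ : ℝ, 0 < δ ∧ ∃ d₀ : ℕ, ∀ (d : ℕ) (D r : K[X]), d₀ ≤ d → D.Monic →
        (D.natDegree : ℝ) ≤ (1 - κ) * d →
        |∑ a ∈ (Mn K d).filter (fun a => D ∣ a - r), ∏ i, (mob (a ^ 2 + c i) : ℝ)| ≤
          (Fintype.card K : ℝ) ^ ((d : ℝ) - D.natDegree - δ * d)) ∨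
     ((∑ i, 1 / rf (derivative (c i)) = 0 ∧ ∑ i, rf (c i) / rf (derivative (c i)) ^ 2 = 0) ∧
      ∃ (N : ℕ) (B : K[X]), B ≠ 0 ∧ ∀ a a' : K[X], a.Monic → a'.Monic →
        a'.natDegree = a.natDegree → B ∣ a - a' → (a - a').natDegree + N ≤ a.natDegree →
        ∏ i, mob (a ^ 2 + c i) = ∏ i, mob (a' ^ 2 + c i)))

/-- **Task FINM.** -/
def S_finm : Prop := S_weylm → S_deg → S_dich

end Pool.Agent.H604.LD
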