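import Pool.Agent.H604.LD.WeylG

/-!
# Task WEYLU: the level of distribution of `μ(a² + X (γ b)²)` in short intervals, uniformly
(helper356, for helper604)
-/

set_option autoImplicit false

namespace Pool.Agent.H604.LD

open Polynomial
open scoped Classical
open Pool.Agent.H985.Chow (mob lc)
open Pool.Agent.H985.KP (sg)
open Pool.Agent.H694.Typ (Mn)

namespace WeylUL

open WeylL WeylGL

variable {K : Type} [Field K] [Fintype K]

attribute [local instance] fdl

section two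

variable [CharP K 2]

omit [Fintype K] [CharP K 2] in
lemma paramsU {n i L G d t g l0 β : ℕ} (hn : 1 ≤ n) (hi : 5 * β + i ≤ d) (hLG : i = L + G)
    (hl0 : l0 = (L + 1) / 2)
    (h1 : l0 ≤ g + 1 + t) (h2 : 2 * g + 1 ≤ i) (h3 : 2 * d + 2 * i ≤ (n + 1) * i)
    (h4 : 4 * (n + 1) ^ 3 * (t + 1) ≤ d) (hG : 8 * ((n + 2) * G) ≤ d) :
    ∃ T0 L1 m : ℕ, T0 + d + 3 * g + 1 = (n + 2) * i + β ∧ 2 * n * L1 ≤ T0 ∧
      m + (n + 1) * (t + 1) = L1 + 1 ∧ T0 < (2 * n + 1) * m ∧ L1 + 1 ≤ l0 := by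
  have hP : (n + 2) * i = (n + 1) * i + i := by ring
  have hT : d + (d + 3 * g + 1) ≤ (n + 2) * i := by omega
  obtain ⟨T0, hT0⟩ : ∃ T0, T0 + d + 3 * g + 1 = (n + 2) * i + β :=
    ⟨(n + 2) * i + β - (d + 3 * g + 1), by omega⟩
  have hT0d : d ≤ T0 := by omega
  have h5 : 2 * n * (T0 / (2 * n)) ≤ T0 := Nat.mul_div_le T0 (2 * n)
  have h6 : T0 < 2 * n * (T0 / (2 * n) + 1) := Nat.lt_mul_div_succ T0 (by omega)
  set L1 := T0 / (2 * n)
  have h7 : 2 * (n + 1) ^ 2 * (t + 1) < L1 + 1 := by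
    have h8 : 2 * (n + 1) * (2 * (n + 1) ^ 2 * (t + 1)) < 2 * (n + 1) * (L1 + 1) := by
      calc 2 * (n + 1) * (2 * (n + 1) ^ 2 * (t + 1)) = 4 * (n + 1) ^ 3 * (t + 1) := by ring
        _ ≤ d := h4
        _ ≤ T0 := hT0d
        _ < 2 * n * (L1 + 1) := h6
        _ ≤ 2 * (n + 1) * (L1 + 1) := Nat.mul_le_mul_right _ (by omega)
    exact lt_of_mul_lt_mul_left h8 (Nat.zero_le _)
  have h9 : (2 * n + 1) * ((n + 1) * (t + 1)) ≤ 2 * (n + 1) ^ 2 * (t + 1) := by
    calc (2 * n + 1) * ((n + 1) * (t + 1)) ≤ (2 * n + 2) * ((n + 1) * (t + 1)) :=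
          Nat.mul_le_mul_right _ (by omega)
      _ = 2 * (n + 1) ^ 2 * (t + 1) := by ring
  have h10 : (n + 1) * (t + 1) ≤ (2 * n + 1) * ((n + 1) * (t + 1)) :=
    Nat.le_mul_of_pos_left _ (by omega)
  obtain ⟨m, hm⟩ : ∃ m, m + (n + 1) * (t + 1) = L1 + 1 :=
    ⟨L1 + 1 - (n + 1) * (t + 1), by omega⟩
  refine ⟨T0, L1, m, hT0, h5, hm, ?_, ?_⟩
  · have h11 : (2 * n + 1) * m + (2 * n + 1) * ((n + 1) * (t + 1)) = (2 * n + 1) * (L1 + 1) := by
      rw [← hm]; ring
    have h12 : (2 * n + 1) * (L1 + 1) = 2 * n * (L1 + 1) + (L1 + 1) := by ring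
    omega
  · by_contra hcon
    have h13 : l0 ≤ L1 := by omega
    have h14 : 2 * n * l0 ≤ T0 := (Nat.mul_le_mul_left _ h13).trans h5
    have h15 : n * L ≤ 2 * n * l0 := by
      calc n * L ≤ n * (2 * l0) := Nat.mul_le_mul_left _ (by omega)
        _ = 2 * n * l0 := by ring
    have h16 : (n + 2) * i = n * L + 2 * L + (n + 2) * G := by rw [hLG]; ring
    have h17 : 32 * (t + 1) ≤ 4 * (n + 1) ^ 3 * (t + 1) := by
      refine Nat.mul_le_mul_right _ ?_
      have : 2 ^ 3 ≤ (n + 1) ^ 3 := Nat.pow_le_pow_left (by omega) 3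
      omega
    omega

lemma good_cU (hg : Pool.Agent.H985.FC.S_gcs) {k d i L G t g l0 : ℕ} {γ : K} {b a D s : K[X]}
    (hk : 1 ≤ k) (hγ : γ ≠ 0) (hb : b.Monic) (hbD : 5 * b.natDegree ≤ D.natDegree)
    (ha : a.Monic) (had : a.natDegree = d) (hD : D.Monic)
    (hi : D.natDegree + i = d) (hs0 : s ≠ 0) (hs : s ^ 2 = derivative (a * D))
    (hsd : s.natDegree = D.natDegree + g) (hLG : i = L + G)
    (hl0 : l0 = (L + 1) / 2)
    (h1 : l0 ≤ g + 1 + t) (h2 : 2 * g + 1 ≤ i) (h3 : 2 * d + 2 * i ≤ 2 ^ k * i)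
    (h4 : 4 * (2 ^ k) ^ 3 * (t + 1) ≤ d) (hG : 8 * ((2 ^ k + 1) * G) ≤ d) :
    |(∑ v : degreeLT K l0, sg (phg γ b (a + D * (v : K[X]) ^ 2))) / (Fintype.card K : ℝ) ^ l0| ≤
      ((Fintype.card K : ℝ) ^ t)⁻¹ := by
  have hq2 : 2 ≤ Fintype.card K := Fintype.one_lt_card
  have hqpos : (0 : ℝ) < Fintype.card K := by exact_mod_cast Fintype.card_pos
  obtain ⟨n, hn⟩ : ∃ n, 2 ^ k = n + 1 := ⟨2 ^ k - 1, by
    have : 0 < 2 ^ k := by positivity
    omega⟩
  have hn1 : 1 ≤ n := by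
    have : 2 ^ 1 ≤ 2 ^ k := Nat.pow_le_pow_right (by norm_num) hk
    omega
  obtain ⟨T0, L1, m, hT0, hL1, hm, hTm, hLl⟩ := paramsU (β := b.natDegree) (g := g) (t := t)
    (d := d) hn1 (by omega) hLG hl0 h1 h2 (by rw [hn] at h3; exact h3)
    (by rw [hn] at h4; exact h4) (by rw [hn] at hG; exact hG)
  set φ : Fin k → (degreeLT K (L1 + 1)) →+ (degreeLT K l0) :=
    fun _ => (Submodule.inclusion (degreeLT_mono hLl)).toAddMonoidHom with hφ
  set f : degreeLT K l0 → ℝ := fun v => sg (phg γ b (a + D * (v : K[X]) ^ 2)) with hf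
  have hgcs := hg (degreeLT K l0) (degreeLT K (L1 + 1)) (Fin k) φ f
    (fun u => (Pool.Agent.H985.KP.Loc2.sg_abs _).le)
  rw [Fintype.card_fin, card_dl, card_dl] at hgcs
  push_cast at hgcs
  -- the value of the shifted function
  have hval : ∀ (h : Fin k → degreeLT K (L1 + 1)) (u : degreeLT K l0) (A : Finset (Fin k)),
      f (u + ∑ j ∈ A, φ j (h j)) = sg (phg γ b (a + D * ((u : K[X]) + ∑ j ∈ A, (h j : K[X])) ^ 2)) := by
    intro h u A
    have e1 : ((u + ∑ j ∈ A, φ j (h j) : degreeLT K l0) : K[X]) =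
        (u : K[X]) + ∑ j ∈ A, (h j : K[X]) := by
      rw [Submodule.coe_add, Submodule.coe_sum]
      rfl
    rw [hf]
    simp only
    rw [e1]
  have hm0 : 0 < m := by
    rcases Nat.eq_zero_or_pos m with h0 | h0
    · rw [h0, mul_zero] at hTm; omega
    · exact h0
  have hle1 : ∀ (h : Fin k → degreeLT K (L1 + 1)),
      |(∑ u, ∏ A : Finset (Fin k), f (u + ∑ j ∈ A, φ j (h j))) / (Fintype.card K : ℝ) ^ l0| ≤ 1 := by
    intro h
    rw [abs_div, abs_of_pos (pow_pos hqpos l0), div_le_one (pow_pos hqpos l0)]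
    refine (Finset.abs_sum_le_sum_abs _ _).trans ?_
    have e1 : ∀ u : degreeLT K l0, |∏ A : Finset (Fin k), f (u + ∑ j ∈ A, φ j (h j))| = 1 := by
      intro u
      rw [Finset.abs_prod]
      refine Finset.prod_eq_one fun A _ => ?_
      rw [hval, Pool.Agent.H985.KP.Loc2.sg_abs]
    rw [Finset.sum_congr rfl (fun u _ => e1 u), Finset.sum_const, Finset.card_univ, card_dl,
      nsmul_eq_mul, mul_one]
    push_cast
    exact le_refl _
  have hzero : ∀ (h : Fin k → degreeLT K (L1 + 1)), (¬ ∃ A : Finset (Fin k), A.Nonempty ∧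
      (∑ j ∈ A, (h j : K[X])).degree < (m : WithBot ℕ)) →
      |(∑ u, ∏ A : Finset (Fin k), f (u + ∑ j ∈ A, φ j (h j))) / (Fintype.card K : ℝ) ^ l0| = 0 := by
    intro h hgood
    have hdeg : ∀ A : Finset (Fin k), A.Nonempty → ∑ j ∈ A, (h j : K[X]) ≠ 0 ∧
        m ≤ (∑ j ∈ A, (h j : K[X])).natDegree ∧ (∑ j ∈ A, (h j : K[X])).natDegree ≤ L1 := by
      intro A hA
      have h5 : ¬ (∑ j ∈ A, (h j : K[X])).degree < (m : WithBot ℕ) := fun h6 => hgood ⟨A, hA, h6⟩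
      have h0 : ∑ j ∈ A, (h j : K[X]) ≠ 0 := by
        intro h0
        rw [h0, degree_zero] at h5
        exact h5 (WithBot.bot_lt_coe _)
      refine ⟨h0, ?_, ?_⟩
      · by_contra h6
        exact h5 ((natDegree_lt_iff_degree_lt h0).1 (by omega))
      · have h6 : (∑ j ∈ A, (h j : K[X])) ∈ degreeLT K (L1 + 1) :=
          Submodule.sum_mem _ fun j _ => (h j).2
        have h7 := natDeg_le (mem_degreeLT.1 h6)
        omega
    have hSig : ∑ A : Finset (Fin k), (∑ j ∈ A, (h j : K[X])).natDegree =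
        ∑ A ∈ Finset.univ.erase (∅ : Finset (Fin k)), (∑ j ∈ A, (h j : K[X])).natDegree := by
      rw [← Finset.add_sum_erase Finset.univ _ (Finset.mem_univ (∅ : Finset (Fin k)))]
      simp
    have hcard : (Finset.univ.erase (∅ : Finset (Fin k))).card = n := by
      rw [Finset.card_erase_of_mem (Finset.mem_univ _), Finset.card_univ, Fintype.card_finset,
        Fintype.card_fin, hn]
      omega
    have hS1 : ∑ A : Finset (Fin k), (∑ j ∈ A, (h j : K[X])).natDegree ≤ n * L1 := by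
      rw [hSig, ← hcard, ← smul_eq_mul]
      exact Finset.sum_le_card_nsmul _ _ _ fun A hA =>
        (hdeg A (Finset.nonempty_iff_ne_empty.2 (Finset.mem_erase.1 hA).1)).2.2
    have hS2 : n * m ≤ ∑ A : Finset (Fin k), (∑ j ∈ A, (h j : K[X])).natDegree := by
      rw [hSig, ← hcard, ← smul_eq_mul]
      exact Finset.card_nsmul_le_sum _ _ _ fun A hA =>
        (hdeg A (Finset.nonempty_iff_ne_empty.2 (Finset.mem_erase.1 hA).1)).2.1
    set Sg := ∑ A : Finset (Fin k), (∑ j ∈ A, (h j : K[X])).natDegree with hSg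
    obtain ⟨τ, hτ⟩ : ∃ τ, τ + 2 * Sg = T0 := ⟨T0 - 2 * Sg, by
      have : 2 * Sg ≤ 2 * n * L1 := by
        calc 2 * Sg ≤ 2 * (n * L1) := Nat.mul_le_mul_left _ hS1
          _ = 2 * n * L1 := by ring
      omega⟩
    have hτm : τ < m := by
      have e1 : (2 * n + 1) * m = 2 * (n * m) + m := by ring
      omega
    have hsum : 3 * s.natDegree + (2 ^ k - 2) * D.natDegree + 2 * Sg + τ + 1 =
        2 ^ k * d + b.natDegree := by
      obtain ⟨n', rfl⟩ : ∃ n', n = n' + 1 := ⟨n - 1, by omega⟩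
      have e1 : 2 ^ k - 2 = n' := by omega
      rw [e1, hn, hsd]
      have e2 : 3 * (D.natDegree + g) + n' * D.natDegree + 2 * Sg + τ + 1 =
          (n' + 3) * D.natDegree + 3 * g + T0 + 1 := by
        rw [← hτ]; ring
      have e3 : (n' + 1 + 1) * d + d = (n' + 3) * D.natDegree + (n' + 1 + 2) * i := by
        rw [← hi]; ring
      rw [e2]
      omega
    have hcz := cancelG (fun j => (h j : K[X])) hk hγ hb ha had hD hs0 hs (τ := τ) (l0 := l0)
      (fun A hA => ⟨(hdeg A hA).1, by have := (hdeg A hA).2.1; omega, by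
        have := (hdeg A hA).2.2; omega⟩) hsum (by omega) (by omega)
    have e1 : ∑ u, ∏ A : Finset (Fin k), f (u + ∑ j ∈ A, φ j (h j)) = 0 := by
      rw [← hcz]
      exact Finset.sum_congr rfl fun u _ => Finset.prod_congr rfl fun A _ => hval h u A
    rw [e1, zero_div, abs_zero]
  -- the bound
  have hB : ∑ h : Fin k → degreeLT K (L1 + 1),
      |(∑ u, ∏ A : Finset (Fin k), f (u + ∑ j ∈ A, φ j (h j))) / (Fintype.card K : ℝ) ^ l0| ≤
      ((Finset.univ.filter (fun h : Fin k → degreeLT K (L1 + 1) => ∃ A : Finset (Fin k),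
        A.Nonempty ∧ (∑ j ∈ A, (h j : K[X])).degree < (m : WithBot ℕ))).card : ℝ) := by
    rw [Finset.card_eq_sum_ones, Finset.sum_filter]
    push_cast
    refine Finset.sum_le_sum fun h _ => ?_
    by_cases hb : ∃ A : Finset (Fin k), A.Nonempty ∧
        (∑ j ∈ A, (h j : K[X])).degree < (m : WithBot ℕ)
    · rw [if_pos hb]; exact hle1 h
    · rw [if_neg hb, hzero h hb]
  have hbad := bad_h (K := K) (k := k) (l := L1 + 1) (m := m) (by omega)
  have hlm : L1 + 1 - m = (n + 1) * (t + 1) := by omega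
  rw [hlm] at hbad
  have hbad' : ((Finset.univ.filter (fun h : Fin k → degreeLT K (L1 + 1) =>
      ∃ A : Finset (Fin k), A.Nonempty ∧
        (∑ j ∈ A, (h j : K[X])).degree < (m : WithBot ℕ))).card : ℝ) *
      (Fintype.card K : ℝ) ^ ((n + 1) * (t + 1)) ≤
      2 ^ k * (Fintype.card K : ℝ) ^ ((L1 + 1) * k) := by exact_mod_cast hbad
  have h2k : (2 : ℝ) ^ k ≤ (Fintype.card K : ℝ) ^ (n + 1) := by
    have h5 : 2 ^ k ≤ Fintype.card K ^ (n + 1) := by
      rw [hn]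
      exact (Nat.lt_pow_self hq2).le
    exact_mod_cast h5
  have hfin : |(∑ u, f u) / (Fintype.card K : ℝ) ^ l0| ^ (2 ^ k) ≤
      (((Fintype.card K : ℝ) ^ t)⁻¹) ^ (2 ^ k) := by
    refine hgcs.trans ?_
    rw [div_le_iff₀ (by positivity)]
    refine hB.trans ?_
    have hpos : (0 : ℝ) < (Fintype.card K : ℝ) ^ ((n + 1) * (t + 1)) := pow_pos hqpos _
    refine le_of_mul_le_mul_right (hbad'.trans ?_) hpos
    rw [hn, inv_pow, ← pow_mul, ← pow_mul]
    have e1 : (Fintype.card K : ℝ) ^ ((n + 1) * (t + 1)) =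
        (Fintype.card K : ℝ) ^ (t * (n + 1)) * (Fintype.card K : ℝ) ^ (n + 1) := by
      rw [← pow_add]; ring_nf
    have hpos2 : (0 : ℝ) < (Fintype.card K : ℝ) ^ (t * (n + 1)) := pow_pos hqpos _
    have e2 : ((Fintype.card K : ℝ) ^ (t * (n + 1)))⁻¹ * (Fintype.card K : ℝ) ^ ((L1 + 1) * k) *
        (Fintype.card K : ℝ) ^ ((n + 1) * (t + 1)) =
        (Fintype.card K : ℝ) ^ (n + 1) * (Fintype.card K : ℝ) ^ ((L1 + 1) * k) := by
      rw [e1]
      field_simp
    rw [e2]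
    exact mul_le_mul_of_nonneg_right h2k (by positivity)
  exact (pow_le_pow_iff_left₀ (abs_nonneg _) (by positivity) (by rw [hn]; omega)).1 hfin

/-- the number of the bad `c` -/
lemma bad_cU {L G t : ℕ} (Q D : K[X]) (hD : D.Monic) (hG : 2 * G + 2 * t ≤ L) :
    (Finset.univ.filter (fun c : degreeLT K L => (Q + D ^ 2 * derivative (c : K[X])).degree <
      ((2 * (D.natDegree + G) : ℕ) : WithBot ℕ))).card * Fintype.card K ^ t ≤
      Fintype.card K ^ L := by
  have hmem : ∀ y : degreeLT K t, X * (X ^ G * (y : K[X])) ^ 2 ∈ degreeLT K L := by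
    intro y
    rw [mem_degreeLT]
    have hy := dl_deg y
    by_cases h0 : (y : K[X]) = 0
    · rw [h0, mul_zero, zero_pow two_ne_zero, mul_zero, degree_zero]
      exact WithBot.bot_lt_coe _
    · have h1 := (natDegree_lt_iff_degree_lt h0).2 hy
      have h2 : X * (X ^ G * (y : K[X])) ^ 2 ≠ 0 :=
        mul_ne_zero X_ne_zero (pow_ne_zero 2 (mul_ne_zero (pow_ne_zero G X_ne_zero) h0))
      refine (natDegree_lt_iff_degree_lt h2).1 ?_
      rw [natDegree_mul X_ne_zero (pow_ne_zero 2 (mul_ne_zero (pow_ne_zero G X_ne_zero) h0)),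
        natDegree_X, natDegree_pow, natDegree_mul (pow_ne_zero G X_ne_zero) h0, natDegree_X_pow]
      omega
  have h3 : Fintype.card K ^ L = (Finset.univ : Finset (degreeLT K L)).card := by
    rw [Finset.card_univ, card_dl]
  have h4 : Fintype.card K ^ t = (Finset.univ : Finset (degreeLT K t)).card := by
    rw [Finset.card_univ, card_dl]
  rw [h3, h4, ← Finset.card_product]
  refine Finset.card_le_card_of_injOn (fun p => p.1 + (⟨X * (X ^ G * (p.2 : K[X])) ^ 2,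
    hmem p.2⟩ : degreeLT K L)) (fun _ _ => Finset.mem_coe.2 (Finset.mem_univ _)) ?_
  rintro ⟨c, y⟩ hp ⟨c', y'⟩ hp' heq
  have hb := (Finset.mem_filter.1 (Finset.mem_product.1 (Finset.mem_coe.1 hp)).1).2
  have hb' := (Finset.mem_filter.1 (Finset.mem_product.1 (Finset.mem_coe.1 hp')).1).2
  simp only at heq hb hb'
  have heq' := congrArg (fun w : degreeLT K L => (w : K[X])) heq
  simp only [Submodule.coe_add] at heq'
  have e1 := congrArg derivative heq'
  rw [derivative_add, derivative_add, deriv_Xsq, deriv_Xsq] at e1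
  have e4 : (D * (X ^ G * ((y' : K[X]) - (y : K[X])))) ^ 2 =
      (Q + D ^ 2 * derivative (c : K[X])) - (Q + D ^ 2 * derivative (c' : K[X])) := by
    linear_combination (-(D ^ 2)) * e1 + (D * X ^ G) ^ 2 * ((y : K[X]) ^ 2 -
      (y' : K[X]) * (y : K[X])) * CubeL.two_zero (K := K)
  have e5 : (y' : K[X]) - (y : K[X]) = 0 := by
    by_contra h0
    have h5 : ((D * (X ^ G * ((y' : K[X]) - (y : K[X])))) ^ 2).degree <
        ((2 * (D.natDegree + G) : ℕ) : WithBot ℕ) := by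
      rw [e4]
      exact lt_of_le_of_lt (degree_sub_le _ _) (max_lt hb hb')
    have h7 : (D * (X ^ G * ((y' : K[X]) - (y : K[X])))) ≠ 0 :=
      mul_ne_zero hD.ne_zero (mul_ne_zero (pow_ne_zero G X_ne_zero) h0)
    have h6 := (natDegree_lt_iff_degree_lt (pow_ne_zero 2 h7)).2 h5
    rw [natDegree_pow, natDegree_mul hD.ne_zero (mul_ne_zero (pow_ne_zero G X_ne_zero) h0),
      natDegree_mul (pow_ne_zero G X_ne_zero) h0, natDegree_X_pow] at h6
    omega
  have e6 : y = y' := Subtype.ext (sub_eq_zero.1 e5).symm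
  subst e6
  have e7 : c = c' := add_right_cancel heq
  rw [e7]

omit [CharP K 2] in
lemma shift_sumU {L l0 : ℕ} (hl0 : 2 * (l0 - 1) < L) (Ψ : K[X] → ℝ) (v : degreeLT K l0) :
    ∑ c : degreeLT K L, Ψ ((c : K[X]) + (v : K[X]) ^ 2) = ∑ c : degreeLT K L, Ψ (c : K[X]) := by
  have hv := natDeg_le (dl_deg v)
  have hmem : (v : K[X]) ^ 2 ∈ degreeLT K L := by
    rw [mem_degreeLT]
    refine lt_of_le_of_lt degree_le_natDegree ?_
    have h1 : ((v : K[X]) ^ 2).natDegree ≤ 2 * (l0 - 1) :=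
      natDegree_pow_le.trans (Nat.mul_le_mul_left _ hv)
    exact_mod_cast lt_of_le_of_lt h1 hl0
  exact Equiv.sum_comp (Equiv.addRight (⟨(v : K[X]) ^ 2, hmem⟩ : degreeLT K L))
    (fun c : degreeLT K L => Ψ (c : K[X]))

lemma main_boundU (hp : S_parinfg) (hg : Pool.Agent.H985.FC.S_gcs) {k d i L G t : ℕ}
    {γ : K} {b D r : K[X]} (hk : 1 ≤ k) (hγ : γ ≠ 0) (hb : b.Monic) (hbD : b ^ 5 ∣ D)
    (hrb : IsCoprime r b) (hD : D.Monic) (hr : r.Monic) (hrd : r.natDegree = d)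
    (hi : D.natDegree + i = d) (hLG : i = L + G) (h3 : 2 * d + 2 * i ≤ 2 ^ k * i)
    (h3' : 2 * d ≤ 2 ^ k * L) (h4 : 4 * (2 ^ k) ^ 3 * (t + 1) ≤ d)
    (hG' : 8 * ((2 ^ k + 1) * G) ≤ d) :
    |∑ c : degreeLT K L, (mob (fa γ b (r + D * (c : K[X]))) : ℝ)| ≤
      2 * (Fintype.card K : ℝ) ^ L / (Fintype.card K : ℝ) ^ t := by
  have hqpos : (0 : ℝ) < Fintype.card K := by exact_mod_cast Fintype.card_pos
  have hH : 2 ≤ 2 ^ k := by
    have : 2 ^ 1 ≤ 2 ^ k := Nat.pow_le_pow_right (by norm_num) hk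
    omega
  have hH2 : 1 ≤ (2 ^ k) ^ 2 := Nat.one_le_pow _ _ (by omega)
  have hi2 : 8 * (t + 1) ≤ L := by
    have h5 : 2 ^ k * (8 * (t + 1)) ≤ 2 ^ k * L := by
      calc 2 ^ k * (8 * (t + 1)) = 2 ^ k * 1 * (8 * (t + 1)) := by ring
        _ ≤ 2 ^ k * (2 ^ k) ^ 2 * (8 * (t + 1)) :=
            Nat.mul_le_mul_right _ (Nat.mul_le_mul_left _ hH2)
        _ = 2 * (4 * (2 ^ k) ^ 3 * (t + 1)) := by ring
        _ ≤ 2 * d := Nat.mul_le_mul_left _ h4
        _ ≤ 2 ^ k * L := h3'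
    exact Nat.le_of_mul_le_mul_left h5 (by omega)
  have hb5 : 5 * b.natDegree ≤ D.natDegree := by
    have h5 := natDegree_le_of_dvd hbD hD.ne_zero
    rwa [natDegree_pow] at h5
  obtain ⟨η, hη, hpar⟩ := hp K γ b r d hγ hb hrb (by omega)
  have hmon : ∀ c : degreeLT K L, (r + D * (c : K[X])).Monic ∧
      (r + D * (c : K[X])).natDegree = d := by
    intro c
    have hc := natDeg_le (dl_deg c)
    have h7 : (D * (c : K[X])).degree < r.degree := by
      refine degree_lt_degree (lt_of_le_of_lt natDegree_mul_le ?_)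
      omega
    exact ⟨hr.add_of_left h7, by rw [natDegree_add_eq_left_of_degree_lt h7, hrd]⟩
  set S : ℝ := ∑ c : degreeLT K L, sg (phg γ b (r + D * (c : K[X]))) with hS
  have e1 : ∑ c : degreeLT K L, (mob (fa γ b (r + D * (c : K[X]))) : ℝ) = η * S := by
    rw [hS, Finset.mul_sum]
    exact Finset.sum_congr rfl fun c _ => hpar _ (hmon c).1 (hmon c).2 (by
      have h6 : r + D * (c : K[X]) - r = D * (c : K[X]) := by ring
      rw [h6]
      exact Dvd.dvd.mul_right hbD _)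
  have e2 : |η| = 1 := by
    rcases hη with h | h <;> rw [h] <;> norm_num
  rw [e1, abs_mul, e2, one_mul]
  set l0 := (L + 1) / 2 with hl0
  have hl0i : 2 * (l0 - 1) < L := by omega
  have hql : (0 : ℝ) < (Fintype.card K : ℝ) ^ l0 := pow_pos hqpos _
  -- averaging
  have e3 : S = ∑ c : degreeLT K L,
      (∑ v : degreeLT K l0, sg (phg γ b (r + D * (c : K[X]) + D * (v : K[X]) ^ 2))) /
      (Fintype.card K : ℝ) ^ l0 := by
    rw [← Finset.sum_div, Finset.sum_comm]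
    have h5 : ∀ v : degreeLT K l0, ∑ c : degreeLT K L,
        sg (phg γ b (r + D * (c : K[X]) + D * (v : K[X]) ^ 2)) = S := by
      intro v
      rw [hS, ← shift_sumU hl0i (fun c => sg (phg γ b (r + D * c))) v]
      refine Finset.sum_congr rfl fun c _ => ?_
      have h6 : r + D * (c : K[X]) + D * (v : K[X]) ^ 2 =
          r + D * ((c : K[X]) + (v : K[X]) ^ 2) := by ring
      rw [h6]
    rw [Finset.sum_congr rfl (fun v _ => h5 v), Finset.sum_const, Finset.card_univ, card_dl,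
      nsmul_eq_mul]
    push_cast
    rw [mul_comm, mul_div_assoc, div_self hql.ne', mul_one]
  have hE1 : ∀ c : degreeLT K L,
      |(∑ v : degreeLT K l0, sg (phg γ b (r + D * (c : K[X]) + D * (v : K[X]) ^ 2))) /
      (Fintype.card K : ℝ) ^ l0| ≤ 1 := by
    intro c
    rw [abs_div, abs_of_pos hql, div_le_one hql]
    refine (Finset.abs_sum_le_sum_abs _ _).trans ?_
    rw [Finset.sum_congr rfl (fun v _ => Pool.Agent.H985.KP.Loc2.sg_abs _), Finset.sum_const,
      Finset.card_univ, card_dl, nsmul_eq_mul, mul_one]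
    push_cast
    exact le_refl _
  obtain ⟨G0, hG0⟩ : ∃ G0, G0 + t + 1 = l0 := ⟨l0 - 1 - t, by omega⟩
  set Q : K[X] := derivative (r * D) with hQ
  have hE2 : ∀ c : degreeLT K L, ¬ (Q + D ^ 2 * derivative (c : K[X])).degree <
      ((2 * (D.natDegree + G0) : ℕ) : WithBot ℕ) →
      |(∑ v : degreeLT K l0, sg (phg γ b (r + D * (c : K[X]) + D * (v : K[X]) ^ 2))) /
        (Fintype.card K : ℝ) ^ l0| ≤ ((Fintype.card K : ℝ) ^ t)⁻¹ := by
    intro c hgood
    obtain ⟨ham, had⟩ := hmon c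
    obtain ⟨s, hs⟩ := exists_sqrt ((r + D * (c : K[X])) * D)
    have h5 : derivative ((r + D * (c : K[X])) * D) = Q + D ^ 2 * derivative (c : K[X]) := by
      have h6 : (r + D * (c : K[X])) * D = r * D + D ^ 2 * (c : K[X]) := by ring
      rw [h6, derivative_add, derivative_mul (f := D ^ 2), CubeL.deriv_sq, zero_mul, zero_add]
    rw [← h5, ← hs] at hgood
    have hs0 : s ≠ 0 := by
      rintro rfl
      rw [zero_pow two_ne_zero, degree_zero] at hgood
      exact hgood (WithBot.bot_lt_coe _)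
    have h7 : D.natDegree + G0 ≤ s.natDegree := by
      by_contra h8
      refine hgood ((natDegree_lt_iff_degree_lt (pow_ne_zero 2 hs0)).1 ?_)
      rw [natDegree_pow]
      omega
    have h8 : 2 * s.natDegree ≤ d + D.natDegree - 1 := by
      have h9 := natDegree_derivative_le ((r + D * (c : K[X])) * D)
      rw [← hs, natDegree_pow, ham.natDegree_mul hD, had] at h9
      exact h9
    obtain ⟨g, hgd⟩ : ∃ g, s.natDegree = D.natDegree + g := ⟨s.natDegree - D.natDegree, by omega⟩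
    exact good_cU hg hk hγ hb hb5 ham had hD hi hs0 hs hgd hLG hl0 (by omega) (by omega) h3 h4 hG'
  have hbad := bad_cU (L := L) (G := G0) (t := t) Q D hD (by omega)
  have hbad' : ((Finset.univ.filter (fun c : degreeLT K L =>
      (Q + D ^ 2 * derivative (c : K[X])).degree <
      ((2 * (D.natDegree + G0) : ℕ) : WithBot ℕ))).card : ℝ) ≤
      (Fintype.card K : ℝ) ^ L / (Fintype.card K : ℝ) ^ t := by
    rw [le_div_iff₀ (pow_pos hqpos t)]
    exact_mod_cast hbad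
  rw [e3]
  refine (Finset.abs_sum_le_sum_abs _ _).trans ?_
  rw [← Finset.sum_filter_add_sum_filter_not Finset.univ (fun c : degreeLT K L =>
      (Q + D ^ 2 * derivative (c : K[X])).degree <
      ((2 * (D.natDegree + G0) : ℕ) : WithBot ℕ))]
  have h10 : ∑ c ∈ Finset.univ.filter (fun c : degreeLT K L =>
      (Q + D ^ 2 * derivative (c : K[X])).degree <
      ((2 * (D.natDegree + G0) : ℕ) : WithBot ℕ)),
      |(∑ v : degreeLT K l0, sg (phg γ b (r + D * (c : K[X]) + D * (v : K[X]) ^ 2))) /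
        (Fintype.card K : ℝ) ^ l0| ≤ (Fintype.card K : ℝ) ^ L / (Fintype.card K : ℝ) ^ t := by
    refine (Finset.sum_le_card_nsmul _ _ 1 (fun c _ => hE1 c)).trans ?_
    rw [nsmul_eq_mul, mul_one]
    exact hbad'
  have h11 : ∑ c ∈ Finset.univ.filter (fun c : degreeLT K L =>
      ¬ (Q + D ^ 2 * derivative (c : K[X])).degree <
      ((2 * (D.natDegree + G0) : ℕ) : WithBot ℕ)),
      |(∑ v : degreeLT K l0, sg (phg γ b (r + D * (c : K[X]) + D * (v : K[X]) ^ 2))) /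
        (Fintype.card K : ℝ) ^ l0| ≤ (Fintype.card K : ℝ) ^ L / (Fintype.card K : ℝ) ^ t := by
    refine (Finset.sum_le_card_nsmul _ _ (((Fintype.card K : ℝ) ^ t)⁻¹) (fun c hcm =>
      hE2 c (Finset.mem_filter.1 hcm).2)).trans ?_
    rw [nsmul_eq_mul, div_eq_mul_inv]
    refine mul_le_mul_of_nonneg_right ?_ (by positivity)
    have h12 := Finset.card_filter_le (Finset.univ : Finset (degreeLT K L)) (fun c =>
      ¬ (Q + D ^ 2 * derivative (c : K[X])).degree <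
      ((2 * (D.natDegree + G0) : ℕ) : WithBot ℕ))
    rw [Finset.card_univ, card_dl] at h12
    exact_mod_cast h12
  refine (add_le_add h10 h11).trans (le_of_eq ?_)
  ring

end two

end WeylUL

attribute [local instance] WeylL.fdl

open WeylL WeylGL WeylUL in
/-- **Task WEYLU**: the level of distribution in intervals; `c`, `θ` and `d₀` depend on `κ` only. -/
theorem weylu' (hp : S_parinfg) (hg : Pool.Agent.H985.FC.S_gcs) (κ : ℝ) (hκ : 0 < κ) :
    ∃ c θ : ℝ, 0 < c ∧ 0 < θ ∧ ∃ d₀ : ℕ, ∀ (K : Type) [Field K] [Fintype K] [CharP K 2]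
      (d L : ℕ) (γ : K) (b D r : K[X]), d₀ ≤ d → γ ≠ 0 → b.Monic → D.Monic → b ^ 5 ∣ D →
      r.Monic → r.natDegree = d → IsCoprime r b → κ * d ≤ L → D.natDegree + L ≤ d →
      (d : ℝ) ≤ D.natDegree + L + θ * d →
      |∑ᶠ c ∈ {c : K[X] | c.degree < (L : WithBot ℕ)}, (mob (fa γ b (r + D * c)) : ℝ)| ≤
        (Fintype.card K : ℝ) ^ ((L : ℝ) - c * d) := by
  obtain ⟨k, hk1, hk⟩ : ∃ k : ℕ, 1 ≤ k ∧ 2 / κ + 2 ≤ (2 : ℝ) ^ k := by
    obtain ⟨k, hk⟩ := pow_unbounded_of_one_lt (2 / κ + 2) (one_lt_two : (1 : ℝ) < 2)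
    refine ⟨k + 1, by omega, hk.le.trans ?_⟩
    exact pow_le_pow_right₀ one_le_two (by omega)
  have hHpos : (0 : ℝ) < (2 : ℝ) ^ k := by positivity
  refine ⟨1 / (8 * ((2 : ℝ) ^ k) ^ 3), 1 / (8 * ((2 : ℝ) ^ k + 1)), by positivity, by positivity,
    24 * (2 ^ k) ^ 3, fun K _ _ _ d L γ b D r hd hγ hb hD hbD hr hrd hrb hL hDL hgap => ?_⟩
  have hqpos : (0 : ℝ) < Fintype.card K := by exact_mod_cast Fintype.card_pos
  have hq2 : (2 : ℝ) ≤ Fintype.card K := by
    have : 2 ≤ Fintype.card K := Fintype.one_lt_card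
    exact_mod_cast this
  have hHn : 0 < (2 ^ k) ^ 3 := by positivity
  have hdpos : 0 < d := by omega
  have hdR : (0 : ℝ) < d := by exact_mod_cast hdpos
  obtain ⟨G, hG⟩ : ∃ G, D.natDegree + (L + G) = d := ⟨d - D.natDegree - L, by omega⟩
  have hGR : (D.natDegree : ℝ) + (L + G) = d := by exact_mod_cast hG
  have hLpos : (0 : ℝ) ≤ L := Nat.cast_nonneg L
  have hGpos : (0 : ℝ) ≤ G := Nat.cast_nonneg G
  have hG8 : 8 * ((2 ^ k + 1) * G) ≤ d := by
    have h5 : (G : ℝ) ≤ 1 / (8 * ((2 : ℝ) ^ k + 1)) * d := by linarith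
    rw [div_mul_eq_mul_div, one_mul, le_div_iff₀ (by positivity)] at h5
    have h6 : (8 * ((2 ^ k + 1) * G) : ℝ) ≤ d := by linarith
    exact_mod_cast h6
  have hmulκ : ∀ x : ℝ, 0 ≤ x → κ * d ≤ x → 2 * (d : ℝ) + 2 * x ≤ 2 ^ k * x := by
    intro x hx0 hx
    have h6 : (2 / κ + 2) * x ≤ (2 : ℝ) ^ k * x := mul_le_mul_of_nonneg_right hk hx0
    have h7 : 2 * (d : ℝ) ≤ 2 / κ * x := by
      rw [div_mul_eq_mul_div, le_div_iff₀ hκ]
      nlinarith
    linarith
  have h3 : 2 * d + 2 * (L + G) ≤ 2 ^ k * (L + G) := by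
    have h5 := hmulκ ((L : ℝ) + G) (by positivity) (by linarith)
    exact_mod_cast h5
  have h3' : 2 * d ≤ 2 ^ k * L := by
    have h5 := hmulκ (L : ℝ) hLpos hL
    have h6 : (2 * d : ℝ) ≤ 2 ^ k * L := by linarith
    exact_mod_cast h6
  -- the parameter
  have hx1 : 4 * (2 ^ k) ^ 3 * (d / (4 * (2 ^ k) ^ 3)) ≤ d := Nat.mul_div_le _ _
  have hx2 : d < 4 * (2 ^ k) ^ 3 * (d / (4 * (2 ^ k) ^ 3) + 1) :=
    Nat.lt_mul_div_succ d (by positivity)
  set x := d / (4 * (2 ^ k) ^ 3) with hx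
  have hx0 : 0 < x := by
    rcases Nat.eq_zero_or_pos x with h | h
    · rw [h] at hx2; omega
    · exact h
  obtain ⟨t, ht⟩ : ∃ t, x = t + 1 := ⟨x - 1, by omega⟩
  rw [ht] at hx1 hx2
  have hmain := main_boundU hp hg hk1 hγ hb hbD hrb hD hr hrd hG rfl h3 h3' hx1 hG8
  have hfs : ∑ᶠ c ∈ {c : K[X] | c.degree < (L : WithBot ℕ)}, (mob (fa γ b (r + D * c)) : ℝ) =
      ∑ c : degreeLT K L, (mob (fa γ b (r + D * (c : K[X]))) : ℝ) := by
    have h5 : {c : K[X] | c.degree < (L : WithBot ℕ)} = (degreeLT K L : Set K[X]) := by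
      ext c
      rw [SetLike.mem_coe, mem_degreeLT]
      rfl
    rw [h5, ← finsum_set_coe_eq_finsum_mem, ← finsum_eq_sum_of_fintype]
    rfl
  rw [hfs]
  refine hmain.trans ?_
  have hx2' : (d : ℝ) < 4 * ((2 : ℝ) ^ k) ^ 3 * (t + 1 + 1) := by exact_mod_cast hx2
  have hd' : 24 * ((2 : ℝ) ^ k) ^ 3 ≤ d := by exact_mod_cast hd
  set P : ℝ := ((2 : ℝ) ^ k) ^ 3 with hP
  have hPpos : 0 < P := by positivity
  have ht2 : 1 / (8 * P) * d + 3 ≤ (t : ℝ) + 2 := by
    have h5 : 1 / (8 * P) * d + 3 = (d + 24 * P) / (8 * P) := by field_simp; ring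
    rw [h5, div_le_iff₀ (by positivity)]
    nlinarith
  have e1 : 2 * (Fintype.card K : ℝ) ^ L / (Fintype.card K : ℝ) ^ t ≤
      (Fintype.card K : ℝ) ^ ((L : ℝ) - t + 1) := by
    rw [Real.rpow_add hqpos, Real.rpow_sub hqpos, Real.rpow_one, Real.rpow_natCast,
      Real.rpow_natCast, mul_div_assoc, mul_comm]
    exact mul_le_mul_of_nonneg_left hq2 (by positivity)
  refine e1.trans (Real.rpow_le_rpow_of_exponent_le (by linarith) ?_)
  linarith

/-- **Task WEYLU** (the statement `S_weylu` of helper604). -/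
theorem weylu (hp : S_parinfg) (hg : Pool.Agent.H985.FC.S_gcs) :
    ∀ (K : Type) [Field K] [Fintype K] [CharP K 2] (κ : ℝ), 0 < κ →
    ∃ c θ : ℝ, 0 < c ∧ 0 < θ ∧ ∃ d₀ : ℕ, ∀ (d L : ℕ) (γ : K) (b D r : K[X]), d₀ ≤ d → γ ≠ 0 →
      b.Monic → D.Monic → b ^ 5 ∣ D → r.Monic → r.natDegree = d → IsCoprime r b → κ * d ≤ L →
      D.natDegree + L ≤ d → (d : ℝ) ≤ D.natDegree + L + θ * d →
      |∑ᶠ c ∈ {c : K[X] | c.degree < (L : WithBot ℕ)}, (mob (fa γ b (r + D * c)) : ℝ)| ≤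
        (Fintype.card K : ℝ) ^ ((L : ℝ) - c * d) := by
  intro K _ _ _ κ hκ
  obtain ⟨c, θ, hc, hθ, d₀, h⟩ := weylu' hp hg κ hκ
  exact ⟨c, θ, hc, hθ, d₀, fun d L γ b D r => h K d L γ b D r⟩

end Pool.Agent.H604.LD
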