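import Pool.Agent.H604.LD.StmM
import Pool.Agent.H604.LD.WeylU

/-!
# Task WEYLM: the level of distribution of the product of the `μ(f_i(a))` (helper356, for helper604)
-/

set_option autoImplicit false

namespace Pool.Agent.H604.LD

open Polynomial
open scoped Classical
open Pool.Agent.H985.Chow (mob lc)
open Pool.Agent.H985.KP (sg)
open Pool.Agent.H694.Typ (Mn)

namespace WeylML

open WeylL WeylGL WeylUL

variable {K : Type} [Field K] [Fintype K]

attribute [local instance] fdl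

/-- the property of the differences of the phase `Ph` at `a` -/
def CubP (Ph : K[X] → ℝ) (D : K[X]) (k N m L1 T0 : ℕ) (a : K[X]) : Prop :=
  ∀ (h : Fin k → K[X]) (τ : ℕ), N ≤ τ → τ < m →
    (∀ A : Finset (Fin k), A.Nonempty → ∑ j ∈ A, h j ≠ 0 ∧ m ≤ (∑ j ∈ A, h j).natDegree ∧
      (∑ j ∈ A, h j).natDegree ≤ L1) →
    τ + 2 * ∑ A : Finset (Fin k), (∑ j ∈ A, h j).natDegree = T0 →
    ∃ ω : K, ω ≠ 0 ∧ ∀ α : K,
      ∏ A : Finset (Fin k), (Ph (a + D * (∑ j ∈ A, h j) ^ 2) *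
        Ph (a + D * (∑ j ∈ A, h j + C α * X ^ τ) ^ 2)) = sg (α * ω)

section two

variable [CharP K 2]

lemma cancelM {k τ l0 N m L1 T0 : ℕ} {a D : K[X]} (Ph : K[X] → ℝ) (hPh : ∀ x, Ph x * Ph x = 1)
    (h : Fin k → K[X])
    (hcub : ∀ v : K[X], v.degree < (l0 : WithBot ℕ) → CubP Ph D k N m L1 T0 (a + D * v ^ 2))
    (hN : N ≤ τ) (hτm : τ < m)
    (hh : ∀ A : Finset (Fin k), A.Nonempty → ∑ j ∈ A, h j ≠ 0 ∧ m ≤ (∑ j ∈ A, h j).natDegree ∧
      (∑ j ∈ A, h j).natDegree ≤ L1)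
    (hsum : τ + 2 * ∑ A : Finset (Fin k), (∑ j ∈ A, h j).natDegree = T0) (hτ : τ < l0) :
    ∑ v : degreeLT K l0, ∏ A : Finset (Fin k),
      Ph (a + D * ((v : K[X]) + ∑ j ∈ A, h j) ^ 2) = 0 := by
  set Φ : K[X] → ℝ := fun v => ∏ A : Finset (Fin k), Ph (a + D * (v + ∑ j ∈ A, h j) ^ 2)
    with hΦ
  have hΦ1 : ∀ v, Φ v * Φ v = 1 := by
    intro v
    rw [hΦ]
    simp only
    rw [← Finset.prod_mul_distrib]
    exact Finset.prod_eq_one fun A _ => hPh _
  have key : ∀ v : degreeLT K l0, ∃ ω : K, ω ≠ 0 ∧ ∀ α : K,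
      Φ ((v : K[X]) + C α * X ^ τ) = Φ v * sg (α * ω) := by
    intro v
    obtain ⟨ω, hω, hα⟩ := hcub (v : K[X]) (dl_deg v) h τ hN hτm hh hsum
    refine ⟨ω, hω, fun α => ?_⟩
    rw [← hα α, Finset.prod_mul_distrib, ← mul_assoc]
    have e1 : ∏ A : Finset (Fin k), Ph (a + D * (v : K[X]) ^ 2 + D * (∑ j ∈ A, h j) ^ 2) =
        Φ v := by
      refine Finset.prod_congr rfl fun A _ => ?_
      rw [CubeL.sq_add' (v : K[X])]
      ring_nf
    have e2 : ∏ A : Finset (Fin k), Ph (a + D * (v : K[X]) ^ 2 +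
        D * (∑ j ∈ A, h j + C α * X ^ τ) ^ 2) = Φ ((v : K[X]) + C α * X ^ τ) := by
      refine Finset.prod_congr rfl fun A _ => ?_
      have e3 : (v : K[X]) + C α * X ^ τ + ∑ j ∈ A, h j =
          (v : K[X]) + (∑ j ∈ A, h j + C α * X ^ τ) := by ring
      rw [e3, CubeL.sq_add' (v : K[X])]
      ring_nf
    rw [e1, e2, hΦ1, one_mul]
  have hmem : ∀ α : K, C α * X ^ τ ∈ degreeLT K l0 := by
    intro α
    rw [mem_degreeLT]
    refine lt_of_le_of_lt (degree_C_mul_X_pow_le τ α) ?_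
    exact_mod_cast hτ
  have h1 : ∀ α : K, ∑ v : degreeLT K l0, Φ ((v : K[X]) + C α * X ^ τ) =
      ∑ v : degreeLT K l0, Φ v := by
    intro α
    exact Equiv.sum_comp (Equiv.addRight (⟨C α * X ^ τ, hmem α⟩ : degreeLT K l0))
      (fun v : degreeLT K l0 => Φ v)
  have h2 : ∑ α : K, ∑ v : degreeLT K l0, Φ ((v : K[X]) + C α * X ^ τ) = 0 := by
    rw [Finset.sum_comm]
    refine Finset.sum_eq_zero fun v _ => ?_
    obtain ⟨ω, hω, hα⟩ := key v
    rw [Finset.sum_congr rfl (fun α _ => hα α), ← Finset.mul_sum, sum_sg hω, mul_zero]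
  rw [Finset.sum_congr rfl (fun α _ => h1 α), Finset.sum_const, Finset.card_univ,
    nsmul_eq_mul] at h2
  have hq : (Fintype.card K : ℝ) ≠ 0 := by exact_mod_cast Fintype.card_ne_zero
  exact (mul_eq_zero.1 h2).resolve_left hq

omit [Fintype K] [CharP K 2] in
/-- the parameters, from the size of `T0` -/
lemma paramsM {n t T0 N : ℕ} (hn : 1 ≤ n)
    (h : N + 2 * n * (N + (2 * n + 1) * (n + 1) * (t + 1)) ≤ T0) :
    ∃ L1 m : ℕ, 2 * n * L1 + N ≤ T0 ∧
      m + (n + 1) * (t + 1) = L1 + 1 ∧ T0 < (2 * n + 1) * m := by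
  have h5 : 2 * n * ((T0 - N) / (2 * n)) ≤ T0 - N := Nat.mul_div_le (T0 - N) (2 * n)
  have h6 : T0 - N < 2 * n * ((T0 - N) / (2 * n) + 1) := Nat.lt_mul_div_succ (T0 - N) (by omega)
  set L1 := (T0 - N) / (2 * n)
  have h7 : N + (2 * n + 1) * (n + 1) * (t + 1) < L1 + 1 := by
    have h8 : 2 * n * (N + (2 * n + 1) * (n + 1) * (t + 1)) < 2 * n * (L1 + 1) := by omega
    exact lt_of_mul_lt_mul_left h8 (Nat.zero_le _)
  have h10 : (n + 1) * (t + 1) ≤ (2 * n + 1) * (n + 1) * (t + 1) := by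
    calc (n + 1) * (t + 1) = 1 * ((n + 1) * (t + 1)) := by ring
      _ ≤ (2 * n + 1) * ((n + 1) * (t + 1)) := Nat.mul_le_mul_right _ (by omega)
      _ = _ := by ring
  obtain ⟨m, hm⟩ : ∃ m, m + (n + 1) * (t + 1) = L1 + 1 :=
    ⟨L1 + 1 - (n + 1) * (t + 1), by omega⟩
  refine ⟨L1, m, by omega, hm, ?_⟩
  have h11 : (2 * n + 1) * m + (2 * n + 1) * (n + 1) * (t + 1) = (2 * n + 1) * (L1 + 1) := by
    rw [← hm]; ring
  have h12 : (2 * n + 1) * (L1 + 1) = 2 * n * (L1 + 1) + (L1 + 1) := by ring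
  omega

lemma good_M (hg : Pool.Agent.H985.FC.S_gcs) {k n t l0 N m L1 T0 : ℕ} {a D : K[X]}
    (Ph : K[X] → ℝ) (hPh : ∀ x, Ph x * Ph x = 1) (hPh1 : ∀ x, |Ph x| = 1)
    (hn : 2 ^ k = n + 1)
    (hL1 : 2 * n * L1 + N ≤ T0) (hm : m + (n + 1) * (t + 1) = L1 + 1)
    (hTm : T0 < (2 * n + 1) * m) (hLl : L1 + 1 ≤ l0)
    (hcub : ∀ v : K[X], v.degree < (l0 : WithBot ℕ) → CubP Ph D k N m L1 T0 (a + D * v ^ 2)) :
    |(∑ v : degreeLT K l0, Ph (a + D * (v : K[X]) ^ 2)) / (Fintype.card K : ℝ) ^ l0| ≤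
      ((Fintype.card K : ℝ) ^ t)⁻¹ := by
  have hq2 : 2 ≤ Fintype.card K := Fintype.one_lt_card
  have hqpos : (0 : ℝ) < Fintype.card K := by exact_mod_cast Fintype.card_pos
  set φ : Fin k → (degreeLT K (L1 + 1)) →+ (degreeLT K l0) :=
    fun _ => (Submodule.inclusion (degreeLT_mono hLl)).toAddMonoidHom with hφ
  set f : degreeLT K l0 → ℝ := fun v => Ph (a + D * (v : K[X]) ^ 2) with hf
  have hgcs := hg (degreeLT K l0) (degreeLT K (L1 + 1)) (Fin k) φ f
    (fun u => (hPh1 _).le)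
  rw [Fintype.card_fin, card_dl, card_dl] at hgcs
  push_cast at hgcs
  -- the value of the shifted function
  have hval : ∀ (h : Fin k → degreeLT K (L1 + 1)) (u : degreeLT K l0) (A : Finset (Fin k)),
      f (u + ∑ j ∈ A, φ j (h j)) = Ph (a + D * ((u : K[X]) + ∑ j ∈ A, (h j : K[X])) ^ 2) := by
    intro h u A
    have e1 : ((u + ∑ j ∈ A, φ j (h j) : degreeLT K l0) : K[X]) =
        (u : K[X]) + ∑ j ∈ A, (h j : K[X]) := by
      rw [Submodule.coe_add, Submodule.coe_sum]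
      rfl
    rw [hf]
    simp only
    rw [e1]
  have hm0 : 0 < m := by
    rcases Nat.eq_zero_or_pos m with h0 | h0
    · rw [h0, mul_zero] at hTm; omega
    · exact h0
  have hle1 : ∀ (h : Fin k → degreeLT K (L1 + 1)),
      |(∑ u, ∏ A : Finset (Fin k), f (u + ∑ j ∈ A, φ j (h j))) / (Fintype.card K : ℝ) ^ l0| ≤ 1 := by
    intro h
    rw [abs_div, abs_of_pos (pow_pos hqpos l0), div_le_one (pow_pos hqpos l0)]
    refine (Finset.abs_sum_le_sum_abs _ _).trans ?_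
    have e1 : ∀ u : degreeLT K l0, |∏ A : Finset (Fin k), f (u + ∑ j ∈ A, φ j (h j))| = 1 := by
      intro u
      rw [Finset.abs_prod]
      refine Finset.prod_eq_one fun A _ => ?_
      rw [hval, hPh1]
    rw [Finset.sum_congr rfl (fun u _ => e1 u), Finset.sum_const, Finset.card_univ, card_dl,
      nsmul_eq_mul, mul_one]
    push_cast
    exact le_refl _
  have hzero : ∀ (h : Fin k → degreeLT K (L1 + 1)), (¬ ∃ A : Finset (Fin k), A.Nonempty ∧
      (∑ j ∈ A, (h j : K[X])).degree < (m : WithBot ℕ)) →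
      |(∑ u, ∏ A : Finset (Fin k), f (u + ∑ j ∈ A, φ j (h j))) / (Fintype.card K : ℝ) ^ l0| = 0 := by
    intro h hgood
    have hdeg : ∀ A : Finset (Fin k), A.Nonempty → ∑ j ∈ A, (h j : K[X]) ≠ 0 ∧
        m ≤ (∑ j ∈ A, (h j : K[X])).natDegree ∧ (∑ j ∈ A, (h j : K[X])).natDegree ≤ L1 := by
      intro A hA
      have h5 : ¬ (∑ j ∈ A, (h j : K[X])).degree < (m : WithBot ℕ) := fun h6 => hgood ⟨A, hA, h6⟩
      have h0 : ∑ j ∈ A, (h j : K[X]) ≠ 0 := by
        intro h0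
        rw [h0, degree_zero] at h5
        exact h5 (WithBot.bot_lt_coe _)
      refine ⟨h0, ?_, ?_⟩
      · by_contra h6
        exact h5 ((natDegree_lt_iff_degree_lt h0).1 (by omega))
      · have h6 : (∑ j ∈ A, (h j : K[X])) ∈ degreeLT K (L1 + 1) :=
          Submodule.sum_mem _ fun j _ => (h j).2
        have h7 := natDeg_le (mem_degreeLT.1 h6)
        omega
    have hSig : ∑ A : Finset (Fin k), (∑ j ∈ A, (h j : K[X])).natDegree =
        ∑ A ∈ Finset.univ.erase (∅ : Finset (Fin k)), (∑ j ∈ A, (h j : K[X])).natDegree := by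
      rw [← Finset.add_sum_erase Finset.univ _ (Finset.mem_univ (∅ : Finset (Fin k)))]
      simp
    have hcard : (Finset.univ.erase (∅ : Finset (Fin k))).card = n := by
      rw [Finset.card_erase_of_mem (Finset.mem_univ _), Finset.card_univ, Fintype.card_finset,
        Fintype.card_fin, hn]
      omega
    have hS1 : ∑ A : Finset (Fin k), (∑ j ∈ A, (h j : K[X])).natDegree ≤ n * L1 := by
      rw [hSig, ← hcard, ← smul_eq_mul]
      exact Finset.sum_le_card_nsmul _ _ _ fun A hA =>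
        (hdeg A (Finset.nonempty_iff_ne_empty.2 (Finset.mem_erase.1 hA).1)).2.2
    have hS2 : n * m ≤ ∑ A : Finset (Fin k), (∑ j ∈ A, (h j : K[X])).natDegree := by
      rw [hSig, ← hcard, ← smul_eq_mul]
      exact Finset.card_nsmul_le_sum _ _ _ fun A hA =>
        (hdeg A (Finset.nonempty_iff_ne_empty.2 (Finset.mem_erase.1 hA).1)).2.1
    set Sg := ∑ A : Finset (Fin k), (∑ j ∈ A, (h j : K[X])).natDegree with hSg
    have h2S : 2 * Sg ≤ 2 * n * L1 := by
      calc 2 * Sg ≤ 2 * (n * L1) := Nat.mul_le_mul_left _ hS1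
        _ = 2 * n * L1 := by ring
    obtain ⟨τ, hτ⟩ : ∃ τ, τ + 2 * Sg = T0 := ⟨T0 - 2 * Sg, by omega⟩
    have hτN : N ≤ τ := by omega
    have hτm : τ < m := by
      have e1 : (2 * n + 1) * m = 2 * (n * m) + m := by ring
      omega
    have hcz := cancelM (a := a) (D := D) (l0 := l0) Ph hPh (fun j => (h j : K[X])) hcub hτN hτm
      hdeg hτ (by omega)
    have e1 : ∑ u, ∏ A : Finset (Fin k), f (u + ∑ j ∈ A, φ j (h j)) = 0 := by
      rw [← hcz]
      exact Finset.sum_congr rfl fun u _ => Finset.prod_congr rfl fun A _ => hval h u A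
    rw [e1, zero_div, abs_zero]
  -- the bound
  have hB : ∑ h : Fin k → degreeLT K (L1 + 1),
      |(∑ u, ∏ A : Finset (Fin k), f (u + ∑ j ∈ A, φ j (h j))) / (Fintype.card K : ℝ) ^ l0| ≤
      ((Finset.univ.filter (fun h : Fin k → degreeLT K (L1 + 1) => ∃ A : Finset (Fin k),
        A.Nonempty ∧ (∑ j ∈ A, (h j : K[X])).degree < (m : WithBot ℕ))).card : ℝ) := by
    rw [Finset.card_eq_sum_ones, Finset.sum_filter]
    push_cast
    refine Finset.sum_le_sum fun h _ => ?_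
    by_cases hb : ∃ A : Finset (Fin k), A.Nonempty ∧
        (∑ j ∈ A, (h j : K[X])).degree < (m : WithBot ℕ)
    · rw [if_pos hb]; exact hle1 h
    · rw [if_neg hb, hzero h hb]
  have hbad := bad_h (K := K) (k := k) (l := L1 + 1) (m := m) (by omega)
  have hlm : L1 + 1 - m = (n + 1) * (t + 1) := by omega
  rw [hlm] at hbad
  have hbad' : ((Finset.univ.filter (fun h : Fin k → degreeLT K (L1 + 1) =>
      ∃ A : Finset (Fin k), A.Nonempty ∧
        (∑ j ∈ A, (h j : K[X])).degree < (m : WithBot ℕ))).card : ℝ) *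
      (Fintype.card K : ℝ) ^ ((n + 1) * (t + 1)) ≤
      2 ^ k * (Fintype.card K : ℝ) ^ ((L1 + 1) * k) := by exact_mod_cast hbad
  have h2k : (2 : ℝ) ^ k ≤ (Fintype.card K : ℝ) ^ (n + 1) := by
    have h5 : 2 ^ k ≤ Fintype.card K ^ (n + 1) := by
      rw [hn]
      exact (Nat.lt_pow_self hq2).le
    exact_mod_cast h5
  have hfin : |(∑ u, f u) / (Fintype.card K : ℝ) ^ l0| ^ (2 ^ k) ≤
      (((Fintype.card K : ℝ) ^ t)⁻¹) ^ (2 ^ k) := by
    refine hgcs.trans ?_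
    rw [div_le_iff₀ (by positivity)]
    refine hB.trans ?_
    have hpos : (0 : ℝ) < (Fintype.card K : ℝ) ^ ((n + 1) * (t + 1)) := pow_pos hqpos _
    refine le_of_mul_le_mul_right (hbad'.trans ?_) hpos
    rw [hn, inv_pow, ← pow_mul, ← pow_mul]
    have e1 : (Fintype.card K : ℝ) ^ ((n + 1) * (t + 1)) =
        (Fintype.card K : ℝ) ^ (t * (n + 1)) * (Fintype.card K : ℝ) ^ (n + 1) := by
      rw [← pow_add]; ring_nf
    have hpos2 : (0 : ℝ) < (Fintype.card K : ℝ) ^ (t * (n + 1)) := pow_pos hqpos _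
    have e2 : ((Fintype.card K : ℝ) ^ (t * (n + 1)))⁻¹ * (Fintype.card K : ℝ) ^ ((L1 + 1) * k) *
        (Fintype.card K : ℝ) ^ ((n + 1) * (t + 1)) =
        (Fintype.card K : ℝ) ^ (n + 1) * (Fintype.card K : ℝ) ^ ((L1 + 1) * k) := by
      rw [e1]
      field_simp
    rw [e2]
    exact mul_le_mul_of_nonneg_right h2k (by positivity)
  exact (pow_le_pow_iff_left₀ (abs_nonneg _) (by positivity) (by rw [hn]; omega)).1 hfin

/-- the bound of a sum of phases over an interval -/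
lemma main_M (hg : Pool.Agent.H985.FC.S_gcs) {k n t L d : ℕ} {D r : K[X]}
    (Ph : K[X] → ℝ) (hPh : ∀ x, Ph x * Ph x = 1) (hPh1 : ∀ x, |Ph x| = 1)
    (hn : 2 ^ k = n + 1) (hD : D.Monic) (hr : r.Monic) (hrd : r.natDegree = d)
    (hDL : D.natDegree + L ≤ d) (hL : 8 * (t + 1) ≤ L)
    (hgood : ∀ (a s : K[X]) (g : ℕ), a.Monic → a.natDegree = d → s ≠ 0 →
      s ^ 2 = derivative (a * D) → s.natDegree = D.natDegree + g → (L + 1) / 2 ≤ g + 1 + t →
      D.natDegree + 2 * g + 1 ≤ d → ∃ N m L1 T0 : ℕ, 2 * n * L1 + N ≤ T0 ∧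
        m + (n + 1) * (t + 1) = L1 + 1 ∧ T0 < (2 * n + 1) * m ∧ L1 + 1 ≤ (L + 1) / 2 ∧
        ∀ v : K[X], v.degree < (((L + 1) / 2 : ℕ) : WithBot ℕ) →
          CubP Ph D k N m L1 T0 (a + D * v ^ 2)) :
    |∑ c : degreeLT K L, Ph (r + D * (c : K[X]))| ≤
      2 * (Fintype.card K : ℝ) ^ L / (Fintype.card K : ℝ) ^ t := by
  have hqpos : (0 : ℝ) < Fintype.card K := by exact_mod_cast Fintype.card_pos
  have hmon : ∀ c : degreeLT K L, (r + D * (c : K[X])).Monic ∧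
      (r + D * (c : K[X])).natDegree = d := by
    intro c
    have hc := natDeg_le (dl_deg c)
    have h7 : (D * (c : K[X])).degree < r.degree := by
      refine degree_lt_degree (lt_of_le_of_lt natDegree_mul_le ?_)
      omega
    exact ⟨hr.add_of_left h7, by rw [natDegree_add_eq_left_of_degree_lt h7, hrd]⟩
  set S : ℝ := ∑ c : degreeLT K L, Ph (r + D * (c : K[X])) with hS
  set l0 := (L + 1) / 2 with hl0
  have hl0i : 2 * (l0 - 1) < L := by omega
  have hql : (0 : ℝ) < (Fintype.card K : ℝ) ^ l0 := pow_pos hqpos _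
  -- averaging
  have e3 : S = ∑ c : degreeLT K L,
      (∑ v : degreeLT K l0, Ph (r + D * (c : K[X]) + D * (v : K[X]) ^ 2)) /
      (Fintype.card K : ℝ) ^ l0 := by
    rw [← Finset.sum_div, Finset.sum_comm]
    have h5 : ∀ v : degreeLT K l0, ∑ c : degreeLT K L,
        Ph (r + D * (c : K[X]) + D * (v : K[X]) ^ 2) = S := by
      intro v
      rw [hS, ← shift_sumU hl0i (fun c => Ph (r + D * c)) v]
      refine Finset.sum_congr rfl fun c _ => ?_
      have h6 : r + D * (c : K[X]) + D * (v : K[X]) ^ 2 =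
          r + D * ((c : K[X]) + (v : K[X]) ^ 2) := by ring
      rw [h6]
    rw [Finset.sum_congr rfl (fun v _ => h5 v), Finset.sum_const, Finset.card_univ, card_dl,
      nsmul_eq_mul]
    push_cast
    rw [mul_comm, mul_div_assoc, div_self hql.ne', mul_one]
  have hE1 : ∀ c : degreeLT K L,
      |(∑ v : degreeLT K l0, Ph (r + D * (c : K[X]) + D * (v : K[X]) ^ 2)) /
      (Fintype.card K : ℝ) ^ l0| ≤ 1 := by
    intro c
    rw [abs_div, abs_of_pos hql, div_le_one hql]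
    refine (Finset.abs_sum_le_sum_abs _ _).trans ?_
    rw [Finset.sum_congr rfl (fun v _ => hPh1 _), Finset.sum_const,
      Finset.card_univ, card_dl, nsmul_eq_mul, mul_one]
    push_cast
    exact le_refl _
  obtain ⟨G0, hG0⟩ : ∃ G0, G0 + t + 1 = l0 := ⟨l0 - 1 - t, by omega⟩
  set Q : K[X] := derivative (r * D) with hQ
  have hE2 : ∀ c : degreeLT K L, ¬ (Q + D ^ 2 * derivative (c : K[X])).degree <
      ((2 * (D.natDegree + G0) : ℕ) : WithBot ℕ) →
      |(∑ v : degreeLT K l0, Ph (r + D * (c : K[X]) + D * (v : K[X]) ^ 2)) /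
        (Fintype.card K : ℝ) ^ l0| ≤ ((Fintype.card K : ℝ) ^ t)⁻¹ := by
    intro c hgd0
    obtain ⟨ham, had⟩ := hmon c
    obtain ⟨s, hs⟩ := exists_sqrt ((r + D * (c : K[X])) * D)
    have h5 : derivative ((r + D * (c : K[X])) * D) = Q + D ^ 2 * derivative (c : K[X]) := by
      have h6 : (r + D * (c : K[X])) * D = r * D + D ^ 2 * (c : K[X]) := by ring
      rw [h6, derivative_add, derivative_mul (f := D ^ 2), CubeL.deriv_sq, zero_mul, zero_add]
    rw [← h5, ← hs] at hgd0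
    have hs0 : s ≠ 0 := by
      rintro rfl
      rw [zero_pow two_ne_zero, degree_zero] at hgd0
      exact hgd0 (WithBot.bot_lt_coe _)
    have h7 : D.natDegree + G0 ≤ s.natDegree := by
      by_contra h8
      refine hgd0 ((natDegree_lt_iff_degree_lt (pow_ne_zero 2 hs0)).1 ?_)
      rw [natDegree_pow]
      omega
    have h8 : 2 * s.natDegree ≤ d + D.natDegree - 1 := by
      have h9 := natDegree_derivative_le ((r + D * (c : K[X])) * D)
      rw [← hs, natDegree_pow, ham.natDegree_mul hD, had] at h9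
      exact h9
    obtain ⟨g, hgd⟩ : ∃ g, s.natDegree = D.natDegree + g := ⟨s.natDegree - D.natDegree, by omega⟩
    obtain ⟨N, m, L1, T0, k1, k2, k3, k4, k5⟩ := hgood _ s g ham had hs0 hs hgd (by omega)
      (by omega)
    exact good_M hg Ph hPh hPh1 hn k1 k2 k3 k4 k5
  have hbad := bad_cU (L := L) (G := G0) (t := t) Q D hD (by omega)
  have hbad' : ((Finset.univ.filter (fun c : degreeLT K L =>
      (Q + D ^ 2 * derivative (c : K[X])).degree <
      ((2 * (D.natDegree + G0) : ℕ) : WithBot ℕ))).card : ℝ) ≤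
      (Fintype.card K : ℝ) ^ L / (Fintype.card K : ℝ) ^ t := by
    rw [le_div_iff₀ (pow_pos hqpos t)]
    exact_mod_cast hbad
  rw [e3]
  refine (Finset.abs_sum_le_sum_abs _ _).trans ?_
  rw [← Finset.sum_filter_add_sum_filter_not Finset.univ (fun c : degreeLT K L =>
      (Q + D ^ 2 * derivative (c : K[X])).degree <
      ((2 * (D.natDegree + G0) : ℕ) : WithBot ℕ))]
  have h10 : ∑ c ∈ Finset.univ.filter (fun c : degreeLT K L =>
      (Q + D ^ 2 * derivative (c : K[X])).degree <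
      ((2 * (D.natDegree + G0) : ℕ) : WithBot ℕ)),
      |(∑ v : degreeLT K l0, Ph (r + D * (c : K[X]) + D * (v : K[X]) ^ 2)) /
        (Fintype.card K : ℝ) ^ l0| ≤ (Fintype.card K : ℝ) ^ L / (Fintype.card K : ℝ) ^ t := by
    refine (Finset.sum_le_card_nsmul _ _ 1 (fun c _ => hE1 c)).trans ?_
    rw [nsmul_eq_mul, mul_one]
    exact hbad'
  have h11 : ∑ c ∈ Finset.univ.filter (fun c : degreeLT K L =>
      ¬ (Q + D ^ 2 * derivative (c : K[X])).degree <
      ((2 * (D.natDegree + G0) : ℕ) : WithBot ℕ)),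
      |(∑ v : degreeLT K l0, Ph (r + D * (c : K[X]) + D * (v : K[X]) ^ 2)) /
        (Fintype.card K : ℝ) ^ l0| ≤ (Fintype.card K : ℝ) ^ L / (Fintype.card K : ℝ) ^ t := by
    refine (Finset.sum_le_card_nsmul _ _ (((Fintype.card K : ℝ) ^ t)⁻¹) (fun c hcm =>
      hE2 c (Finset.mem_filter.1 hcm).2)).trans ?_
    rw [nsmul_eq_mul, div_eq_mul_inv]
    refine mul_le_mul_of_nonneg_right ?_ (by positivity)
    have h12 := Finset.card_filter_le (Finset.univ : Finset (degreeLT K L)) (fun c =>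
      ¬ (Q + D ^ 2 * derivative (c : K[X])).degree <
      ((2 * (D.natDegree + G0) : ℕ) : WithBot ℕ))
    rw [Finset.card_univ, card_dl] at h12
    exact_mod_cast h12
  refine (add_le_add h10 h11).trans (le_of_eq ?_)
  ring

omit [Fintype K] [CharP K 2] in
lemma phP_sq {n : ℕ} (γ : Fin n → K) (b e : Fin n → K[X]) (x : K[X]) :
    phP γ b e x * phP γ b e x = 1 := by
  unfold phP
  rw [← Finset.prod_mul_distrib]
  exact Finset.prod_eq_one fun i _ => Pool.Agent.H985.KP.Loc2.sg_mul_self _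

omit [Fintype K] [CharP K 2] in
lemma phP_abs {n : ℕ} (γ : Fin n → K) (b e : Fin n → K[X]) (x : K[X]) :
    |phP γ b e x| = 1 := by
  unfold phP
  rw [Finset.abs_prod]
  exact Finset.prod_eq_one fun i _ => Pool.Agent.H985.KP.Loc2.sg_abs _

omit [Fintype K] [CharP K 2] in
/-- parameters in the first case -/
lemma par0 {n t i g d o β N l0 L G : ℕ} (hn : 1 ≤ n) (hLG : i = L + G) (hi : i ≤ d)
    (hl0 : l0 = (L + 1) / 2) (h1 : l0 ≤ g + 1 + t) (h2 : 2 * g + 1 ≤ i)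
    (h3 : 2 * d + 2 * i ≤ (n + 1) * i) (ho : o ≤ i)
    (h4 : N + 2 * n * (N + (2 * n + 1) * (n + 1) * (t + 1)) ≤ d)
    (hG : (n + 2) * G + β + 3 * t + 2 < d - L / 2) :
    ∃ N' m L1 T0 : ℕ, N' = N ∧ T0 + d + 3 * g + 1 + o = (n + 2) * i + β ∧
      2 * n * L1 + N' ≤ T0 ∧ m + (n + 1) * (t + 1) = L1 + 1 ∧ T0 < (2 * n + 1) * m ∧
      L1 + 1 ≤ l0 := by
  have hP : (n + 2) * i = (n + 1) * i + i := by ring
  obtain ⟨T0, hT0⟩ : ∃ T0, T0 + d + 3 * g + 1 + o = (n + 2) * i + β :=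
    ⟨(n + 2) * i + β - (d + 3 * g + 1 + o), by omega⟩
  have hT0d : d ≤ T0 := by omega
  obtain ⟨L1, m, k1, k2, k3⟩ := paramsM (n := n) (t := t) (T0 := T0) (N := N) hn (h4.trans hT0d)
  refine ⟨N, m, L1, T0, rfl, hT0, k1, k2, k3, ?_⟩
  by_contra hcon
  have h13 : l0 ≤ L1 := by omega
  have h14 : 2 * n * l0 ≤ 2 * n * L1 := Nat.mul_le_mul_left _ h13
  have h15 : n * L ≤ 2 * n * l0 := by
    calc n * L ≤ n * (2 * l0) := Nat.mul_le_mul_left _ (by omega)
      _ = 2 * n * l0 := by ring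
  have h16 : (n + 2) * i = n * L + 2 * L + (n + 2) * G := by rw [hLG]; ring
  omega

omit [Fintype K] [CharP K 2] in
/-- parameters in the second case -/
lemma par1 {n t i g d o β N l0 L G Dd : ℕ} (hn : 1 ≤ n) (hLG : i = L + G) (hi : Dd + i = d)
    (hl0 : l0 = (L + 1) / 2) (h1 : l0 ≤ g + 1 + t) (h2 : 2 * g + 1 ≤ i)
    (h3 : 2 * d + 2 * i ≤ (n + 1) * i) (ho : o ≤ i) (hodd : Odd (Dd + o))
    (h4 : N + 2 * n * (N + (2 * n + 1) * (n + 1) * (t + 1)) ≤ d)
    (hG : (2 * n + 2) * G + 2 * β + 4 * t + 3 < Dd) :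
    ∃ N' m L1 T0 : ℕ, N' = N ∧ 2 * T0 + 4 * g + d + o + 1 = (2 * n + 3) * i + 2 * β ∧
      2 * n * L1 + N' ≤ T0 ∧ m + (n + 1) * (t + 1) = L1 + 1 ∧ T0 < (2 * n + 1) * m ∧
      L1 + 1 ≤ l0 := by
  have hP : (2 * n + 3) * i = 2 * ((n + 1) * i) + i := by ring
  obtain ⟨u, hu⟩ := hodd
  obtain ⟨T0, hT0⟩ : ∃ T0, 2 * T0 + 4 * g + d + o + 1 = (2 * n + 3) * i + 2 * β :=
    ⟨((2 * n + 3) * i + 2 * β - (4 * g + d + o + 1)) / 2, by omega⟩
  have hT0d : d ≤ T0 := by omega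
  obtain ⟨L1, m, k1, k2, k3⟩ := paramsM (n := n) (t := t) (T0 := T0) (N := N) hn (h4.trans hT0d)
  refine ⟨N, m, L1, T0, rfl, hT0, k1, k2, k3, ?_⟩
  by_contra hcon
  have h13 : l0 ≤ L1 := by omega
  have h14 : 2 * n * l0 ≤ 2 * n * L1 := Nat.mul_le_mul_left _ h13
  have h15 : n * L ≤ 2 * n * l0 := by
    calc n * L ≤ n * (2 * l0) := Nat.mul_le_mul_left _ (by omega)
      _ = 2 * n * l0 := by ring
  have h16 : (2 * n + 3) * i = 2 * (n * L) + 3 * L + ((2 * n + 2) * G + G) := by rw [hLG]; ring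
  omega

end two

section three

variable [CharP K 2]

/-- the conclusion of CUBEM0 for fixed `γ, b, e` -/
def Cub0 {n : ℕ} (γ : Fin n → K) (b e : Fin n → K[X]) (N : ℕ) : Prop :=
    ∀ (k d τ : ℕ) (a D s : K[X]) (h : Fin k → K[X]),
    1 ≤ k → N ≤ τ → N ≤ d → a.Monic → a.natDegree = d → D.Monic → s ≠ 0 →
    D.natDegree + N ≤ 2 * s.natDegree → s ^ 2 = derivative (a * D) →
    (∀ A : Finset (Fin k), A.Nonempty → ∑ j ∈ A, h j ≠ 0 ∧ τ < (∑ j ∈ A, h j).natDegree ∧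
      D.natDegree + 2 * (∑ j ∈ A, h j).natDegree < d) →
    3 * s.natDegree + (2 ^ k - 2) * D.natDegree +
      2 * ∑ A : Finset (Fin k), (∑ j ∈ A, h j).natDegree + τ + 1 + (om γ b).natDegree =
        2 ^ k * d + (bB γ b).natDegree →
    ∃ ω : K, ω ≠ 0 ∧ ∀ α : K,
      ∏ A : Finset (Fin k), (phP γ b e (a + D * (∑ j ∈ A, h j) ^ 2) *
        phP γ b e (a + D * (∑ j ∈ A, h j + C α * X ^ τ) ^ 2)) = sg (α * ω)

/-- the conclusion of CUBEM1 for fixed `γ, b, e` -/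
def Cub1 {n : ℕ} (γ : Fin n → K) (b e : Fin n → K[X]) (N : ℕ) : Prop :=
    ∀ (k d τ : ℕ) (a D s : K[X]) (h : Fin k → K[X]),
    1 ≤ k → N ≤ τ → N ≤ d → a.Monic → a.natDegree = d → D.Monic → s ≠ 0 →
    D.natDegree + N ≤ 2 * s.natDegree → s ^ 2 = derivative (a * D) →
    Odd (D.natDegree + (p1 γ b e).natDegree) →
    (∀ A : Finset (Fin k), A.Nonempty → ∑ j ∈ A, h j ≠ 0 ∧ τ < (∑ j ∈ A, h j).natDegree ∧
      D.natDegree + 2 * (∑ j ∈ A, h j).natDegree < d) →
    4 * s.natDegree + (2 * 2 ^ k - 3) * D.natDegree +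
      4 * ∑ A : Finset (Fin k), (∑ j ∈ A, h j).natDegree + 2 * τ + (p1 γ b e).natDegree + 1 =
        2 * 2 ^ k * d + 2 * (bB γ b).natDegree →
    ∃ ω : K, ω ≠ 0 ∧ ∀ α : K,
      ∏ A : Finset (Fin k), (phP γ b e (a + D * (∑ j ∈ A, h j) ^ 2) *
        phP γ b e (a + D * (∑ j ∈ A, h j + C α * X ^ τ) ^ 2)) = sg (α * ω)

omit [Fintype K] in
/-- the good case, in both cases -/
lemma good_case {nn : ℕ} {γ : Fin nn → K} {b e : Fin nn → K[X]} {N : ℕ}
    (hcase : Cub0 γ b e N ∨ Cub1 γ b e N) {k n t L G d : ℕ} {D : K[X]} (hk : 1 ≤ k)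
    (hn : 2 ^ k = n + 1) (hn1 : 1 ≤ n) (hD : D.Monic) (hodd : Odd (D.natDegree + (p1 γ b e).natDegree))
    (hi : D.natDegree + (L + G) = d)
    (h3 : 2 * d + 2 * (L + G) ≤ (n + 1) * (L + G)) (ho : (om γ b).natDegree ≤ L)
    (hp : (p1 γ b e).natDegree ≤ L) (hNd : 2 * N + 2 * t + 4 ≤ L)
    (h4 : N + 2 * n * (N + (2 * n + 1) * (n + 1) * (t + 1)) ≤ d)
    (hG0 : (n + 2) * G + (bB γ b).natDegree + 3 * t + 2 < d - L / 2)
    (hG1 : (2 * n + 2) * G + 2 * (bB γ b).natDegree + 4 * t + 3 < D.natDegree)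
    (a s : K[X]) (g : ℕ) (ha : a.Monic) (had : a.natDegree = d) (hs0 : s ≠ 0)
    (hs : s ^ 2 = derivative (a * D)) (hsg : s.natDegree = D.natDegree + g)
    (hg1 : (L + 1) / 2 ≤ g + 1 + t) (hg2 : D.natDegree + 2 * g + 1 ≤ d) :
    ∃ N m L1 T0 : ℕ, 2 * n * L1 + N ≤ T0 ∧
        m + (n + 1) * (t + 1) = L1 + 1 ∧ T0 < (2 * n + 1) * m ∧ L1 + 1 ≤ (L + 1) / 2 ∧
        ∀ v : K[X], v.degree < (((L + 1) / 2 : ℕ) : WithBot ℕ) →
          CubP (phP γ b e) D k N m L1 T0 (a + D * v ^ 2) := by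
  have hs' : ∀ v : K[X], s ^ 2 = derivative ((a + D * v ^ 2) * D) := by
    intro v
    have : (a + D * v ^ 2) * D = a * D + (D * v) ^ 2 := by ring
    rw [this, derivative_add, CubeL.deriv_sq, add_zero, hs]
  rcases hcase with hc | hc
  · obtain ⟨N', m, L1, T0, hN', hT0, k1, k2, k3, k4⟩ := par0 (n := n) (t := t) (i := L + G) (g := g)
      (d := d) (o := (om γ b).natDegree) (β := (bB γ b).natDegree) (N := N) (l0 := (L + 1) / 2)
      (L := L) (G := G) hn1 rfl (by omega) rfl hg1 (by omega) h3 (by omega) h4 hG0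
    refine ⟨N', m, L1, T0, k1, k2, k3, k4, fun v hv h τ hN hτ hh hsum => ?_⟩
    have hv' := natDeg_le hv
    obtain ⟨ham, hav⟩ := av_monic (D := D) (v := v) ha had (by omega)
    refine hc k d τ (a + D * v ^ 2) D s h hk (by omega) (by omega) ham hav hD hs0 (by omega)
      (hs' v) (fun A hA => ⟨(hh A hA).1, by have := (hh A hA).2.1; omega, by
        have := (hh A hA).2.2; omega⟩) ?_
    set Sg := ∑ A : Finset (Fin k), (∑ j ∈ A, h j).natDegree
    obtain ⟨n', rfl⟩ : ∃ n', n = n' + 1 := ⟨n - 1, by omega⟩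
    have e1 : 2 ^ k - 2 = n' := by omega
    rw [e1, hn, hsg]
    have e2 : 3 * (D.natDegree + g) + n' * D.natDegree + 2 * Sg + τ + 1 + (om γ b).natDegree =
        (n' + 3) * D.natDegree + 3 * g + T0 + 1 + (om γ b).natDegree := by
      rw [← hsum]; ring
    have e3 : (n' + 1 + 1) * d + d = (n' + 3) * D.natDegree + (n' + 1 + 2) * (L + G) := by
      rw [← hi]; ring
    rw [e2]
    omega
  · obtain ⟨N', m, L1, T0, hN', hT0, k1, k2, k3, k4⟩ := par1 (n := n) (t := t) (i := L + G) (g := g)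
      (d := d) (o := (p1 γ b e).natDegree) (β := (bB γ b).natDegree) (N := N) (l0 := (L + 1) / 2)
      (L := L) (G := G) (Dd := D.natDegree) hn1 rfl hi rfl hg1 (by omega) h3 (by omega) hodd h4 hG1
    refine ⟨N', m, L1, T0, k1, k2, k3, k4, fun v hv h τ hN hτ hh hsum => ?_⟩
    have hv' := natDeg_le hv
    obtain ⟨ham, hav⟩ := av_monic (D := D) (v := v) ha had (by omega)
    refine hc k d τ (a + D * v ^ 2) D s h hk (by omega) (by omega) ham hav hD hs0 (by omega)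
      (hs' v) hodd (fun A hA => ⟨(hh A hA).1, by have := (hh A hA).2.1; omega, by
        have := (hh A hA).2.2; omega⟩) ?_
    set Sg := ∑ A : Finset (Fin k), (∑ j ∈ A, h j).natDegree
    obtain ⟨n', rfl⟩ : ∃ n', n = n' + 1 := ⟨n - 1, by omega⟩
    have e1 : 2 * 2 ^ k - 3 = 2 * n' + 1 := by omega
    rw [e1, hn, hsg]
    have e2 : 4 * (D.natDegree + g) + (2 * n' + 1) * D.natDegree + 4 * Sg + 2 * τ +
        (p1 γ b e).natDegree + 1 =
        (2 * n' + 5) * D.natDegree + 4 * g + 2 * T0 + (p1 γ b e).natDegree + 1 := by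
      rw [← hsum]; ring
    have e3 : 2 * (n' + 1 + 1) * d + d = (2 * n' + 5) * D.natDegree + (2 * (n' + 1) + 3) * (L + G) := by
      rw [← hi]; ring
    rw [e2]
    omega

omit [Fintype K] [CharP K 2] in
/-- the Möbius function vanishes if the class is not prime to `b` -/
lemma mob_zero {γ : K} {b a₀ a : K[X]} (hb : b.Monic) (hnc : ¬ IsCoprime a₀ b)
    (h : b ^ 5 ∣ a - a₀) : mob (fa γ b a) = 0 := by
  have h1 : ∃ z : K[X], Prime z ∧ z ∣ a₀ ∧ z ∣ b := by
    by_contra hcon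
    push Not at hcon
    exact hnc (isCoprime_of_prime_dvd (fun h0 => hb.ne_zero h0.2) fun z hz hza => hcon z hz hza)
  obtain ⟨z, hz, hza, hzb⟩ := h1
  have h2 : z ∣ a := by
    have h3 : z ∣ a - a₀ := (hzb.trans (dvd_pow_self b (by norm_num))).trans h
    have h4 := dvd_add h3 hza
    rwa [sub_add_cancel] at h4
  have h5 : ¬ Squarefree (fa γ b a) := by
    intro hsf
    have h6 : z * z ∣ fa γ b a := by
      unfold fa
      refine dvd_add ?_ ?_
      · rw [pow_two]; exact mul_dvd_mul h2 h2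
      · refine Dvd.dvd.mul_left ?_ _
        rw [pow_two]
        exact mul_dvd_mul (Dvd.dvd.mul_left hzb _) (Dvd.dvd.mul_left hzb _)
    exact hz.not_isUnit (hsf z h6)
  unfold mob
  rw [if_neg h5]

/-- the sum over one class -/
lemma class_M (hp : S_parinfg) (hg : Pool.Agent.H985.FC.S_gcs) {nn : ℕ} {γ : Fin nn → K}
    {b e : Fin nn → K[X]} {N : ℕ} (hγ : ∀ i, γ i ≠ 0) (hb : ∀ i, (b i).Monic)
    (hcase : Cub0 γ b e N ∨ Cub1 γ b e N) {k n t L G d : ℕ} {D r : K[X]} (hk : 1 ≤ k)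
    (hn : 2 ^ k = n + 1) (hn1 : 1 ≤ n) (hD : D.Monic) (hr : r.Monic) (hrd : r.natDegree = d)
    (hbD : ∀ i, b i ^ 5 ∣ D) (he : ∀ i, (e i).natDegree < d) (hb5 : ∀ i, 5 * (b i).natDegree < d)
    (hodd : Odd (D.natDegree + (p1 γ b e).natDegree))
    (hi : D.natDegree + (L + G) = d)
    (h3 : 2 * d + 2 * (L + G) ≤ (n + 1) * (L + G)) (ho : (om γ b).natDegree ≤ L)
    (hpL : (p1 γ b e).natDegree ≤ L) (hNd : 2 * N + 2 * t + 4 ≤ L) (hL8 : 8 * (t + 1) ≤ L)
    (h4 : N + 2 * n * (N + (2 * n + 1) * (n + 1) * (t + 1)) ≤ d)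
    (hG0 : (n + 2) * G + (bB γ b).natDegree + 3 * t + 2 < d - L / 2)
    (hG1 : (2 * n + 2) * G + 2 * (bB γ b).natDegree + 4 * t + 3 < D.natDegree) :
    |∑ c : degreeLT K L, mobP γ b e (r + D * (c : K[X]))| ≤
      2 * (Fintype.card K : ℝ) ^ L / (Fintype.card K : ℝ) ^ t := by
  have hmon : ∀ c : degreeLT K L, ∀ i, (r + D * (c : K[X]) + e i).Monic ∧
      (r + D * (c : K[X]) + e i).natDegree = d := by
    intro c i
    have hc := natDeg_le (dl_deg c)
    have h7 : (D * (c : K[X])).degree < r.degree := by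
      refine degree_lt_degree (lt_of_le_of_lt natDegree_mul_le ?_)
      omega
    have h8 : (e i).degree < r.degree := degree_lt_degree (by rw [hrd]; exact he i)
    have h9 : (D * (c : K[X]) + e i).degree < r.degree :=
      lt_of_le_of_lt (degree_add_le _ _) (max_lt h7 h8)
    rw [add_assoc]
    exact ⟨hr.add_of_left h9, by rw [natDegree_add_eq_left_of_degree_lt h9, hrd]⟩
  have hdvd : ∀ (c : degreeLT K L) (i), b i ^ 5 ∣ (r + D * (c : K[X]) + e i) - (r + e i) := by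
    intro c i
    have h6 : r + D * (c : K[X]) + e i - (r + e i) = D * (c : K[X]) := by ring
    rw [h6]
    exact Dvd.dvd.mul_right (hbD i) _
  by_cases hcop : ∀ i, IsCoprime (r + e i) (b i)
  · have h5 : ∀ i, ∃ η : ℝ, (η = 1 ∨ η = -1) ∧ ∀ a : K[X], a.Monic → a.natDegree = d →
        b i ^ 5 ∣ a - (r + e i) → (mob (fa (γ i) (b i) a) : ℝ) = η * sg (phg (γ i) (b i) a) :=
      fun i => hp K (γ i) (b i) (r + e i) d (hγ i) (hb i) (hcop i) (hb5 i)
    choose η hη hpar using h5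
    have e1 : ∀ c : degreeLT K L, mobP γ b e (r + D * (c : K[X])) =
        (∏ i, η i) * phP γ b e (r + D * (c : K[X])) := by
      intro c
      unfold mobP phP
      rw [← Finset.prod_mul_distrib]
      exact Finset.prod_congr rfl fun i _ => hpar i _ (hmon c i).1 (hmon c i).2 (hdvd c i)
    have e2 : |∏ i, η i| = 1 := by
      rw [Finset.abs_prod]
      refine Finset.prod_eq_one fun i _ => ?_
      rcases hη i with h | h <;> rw [h] <;> norm_num
    rw [Finset.sum_congr rfl (fun c _ => e1 c), ← Finset.mul_sum, abs_mul, e2, one_mul]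
    exact main_M hg (phP γ b e) (phP_sq γ b e) (phP_abs γ b e) hn hD hr hrd (by omega) hL8
      (good_case hcase hk hn hn1 hD hodd hi h3 ho hpL hNd h4 hG0 hG1)
  · push Not at hcop
    obtain ⟨i, hi'⟩ := hcop
    have e1 : ∀ c : degreeLT K L, mobP γ b e (r + D * (c : K[X])) = 0 := by
      intro c
      unfold mobP
      refine Finset.prod_eq_zero (Finset.mem_univ i) ?_
      rw [mob_zero (hb i) hi' (hdvd c i)]
      norm_num
    rw [Finset.sum_congr rfl (fun c _ => e1 c), Finset.sum_const_zero, abs_zero]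
    positivity

omit [CharP K 2] in
/-- splitting an interval into residue classes -/
lemma split_M {q0 L : ℕ} {Q : K[X]} (hQ : Q.Monic) (hq : Q.natDegree = q0) (f : K[X] → ℝ) :
    ∑ c : degreeLT K (q0 + L), f (c : K[X]) =
      ∑ c0 : degreeLT K q0, ∑ c1 : degreeLT K L, f ((c0 : K[X]) + Q * (c1 : K[X])) := by
  have hmem : ∀ (c0 : degreeLT K q0) (c1 : degreeLT K L),
      (c0 : K[X]) + Q * (c1 : K[X]) ∈ degreeLT K (q0 + L) := by
    intro c0 c1
    refine Submodule.add_mem _ ?_ ?_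
    · exact degreeLT_mono (by omega) c0.2
    · rw [mem_degreeLT]
      by_cases h0 : (c1 : K[X]) = 0
      · rw [h0, mul_zero, degree_zero]
        exact WithBot.bot_lt_coe _
      · have h1 := (natDegree_lt_iff_degree_lt h0).2 (dl_deg c1)
        refine (natDegree_lt_iff_degree_lt (mul_ne_zero hQ.ne_zero h0)).1 ?_
        rw [natDegree_mul hQ.ne_zero h0]
        omega
  rw [← Finset.sum_product']
  symm
  refine Finset.sum_bij (fun (p : degreeLT K q0 × degreeLT K L) _ =>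
    (⟨(p.1 : K[X]) + Q * (p.2 : K[X]), hmem p.1 p.2⟩ : degreeLT K (q0 + L)))
    (fun _ _ => Finset.mem_univ _) ?_ ?_ (fun _ _ => rfl)
  · rintro ⟨c0, c1⟩ _ ⟨c0', c1'⟩ _ heq
    have h1 : (c0 : K[X]) + Q * (c1 : K[X]) = (c0' : K[X]) + Q * (c1' : K[X]) :=
      congrArg (fun w : degreeLT K (q0 + L) => (w : K[X])) heq
    have h2 : Q * ((c1 : K[X]) - (c1' : K[X])) = (c0' : K[X]) - (c0 : K[X]) := by
      linear_combination h1
    have h3 : (c1 : K[X]) - (c1' : K[X]) = 0 := by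
      by_contra h0
      have h4 : ((c0' : K[X]) - (c0 : K[X])).degree < (q0 : WithBot ℕ) :=
        lt_of_le_of_lt (degree_sub_le _ _) (max_lt (dl_deg c0') (dl_deg c0))
      rw [← h2] at h4
      have h5 := (natDegree_lt_iff_degree_lt (mul_ne_zero hQ.ne_zero h0)).2 h4
      rw [natDegree_mul hQ.ne_zero h0] at h5
      omega
    have h4 : c1 = c1' := Subtype.ext (sub_eq_zero.1 h3)
    rw [h3, mul_zero] at h2
    have h5 : c0 = c0' := Subtype.ext (sub_eq_zero.1 h2.symm).symm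
    rw [h4, h5]
  · intro c _
    have h1 : (c : K[X]) %ₘ Q ∈ degreeLT K q0 := by
      have h9 := degree_modByMonic_lt (c : K[X]) hQ
      rw [degree_eq_natDegree hQ.ne_zero, hq] at h9
      exact mem_degreeLT.2 h9
    have h2 : (c : K[X]) /ₘ Q ∈ degreeLT K L := by
      rw [mem_degreeLT]
      by_cases h0 : (c : K[X]) /ₘ Q = 0
      · rw [h0, degree_zero]
        exact WithBot.bot_lt_coe _
      · refine (natDegree_lt_iff_degree_lt h0).1 ?_
        have h3 := natDegree_divByMonic (c : K[X]) hQ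
        have h4 := natDeg_le (dl_deg c)
        have h5 : (c : K[X]) ≠ 0 := by
          intro h6
          rw [h6, zero_divByMonic] at h0
          exact h0 rfl
        have h6 := (natDegree_lt_iff_degree_lt h5).2 (dl_deg c)
        have h7 : (c : K[X]) /ₘ Q ≠ 0 := h0
        have h8 : Q.natDegree ≤ (c : K[X]).natDegree := by
          by_contra h9
          exact h7 ((divByMonic_eq_zero_iff hQ).2 (degree_lt_degree (by omega)))
        omega
    refine ⟨(⟨_, h1⟩, ⟨_, h2⟩), Finset.mem_univ _, ?_⟩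
    apply Subtype.ext
    exact modByMonic_add_div (c : K[X]) Q

end three

lemma numM0 {M1 β5 d L j : ℕ} (hM1 : 1 ≤ M1) (hd : 4 * M1 * (β5 + 1) ≤ d)
    (hj : j ≤ d / (4 * M1) + 1) (hML : d ≤ M1 * L) : β5 + j ≤ L := by
  have h1 : 4 * M1 * (d / (4 * M1)) ≤ d := Nat.mul_div_le d (4 * M1)
  have h2 : 4 * M1 * j ≤ 4 * M1 * (d / (4 * M1) + 1) := Nat.mul_le_mul_left _ hj
  have h3 : 4 * M1 * (β5 + j) ≤ 4 * M1 * L := by
    calc 4 * M1 * (β5 + j) = 4 * M1 * β5 + 4 * M1 * j := by ring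
      _ ≤ 4 * M1 * β5 + 4 * M1 * (d / (4 * M1) + 1) := by omega
      _ = 4 * M1 * (β5 + 1) + 4 * M1 * (d / (4 * M1)) := by ring
      _ ≤ d + d := by omega
      _ ≤ 4 * (M1 * L) := by omega
      _ = 4 * M1 * L := by ring
  exact Nat.le_of_mul_le_mul_left h3 (by omega)

lemma numM {M1 n P0 W N β5 βB o π d L D j L' G t : ℕ} (hM1 : 1 ≤ M1)
    (hn : 4 * M1 + 2 ≤ n + 1) (hP0 : P0 = 64 * M1 + 4 * n * (2 * n + 1) * (n + 1))
    (hW : W = 16 * M1 * (2 * n + 2) + 8 * (n + 2))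
    (hd1 : 2 * (N + 2 * n * N) ≤ d) (hd2 : 4 * M1 * (β5 + 1) ≤ d) (hd3 : 2 * M1 * (o + π) ≤ d)
    (hd4 : 2 * M1 * (4 * N + 8) ≤ d) (hd5 : 128 * M1 * (βB + 1) ≤ d)
    (hj0 : d / (4 * M1) ≤ j) (hj : j ≤ d / (4 * M1) + 1) (hL : L = β5 + j + L')
    (hML : d ≤ M1 * L) (hDL : D + L + G = d) (hG : W * G ≤ d) (ht : P0 * (t + 1) ≤ d) :
    2 * d + 2 * (L' + G) ≤ (n + 1) * (L' + G) ∧ o ≤ L' ∧ π ≤ L' ∧ 2 * N + 2 * t + 4 ≤ L' ∧
      8 * (t + 1) ≤ L' ∧ N + 2 * n * (N + (2 * n + 1) * (n + 1) * (t + 1)) ≤ d ∧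
      (n + 2) * G + βB + 3 * t + 2 < d - L' / 2 ∧
      (2 * n + 2) * G + 2 * βB + 4 * t + 3 < D + (β5 + j) := by
  have h1 : 4 * M1 * (d / (4 * M1)) ≤ d := Nat.mul_div_le d (4 * M1)
  have h2 : 4 * M1 * j ≤ 4 * M1 * (d / (4 * M1) + 1) := Nat.mul_le_mul_left _ hj
  have h1' : d < 4 * M1 * (d / (4 * M1) + 1) := Nat.lt_mul_div_succ d (by omega)
  have h2' : 4 * M1 * (d / (4 * M1)) ≤ 4 * M1 * j := Nat.mul_le_mul_left _ hj0
  have e0 : 4 * M1 * (d / (4 * M1) + 1) = 4 * M1 * (d / (4 * M1)) + 4 * M1 := by ring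
  have e1 : M1 * L = M1 * β5 + M1 * j + M1 * L' := by rw [hL]; ring
  have e2 : 4 * M1 * j = 4 * (M1 * j) := by ring
  have e3 : 4 * M1 * (β5 + 1) = 4 * (M1 * β5) + 4 * M1 := by ring
  have hL2 : d ≤ 2 * M1 * L' := by
    have e4 : 2 * M1 * L' = 2 * (M1 * L') := by ring
    omega
  have hM2 : 0 < 2 * M1 := by omega
  have hML' : d ≤ 2 * M1 * (L' + G) := by
    have : 2 * M1 * (L' + G) = 2 * M1 * L' + 2 * M1 * G := by ring
    omega
  have hP1 : P0 * (t + 1) = 2 * M1 * (32 * (t + 1)) + 4 * n * (2 * n + 1) * (n + 1) * (t + 1) := by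
    rw [hP0]; ring
  have hP2 : 2 * M1 * (32 * (t + 1)) ≤ d := by omega
  have hP3 : 4 * n * (2 * n + 1) * (n + 1) * (t + 1) ≤ d := by omega
  have hW1 : W * G = 16 * M1 * (2 * n + 2) * G + 8 * ((n + 2) * G) := by rw [hW]; ring
  have hW2 : 16 * M1 * (2 * n + 2) * G ≤ d := by omega
  have hW3 : 8 * ((n + 2) * G) ≤ d := by omega
  have hLt : 32 * (t + 1) ≤ L' := Nat.le_of_mul_le_mul_left (hP2.trans hL2) hM2
  have hLo : o + π ≤ L' := Nat.le_of_mul_le_mul_left (hd3.trans hL2) hM2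
  have hLN : 4 * N + 8 ≤ L' := Nat.le_of_mul_le_mul_left (hd4.trans hL2) hM2
  have hMβ : 128 * (βB + 1) ≤ 128 * M1 * (βB + 1) := by
    calc 128 * (βB + 1) = 128 * 1 * (βB + 1) := by ring
      _ ≤ 128 * M1 * (βB + 1) := Nat.mul_le_mul_right _ (Nat.mul_le_mul_left _ hM1)
  have hMt : 32 * (t + 1) ≤ 2 * M1 * (32 * (t + 1)) := by
    calc 32 * (t + 1) = 1 * (32 * (t + 1)) := by ring
      _ ≤ 2 * M1 * (32 * (t + 1)) := Nat.mul_le_mul_right _ (by omega)
  refine ⟨?_, by omega, by omega, by omega, by omega, ?_, by omega, ?_⟩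
  · calc 2 * d + 2 * (L' + G) ≤ 2 * (2 * M1 * (L' + G)) + 2 * (L' + G) := by omega
      _ = (4 * M1 + 2) * (L' + G) := by ring
      _ ≤ (n + 1) * (L' + G) := Nat.mul_le_mul_right _ hn
  · have e5 : N + 2 * n * (N + (2 * n + 1) * (n + 1) * (t + 1)) =
        (N + 2 * n * N) + 2 * n * (2 * n + 1) * (n + 1) * (t + 1) := by ring
    have e6 : 4 * n * (2 * n + 1) * (n + 1) * (t + 1) =
        2 * (2 * n * (2 * n + 1) * (n + 1) * (t + 1)) := by ring
    omega
  · have h5 : 4 * M1 * ((2 * n + 2) * G + 2 * βB + 4 * t + 3 + 1) ≤ 4 * M1 * j := by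
      have e5 : 4 * M1 * ((2 * n + 2) * G + 2 * βB + 4 * t + 3 + 1) =
          4 * (M1 * (2 * n + 2) * G) + 8 * (M1 * βB) + 16 * (M1 * (t + 1)) := by ring
      have e6 : 16 * M1 * (2 * n + 2) * G = 16 * (M1 * (2 * n + 2) * G) := by ring
      have e7 : 128 * M1 * (βB + 1) = 128 * (M1 * βB) + 128 * M1 := by ring
      have e8 : 2 * M1 * (32 * (t + 1)) = 64 * (M1 * (t + 1)) := by ring
      omega
    have h6 := Nat.le_of_mul_le_mul_left h5 (by omega)
    omega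

end WeylML

attribute [local instance] WeylL.fdl

open WeylL WeylGL WeylUL WeylML in
/-- **Task WEYLM**: the level of distribution of the product of the Möbius functions. -/
theorem weylm (hp : S_parinfg) (h0 : S_cubem0) (h1 : S_cubem1) (hg : Pool.Agent.H985.FC.S_gcs) :
    S_weylm := by
  intro K _ _ _ nn γ b e κ hγ hb hcase hκ
  obtain ⟨N, hN⟩ : ∃ N, Cub0 γ b e N ∨ Cub1 γ b e N := by
    by_cases hom : om γ b = 0
    · obtain ⟨N, hN⟩ := h1 K nn γ b e hγ hb hom (hcase.resolve_left (not_not.2 hom))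
      exact ⟨N, Or.inr hN⟩
    · obtain ⟨N, hN⟩ := h0 K nn γ b e hγ hb hom
      exact ⟨N, Or.inl hN⟩
  obtain ⟨M1, hM1, hM1κ⟩ : ∃ M1 : ℕ, 1 ≤ M1 ∧ 1 / κ ≤ M1 := by
    obtain ⟨M1, h⟩ := exists_nat_ge (1 / κ)
    refine ⟨M1 + 1, by omega, h.trans ?_⟩
    push_cast
    linarith
  obtain ⟨k, hk⟩ : ∃ k, k = 4 * M1 + 2 := ⟨_, rfl⟩
  have hk2 : 4 * M1 + 2 < 2 ^ k := by rw [hk]; exact Nat.lt_two_pow_self
  obtain ⟨n, hn⟩ : ∃ n, 2 ^ k = n + 1 := ⟨2 ^ k - 1, by omega⟩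
  obtain ⟨P0, hP0⟩ : ∃ P0, P0 = 64 * M1 + 4 * n * (2 * n + 1) * (n + 1) := ⟨_, rfl⟩
  obtain ⟨W, hW⟩ : ∃ W, W = 16 * M1 * (2 * n + 2) + 8 * (n + 2) := ⟨_, rfl⟩
  have hP0p : 0 < P0 := by omega
  have hWp : 0 < W := by omega
  have hP0R : (0 : ℝ) < P0 := by exact_mod_cast hP0p
  have hWR : (0 : ℝ) < W := by exact_mod_cast hWp
  obtain ⟨B, hB⟩ : ∃ B : K[X], B = (∏ i, b i) ^ 5 := ⟨_, rfl⟩
  have hBm : B.Monic := by
    rw [hB]
    exact (monic_prod_of_monic _ _ fun i _ => hb i).pow 5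
  refine ⟨1 / (2 * P0), 1 / W, by positivity, by positivity,
    2 * (N + 2 * n * N) + 4 * M1 * (B.natDegree + 1) +
      2 * M1 * ((om γ b).natDegree + (p1 γ b e).natDegree) + 2 * M1 * (4 * N + 8) +
      128 * M1 * ((bB γ b).natDegree + 1) + ∑ i, (e i).natDegree + 5 * ∑ i, (b i).natDegree + 1 +
      6 * P0, fun d L D r hd hD hr hrd hL hDL hgap => ?_⟩
  have hqpos : (0 : ℝ) < Fintype.card K := by exact_mod_cast Fintype.card_pos
  have hq2 : (2 : ℝ) ≤ Fintype.card K := by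
    have : 2 ≤ Fintype.card K := Fintype.one_lt_card
    exact_mod_cast this
  have hdpos : 0 < d := by omega
  have hdR : (0 : ℝ) < d := by exact_mod_cast hdpos
  have hML : d ≤ M1 * L := by
    have h5 : (d : ℝ) ≤ M1 * L := by
      have h6 : (d : ℝ) = 1 / κ * (κ * d) := by field_simp
      rw [h6]
      exact mul_le_mul hM1κ hL (by positivity) (by positivity)
    exact_mod_cast h5
  obtain ⟨G, hG⟩ : ∃ G, D.natDegree + L + G = d := ⟨d - D.natDegree - L, by omega⟩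
  have hWG : W * G ≤ d := by
    have hGR : (D.natDegree : ℝ) + L + G = d := by exact_mod_cast hG
    have h5 : (G : ℝ) ≤ 1 / W * d := by linarith
    rw [div_mul_eq_mul_div, one_mul, le_div_iff₀ hWR] at h5
    have h6 : ((W * G : ℕ) : ℝ) ≤ d := by push_cast; linarith
    exact_mod_cast h6
  obtain ⟨j, hj0, hj, hodd⟩ : ∃ j, d / (4 * M1) ≤ j ∧ j ≤ d / (4 * M1) + 1 ∧
      Odd (D.natDegree + (B.natDegree + j) + (p1 γ b e).natDegree) := by
    rcases Nat.even_or_odd (D.natDegree + (B.natDegree + d / (4 * M1)) + (p1 γ b e).natDegree)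
      with h | h
    · refine ⟨d / (4 * M1) + 1, by omega, le_rfl, ?_⟩
      have h5 := h.add_one
      rwa [show D.natDegree + (B.natDegree + d / (4 * M1)) + (p1 γ b e).natDegree + 1 =
        D.natDegree + (B.natDegree + (d / (4 * M1) + 1)) + (p1 γ b e).natDegree by ring] at h5
    · exact ⟨d / (4 * M1), le_rfl, by omega, h⟩
  have hq0L : B.natDegree + j ≤ L := numM0 hM1 (by omega) hj hML
  obtain ⟨L', hL'⟩ : ∃ L', L = B.natDegree + j + L' := ⟨L - (B.natDegree + j), by omega⟩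
  -- the parameter `t`
  have hx1 : P0 * (d / P0) ≤ d := Nat.mul_div_le _ _
  have hx2 : d < P0 * (d / P0 + 1) := Nat.lt_mul_div_succ d hP0p
  set x := d / P0 with hx
  have hx0 : 0 < x := by
    rcases Nat.eq_zero_or_pos x with h | h
    · rw [h] at hx2; omega
    · exact h
  obtain ⟨t, ht⟩ : ∃ t, x = t + 1 := ⟨x - 1, by omega⟩
  rw [ht] at hx1 hx2
  obtain ⟨n1, n2, n3, n4, n5, n6, n7, n8⟩ := numM (N := N) (n := n) (o := (om γ b).natDegree)
    (π := (p1 γ b e).natDegree) (βB := (bB γ b).natDegree) (D := D.natDegree) (G := G) hM1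
    (by omega) hP0 hW (by omega) (by omega) (by omega) (by omega) (by omega) hj0 hj hL' hML hG
    hWG hx1
  obtain ⟨Q, hQ⟩ : ∃ Q : K[X], Q = B * X ^ j := ⟨_, rfl⟩
  have hQm : Q.Monic := by rw [hQ]; exact hBm.mul (monic_X_pow j)
  have hQd : Q.natDegree = B.natDegree + j := by
    rw [hQ, hBm.natDegree_mul (monic_X_pow j), natDegree_X_pow]
  have hDQ : (D * Q).Monic := hD.mul hQm
  have hDQd : (D * Q).natDegree = D.natDegree + (B.natDegree + j) := by
    rw [hD.natDegree_mul hQm, hQd]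
  have hbDQ : ∀ i, b i ^ 5 ∣ D * Q := by
    intro i
    refine Dvd.dvd.mul_left ?_ _
    rw [hQ, hB]
    exact Dvd.dvd.mul_right (pow_dvd_pow_of_dvd (Finset.dvd_prod_of_mem b (Finset.mem_univ i)) 5) _
  have he : ∀ i, (e i).natDegree < d := by
    intro i
    have h5 := Finset.single_le_sum (f := fun i => (e i).natDegree) (fun i _ => Nat.zero_le _)
      (Finset.mem_univ i)
    omega
  have hb5 : ∀ i, 5 * (b i).natDegree < d := by
    intro i
    have h5 := Finset.single_le_sum (f := fun i => (b i).natDegree) (fun i _ => Nat.zero_le _)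
      (Finset.mem_univ i)
    omega
  have hk1 : 1 ≤ k := by omega
  have hclass : ∀ c0 : degreeLT K (B.natDegree + j),
      |∑ c1 : degreeLT K L', mobP γ b e (r + D * (c0 : K[X]) + D * Q * (c1 : K[X]))| ≤
      2 * (Fintype.card K : ℝ) ^ L' / (Fintype.card K : ℝ) ^ t := by
    intro c0
    have hc := natDeg_le (dl_deg c0)
    have h7 : (D * (c0 : K[X])).degree < r.degree := by
      refine degree_lt_degree (lt_of_le_of_lt natDegree_mul_le ?_)
      omega
    exact class_M hp hg hγ hb hN hk1 hn (by omega) hDQ (hr.add_of_left h7)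
      (by rw [natDegree_add_eq_left_of_degree_lt h7, hrd]) hbDQ he hb5 (by rw [hDQd]; exact hodd)
      (by rw [hDQd]; omega) n1 n2 n3 n4 n5 n6 n7 (by rw [hDQd]; exact n8)
  have hmain : |∑ c : degreeLT K (B.natDegree + j + L'), mobP γ b e (r + D * (c : K[X]))| ≤
      2 * (Fintype.card K : ℝ) ^ L / (Fintype.card K : ℝ) ^ t := by
    rw [split_M hQm hQd (fun c => mobP γ b e (r + D * c))]
    have e1 : ∀ (c0 : degreeLT K (B.natDegree + j)) (c1 : degreeLT K L'),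
        mobP γ b e (r + D * ((c0 : K[X]) + Q * (c1 : K[X]))) =
          mobP γ b e (r + D * (c0 : K[X]) + D * Q * (c1 : K[X])) := by
      intro c0 c1
      have e2 : r + D * ((c0 : K[X]) + Q * (c1 : K[X])) =
          r + D * (c0 : K[X]) + D * Q * (c1 : K[X]) := by ring
      rw [e2]
    simp only [e1]
    refine (Finset.abs_sum_le_sum_abs _ _).trans ((Finset.sum_le_sum fun c0 _ =>
      hclass c0).trans (le_of_eq ?_))
    rw [Finset.sum_const, Finset.card_univ, card_dl, nsmul_eq_mul, hL', pow_add _ (_ + j) L']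
    push_cast
    ring
  have hfs : ∑ᶠ c ∈ {c : K[X] | c.degree < (L : WithBot ℕ)}, mobP γ b e (r + D * c) =
      ∑ c : degreeLT K (B.natDegree + j + L'), mobP γ b e (r + D * (c : K[X])) := by
    rw [← hL']
    have h5 : {c : K[X] | c.degree < (L : WithBot ℕ)} = (degreeLT K L : Set K[X]) := by
      ext c
      rw [SetLike.mem_coe, mem_degreeLT]
      rfl
    rw [h5, ← finsum_set_coe_eq_finsum_mem, ← finsum_eq_sum_of_fintype]
    rfl
  rw [hfs]
  refine hmain.trans ?_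
  have hx2' : (d : ℝ) < P0 * (t + 1 + 1) := by exact_mod_cast hx2
  have hd' : 6 * (P0 : ℝ) ≤ d := by
    have : 6 * P0 ≤ d := by omega
    exact_mod_cast this
  have ht2 : 1 / (2 * P0) * (d : ℝ) + 3 ≤ (t : ℝ) + 2 := by
    have h5 : 1 / (2 * (P0 : ℝ)) * d + 3 = (d + 6 * P0) / (2 * P0) := by field_simp; ring
    rw [h5, div_le_iff₀ (by positivity)]
    nlinarith
  have e1 : 2 * (Fintype.card K : ℝ) ^ L / (Fintype.card K : ℝ) ^ t ≤
      (Fintype.card K : ℝ) ^ ((L : ℝ) - t + 1) := by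
    rw [Real.rpow_add hqpos, Real.rpow_sub hqpos, Real.rpow_one, Real.rpow_natCast,
      Real.rpow_natCast, mul_div_assoc, mul_comm]
    exact mul_le_mul_of_nonneg_left hq2 (by positivity)
  refine e1.trans (Real.rpow_le_rpow_of_exponent_le (by linarith) ?_)
  linarith

end Pool.Agent.H604.LD
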