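import Pool.Agent.H604.LD.Stm
import Pool.Agent.H183.Par.BRUN

/-!
# Universal Brun-Hooley weights (task BHW)
-/

set_option autoImplicit false

namespace Pool.Agent.H604.LD

open Polynomial
open scoped Classical
open Pool.Agent.H985.KP (PA)
open Pool.Agent.H694.Typ (Mn PU Irn mem_PU mem_Irn sum_PU La wt wt_nonneg wt_le_half q_ge irn_ge
  sum_deg_le)
open Pool.Agent.H183.Par (UU UU_abs UU_sum up_one supp level exists_b z_le bonf_even ee EE up_prod
  x_prod jx_lt jx_le lt_jx)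

namespace Bhw

section
variable {K : Type} [Field K] [Fintype K]

/-- `1 / |P|` -/
noncomputable def xx (P : K[X]) : ℝ := 1 / (Fintype.card K : ℝ) ^ P.natDegree

theorem xx_eq (P : K[X]) : xx P = wt K P.natDegree := by
  unfold xx wt
  rw [one_div]

theorem xx_nonneg (P : K[X]) : 0 ≤ xx P := by
  rw [xx_eq]
  exact wt_nonneg _

theorem xx_le {P : K[X]} (h : 0 < P.natDegree) : xx P ≤ 1 / 2 := by
  rw [xx_eq]
  refine (wt_le_half _).trans ?_
  calc (1 / 2 : ℝ) ^ P.natDegree ≤ (1 / 2) ^ 1 :=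
        pow_le_pow_of_le_one (by norm_num) (by norm_num) h
    _ = 1 / 2 := pow_one _

theorem wm_eq (m P : K[X]) : wm m P = if P ∣ m then xx P else 2 * xx P - xx P ^ 2 := by
  unfold wm xx
  by_cases h : P ∣ m
  · rw [if_pos h, if_pos h]
  · rw [if_neg h, if_neg h, mul_comm 2 P.natDegree, pow_mul]
    ring

theorem mem_Pz {z : ℕ} {P : K[X]} (h : P ∈ Pz K z) :
    P.Monic ∧ Irreducible P ∧ P.natDegree ≤ z ∧ 0 < P.natDegree := by
  unfold Pz at h
  have h1 := mem_PU.1 (Finset.mem_of_mem_erase h)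
  exact ⟨h1.1, h1.2.1, h1.2.2, h1.2.1.natDegree_pos⟩

theorem wm_bounds {z : ℕ} {P : K[X]} (m : K[X]) (h : P ∈ Pz K z) :
    0 ≤ wm m P ∧ wm m P ≤ 1 - 1 / 4 ∧ wm m P ≤ 2 * xx P := by
  have h0 := xx_nonneg P
  have h1 := xx_le (mem_Pz h).2.2.2
  rw [wm_eq]
  split_ifs
  · exact ⟨h0, by linarith, by linarith⟩
  · refine ⟨by nlinarith, by nlinarith, by nlinarith⟩

theorem block (m : K[X]) (z y : ℕ) :
    ∑ P ∈ (Pz K z).filter (fun P => y < 2 * P.natDegree ∧ P.natDegree ≤ y), wm m P ≤ 4 := by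
  rcases Nat.eq_zero_or_pos y with hy | hy
  · rw [Finset.filter_false_of_mem, Finset.sum_empty]
    · norm_num
    · intro P _ h
      omega
  have hy0 : (0 : ℝ) < y := by exact_mod_cast hy
  calc ∑ P ∈ (Pz K z).filter (fun P => y < 2 * P.natDegree ∧ P.natDegree ≤ y), wm m P
      ≤ ∑ P ∈ (Pz K z).filter (fun P => y < 2 * P.natDegree ∧ P.natDegree ≤ y),
          4 / (y : ℝ) * ((P.natDegree : ℝ) * wt K P.natDegree) := by
        refine Finset.sum_le_sum fun P hP => ?_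
        rw [Finset.mem_filter] at hP
        refine (wm_bounds m hP.1).2.2.trans ?_
        rw [xx_eq]
        have h1 : (y : ℝ) ≤ 2 * P.natDegree := by exact_mod_cast hP.2.1.le
        have h2 := wt_nonneg (k := K) P.natDegree
        rw [div_mul_eq_mul_div, le_div_iff₀ hy0]
        nlinarith
    _ ≤ ∑ P ∈ PU K y, 4 / (y : ℝ) * ((P.natDegree : ℝ) * wt K P.natDegree) := by
        refine Finset.sum_le_sum_of_subset_of_nonneg ?_ ?_
        · intro P hP
          rw [Finset.mem_filter] at hP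
          exact mem_PU.2 ⟨(mem_Pz hP.1).1, (mem_Pz hP.1).2.1, hP.2.2⟩
        · intro P _ _
          have h2 := wt_nonneg (k := K) P.natDegree
          positivity
    _ = 4 / (y : ℝ) * ∑ P ∈ PU K y, ((P.natDegree : ℝ) * wt K P.natDegree) := by
        rw [Finset.mul_sum]
    _ ≤ 4 / (y : ℝ) * y := by
        refine mul_le_mul_of_nonneg_left (sum_deg_le y) (by positivity)
    _ = 4 := by field_simp

theorem two_pow_ge (d : ℕ) : d + 1 ≤ 2 * 2 ^ (d - d / 2) := by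
  have h1 : (d - d / 2) < 2 ^ (d - d / 2) := Nat.lt_two_pow_self
  omega

theorem irn_low {d : ℕ} (hd : 0 < d) :
    1 / (d : ℝ) - 4 * (1 / (d : ℝ) - 1 / ((d : ℝ) + 1)) ≤ ∑ P ∈ Irn K d, wt K P.natDegree := by
  rw [Finset.sum_congr rfl (fun P hP => by rw [(mem_Irn.1 hP).2.1]), Finset.sum_const,
    nsmul_eq_mul]
  have hq := q_ge (k := K)
  have hq0 : (0 : ℝ) < Fintype.card K := by linarith
  have h1 : (Fintype.card K : ℝ) ^ d ≤ d * (Irn K d).card + 2 * (Fintype.card K : ℝ) ^ (d / 2) := by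
    exact_mod_cast irn_ge (k := K) (d := d) hd
  have hd0 : (0 : ℝ) < d := by exact_mod_cast hd
  have hpos : (0 : ℝ) < (Fintype.card K : ℝ) ^ d := by positivity
  have h2 : ((d : ℝ) + 1) * (Fintype.card K : ℝ) ^ (d / 2) ≤ 2 * (Fintype.card K : ℝ) ^ d := by
    have e : (Fintype.card K : ℝ) ^ d =
        (Fintype.card K : ℝ) ^ (d - d / 2) * (Fintype.card K : ℝ) ^ (d / 2) := by
      rw [← pow_add]
      congr 1
      omega
    rw [e, ← mul_assoc]
    refine mul_le_mul_of_nonneg_right ?_ (by positivity)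
    have h3 : ((d : ℝ) + 1) ≤ 2 * 2 ^ (d - d / 2) := by exact_mod_cast two_pow_ge d
    have h4 : (2 : ℝ) ^ (d - d / 2) ≤ (Fintype.card K : ℝ) ^ (d - d / 2) :=
      pow_le_pow_left₀ (by norm_num) hq _
    linarith
  unfold wt
  rw [← div_eq_mul_inv, le_div_iff₀ hpos]
  have h5 : (1 / (d : ℝ) - 4 * (1 / (d : ℝ) - 1 / ((d : ℝ) + 1))) * (Fintype.card K : ℝ) ^ d =
      ((Fintype.card K : ℝ) ^ d - 4 / ((d : ℝ) + 1) * (Fintype.card K : ℝ) ^ d) / d := by
    field_simp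
    ring
  rw [h5, div_le_iff₀ hd0]
  have h6 : 2 * (Fintype.card K : ℝ) ^ (d / 2) ≤ 4 / ((d : ℝ) + 1) * (Fintype.card K : ℝ) ^ d := by
    rw [div_mul_eq_mul_div, le_div_iff₀ (by positivity)]
    linarith
  linarith

theorem La_low (z : ℕ) : Real.log (z + 1) - 4 + 4 / ((z : ℝ) + 1) ≤ La K z := by
  induction z with
  | zero =>
    unfold La PU
    simp
  | succ z ih =>
    have h1 : La K (z + 1) = La K z + ∑ P ∈ Irn K (z + 1), wt K P.natDegree := by
      unfold La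
      rw [sum_PU, sum_PU, Finset.sum_Icc_succ_top (by omega)]
    have h2 := irn_low (K := K) (d := z + 1) (by omega)
    rw [h1]
    push_cast at h2 ⊢
    have hz : (0 : ℝ) < (z : ℝ) + 1 := by positivity
    have h3 : Real.log ((z : ℝ) + 1 + 1) ≤ Real.log ((z : ℝ) + 1) + 1 / ((z : ℝ) + 1) := by
      have e : (z : ℝ) + 1 + 1 = ((z : ℝ) + 1) * (1 + 1 / ((z : ℝ) + 1)) := by field_simp
      rw [e, Real.log_mul hz.ne' (by positivity)]
      have h4 := Real.log_le_sub_one_of_pos (show (0 : ℝ) < 1 + 1 / ((z : ℝ) + 1) by positivity)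
      linarith
    have e1 : (4 : ℝ) / ((z : ℝ) + 1 + 1) = 4 * (1 / ((z : ℝ) + 1 + 1)) := by ring
    have e2 : (4 : ℝ) / ((z : ℝ) + 1) = 4 * (1 / ((z : ℝ) + 1)) := by ring
    rw [e1]
    rw [e2] at ih
    linarith

theorem prod_low {z : ℕ} (hz : 1 ≤ z) :
    ∏ P ∈ Pz K z, (1 - xx P) ≤ Real.exp 5 / z := by
  have hz0 : (0 : ℝ) < z := by exact_mod_cast hz
  have h1 : ∏ P ∈ Pz K z, (1 - xx P) ≤ ∏ P ∈ Pz K z, Real.exp (-xx P) := by
    refine Finset.prod_le_prod (fun P hP => ?_) fun P hP => ?_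
    · have := xx_le (mem_Pz hP).2.2.2
      linarith
    · have := Real.add_one_le_exp (-xx P)
      linarith
  have hX : (X : K[X]) ∈ PU K z := mem_PU.2 ⟨monic_X, irreducible_X, by rw [natDegree_X]; exact hz⟩
  have h2 : La K z = ∑ P ∈ Pz K z, xx P + xx (X : K[X]) := by
    unfold La Pz
    rw [← Finset.sum_erase_add _ _ hX, xx_eq]
    congr 1
    exact Finset.sum_congr rfl fun P _ => (xx_eq P).symm
  have h3 : xx (X : K[X]) ≤ 1 / 2 := xx_le (by rw [natDegree_X]; exact one_pos)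
  have h4 := La_low (K := K) z
  have h5 : (0 : ℝ) ≤ 4 / ((z : ℝ) + 1) := by positivity
  have h6 : Real.log z ≤ Real.log (z + 1) := Real.log_le_log hz0 (by linarith)
  refine h1.trans ?_
  rw [← Real.exp_sum, Finset.sum_neg_distrib]
  calc Real.exp (-∑ P ∈ Pz K z, xx P) ≤ Real.exp (5 - Real.log z) :=
        Real.exp_le_exp.2 (by linarith)
    _ = Real.exp 5 / z := by rw [Real.exp_sub, Real.exp_log hz0]

theorem PA_coe {m : K[X]} (hm : m.Monic) :
    PA m = (((PU K m.natDegree).filter (fun P => P ∣ m) : Finset K[X]) : Set K[X]) := by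
  ext P
  rw [Finset.mem_coe, Finset.mem_filter, mem_PU]
  constructor
  · rintro ⟨h1, h2, h3⟩
    exact ⟨⟨h1, h2, natDegree_le_of_dvd h3 hm.ne_zero⟩, h3⟩
  · rintro ⟨⟨h1, h2, -⟩, h3⟩
    exact ⟨h1, h2, h3⟩

theorem fin_le {m : K[X]} (hm : m.Monic) (z : ℕ) :
    ∏ᶠ P ∈ PA m, (1 - 1 / (Fintype.card K : ℝ) ^ P.natDegree) ≤
      ∏ P ∈ (Pz K z).filter (fun P => P ∣ m), (1 - xx P) := by
  rw [PA_coe hm, finprod_mem_coe_finset]
  have hsub : (Pz K z).filter (fun P => P ∣ m) ⊆ (PU K m.natDegree).filter (fun P => P ∣ m) := by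
    intro P hP
    rw [Finset.mem_filter] at hP ⊢
    refine ⟨mem_PU.2 ⟨(mem_Pz hP.1).1, (mem_Pz hP.1).2.1, ?_⟩, hP.2⟩
    exact natDegree_le_of_dvd hP.2 hm.ne_zero
  have h0 : ∀ P ∈ PU K m.natDegree, 0 ≤ 1 - xx P ∧ 1 - xx P ≤ 1 := by
    intro P hP
    have h1 := xx_nonneg P
    have h2 := xx_le (mem_PU.1 hP).2.1.natDegree_pos
    exact ⟨by linarith, by linarith⟩
  have h1 : ∏ P ∈ (PU K m.natDegree).filter (fun P => P ∣ m),
      (1 - 1 / (Fintype.card K : ℝ) ^ P.natDegree) =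
      (∏ P ∈ (PU K m.natDegree).filter (fun P => P ∣ m) \ (Pz K z).filter (fun P => P ∣ m),
        (1 - xx P)) * ∏ P ∈ (Pz K z).filter (fun P => P ∣ m), (1 - xx P) :=
    (Finset.prod_sdiff hsub).symm
  rw [h1]
  refine mul_le_of_le_one_left ?_ ?_
  · exact Finset.prod_nonneg fun P hP => (h0 P (Finset.mem_filter.1 (hsub hP)).1).1
  · refine Finset.prod_le_one (fun P hP => ?_) fun P hP => ?_
    · exact (h0 P (Finset.mem_filter.1 (Finset.mem_sdiff.1 hP).1).1).1
    · exact (h0 P (Finset.mem_filter.1 (Finset.mem_sdiff.1 hP).1).1).2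

theorem prod_main {m : K[X]} (hm : m.Monic) (z : ℕ) :
    (∏ P ∈ Pz K z, (1 - wm m P)) *
      ∏ᶠ P ∈ PA m, (1 - 1 / (Fintype.card K : ℝ) ^ P.natDegree) ≤
      (∏ P ∈ Pz K z, (1 - xx P)) ^ 2 := by
  have h0 : 0 ≤ ∏ P ∈ Pz K z, (1 - wm m P) :=
    Finset.prod_nonneg fun P hP => by linarith [(wm_bounds m hP).2.1]
  refine (mul_le_mul_of_nonneg_left (fin_le hm z) h0).trans (le_of_eq ?_)
  rw [Finset.prod_filter, ← Finset.prod_mul_distrib, ← Finset.prod_pow]
  refine Finset.prod_congr rfl fun P _ => ?_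
  rw [wm_eq]
  by_cases h : P ∣ m
  · rw [if_pos h, if_pos h]
    ring
  · rw [if_neg h, if_neg h]
    ring

end

end Bhw

open Bhw in
/-- **Task BHW.** -/
theorem bhw : S_bhw := by
  intro K _ _
  obtain ⟨b, hb, hbJ⟩ := exists_b 4 1 one_pos
  refine ⟨2 * b + 6, Real.exp 1 * Real.exp 5 ^ 2, by omega, by positivity, fun z hz => ?_⟩
  have hℓ : ∀ P ∈ Pz K z, 1 ≤ P.natDegree ∧ P.natDegree ≤ z :=
    fun P hP => ⟨(mem_Pz hP).2.2.2, (mem_Pz hP).2.2.1⟩
  have hQ : ∀ P ∈ Pz K z, Nat.log 2 (z / P.natDegree) < Nat.log 2 z + 1 :=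
    fun P hP => jx_lt (hℓ P hP).1
  have hr : ∀ j : ℕ, Even (b + 2 * j) := fun j => hb.add (even_two_mul j)
  refine ⟨UU (Pz K z) (fun P => Nat.log 2 (z / P.natDegree)) (fun j => b + 2 * j)
    (Nat.log 2 z + 1), fun T => UU_abs _ _ _ _ _, ?_, ?_, ?_, ?_⟩
  · unfold UU
    rw [if_pos (Finset.empty_subset _)]
    refine Finset.prod_eq_one fun j _ => ?_
    rw [Finset.filter_empty]
    unfold Pool.Agent.H183.Par.u
    rw [Finset.card_empty, if_pos (Nat.zero_le _), pow_zero]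
  · intro T hT
    obtain ⟨h1, h2⟩ := supp _ _ _ _ _ (Or.inl hT)
    exact ⟨h1, level (Pz K z) (fun P => P.natDegree) z b hℓ T h1 h2⟩
  · intro B hB
    refine le_trans ?_ (up_one (Pz K z) _ _ hr _ B hB hQ)
    split_ifs <;> norm_num
  · intro m hm
    have hw1 : ∀ P ∈ Pz K z, 0 ≤ wm m P ∧ wm m P ≤ 1 := fun P hP =>
      ⟨(wm_bounds m hP).1, (wm_bounds m hP).2.1.trans (by norm_num)⟩
    have hblock : ∀ j : ℕ, ∑ P ∈ (Pz K z).filter (fun P => Nat.log 2 (z / P.natDegree) = j),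
        wm m P ≤ 4 := by
      intro j
      refine le_trans (Finset.sum_le_sum_of_subset_of_nonneg ?_ ?_) (block m z (z / 2 ^ j))
      · intro P hP
        rw [Finset.mem_filter] at hP ⊢
        have h4 := hℓ P hP.1
        have h5 := jx_le h4.1 h4.2
        have h6 := lt_jx (m := z) h4.1
        rw [hP.2] at h5 h6
        refine ⟨hP.1, ?_, ?_⟩
        · rw [Nat.div_lt_iff_lt_mul (by positivity)]
          exact h6
        · rw [Nat.le_div_iff_mul_le (by positivity)]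
          exact h5
      · intro P hP _
        exact (hw1 P (Finset.mem_filter.1 hP).1).1
    have hx : ∀ j : ℕ,
        0 ≤ ∏ P ∈ (Pz K z).filter (fun P => Nat.log 2 (z / P.natDegree) = j), (1 - wm m P) :=
      fun j => Finset.prod_nonneg fun P hP => by
        linarith [(hw1 P (Finset.mem_filter.1 hP).1).2]
    have hbo : ∀ j : ℕ, _ := fun j => bonf_even (wm m)
      ((Pz K z).filter (fun P => Nat.log 2 (z / P.natDegree) = j))
      (fun P hP => hw1 P (Finset.mem_filter.1 hP).1) (hr j)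
    have hz' : ∀ j : ℕ, ee (wm m) (b + 2 * j + 1)
        ((Pz K z).filter (fun P => Nat.log 2 (z / P.natDegree) = j)) ≤
        Real.exp (4 * 4) * (|4| ^ (b + 2 * j + 1) / ((b + 2 * j + 1).factorial : ℝ)) *
          ∏ P ∈ (Pz K z).filter (fun P => Nat.log 2 (z / P.natDegree) = j), (1 - wm m P) :=
      fun j => z_le (by norm_num) (wm m) _ (fun P hP =>
        ⟨(wm_bounds m (Finset.mem_filter.1 hP).1).1, (wm_bounds m (Finset.mem_filter.1 hP).1).2.1⟩)
        (hblock j) _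
    have hP0 : 0 ≤ ∏ P ∈ Pz K z, (1 - wm m P) :=
      Finset.prod_nonneg fun P hP => by linarith [(hw1 P hP).2]
    have hup : ∑ T ∈ (Pz K z).powerset, UU (Pz K z) (fun P => Nat.log 2 (z / P.natDegree))
        (fun j => b + 2 * j) (Nat.log 2 z + 1) T * ∏ P ∈ T, wm m P ≤
        Real.exp 1 * ∏ P ∈ Pz K z, (1 - wm m P) := by
      rw [UU_sum (Pz K z) _ _ _ (wm m) (Pz K z) (Finset.Subset.refl _) hQ]
      have h1 := up_prod hx (fun j => (hbo j).1) (fun j => (hbo j).2) hz' (Nat.log 2 z + 1)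
      rw [x_prod _ _ (Pz K z) hQ (wm m)] at h1
      refine h1.trans (mul_le_mul_of_nonneg_right ?_ hP0)
      exact Real.exp_le_exp.2 (hbJ _)
    have hf0 : 0 ≤ ∏ᶠ P ∈ PA m, (1 - 1 / (Fintype.card K : ℝ) ^ P.natDegree) := by
      rw [PA_coe hm, finprod_mem_coe_finset]
      refine Finset.prod_nonneg fun P hP => ?_
      have h2 := xx_le (mem_PU.1 (Finset.mem_filter.1 hP).1).2.1.natDegree_pos
      have h3 : xx P = 1 / (Fintype.card K : ℝ) ^ P.natDegree := rfl
      linarith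
    refine (mul_le_mul_of_nonneg_right hup hf0).trans ?_
    rw [mul_assoc]
    have h1 := prod_main hm z
    have h2 : 0 ≤ ∏ P ∈ Pz K z, (1 - xx P) :=
      Finset.prod_nonneg fun P hP => by
        have := xx_le (mem_Pz hP).2.2.2
        linarith
    have h3 := pow_le_pow_left₀ h2 (prod_low (K := K) hz) 2
    rw [div_pow] at h3
    rw [mul_div_assoc]
    exact mul_le_mul_of_nonneg_left (h1.trans h3) (Real.exp_pos _).le

end Pool.Agent.H604.LD
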