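import Pool.Agent.H604.LD.StmM
import Pool.Agent.H604.LD.CubeG

/-!
# Tasks CUBEM0, CUBEM1: the differences of a sum of phases at infinity
-/

set_option autoImplicit false

namespace Pool.Agent.H604.LD

open Polynomial
open scoped Classical
open Pool.Agent.H985.Chow (mob lc)
open Pool.Agent.H985.KP (sg)

namespace CubeML

open CubeL CubeGL

section lin

variable {K : Type} [Field K]

lemma lc_C_mul (M : K[X]) (c : K) (N : K[X]) : lc M (C c * N) = c * lc M N := by
  unfold lc
  rw [← smul_eq_C_mul, smul_modByMonic, coeff_smul, smul_eq_mul]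

variable [CharP K 2]

/-- every derivative is a square -/
lemma deriv_is_sq [Finite K] (f : K[X]) : ∃ o : K[X], o ^ 2 = derivative f := by
  obtain ⟨e, o, h⟩ := even_odd f
  refine ⟨o, ?_⟩
  rw [h, derivative_add, deriv_sq, zero_add, derivative_mul, derivative_X, deriv_sq]
  ring

variable {k : ℕ} (D : K[X]) (h : Fin k → K[X])

lemma Pc_addx (x y : K[X]) : Pc (x + y) D h 0 = Pc x D h 0 + Pc y D h 0 := by
  have t0 := two_zero (K := K)
  have h1 := prod_add t0 (fun j => D * h j ^ 2) (Finset.univ : Finset (Fin k)) x y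
  rw [Finset.powerset_univ] at h1
  have h3 : ∀ a : K[X], Pc a D h 0 = ∏ A : Finset (Fin k), (a + ∑ j ∈ A, D * h j ^ 2) := by
    intro a
    refine Finset.prod_congr rfl fun A _ => ?_
    rw [zz_eq]; ring
  rw [h3, h3, h3, h1]

/-- the product over the big group -/
noncomputable def LL (x u : K[X]) : K[X] := Pc x D h 0 * Pc x D h u

lemma LL_add (x y u : K[X]) : LL D h (x + y) u = LL D h x u + LL D h y u := by
  have t0 := two_zero (K := K)
  have h1 := Pc_add (x + y) D h u
  have h2 := Pc_add x D h u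
  have h3 := Pc_add y D h u
  have h4 := Pc_addx D h x y
  unfold LL
  rw [h4] at h1 ⊢
  set c := D ^ (2 ^ k) * (mm h u * u) ^ 2
  set P := Pc x D h 0
  set Q := Pc y D h 0
  have e1 : Pc (x + y) D h u = c + (P + Q) := by linear_combination h1 - (P + Q) * t0
  have e2 : Pc x D h u = c + P := by linear_combination h2 - P * t0
  have e3 : Pc y D h u = c + Q := by linear_combination h3 - Q * t0
  rw [e1, e2, e3]
  linear_combination (P * Q) * t0

omit [CharP K 2] in
lemma sum_if_empty {f : Finset (Fin k) → ℕ} {p q : ℕ} {S : Finset (Fin k) → ℕ}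
    (h0 : f ∅ ≤ p) (hA : ∀ A : Finset (Fin k), A.Nonempty → f A ≤ q + 2 * S A) :
    ∑ A : Finset (Fin k), f A + q ≤ p + 2 ^ k * q + 2 * ∑ A : Finset (Fin k), S A := by
  have e1 : ∑ A : Finset (Fin k), (q + 2 * S A) = 2 ^ k * q + 2 * ∑ A : Finset (Fin k), S A := by
    rw [Finset.sum_add_distrib, Finset.sum_const, Finset.card_univ, Fintype.card_finset,
      Fintype.card_fin, smul_eq_mul, ← Finset.mul_sum]
  have e2 : ∑ A ∈ Finset.univ.erase (∅ : Finset (Fin k)), f A ≤
      ∑ A ∈ Finset.univ.erase (∅ : Finset (Fin k)), (q + 2 * S A) := by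
    refine Finset.sum_le_sum fun A hA' => hA A ?_
    exact Finset.nonempty_iff_ne_empty.2 (Finset.mem_erase.1 hA').1
  have e3 := Finset.add_sum_erase Finset.univ f (Finset.mem_univ (∅ : Finset (Fin k)))
  have e4 := Finset.add_sum_erase Finset.univ (fun A => q + 2 * S A)
    (Finset.mem_univ (∅ : Finset (Fin k)))
  omega

omit [CharP K 2] in
lemma zz_deg (e u : K[X]) {τ : ℕ} (he : e.natDegree ≤ τ) (hu : u.natDegree ≤ τ)
    (hh : ∀ A : Finset (Fin k), A.Nonempty → ∑ j ∈ A, h j ≠ 0 ∧ τ < (∑ j ∈ A, h j).natDegree)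
    (A : Finset (Fin k)) (hA : A.Nonempty) :
    (zz e D h u A).natDegree ≤ D.natDegree + 2 * (∑ j ∈ A, h j).natDegree := by
  obtain ⟨-, h2⟩ := hh A hA
  have h3 : (∑ j ∈ A, h j + u).natDegree ≤ (∑ j ∈ A, h j).natDegree :=
    (natDegree_add_le _ _).trans (max_le le_rfl (by omega))
  have h1 : (D * (∑ j ∈ A, h j + u) ^ 2).natDegree ≤
      D.natDegree + 2 * (∑ j ∈ A, h j + u).natDegree :=
    natDegree_mul_le.trans (Nat.add_le_add_left natDegree_pow_le _)
  unfold zz
  refine (natDegree_add_le _ _).trans (max_le (by omega) (by omega))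

omit [CharP K 2] in
lemma LL_deg (e u : K[X]) {τ : ℕ} (he : e.natDegree ≤ τ) (hu : u.natDegree ≤ τ)
    (hh : ∀ A : Finset (Fin k), A.Nonempty → ∑ j ∈ A, h j ≠ 0 ∧
      τ < (∑ j ∈ A, h j).natDegree) :
    (LL D h e u).natDegree + D.natDegree ≤ e.natDegree + 2 * (2 ^ k * D.natDegree) +
      4 * ∑ A : Finset (Fin k), (∑ j ∈ A, h j).natDegree + 2 * τ := by
  have h1 : (Pc e D h 0).natDegree ≤ ∑ A : Finset (Fin k), (zz e D h 0 A).natDegree :=
    natDegree_prod_le _ _
  have h2 : (Pc e D h u).natDegree ≤ ∑ A : Finset (Fin k), (zz e D h u A).natDegree :=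
    natDegree_prod_le _ _
  have h3 := sum_if_empty (k := k) (f := fun A => (zz e D h 0 A).natDegree) (p := e.natDegree)
    (q := D.natDegree) (S := fun A => (∑ j ∈ A, h j).natDegree) (by simp [zz])
    (zz_deg D h e 0 he (by simp) hh)
  have h4 := sum_if_empty (k := k) (f := fun A => (zz e D h u A).natDegree)
    (p := D.natDegree + 2 * τ) (q := D.natDegree) (S := fun A => (∑ j ∈ A, h j).natDegree) (by
      unfold zz
      rw [Finset.sum_empty, zero_add]
      have h5 : (D * u ^ 2).natDegree ≤ D.natDegree + 2 * u.natDegree :=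
        natDegree_mul_le.trans (Nat.add_le_add_left natDegree_pow_le _)
      exact (natDegree_add_le _ _).trans (max_le (by omega) (by omega)))
    (zz_deg D h e u he hu hh)
  have h5 : (LL D h e u).natDegree ≤ (Pc e D h 0).natDegree + (Pc e D h u).natDegree :=
    natDegree_mul_le
  omega

end lin

section core

variable {K : Type} [Field K] {n : ℕ}

lemma bt_eq (γ : Fin n → K) (b : Fin n → K[X]) (i : Fin n) :
    bt γ b i = C (∏ j ∈ Finset.univ.erase i, γ j) * ∏ j ∈ Finset.univ.erase i, b j := by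
  unfold bt
  rw [Finset.prod_mul_distrib, map_prod]

lemma bB_eq (γ : Fin n → K) (b : Fin n → K[X]) : bB γ b = C (∏ j, γ j) * ∏ j, b j := by
  unfold bB
  rw [Finset.prod_mul_distrib, map_prod]

/-- the change of the denominators -/
lemma change_den (γ : Fin n → K) (b : Fin n → K[X]) (hγ : ∀ i, γ i ≠ 0)
    (hb : ∀ i, (b i).Monic) (i : Fin n) {L : K[X]} (hL : L.Monic) (N : K[X]) :
    ((γ i)⁻¹) ^ 2 * lc (L * b i ^ 2) (X * N ^ 2) =
      ((∏ j, γ j)⁻¹) ^ 2 * lc (L * (∏ j, b j) ^ 2) (X * (bt γ b i * N) ^ 2) := by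
  have hcb : (∏ j ∈ Finset.univ.erase i, b j).Monic := monic_prod_of_monic _ _ fun j _ => hb j
  have h1 : ∏ j, b j = b i * ∏ j ∈ Finset.univ.erase i, b j :=
    (Finset.mul_prod_erase Finset.univ b (Finset.mem_univ i)).symm
  have h2 : ∏ j, γ j = γ i * ∏ j ∈ Finset.univ.erase i, γ j :=
    (Finset.mul_prod_erase Finset.univ γ (Finset.mem_univ i)).symm
  have h3 : ∏ j ∈ Finset.univ.erase i, γ j ≠ 0 := Finset.prod_ne_zero_iff.2 fun j _ => hγ j
  rw [bt_eq, h1, h2]
  set cb := ∏ j ∈ Finset.univ.erase i, b j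
  set g := ∏ j ∈ Finset.univ.erase i, γ j
  have e1 : L * (b i * cb) ^ 2 = L * b i ^ 2 * cb ^ 2 := by ring
  have e2 : X * (C g * cb * N) ^ 2 = C (g ^ 2) * (X * N ^ 2) * cb ^ 2 := by
    rw [map_pow]; ring
  rw [e1, e2, Pool.Agent.H985.Chow.RT.lc_mul (hL.mul ((hb i).pow 2)) (hcb.pow 2), lc_C_mul]
  have := hγ i
  field_simp

variable [CharP K 2] {k : ℕ}

/-- the sum of the phases of one function -/
lemma phase_sum [Finite K] {d τ : ℕ} (γ : K) {b a D s u : K[X]} {h : Fin k → K[X]} (hk : 1 ≤ k)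
    (hb : b.Monic) (ha : a.Monic) (had : a.natDegree = d) (hD : D.Monic)
    (hs : s ^ 2 = derivative (a * D)) (hu : u.natDegree ≤ τ)
    (hh : ∀ A : Finset (Fin k), A.Nonempty → ∑ j ∈ A, h j ≠ 0 ∧ τ < (∑ j ∈ A, h j).natDegree ∧
      D.natDegree + 2 * (∑ j ∈ A, h j).natDegree < d) :
    (LL D h a u).Monic ∧ (LL D h a u).natDegree = 2 * (2 ^ k * d) ∧
    ∑ A : Finset (Fin k), phg γ b (zz a D h 0 A) + ∑ A : Finset (Fin k), phg γ b (zz a D h u A) =
      (γ⁻¹) ^ 2 * lc (LL D h a u * b ^ 2) (X * Nu D h s u ^ 2) := by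
  have hm0 := zz_monic a D h ha had hk (0 : K[X]) (τ := τ) (by simp) hh
  have hmu := zz_monic a D h ha had hk u hu hh
  have hP0 : (Pc a D h 0).Monic := monic_prod_of_monic _ _ fun A _ => (hm0 A).1
  have hPu : (Pc a D h u).Monic := monic_prod_of_monic _ _ fun A _ => (hmu A).1
  have hP0d : (Pc a D h 0).natDegree = 2 ^ k * d := by
    unfold Pc
    rw [natDegree_prod_of_monic _ _ fun A _ => (hm0 A).1,
      Finset.sum_congr rfl fun A _ => (hm0 A).2, Finset.sum_const, Finset.card_univ,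
      Fintype.card_finset, Fintype.card_fin, smul_eq_mul]
  have hPud : (Pc a D h u).natDegree = 2 ^ k * d := by
    unfold Pc
    rw [natDegree_prod_of_monic _ _ fun A _ => (hmu A).1,
      Finset.sum_congr rfl fun A _ => (hmu A).2, Finset.sum_const, Finset.card_univ,
      Fintype.card_finset, Fintype.card_fin, smul_eq_mul]
  have hb2 : (b ^ 2).Monic := hb.pow 2
  refine ⟨hP0.mul hPu, ?_, ?_⟩
  · unfold LL
    rw [hP0.natDegree_mul hPu, hP0d, hPud]
    ring
  · rw [sum_phg γ hb a D h 0 (fun A => (hm0 A).1), sum_phg γ hb a D h u (fun A => (hmu A).1),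
      ← mul_add, ← Pool.Agent.H985.Chow.RT.lc_mul (hP0.mul hb2) hPu,
      ← Pool.Agent.H985.Chow.RT.lc_mul (hPu.mul hb2) hP0]
    have hL1 : Pc a D h 0 * b ^ 2 * Pc a D h u = LL D h a u * b ^ 2 := by unfold LL; ring
    have hL2 : Pc a D h u * b ^ 2 * Pc a D h 0 = LL D h a u * b ^ 2 := by unfold LL; ring
    rw [hL1, hL2, ← Pool.Agent.H985.Chow.RT.lc_add, Nu_eq a D h s u hk hD hs]

lemma prod_phP [Finite K] (γ : Fin n → K) (b e : Fin n → K[X]) (a D u : K[X]) (h : Fin k → K[X]) :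
    ∏ A : Finset (Fin k), (phP γ b e (a + D * (∑ j ∈ A, h j) ^ 2) *
        phP γ b e (a + D * (∑ j ∈ A, h j + u) ^ 2)) =
      sg (∑ i, (∑ A : Finset (Fin k), phg (γ i) (b i) (zz (a + e i) D h 0 A) +
        ∑ A : Finset (Fin k), phg (γ i) (b i) (zz (a + e i) D h u A))) := by
  rw [← sg_sum]
  unfold phP
  simp_rw [← Finset.prod_mul_distrib]
  rw [Finset.prod_comm]
  refine Finset.prod_congr rfl fun i _ => ?_
  rw [Pool.Agent.H985.KP.Loc2.sg_add, ← sg_sum, ← sg_sum, ← Finset.prod_mul_distrib]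
  refine Finset.prod_congr rfl fun A _ => ?_
  have e1 : a + D * (∑ j ∈ A, h j) ^ 2 + e i = zz (a + e i) D h 0 A := by
    unfold zz; ring
  have e2 : a + D * (∑ j ∈ A, h j + u) ^ 2 + e i = zz (a + e i) D h u A := by
    unfold zz; ring
  rw [e1, e2]

/-- the common part of both tasks -/
theorem core [Finite K] {d τ : ℕ} (γ : Fin n → K) (b e : Fin n → K[X]) (hγ : ∀ i, γ i ≠ 0)
    (hb : ∀ i, (b i).Monic) (a D s : K[X]) (h : Fin k → K[X]) (hk : 1 ≤ k) (ha : a.Monic)
    (had : a.natDegree = d) (hD : D.Monic) (hs : s ^ 2 = derivative (a * D))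
    (hh : ∀ A : Finset (Fin k), A.Nonempty → ∑ j ∈ A, h j ≠ 0 ∧ τ < (∑ j ∈ A, h j).natDegree ∧
      D.natDegree + 2 * (∑ j ∈ A, h j).natDegree < d)
    (he : ∀ i, (e i).natDegree ≤ τ) (hed : ∀ i, (e i).natDegree < d) (ε : Fin n → K[X])
    (hε : ∀ i, ε i ^ 2 = derivative (e i * D)) (Z : K[X])
    (hZd : Z = ∑ i, bt γ b i * (s + ε i) ^ 3) (hZ : Z ≠ 0)
    (hm : (2 ^ k - 2) * D.natDegree + 2 * ∑ A : Finset (Fin k), (∑ j ∈ A, h j).natDegree +
      Z.natDegree + τ + 1 = 2 ^ k * d + (bB γ b).natDegree)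
    (hcorr : ∀ i, 3 * D.natDegree + 6 * (s + ε i).natDegree + 2 * (bt γ b i).natDegree +
      (e i).natDegree + 2 * (bB γ b).natDegree < 4 * Z.natDegree + 2) :
    ∃ ω : K, ω ≠ 0 ∧ ∀ α : K,
      ∏ A : Finset (Fin k), (phP γ b e (a + D * (∑ j ∈ A, h j) ^ 2) *
        phP γ b e (a + D * (∑ j ∈ A, h j + C α * X ^ τ) ^ 2)) = sg (α * ω) := by
  have t0 := two_zero (K := K)
  have hh' : ∀ A : Finset (Fin k), A.Nonempty → ∑ j ∈ A, h j ≠ 0 ∧
      τ < (∑ j ∈ A, h j).natDegree := fun A hA => ⟨(hh A hA).1, (hh A hA).2.1⟩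
  have hd : 1 ≤ d := by
    obtain ⟨-, h3, h4⟩ := hh {⟨0, by omega⟩} (Finset.singleton_nonempty _)
    omega
  set ℓ : K := ∏ A : Finset (Fin k), (if A = ∅ then 1 else (∑ j ∈ A, h j).leadingCoeff) with hℓ
  have h0 := mm_lead h (τ := τ) (0 : K[X]) (by simp) hh'
  have hℓ0 : ℓ ≠ 0 := by
    rw [hℓ, ← h0.2.2]
    exact leadingCoeff_ne_zero.2 h0.1
  have hΓ : ∏ j, γ j ≠ 0 := Finset.prod_ne_zero_iff.2 fun j _ => hγ j
  refine ⟨(∏ j, γ j)⁻¹ * (ℓ ^ 2 * Z.leadingCoeff), mul_ne_zero (inv_ne_zero hΓ)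
    (mul_ne_zero (pow_ne_zero 2 hℓ0) (leadingCoeff_ne_zero.2 hZ)), fun α => ?_⟩
  set u : K[X] := C α * X ^ τ with hu
  have hud : u.natDegree ≤ τ := natDegree_C_mul_X_pow_le α τ
  rw [prod_phP]
  -- the shifted data
  have hai : ∀ i, (a + e i).Monic ∧ (a + e i).natDegree = d := by
    intro i
    have hlt : (e i).degree < a.degree := degree_lt_degree (by rw [had]; exact hed i)
    exact ⟨ha.add_of_left hlt, by rw [natDegree_add_eq_left_of_degree_lt hlt, had]⟩
  have hsi : ∀ i, (s + ε i) ^ 2 = derivative ((a + e i) * D) := by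
    intro i
    rw [sq_add', hs, hε, ← derivative_add]
    congr 1
    ring
  have hB : (∏ j, b j).Monic := monic_prod_of_monic _ _ fun j _ => hb j
  have hBd : (bB γ b).natDegree = (∏ j, b j).natDegree := by
    rw [bB_eq, natDegree_C_mul hΓ]
  have hph := fun i => phase_sum (γ i) hk (hb i) (hai i).1 (hai i).2 hD (hsi i) hud hh
  have hL0 := phase_sum (1 : K) hk monic_one ha had hD hs hud hh
  set L : K[X] := LL D h a u with hLdef
  have hLm : L.Monic := hL0.1
  have hLd : L.natDegree = 2 * (2 ^ k * d) := hL0.2.1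
  -- the common factor
  set M0 : K[X] := D ^ (2 ^ k - 2) * mm h 0 * mm h u with hM0
  have hmuu := mm_lead h u hud hh'
  have hM0d : M0.natDegree = (2 ^ k - 2) * D.natDegree +
      2 * ∑ A : Finset (Fin k), (∑ j ∈ A, h j).natDegree := by
    rw [hM0, natDegree_mul (mul_ne_zero (pow_ne_zero _ hD.ne_zero) h0.1) hmuu.1,
      natDegree_mul (pow_ne_zero _ hD.ne_zero) h0.1, natDegree_pow, hmuu.2.1, h0.2.1]
    ring
  have hM0l : M0.leadingCoeff = ℓ ^ 2 := by
    rw [hM0, leadingCoeff_mul, leadingCoeff_mul, leadingCoeff_pow, hD.leadingCoeff, h0.2.2,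
      hmuu.2.2]
    ring
  have hNu : ∀ i, bt γ b i * Nu D h (s + ε i) u = M0 * u * (bt γ b i * (s + ε i) ^ 3) := by
    intro i
    rw [hM0]
    unfold Nu
    ring
  -- one summand
  have hone : ∀ i, ∑ A : Finset (Fin k), phg (γ i) (b i) (zz (a + e i) D h 0 A) +
      ∑ A : Finset (Fin k), phg (γ i) (b i) (zz (a + e i) D h u A) =
      ((∏ j, γ j)⁻¹) ^ 2 * lc (L * (∏ j, b j) ^ 2)
        (X * (M0 * u * (bt γ b i * (s + ε i) ^ 3)) ^ 2) := by
    intro i
    obtain ⟨p1, p2, p3⟩ := hph i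
    rw [p3, change_den γ b hγ hb i p1, hNu i]
    refine congrArg (fun z : K => ((∏ j, γ j)⁻¹) ^ 2 * z) ?_
    set Y : K[X] := X * (M0 * u * (bt γ b i * (s + ε i) ^ 3)) ^ 2 with hY
    have hadd : L = LL D h (a + e i) u + LL D h (e i) u := by
      have h1 := LL_add D h a (e i) u
      rw [← hLdef] at h1
      rw [h1]
      linear_combination (-(LL D h (e i) u)) * t0
    have hBi : (LL D h (a + e i) u * (∏ j, b j) ^ 2).Monic := p1.mul (hB.pow 2)
    rw [← Pool.Agent.H985.Chow.RT.lc_mul hBi hLm Y]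
    have e1 : Y * L = Y * LL D h (a + e i) u + Y * LL D h (e i) u := by
      conv_lhs => rw [hadd]
      ring
    rw [e1, Pool.Agent.H985.Chow.RT.lc_add]
    have e2 : lc (LL D h (a + e i) u * (∏ j, b j) ^ 2 * L) (Y * LL D h (a + e i) u) =
        lc (L * (∏ j, b j) ^ 2) Y := by
      have e3 : LL D h (a + e i) u * (∏ j, b j) ^ 2 * L =
          L * (∏ j, b j) ^ 2 * LL D h (a + e i) u := by ring
      rw [e3, Pool.Agent.H985.Chow.RT.lc_mul (hLm.mul (hB.pow 2)) p1]
    rw [e2]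
    have e4 : lc (LL D h (a + e i) u * (∏ j, b j) ^ 2 * L) (Y * LL D h (e i) u) = 0 := by
      refine Pool.Agent.H985.Chow.RT.lc_small (hBi.mul hLm) _ ?_
      rw [hBi.natDegree_mul hLm, p1.natDegree_mul (hB.pow 2), hB.natDegree_pow, p2, hLd]
      have f1 : (Y * LL D h (e i) u).natDegree ≤ Y.natDegree + (LL D h (e i) u).natDegree :=
        natDegree_mul_le
      have f2 := LL_deg D h (e i) u (he i) hud hh'
      have f3 : Y.natDegree ≤ 1 + 2 * (M0 * u * (bt γ b i * (s + ε i) ^ 3)).natDegree := by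
        refine natDegree_mul_le.trans ?_
        rw [natDegree_X]
        exact Nat.add_le_add_left natDegree_pow_le _
      have f4 : (M0 * u * (bt γ b i * (s + ε i) ^ 3)).natDegree ≤
          M0.natDegree + τ + ((bt γ b i).natDegree + 3 * (s + ε i).natDegree) := by
        refine natDegree_mul_le.trans (Nat.add_le_add ?_ ?_)
        · exact natDegree_mul_le.trans (Nat.add_le_add_left hud _)
        · exact natDegree_mul_le.trans (Nat.add_le_add_left natDegree_pow_le _)
      have f5 := hcorr i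
      obtain ⟨m, hm2⟩ : ∃ m, 2 ^ k = m + 2 := by
        have : 2 ^ 1 ≤ 2 ^ k := Nat.pow_le_pow_right (by norm_num) hk
        exact ⟨2 ^ k - 2, by omega⟩
      have f6 : (2 ^ k - 2) * D.natDegree = m * D.natDegree := by
        rw [hm2]; simp
      have f7 : 2 ^ k * D.natDegree = m * D.natDegree + 2 * D.natDegree := by
        rw [hm2]; ring
      rw [hBd] at hm f5
      rw [f6] at hm hM0d
      rw [f7] at f2
      set x := m * D.natDegree
      set y := 2 ^ k * d
      set S := ∑ A : Finset (Fin k), (∑ j ∈ A, h j).natDegree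
      omega
    rw [e4, add_zero]
  rw [Finset.sum_congr rfl fun i _ => hone i, ← Finset.mul_sum,
    ← Pool.Agent.H985.Chow.RT.lc_sum, ← Finset.mul_sum, ← sum_sq', ← Finset.mul_sum, ← hZd]
  have hLBm : (L * (∏ j, b j) ^ 2).Monic := hLm.mul (hB.pow 2)
  have hLBd : (L * (∏ j, b j) ^ 2).natDegree = 2 * (2 ^ k * d) + 2 * (∏ j, b j).natDegree := by
    rw [hLm.natDegree_mul (hB.pow 2), hB.natDegree_pow, hLd]
  rw [hBd] at hm
  have hMZ : (M0 * Z).natDegree + τ + 1 = 2 ^ k * d + (∏ j, b j).natDegree := by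
    rw [natDegree_mul (by
      rw [← leadingCoeff_ne_zero, hM0l]
      exact pow_ne_zero 2 hℓ0) hZ, hM0d]
    omega
  have hW : M0 * u * Z = C α * (M0 * Z) * X ^ τ := by
    rw [hu]; ring
  have hWd : (M0 * u * Z).natDegree ≤ (M0 * Z).natDegree + τ := by
    rw [hW]
    refine natDegree_mul_le.trans (Nat.add_le_add (natDegree_C_mul_le α _) ?_)
    rw [natDegree_X_pow]
  have hcoef : (M0 * u * Z).coeff ((M0 * Z).natDegree + τ) = α * (ℓ ^ 2 * Z.leadingCoeff) := by
    rw [hW, coeff_mul_X_pow, coeff_C_mul, coeff_natDegree, leadingCoeff_mul, hM0l]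
  have hlc : lc (L * (∏ j, b j) ^ 2) (X * (M0 * u * Z) ^ 2) =
      (α * (ℓ ^ 2 * Z.leadingCoeff)) ^ 2 := by
    have hd2 : (X * (M0 * u * Z) ^ 2).natDegree < (L * (∏ j, b j) ^ 2).natDegree := by
      have : (X * (M0 * u * Z) ^ 2).natDegree ≤ 1 + 2 * (M0 * u * Z).natDegree := by
        refine natDegree_mul_le.trans ?_
        rw [natDegree_X]
        exact Nat.add_le_add_left natDegree_pow_le _
      omega
    rw [Pool.Agent.H985.Chow.RT.lc_of_deg hLBm _ hd2]
    have e5 : (L * (∏ j, b j) ^ 2).natDegree - 1 = 2 * ((M0 * Z).natDegree + τ) + 1 := by omega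
    rw [e5, mul_comm X, coeff_mul_X, coeff_pow_of_natDegree_le hWd, hcoef]
  rw [hlc, ← mul_pow, Pool.Agent.H985.KP.Loc2.sg_sq]
  refine congrArg sg ?_
  ring

/-- the bound for the degrees -/
noncomputable def TT (γ : Fin n → K) (b e : Fin n → K[X]) : ℕ :=
  ∑ i, ((bt γ b i).natDegree + (e i).natDegree) + (bB γ b).natDegree

omit [CharP K 2] in
lemma TT_le (γ : Fin n → K) (b e : Fin n → K[X]) (i : Fin n) :
    (bt γ b i).natDegree + (e i).natDegree + (bB γ b).natDegree ≤ TT γ b e := by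
  unfold TT
  have h := Finset.single_le_sum (f := fun i => (bt γ b i).natDegree + (e i).natDegree)
    (fun j _ => Nat.zero_le _) (Finset.mem_univ i)
  omega

omit [CharP K 2] in
lemma eps_deg {e D ε : K[X]} (h : ε ^ 2 = derivative (e * D)) :
    2 * ε.natDegree ≤ e.natDegree + D.natDegree := by
  have h1 : (ε ^ 2).natDegree = 2 * ε.natDegree := natDegree_pow ε 2
  have h2 : (derivative (e * D)).natDegree ≤ (e * D).natDegree - 1 := natDegree_derivative_le _
  have h3 : (e * D).natDegree ≤ e.natDegree + D.natDegree := natDegree_mul_le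
  rw [h] at h1
  omega

lemma deriv_odd {f : K[X]} (hodd : Odd f.natDegree) :
    derivative f ≠ 0 ∧ (derivative f).natDegree + 1 = f.natDegree := by
  obtain ⟨m, hm⟩ := hodd
  have hf : f ≠ 0 := by
    rintro rfl
    simp at hm
  have h1 : (derivative f).coeff (2 * m) ≠ 0 := by
    rw [coeff_derivative, ← hm]
    have h2 : ((2 * m : ℕ) : K) = 0 := by
      push_cast
      rw [CharTwo.two_eq_zero, zero_mul]
    rw [h2, zero_add, mul_one]
    exact leadingCoeff_ne_zero.2 hf
  have h3 := le_natDegree_of_ne_zero h1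
  have h4 : (derivative f).natDegree ≤ f.natDegree - 1 := natDegree_derivative_le _
  refine ⟨?_, by omega⟩
  intro h0
  rw [h0] at h1
  simp at h1

end core

end CubeML

open CubeML CubeL in
/-- **Task CUBEM0.** -/
theorem cubem0 : S_cubem0 := by
  intro K _ _ _ n γ b e hγ hb hom
  refine ⟨20 * (TT γ b e + 1), ?_⟩
  intro k d τ a D s h hk hNτ hNd ha had hD hs0 hDs hs hh hsum
  have t0 := two_zero (K := K)
  choose ε hε using fun i => deriv_is_sq (e i * D)
  have hT := TT_le γ b e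
  have hεd := fun i => eps_deg (hε i)
  set T := TT γ b e
  have hZe : ∑ i, bt γ b i * (s + ε i) ^ 3 = om γ b * s ^ 3 +
      ∑ i, bt γ b i * (s ^ 2 * ε i + s * ε i ^ 2 + ε i ^ 3) := by
    unfold om
    rw [Finset.sum_mul, ← Finset.sum_add_distrib]
    refine Finset.sum_congr rfl fun i _ => ?_
    linear_combination (bt γ b i * (s ^ 2 * ε i + s * ε i ^ 2)) * t0
  have hR : (∑ i, bt γ b i * (s ^ 2 * ε i + s * ε i ^ 2 + ε i ^ 3)).natDegree ≤
      3 * s.natDegree - 1 := by
    refine natDegree_sum_le_of_forall_le _ _ fun i _ => ?_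
    have h1 := hT i
    have h2 := hεd i
    have h3 : (s ^ 2 * ε i).natDegree ≤ 2 * s.natDegree + (ε i).natDegree :=
      natDegree_mul_le.trans (Nat.add_le_add_right natDegree_pow_le _)
    have h4 : (s * ε i ^ 2).natDegree ≤ s.natDegree + 2 * (ε i).natDegree :=
      natDegree_mul_le.trans (Nat.add_le_add_left natDegree_pow_le _)
    have h5 : (ε i ^ 3).natDegree ≤ 3 * (ε i).natDegree := natDegree_pow_le
    have h6 : (s ^ 2 * ε i + s * ε i ^ 2 + ε i ^ 3).natDegree ≤
        2 * s.natDegree + (ε i).natDegree :=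
      (natDegree_add_le _ _).trans (max_le ((natDegree_add_le _ _).trans
        (max_le (by omega) (by omega))) (by omega))
    exact natDegree_mul_le.trans (by omega)
  have hs3 : om γ b * s ^ 3 ≠ 0 := mul_ne_zero hom (pow_ne_zero 3 hs0)
  have hmd : (om γ b * s ^ 3).natDegree = (om γ b).natDegree + 3 * s.natDegree := by
    rw [natDegree_mul hom (pow_ne_zero 3 hs0), natDegree_pow]
  have hlt : (∑ i, bt γ b i * (s ^ 2 * ε i + s * ε i ^ 2 + ε i ^ 3)).degree <
      (om γ b * s ^ 3).degree := degree_lt_degree (by omega)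
  have hZd : (∑ i, bt γ b i * (s + ε i) ^ 3).natDegree = (om γ b).natDegree + 3 * s.natDegree := by
    rw [hZe, natDegree_add_eq_left_of_degree_lt hlt, hmd]
  have hZ0 : ∑ i, bt γ b i * (s + ε i) ^ 3 ≠ 0 := by
    intro h0
    rw [h0, natDegree_zero] at hZd
    omega
  have hsε : ∀ i, (s + ε i).natDegree ≤ s.natDegree := by
    intro i
    have h1 := hT i
    have h2 := hεd i
    exact (natDegree_add_le _ _).trans (max_le le_rfl (by omega))
  refine core γ b e hγ hb a D s h hk ha had hD hs hh (fun i => ?_) (fun i => ?_) ε hε _ rfl hZ0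
    ?_ (fun i => ?_)
  · have := hT i; omega
  · have := hT i; omega
  · rw [hZd]
    omega
  · rw [hZd]
    have h1 := hT i
    have h2 := hsε i
    omega

open CubeML CubeL in
/-- **Task CUBEM1.** -/
theorem cubem1 : S_cubem1 := by
  intro K _ _ _ n γ b e hγ hb hom hp1
  refine ⟨20 * (TT γ b e + 1), ?_⟩
  intro k d τ a D s h hk hNτ hNd ha had hD hs0 hDs hs hodd hh hsum
  have t0 := two_zero (K := K)
  choose ε hε using fun i => deriv_is_sq (e i * D)
  have hT := TT_le γ b e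
  have hεd := fun i => eps_deg (hε i)
  set T := TT γ b e
  set q : K[X] := ∑ i, bt γ b i * ε i with hq
  have hq2 : q ^ 2 = derivative (p1 γ b e * D) := by
    rw [hq, sum_sq']
    unfold p1
    rw [Finset.sum_mul, derivative_sum]
    refine Finset.sum_congr rfl fun i _ => ?_
    have e1 : e i * bt γ b i ^ 2 * D = bt γ b i ^ 2 * (e i * D) := by ring
    rw [e1, derivative_mul (f := bt γ b i ^ 2), deriv_sq, ← hε]
    ring
  have hpD : (p1 γ b e * D).natDegree = (p1 γ b e).natDegree + D.natDegree :=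
    natDegree_mul hp1 hD.ne_zero
  obtain ⟨hd0, hd1⟩ := deriv_odd (f := p1 γ b e * D) (by
    rw [hpD, add_comm]; exact hodd)
  rw [← hq2] at hd0 hd1
  have hq0 : q ≠ 0 := by
    rintro h0
    rw [h0] at hd0
    simp at hd0
  have hqd : 2 * q.natDegree + 1 = (p1 γ b e).natDegree + D.natDegree := by
    rw [natDegree_pow, hpD] at hd1
    exact hd1
  have hZe : ∑ i, bt γ b i * (s + ε i) ^ 3 = s ^ 2 * q +
      ∑ i, bt γ b i * (s * ε i ^ 2 + ε i ^ 3) := by
    have h1 : ∑ i, bt γ b i * (s + ε i) ^ 3 = om γ b * s ^ 3 + (s ^ 2 * q +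
        ∑ i, bt γ b i * (s * ε i ^ 2 + ε i ^ 3)) := by
      unfold om
      rw [hq, Finset.sum_mul, Finset.mul_sum, ← Finset.sum_add_distrib, ← Finset.sum_add_distrib]
      refine Finset.sum_congr rfl fun i _ => ?_
      linear_combination (bt γ b i * (s ^ 2 * ε i + s * ε i ^ 2)) * t0
    rw [h1, hom, zero_mul, zero_add]
  have hmd : (s ^ 2 * q).natDegree = 2 * s.natDegree + q.natDegree := by
    rw [natDegree_mul (pow_ne_zero 2 hs0) hq0, natDegree_pow]
  have hR : (∑ i, bt γ b i * (s * ε i ^ 2 + ε i ^ 3)).natDegree ≤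
      2 * s.natDegree + q.natDegree - 1 := by
    refine natDegree_sum_le_of_forall_le _ _ fun i _ => ?_
    have h1 := hT i
    have h2 := hεd i
    have h4 : (s * ε i ^ 2).natDegree ≤ s.natDegree + 2 * (ε i).natDegree :=
      natDegree_mul_le.trans (Nat.add_le_add_left natDegree_pow_le _)
    have h5 : (ε i ^ 3).natDegree ≤ 3 * (ε i).natDegree := natDegree_pow_le
    have h6 : (s * ε i ^ 2 + ε i ^ 3).natDegree ≤ s.natDegree + 2 * (ε i).natDegree :=
      (natDegree_add_le _ _).trans (max_le (by omega) (by omega))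
    exact natDegree_mul_le.trans (by omega)
  have hlt : (∑ i, bt γ b i * (s * ε i ^ 2 + ε i ^ 3)).degree < (s ^ 2 * q).degree :=
    degree_lt_degree (by omega)
  have hZd : (∑ i, bt γ b i * (s + ε i) ^ 3).natDegree = 2 * s.natDegree + q.natDegree := by
    rw [hZe, natDegree_add_eq_left_of_degree_lt hlt, hmd]
  have hZ0 : ∑ i, bt γ b i * (s + ε i) ^ 3 ≠ 0 := by
    intro h0
    rw [h0, natDegree_zero] at hZd
    omega
  have hsε : ∀ i, (s + ε i).natDegree ≤ s.natDegree := by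
    intro i
    have h1 := hT i
    have h2 := hεd i
    exact (natDegree_add_le _ _).trans (max_le le_rfl (by omega))
  refine core γ b e hγ hb a D s h hk ha had hD hs hh (fun i => ?_) (fun i => ?_) ε hε _ rfl hZ0
    ?_ (fun i => ?_)
  · have := hT i; omega
  · have := hT i; omega
  · rw [hZd]
    obtain ⟨m, hm2⟩ : ∃ m, 2 ^ k = m + 2 := by
      have : 2 ^ 1 ≤ 2 ^ k := Nat.pow_le_pow_right (by norm_num) hk
      exact ⟨2 ^ k - 2, by omega⟩
    have f6 : (2 ^ k - 2) * D.natDegree = m * D.natDegree := by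
      rw [hm2]; simp
    have f7 : (2 * 2 ^ k - 3) * D.natDegree = 2 * (m * D.natDegree) + D.natDegree := by
      have : 2 * 2 ^ k - 3 = 2 * m + 1 := by omega
      rw [this]; ring
    have f8 : 2 * 2 ^ k * d = 2 * (2 ^ k * d) := by ring
    rw [f7, f8] at hsum
    rw [f6]
    omega
  · rw [hZd]
    have h1 := hT i
    have h2 := hsε i
    omega

end Pool.Agent.H604.LD
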