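import Pool.Agent.H604.LD.Far2U

/-! Task FAR2G (version 2 of the statement): from the uniform version. -/

set_option autoImplicit false
set_option linter.all false

open scoped Classical
open Finset Polynomial

namespace Pool.Agent.H604.LD

open Pool.Agent.H694.Typ (Mn mem_Mn q_ge)

theorem AsU_zero {K : Type} [Field K] [Fintype K] {d : ℕ} {M a₀ g : K[X]} (hg : g.Monic)
    (hd : g.natDegree = d) : AsU K d M a₀ g 0 = As K d M a₀ := by
  unfold AsU
  rw [filter_eq_self]
  intro a ha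
  unfold As at ha
  rw [mem_filter, mem_Mn] at ha
  have h1 : a.degree = (d : WithBot ℕ) := by
    rw [degree_eq_natDegree ha.1.1.ne_zero, ha.1.2]
  have h2 : g.degree = (d : WithBot ℕ) := by rw [degree_eq_natDegree hg.ne_zero, hd]
  have h3 := degree_sub_lt (h1.trans h2.symm) ha.1.1.ne_zero
    (ha.1.1.leadingCoeff.trans hg.leadingCoeff.symm)
  rw [h1] at h3
  exact h3

theorem far2g_of_far2u (hu : S_far2u) : S_far2g := by
  intro K _ _ _ γ b M a₀ α A C κ hdat hκ
  obtain ⟨θ, hθ, d₁, h⟩ := hu K A C κ hκ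
  have hq := q_ge (k := K)
  obtain ⟨d₂, hd₂⟩ := exists_nat_ge ((M.natDegree : ℝ) / θ)
  refine ⟨θ, hθ, max d₁ d₂, ?_⟩
  intro d z j U hd hU hle
  have hd0 : (0 : ℝ) ≤ d := Nat.cast_nonneg d
  have hMθ : ((M.natDegree + 0 : ℕ) : ℝ) ≤ θ * d := by
    have h1 : (d₂ : ℝ) ≤ d := by exact_mod_cast (le_max_right _ _).trans hd
    have h2 := hd₂.trans h1
    rw [div_le_iff₀ hθ] at h2
    rw [add_zero]
    linarith
  have hX : (X ^ d : K[X]).Monic := monic_X_pow d
  have hXd : (X ^ d : K[X]).natDegree = d := natDegree_X_pow d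
  have h1 := h γ b M a₀ α (X ^ d) 0 d z j U ⟨hdat, hX, hXd⟩ ((le_max_left _ _).trans hd) hU hMθ hle
  have h2 : NmU γ b M a₀ α (X ^ d) 0 d j z U = NmG γ b M a₀ α d j z U := by
    unfold NmU NmG
    rw [AsU_zero hX hXd]
  rw [h2] at h1
  refine h1.trans (Real.rpow_le_rpow_of_exponent_le (by linarith) ?_)
  refine mul_le_mul_of_nonneg_right ?_ hd0
  linarith

theorem far2g (hw : S_weylu) : S_far2g := far2g_of_far2u (far2u hw)

end Pool.Agent.H604.LD
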