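import Pool.Agent.H604.LD.StmU
import Pool.Agent.H604.LD.DatL
import Pool.Agent.H604.LD.Far2

/-! Task FAR2U: the far twisted sums, uniform version. -/

set_option autoImplicit false
set_option linter.all false

open scoped Classical
open Finset Polynomial

namespace Pool.Agent.H604.LD

open Pool.Agent.H985.Chow (mob lc)
open Pool.Agent.H985.KP (sg PA mobg Good2 S_typ2)
open Pool.Agent.H694.Typ (Mn PU mem_Mn card_dvd_le card_Mn wt mem_PU wt_nonneg wt_add coprime_of_ne q_ge)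

namespace Far2U

open Far2

variable {K : Type} [Field K] [Fintype K]

theorem fa_dvd {γ : K} {b a r G : K[X]} (h : G ∣ a - r) (h2 : G ∣ fa γ b r) : G ∣ fa γ b a := by
  have h3 : fa γ b a = fa γ b r + (a - r) * (a + r) := by unfold fa; ring
  rw [h3]
  exact dvd_add h2 (h.mul_right _)

theorem mem_AsU {d l : ℕ} {M a₀ g a : K[X]} :
    a ∈ AsU K d M a₀ g l ↔ ((a.Monic ∧ a.natDegree = d) ∧ M ∣ a - a₀) ∧
      (a - g).degree < ((d - l : ℕ) : WithBot ℕ) := by
  unfold AsU As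
  rw [mem_filter, mem_filter, mem_Mn]

/-- a representative near `g` of the class of the root -/
theorem root_exists [CharP K 2] {γ : K} {b M a₀ g G : K[X]} {d : ℕ} (hg : g.Monic)
    (hgd : g.natDegree = d) (hM : M.Monic) (hG : G.Monic)
    (hsq : Squarefree G) (hc : IsCoprime M G) (hd : (M * G).natDegree ≤ d) :
    ∃ r : K[X], r.Monic ∧ r.natDegree = d ∧ (r - g).degree < (M * G).degree ∧ M ∣ r - a₀ ∧
      G ∣ fa γ b r := by
  obtain ⟨r₁, -, h1⟩ := sqrt_exists hG hsq (X * (C γ * b) ^ 2)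
  obtain ⟨u, v, huv⟩ := hc
  have hMG : (M * G).Monic := hM.mul hG
  set r₂ : K[X] := r₁ * (u * M) + a₀ * (v * G) with hr₂
  have h2 : G ∣ r₂ - r₁ := by
    refine ⟨v * (a₀ - r₁), ?_⟩
    have : r₂ - r₁ = r₁ * (u * M) + a₀ * (v * G) - r₁ * (u * M + v * G) := by
      rw [huv, hr₂]; ring
    rw [this]; ring
  have h3 : M ∣ r₂ - a₀ := by
    refine ⟨u * (r₁ - a₀), ?_⟩
    have : r₂ - a₀ = r₁ * (u * M) + a₀ * (v * G) - a₀ * (u * M + v * G) := by
      rw [huv, hr₂]; ring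
    rw [this]; ring
  set r₃ : K[X] := (r₂ - g) %ₘ (M * G) with hr₃
  have h4 : M * G ∣ (g + r₃) - r₂ := by
    refine ⟨-((r₂ - g) /ₘ (M * G)), ?_⟩
    have := modByMonic_add_div (r₂ - g) (M * G)
    have h5 : r₃ = r₂ - g - M * G * ((r₂ - g) /ₘ (M * G)) := by
      rw [eq_sub_iff_add_eq]; exact this
    rw [h5]; ring
  have hdeg : r₃.degree < (M * G).degree := degree_modByMonic_lt _ hMG
  have hlt : r₃.degree < g.degree := by
    refine hdeg.trans_le ?_
    rw [degree_eq_natDegree hMG.ne_zero, degree_eq_natDegree hg.ne_zero, hgd]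
    exact_mod_cast hd
  refine ⟨g + r₃, hg.add_of_left hlt, ?_, ?_, ?_, ?_⟩
  · rw [← hgd]; exact natDegree_add_eq_left_of_degree_lt hlt
  · rwa [add_sub_cancel_left]
  · have h5 := dvd_add ((dvd_mul_right M G).trans h4) h3
    rwa [sub_add_sub_cancel] at h5
  · refine fa_dvd ?_ (show G ∣ fa γ b r₁ from h1)
    have h5 := dvd_add ((dvd_mul_left G M).trans h4) h2
    rwa [sub_add_sub_cancel] at h5

theorem sum_resU [CharP K 2] {γ : K} {b M a₀ g G r : K[X]} {d l : ℕ} (hM : M.Monic) (hG : G.Monic)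
    (hsq : Squarefree G) (hMG : IsCoprime M G) (hd : (M * G).natDegree + l ≤ d)
    (hgm : g.Monic) (hgd : g.natDegree = d)
    (hr : (r - g).degree < (M * G).degree) (hrM : M ∣ r - a₀) (hr2 : G ∣ fa γ b r)
    (F : K[X] → ℝ) :
    ∑ a ∈ (AsU K d M a₀ g l).filter (fun a => G ∣ fa γ b a), F a =
      ∑ᶠ c ∈ {c : K[X] | c.degree < ((d - l - (M * G).natDegree : ℕ) : WithBot ℕ)},
        F (r + M * G * c) := by
  symm
  have hMGm : (M * G).Monic := hM.mul hG
  have hMG0 : M * G ≠ 0 := hMGm.ne_zero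
  have hdl : (M * G).natDegree ≤ d - l := by omega
  -- degree criterion
  have hdegc : ∀ c : K[X], (M * G * c).degree < ((d - l : ℕ) : WithBot ℕ) ↔
      c.degree < ((d - l - (M * G).natDegree : ℕ) : WithBot ℕ) := by
    intro c
    by_cases hc : c = 0
    · rw [hc, mul_zero, degree_zero]
      exact ⟨fun _ => WithBot.bot_lt_coe _, fun _ => WithBot.bot_lt_coe _⟩
    · rw [degree_eq_natDegree (mul_ne_zero hMG0 hc), degree_eq_natDegree hc,
        natDegree_mul hMG0 hc, Nat.cast_lt, Nat.cast_lt]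
      omega
  have hrg : (r - g).degree < ((d - l : ℕ) : WithBot ℕ) := by
    refine hr.trans_le ?_
    rw [degree_eq_natDegree hMG0]
    exact_mod_cast hdl
  rw [← finsum_mem_coe_finset]
  refine finsum_mem_eq_of_bijOn (fun c => r + M * G * c) ⟨?_, ?_, ?_⟩ (fun _ _ => rfl)
  · intro c hc
    have hc' : c.degree < ((d - l - (M * G).natDegree : ℕ) : WithBot ℕ) := hc
    have h1 : (r + M * G * c - g).degree < ((d - l : ℕ) : WithBot ℕ) := by
      have h2 : r + M * G * c - g = (r - g) + M * G * c := by ring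
      rw [h2]
      exact (degree_add_le _ _).trans_lt (max_lt hrg ((hdegc c).2 hc'))
    have h2 : (r + M * G * c - g).degree < g.degree := by
      refine h1.trans_le ?_
      rw [degree_eq_natDegree hgm.ne_zero, hgd]
      exact_mod_cast Nat.sub_le d l
    have h3 : r + M * G * c = g + (r + M * G * c - g) := by ring
    show r + M * G * c ∈ (((AsU K d M a₀ g l).filter (fun a => G ∣ fa γ b a) : Finset K[X]) : Set K[X])
    rw [mem_coe, mem_filter, mem_AsU]
    refine ⟨⟨⟨⟨?_, ?_⟩, ?_⟩, h1⟩, ?_⟩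
    · rw [h3]; exact hgm.add_of_left h2
    · rw [h3, ← hgd]; exact natDegree_add_eq_left_of_degree_lt h2
    · have h5 : r + M * G * c - a₀ = M * (G * c) + (r - a₀) := by ring
      rw [h5]
      exact dvd_add (dvd_mul_right _ _) hrM
    · refine fa_dvd ?_ hr2
      have h5 : r + M * G * c - r = G * (M * c) := by ring
      rw [h5]
      exact dvd_mul_right _ _
  · intro c _ c' _ h
    exact mul_left_cancel₀ hMG0 (add_left_cancel h)
  · intro a ha
    rw [mem_coe, mem_filter, mem_AsU] at ha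
    have h3 : G ∣ a ^ 2 - r ^ 2 := by
      have h4 := dvd_sub ha.2 hr2
      have h5 : a ^ 2 - r ^ 2 = fa γ b a - fa γ b r := by unfold fa; ring
      rw [h5]; exact h4
    have h4 : G ∣ a - r := dvd_sub_of_sq hsq h3
    have h5 : M ∣ a - r := by
      have := dvd_sub ha.1.1.2 hrM
      rwa [sub_sub_sub_cancel_right] at this
    obtain ⟨c, hc⟩ := hMG.mul_dvd h5 h4
    refine ⟨c, ?_, ?_⟩
    · show c.degree < _
      rw [← hdegc, ← hc]
      have h6 : a - r = (a - g) - (r - g) := by ring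
      rw [h6]
      exact (degree_sub_le _ _).trans_lt (max_lt ha.1.2 hrg)
    · show r + M * G * c = a
      rw [← hc]; ring

/-- the inner sum -/
theorem innerU [CharP K 2] {γ : K} {b M a₀ α g : K[X]} {l d : ℕ} (hdat : DatU γ b M a₀ α g d)
    {κ θ c : ℝ}
    (hw : ∀ (L : ℕ) (D r : K[X]), D.Monic → b ^ 5 ∣ D → r.Monic → r.natDegree = d →
      IsCoprime r b → κ * d ≤ L → D.natDegree + L ≤ d → (d : ℝ) ≤ D.natDegree + L + θ * d →
      |∑ᶠ c ∈ {c : K[X] | c.degree < (L : WithBot ℕ)}, (mob (fa γ b (r + D * c)) : ℝ)| ≤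
        (Fintype.card K : ℝ) ^ ((L : ℝ) - c * d))
    (hκ : 0 < κ) {D : K[X]} {T : Finset K[X]} (hD : D.Monic) (hD2 : Squarefree D) (hT : MI T)
    (hl : (l : ℝ) ≤ θ * d)
    (h : (M.natDegree + (D.natDegree + ∑ P ∈ T, P.natDegree) + l : ℝ) ≤ (1 - κ) * d) :
    |∑ a ∈ (AsU K d M a₀ g l).filter (fun a => D ∣ ga γ b α a ∧ ∀ P ∈ T, P ∣ ga γ b α a),
      (mob (fa γ b a) : ℝ)| ≤
      (Fintype.card K : ℝ) ^ ((d : ℝ) - c * d) * (wt K D.natDegree *
        wt K (ET (T.filter fun P => ¬ P ∣ D)).natDegree) := by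
  have hq : (1 : ℝ) ≤ Fintype.card K := by
    have := q_ge (k := K)
    linarith
  have hq0 : (0 : ℝ) < Fintype.card K := by linarith
  have hG := GG_monic hD hT
  have hGs := GG_sqf hD2 hT
  have hGd := GG_deg hD hT
  by_cases hcop : IsCoprime M (GG D T)
  swap
  · rw [filter_eq_empty_iff.2 (fun a ha h1 => hcop ?_), sum_empty, abs_zero]
    · exact mul_nonneg (Real.rpow_nonneg hq0.le _) (mul_nonneg (wt_nonneg _) (wt_nonneg _))
    · exact ((hdat.dat.dvd_ga_iff (mem_AsU.1 ha).1.2 (GG D T)).1 ((GG_dvd hT _).2 h1)).2.symm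
  have hfil : (AsU K d M a₀ g l).filter (fun a => D ∣ ga γ b α a ∧ ∀ P ∈ T, P ∣ ga γ b α a) =
      (AsU K d M a₀ g l).filter (fun a => GG D T ∣ fa γ b a) := by
    refine filter_congr fun a ha => ?_
    rw [← GG_dvd hT, hdat.dat.dvd_ga_iff (mem_AsU.1 ha).1.2]
    exact ⟨fun h => h.1, fun h => ⟨h, hcop.symm⟩⟩
  rw [hfil]
  have hMG : (M * GG D T).Monic := hdat.dat.hM.mul hG
  have hMGd : (M * GG D T).natDegree = M.natDegree + (GG D T).natDegree :=
    hdat.dat.hM.natDegree_mul hG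
  have hE : (ET (T.filter fun P => ¬ P ∣ D)).natDegree ≤ ∑ P ∈ T, P.natDegree := by
    rw [ET_deg (hT.sub (filter_subset _ _))]
    exact sum_le_sum_of_subset (filter_subset _ _)
  have hGle : ((M * GG D T).natDegree : ℝ) + l ≤ (1 - κ) * d := by
    refine le_trans ?_ h
    rw [hMGd, hGd]
    push_cast
    have : ((ET (T.filter fun P => ¬ P ∣ D)).natDegree : ℝ) ≤ ((∑ P ∈ T, P.natDegree : ℕ) : ℝ) := by
      exact_mod_cast hE
    push_cast at this
    linarith
  have hd0 : (0 : ℝ) ≤ d := Nat.cast_nonneg d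
  have hGd' : (M * GG D T).natDegree + l ≤ d := by
    have : ((M * GG D T).natDegree : ℝ) + l ≤ d := by nlinarith
    exact_mod_cast this
  obtain ⟨r, hrm, hrd, hr, hrM, hr2⟩ := root_exists (γ := γ) (b := b) (a₀ := a₀) hdat.hg hdat.hd
    hdat.dat.hM hG hGs hcop (by omega)
  rw [sum_resU hdat.dat.hM hG hGs hcop hGd' hdat.hg hdat.hd hr hrM hr2]
  have hL : (((d - l - (M * GG D T).natDegree : ℕ) : ℕ) : ℝ) =
      (d : ℝ) - l - (M * GG D T).natDegree := by
    rw [Nat.cast_sub (by omega), Nat.cast_sub (by omega)]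
  refine (hw _ _ r hMG (hdat.dat.hbM.trans (dvd_mul_right _ _)) hrm hrd (hdat.dat.cop_b hrM)
    ?_ ?_ ?_).trans ?_
  · rw [hL]; linarith
  · omega
  · rw [hL]; linarith
  have e1 : (Fintype.card K : ℝ) ^ ((d : ℝ) - c * d) * (wt K D.natDegree *
        wt K (ET (T.filter fun P => ¬ P ∣ D)).natDegree) =
      (Fintype.card K : ℝ) ^ (((d : ℝ) - c * d) - (((GG D T).natDegree : ℕ) : ℝ)) := by
    symm
    rw [Real.rpow_sub hq0 ((d : ℝ) - c * d), Real.rpow_natCast, hGd, pow_add, div_eq_mul_inv,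
      mul_inv]
    rfl
  rw [e1]
  refine Real.rpow_le_rpow_of_exponent_le hq ?_
  rw [hL, hMGd]
  push_cast
  have h1 : (0 : ℝ) ≤ M.natDegree := Nat.cast_nonneg _
  have h2 : (0 : ℝ) ≤ l := Nat.cast_nonneg _
  linarith

theorem NmU_eq [CharP K 2] {γ : K} {b M a₀ α g : K[X]} {l d : ℕ} (hdat : DatU γ b M a₀ α g d)
    (j z : ℕ) (U : Finset K[X] → ℝ) :
    NmU γ b M a₀ α g l d j z U = (mob α : ℝ) * ∑ D ∈ Mn K j, ∑ T ∈ (Pz K z).powerset,
      U T * (mob D : ℝ) *
      ∑ a ∈ (AsU K d M a₀ g l).filter (fun a => D ∣ ga γ b α a ∧ ∀ P ∈ T, P ∣ ga γ b α a),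
        (mob (fa γ b a) : ℝ) := by
  unfold NmU
  have e1 : ∀ a ∈ AsU K d M a₀ g l, ∑ D ∈ (Mn K j).filter (fun D => D ∣ ga γ b α a),
      (mob D : ℝ) * (mob (ga γ b α a) : ℝ) * bw z U (ga γ b α a) =
      ∑ D ∈ Mn K j, ∑ T ∈ (Pz K z).powerset, (mob α : ℝ) * (
        if D ∣ ga γ b α a ∧ ∀ P ∈ T, P ∣ ga γ b α a then
          U T * (mob D : ℝ) * (mob (fa γ b a) : ℝ) else 0) := by
    intro a ha
    have hm : (mob (ga γ b α a) : ℝ) = (mob α : ℝ) * (mob (fa γ b a) : ℝ) := by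
      rw [hdat.dat.mob_ga' (mem_AsU.1 ha).1.2]
      push_cast
      ring
    rw [sum_filter]
    refine sum_congr rfl fun D _ => ?_
    by_cases h : D ∣ ga γ b α a
    · rw [if_pos h, bw_eq, mul_sum]
      refine sum_congr rfl fun T _ => ?_
      by_cases h2 : ∀ P ∈ T, P ∣ ga γ b α a
      · rw [if_pos h2, if_pos ⟨h, h2⟩, hm]; ring
      · rw [if_neg h2, if_neg (fun h3 => h2 h3.2), mul_zero, mul_zero]
    · rw [if_neg h]
      symm
      exact sum_eq_zero fun T _ => by rw [if_neg (fun h3 => h h3.1), mul_zero]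
  rw [sum_congr rfl e1, sum_comm, mul_sum]
  refine sum_congr rfl fun D _ => ?_
  rw [sum_comm, mul_sum]
  refine sum_congr rfl fun T _ => ?_
  rw [← mul_sum, ← sum_filter]
  exact congrArg _ (mul_sum _ _ _).symm

end Far2U

open Far2 Far2U in
theorem far2u (hw : S_weylu) : S_far2u := by
  intro K _ _ _ A C κ hκ
  obtain ⟨c, θ', hc, hθ', d₁, hd₁⟩ := hw K (κ / 2) (by positivity)
  have hq := q_ge (k := K)
  have hq0 : (0 : ℝ) < Fintype.card K := by linarith
  have hq1 : (1 : ℝ) < (Fintype.card K : ℝ) ^ (c / 2) := by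
    exact Real.one_lt_rpow (by linarith) (by positivity)
  have ht := tendsto_pow_const_div_const_pow_of_one_lt 2 hq1
  have hev := (ht.eventually (eventually_le_nhds (show (0 : ℝ) < 1 / 4 by norm_num))).and
    (Filter.eventually_ge_atTop 1)
  obtain ⟨d₂, hd₂⟩ := Filter.eventually_atTop.1 hev
  refine ⟨min (κ / 2) (min θ' (c / 4)), by positivity, max d₁ d₂, ?_⟩
  intro γ b M a₀ α g l d z j U hdat hd hU hMl hle
  have hd0 : (0 : ℝ) ≤ d := Nat.cast_nonneg d
  have hθ1 : min (κ / 2) (min θ' (c / 4)) ≤ κ / 2 := min_le_left _ _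
  have hθ2 : min (κ / 2) (min θ' (c / 4)) ≤ θ' := (min_le_right _ _).trans (min_le_left _ _)
  have hθ3 : min (κ / 2) (min θ' (c / 4)) ≤ c / 4 := (min_le_right _ _).trans (min_le_right _ _)
  set θ : ℝ := min (κ / 2) (min θ' (c / 4)) with hθ
  have hw' : ∀ (L : ℕ) (D r : K[X]), D.Monic → b ^ 5 ∣ D → r.Monic → r.natDegree = d →
      IsCoprime r b → κ / 2 * d ≤ L → D.natDegree + L ≤ d →
      (d : ℝ) ≤ D.natDegree + L + θ' * d →
      |∑ᶠ c ∈ {c : K[X] | c.degree < (L : WithBot ℕ)}, (mob (fa γ b (r + D * c)) : ℝ)| ≤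
        (Fintype.card K : ℝ) ^ ((L : ℝ) - c * d) := by
    intro L D r h1 h2 h3 h4 h5 h6 h7 h8
    exact hd₁ d L γ b D r ((le_max_left _ _).trans hd) hdat.dat.γ0 hdat.dat.hb h1 h2 h3 h4 h5
      h6 h7 h8
  obtain ⟨h2a, h2b⟩ := hd₂ d ((le_max_right _ _).trans hd)
  have hMl1 : (M.natDegree : ℝ) + l ≤ κ / 2 * d := by
    have h1 := hMl.trans (mul_le_mul_of_nonneg_right hθ1 hd0)
    push_cast at h1
    linarith
  have hl : (l : ℝ) ≤ θ' * d := by
    have h1 := hMl.trans (mul_le_mul_of_nonneg_right hθ2 hd0)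
    push_cast at h1
    have h2 : (0 : ℝ) ≤ M.natDegree := Nat.cast_nonneg _
    linarith
  obtain ⟨hU1, -, hU3, -, -⟩ := hU
  set Q : ℝ := (Fintype.card K : ℝ) ^ ((d : ℝ) - c * d) with hQ
  have hQ0 : 0 < Q := Real.rpow_pos_of_pos hq0 _
  have hB : ((A * z : ℕ) : ℝ) ≤ d := by
    push_cast at hle ⊢
    have : (0:ℝ) ≤ j := Nat.cast_nonneg j
    nlinarith
  -- the terms
  have hterm : ∀ D ∈ Mn K j, ∀ T ∈ (Pz K z).powerset, |U T * (mob D : ℝ) *
      ∑ a ∈ (AsU K d M a₀ g l).filter (fun a => D ∣ ga γ b α a ∧ ∀ P ∈ T, P ∣ ga γ b α a),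
        (mob (fa γ b a) : ℝ)| ≤ if T ∈ TT K z (A * z) then
          Q * (wt K j * wt K (ET (T.filter fun P => ¬ P ∣ D)).natDegree) else 0 := by
    intro D hD T hT
    have hD' := mem_Mn.1 hD
    by_cases hUT : U T = 0
    · rw [hUT, zero_mul, zero_mul, abs_zero]
      split_ifs
      · exact mul_nonneg hQ0.le (mul_nonneg (wt_nonneg _) (wt_nonneg _))
      · exact le_rfl
    · have h3 := hU3 T hUT
      have h4 : T ∈ TT K z (A * z) := mem_TT.2 h3
      rw [if_pos h4]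
      by_cases hDs : Squarefree D
      · have h5 : (M.natDegree + (D.natDegree + ∑ P ∈ T, P.natDegree) + l : ℝ) ≤
            (1 - κ / 2) * d := by
          rw [hD'.2]
          push_cast at hle ⊢
          have : ((∑ P ∈ T, P.natDegree : ℕ) : ℝ) ≤ ((A * z : ℕ) : ℝ) := by exact_mod_cast h3.2
          push_cast at this
          linarith
        have h6 := innerU hdat hw' (by positivity) hD'.1 hDs (TT_MI h4) hl h5
        rw [hD'.2] at h6
        rw [abs_mul, abs_mul]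
        calc |U T| * |(mob D : ℝ)| * _ ≤ 1 * 1 * _ := by
              refine mul_le_mul (mul_le_mul (hU1 T) (mob_le D) (abs_nonneg _) (by norm_num)) h6
                (abs_nonneg _) (by norm_num)
          _ = _ := by rw [one_mul, one_mul]
      · have h5 : (mob D : ℝ) = 0 := by
          unfold mob; rw [if_neg hDs]; simp
        rw [h5, mul_zero, zero_mul, abs_zero]
        exact mul_nonneg hQ0.le (mul_nonneg (wt_nonneg _) (wt_nonneg _))
  have hmain : |NmU γ b M a₀ α g l d j z U| ≤ Q * (((A * z : ℕ) : ℝ) + 1) ^ 2 := by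
    rw [NmU_eq hdat, abs_mul]
    refine (mul_le_of_le_one_left (abs_nonneg _) (mob_le α)).trans ?_
    refine (abs_sum_le_sum_abs _ _).trans ?_
    calc ∑ D ∈ Mn K j, |∑ T ∈ (Pz K z).powerset, U T * (mob D : ℝ) *
          ∑ a ∈ (AsU K d M a₀ g l).filter (fun a => D ∣ ga γ b α a ∧ ∀ P ∈ T, P ∣ ga γ b α a),
            (mob (fa γ b a) : ℝ)|
        ≤ ∑ D ∈ Mn K j, ∑ T ∈ (Pz K z).powerset, (if T ∈ TT K z (A * z) then
          Q * (wt K j * wt K (ET (T.filter fun P => ¬ P ∣ D)).natDegree) else 0) :=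
          sum_le_sum fun D hD => (abs_sum_le_sum_abs _ _).trans (sum_le_sum fun T hT => hterm D hD T hT)
      _ = ∑ D ∈ Mn K j, ∑ T ∈ TT K z (A * z),
          Q * (wt K j * wt K (ET (T.filter fun P => ¬ P ∣ D)).natDegree) := by
          refine sum_congr rfl fun D _ => ?_
          rw [← sum_filter]
          refine sum_congr ?_ fun _ _ => rfl
          ext T
          rw [mem_filter]
          exact ⟨fun h => h.2, fun h => ⟨mem_powerset.2 (mem_TT.1 h).1, h⟩⟩
      _ = Q * ∑ D ∈ Mn K j, ∑ T ∈ TT K z (A * z),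
          wt K j * wt K (ET (T.filter fun P => ¬ P ∣ D)).natDegree := by
          rw [mul_sum]
          exact sum_congr rfl fun D _ => by rw [mul_sum]
      _ ≤ Q * (((A * z : ℕ) : ℝ) + 1) ^ 2 := mul_le_mul_of_nonneg_left (dens z (A * z) j) hQ0.le
  refine hmain.trans ?_
  have hd1 : (1 : ℝ) ≤ d := by exact_mod_cast h2b
  have h7 : (((A * z : ℕ) : ℝ) + 1) ^ 2 ≤ 4 * (d : ℝ) ^ 2 := by
    have : (0:ℝ) ≤ ((A * z : ℕ) : ℝ) := Nat.cast_nonneg _
    nlinarith
  have hpow : (0 : ℝ) < ((Fintype.card K : ℝ) ^ (c / 2)) ^ d := by positivity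
  have h8 : 4 * (d : ℝ) ^ 2 ≤ ((Fintype.card K : ℝ) ^ (c / 2)) ^ d := by
    rw [div_le_iff₀ hpow] at h2a
    linarith
  have h9 : Q * ((Fintype.card K : ℝ) ^ (c / 2)) ^ d = (Fintype.card K : ℝ) ^ ((1 - c / 2) * d) := by
    rw [hQ, ← Real.rpow_natCast, ← Real.rpow_mul hq0.le, ← Real.rpow_add hq0]
    congr 1; ring
  have h10 : (Fintype.card K : ℝ) ^ ((1 - c / 2) * d) ≤ (Fintype.card K : ℝ) ^ ((1 - 2 * θ) * d) := by
    refine Real.rpow_le_rpow_of_exponent_le (by linarith) ?_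
    refine mul_le_mul_of_nonneg_right ?_ hd0
    linarith
  refine le_trans ?_ h10
  rw [← h9]
  exact mul_le_mul_of_nonneg_left (h7.trans h8) hQ0.le

end Pool.Agent.H604.LD
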