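import Pool.Agent.H604.LD.StmG
import Pool.Agent.H604.LD.Fin

/-!
# Task FING: the assembly, general case
-/

set_option autoImplicit false
set_option linter.unusedSectionVars false

namespace Pool.Agent.H604.LD

open Polynomial
open scoped Classical
open Pool.Agent.H985.Chow (mob lc)
open Pool.Agent.H985.KP (sg PA mobg Good2 S_typ2)
open Pool.Agent.H694.Typ (Mn PU mem_Mn mem_PU)

namespace FING

open FIN

section

variable {K : Type} [Field K] [Fintype K] [CharP K 2] {γ : K} {b M a₀ α : K[X]}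

theorem fa_der (a : K[X]) : derivative (fa γ b a) = (C γ * b) ^ 2 := by
  have h2 : ((2 : ℕ) : K) = 0 := by exact_mod_cast CharP.cast_eq_zero K 2
  unfold fa
  rw [derivative_add, derivative_mul, derivative_X, derivative_pow, derivative_pow, h2]
  simp

theorem fa_sub {a : K[X]} (ha : M ∣ a - a₀) :
    ∃ g : K[X], fa γ b a = fa γ b a₀ + M * g := by
  obtain ⟨c, hc⟩ := ha
  refine ⟨c * (a + a₀), ?_⟩
  have h2 : a ^ 2 - a₀ ^ 2 = M * (c * (a + a₀)) := by
    calc a ^ 2 - a₀ ^ 2 = (a - a₀) * (a + a₀) := by ring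
      _ = _ := by rw [hc]; ring
  unfold fa
  linear_combination h2

theorem ga_mul (h : Dat γ b M a₀ α) {a : K[X]} (ha : M ∣ a - a₀) :
    α * ga γ b α a = fa γ b a := by
  obtain ⟨g, hg⟩ := fa_sub (γ := γ) (b := b) ha
  have h1 : α ∣ fa γ b a := by
    rw [hg]
    exact dvd_add h.αf (h.αM.mul_right g)
  exact EuclideanDomain.mul_div_cancel' h.hα.ne_zero h1

theorem ga_mul0 (h : Dat γ b M a₀ α) : α * ga γ b α a₀ = fa γ b a₀ :=
  ga_mul h (by rw [sub_self]; exact dvd_zero M)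

theorem prime_dvd_b (h : Dat γ b M a₀ α) {a P : K[X]} (hP : Prime P) (h1 : P ^ 2 ∣ fa γ b a) :
    P ∣ b := by
  have h2 := pow_sub_one_dvd_derivative_of_pow_dvd h1
  rw [fa_der, show 2 - 1 = 1 from rfl, pow_one] at h2
  rcases hP.dvd_or_dvd (hP.dvd_of_dvd_pow h2) with h3 | h3
  · exfalso
    exact hP.not_isUnit (isUnit_of_dvd_unit h3 (isUnit_C.2 h.γ0.isUnit))
  · exact h3

theorem ga_cop (h : Dat γ b M a₀ α) {a : K[X]} (ha : M ∣ a - a₀) :
    IsCoprime (ga γ b α a) M := by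
  obtain ⟨g, hg⟩ := fa_sub (γ := γ) (b := b) ha
  obtain ⟨M', hM'⟩ := h.αM
  have e1 : ga γ b α a = ga γ b α a₀ + M' * g := by
    apply mul_left_cancel₀ h.hα.ne_zero
    rw [ga_mul h ha, mul_add, ga_mul0 h, hg, hM']
    ring
  refine isCoprime_of_prime_dvd (fun h0 => h.hM.ne_zero h0.2) fun P hP h1 h2 => ?_
  by_cases h3 : P ∣ M'
  · have h4 : P ∣ ga γ b α a₀ := by
      rw [e1] at h1
      exact (dvd_add_left (h3.mul_right g)).1 h1
    exact hP.not_isUnit (h.cop.isUnit_of_dvd' h4 h2)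
  · have hPb : ¬ P ∣ b := by
      intro h4
      have h5 : P ^ 5 ∣ α * M' := by
        rw [← hM']
        exact (pow_dvd_pow_of_dvd h4 5).trans h.hbM
      have h6 : P ^ 5 ∣ α := hP.pow_dvd_of_dvd_mul_right 5 h3 h5
      have h7 : P * P ∣ α := by
        refine Dvd.dvd.trans ?_ h6
        rw [← pow_two]
        exact pow_dvd_pow P (by norm_num)
      exact hP.not_isUnit (h.sα P h7)
    have hPα : P ∣ α := by
      rw [hM'] at h2
      exact (hP.dvd_or_dvd h2).resolve_right h3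
    have h5 : P ^ 2 ∣ fa γ b a := by
      rw [← ga_mul h ha, pow_two]
      exact mul_dvd_mul hPα h1
    exact hPb (prime_dvd_b h hP h5)

theorem sqfG (h : Dat γ b M a₀ α) {a : K[X]} (ha : M ∣ a - a₀) : Squarefree (ga γ b α a) := by
  have hc := ga_cop h ha
  have h0 : ga γ b α a ≠ 0 := by
    intro h1
    rw [h1, isCoprime_zero_left] at hc
    have h2 : fa γ b a = 0 := by rw [← ga_mul h ha, h1, mul_zero]
    have h3 := fa_der (γ := γ) (b := b) a
    rw [h2, derivative_zero] at h3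
    have h4 : (C γ * b) ^ 2 ≠ 0 :=
      pow_ne_zero 2 (mul_ne_zero (C_ne_zero.2 h.γ0) h.hb.ne_zero)
    exact h4 h3.symm
  rw [squarefree_iff_no_irreducibles h0]
  intro P hP h1
  have h2 : P ^ 2 ∣ fa γ b a := by
    rw [← ga_mul h ha, pow_two]
    exact h1.mul_left α
  have h3 : P ∣ b := prime_dvd_b h hP.prime h2
  have h4 : P ∣ M := (h3.trans (dvd_pow_self b (by norm_num))).trans h.hbM
  exact hP.not_isUnit (hc.isUnit_of_dvd' ((dvd_mul_left P P).trans h1) h4)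

theorem fmonG0 {d : ℕ} (hd : b.natDegree < d) {a : K[X]} (ha : a ∈ As K d M a₀) :
    (fa γ b a).Monic ∧ (fa γ b a).natDegree = 2 * d := by
  have ha' : a ∈ Mn K d := (Finset.mem_filter.1 ha).1
  rw [mem_Mn] at ha'
  have h1 : (a ^ 2).natDegree = 2 * d := by rw [natDegree_pow, ha'.2]
  have h0 : (X * (C γ * b) ^ 2 : K[X]).degree < (a ^ 2).degree := by
    rw [degree_eq_natDegree (ha'.1.pow 2).ne_zero, h1]
    refine lt_of_le_of_lt degree_le_natDegree ?_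
    have h2 : (X * (C γ * b) ^ 2 : K[X]).natDegree ≤ 1 + 2 * b.natDegree := by
      refine natDegree_mul_le.trans (add_le_add natDegree_X_le ?_)
      refine natDegree_pow_le.trans (Nat.mul_le_mul_left _ ?_)
      exact natDegree_C_mul_le γ b
    exact_mod_cast (by omega : (X * (C γ * b) ^ 2 : K[X]).natDegree < 2 * d)
  refine ⟨(ha'.1.pow 2).add_of_left h0, ?_⟩
  unfold fa
  rw [natDegree_add_eq_left_of_degree_lt h0, h1]

theorem fmonG (h : Dat γ b M a₀ α) {d : ℕ} (hd : b.natDegree < d) {a : K[X]}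
    (ha : a ∈ As K d M a₀) :
    (ga γ b α a).Monic ∧ (ga γ b α a).natDegree = 2 * d - α.natDegree := by
  obtain ⟨h1, h2⟩ := fmonG0 (γ := γ) hd ha
  have h3 := ga_mul h (Finset.mem_filter.1 ha).2
  have h4 : (ga γ b α a).Monic := by
    refine h.hα.of_mul_monic_left ?_
    rw [h3]
    exact h1
  refine ⟨h4, ?_⟩
  have h5 := h.hα.natDegree_mul h4
  rw [h3, h2] at h5
  omega

/-- The reflection. -/
theorem reflG (hD : Dat γ b M a₀ α) {d : ℕ} (hd : b.natDegree < d) {n : ℕ}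
    (hn : n = 2 * d - α.natDegree) {j : ℕ} (hj : j ≤ n) (z : ℕ)
    (U : Finset K[X] → ℝ) : NmG γ b M a₀ α d j z U = NnG γ b M a₀ α d (n - j) z U := by
  unfold NmG NnG
  refine Finset.sum_congr rfl fun a ha => ?_
  obtain ⟨h1, h2⟩ := fmonG hD hd ha
  have h3 := sqfG hD (Finset.mem_filter.1 ha).2
  obtain ⟨f, hf⟩ : ∃ f, f = ga γ b α a := ⟨_, rfl⟩
  rw [← hf] at h1 h2 h3 ⊢
  rw [← hn] at h2
  have hdiv : ∀ i : ℕ, i ≤ n → ∀ D ∈ (Mn K i).filter (fun D => D ∣ f),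
      f / D ∈ (Mn K (n - i)).filter (fun D => D ∣ f) ∧ D * (f / D) = f := by
    intro i hi D hD
    rw [Finset.mem_filter, mem_Mn] at hD
    obtain ⟨⟨h4, h5⟩, h6⟩ := hD
    have h7 : D * (f / D) = f := EuclideanDomain.mul_div_cancel' h4.ne_zero h6
    have h8 : (f / D).Monic := by
      refine h4.of_mul_monic_left ?_
      rw [h7]
      exact h1
    refine ⟨?_, h7⟩
    rw [Finset.mem_filter, mem_Mn]
    refine ⟨⟨h8, ?_⟩, ⟨D, ?_⟩⟩
    · have h9 := h4.natDegree_mul h8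
      rw [h7, h2, h5] at h9
      omega
    · rw [mul_comm]
      exact h7.symm
  refine Finset.sum_bij (fun D _ => f / D) (fun D hD => (hdiv j hj D hD).1) ?_ ?_ ?_
  · intro D hD D' hD' hDD
    have e1 := (hdiv j hj D hD).2
    have e2 := (hdiv j hj D' hD').2
    rw [hDD] at e1
    have h0 : f / D' ≠ 0 := by
      intro h
      rw [h, mul_zero] at e2
      exact h1.ne_zero e2.symm
    exact mul_right_cancel₀ h0 (e1.trans e2.symm)
  · intro D hD
    have e1 := hdiv (n - j) (by omega) D hD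
    have e2 : n - (n - j) = j := by omega
    rw [e2] at e1
    refine ⟨f / D, e1.1, ?_⟩
    have e3 := (hdiv j hj _ e1.1).2
    have e4 := e1.2
    have h0 : f / D ≠ 0 := by
      intro h
      rw [h, mul_zero] at e4
      exact h1.ne_zero e4.symm
    apply mul_left_cancel₀ h0
    rw [e3, mul_comm]
    exact e4.symm
  · intro D hD
    have e1 := (hdiv j hj D hD).2
    have h4 : Squarefree (D * (f / D)) := by rw [e1]; exact h3
    have h5 := mob_mul_sqf h4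
    rw [e1] at h5
    have h6 := mob_mul_self (squarefree_mul_iff.1 h4).2.1
    have h7 : (mob D : ℝ) * (mob D : ℝ) = 1 := by exact_mod_cast h6
    have h8 : (mob f : ℝ) = mob D * mob (f / D) := by exact_mod_cast h5
    rw [h8]
    linear_combination (mob (f / D) : ℝ) * bw z U f * h7

/-- the identity for the number of the primes -/
theorem identG (hh : S_hidg) (hD : Dat γ b M a₀ α) {d z n : ℕ} (hn : n = 2 * d - α.natDegree)
    (hn1 : 1 ≤ n) (hbd : b.natDegree < d) (hz : z < n) {U : Finset K[X] → ℝ} (hU : U ∅ = 1) :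
    (n : ℝ) * (((As K d M a₀).filter (fun a => Irreducible (ga γ b α a))).card : ℝ) =
      ∑ j ∈ Finset.range (n / 2 + 1),
        ((n : ℝ) / 2 - j) * (NnG γ b M a₀ α d j z U - NmG γ b M a₀ α d j z U) := by
  have h1 : ∀ a ∈ As K d M a₀, (if Irreducible (ga γ b α a) then (n : ℝ) else 0) =
      ∑ j ∈ Finset.range (n / 2 + 1), ((n : ℝ) / 2 - j) *
        ((∑ D ∈ (Mn K j).filter (fun D => D ∣ ga γ b α a), (mob D : ℝ) * bw z U (ga γ b α a)) -
        ∑ D ∈ (Mn K j).filter (fun D => D ∣ ga γ b α a),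
          (mob D : ℝ) * (mob (ga γ b α a) : ℝ) * bw z U (ga γ b α a)) := by
    intro a ha
    obtain ⟨e1, e2⟩ := fmonG hD hbd ha
    rw [← hn] at e2
    have e3 := hh K n (ga γ b α a) hn1 e1 (sqfG hD (Finset.mem_filter.1 ha).2) e2
    have e4 : bw z U (ga γ b α a) * (if Irreducible (ga γ b α a) then (n : ℝ) else 0) =
        if Irreducible (ga γ b α a) then (n : ℝ) else 0 := by
      split_ifs with h
      · rw [bw_irr hU h (by rw [e2]; exact hz), one_mul]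
      · rw [mul_zero]
    rw [← e4, ← e3, Finset.mul_sum, Finset.mul_sum]
    refine Finset.sum_congr rfl fun j _ => ?_
    rw [← Finset.sum_mul, ← Finset.sum_mul, ← Finset.sum_mul]
    ring
  have h2 : (n : ℝ) * (((As K d M a₀).filter (fun a => Irreducible (ga γ b α a))).card : ℝ) =
      ∑ a ∈ As K d M a₀, if Irreducible (ga γ b α a) then (n : ℝ) else 0 := by
    rw [← Finset.sum_filter, Finset.sum_const, nsmul_eq_mul]
    ring
  rw [h2, Finset.sum_congr rfl h1, Finset.sum_comm]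
  refine Finset.sum_congr rfl fun j _ => ?_
  rw [← Finset.mul_sum, Finset.sum_sub_distrib]
  rfl

theorem splitG {d H J : ℕ} {x : ℝ} (hJ : J < d) (hJH : J ≤ H) (hHx : (H : ℝ) ≤ x) (hxd : x ≤ d)
    (Nf Mf : ℕ → ℝ) (Q E1 E2 E3 : ℝ) (hE3 : 0 ≤ E3)
    (w : ℕ) (hw : x ≤ J + w)
    (hfar : |∑ j ∈ Finset.range (J + 1), (x - j) * Nf j - Q| ≤ E1)
    (hm : ∀ j, j ≤ J → |Mf j| ≤ E2)
    (hn : ∀ j, J < j → j ≤ H → |Nf j| ≤ E3 ∧ |Mf j| ≤ E3) :
    |∑ j ∈ Finset.range (H + 1), (x - j) * (Nf j - Mf j) - Q| ≤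
      E1 + (d : ℝ) ^ 2 * E2 + (w : ℝ) ^ 2 * (2 * E3) := by
  have hE2 : 0 ≤ E2 := (abs_nonneg _).trans (hm 0 (Nat.zero_le _))
  have hHw : H ≤ J + w := by
    have e1 : (H : ℝ) ≤ J + w := hHx.trans hw
    exact_mod_cast e1
  have h1 : ∑ j ∈ Finset.range (H + 1), (x - j) * (Nf j - Mf j) =
      ∑ j ∈ Finset.range (J + 1), (x - j) * (Nf j - Mf j) +
        ∑ j ∈ Finset.Ico (J + 1) (H + 1), (x - j) * (Nf j - Mf j) := by
    rw [Finset.sum_range_add_sum_Ico _ (by omega)]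
  have h2 : ∑ j ∈ Finset.range (J + 1), (x - j) * (Nf j - Mf j) =
      ∑ j ∈ Finset.range (J + 1), (x - j) * Nf j -
        ∑ j ∈ Finset.range (J + 1), (x - j) * Mf j := by
    rw [← Finset.sum_sub_distrib]
    refine Finset.sum_congr rfl fun j _ => ?_
    ring
  have h3 : |∑ j ∈ Finset.range (J + 1), (x - j) * Mf j| ≤ (d : ℝ) ^ 2 * E2 := by
    refine (Finset.abs_sum_le_sum_abs _ _).trans ?_
    have e1 : ∀ j ∈ Finset.range (J + 1), |(x - j) * Mf j| ≤ d * E2 := by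
      intro j hj
      rw [Finset.mem_range] at hj
      have e2 : (j : ℝ) ≤ x := by
        have e4 : (j : ℝ) ≤ H := by exact_mod_cast (by omega : j ≤ H)
        exact e4.trans hHx
      rw [abs_mul, abs_of_nonneg (by linarith)]
      have e3 : (0 : ℝ) ≤ j := Nat.cast_nonneg j
      exact mul_le_mul (by linarith) (hm j (by omega)) (abs_nonneg _) (Nat.cast_nonneg _)
    refine (Finset.sum_le_sum e1).trans ?_
    rw [Finset.sum_const, Finset.card_range, nsmul_eq_mul, sq, mul_assoc]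
    refine mul_le_mul_of_nonneg_right ?_ (by positivity)
    exact_mod_cast hJ
  have h4 : |∑ j ∈ Finset.Ico (J + 1) (H + 1), (x - j) * (Nf j - Mf j)| ≤
      (w : ℝ) ^ 2 * (2 * E3) := by
    refine (Finset.abs_sum_le_sum_abs _ _).trans ?_
    have e1 : ∀ j ∈ Finset.Ico (J + 1) (H + 1), |(x - j) * (Nf j - Mf j)| ≤ w * (2 * E3) := by
      intro j hj
      rw [Finset.mem_Ico] at hj
      have e2 : (j : ℝ) ≤ x := by
        have e4 : (j : ℝ) ≤ H := by exact_mod_cast (by omega : j ≤ H)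
        exact e4.trans hHx
      have e4 : (x - j) ≤ w := by
        have e5 : (J : ℝ) ≤ j := by exact_mod_cast (by omega : J ≤ j)
        linarith
      rw [abs_mul, abs_of_nonneg (by linarith)]
      have e3 : |Nf j - Mf j| ≤ 2 * E3 := by
        obtain ⟨e6, e7⟩ := hn j (by omega) (by omega)
        have e8 := abs_sub (Nf j) (Mf j)
        linarith
      exact mul_le_mul e4 e3 (abs_nonneg _) (Nat.cast_nonneg _)
    refine (Finset.sum_le_sum e1).trans ?_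
    rw [Finset.sum_const, Nat.card_Ico, nsmul_eq_mul, sq, mul_assoc]
    refine mul_le_mul_of_nonneg_right ?_ (by positivity)
    exact_mod_cast (by omega : H + 1 - (J + 1) ≤ w)
  rw [h1, h2]
  rw [abs_le] at hfar h3 h4 ⊢
  constructor <;> linarith [hfar.1, hfar.2, h3.1, h3.2, h4.1, h4.2]

theorem prod_bd (M : K[X]) :
    0 < (∏ᶠ P ∈ PA M, (1 - 1 / (Fintype.card K : ℝ) ^ P.natDegree)) ∧
      (∏ᶠ P ∈ PA M, (1 - 1 / (Fintype.card K : ℝ) ^ P.natDegree)) ≤ 1 := by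
  refine finprod_mem_induction (fun x : ℝ => 0 < x ∧ x ≤ 1) ⟨one_pos, le_rfl⟩
    (fun x y hx hy => ⟨mul_pos hx.1 hy.1, mul_le_one₀ hx.2 hy.1.le hy.2⟩) fun P hP => ?_
  have h1 : 0 < P.natDegree := hP.2.1.natDegree_pos
  have h2 : (2 : ℝ) ≤ (Fintype.card K : ℝ) := by
    exact_mod_cast (Fintype.one_lt_card (α := K))
  have h3 : 1 < (Fintype.card K : ℝ) ^ P.natDegree := one_lt_pow₀ (by linarith) (by omega)
  have h4 : 1 / (Fintype.card K : ℝ) ^ P.natDegree < 1 := by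
    rw [div_lt_one (by linarith)]
    exact h3
  have h5 : 0 ≤ 1 / (Fintype.card K : ℝ) ^ P.natDegree := by positivity
  constructor <;> linarith

end

end FING

open FIN FING in
theorem ldfing_aux (hhid : S_hidg) (hfar1 : S_far1g) (hfar2 : S_far2g) (hnear : S_nearg)
    (hbhw : S_bhwg) (K : Type) [Field K] [Fintype K] [CharP K 2] (γ : K) (b M a₀ α : K[X])
    (hDat : Dat γ b M a₀ α) :
    Filter.Tendsto (fun d : ℕ => (2 * (d : ℝ) - α.natDegree) *
      (((As K d M a₀).filter (fun a => Irreducible (ga γ b α a))).card : ℝ) *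
        (∏ᶠ P ∈ PA M, (1 - 1 / (Fintype.card K : ℝ) ^ P.natDegree)) /
          (Fintype.card K : ℝ) ^ (d - M.natDegree))
      Filter.atTop (nhds 1) := by
  obtain ⟨A, C, hA, hC, hbw⟩ := hbhw K
  obtain ⟨q, hq⟩ : ∃ q : ℝ, q = (Fintype.card K : ℝ) := ⟨_, rfl⟩
  have hq2 : (2 : ℝ) ≤ q := by
    rw [hq]
    exact_mod_cast (Fintype.one_lt_card (α := K))
  have hq0 : 0 < q := by linarith
  have hA0 : (0 : ℝ) < A := by exact_mod_cast hA
  obtain ⟨Pi, hPi⟩ : ∃ Pi : ℝ, Pi = ∏ᶠ P ∈ PA M, (1 - 1 / (Fintype.card K : ℝ) ^ P.natDegree) :=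
    ⟨_, rfl⟩
  have hPi0 : 0 < Pi ∧ Pi ≤ 1 := by rw [hPi]; exact prod_bd M
  obtain ⟨μ, hμ⟩ : ∃ μ : ℕ, μ = M.natDegree := ⟨_, rfl⟩
  have hqμ : 0 < q ^ μ := pow_pos hq0 μ
  rw [Metric.tendsto_atTop]
  intro ε hε
  obtain ⟨θ₁, hθ₁, d₁, H1⟩ := hfar1 K γ b M a₀ α A C hDat
  obtain ⟨θ₃, hθ₃, d₃, H3⟩ := hnear K γ b M a₀ α A C (ε / q ^ μ / (16 * (A : ℝ) ^ 2)) hDat hC
    (by positivity)
  -- the choice of η
  obtain ⟨η, hη0, hη1, hη3, hη4⟩ : ∃ η : ℝ, 0 < η ∧ A * η ≤ θ₁ ∧ 2 * (A * η) ≤ θ₃ ∧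
      4 * (A * η) ≤ 1 := by
    refine ⟨min θ₁ (min (θ₃ / 2) (1 / 4)) / A, by positivity, ?_, ?_, ?_⟩
    · rw [mul_div_cancel₀ _ hA0.ne']
      exact min_le_left _ _
    · rw [mul_div_cancel₀ _ hA0.ne']
      have h := (min_le_right θ₁ (min (θ₃ / 2) (1 / 4))).trans (min_le_left _ _)
      linarith
    · rw [mul_div_cancel₀ _ hA0.ne']
      have h := (min_le_right θ₁ (min (θ₃ / 2) (1 / 4))).trans (min_le_right _ _)
      linarith
  obtain ⟨θ₂, hθ₂, d₂, H2⟩ := hfar2 K γ b M a₀ α A C (A * η / 2) hDat (by positivity)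
  -- the limits
  have hr : ∀ θ : ℝ, 0 < θ → |q ^ (-θ)| < 1 := by
    intro θ hθ
    rw [abs_of_pos (Real.rpow_pos_of_pos hq0 _)]
    exact Real.rpow_lt_one_of_one_lt_of_neg (by linarith) (by linarith)
  have l1 := tendsto_pow_const_mul_const_pow_of_abs_lt_one 0 (hr θ₁ hθ₁)
  have l2 := tendsto_pow_const_mul_const_pow_of_abs_lt_one 2 (hr θ₂ hθ₂)
  rw [Metric.tendsto_atTop] at l1 l2
  obtain ⟨n1, L1⟩ := l1 (ε / q ^ μ / 8) (by positivity)
  obtain ⟨n2, L2⟩ := l2 (ε / q ^ μ / 8) (by positivity)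
  obtain ⟨n3, L3⟩ := exists_nat_ge (2 / η * (μ + 1))
  refine ⟨max (max (max d₁ d₂) (b.natDegree + 1 + μ)) (max d₃ (max n1 (max n2 (n3 + 1)))),
    fun d hd => ?_⟩
  simp only [ge_iff_le, max_le_iff] at hd
  obtain ⟨⟨⟨hd1, hd2⟩, hbd⟩, hd3, hn1, hn2, hn3⟩ := hd
  have hdpos : (0 : ℝ) < d := by exact_mod_cast (by omega : 0 < d)
  have hηd' : 2 * (μ + 1) ≤ η * d := by
    have h1 : (n3 : ℝ) ≤ d := by exact_mod_cast (by omega : n3 ≤ d)
    have h2 : 2 / η * (μ + 1) ≤ d := L3.trans h1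
    rw [div_mul_eq_mul_div, div_le_iff₀ hη0] at h2
    linarith
  have hμ0 : (0 : ℝ) ≤ μ := Nat.cast_nonneg μ
  have hηd : 2 ≤ η * d := by linarith
  obtain ⟨z, hz⟩ : ∃ z : ℕ, z = ⌊η * d⌋₊ := ⟨_, rfl⟩
  have hz1 : (z : ℝ) ≤ η * d := by
    rw [hz]
    exact Nat.floor_le (by positivity)
  have hz2 : η * d / 2 ≤ z := by
    have h1 : η * d < (z : ℝ) + 1 := by
      rw [hz]
      exact Nat.lt_floor_add_one _
    linarith
  have hz3 : 1 ≤ z := by
    have h1 : (0 : ℝ) < z := by linarith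
    exact_mod_cast h1
  have hzμ : μ ≤ z := by
    have h1 : (μ : ℝ) ≤ z := by linarith
    exact_mod_cast h1
  have hz0 : (0 : ℝ) < z := by linarith
  obtain ⟨U, hU⟩ := hbw z hz3
  have hAz : ((A * z : ℕ) : ℝ) ≤ A * η * d := by
    push_cast
    rw [mul_assoc]
    exact mul_le_mul_of_nonneg_left hz1 hA0.le
  have hAz4 : 4 * (A * z) ≤ d := by
    have h1 : (4 : ℝ) * ((A * z : ℕ) : ℝ) ≤ d := by
      calc (4 : ℝ) * ((A * z : ℕ) : ℝ) ≤ 4 * (A * η * d) := by linarith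
        _ = (4 * (A * η)) * d := by ring
        _ ≤ 1 * d := mul_le_mul_of_nonneg_right hη4 hdpos.le
        _ = d := one_mul _
    exact_mod_cast h1
  have hAz1 : z ≤ A * z := Nat.le_mul_of_pos_left z (by omega)
  obtain ⟨J, hJ⟩ : ∃ J : ℕ, J = d - 2 * (A * z) := ⟨_, rfl⟩
  obtain ⟨s, hs⟩ : ∃ s : ℕ, s = α.natDegree := ⟨_, rfl⟩
  have hsμ : s ≤ μ := by
    rw [hs, hμ]
    exact natDegree_le_of_dvd hDat.αM hDat.hM.ne_zero
  obtain ⟨n, hn⟩ : ∃ n : ℕ, n = 2 * d - s := ⟨_, rfl⟩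
  have hnR : (n : ℝ) = 2 * d - s := by
    rw [hn, Nat.cast_sub (by omega)]
    push_cast
    ring
  have hn' : n = 2 * d - α.natDegree := by rw [hn, hs]
  have hid := identG (K := K) hhid hDat (d := d) (z := z) hn' (by omega) (by omega) (by omega)
    hU.2.1
  -- the three bounds
  have b1 := H1 d z J U hd1 (hAz.trans (mul_le_mul_of_nonneg_right hη1 hdpos.le)) hU (by omega)
    (by omega) (by omega)
  have b2 : ∀ j, j ≤ J → |NmG γ b M a₀ α d j z U| ≤ (Fintype.card K : ℝ) ^ ((1 - θ₂) * d) := by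
    intro j hj
    refine H2 d z j U hd2 hU ?_
    have h1 : j + A * z ≤ d - A * z := by omega
    have h2 : ((j + A * z : ℕ) : ℝ) + ((A * z : ℕ) : ℝ) ≤ d := by
      exact_mod_cast (by omega : j + A * z + A * z ≤ d)
    have h3 : A * η / 2 * d ≤ ((A * z : ℕ) : ℝ) := by
      push_cast
      calc A * η / 2 * d = A * (η * d / 2) := by ring
        _ ≤ A * z := mul_le_mul_of_nonneg_left hz2 hA0.le
    linarith
  have b3 : ∀ j, J < j → j ≤ n / 2 → |NnG γ b M a₀ α d j z U| ≤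
      ε / q ^ μ / (16 * (A : ℝ) ^ 2) * (Fintype.card K : ℝ) ^ d / (z : ℝ) ^ 2 ∧
      |NmG γ b M a₀ α d j z U| ≤
        ε / q ^ μ / (16 * (A : ℝ) ^ 2) * (Fintype.card K : ℝ) ^ d / (z : ℝ) ^ 2 := by
    intro j hj1 hj2
    have h1 : ((A * z : ℕ) : ℝ) ≤ θ₃ * d := by
      refine hAz.trans (mul_le_mul_of_nonneg_right ?_ hdpos.le)
      nlinarith [mul_pos hA0 hη0]
    have h2 : (d : ℝ) - j ≤ θ₃ * d := by
      have e1 : (d : ℝ) ≤ j + 2 * ((A * z : ℕ) : ℝ) := by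
        exact_mod_cast (by omega : d ≤ j + 2 * (A * z))
      have e2 : 2 * ((A * z : ℕ) : ℝ) ≤ θ₃ * d := by
        calc 2 * ((A * z : ℕ) : ℝ) ≤ 2 * (A * η * d) := by linarith
          _ = (2 * (A * η)) * d := by ring
          _ ≤ _ := mul_le_mul_of_nonneg_right hη3 hdpos.le
      linarith
    have h3 : (j : ℝ) ≤ d := by exact_mod_cast (by omega : j ≤ d)
    refine ⟨H3 d j z U hd3 hz3 h1 ?_ hU, ?_⟩
    · rw [abs_le]
      constructor <;> linarith
    · rw [reflG hDat (by omega) hn' (by omega : j ≤ n)]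
      refine H3 d (n - j) z U hd3 hz3 h1 ?_ hU
      have h4 : ((n - j : ℕ) : ℝ) = 2 * d - s - j := by
        rw [Nat.cast_sub (by omega), hnR]
      have h5 : (s : ℝ) ≤ θ₃ * d := by
        have e1 : (s : ℝ) ≤ ((A * z : ℕ) : ℝ) := by exact_mod_cast (by omega : s ≤ A * z)
        exact e1.trans h1
      have h6 : (0 : ℝ) ≤ s := Nat.cast_nonneg s
      rw [h4, abs_le]
      constructor <;> linarith
  have hx1 : ((n / 2 : ℕ) : ℝ) ≤ (n : ℝ) / 2 := Nat.cast_div_le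
  have hx2 : (n : ℝ) / 2 ≤ d := by
    rw [hnR]
    have e1 : (0 : ℝ) ≤ s := Nat.cast_nonneg s
    linarith
  have hx3 : (n : ℝ) / 2 ≤ J + (2 * (A * z) : ℕ) := by
    refine hx2.trans ?_
    exact_mod_cast (by omega : d ≤ J + 2 * (A * z))
  have b1' : |∑ j ∈ Finset.range (J + 1), ((n : ℝ) / 2 - j) * NnG γ b M a₀ α d j z U -
        (Fintype.card K : ℝ) ^ (d - M.natDegree) /
          ∏ᶠ P ∈ PA M, (1 - 1 / (Fintype.card K : ℝ) ^ P.natDegree)| ≤
        (Fintype.card K : ℝ) ^ ((1 - θ₁) * d) := by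
    have e1 : (n : ℝ) / 2 = (d : ℝ) - (α.natDegree : ℝ) / 2 := by
      rw [hnR, hs]
      ring
    rw [e1]
    exact b1
  have b4 := splitG (by omega : J < d) (by omega : J ≤ n / 2) hx1 hx2 (fun j => NnG γ b M a₀ α d j z U)
    (fun j => NmG γ b M a₀ α d j z U) _ _ _ _
    (by positivity) (2 * (A * z)) hx3 b1' b2 b3
  rw [← hid, ← hPi, ← hμ, ← hq] at b4
  have hqd : 0 < q ^ (d - μ) := pow_pos hq0 _
  have hqq : q ^ d = q ^ μ * q ^ (d - μ) := by
    rw [← pow_add]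
    congr 1
    omega
  rw [Real.dist_eq]
  rw [← hs, ← hnR]
  obtain ⟨N, hN⟩ : ∃ N : ℝ, N = (n : ℝ) *
    (((As K d M a₀).filter (fun a => Irreducible (ga γ b α a))).card : ℝ) := ⟨_, rfl⟩
  rw [← hN] at b4
  rw [← hN, ← hPi, ← hμ, ← hq]
  have e0 : N * Pi / q ^ (d - μ) - 1 = (N - q ^ (d - μ) / Pi) * Pi / q ^ (d - μ) := by
    field_simp [hPi0.1.ne']
  rw [e0, abs_div, abs_of_pos hqd, div_lt_iff₀ hqd, abs_mul, abs_of_pos hPi0.1]
  have e1 : |N - q ^ (d - μ) / Pi| * Pi ≤ |N - q ^ (d - μ) / Pi| :=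
    mul_le_of_le_one_right (abs_nonneg _) hPi0.2
  refine (e1.trans b4).trans_lt ?_
  have m1 : (q ^ (-θ₁)) ^ d < ε / q ^ μ / 8 := by
    have h := L1 d hn1
    rw [Real.dist_eq, sub_zero, pow_zero, one_mul] at h
    exact (le_abs_self _).trans_lt h
  have m2 : (d : ℝ) ^ 2 * (q ^ (-θ₂)) ^ d < ε / q ^ μ / 8 := by
    have h := L2 d hn2
    rw [Real.dist_eq, sub_zero] at h
    exact (le_abs_self _).trans_lt h
  rw [rpow_split hq0, rpow_split hq0]
  have hqd' : 0 < q ^ d := pow_pos hq0 d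
  have m3 : ((2 * (A * z) : ℕ) : ℝ) ^ 2 *
      (2 * (ε / q ^ μ / (16 * (A : ℝ) ^ 2) * q ^ d / (z : ℝ) ^ 2)) = ε / 2 * q ^ (d - μ) := by
    rw [hqq]
    push_cast
    field_simp
    ring
  rw [m3]
  have m0 : ε / q ^ μ / 8 * q ^ d = ε / 8 * q ^ (d - μ) := by
    rw [hqq]
    field_simp
  have m4 : q ^ d * (q ^ (-θ₁)) ^ d < ε / 8 * q ^ (d - μ) := by
    rw [mul_comm, ← m0]
    exact mul_lt_mul_of_pos_right m1 hqd'
  have m5 : (d : ℝ) ^ 2 * (q ^ d * (q ^ (-θ₂)) ^ d) < ε / 8 * q ^ (d - μ) := by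
    rw [← m0]
    calc (d : ℝ) ^ 2 * (q ^ d * (q ^ (-θ₂)) ^ d) = ((d : ℝ) ^ 2 * (q ^ (-θ₂)) ^ d) * q ^ d := by ring
      _ < _ := mul_lt_mul_of_pos_right m2 hqd'
  have m6 : 0 < ε * q ^ (d - μ) := mul_pos hε hqd
  linarith

theorem ldfing : S_ldfing := by
  intro hhid hfar1 hfar2 hnear hbhw K _ _ _ γ b M a₀ α hDat
  have h1 := ldfing_aux hhid hfar1 hfar2 hnear hbhw K γ b M a₀ α hDat
  obtain ⟨s, hs⟩ : ∃ s : ℝ, s = (α.natDegree : ℝ) := ⟨_, rfl⟩
  rw [← hs] at h1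
  have h2 : Filter.Tendsto (fun d : ℕ => 1 + s / (2 * (d : ℝ) - s)) Filter.atTop (nhds 1) := by
    have h3 : Filter.Tendsto (fun d : ℕ => 2 * (d : ℝ) - s) Filter.atTop Filter.atTop := by
      refine Filter.tendsto_atTop_add_const_right _ _ ?_
      exact Filter.Tendsto.const_mul_atTop (by norm_num) tendsto_natCast_atTop_atTop
    have h4 := (h3.const_div_atTop s).const_add 1
    rw [add_zero] at h4
    exact h4
  have h5 := h2.mul h1
  rw [one_mul] at h5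
  refine h5.congr' ?_
  have h6 : ∀ᶠ d : ℕ in Filter.atTop, s < 2 * (d : ℝ) := by
    obtain ⟨N, hN⟩ := exists_nat_gt s
    filter_upwards [Filter.eventually_ge_atTop N] with d hd
    have e1 : (N : ℝ) ≤ d := by exact_mod_cast hd
    have e2 : (0 : ℝ) ≤ d := Nat.cast_nonneg d
    linarith
  filter_upwards [h6] with d hd
  have h7 : 2 * (d : ℝ) - s ≠ 0 := by
    have : 0 < 2 * (d : ℝ) - s := by linarith
    exact this.ne'
  have h8 : (1 + s / (2 * (d : ℝ) - s)) * (2 * (d : ℝ) - s) = 2 * d := by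
    field_simp
    ring
  rw [mul_div_assoc, mul_div_assoc, ← mul_assoc, ← mul_assoc, h8]

end Pool.Agent.H604.LD
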