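import Pool.Agent.H604.LD.StmU
import Pool.Agent.H604.LD.FinG

/-!
# Task FINU: the assembly, uniform version
-/

set_option autoImplicit false
set_option linter.unusedSectionVars false

namespace Pool.Agent.H604.LD

open Polynomial
open scoped Classical
open Pool.Agent.H985.Chow (mob lc)
open Pool.Agent.H985.KP (sg PA mobg Good2 S_typ2)
open Pool.Agent.H694.Typ (Mn PU mem_Mn mem_PU)

namespace FINU

open FIN FING

section

variable {K : Type} [Field K] [Fintype K] [CharP K 2] {γ : K} {b M a₀ α g : K[X]}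

theorem memU {d l : ℕ} {a : K[X]} (ha : a ∈ AsU K d M a₀ g l) : a ∈ As K d M a₀ :=
  (Finset.mem_filter.1 ha).1

/-- The reflection. -/
theorem reflU (hD : Dat γ b M a₀ α) {d : ℕ} (hd : b.natDegree < d) {n : ℕ}
    (hn : n = 2 * d - α.natDegree) {j : ℕ} (hj : j ≤ n) (l z : ℕ)
    (U : Finset K[X] → ℝ) : NmU γ b M a₀ α g l d j z U = NnU γ b M a₀ α g l d (n - j) z U := by
  unfold NmU NnU
  refine Finset.sum_congr rfl fun a ha => ?_
  replace ha := memU ha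
  obtain ⟨h1, h2⟩ := fmonG hD hd ha
  have h3 := sqfG hD (Finset.mem_filter.1 ha).2
  obtain ⟨f, hf⟩ : ∃ f, f = ga γ b α a := ⟨_, rfl⟩
  rw [← hf] at h1 h2 h3 ⊢
  rw [← hn] at h2
  have hdiv : ∀ i : ℕ, i ≤ n → ∀ D ∈ (Mn K i).filter (fun D => D ∣ f),
      f / D ∈ (Mn K (n - i)).filter (fun D => D ∣ f) ∧ D * (f / D) = f := by
    intro i hi D hD
    rw [Finset.mem_filter, mem_Mn] at hD
    obtain ⟨⟨h4, h5⟩, h6⟩ := hD
    have h7 : D * (f / D) = f := EuclideanDomain.mul_div_cancel' h4.ne_zero h6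
    have h8 : (f / D).Monic := by
      refine h4.of_mul_monic_left ?_
      rw [h7]
      exact h1
    refine ⟨?_, h7⟩
    rw [Finset.mem_filter, mem_Mn]
    refine ⟨⟨h8, ?_⟩, ⟨D, ?_⟩⟩
    · have h9 := h4.natDegree_mul h8
      rw [h7, h2, h5] at h9
      omega
    · rw [mul_comm]
      exact h7.symm
  refine Finset.sum_bij (fun D _ => f / D) (fun D hD => (hdiv j hj D hD).1) ?_ ?_ ?_
  · intro D hD D' hD' hDD
    have e1 := (hdiv j hj D hD).2
    have e2 := (hdiv j hj D' hD').2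
    rw [hDD] at e1
    have h0 : f / D' ≠ 0 := by
      intro h
      rw [h, mul_zero] at e2
      exact h1.ne_zero e2.symm
    exact mul_right_cancel₀ h0 (e1.trans e2.symm)
  · intro D hD
    have e1 := hdiv (n - j) (by omega) D hD
    have e2 : n - (n - j) = j := by omega
    rw [e2] at e1
    refine ⟨f / D, e1.1, ?_⟩
    have e3 := (hdiv j hj _ e1.1).2
    have e4 := e1.2
    have h0 : f / D ≠ 0 := by
      intro h
      rw [h, mul_zero] at e4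
      exact h1.ne_zero e4.symm
    apply mul_left_cancel₀ h0
    rw [e3, mul_comm]
    exact e4.symm
  · intro D hD
    have e1 := (hdiv j hj D hD).2
    have h4 : Squarefree (D * (f / D)) := by rw [e1]; exact h3
    have h5 := mob_mul_sqf h4
    rw [e1] at h5
    have h6 := mob_mul_self (squarefree_mul_iff.1 h4).2.1
    have h7 : (mob D : ℝ) * (mob D : ℝ) = 1 := by exact_mod_cast h6
    have h8 : (mob f : ℝ) = mob D * mob (f / D) := by exact_mod_cast h5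
    rw [h8]
    linear_combination (mob (f / D) : ℝ) * bw z U f * h7

/-- the identity for the number of the primes -/
theorem identU (hh : S_hidg) (hD : Dat γ b M a₀ α) {d z n : ℕ} (l : ℕ) (hn : n = 2 * d - α.natDegree)
    (hn1 : 1 ≤ n) (hbd : b.natDegree < d) (hz : z < n) {U : Finset K[X] → ℝ} (hU : U ∅ = 1) :
    (n : ℝ) * (((AsU K d M a₀ g l).filter (fun a => Irreducible (ga γ b α a))).card : ℝ) =
      ∑ j ∈ Finset.range (n / 2 + 1),
        ((n : ℝ) / 2 - j) * (NnU γ b M a₀ α g l d j z U - NmU γ b M a₀ α g l d j z U) := by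
  have h1 : ∀ a ∈ AsU K d M a₀ g l, (if Irreducible (ga γ b α a) then (n : ℝ) else 0) =
      ∑ j ∈ Finset.range (n / 2 + 1), ((n : ℝ) / 2 - j) *
        ((∑ D ∈ (Mn K j).filter (fun D => D ∣ ga γ b α a), (mob D : ℝ) * bw z U (ga γ b α a)) -
        ∑ D ∈ (Mn K j).filter (fun D => D ∣ ga γ b α a),
          (mob D : ℝ) * (mob (ga γ b α a) : ℝ) * bw z U (ga γ b α a)) := by
    intro a ha
    replace ha := memU ha
    obtain ⟨e1, e2⟩ := fmonG hD hbd ha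
    rw [← hn] at e2
    have e3 := hh K n (ga γ b α a) hn1 e1 (sqfG hD (Finset.mem_filter.1 ha).2) e2
    have e4 : bw z U (ga γ b α a) * (if Irreducible (ga γ b α a) then (n : ℝ) else 0) =
        if Irreducible (ga γ b α a) then (n : ℝ) else 0 := by
      split_ifs with h
      · rw [bw_irr hU h (by rw [e2]; exact hz), one_mul]
      · rw [mul_zero]
    rw [← e4, ← e3, Finset.mul_sum, Finset.mul_sum]
    refine Finset.sum_congr rfl fun j _ => ?_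
    rw [← Finset.sum_mul, ← Finset.sum_mul, ← Finset.sum_mul]
    ring
  have h2 : (n : ℝ) * (((AsU K d M a₀ g l).filter (fun a => Irreducible (ga γ b α a))).card : ℝ) =
      ∑ a ∈ AsU K d M a₀ g l, if Irreducible (ga γ b α a) then (n : ℝ) else 0 := by
    rw [← Finset.sum_filter, Finset.sum_const, nsmul_eq_mul]
    ring
  rw [h2, Finset.sum_congr rfl h1, Finset.sum_comm]
  refine Finset.sum_congr rfl fun j _ => ?_
  rw [← Finset.mul_sum, Finset.sum_sub_distrib]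
  rfl

end

end FINU

open FIN FING FINU in
theorem ldfinu : S_ldfinu := by
  intro hhid hfar1 hfar2 hnear hbhw K _ _ _ ε hε
  obtain ⟨A, C, hA, hC, hbw⟩ := hbhw K
  obtain ⟨q, hq⟩ : ∃ q : ℝ, q = (Fintype.card K : ℝ) := ⟨_, rfl⟩
  have hq2 : (2 : ℝ) ≤ q := by
    rw [hq]
    exact_mod_cast (Fintype.one_lt_card (α := K))
  have hq0 : 0 < q := by linarith
  have hA0 : (0 : ℝ) < A := by exact_mod_cast hA
  obtain ⟨θ₁, hθ₁, d₁, H1⟩ := hfar1 K A C
  obtain ⟨θ₃, hθ₃, d₃, H3⟩ := hnear K A C (ε / (16 * (A : ℝ) ^ 2)) hC (by positivity)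
  -- the choice of η
  obtain ⟨η, hη0, hη1, hη3, hη4⟩ : ∃ η : ℝ, 0 < η ∧ A * η ≤ θ₁ ∧ 2 * (A * η) ≤ θ₃ ∧
      4 * (A * η) ≤ 1 := by
    refine ⟨min θ₁ (min (θ₃ / 2) (1 / 4)) / A, by positivity, ?_, ?_, ?_⟩
    · rw [mul_div_cancel₀ _ hA0.ne']
      exact min_le_left _ _
    · rw [mul_div_cancel₀ _ hA0.ne']
      have h := (min_le_right θ₁ (min (θ₃ / 2) (1 / 4))).trans (min_le_left _ _)
      linarith
    · rw [mul_div_cancel₀ _ hA0.ne']
      have h := (min_le_right θ₁ (min (θ₃ / 2) (1 / 4))).trans (min_le_right _ _)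
      linarith
  obtain ⟨θ₂, hθ₂, d₂, H2⟩ := hfar2 K A C (A * η / 2) (by positivity)
  -- the choice of θ
  obtain ⟨θ, hθ0, hθa, hθb, hθc, hθe⟩ : ∃ θ : ℝ, 0 < θ ∧ θ ≤ θ₁ ∧ θ ≤ θ₂ ∧ θ ≤ θ₃ ∧
      θ ≤ η / 2 := by
    refine ⟨min (min θ₁ θ₂) (min θ₃ (η / 2)), by positivity,
      (min_le_left _ _).trans (min_le_left _ _), (min_le_left _ _).trans (min_le_right _ _),
      (min_le_right _ _).trans (min_le_left _ _), (min_le_right _ _).trans (min_le_right _ _)⟩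
  -- the limits
  have hr : |q ^ (-θ)| < 1 := by
    rw [abs_of_pos (Real.rpow_pos_of_pos hq0 _)]
    exact Real.rpow_lt_one_of_one_lt_of_neg (by linarith) (by linarith)
  have l1 := tendsto_pow_const_mul_const_pow_of_abs_lt_one 0 hr
  have l2 := tendsto_pow_const_mul_const_pow_of_abs_lt_one 2 hr
  rw [Metric.tendsto_atTop] at l1 l2
  obtain ⟨n1, L1⟩ := l1 (ε / 8) (by positivity)
  obtain ⟨n2, L2⟩ := l2 (ε / 8) (by positivity)
  obtain ⟨n3, L3⟩ := exists_nat_ge (2 / η)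
  refine ⟨θ, hθ0, max (max d₁ d₂) (max d₃ (max n1 (max n2 (n3 + 1)))), ?_⟩
  intro γ b M a₀ α g l d hDatU hd hθμ
  have hDat := hDatU.dat
  simp only [max_le_iff] at hd
  obtain ⟨⟨hd1, hd2⟩, hd3, hn1, hn2, hn3⟩ := hd
  obtain ⟨μ, hμ⟩ : ∃ μ : ℕ, μ = M.natDegree := ⟨_, rfl⟩
  obtain ⟨Pi, hPi⟩ : ∃ Pi : ℝ, Pi = PiM M := ⟨_, rfl⟩
  have hPi0 : 0 < Pi ∧ Pi ≤ 1 := by rw [hPi]; exact prod_bd M
  have hdpos : (0 : ℝ) < d := by exact_mod_cast (by omega : 0 < d)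
  have hηd : 2 ≤ η * d := by
    have h1 : (n3 : ℝ) ≤ d := by exact_mod_cast (by omega : n3 ≤ d)
    have h2 : 2 / η ≤ d := L3.trans h1
    rw [div_le_iff₀ hη0] at h2
    linarith
  obtain ⟨z, hz⟩ : ∃ z : ℕ, z = ⌊η * d⌋₊ := ⟨_, rfl⟩
  have hz1 : (z : ℝ) ≤ η * d := by
    rw [hz]
    exact Nat.floor_le (by positivity)
  have hz2 : η * d / 2 ≤ z := by
    have h1 : η * d < (z : ℝ) + 1 := by
      rw [hz]
      exact Nat.lt_floor_add_one _
    linarith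
  have hz3 : 1 ≤ z := by
    have h1 : (0 : ℝ) < z := by linarith
    exact_mod_cast h1
  have hzμ : μ + l ≤ z := by
    have h1 : ((μ + l : ℕ) : ℝ) ≤ z := by
      rw [hμ]
      calc ((M.natDegree + l : ℕ) : ℝ) ≤ θ * d := hθμ
        _ ≤ η / 2 * d := mul_le_mul_of_nonneg_right hθe hdpos.le
        _ = η * d / 2 := by ring
        _ ≤ z := hz2
    exact_mod_cast h1
  have hz0 : (0 : ℝ) < z := by exact_mod_cast hz3
  obtain ⟨U, hU⟩ := hbw z hz3
  have hAz : ((A * z : ℕ) : ℝ) ≤ A * η * d := by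
    push_cast
    rw [mul_assoc]
    exact mul_le_mul_of_nonneg_left hz1 hA0.le
  have hAz4 : 4 * (A * z) ≤ d := by
    have h1 : (4 : ℝ) * ((A * z : ℕ) : ℝ) ≤ d := by
      calc (4 : ℝ) * ((A * z : ℕ) : ℝ) ≤ 4 * (A * η * d) := by linarith
        _ = (4 * (A * η)) * d := by ring
        _ ≤ 1 * d := mul_le_mul_of_nonneg_right hη4 hdpos.le
        _ = d := one_mul _
    exact_mod_cast h1
  have hAz1 : z ≤ A * z := Nat.le_mul_of_pos_left z (by omega)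
  obtain ⟨J, hJ⟩ : ∃ J : ℕ, J = d - 2 * (A * z) := ⟨_, rfl⟩
  obtain ⟨s, hs⟩ : ∃ s : ℕ, s = α.natDegree := ⟨_, rfl⟩
  have hsμ : s ≤ μ := by
    rw [hs, hμ]
    exact natDegree_le_of_dvd hDat.αM hDat.hM.ne_zero
  have hbμ : b.natDegree ≤ μ := by
    rw [hμ]
    exact natDegree_le_of_dvd ((dvd_pow_self b (by norm_num)).trans hDat.hbM) hDat.hM.ne_zero
  obtain ⟨n, hn⟩ : ∃ n : ℕ, n = 2 * d - s := ⟨_, rfl⟩
  have hnR : (n : ℝ) = 2 * d - s := by
    rw [hn, Nat.cast_sub (by omega)]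
    push_cast
    ring
  have hn' : n = 2 * d - α.natDegree := by rw [hn, hs]
  have hid := identU (K := K) (g := g) hhid hDat (d := d) (z := z) l hn' (by omega) (by omega)
    (by omega) hU.2.1
  have hθ₁' : ((M.natDegree + l : ℕ) : ℝ) ≤ θ₁ * d :=
    hθμ.trans (mul_le_mul_of_nonneg_right hθa hdpos.le)
  have hθ₂' : ((M.natDegree + l : ℕ) : ℝ) ≤ θ₂ * d :=
    hθμ.trans (mul_le_mul_of_nonneg_right hθb hdpos.le)
  have hθ₃' : ((M.natDegree + l : ℕ) : ℝ) ≤ θ₃ * d :=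
    hθμ.trans (mul_le_mul_of_nonneg_right hθc hdpos.le)
  -- the three bounds
  have b1 := H1 γ b M a₀ α g l d z J U hDatU hd1
    (hAz.trans (mul_le_mul_of_nonneg_right hη1 hdpos.le)) hθ₁' hU (by omega) (by omega) (by omega)
  have b2 : ∀ j, j ≤ J → |NmU γ b M a₀ α g l d j z U| ≤
      (Fintype.card K : ℝ) ^ ((1 - 2 * θ₂) * d) := by
    intro j hj
    refine H2 γ b M a₀ α g l d z j U hDatU hd2 hU hθ₂' ?_
    have h1 : j + A * z ≤ d - A * z := by omega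
    have h2 : ((j + A * z : ℕ) : ℝ) + ((A * z : ℕ) : ℝ) ≤ d := by
      exact_mod_cast (by omega : j + A * z + A * z ≤ d)
    have h3 : A * η / 2 * d ≤ ((A * z : ℕ) : ℝ) := by
      push_cast
      calc A * η / 2 * d = A * (η * d / 2) := by ring
        _ ≤ A * z := mul_le_mul_of_nonneg_left hz2 hA0.le
    linarith
  have b3 : ∀ j, J < j → j ≤ n / 2 → |NnU γ b M a₀ α g l d j z U| ≤
      ε / (16 * (A : ℝ) ^ 2) * (Fintype.card K : ℝ) ^ d /
        ((Fintype.card K : ℝ) ^ (M.natDegree + l) * PiM M * (z : ℝ) ^ 2) ∧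
      |NmU γ b M a₀ α g l d j z U| ≤ ε / (16 * (A : ℝ) ^ 2) * (Fintype.card K : ℝ) ^ d /
        ((Fintype.card K : ℝ) ^ (M.natDegree + l) * PiM M * (z : ℝ) ^ 2) := by
    intro j hj1 hj2
    have h1 : ((A * z : ℕ) : ℝ) ≤ θ₃ * d := by
      refine hAz.trans (mul_le_mul_of_nonneg_right ?_ hdpos.le)
      nlinarith [mul_pos hA0 hη0]
    have h2 : (d : ℝ) - j ≤ θ₃ * d := by
      have e1 : (d : ℝ) ≤ j + 2 * ((A * z : ℕ) : ℝ) := by
        exact_mod_cast (by omega : d ≤ j + 2 * (A * z))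
      have e2 : 2 * ((A * z : ℕ) : ℝ) ≤ θ₃ * d := by
        calc 2 * ((A * z : ℕ) : ℝ) ≤ 2 * (A * η * d) := by linarith
          _ = (2 * (A * η)) * d := by ring
          _ ≤ _ := mul_le_mul_of_nonneg_right hη3 hdpos.le
      linarith
    have h3 : (j : ℝ) ≤ d := by exact_mod_cast (by omega : j ≤ d)
    refine ⟨H3 γ b M a₀ α g l d j z U hDatU hd3 hz3 h1 ?_ hθ₃' hU, ?_⟩
    · rw [abs_le]
      constructor <;> linarith
    · rw [reflU hDat (by omega) hn' (by omega : j ≤ n)]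
      refine H3 γ b M a₀ α g l d (n - j) z U hDatU hd3 hz3 h1 ?_ hθ₃' hU
      have h4 : ((n - j : ℕ) : ℝ) = 2 * d - s - j := by
        rw [Nat.cast_sub (by omega), hnR]
      have h5 : (s : ℝ) ≤ θ₃ * d := by
        have e1 : (s : ℝ) ≤ ((A * z : ℕ) : ℝ) := by exact_mod_cast (by omega : s ≤ A * z)
        exact e1.trans h1
      have h6 : (0 : ℝ) ≤ s := Nat.cast_nonneg s
      rw [h4, abs_le]
      constructor <;> linarith
  have hx1 : ((n / 2 : ℕ) : ℝ) ≤ (n : ℝ) / 2 := Nat.cast_div_le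
  have hx2 : (n : ℝ) / 2 ≤ d := by
    rw [hnR]
    have e1 : (0 : ℝ) ≤ s := Nat.cast_nonneg s
    linarith
  have hx3 : (n : ℝ) / 2 ≤ J + (2 * (A * z) : ℕ) := by
    refine hx2.trans ?_
    exact_mod_cast (by omega : d ≤ J + 2 * (A * z))
  have b1' : |∑ j ∈ Finset.range (J + 1), ((n : ℝ) / 2 - j) * NnU γ b M a₀ α g l d j z U -
        (Fintype.card K : ℝ) ^ (d - M.natDegree - l) / PiM M| ≤
        (Fintype.card K : ℝ) ^ ((1 - 2 * θ₁) * d) := by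
    have e1 : (n : ℝ) / 2 = (d : ℝ) - (α.natDegree : ℝ) / 2 := by
      rw [hnR, hs]
      ring
    rw [e1]
    exact b1
  have b4 := splitG (by omega : J < d) (by omega : J ≤ n / 2) hx1 hx2
    (fun j => NnU γ b M a₀ α g l d j z U) (fun j => NmU γ b M a₀ α g l d j z U) _ _ _ _
    (by
      rw [← hPi]
      have := hPi0.1
      positivity) (2 * (A * z)) hx3 b1' b2 b3
  rw [← hid, ← hPi, ← hμ, ← hq] at b4
  rw [← hPi, ← hμ, ← hq, ← hs, ← hnR]
  obtain ⟨N, hN⟩ : ∃ N : ℝ, N = (n : ℝ) *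
    (((AsU K d M a₀ g l).filter (fun a => Irreducible (ga γ b α a))).card : ℝ) := ⟨_, rfl⟩
  rw [← hN] at b4 ⊢
  obtain ⟨Q, hQ⟩ : ∃ Q : ℝ, Q = q ^ (μ + l) := ⟨_, rfl⟩
  have hQ0 : 0 < Q := by rw [hQ]; exact pow_pos hq0 _
  have hqd : 0 < q ^ d := pow_pos hq0 d
  have hqq : q ^ (d - μ - l) = q ^ d / Q := by
    rw [eq_div_iff hQ0.ne', hQ, ← pow_add]
    congr 1
    omega
  rw [← hQ] at b4 ⊢
  rw [hqq] at b4
  have hPi1 := hPi0.1
  -- the exponents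
  have hQθ : Q ≤ q ^ (θ * (d : ℝ)) := by
    rw [hQ, ← Real.rpow_natCast q (μ + l)]
    refine Real.rpow_le_rpow_of_exponent_le (by linarith) ?_
    rw [hμ]
    exact hθμ
  have hexp : ∀ θ' : ℝ, θ ≤ θ' → Q * q ^ ((1 - 2 * θ') * (d : ℝ)) ≤ q ^ d * (q ^ (-θ)) ^ d := by
    intro θ' hθ'
    calc Q * q ^ ((1 - 2 * θ') * (d : ℝ)) ≤ q ^ (θ * (d : ℝ)) * q ^ ((1 - 2 * θ') * (d : ℝ)) :=
          mul_le_mul_of_nonneg_right hQθ (Real.rpow_nonneg hq0.le _)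
      _ = q ^ (θ * (d : ℝ) + (1 - 2 * θ') * (d : ℝ)) := (Real.rpow_add hq0 _ _).symm
      _ ≤ q ^ ((1 - θ) * (d : ℝ)) := by
          refine Real.rpow_le_rpow_of_exponent_le (by linarith) ?_
          nlinarith
      _ = q ^ d * (q ^ (-θ)) ^ d := rpow_split hq0 θ d
  have m1 : (q ^ (-θ)) ^ d < ε / 8 := by
    have h := L1 d hn1
    rw [Real.dist_eq, sub_zero, pow_zero, one_mul] at h
    exact (le_abs_self _).trans_lt h
  have m2 : (d : ℝ) ^ 2 * (q ^ (-θ)) ^ d < ε / 8 := by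
    have h := L2 d hn2
    rw [Real.dist_eq, sub_zero] at h
    exact (le_abs_self _).trans_lt h
  have e0 : N * Pi * Q / q ^ d - 1 = (N - q ^ d / Q / Pi) * (Pi * Q / q ^ d) := by
    field_simp
  have hPQ : 0 < Pi * Q / q ^ d := by positivity
  rw [e0, abs_mul, abs_of_pos hPQ]
  have e1 : (q ^ ((1 - 2 * θ₁) * (d : ℝ))) * (Pi * Q / q ^ d) ≤ ε / 8 := by
    have f1 := hexp θ₁ hθa
    calc (q ^ ((1 - 2 * θ₁) * (d : ℝ))) * (Pi * Q / q ^ d)
        = Pi * (Q * q ^ ((1 - 2 * θ₁) * (d : ℝ))) / q ^ d := by ring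
      _ ≤ 1 * (q ^ d * (q ^ (-θ)) ^ d) / q ^ d := by
          gcongr
          exact hPi0.2
      _ = (q ^ (-θ)) ^ d := by
          rw [one_mul, mul_div_assoc, mul_div_cancel₀ _ hqd.ne']
      _ ≤ ε / 8 := m1.le
  have e2 : ((d : ℝ) ^ 2 * q ^ ((1 - 2 * θ₂) * (d : ℝ))) * (Pi * Q / q ^ d) ≤ ε / 8 := by
    have f1 := hexp θ₂ hθb
    calc ((d : ℝ) ^ 2 * q ^ ((1 - 2 * θ₂) * (d : ℝ))) * (Pi * Q / q ^ d)
        = (d : ℝ) ^ 2 * (Pi * (Q * q ^ ((1 - 2 * θ₂) * (d : ℝ))) / q ^ d) := by ring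
      _ ≤ (d : ℝ) ^ 2 * (1 * (q ^ d * (q ^ (-θ)) ^ d) / q ^ d) := by
          gcongr
          exact hPi0.2
      _ = (d : ℝ) ^ 2 * (q ^ (-θ)) ^ d := by
          rw [one_mul, mul_div_cancel_left₀ _ hqd.ne']
      _ ≤ ε / 8 := m2.le
  have e3 : (((2 * (A * z) : ℕ) : ℝ) ^ 2 *
      (2 * (ε / (16 * (A : ℝ) ^ 2) * q ^ d / (Q * Pi * (z : ℝ) ^ 2)))) * (Pi * Q / q ^ d) =
      ε / 2 := by
    push_cast
    field_simp
    ring
  calc |N - q ^ d / Q / Pi| * (Pi * Q / q ^ d)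
      ≤ (q ^ ((1 - 2 * θ₁) * (d : ℝ)) + (d : ℝ) ^ 2 * q ^ ((1 - 2 * θ₂) * (d : ℝ)) +
        ((2 * (A * z) : ℕ) : ℝ) ^ 2 *
          (2 * (ε / (16 * (A : ℝ) ^ 2) * q ^ d / (Q * Pi * (z : ℝ) ^ 2)))) * (Pi * Q / q ^ d) :=
        mul_le_mul_of_nonneg_right b4 hPQ.le
    _ = q ^ ((1 - 2 * θ₁) * (d : ℝ)) * (Pi * Q / q ^ d) +
        ((d : ℝ) ^ 2 * q ^ ((1 - 2 * θ₂) * (d : ℝ))) * (Pi * Q / q ^ d) +
        (((2 * (A * z) : ℕ) : ℝ) ^ 2 *
          (2 * (ε / (16 * (A : ℝ) ^ 2) * q ^ d / (Q * Pi * (z : ℝ) ^ 2)))) *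
            (Pi * Q / q ^ d) := by ring
    _ ≤ ε / 8 + ε / 8 + ε / 2 := by
        rw [e3]
        linarith
    _ ≤ ε := by linarith

end Pool.Agent.H604.LD
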