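import Pool.Agent.H604.LD.StmP
import Pool.Agent.H604.LD.FinU

/-!
# Task FINP: the assembly, with a power saving
-/

set_option autoImplicit false
set_option linter.unusedSectionVars false

namespace Pool.Agent.H604.LD

open Polynomial
open scoped Classical
open Pool.Agent.H985.Chow (mob lc)
open Pool.Agent.H985.KP (sg PA mobg Good2 S_typ2)
open Pool.Agent.H694.Typ (Mn PU mem_Mn mem_PU)

namespace FINP

open FIN FING FINU

/-- the trivial sieve weights -/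
noncomputable def U0 {K : Type} [Field K] (T : Finset K[X]) : ℝ := if T = ∅ then 1 else 0

section

variable {K : Type} [Field K] [Fintype K] [CharP K 2]

theorem sumU0 (s : Finset K[X]) (F : Finset K[X] → ℝ) :
    ∑ T ∈ s.powerset, U0 T * F T = F ∅ := by
  rw [Finset.sum_eq_single_of_mem ∅ (Finset.empty_mem_powerset s)]
  · unfold U0
    rw [if_pos rfl, one_mul]
  · intro T _ hT
    unfold U0
    rw [if_neg hT, zero_mul]

theorem sumU0' (s : Finset K[X]) : ∑ T ∈ s.powerset, U0 T = 1 := by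
  have h := sumU0 s (fun _ => 1)
  simp only [mul_one] at h
  exact h

theorem bwU0 (z : ℕ) (f : K[X]) : bw z U0 f = 1 := by
  unfold bw
  exact sumU0' _

theorem bhwU0 (z : ℕ) (hz : z = 1) : BHWG K z 1 1 U0 := by
  refine ⟨fun T => ?_, ?_, fun T hT => ?_, fun B _ => ?_, fun M m _ _ => ?_⟩
  · unfold U0
    split_ifs <;> norm_num
  · unfold U0
    rw [if_pos rfl]
  · have hT0 : T = ∅ := by
      by_contra h
      apply hT
      unfold U0
      rw [if_neg h]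
    rw [hT0, Finset.sum_empty]
    exact ⟨Finset.empty_subset _, Nat.zero_le _⟩
  · rw [sumU0']
    exact zero_le_one
  · rw [sumU0, Finset.prod_empty, one_mul, hz]
    obtain ⟨h1, h2⟩ := prod_bd (K := K) m
    obtain ⟨h3, h4⟩ := prod_bd (K := K) M
    have h5 : (∏ᶠ P ∈ PA M, (1 - 1 / (Fintype.card K : ℝ) ^ P.natDegree)) ^ 2 ≤ 1 :=
      pow_le_one₀ h3.le h4
    have h6 : (1 : ℝ) / ((1 : ℕ) : ℝ) ^ 2 = 1 := by norm_num
    rw [h6]
    exact mul_le_one₀ h2 (by positivity) h5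

end

end FINP

open FIN FING FINU FINP in
theorem ldfinp : S_ldfinp := by
  intro hhid hfar1 hfar2 hnear K _ _ _
  obtain ⟨q, hq⟩ : ∃ q : ℝ, q = (Fintype.card K : ℝ) := ⟨_, rfl⟩
  have hq2 : (2 : ℝ) ≤ q := by
    rw [hq]
    exact_mod_cast (Fintype.one_lt_card (α := K))
  have hq0 : 0 < q := by linarith
  obtain ⟨θ₁, hθ₁, d₁, H1⟩ := hfar1 K 1 1
  obtain ⟨c₃, θ₃, hc₃, hθ₃, d₃, H3⟩ := hnear K
  -- the choice of κ
  obtain ⟨κ, hκ0, hκ3, hκ4⟩ : ∃ κ : ℝ, 0 < κ ∧ κ ≤ θ₃ ∧ κ ≤ 1 / 4 :=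
    ⟨min θ₃ (1 / 4), by positivity, min_le_left _ _, min_le_right _ _⟩
  obtain ⟨θ₂, hθ₂, d₂, H2⟩ := hfar2 K 1 1 (κ / 2) (by positivity)
  -- the choice of θ
  obtain ⟨θ, hθ0, hθa, hθb, hθc, hθe⟩ : ∃ θ : ℝ, 0 < θ ∧ θ ≤ θ₁ ∧ θ ≤ θ₂ ∧ θ ≤ θ₃ ∧
      θ ≤ κ / 2 := by
    refine ⟨min (min θ₁ θ₂) (min θ₃ (κ / 2)), by positivity,
      (min_le_left _ _).trans (min_le_left _ _), (min_le_left _ _).trans (min_le_right _ _),
      (min_le_right _ _).trans (min_le_left _ _), (min_le_right _ _).trans (min_le_right _ _)⟩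
  -- the choice of c
  obtain ⟨c, hc0, hca, hcb, hcc⟩ : ∃ c : ℝ, 0 < c ∧ 2 * c ≤ 2 * θ₁ ∧ 2 * c ≤ 2 * θ₂ ∧
      2 * c ≤ c₃ := by
    refine ⟨min θ₁ (min θ₂ (c₃ / 2)), by positivity, ?_, ?_, ?_⟩
    · have := min_le_left θ₁ (min θ₂ (c₃ / 2))
      linarith
    · have := (min_le_right θ₁ (min θ₂ (c₃ / 2))).trans (min_le_left _ _)
      linarith
    · have := (min_le_right θ₁ (min θ₂ (c₃ / 2))).trans (min_le_right _ _)
      linarith
  -- the limits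
  have hr : |q ^ (-c)| < 1 := by
    rw [abs_of_pos (Real.rpow_pos_of_pos hq0 _)]
    exact Real.rpow_lt_one_of_one_lt_of_neg (by linarith) (by linarith)
  have l1 := tendsto_pow_const_mul_const_pow_of_abs_lt_one 0 hr
  have l2 := tendsto_pow_const_mul_const_pow_of_abs_lt_one 2 hr
  rw [Metric.tendsto_atTop] at l1 l2
  obtain ⟨n1, L1⟩ := l1 (1 / 8) (by positivity)
  obtain ⟨n2, L2⟩ := l2 (1 / 8) (by positivity)
  obtain ⟨n3, L3⟩ := exists_nat_ge (4 / κ)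
  obtain ⟨n4, L4⟩ := exists_nat_ge (1 / θ₁)
  refine ⟨c, θ, hc0, hθ0, max (max d₁ d₂) (max d₃ (max n1 (max n2 (max (n3 + 1) n4)))), ?_⟩
  intro γ b M a₀ α g l d hDatU hd hθμ
  have hDat := hDatU.dat
  simp only [max_le_iff] at hd
  obtain ⟨⟨hd1, hd2⟩, hd3, hn1, hn2, hn3, hn4⟩ := hd
  obtain ⟨μ, hμ⟩ : ∃ μ : ℕ, μ = M.natDegree := ⟨_, rfl⟩
  have hPi0 : 0 < PiM M ∧ PiM M ≤ 1 := prod_bd M
  have hdpos : (0 : ℝ) < d := by exact_mod_cast (by omega : 0 < d)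
  have hκd : 4 ≤ κ * d := by
    have h1 : (n3 : ℝ) ≤ d := by exact_mod_cast (by omega : n3 ≤ d)
    have h2 : 4 / κ ≤ d := L3.trans h1
    rw [div_le_iff₀ hκ0] at h2
    linarith
  have hθ₁d : 1 ≤ θ₁ * d := by
    have h1 : (n4 : ℝ) ≤ d := by exact_mod_cast hn4
    have h2 : 1 / θ₁ ≤ d := L4.trans h1
    rw [div_le_iff₀ hθ₁] at h2
    linarith
  obtain ⟨k, hk⟩ : ∃ k : ℕ, k = ⌊κ * d⌋₊ := ⟨_, rfl⟩
  have hk1 : (k : ℝ) ≤ κ * d := by
    rw [hk]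
    exact Nat.floor_le (by positivity)
  have hk2 : κ * d < (k : ℝ) + 1 := by
    rw [hk]
    exact Nat.lt_floor_add_one _
  have hkμ : μ + l + 1 ≤ k := by
    have h1 : ((μ + l : ℕ) : ℝ) + 1 ≤ k := by
      have h2 : ((μ + l : ℕ) : ℝ) ≤ κ / 2 * d := by
        rw [hμ]
        exact hθμ.trans (mul_le_mul_of_nonneg_right hθe hdpos.le)
      linarith
    exact_mod_cast h1
  have hk4 : 4 * k ≤ d := by
    have h1 : (4 : ℝ) * k ≤ d := by
      have h2 : κ * d ≤ 1 / 4 * d := mul_le_mul_of_nonneg_right hκ4 hdpos.le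
      linarith
    exact_mod_cast h1
  obtain ⟨J, hJ⟩ : ∃ J : ℕ, J = d - k := ⟨_, rfl⟩
  obtain ⟨s, hs⟩ : ∃ s : ℕ, s = α.natDegree := ⟨_, rfl⟩
  have hsμ : s ≤ μ := by
    rw [hs, hμ]
    exact natDegree_le_of_dvd hDat.αM hDat.hM.ne_zero
  have hbμ : b.natDegree ≤ μ := by
    rw [hμ]
    exact natDegree_le_of_dvd ((dvd_pow_self b (by norm_num)).trans hDat.hbM) hDat.hM.ne_zero
  obtain ⟨n, hn⟩ : ∃ n : ℕ, n = 2 * d - s := ⟨_, rfl⟩
  have hnR : (n : ℝ) = 2 * d - s := by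
    rw [hn, Nat.cast_sub (by omega)]
    push_cast
    ring
  have hn' : n = 2 * d - α.natDegree := by rw [hn, hs]
  have hU : BHWG K 1 1 1 U0 := bhwU0 1 rfl
  have hid := identU (K := K) (g := g) hhid hDat (d := d) (z := 1) l hn' (by omega) (by omega)
    (by omega) hU.2.1
  have hθ₁' : ((M.natDegree + l : ℕ) : ℝ) ≤ θ₁ * d :=
    hθμ.trans (mul_le_mul_of_nonneg_right hθa hdpos.le)
  have hθ₂' : ((M.natDegree + l : ℕ) : ℝ) ≤ θ₂ * d :=
    hθμ.trans (mul_le_mul_of_nonneg_right hθb hdpos.le)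
  have hθ₃' : ((M.natDegree + l : ℕ) : ℝ) ≤ θ₃ * d :=
    hθμ.trans (mul_le_mul_of_nonneg_right hθc hdpos.le)
  -- the three bounds
  have b1 := H1 γ b M a₀ α g l d 1 J U0 hDatU hd1 (by push_cast; linarith) hθ₁' hU (by omega)
    (by omega) (by omega)
  have b2 : ∀ j, j ≤ J → |NmU γ b M a₀ α g l d j 1 U0| ≤
      (Fintype.card K : ℝ) ^ ((1 - 2 * θ₂) * d) := by
    intro j hj
    refine H2 γ b M a₀ α g l d 1 j U0 hDatU hd2 hU hθ₂' ?_
    have h2 : (j : ℝ) + k ≤ d := by exact_mod_cast (by omega : j + k ≤ d)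
    push_cast
    linarith
  have hNn : ∀ n' : ℕ, |(n' : ℝ) - d| ≤ θ₃ * d → |NnU γ b M a₀ α g l d n' 1 U0| ≤
      (Fintype.card K : ℝ) ^ ((1 - c₃) * d) := by
    intro n' hn'
    have h1 := H3 γ b M a₀ α g l d n' hDatU hd3 hn' hθ₃'
    unfold NnU
    simp only [bwU0, mul_one]
    exact h1
  have b3 : ∀ j, J < j → j ≤ n / 2 → |NnU γ b M a₀ α g l d j 1 U0| ≤
      (Fintype.card K : ℝ) ^ ((1 - c₃) * d) ∧
      |NmU γ b M a₀ α g l d j 1 U0| ≤ (Fintype.card K : ℝ) ^ ((1 - c₃) * d) := by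
    intro j hj1 hj2
    have h1 : (k : ℝ) ≤ θ₃ * d := hk1.trans (mul_le_mul_of_nonneg_right hκ3 hdpos.le)
    have h2 : (d : ℝ) - j ≤ θ₃ * d := by
      have e1 : (d : ℝ) ≤ j + k := by exact_mod_cast (by omega : d ≤ j + k)
      linarith
    have h3 : (j : ℝ) ≤ d := by exact_mod_cast (by omega : j ≤ d)
    refine ⟨hNn j ?_, ?_⟩
    · rw [abs_le]
      constructor <;> linarith
    · rw [reflU hDat (by omega) hn' (by omega : j ≤ n)]
      refine hNn (n - j) ?_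
      have h4 : ((n - j : ℕ) : ℝ) = 2 * d - s - j := by
        rw [Nat.cast_sub (by omega), hnR]
      have h5 : (s : ℝ) ≤ θ₃ * d := by
        have e1 : (s : ℝ) ≤ (k : ℝ) := by exact_mod_cast (by omega : s ≤ k)
        exact e1.trans h1
      have h6 : (0 : ℝ) ≤ s := Nat.cast_nonneg s
      rw [h4, abs_le]
      constructor <;> linarith
  have hx1 : ((n / 2 : ℕ) : ℝ) ≤ (n : ℝ) / 2 := Nat.cast_div_le
  have hx2 : (n : ℝ) / 2 ≤ d := by
    rw [hnR]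
    have e1 : (0 : ℝ) ≤ s := Nat.cast_nonneg s
    linarith
  have hx3 : (n : ℝ) / 2 ≤ J + (k : ℕ) := by
    refine hx2.trans ?_
    exact_mod_cast (by omega : d ≤ J + k)
  have b1' : |∑ j ∈ Finset.range (J + 1), ((n : ℝ) / 2 - j) * NnU γ b M a₀ α g l d j 1 U0 -
        (Fintype.card K : ℝ) ^ (d - M.natDegree - l) / PiM M| ≤
        (Fintype.card K : ℝ) ^ ((1 - 2 * θ₁) * d) := by
    have e1 : (n : ℝ) / 2 = (d : ℝ) - (α.natDegree : ℝ) / 2 := by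
      rw [hnR, hs]
      ring
    rw [e1]
    exact b1
  have b4 := splitG (by omega : J < d) (by omega : J ≤ n / 2) hx1 hx2
    (fun j => NnU γ b M a₀ α g l d j 1 U0) (fun j => NmU γ b M a₀ α g l d j 1 U0) _ _ _ _
    (by positivity) k hx3 b1' b2 b3
  rw [← hid, ← hq] at b4
  rw [← hq, ← hs, ← hnR]
  refine b4.trans ?_
  have hq1 : (1 : ℝ) ≤ q := by linarith
  have m1 : (q ^ (-c)) ^ d < 1 / 8 := by
    have h := L1 d hn1
    rw [Real.dist_eq, sub_zero, pow_zero, one_mul] at h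
    exact (le_abs_self _).trans_lt h
  have m2 : (d : ℝ) ^ 2 * (q ^ (-c)) ^ d < 1 / 8 := by
    have h := L2 d hn2
    rw [Real.dist_eq, sub_zero] at h
    exact (le_abs_self _).trans_lt h
  have hexp : ∀ c' : ℝ, 2 * c ≤ c' → q ^ ((1 - c') * (d : ℝ)) ≤
      q ^ ((1 - c) * (d : ℝ)) * (q ^ (-c)) ^ d := by
    intro c' hc'
    rw [← Real.rpow_natCast (q ^ (-c)) d, ← Real.rpow_mul hq0.le, ← Real.rpow_add hq0]
    refine Real.rpow_le_rpow_of_exponent_le hq1 ?_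
    have h1 : 2 * c * d ≤ c' * d := mul_le_mul_of_nonneg_right hc' hdpos.le
    linarith
  obtain ⟨E, hE⟩ : ∃ E : ℝ, E = q ^ ((1 - c) * (d : ℝ)) := ⟨_, rfl⟩
  obtain ⟨R, hR⟩ : ∃ R : ℝ, R = (q ^ (-c)) ^ d := ⟨_, rfl⟩
  rw [← hR] at m1 m2
  rw [← hE]
  have hE0 : 0 ≤ E := by rw [hE]; positivity
  have hR0 : 0 ≤ R := by rw [hR]; positivity
  have f1 := hexp (2 * θ₁) hca
  have f2 := hexp (2 * θ₂) hcb
  have f3 := hexp c₃ hcc
  rw [← hE, ← hR] at f1 f2 f3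
  have hkd : (k : ℝ) ≤ d := by exact_mod_cast (by omega : k ≤ d)
  calc q ^ ((1 - 2 * θ₁) * (d : ℝ)) + (d : ℝ) ^ 2 * q ^ ((1 - 2 * θ₂) * (d : ℝ)) +
        (k : ℝ) ^ 2 * (2 * q ^ ((1 - c₃) * (d : ℝ)))
      ≤ E * R + (d : ℝ) ^ 2 * (E * R) + (d : ℝ) ^ 2 * (2 * (E * R)) := by gcongr
    _ = E * (R + 3 * ((d : ℝ) ^ 2 * R)) := by ring
    _ ≤ E * 1 := mul_le_mul_of_nonneg_left (by linarith) hE0
    _ = E := mul_one E

end Pool.Agent.H604.LD
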