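import Pool.Agent.H604.LD.Stm
import Pool.Agent.H985.Chow.Cmp
import Pool.Agent.H985.Chow.Win

/-!
# Task HYP: equidistribution on the hyperbola modulo a squarefree polynomial (helper553)
-/

set_option autoImplicit false
set_option linter.unusedSectionVars false

namespace Pool.Agent.H604.LD

open Polynomial
open Pool.Agent.H985.KP (sg PA pol S_weil)
open Pool.Agent.H985.Chow (S_cmp)
open Pool.Agent.H985.Chow.Win (psiK psiK_apply psiK_ne card_P facs)

namespace HypAux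

section loc

variable {F : Type} [Field F] [Fintype F]

open Classical in
/-- the indicator of the hyperbola minus its density -/
noncomputable def gF (v : F × F) : ℝ :=
  (if v.1 * v.2 = 1 then 1 else 0) - ((Fintype.card F : ℝ) - 1) / (Fintype.card F : ℝ) ^ 2

open Classical in
/-- the marginal of `gF` -/
noncomputable def hF (w : F) : ℝ := 1 / (Fintype.card F : ℝ) - (if w = 0 then 1 else 0)

lemma gF_symm (t w : F) : gF (t, w) = gF (w, t) := by
  unfold gF
  simp only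
  rw [mul_comm t w]

open Classical in
lemma sum_ind (w : F) (f : F → ℂ) :
    ∑ t : F, (if t * w = 1 then (1 : ℂ) else 0) * f t = if w = 0 then 0 else f w⁻¹ := by
  by_cases hw : w = 0
  · subst hw
    rw [if_pos rfl]
    apply Finset.sum_eq_zero
    intro t _
    rw [mul_zero, if_neg zero_ne_one, zero_mul]
  · rw [if_neg hw, Finset.sum_eq_single w⁻¹]
    · rw [inv_mul_cancel₀ hw, if_pos rfl, one_mul]
    · intro t _ ht
      rw [if_neg, zero_mul]
      intro h
      exact ht (eq_inv_of_mul_eq_one_left h)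
    · intro h
      exact absurd (Finset.mem_univ _) h

lemma card_pos' : (0 : ℝ) < Fintype.card F := by exact_mod_cast Fintype.card_pos

lemma sum_g_left (w : F) : ∑ t : F, gF (t, w) = hF w := by
  classical
  have hc := card_pos' (F := F)
  have h1 : ∑ t : F, (if t * w = 1 then (1 : ℝ) else 0) = if w = 0 then 0 else 1 := by
    have h2 := sum_ind w (fun _ => 1)
    simp only [mul_one] at h2
    exact_mod_cast h2
  unfold gF hF
  simp only
  rw [Finset.sum_sub_distrib, h1, Finset.sum_const, Finset.card_univ, nsmul_eq_mul]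
  split_ifs <;> field_simp <;> ring

lemma sum_h : ∑ w : F, hF w = 0 := by
  classical
  have hc := card_pos' (F := F)
  unfold hF
  rw [Finset.sum_sub_distrib, Finset.sum_const, Finset.card_univ, nsmul_eq_mul,
    Finset.sum_ite_eq' Finset.univ (0 : F), if_pos (Finset.mem_univ _)]
  field_simp
  ring

lemma hat_h (χ : AddChar F ℂ) : ‖∑ w : F, (hF w : ℂ) * χ w‖ ≤ 1 := by
  classical
  have hc := card_pos' (F := F)
  have h1 : ∑ w : F, (hF w : ℂ) * χ w = 1 / (Fintype.card F : ℂ) * ∑ w, χ w - 1 := by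
    have h2 : ∀ w : F, (hF w : ℂ) * χ w = 1 / (Fintype.card F : ℂ) * χ w -
        (if w = 0 then 1 else 0) * χ w := by
      intro w
      unfold hF
      split_ifs <;> push_cast <;> ring
    rw [Finset.sum_congr rfl fun w _ => h2 w, Finset.sum_sub_distrib, ← Finset.mul_sum]
    congr 1
    simp
  have hc' : (Fintype.card F : ℂ) ≠ 0 := by exact_mod_cast hc.ne'
  rw [h1, AddChar.sum_eq_ite]
  split_ifs
  · rw [one_div, inv_mul_cancel₀ hc', sub_self, norm_zero]
    exact zero_le_one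
  · simp

end loc

section kl

variable {F : Type} [Field F] [Fintype F] [CharP F 2]

lemma psiK_sg (x : F) : psiK F x = (sg x : ℂ) := by
  rw [psiK_apply]
  unfold sg
  split_ifs <;> simp

lemma psiK_ne_one : psiK F ≠ 1 := by
  intro h
  obtain ⟨x, hx⟩ := psiK_ne (K := F)
  exact hx (by rw [h]; rfl)

/-- all the additive characters -/
lemma exists_c (χ : AddChar F ℂ) : ∃ c : F, ∀ x, χ x = (sg (c * x) : ℂ) := by
  have h1 : Function.Injective ((psiK F).mulShift) :=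
    AddChar.to_mulShift_inj_of_isPrimitive (AddChar.IsPrimitive.of_ne_one psiK_ne_one)
  have h2 : Function.Bijective ((psiK F).mulShift) := by
    rw [Fintype.bijective_iff_injective_and_card]
    exact ⟨h1, AddChar.card_eq.symm⟩
  obtain ⟨c, hc⟩ := h2.2 χ
  refine ⟨c, fun x => ?_⟩
  rw [← hc, AddChar.mulShift_apply, psiK_sg]

open Classical in
/-- the Kloosterman sums -/
lemma kloo {C : ℝ} (hC : ∀ (F : Type) [Field F] [Fintype F] [CharP F 2] (m : ℕ), m ≤ 1 →
    ∀ (r γ : Fin m → F), Function.Injective r → (∃ i, γ i ≠ 0) → ∀ ξ η : F,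
      |∑ x, pol r γ ξ η x| ≤ C * Real.sqrt (Fintype.card F)) (γ ξ : F) (hγ : γ ≠ 0) :
    ‖∑ w : F, (if w = 0 then (0 : ℂ) else (sg (γ * w⁻¹ + ξ * w) : ℂ))‖ ≤
      C * Real.sqrt (Fintype.card F) := by
  classical
  have h1 := hC F 1 le_rfl (fun _ => 0) (fun _ => γ) (fun i j _ => Subsingleton.elim i j)
    ⟨0, hγ⟩ ξ 0
  have h2 : ∑ w : F, (if w = 0 then (0 : ℂ) else (sg (γ * w⁻¹ + ξ * w) : ℂ)) =
      ((∑ x : F, pol (fun _ : Fin 1 => (0 : F)) (fun _ => γ) ξ 0 x : ℝ) : ℂ) := by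
    push_cast
    refine Finset.sum_congr rfl fun w _ => ?_
    unfold pol
    by_cases hw : w = 0
    · rw [if_pos hw, if_pos ⟨0, hw⟩]
      simp
    · rw [if_neg hw, if_neg (fun h => hw h.choose_spec)]
      simp only [Finset.univ_unique, Finset.sum_singleton, sub_zero, add_zero, div_eq_mul_inv]
  rw [h2, Complex.norm_real, Real.norm_eq_abs]
  exact h1

lemma hat_g {C : ℝ} (hC : ∀ (F : Type) [Field F] [Fintype F] [CharP F 2] (m : ℕ), m ≤ 1 →
    ∀ (r γ : Fin m → F), Function.Injective r → (∃ i, γ i ≠ 0) → ∀ ξ η : F,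
      |∑ x, pol r γ ξ η x| ≤ C * Real.sqrt (Fintype.card F)) (hC1 : 1 ≤ C)
    (χ : AddChar (F × F) ℂ) :
    ‖∑ v : F × F, (gF v : ℂ) * χ v‖ ≤ C * Real.sqrt (Fintype.card F) := by
  classical
  have hc := card_pos' (F := F)
  have hc' : (Fintype.card F : ℂ) ≠ 0 := by exact_mod_cast hc.ne'
  -- the sum over the hyperbola
  have h1 : ∑ v : F × F, (gF v : ℂ) * χ v =
      ∑ v : F × F, (if v.1 * v.2 = 1 then (1 : ℂ) else 0) * χ v -
        ((Fintype.card F : ℂ) - 1) / (Fintype.card F : ℂ) ^ 2 * ∑ v, χ v := by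
    rw [Finset.mul_sum, ← Finset.sum_sub_distrib]
    refine Finset.sum_congr rfl fun v _ => ?_
    unfold gF
    split_ifs <;> push_cast <;> ring
  have h2 : ∑ v : F × F, (if v.1 * v.2 = 1 then (1 : ℂ) else 0) * χ v =
      ∑ w : F, if w = 0 then 0 else χ (w⁻¹, w) := by
    rw [Fintype.sum_prod_type, Finset.sum_comm]
    refine Finset.sum_congr rfl fun w _ => ?_
    exact sum_ind w (fun t => χ (t, w))
  by_cases hχ : χ = 0
  · have e1 : ∀ v, χ v = 1 := by intro v; rw [hχ]; rfl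
    have e2 : ∑ w : F, (if w = 0 then (0 : ℂ) else χ (w⁻¹, w)) = (Fintype.card F : ℂ) - 1 := by
      have e3 : ∀ w : F, (if w = 0 then (0 : ℂ) else χ (w⁻¹, w)) =
          1 - (if w = 0 then 1 else 0) := by
        intro w
        rw [e1]
        split_ifs <;> simp
      rw [Finset.sum_congr rfl fun w _ => e3 w, Finset.sum_sub_distrib]
      simp
    have e4 : ∑ v : F × F, χ v = (Fintype.card F : ℂ) ^ 2 := by
      rw [Finset.sum_congr rfl fun v _ => e1 v]
      simp [sq]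
    rw [h1, h2, e2, e4, div_mul_cancel₀ _ (pow_ne_zero 2 hc'), sub_self, norm_zero]
    positivity
  · have e1 : ∑ v : F × F, χ v = 0 := by
      rw [AddChar.sum_eq_ite, if_neg hχ]
    rw [h1, h2, e1, mul_zero, sub_zero]
    obtain ⟨α, hα⟩ := exists_c (χ.compAddMonoidHom (AddMonoidHom.inl F F))
    obtain ⟨β, hβ⟩ := exists_c (χ.compAddMonoidHom (AddMonoidHom.inr F F))
    have e2 : ∀ t w : F, χ (t, w) = (sg (α * t + β * w) : ℂ) := by
      intro t w
      have e3 : ((t, w) : F × F) = (t, 0) + (0, w) := by simp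
      have e4 : χ (t, 0) = (sg (α * t) : ℂ) := hα t
      have e5 : χ (0, w) = (sg (β * w) : ℂ) := hβ w
      rw [e3, χ.map_add_eq_mul, e4, e5, ← psiK_sg, ← psiK_sg, ← psiK_sg,
        (psiK F).map_add_eq_mul]
    have e6 : ∑ w : F, (if w = 0 then (0 : ℂ) else χ (w⁻¹, w)) =
        ∑ w : F, (if w = 0 then (0 : ℂ) else (sg (α * w⁻¹ + β * w) : ℂ)) := by
      refine Finset.sum_congr rfl fun w _ => ?_
      rw [e2]
    rw [e6]
    by_cases ha : α = 0
    · have hb : β ≠ 0 := by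
        intro hb
        apply hχ
        ext v
        obtain ⟨t, w⟩ := v
        rw [e2, ha, hb, zero_mul, zero_mul, add_zero, ← psiK_sg, (psiK F).map_zero_eq_one]
        rfl
      have e7 : ∑ w : F, (if w = 0 then (0 : ℂ) else (sg (α * w⁻¹ + β * w) : ℂ)) =
          ∑ w : F, (if w = 0 then (0 : ℂ) else (sg (β * w⁻¹ + α * w) : ℂ)) := by
        rw [← Equiv.sum_comp (Equiv.inv F)]
        refine Finset.sum_congr rfl fun w _ => ?_
        rw [Equiv.inv_apply, inv_inv]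
        simp only [inv_eq_zero]
        rw [add_comm (α * w)]
      rw [e7]
      exact kloo hC β α hb
    · exact kloo hC α β ha

end kl

section glob

variable {K : Type} [Field K] [Fintype K] [CharP K 2]

/-- the residue of `E u` -/
noncomputable def ph1 (E : K[X]) (L : ℕ) (P : K[X]) : degreeLT K L →+ AdjoinRoot P where
  toFun u := AdjoinRoot.mk P (E * u.1)
  map_zero' := by
    show AdjoinRoot.mk P (E * 0) = 0
    rw [mul_zero, map_zero]
  map_add' u v := by
    show AdjoinRoot.mk P (E * (u.1 + v.1)) = _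
    rw [mul_add, map_add]

noncomputable local instance ftU (L : ℕ) : Fintype (degreeLT K L) := Fintype.ofFinite _

lemma card_U (L : ℕ) : Fintype.card (degreeLT K L) = Fintype.card K ^ L := by
  rw [Fintype.card_congr (degreeLTEquiv K L).toEquiv, Fintype.card_fun, Fintype.card_fin]

/-- the residues of `E u` -/
noncomputable def Ph (E : K[X]) (T : Finset K[X]) (L : ℕ) :
    degreeLT K L →+ (∀ i : {P // P ∈ T}, AdjoinRoot i.1) where
  toFun u i := ph1 E L i.1 u
  map_zero' := by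
    funext i
    exact map_zero _
  map_add' u v := by
    funext i
    exact map_add _ u v

variable {E : K[X]} {T : Finset K[X]} (hT : ∀ P ∈ T, P.Monic ∧ Irreducible P)
  (hE : ∀ P ∈ T, ¬ P ∣ E)
include hT hE

lemma ph1_inj {L : ℕ} (hL : L ≤ ∑ P ∈ T, P.natDegree) (u : degreeLT K L)
    (hu : ∀ P ∈ T, ph1 E L P u = 0) : u = 0 := by
  classical
  have h1 : ∀ P ∈ T, P ∣ u.1 := by
    intro P hP
    have h2 : AdjoinRoot.mk P (E * u.1) = 0 := hu P hP
    rw [AdjoinRoot.mk_eq_zero] at h2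
    exact (((hT P hP).2.coprime_iff_not_dvd).2 (hE P hP)).dvd_of_dvd_mul_left h2
  have h2 : ∏ P ∈ T, P ∣ u.1 := by
    apply Finset.prod_dvd_of_coprime _ h1
    intro P hP Q hQ hPQ
    rw [Finset.mem_coe] at hP hQ
    show IsCoprime P Q
    rw [(hT P hP).2.coprime_iff_not_dvd]
    intro hd
    exact hPQ (eq_of_monic_of_associated (hT P hP).1 (hT Q hQ).1
      ((hT P hP).2.associated_of_dvd (hT Q hQ).2 hd))
  by_contra hne
  have hne' : u.1 ≠ 0 := fun h => hne (Subtype.ext h)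
  have h3 := natDegree_le_of_dvd h2 hne'
  have h4 := (natDegree_lt_iff_degree_lt hne').2 (mem_degreeLT.1 u.2)
  have h5 : (∏ P ∈ T, P).natDegree = ∑ P ∈ T, P.natDegree :=
    natDegree_prod_of_monic _ _ fun P hP => (hT P hP).1
  omega

lemma card_W [inst : ∀ i : {P // P ∈ T}, Fact (Irreducible i.1)]
    [ft : Fintype (∀ i : {P // P ∈ T}, AdjoinRoot i.1)] :
    Fintype.card (∀ i : {P // P ∈ T}, AdjoinRoot i.1) =
      Fintype.card K ^ ∑ P ∈ T, P.natDegree := by
  classical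
  rw [Subsingleton.elim ft Pi.instFintype, Fintype.card_pi, ← Finset.prod_pow_eq_pow_sum,
    ← Finset.prod_coe_sort T (fun P => Fintype.card K ^ P.natDegree)]
  exact Finset.prod_congr rfl fun i _ => card_P i.1

lemma Ph_surj [inst : ∀ i : {P // P ∈ T}, Fact (Irreducible i.1)] {L : ℕ}
    (hL : ∑ P ∈ T, P.natDegree ≤ L) : Function.Surjective (Ph E T L) := by
  classical
  have h1 : Function.Bijective (Ph E T (∑ P ∈ T, P.natDegree)) := by
    rw [Fintype.bijective_iff_injective_and_card]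
    constructor
    · rw [injective_iff_map_eq_zero]
      intro u hu
      exact ph1_inj hT hE le_rfl u fun P hP => congrFun hu ⟨P, hP⟩
    · rw [card_U, card_W hT hE]
  intro z
  obtain ⟨u, hu⟩ := h1.2 z
  refine ⟨⟨u.1, ?_⟩, ?_⟩
  · rw [mem_degreeLT]
    exact (mem_degreeLT.1 u.2).trans_le (by exact_mod_cast hL)
  · rw [← hu]
    rfl

omit hT hE in
lemma sum_surj {U W : Type} [AddCommGroup U] [Fintype U] [AddCommGroup W] [Fintype W]
    (φ : U →+ W) (hφ : Function.Surjective φ) (f : W → ℝ) :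
    ∑ u, f (φ u) = (Fintype.card U : ℝ) / (Fintype.card W : ℝ) * ∑ w, f w := by
  classical
  have hc : ∀ w : W, (Finset.univ.filter fun u => φ u = w).card =
      (Finset.univ.filter fun u => φ u = 0).card := by
    intro w
    exact AddMonoidHom.card_fiber_eq_of_mem_range φ (hφ w) (hφ 0)
  have h1 : ∀ f : W → ℝ, ∑ u, f (φ u) =
      ((Finset.univ.filter fun u => φ u = 0).card : ℝ) * ∑ w, f w := by
    intro f
    rw [← Finset.sum_fiberwise Finset.univ φ (fun u => f (φ u)), Finset.mul_sum]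
    refine Finset.sum_congr rfl fun w _ => ?_
    rw [Finset.sum_congr rfl (g := fun _ => f w) (fun u hu => by
      rw [(Finset.mem_filter.1 hu).2]), Finset.sum_const, nsmul_eq_mul, hc w]
  have h2 := h1 fun _ => 1
  simp only [Finset.sum_const, Finset.card_univ, nsmul_eq_mul, mul_one] at h2
  have hW : (Fintype.card W : ℝ) ≠ 0 := by
    have : 0 < Fintype.card W := Fintype.card_pos
    positivity
  rw [h1 f, h2, mul_div_assoc, div_self hW, mul_one]

lemma row [inst : ∀ i : {P // P ∈ T}, Fact (Irreducible i.1)] {L : ℕ}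
    (hL : ∑ P ∈ T, P.natDegree ≤ L) (G : ∀ i : {P // P ∈ T}, AdjoinRoot i.1 → ℝ)
    (a : ∀ i : {P // P ∈ T}, AdjoinRoot i.1) :
    ∑ x : degreeLT K L, ∏ i : {P // P ∈ T}, G i (a i + ph1 E L i.1 x) =
      (Fintype.card K : ℝ) ^ L / (Fintype.card K : ℝ) ^ (∑ P ∈ T, P.natDegree) *
        ∏ i : {P // P ∈ T}, ∑ t, G i t := by
  classical
  have h1 := sum_surj (Ph E T L) (Ph_surj hT hE hL)
    (fun w => ∏ i : {P // P ∈ T}, G i (a i + w i))
  rw [card_U, card_W hT hE] at h1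
  push_cast at h1
  have h2 : ∑ w : (∀ i : {P // P ∈ T}, AdjoinRoot i.1), ∏ i : {P // P ∈ T}, G i (a i + w i) =
      ∏ i : {P // P ∈ T}, ∑ t, G i t := by
    have h3 : ∀ i : {P // P ∈ T}, ∑ t, G i t = ∑ t, G i (a i + t) := fun i =>
      (Equiv.sum_comp (Equiv.addLeft (a i)) (G i)).symm
    rw [Finset.prod_congr rfl fun i _ => h3 i, Finset.prod_univ_sum, Fintype.piFinset_univ]
  rw [h2] at h1
  exact h1

lemma col (hcmp : S_cmp) [inst : ∀ i : {P // P ∈ T}, Fact (Irreducible i.1)] {L : ℕ}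
    (hL : L ≤ ∑ P ∈ T, P.natDegree) (b : ∀ i : {P // P ∈ T}, AdjoinRoot i.1) :
    |∑ y : degreeLT K L, ∏ i : {P // P ∈ T}, hF (b i + ph1 E L i.1 y)| ≤ 1 := by
  classical
  have h1 := hcmp {P // P ∈ T} (fun i => AdjoinRoot i.1) (degreeLT K L)
    (fun i => ph1 E L i.1) (fun i v => (hF v : ℂ)) ∅
    (fun u hu => ph1_inj hT hE hL u fun P hP => hu ⟨P, hP⟩ (Finset.notMem_empty _))
    (fun _ => 1) (fun _ => zero_le_one) (fun i _ χ => hat_h χ)
    (fun i hi => absurd hi (Finset.notMem_empty _)) b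
  rw [Finset.prod_const_one] at h1
  have h2 : ((∑ y : degreeLT K L, ∏ i : {P // P ∈ T}, hF (b i + ph1 E L i.1 y) : ℝ) : ℂ) =
      ∑ y : degreeLT K L, ∏ i : {P // P ∈ T}, (hF (b i + ph1 E L i.1 y) : ℂ) := by
    push_cast
    rfl
  rw [← Real.norm_eq_abs, ← Complex.norm_real, h2]
  exact h1

lemma half (hcmp : S_cmp) (hne : T.Nonempty) [inst : ∀ i : {P // P ∈ T}, Fact (Irreducible i.1)]
    {L₁ L₂ : ℕ} (hL : ∑ P ∈ T, P.natDegree ≤ L₁) (a b : ∀ i : {P // P ∈ T}, AdjoinRoot i.1) :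
    |∑ x : degreeLT K L₁, ∑ y : degreeLT K L₂, ∏ i : {P // P ∈ T},
      gF (a i + ph1 E L₁ i.1 x, b i + ph1 E L₂ i.1 y)| ≤ (Fintype.card K : ℝ) ^ (L₁ - L₂) := by
  classical
  have hq : (1 : ℝ) ≤ Fintype.card K := by exact_mod_cast Nat.succ_le_of_lt Fintype.card_pos
  have hq0 : (0 : ℝ) < Fintype.card K := by linarith
  have h1 : ∑ x : degreeLT K L₁, ∑ y : degreeLT K L₂, ∏ i : {P // P ∈ T},
      gF (a i + ph1 E L₁ i.1 x, b i + ph1 E L₂ i.1 y) =
      (Fintype.card K : ℝ) ^ L₁ / (Fintype.card K : ℝ) ^ (∑ P ∈ T, P.natDegree) *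
        ∑ y : degreeLT K L₂, ∏ i : {P // P ∈ T}, hF (b i + ph1 E L₂ i.1 y) := by
    rw [Finset.sum_comm, Finset.mul_sum]
    refine Finset.sum_congr rfl fun y _ => ?_
    have h2 := row hT hE hL (fun i t => gF (t, b i + ph1 E L₂ i.1 y)) a
    simp only [sum_g_left] at h2
    exact h2
  rw [h1]
  rcases le_total L₂ (∑ P ∈ T, P.natDegree) with h | h
  · rw [abs_mul, abs_of_pos (by positivity)]
    calc (Fintype.card K : ℝ) ^ L₁ / (Fintype.card K : ℝ) ^ (∑ P ∈ T, P.natDegree) *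
        |∑ y : degreeLT K L₂, ∏ i : {P // P ∈ T}, hF (b i + ph1 E L₂ i.1 y)| ≤
        (Fintype.card K : ℝ) ^ L₁ / (Fintype.card K : ℝ) ^ (∑ P ∈ T, P.natDegree) * 1 :=
          mul_le_mul_of_nonneg_left (col hT hE hcmp h b) (by positivity)
      _ = (Fintype.card K : ℝ) ^ (L₁ - ∑ P ∈ T, P.natDegree) := by
          rw [mul_one, pow_sub₀ _ hq0.ne' hL, div_eq_mul_inv]
      _ ≤ _ := pow_le_pow_right₀ hq (by omega)
  · have h3 := row hT hE h (fun i t => hF t) b
    have h4 : ∏ i : {P // P ∈ T}, ∑ t : AdjoinRoot i.1, hF t = 0 := by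
      obtain ⟨P, hP⟩ := hne
      exact Finset.prod_eq_zero (Finset.mem_univ ⟨P, hP⟩) sum_h
    rw [h3, h4, mul_zero, mul_zero, abs_zero]
    positivity

lemma sqrt_prod [inst : ∀ i : {P // P ∈ T}, Fact (Irreducible i.1)] :
    ∏ i : {P // P ∈ T}, Real.sqrt (Fintype.card (AdjoinRoot i.1)) =
      (Fintype.card K : ℝ) ^ (((∑ P ∈ T, P.natDegree : ℕ) : ℝ) / 2) := by
  classical
  have hq0 : (0 : ℝ) < Fintype.card K := by exact_mod_cast Fintype.card_pos
  have h1 : ∀ i : {P // P ∈ T}, Real.sqrt (Fintype.card (AdjoinRoot i.1)) =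
      (Fintype.card K : ℝ) ^ (((i.1.natDegree : ℕ) : ℝ) / 2) := by
    intro i
    rw [card_P i.1, Real.sqrt_eq_rpow]
    push_cast
    rw [← Real.rpow_natCast, ← Real.rpow_mul hq0.le]
    congr 1
    ring
  rw [Finset.prod_congr rfl fun i _ => h1 i,
    Finset.prod_coe_sort T (fun P => (Fintype.card K : ℝ) ^ (((P.natDegree : ℕ) : ℝ) / 2)),
    ← Real.rpow_sum_of_pos hq0]
  congr 1
  push_cast
  rw [Finset.sum_div]

lemma part (hcmp : S_cmp) {C : ℝ}
    (hC : ∀ (F : Type) [Field F] [Fintype F] [CharP F 2] (m : ℕ), m ≤ 1 →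
    ∀ (r γ : Fin m → F), Function.Injective r → (∃ i, γ i ≠ 0) → ∀ ξ η : F,
      |∑ x, pol r γ ξ η x| ≤ C * Real.sqrt (Fintype.card F)) (hC1 : 1 ≤ C)
    (hne : T.Nonempty) [inst : ∀ i : {P // P ∈ T}, Fact (Irreducible i.1)]
    (L₁ L₂ : ℕ) (a b : ∀ i : {P // P ∈ T}, AdjoinRoot i.1) :
    |∑ x : degreeLT K L₁, ∑ y : degreeLT K L₂, ∏ i : {P // P ∈ T},
      gF (a i + ph1 E L₁ i.1 x, b i + ph1 E L₂ i.1 y)| ≤
      C ^ T.card * ((Fintype.card K : ℝ) ^ (((∑ P ∈ T, P.natDegree : ℕ) : ℝ) / 2) +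
        (Fintype.card K : ℝ) ^ ((L₁ - L₂) + (L₂ - L₁))) := by
  classical
  have hq : (1 : ℝ) ≤ Fintype.card K := by exact_mod_cast Nat.succ_le_of_lt Fintype.card_pos
  have hq0 : (0 : ℝ) < Fintype.card K := by linarith
  have hCT : 1 ≤ C ^ T.card := one_le_pow₀ hC1
  have hr : 0 ≤ (Fintype.card K : ℝ) ^ (((∑ P ∈ T, P.natDegree : ℕ) : ℝ) / 2) :=
    Real.rpow_nonneg hq0.le _
  have hfin : ∀ n : ℕ, n ≤ (L₁ - L₂) + (L₂ - L₁) → (Fintype.card K : ℝ) ^ n ≤
      C ^ T.card * ((Fintype.card K : ℝ) ^ (((∑ P ∈ T, P.natDegree : ℕ) : ℝ) / 2) +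
        (Fintype.card K : ℝ) ^ ((L₁ - L₂) + (L₂ - L₁))) := by
    intro n hn
    have h1 : (Fintype.card K : ℝ) ^ n ≤ (Fintype.card K : ℝ) ^ ((L₁ - L₂) + (L₂ - L₁)) :=
      pow_le_pow_right₀ hq hn
    have h2 : 0 < (Fintype.card K : ℝ) ^ ((L₁ - L₂) + (L₂ - L₁)) := by positivity
    nlinarith
  by_cases h1 : ∑ P ∈ T, P.natDegree ≤ L₁
  · exact (half hT hE hcmp hne h1 a b).trans (hfin _ (by omega))
  by_cases h2 : ∑ P ∈ T, P.natDegree ≤ L₂
  · have h3 := half hT hE hcmp hne (L₂ := L₁) h2 b a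
    have h4 : ∑ x : degreeLT K L₁, ∑ y : degreeLT K L₂, ∏ i : {P // P ∈ T},
        gF (a i + ph1 E L₁ i.1 x, b i + ph1 E L₂ i.1 y) =
        ∑ y : degreeLT K L₂, ∑ x : degreeLT K L₁, ∏ i : {P // P ∈ T},
        gF (b i + ph1 E L₂ i.1 y, a i + ph1 E L₁ i.1 x) := by
      rw [Finset.sum_comm]
      refine Finset.sum_congr rfl fun y _ => Finset.sum_congr rfl fun x _ =>
        Finset.prod_congr rfl fun i _ => gF_symm _ _
    rw [h4]
    exact h3.trans (hfin _ (by omega))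
  · push Not at h1 h2
    have h3 := hcmp {P // P ∈ T} (fun i => AdjoinRoot i.1 × AdjoinRoot i.1)
      (degreeLT K L₁ × degreeLT K L₂)
      (fun i => (ph1 E L₁ i.1).prodMap (ph1 E L₂ i.1)) (fun i v => (gF v : ℂ)) ∅
      (fun u hu => by
        have h5 : ∀ P (hP : P ∈ T), (ph1 E L₁ P u.1, ph1 E L₂ P u.2) = 0 := fun P hP =>
          hu ⟨P, hP⟩ (Finset.notMem_empty _)
        exact Prod.ext
          (ph1_inj hT hE h1.le u.1 fun P hP => congrArg Prod.fst (h5 P hP))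
          (ph1_inj hT hE h2.le u.2 fun P hP => congrArg Prod.snd (h5 P hP)))
      (fun i => C * Real.sqrt (Fintype.card (AdjoinRoot i.1)))
      (fun i => by positivity)
      (fun i _ χ => hat_g hC hC1 χ)
      (fun i hi => absurd hi (Finset.notMem_empty _)) (fun i => (a i, b i))
    have h4 : ((∑ x : degreeLT K L₁, ∑ y : degreeLT K L₂, ∏ i : {P // P ∈ T},
        gF (a i + ph1 E L₁ i.1 x, b i + ph1 E L₂ i.1 y) : ℝ) : ℂ) =
        ∑ u : degreeLT K L₁ × degreeLT K L₂, ∏ i : {P // P ∈ T},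
          (gF ((a i, b i) + (ph1 E L₁ i.1).prodMap (ph1 E L₂ i.1) u) : ℂ) := by
      rw [Fintype.sum_prod_type]
      push_cast
      rfl
    rw [← Real.norm_eq_abs, ← Complex.norm_real, h4]
    refine h3.trans ?_
    rw [Finset.prod_mul_distrib, sqrt_prod hT hE, Finset.prod_const, Finset.card_univ,
      Fintype.card_coe]
    have h5 : 0 < (Fintype.card K : ℝ) ^ ((L₁ - L₂) + (L₂ - L₁)) := by positivity
    exact mul_le_mul_of_nonneg_left (by linarith) (by positivity)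

end glob

section asm

variable {K : Type} [Field K] [Fintype K] [CharP K 2]

noncomputable local instance ftU' (L : ℕ) : Fintype (degreeLT K L) := Fintype.ofFinite _

/-- the density at `P` -/
noncomputable def dd (P : K[X]) : ℝ :=
  ((Fintype.card K : ℝ) ^ P.natDegree - 1) / ((Fintype.card K : ℝ) ^ P.natDegree) ^ 2

open Classical in
/-- the indicator minus the density -/
noncomputable def GG (P a b : K[X]) : ℝ := (if P ∣ a * b - 1 then 1 else 0) - dd P

lemma dd_nonneg (P : K[X]) : 0 ≤ dd P := by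
  have hq : (1 : ℝ) ≤ Fintype.card K := by exact_mod_cast Nat.succ_le_of_lt Fintype.card_pos
  have h1 : 1 ≤ (Fintype.card K : ℝ) ^ P.natDegree := one_le_pow₀ hq
  unfold dd
  apply div_nonneg (by linarith) (by positivity)

lemma dd_le (P : K[X]) : dd P ≤ 1 := by
  have hq : (1 : ℝ) ≤ Fintype.card K := by exact_mod_cast Nat.succ_le_of_lt Fintype.card_pos
  have h1 : 1 ≤ (Fintype.card K : ℝ) ^ P.natDegree := one_le_pow₀ hq
  unfold dd
  rw [div_le_one (by positivity)]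
  nlinarith

lemma GG_eq (P a b : K[X]) [hP : Fact (Irreducible P)] :
    GG P a b = gF (AdjoinRoot.mk P a, AdjoinRoot.mk P b) := by
  classical
  unfold GG gF dd
  rw [card_P P]
  push_cast
  congr 1
  have h1 : P ∣ a * b - 1 ↔ AdjoinRoot.mk P a * AdjoinRoot.mk P b = 1 := by
    rw [← map_mul, ← map_one (AdjoinRoot.mk P), AdjoinRoot.mk_eq_mk]
  simp only [h1]

/-- the sum over the box for a set of primes -/
noncomputable def SS (E t₀ w₀ : K[X]) (L₁ L₂ : ℕ) (T : Finset K[X]) : ℝ :=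
  ∑ x : degreeLT K L₁, ∑ y : degreeLT K L₂, ∏ P ∈ T, GG P (t₀ + E * x.1) (w₀ + E * y.1)

lemma SS_le (hcmp : S_cmp) {C : ℝ}
    (hC : ∀ (F : Type) [Field F] [Fintype F] [CharP F 2] (m : ℕ), m ≤ 1 →
    ∀ (r γ : Fin m → F), Function.Injective r → (∃ i, γ i ≠ 0) → ∀ ξ η : F,
      |∑ x, pol r γ ξ η x| ≤ C * Real.sqrt (Fintype.card F)) (hC1 : 1 ≤ C)
    {E t₀ w₀ : K[X]} {L₁ L₂ : ℕ} {T : Finset K[X]} (hT : ∀ P ∈ T, P.Monic ∧ Irreducible P)
    (hE : ∀ P ∈ T, ¬ P ∣ E) (hne : T.Nonempty) :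
    |SS E t₀ w₀ L₁ L₂ T| ≤
      C ^ T.card * ((Fintype.card K : ℝ) ^ (((∑ P ∈ T, P.natDegree : ℕ) : ℝ) / 2) +
        (Fintype.card K : ℝ) ^ ((L₁ - L₂) + (L₂ - L₁))) := by
  have inst : ∀ i : {P // P ∈ T}, Fact (Irreducible i.1) := fun i => ⟨(hT i.1 i.2).2⟩
  have h1 := part hT hE hcmp hC hC1 hne L₁ L₂ (fun i => AdjoinRoot.mk i.1 t₀)
    (fun i => AdjoinRoot.mk i.1 w₀)
  have h2 : SS E t₀ w₀ L₁ L₂ T = ∑ x : degreeLT K L₁, ∑ y : degreeLT K L₂,
      ∏ i : {P // P ∈ T}, gF (AdjoinRoot.mk i.1 t₀ + ph1 E L₁ i.1 x,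
        AdjoinRoot.mk i.1 w₀ + ph1 E L₂ i.1 y) := by
    unfold SS
    refine Finset.sum_congr rfl fun x _ => Finset.sum_congr rfl fun y _ => ?_
    rw [← Finset.prod_coe_sort T (fun P => GG P (t₀ + E * x.1) (w₀ + E * y.1))]
    refine Finset.prod_congr rfl fun i _ => ?_
    rw [GG_eq, map_add, map_add]
    rfl
  rw [h2]
  exact h1

end asm

end HypAux

open HypAux in
/-- **Task HYP.** -/
theorem hyp (hw : Pool.Agent.H985.KP.S_weil) : S_hyp := by
  classical
  intro K _ _ _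
  obtain ⟨C, hC1, hC⟩ := hw 1
  have hcmp : S_cmp := Pool.Agent.H985.Chow.cmp
  have hq : (1 : ℝ) ≤ Fintype.card K := by exact_mod_cast Nat.succ_le_of_lt Fintype.card_pos
  have hq0 : (0 : ℝ) < Fintype.card K := by linarith
  refine ⟨1 + C, by linarith, ?_⟩
  intro m E t₀ w₀ L₁ L₂ hm hsq hcop
  obtain ⟨I, hI, hprod⟩ := facs hm hsq
  have hT : ∀ P ∈ I, P.Monic ∧ Irreducible P := fun P hP => ⟨((hI P).1 hP).1, ((hI P).1 hP).2.1⟩
  have hE : ∀ P ∈ I, ¬ P ∣ E := by
    intro P hP hd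
    have h1 := (hI P).1 hP
    exact h1.2.1.not_isUnit (hcop.isUnit_of_dvd' hd h1.2.2)
  have hPA : PA m = (I : Set K[X]) := by
    ext P
    rw [Finset.mem_coe, hI]
    rfl
  have hdeg : m.natDegree = ∑ P ∈ I, P.natDegree := by
    rw [← hprod]
    exact natDegree_prod_of_monic _ _ fun P hP => (hT P hP).1
  -- the count
  let ft : ∀ L : ℕ, Fintype (degreeLT K L) := fun L => Fintype.ofFinite _
  have hcount : (({p : K[X] × K[X] | p.1.degree < (L₁ : WithBot ℕ) ∧
      p.2.degree < (L₂ : WithBot ℕ) ∧ m ∣ (t₀ + E * p.1) * (w₀ + E * p.2) - 1}.ncard : ℕ) : ℝ) =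
      ∑ x : degreeLT K L₁, ∑ y : degreeLT K L₂,
        if m ∣ (t₀ + E * x.1) * (w₀ + E * y.1) - 1 then (1 : ℝ) else 0 := by
    have h1 : {p : K[X] × K[X] | p.1.degree < (L₁ : WithBot ℕ) ∧
        p.2.degree < (L₂ : WithBot ℕ) ∧ m ∣ (t₀ + E * p.1) * (w₀ + E * p.2) - 1} =
        (fun u : degreeLT K L₁ × degreeLT K L₂ => ((u.1.1, u.2.1) : K[X] × K[X])) ''
          ((Finset.univ.filter fun u : degreeLT K L₁ × degreeLT K L₂ =>
            m ∣ (t₀ + E * u.1.1) * (w₀ + E * u.2.1) - 1 : Finset _) : Set _) := by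
      ext p
      constructor
      · rintro ⟨h2, h3, h4⟩
        refine ⟨(⟨p.1, mem_degreeLT.2 h2⟩, ⟨p.2, mem_degreeLT.2 h3⟩), ?_, rfl⟩
        rw [Finset.mem_coe, Finset.mem_filter]
        exact ⟨Finset.mem_univ _, h4⟩
      · rintro ⟨u, hu, rfl⟩
        rw [Finset.mem_coe, Finset.mem_filter] at hu
        exact ⟨mem_degreeLT.1 u.1.2, mem_degreeLT.1 u.2.2, hu.2⟩
    have h2 : Function.Injective
        (fun u : degreeLT K L₁ × degreeLT K L₂ => ((u.1.1, u.2.1) : K[X] × K[X])) := by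
      intro u v huv
      exact Prod.ext (Subtype.ext (congrArg Prod.fst huv)) (Subtype.ext (congrArg Prod.snd huv))
    rw [h1, Set.ncard_image_of_injective _ h2, Set.ncard_coe_finset, Finset.card_filter]
    push_cast
    rw [Fintype.sum_prod_type]
  -- the expansion
  have hexp : ∀ a b : K[X], (if m ∣ a * b - 1 then (1 : ℝ) else 0) =
      ∑ T ∈ I.powerset, (∏ P ∈ T, GG P a b) * ∏ P ∈ I \ T, dd P := by
    intro a b
    rw [← Finset.prod_add]
    have h1 : ∀ P ∈ I, GG P a b + dd P = if P ∣ a * b - 1 then (1 : ℝ) else 0 := by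
      intro P _
      unfold GG
      ring
    rw [Finset.prod_congr rfl h1]
    by_cases h2 : m ∣ a * b - 1
    · rw [if_pos h2]
      symm
      apply Finset.prod_eq_one
      intro P hP
      rw [if_pos (((hI P).1 hP).2.2.trans h2)]
    · rw [if_neg h2]
      symm
      rw [Finset.prod_eq_zero_iff]
      by_contra hc
      push Not at hc
      apply h2
      rw [← hprod]
      apply Finset.prod_dvd_of_coprime
      · intro P hP Q hQ hPQ
        rw [Finset.mem_coe] at hP hQ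
        show IsCoprime P Q
        rw [(hT P hP).2.coprime_iff_not_dvd]
        intro hd
        exact hPQ (eq_of_monic_of_associated (hT P hP).1 (hT Q hQ).1
          ((hT P hP).2.associated_of_dvd (hT Q hQ).2 hd))
      · intro P hP
        by_contra h3
        exact hc P hP (if_neg h3)
  have hsum : ∑ x : degreeLT K L₁, ∑ y : degreeLT K L₂,
      (if m ∣ (t₀ + E * x.1) * (w₀ + E * y.1) - 1 then (1 : ℝ) else 0) =
      ∑ T ∈ I.powerset, SS E t₀ w₀ L₁ L₂ T * ∏ P ∈ I \ T, dd P := by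
    unfold SS
    simp only [hexp]
    simp only [Finset.sum_mul]
    have h1 : ∀ x : degreeLT K L₁, ∑ y : degreeLT K L₂, ∑ T ∈ I.powerset,
        (∏ P ∈ T, GG P (t₀ + E * x.1) (w₀ + E * y.1)) * ∏ P ∈ I \ T, dd P =
        ∑ T ∈ I.powerset, ∑ y : degreeLT K L₂,
        (∏ P ∈ T, GG P (t₀ + E * x.1) (w₀ + E * y.1)) * ∏ P ∈ I \ T, dd P :=
      fun x => Finset.sum_comm
    simp only [h1]
    exact Finset.sum_comm
  have hempty : SS E t₀ w₀ L₁ L₂ ∅ * ∏ P ∈ I \ ∅, dd P =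
      (Fintype.card K : ℝ) ^ (L₁ + L₂) / (Fintype.card K : ℝ) ^ m.natDegree *
        ∏ᶠ P ∈ PA m, (1 - 1 / (Fintype.card K : ℝ) ^ P.natDegree) := by
    have h1 : SS E t₀ w₀ L₁ L₂ ∅ = (Fintype.card K : ℝ) ^ (L₁ + L₂) := by
      unfold SS
      simp only [Finset.prod_empty, Finset.sum_const, Finset.card_univ, nsmul_eq_mul, mul_one]
      have c1 := card_U (K := K) L₁
      have c2 := card_U (K := K) L₂
      rw [c1, c2, pow_add]
      push_cast
      ring
    have h2 : ∏ P ∈ I, dd P = (∏ P ∈ I, (1 - 1 / (Fintype.card K : ℝ) ^ P.natDegree)) /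
        (Fintype.card K : ℝ) ^ m.natDegree := by
      rw [hdeg, ← Finset.prod_pow_eq_pow_sum, ← Finset.prod_div_distrib]
      refine Finset.prod_congr rfl fun P _ => ?_
      unfold dd
      have h3 : (Fintype.card K : ℝ) ^ P.natDegree ≠ 0 := (pow_pos hq0 _).ne'
      field_simp
    rw [h1, Finset.sdiff_empty, h2, hPA, finprod_mem_coe_finset]
    ring
  rw [hcount, hsum, ← hempty,
    ← Finset.add_sum_erase _ _ (Finset.empty_mem_powerset I), add_sub_cancel_left]
  have hR : 0 ≤ (Fintype.card K : ℝ) ^ ((m.natDegree : ℝ) / 2) +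
      (Fintype.card K : ℝ) ^ ((L₁ - L₂) + (L₂ - L₁)) :=
    add_nonneg (Real.rpow_nonneg hq0.le _) (by positivity)
  calc |∑ T ∈ I.powerset.erase ∅, SS E t₀ w₀ L₁ L₂ T * ∏ P ∈ I \ T, dd P|
      ≤ ∑ T ∈ I.powerset.erase ∅, |SS E t₀ w₀ L₁ L₂ T * ∏ P ∈ I \ T, dd P| :=
        Finset.abs_sum_le_sum_abs _ _
    _ ≤ ∑ T ∈ I.powerset.erase ∅, C ^ T.card * ((Fintype.card K : ℝ) ^ ((m.natDegree : ℝ) / 2) +
          (Fintype.card K : ℝ) ^ ((L₁ - L₂) + (L₂ - L₁))) := by
        refine Finset.sum_le_sum fun T hT' => ?_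
        obtain ⟨hT0, hTI⟩ := Finset.mem_erase.1 hT'
        rw [Finset.mem_powerset] at hTI
        have h1 := SS_le hcmp hC hC1 (t₀ := t₀) (w₀ := w₀) (L₁ := L₁) (L₂ := L₂)
          (fun P hP => hT P (hTI hP)) (fun P hP => hE P (hTI hP))
          (Finset.nonempty_iff_ne_empty.2 hT0)
        have h2 : ∏ P ∈ I \ T, dd P ≤ 1 :=
          Finset.prod_le_one (fun P _ => dd_nonneg P) fun P _ => dd_le P
        have h3 : 0 ≤ ∏ P ∈ I \ T, dd P := Finset.prod_nonneg fun P _ => dd_nonneg P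
        have h4 : (Fintype.card K : ℝ) ^ (((∑ P ∈ T, P.natDegree : ℕ) : ℝ) / 2) ≤
            (Fintype.card K : ℝ) ^ ((m.natDegree : ℝ) / 2) := by
          apply Real.rpow_le_rpow_of_exponent_le hq
          have h5 : ∑ P ∈ T, P.natDegree ≤ m.natDegree := by
            rw [hdeg]
            exact Finset.sum_le_sum_of_subset hTI
          have h6 : ((∑ P ∈ T, P.natDegree : ℕ) : ℝ) ≤ (m.natDegree : ℝ) := by exact_mod_cast h5
          linarith
        rw [abs_mul, abs_of_nonneg h3]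
        calc |SS E t₀ w₀ L₁ L₂ T| * ∏ P ∈ I \ T, dd P ≤ |SS E t₀ w₀ L₁ L₂ T| * 1 :=
              mul_le_mul_of_nonneg_left h2 (abs_nonneg _)
          _ = |SS E t₀ w₀ L₁ L₂ T| := mul_one _
          _ ≤ _ := h1
          _ ≤ _ := mul_le_mul_of_nonneg_left (by linarith) (by positivity)
    _ ≤ ∑ T ∈ I.powerset, C ^ T.card * ((Fintype.card K : ℝ) ^ ((m.natDegree : ℝ) / 2) +
          (Fintype.card K : ℝ) ^ ((L₁ - L₂) + (L₂ - L₁))) :=
        Finset.sum_le_sum_of_subset_of_nonneg (Finset.erase_subset _ _) fun T _ _ =>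
          mul_nonneg (by positivity) hR
    _ = (1 + C) ^ (PA m).ncard * ((Fintype.card K : ℝ) ^ ((m.natDegree : ℝ) / 2) +
          (Fintype.card K : ℝ) ^ ((L₁ - L₂) + (L₂ - L₁))) := by
        rw [← Finset.sum_mul, hPA, Set.ncard_coe_finset]
        congr 1
        have h1 := Finset.sum_pow_mul_eq_add_pow C 1 I
        simp only [one_pow, mul_one] at h1
        rw [h1, add_comm]

end Pool.Agent.H604.LD
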