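import Pool.Agent.H604.LD.Stm

/-!
# Primes `a ^ 2 + X` over `F_q[X]`, `q` even: the near sums (task NEAR)
-/

set_option autoImplicit false

namespace Pool.Agent.H604.LD

open Polynomial
open scoped Classical
open Pool.Agent.H985.Chow (mob lc)
open Pool.Agent.H985.KP (sg PA mobg Good2 S_typ2)
open Pool.Agent.H985.FC (GP S_gcs S_winF)
open Pool.Agent.H694.Typ (Mn PU)

namespace NearL

section base
variable {K : Type} [Field K]

theorem mob_abs (f : K[X]) : |(mob f : ℝ)| ≤ 1 := by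
  unfold mob
  split_ifs
  · rw [Int.cast_pow, abs_pow]
    simp
  · simp

variable [Fintype K]

theorem bw_nonneg {z A : ℕ} {C : ℝ} {U : Finset K[X] → ℝ} (hU : BHW K z A C U) (f : K[X]) :
    0 ≤ bw z U f :=
  hU.2.2.2.1 _ (Finset.filter_subset _ _)

theorem bw_le {z A : ℕ} {C : ℝ} {U : Finset K[X] → ℝ} (hU : BHW K z A C U) (f : K[X]) :
    bw z U f ≤ 2 ^ ((Pz K z).filter (fun P => P ∣ f)).card := by
  unfold bw
  calc ∑ T ∈ ((Pz K z).filter (fun P => P ∣ f)).powerset, U T ≤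
      ∑ T ∈ ((Pz K z).filter (fun P => P ∣ f)).powerset, (1 : ℝ) :=
        Finset.sum_le_sum fun T _ => (abs_le.1 (hU.1 T)).2
    _ = 2 ^ ((Pz K z).filter (fun P => P ∣ f)).card := by
        rw [Finset.sum_const, Finset.card_powerset, nsmul_eq_mul, mul_one]
        push_cast
        rfl

/-- the number of the prime divisors -/
theorem card_primes (z k D : ℕ) (hk : 1 ≤ k) {f : K[X]} (hf : f ≠ 0) (hfd : f.natDegree ≤ D) :
    ((Pz K z).filter (fun P => P ∣ f)).card ≤ (PU K k).card + D / k := by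
  set S := (PU K z).filter (fun P => k < P.natDegree ∧ P ∣ f) with hS
  have hsub : (Pz K z).filter (fun P => P ∣ f) ⊆ PU K k ∪ S := by
    intro P hP
    rw [Finset.mem_filter, Pz, Finset.mem_erase] at hP
    rw [Finset.mem_union, hS, Finset.mem_filter]
    rcases le_or_gt P.natDegree k with h | h
    · left
      have h1 := Pool.Agent.H694.Typ.mem_PU.1 hP.1.2
      exact Pool.Agent.H694.Typ.mem_PU.2 ⟨h1.1, h1.2.1, h⟩
    · right
      exact ⟨hP.1.2, h, hP.2⟩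
  have hprod : ∏ P ∈ S, P ∣ f := by
    refine Finset.prod_dvd_of_coprime ?_ ?_
    · intro P hP Q hQ hPQ
      have hP' := Finset.mem_filter.1 (Finset.mem_coe.1 hP)
      have hQ' := Finset.mem_filter.1 (Finset.mem_coe.1 hQ)
      have hP1 := Pool.Agent.H694.Typ.mem_PU.1 hP'.1
      have hQ1 := Pool.Agent.H694.Typ.mem_PU.1 hQ'.1
      exact Pool.Agent.H694.Typ.coprime_of_ne hP1.1 hP1.2.1 hQ1.1 hQ1.2.1 hPQ
    · intro P hP
      exact (Finset.mem_filter.1 hP).2.2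
  have hdeg : ∑ P ∈ S, P.natDegree ≤ D := by
    have h2 := natDegree_le_of_dvd hprod hf
    rw [natDegree_prod_of_monic _ _ fun P hP =>
      (Pool.Agent.H694.Typ.mem_PU.1 (Finset.mem_filter.1 hP).1).1] at h2
    exact h2.trans hfd
  have hcard : S.card * k ≤ D := by
    refine le_trans ?_ hdeg
    rw [← smul_eq_mul]
    exact Finset.card_nsmul_le_sum _ _ _ fun P hP => (Finset.mem_filter.1 hP).2.1.le
  have h3 : S.card ≤ D / k := (Nat.le_div_iff_mul_le (by omega)).2 hcard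
  have h4 := (Finset.card_le_card hsub).trans (Finset.card_union_le _ _)
  omega

/-- the map on the family that is injective -/
theorem fam_maps (o : Bool) (σ σ' : ℕ) (m : K[X]) : Set.MapsTo
    (fun p : K[X] × K[X] => (p.2, (p.1 /ₘ m).coeff 0)) (Fam K o σ σ' m)
      (((Mn K σ') ×ˢ (Finset.univ : Finset K) : Finset (K[X] × K)) : Set (K[X] × K)) := by
  intro p hp
  simp only [Finset.coe_product, Finset.coe_univ, Set.mem_prod, Finset.mem_coe, Set.mem_univ,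
    and_true]
  exact Pool.Agent.H694.Typ.mem_Mn.2 ⟨hp.2.1, hp.2.2.1⟩

theorem fam_inj (o : Bool) (σ σ' : ℕ) {m : K[X]} (hm : m.Monic) (hmd : m.natDegree = σ) :
    Set.InjOn (fun p : K[X] × K[X] => (p.2, (p.1 /ₘ m).coeff 0)) (Fam K o σ σ' m) := by
  have hdiv : ∀ p ∈ Fam K o σ σ' m, p.1 /ₘ m = C ((p.1 /ₘ m).coeff 0) := by
    intro p hp
    apply eq_C_of_natDegree_eq_zero
    rw [natDegree_divByMonic _ hm, hmd]
    have h1 : p.1.natDegree ≤ σ := by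
      have h2 : p.1.degree < ((σ + o.toNat : ℕ) : WithBot ℕ) := hp.1
      have h3 : o.toNat ≤ 1 := Bool.toNat_le o
      have h4 : p.1.degree < ((σ + 1 : ℕ) : WithBot ℕ) :=
        lt_of_lt_of_le h2 (by exact_mod_cast Nat.add_le_add_left h3 σ)
      have h5 := Order.lt_succ_iff.1 (show p.1.degree < Order.succ ((σ : ℕ) : WithBot ℕ) from h4)
      exact natDegree_le_iff_degree_le.2 h5
    omega
  intro p hp p' hp' hpp
  have e1 : p.2 = p'.2 := congrArg Prod.fst hpp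
  have e2 : (p.1 /ₘ m).coeff 0 = (p'.1 /ₘ m).coeff 0 := congrArg Prod.snd hpp
  have e3 : p.1 /ₘ m = p'.1 /ₘ m := by rw [hdiv p hp, hdiv p' hp', e2]
  have d1 : m ∣ p.1 * p.2 - 1 := hp.2.2.2
  have d2 : m ∣ p'.1 * p.2 - 1 := by
    rw [e1]
    exact hp'.2.2.2
  have d3 : m ∣ (p.1 - p'.1) * p.2 := by
    have := dvd_sub d1 d2
    have e : p.1 * p.2 - 1 - (p'.1 * p.2 - 1) = (p.1 - p'.1) * p.2 := by ring
    rwa [e] at this
  have hcop : IsCoprime m p.2 := by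
    obtain ⟨u, hu⟩ := d1
    refine ⟨-u, p.1, ?_⟩
    have : p.1 * p.2 = m * u + 1 := by rw [← hu]; ring
    rw [this]
    ring
  have d4 : m ∣ p.1 - p'.1 := hcop.dvd_of_dvd_mul_right d3
  have e4 : p.1 %ₘ m = p'.1 %ₘ m := modByMonic_eq_of_dvd_sub hm d4
  have e5 : p.1 = p'.1 := by
    rw [← modByMonic_add_div p.1 m, ← modByMonic_add_div p'.1 m, e3, e4]
  exact Prod.ext e5 e1

theorem fam_fin (o : Bool) (σ σ' : ℕ) {m : K[X]} (hm : m.Monic) (hmd : m.natDegree = σ) :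
    (Fam K o σ σ' m).Finite :=
  Set.Finite.of_injOn (fam_maps o σ σ' m) (fam_inj o σ σ' hm hmd) (Finset.finite_toSet _)

theorem fam_card (o : Bool) (σ σ' : ℕ) {m : K[X]} (hm : m.Monic) (hmd : m.natDegree = σ) :
    (fam_fin o σ σ' hm hmd).toFinset.card ≤ Fintype.card K ^ (σ' + 1) := by
  have h1 := Set.ncard_le_ncard_of_injOn _ (fam_maps o σ σ' m) (fam_inj o σ σ' hm hmd)
    (Finset.finite_toSet _)
  rw [Set.ncard_coe_finset, Finset.card_product, Pool.Agent.H694.Typ.card_Mn, Finset.card_univ,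
    Set.ncard_eq_toFinset_card _ (fam_fin o σ σ' hm hmd)] at h1
  rwa [pow_succ]

/-- the products are of the form `a ^ 2 + X` -/
theorem form (hp : S_pair) [CharP K 2] (o : Bool) (d σ σ' : ℕ) (h1 : 1 ≤ σ) (h2 : 1 ≤ σ')
    (h3 : σ + σ' + o.toNat = d) {m : K[X]} (hm : m ∈ Mn K σ) {p : K[X] × K[X]}
    (hpF : p ∈ Fam K o σ σ' m) : ∃ a ∈ Mn K d, fAB o p.1 m p.2 = a ^ 2 + X := by
  by_contra hcon
  have h := hp K o d σ σ' (fun _ f => if ∃ a ∈ Mn K d, f = a ^ 2 + X then 0 else 1) h1 h2 h3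
  rw [Finset.sum_eq_zero (fun a ha => Finset.sum_eq_zero fun D _ => if_pos ⟨a, ha, rfl⟩)] at h
  have hfin : ∀ m ∈ Mn K σ, (Fam K o σ σ' m).Finite := fun m hm =>
    fam_fin o σ σ' (Pool.Agent.H694.Typ.mem_Mn.1 hm).1 (Pool.Agent.H694.Typ.mem_Mn.1 hm).2
  have hite : ∀ f : K[X], (0 : ℝ) ≤ if ∃ a ∈ Mn K d, f = a ^ 2 + X then 0 else 1 := by
    intro f
    split_ifs <;> norm_num
  have hr : ∀ m ∈ Mn K σ, (0 : ℝ) ≤ ∑ᶠ p ∈ Fam K o σ σ' m,
      if ∃ a ∈ Mn K d, fAB o p.1 m p.2 = a ^ 2 + X then 0 else 1 := by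
    intro m hm
    rw [finsum_mem_eq_finite_toFinset_sum _ (hfin m hm)]
    exact Finset.sum_nonneg fun p _ => hite _
  have h4 := (Finset.sum_eq_zero_iff_of_nonneg hr).1 h.symm m hm
  rw [finsum_mem_eq_finite_toFinset_sum _ (hfin m hm)] at h4
  have h5 := (Finset.sum_eq_zero_iff_of_nonneg fun p _ => hite _).1 h4 p
    ((hfin m hm).mem_toFinset.2 hpF)
  rw [if_neg hcon] at h5
  exact one_ne_zero h5

theorem z_sq {z A : ℕ} {C : ℝ} (hC : 0 < C) {U : Finset K[X] → ℝ} (hU : BHW K z A C U)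
    (hz : 1 ≤ z) {d : ℕ} (hA : A * z ≤ d) : (z : ℝ) ^ 2 ≤ C + (d : ℝ) ^ 2 := by
  rcases Nat.eq_zero_or_pos A with hA0 | hA0
  · have h1 := hU.2.2.2.2 1 monic_one
    have h2 : ∑ T ∈ (Pz K z).powerset, U T * ∏ P ∈ T, wm (1 : K[X]) P = 1 := by
      rw [Finset.sum_eq_single ∅]
      · rw [hU.2.1, Finset.prod_empty, mul_one]
      · intro T hT hne
        have h3 : U T = 0 := by
          by_contra h0
          obtain ⟨h4, h5⟩ := hU.2.2.1 T h0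
          obtain ⟨P, hP⟩ := Finset.nonempty_iff_ne_empty.2 hne
          have h6 : P ∈ PU K z := (Finset.mem_erase.1 (h4 hP)).2
          have h7 := (Pool.Agent.H694.Typ.mem_PU.1 h6).2.1.natDegree_pos
          have h8 : P.natDegree ≤ ∑ P ∈ T, P.natDegree :=
            Finset.single_le_sum (f := fun P : K[X] => P.natDegree) (fun _ _ => Nat.zero_le _) hP
          rw [hA0, Nat.zero_mul] at h5
          omega
        rw [h3, zero_mul]
      · intro h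
        exact absurd (Finset.empty_mem_powerset _) h
    have h3 : PA (1 : K[X]) = ∅ := by
      rw [Set.eq_empty_iff_forall_notMem]
      rintro P ⟨-, h4, h5⟩
      exact h4.not_isUnit (isUnit_of_dvd_one h5)
    rw [h2, h3, finprod_mem_empty, mul_one] at h1
    have hz0 : (0 : ℝ) < (z : ℝ) ^ 2 := by
      have : (1 : ℝ) ≤ z := by exact_mod_cast hz
      positivity
    rw [le_div_iff₀ hz0, one_mul] at h1
    have : (0 : ℝ) ≤ (d : ℝ) ^ 2 := by positivity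
    linarith
  · have h1 : z ≤ d := le_trans (Nat.le_mul_of_pos_left z hA0) hA
    have h2 : (z : ℝ) ≤ d := by exact_mod_cast h1
    have h3 : (0 : ℝ) ≤ z := Nat.cast_nonneg z
    nlinarith

/-- the trivial bound by the sum of the weights -/
theorem abs_le_bw {z A : ℕ} {C : ℝ} {U : Finset K[X] → ℝ} (hU : BHW K z A C U) (o : Bool)
    (σ σ' : ℕ) {m : K[X]} (hm : m.Monic) (hmd : m.natDegree = σ) :
    |∑ᶠ p ∈ Fam K o σ σ' m, (mob (fA o p.1 m) : ℝ) * bw z U (fAB o p.1 m p.2)| ≤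
      ∑ᶠ p ∈ Fam K o σ σ' m, bw z U (fAB o p.1 m p.2) := by
  rw [finsum_mem_eq_finite_toFinset_sum _ (fam_fin o σ σ' hm hmd),
    finsum_mem_eq_finite_toFinset_sum _ (fam_fin o σ σ' hm hmd)]
  refine (Finset.abs_sum_le_sum_abs _ _).trans (Finset.sum_le_sum fun p _ => ?_)
  rw [abs_mul, abs_of_nonneg (bw_nonneg hU _)]
  calc |(mob (fA o p.1 m) : ℝ)| * bw z U (fAB o p.1 m p.2) ≤ 1 * bw z U (fAB o p.1 m p.2) :=
        mul_le_mul_of_nonneg_right (mob_abs _) (bw_nonneg hU _)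
    _ = _ := one_mul _

/-- the trivial bound for the sum of the weights -/
theorem bw_triv (hp : S_pair) [CharP K 2] {z A : ℕ} {C : ℝ} {U : Finset K[X] → ℝ}
    (hU : BHW K z A C U) (o : Bool) (d σ σ' k : ℕ) (hk : 1 ≤ k) (h1 : 1 ≤ σ) (h2 : 1 ≤ σ')
    (h3 : σ + σ' + o.toNat = d) {m : K[X]} (hm : m ∈ Mn K σ) :
    ∑ᶠ p ∈ Fam K o σ σ' m, bw z U (fAB o p.1 m p.2) ≤
      (Fintype.card K : ℝ) ^ (σ' + 1) * 2 ^ ((PU K k).card + 2 * d / k) := by
  have hm' := Pool.Agent.H694.Typ.mem_Mn.1 hm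
  rw [finsum_mem_eq_finite_toFinset_sum _ (fam_fin o σ σ' hm'.1 hm'.2)]
  have hb : ∀ p ∈ (fam_fin o σ σ' hm'.1 hm'.2).toFinset, bw z U (fAB o p.1 m p.2) ≤
      2 ^ ((PU K k).card + 2 * d / k) := by
    intro p hpF
    rw [Set.Finite.mem_toFinset] at hpF
    obtain ⟨a, ha, hf⟩ := form hp o d σ σ' h1 h2 h3 hm hpF
    have ha' := Pool.Agent.H694.Typ.mem_Mn.1 ha
    have hd : (a ^ 2 + X).natDegree = 2 * d := by
      have h4 : (a ^ 2).natDegree = 2 * d := by rw [ha'.1.natDegree_pow, ha'.2]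
      rw [natDegree_add_eq_left_of_natDegree_lt, h4]
      rw [h4, natDegree_X]
      omega
    have hne : (a ^ 2 + X : K[X]) ≠ 0 := by
      intro h0
      rw [h0, natDegree_zero] at hd
      omega
    rw [hf]
    refine (bw_le hU _).trans ?_
    exact pow_le_pow_right₀ (by norm_num) (card_primes z k (2 * d) hk hne hd.le)
  have h5 := Finset.sum_le_card_nsmul _ _ _ hb
  rw [nsmul_eq_mul] at h5
  refine h5.trans ?_
  have h6 : ((fam_fin o σ σ' hm'.1 hm'.2).toFinset.card : ℝ) ≤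
      (Fintype.card K : ℝ) ^ (σ' + 1) := by
    exact_mod_cast fam_card o σ σ' hm'.1 hm'.2
  exact mul_le_mul_of_nonneg_right h6 (by positivity)

end base

/-- decay -/
theorem decay (C r : ℝ) (hr : 0 < r) (hr1 : r < 1) (B ε : ℝ) (hε : 0 < ε) :
    ∀ᶠ d : ℕ in Filter.atTop, B * ((C + (d : ℝ) ^ 2) * r ^ d) ≤ ε := by
  have h1 := tendsto_pow_const_mul_const_pow_of_lt_one 2 hr.le hr1
  have h2 := tendsto_pow_const_mul_const_pow_of_lt_one 0 hr.le hr1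
  have h3 : Filter.Tendsto (fun d : ℕ => B * (C * ((d : ℝ) ^ 0 * r ^ d) + (d : ℝ) ^ 2 * r ^ d))
      Filter.atTop (nhds (B * (C * 0 + 0))) := ((h2.const_mul C).add h1).const_mul B
  rw [mul_zero, add_zero, mul_zero] at h3
  filter_upwards [h3.eventually (gt_mem_nhds hε)] with d hd
  refine le_trans (le_of_eq ?_) hd.le
  rw [pow_zero]
  ring

end NearL

open NearL

/-- **Task NEAR.** -/
theorem near (hu : S_up2) (ht : S_typc) (hp : S_pair) (hy : Pool.Agent.H985.KP.S_typ2) :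
    S_near := by
  intro K _ _ _ A C ε hC hε
  obtain ⟨C₁, θ₁, hC₁, hθ₁, σ₁, hup⟩ := hu K A C hC
  obtain ⟨δ, E₀, hδ, σ₂, hty⟩ := hy K 1 one_ne_zero (ε / (4 * C₁)) (by positivity)
  obtain ⟨θ₂, hθ₂, σ₃, htc⟩ := ht K A E₀ C δ hδ
  have hq : (2 : ℝ) ≤ (Fintype.card K : ℝ) := Pool.Agent.H694.Typ.q_ge
  obtain ⟨q, hqdef⟩ : ∃ q : ℝ, q = (Fintype.card K : ℝ) := ⟨_, rfl⟩
  rw [← hqdef] at hq
  have hq0 : 0 < q := by linarith
  obtain ⟨k, hk1, hk⟩ : ∃ k : ℕ, 1 ≤ k ∧ 36 / θ₁ ≤ (k : ℝ) :=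
    ⟨max 1 ⌈36 / θ₁⌉₊, le_max_left _ _, (Nat.le_ceil _).trans (by
      exact_mod_cast le_max_right _ _)⟩
  have hk0 : (0 : ℝ) < k := by exact_mod_cast hk1
  obtain ⟨N₀, hN₀⟩ : ∃ N₀ : ℕ, N₀ = (PU K k).card := ⟨_, rfl⟩
  have hr1 : q ^ (-(θ₂ / 3)) < 1 :=
    Real.rpow_lt_one_of_one_lt_of_neg (by linarith) (by linarith)
  have hr2 : (2 : ℝ) ^ (-(θ₁ / 18)) < 1 :=
    Real.rpow_lt_one_of_one_lt_of_neg (by norm_num) (by linarith)
  have ev1 := decay C (q ^ (-(θ₂ / 3))) (by positivity) hr1 1 (ε / 4) (by positivity)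
  have ev2 := decay C ((2 : ℝ) ^ (-(θ₁ / 18))) (by positivity) hr2 (q * 2 ^ (N₀ + 1)) (ε / 4)
    (by positivity)
  obtain ⟨d₁, hd₁⟩ := Filter.eventually_atTop.1 (ev1.and ev2)
  have hθ0 : 0 < min (1 / 10 : ℝ) (min θ₁ θ₂ / 3) := by positivity
  refine ⟨min (1 / 10) (min θ₁ θ₂ / 3), hθ0, max (max d₁ 30) (3 * (σ₁ + σ₂ + σ₃ + 1)), ?_⟩
  intro d n z U hd hz hAz hnd hU
  obtain ⟨θ, hθdef⟩ : ∃ θ : ℝ, θ = min (1 / 10) (min θ₁ θ₂ / 3) := ⟨_, rfl⟩
  rw [← hθdef] at hAz hnd hθ0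
  have hθa : θ ≤ 1 / 10 := by rw [hθdef]; exact min_le_left _ _
  have hθb : 3 * θ ≤ θ₁ := by
    have h1 : θ ≤ min θ₁ θ₂ / 3 := by rw [hθdef]; exact min_le_right _ _
    have h2 := min_le_left θ₁ θ₂
    linarith
  have hθc : 3 * θ ≤ θ₂ := by
    have h1 : θ ≤ min θ₁ θ₂ / 3 := by rw [hθdef]; exact min_le_right _ _
    have h2 := min_le_right θ₁ θ₂
    linarith
  have hdd1 : d₁ ≤ d := (le_max_left _ _).trans ((le_max_left _ _).trans hd)
  have hd30 : 30 ≤ d := (le_max_right _ _).trans ((le_max_left _ _).trans hd)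
  have hdσ : 3 * (σ₁ + σ₂ + σ₃ + 1) ≤ d := (le_max_right _ _).trans hd
  obtain ⟨hda, hdb⟩ := hd₁ d hdd1
  have hd30r : (30 : ℝ) ≤ d := by exact_mod_cast hd30
  -- the parity
  obtain ⟨o, σ, hn⟩ : ∃ (o : Bool) (σ : ℕ), n = 2 * σ + o.toNat := by
    obtain ⟨σ, h | h⟩ := Nat.even_or_odd' n
    · exact ⟨false, σ, by simpa using h⟩
    · exact ⟨true, σ, by simpa using h⟩
  have ho : o.toNat ≤ 1 := Bool.toNat_le o
  have hor : (o.toNat : ℝ) ≤ 1 := by exact_mod_cast ho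
  have hor0 : (0 : ℝ) ≤ (o.toNat : ℝ) := Nat.cast_nonneg _
  have hnr : (n : ℝ) = 2 * σ + o.toNat := by rw [hn]; push_cast; ring
  obtain ⟨hnd1, hnd2⟩ := abs_le.1 hnd
  have hθd : θ * d ≤ d / 10 := by
    have := mul_le_mul_of_nonneg_right hθa (by linarith : (0 : ℝ) ≤ d)
    linarith
  have hσlow : (d : ℝ) / 3 ≤ σ := by linarith
  have hσo : σ + o.toNat ≤ d := by
    have : (σ : ℝ) + o.toNat ≤ d := by linarith
    exact_mod_cast this
  obtain ⟨σ', hσ'⟩ : ∃ σ', σ + σ' + o.toNat = d := ⟨d - σ - o.toNat, by omega⟩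
  have hσ'r : (σ : ℝ) + σ' + o.toNat = d := by exact_mod_cast hσ'
  have hσ1 : 1 ≤ σ := by
    have : (1 : ℝ) ≤ σ := by linarith
    exact_mod_cast this
  have hσ'1 : 1 ≤ σ' := by
    have : (1 : ℝ) ≤ σ' := by linarith
    exact_mod_cast this
  have hσbig : σ₁ + σ₂ + σ₃ + 1 ≤ σ := by
    have h1 : ((3 * (σ₁ + σ₂ + σ₃ + 1) : ℕ) : ℝ) ≤ d := by exact_mod_cast hdσ
    have h2 : ((σ₁ + σ₂ + σ₃ + 1 : ℕ) : ℝ) ≤ σ := by
      push_cast at h1 ⊢
      linarith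
    exact_mod_cast h2
  have hσ0 : (0 : ℝ) ≤ σ := Nat.cast_nonneg σ
  have hθσ : θ * d ≤ 3 * θ * σ := by nlinarith
  have hθσ1 : θ * d ≤ θ₁ * σ := hθσ.trans (mul_le_mul_of_nonneg_right hθb hσ0)
  have hθσ2 : θ * d ≤ θ₂ * σ := hθσ.trans (mul_le_mul_of_nonneg_right hθc hσ0)
  have hdiff : |(σ : ℝ) - σ'| ≤ θ * d := by
    have e : (σ : ℝ) - σ' = n - d := by linarith
    rw [e]; exact hnd
  have hz2 : (z : ℝ) ^ 2 ≤ C + (d : ℝ) ^ 2 := by
    refine z_sq hC hU hz ?_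
    have h1 : ((A * z : ℕ) : ℝ) ≤ d := by linarith
    exact_mod_cast h1
  have hz0 : (0 : ℝ) < (z : ℝ) ^ 2 := by
    have : (1 : ℝ) ≤ z := by exact_mod_cast hz
    positivity
  -- the sum over `m`
  have hpair := hp K o d σ σ' (fun D f => (mob D : ℝ) * bw z U f) hσ1 hσ'1 hσ'
  have hNn : Nn K d n z U = ∑ m ∈ Mn K σ, ∑ᶠ p ∈ Fam K o σ σ' m,
      (mob (fA o p.1 m) : ℝ) * bw z U (fAB o p.1 m p.2) := by
    rw [← hpair, hn]
    rfl
  -- the number `c`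
  obtain ⟨c, hc⟩ : ∃ c : ℕ, c = ⌊θ₁ * σ / 3⌋₊ := ⟨_, rfl⟩
  have hc1 : 3 * (c : ℝ) ≤ θ₁ * σ := by
    have := Nat.floor_le (show 0 ≤ θ₁ * σ / 3 by positivity)
    rw [← hc] at this
    linarith
  have hc2 : θ₁ * d / 9 - 1 ≤ (c : ℝ) := by
    have h1 := Nat.lt_floor_add_one (θ₁ * σ / 3)
    rw [← hc] at h1
    have h2 : θ₁ * (d / 3) ≤ θ₁ * σ := mul_le_mul_of_nonneg_left hσlow hθ₁.le
    linarith
  obtain ⟨Bc, hBc⟩ : ∃ Bc : ℝ, Bc = q ^ (σ' + 1) * 2 ^ (N₀ + 2 * d / k) := ⟨_, rfl⟩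
  have hBc0 : 0 ≤ Bc := by rw [hBc]; positivity
  have ha0 : 0 ≤ q ^ ((σ' : ℝ) - θ₂ * σ) := by positivity
  have hb0 : 0 ≤ C₁ * q ^ σ' / (z : ℝ) ^ 2 := by positivity
  have key : ∀ m ∈ Mn K σ, |∑ᶠ p ∈ Fam K o σ σ' m,
      (mob (fA o p.1 m) : ℝ) * bw z U (fAB o p.1 m p.2)| ≤ q ^ ((σ' : ℝ) - θ₂ * σ) +
        (if ¬ Good2 1 δ E₀ σ m then C₁ * q ^ σ' / (z : ℝ) ^ 2 else 0) +
        (if ∃ g : K[X], g.Monic ∧ c < g.natDegree ∧ g ^ 2 ∣ m then Bc else 0) := by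
    intro m hm
    have hm' := Pool.Agent.H694.Typ.mem_Mn.1 hm
    have hi1 : (0 : ℝ) ≤ if ¬ Good2 1 δ E₀ σ m then C₁ * q ^ σ' / (z : ℝ) ^ 2 else 0 := by
      split_ifs <;> first | exact hb0 | exact le_rfl
    have hi2 : (0 : ℝ) ≤ if ∃ g : K[X], g.Monic ∧ c < g.natDegree ∧ g ^ 2 ∣ m then Bc else 0 := by
      split_ifs <;> first | exact hBc0 | exact le_rfl
    by_cases hG : Good2 1 δ E₀ σ m
    · have h1 := htc o σ σ' z U m (by omega) (hAz.trans hθσ2) (hdiff.trans hθσ2) hU hm'.1 hm'.2 hG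
      rw [← hqdef] at h1
      linarith
    · have h0 := abs_le_bw hU o σ σ' hm'.1 hm'.2
      by_cases hS : ∃ g : K[X], g.Monic ∧ c < g.natDegree ∧ g ^ 2 ∣ m
      · have h1 := bw_triv hp hU o d σ σ' k hk1 hσ1 hσ'1 hσ' hm
        rw [← hqdef, ← hN₀, ← hBc] at h1
        rw [if_pos hS]
        linarith
      · obtain ⟨m₁, m₂, hmm, hm₁, hm₂, hcop, hsq, -, hdeg⟩ :=
          Pool.Agent.H694.Typ.decomp (s := 1) hm'.1 one_ne_zero c (fun g hg hgm => by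
            by_contra hlt
            exact hS ⟨g, hg, by omega, hgm⟩)
        rw [natDegree_one, add_zero] at hdeg
        have hdeg' : (m₁.natDegree : ℝ) ≤ θ₁ * σ := by
          have h2 : (m₁.natDegree : ℝ) ≤ 3 * c := by exact_mod_cast hdeg
          linarith
        have h1 := hup o σ σ' z U m m₁ m₂ (by omega) hz (hAz.trans hθσ1) (hdiff.trans hθσ1) hU
          hmm hm₁ hm₂ hm'.2 hcop hsq hdeg'
        rw [← hqdef] at h1
        rw [if_pos hG]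
        linarith
  -- the three sums
  have hbad : (((Mn K σ).filter (fun m => ¬ Good2 1 δ E₀ σ m)).card : ℝ) ≤
      ε / (4 * C₁) * q ^ σ := by
    have h1 := hty σ (by omega)
    have h2 : Pool.Agent.H985.Chow.MD K σ ∩ {b | ¬ Good2 1 δ E₀ σ b} =
        (((Mn K σ).filter (fun m => ¬ Good2 1 δ E₀ σ m) : Finset K[X]) : Set K[X]) := by
      ext m
      simp only [Set.mem_inter_iff, Finset.coe_filter, Set.mem_ofPred_eq,
        Pool.Agent.H985.Chow.MD, Pool.Agent.H694.Typ.mem_Mn]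
    rw [h2, Set.ncard_coe_finset, ← hqdef] at h1
    exact h1
  have hsqr : (((Mn K σ).filter (fun m => ∃ g : K[X], g.Monic ∧ c < g.natDegree ∧
      g ^ 2 ∣ m)).card : ℝ) ≤ q ^ σ * (1 / 2) ^ c := by
    have h1 := Pool.Agent.H694.Typ.sq_bound (k := K) σ c
    rw [← hqdef] at h1
    exact h1
  have htot : |Nn K d n z U| ≤ q ^ σ * q ^ ((σ' : ℝ) - θ₂ * σ) +
      (ε / (4 * C₁) * q ^ σ) * (C₁ * q ^ σ' / (z : ℝ) ^ 2) + (q ^ σ * (1 / 2) ^ c) * Bc := by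
    rw [hNn]
    refine (Finset.abs_sum_le_sum_abs _ _).trans ((Finset.sum_le_sum key).trans ?_)
    rw [Finset.sum_add_distrib, Finset.sum_add_distrib, ← Finset.sum_filter, ← Finset.sum_filter,
      Finset.sum_const, Finset.sum_const, Finset.sum_const, nsmul_eq_mul, nsmul_eq_mul,
      nsmul_eq_mul, Pool.Agent.H694.Typ.card_Mn, Nat.cast_pow, ← hqdef]
    exact add_le_add (add_le_add le_rfl (mul_le_mul_of_nonneg_right hbad hb0))
      (mul_le_mul_of_nonneg_right hsqr hBc0)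
  -- first sum
  have hqd : (0 : ℝ) < q ^ d := by positivity
  have hqσ : q ^ σ * q ^ σ' ≤ q ^ d := by
    rw [← pow_add]
    exact pow_le_pow_right₀ (by linarith) (by omega)
  have t1 : q ^ σ * q ^ ((σ' : ℝ) - θ₂ * σ) ≤ ε / 4 * q ^ d / (z : ℝ) ^ 2 := by
    rw [le_div_iff₀ hz0]
    have h1 : q ^ σ * q ^ ((σ' : ℝ) - θ₂ * σ) ≤ q ^ d * (q ^ (-(θ₂ / 3))) ^ d := by
      rw [← Real.rpow_natCast q σ, ← Real.rpow_natCast q d, ← Real.rpow_natCast _ d,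
        ← Real.rpow_mul hq0.le, ← Real.rpow_add hq0, ← Real.rpow_add hq0]
      apply Real.rpow_le_rpow_of_exponent_le (by linarith)
      have h2 : θ₂ * (d / 3) ≤ θ₂ * σ := mul_le_mul_of_nonneg_left hσlow hθ₂.le
      linarith
    have h3 : (0 : ℝ) ≤ (q ^ (-(θ₂ / 3))) ^ d := by positivity
    calc q ^ σ * q ^ ((σ' : ℝ) - θ₂ * σ) * (z : ℝ) ^ 2 ≤
        (q ^ d * (q ^ (-(θ₂ / 3))) ^ d) * (C + (d : ℝ) ^ 2) :=
          mul_le_mul h1 hz2 hz0.le (by positivity)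
      _ = q ^ d * (1 * ((C + (d : ℝ) ^ 2) * (q ^ (-(θ₂ / 3))) ^ d)) := by ring
      _ ≤ q ^ d * (ε / 4) := mul_le_mul_of_nonneg_left hda hqd.le
      _ = ε / 4 * q ^ d := by ring
  have t2 : (ε / (4 * C₁) * q ^ σ) * (C₁ * q ^ σ' / (z : ℝ) ^ 2) ≤
      ε / 4 * q ^ d / (z : ℝ) ^ 2 := by
    have e1 : (ε / (4 * C₁) * q ^ σ) * (C₁ * q ^ σ' / (z : ℝ) ^ 2) =
        ε / 4 * (q ^ σ * q ^ σ') / (z : ℝ) ^ 2 := by
      field_simp
    rw [e1]
    apply div_le_div_of_nonneg_right _ hz0.le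
    exact mul_le_mul_of_nonneg_left hqσ (by positivity)
  have t3 : (q ^ σ * (1 / 2) ^ c) * Bc ≤ ε / 4 * q ^ d / (z : ℝ) ^ 2 := by
    rw [le_div_iff₀ hz0, hBc]
    have h1 : ((2 * d / k : ℕ) : ℝ) ≤ θ₁ * d / 18 := by
      have h2 : ((2 * d / k : ℕ) : ℝ) ≤ ((2 * d : ℕ) : ℝ) / k := Nat.cast_div_le
      refine h2.trans ?_
      rw [div_le_iff₀ hk0]
      have h3 : 36 ≤ k * θ₁ := by
        rw [div_le_iff₀ hθ₁] at hk
        exact hk
      push_cast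
      have hd0 : (0 : ℝ) ≤ d := by linarith
      nlinarith
    have h4 : (1 / 2 : ℝ) ^ c * 2 ^ (N₀ + 2 * d / k) ≤
        2 ^ (N₀ + 1) * ((2 : ℝ) ^ (-(θ₁ / 18))) ^ d := by
      have e1 : (1 / 2 : ℝ) ^ c = (2 : ℝ) ^ (-(c : ℝ)) := by
        rw [Real.rpow_neg (by norm_num), Real.rpow_natCast, one_div, inv_pow]
      rw [e1, ← Real.rpow_natCast 2 (N₀ + 2 * d / k), ← Real.rpow_natCast 2 (N₀ + 1),
        ← Real.rpow_natCast _ d, ← Real.rpow_mul (by norm_num), ← Real.rpow_add (by norm_num),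
        ← Real.rpow_add (by norm_num)]
      apply Real.rpow_le_rpow_of_exponent_le (by norm_num)
      push_cast
      linarith
    have h5 : (q ^ σ * (1 / 2) ^ c) * (q ^ (σ' + 1) * 2 ^ (N₀ + 2 * d / k)) =
        (q ^ σ * q ^ σ') * q * ((1 / 2 : ℝ) ^ c * 2 ^ (N₀ + 2 * d / k)) := by
      rw [pow_succ]; ring
    rw [h5]
    calc (q ^ σ * q ^ σ') * q * ((1 / 2 : ℝ) ^ c * 2 ^ (N₀ + 2 * d / k)) * (z : ℝ) ^ 2 ≤
        (q ^ d * q * (2 ^ (N₀ + 1) * ((2 : ℝ) ^ (-(θ₁ / 18))) ^ d)) * (C + (d : ℝ) ^ 2) := by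
          apply mul_le_mul _ hz2 hz0.le (by positivity)
          apply mul_le_mul _ h4 (by positivity) (by positivity)
          exact mul_le_mul_of_nonneg_right hqσ hq0.le
      _ = q ^ d * (q * 2 ^ (N₀ + 1) * ((C + (d : ℝ) ^ 2) * ((2 : ℝ) ^ (-(θ₁ / 18))) ^ d)) := by
          ring
      _ ≤ q ^ d * (ε / 4) := mul_le_mul_of_nonneg_left hdb hqd.le
      _ = ε / 4 * q ^ d := by ring
  rw [← hqdef]
  have hfinal : ε / 4 * q ^ d / (z : ℝ) ^ 2 + ε / 4 * q ^ d / (z : ℝ) ^ 2 +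
      ε / 4 * q ^ d / (z : ℝ) ^ 2 ≤ ε * q ^ d / (z : ℝ) ^ 2 := by
    have h1 : 0 ≤ ε * q ^ d / (z : ℝ) ^ 2 := by positivity
    have e1 : ε / 4 * q ^ d / (z : ℝ) ^ 2 = (ε * q ^ d / (z : ℝ) ^ 2) / 4 := by ring
    rw [e1]
    linarith
  linarith

end Pool.Agent.H604.LD
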