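import Pool.Agent.H604.LD.Stm

/-!
# Task PAIR: the factorizations of `a ^ 2 + X` (helper249, for helper604)
-/

set_option autoImplicit false

namespace Pool.Agent.H604.LD

open Polynomial
open scoped Classical
open Pool.Agent.H694.Typ (Mn mem_Mn exists_pol pol)

namespace PairAux

variable {K : Type} [Field K] [CharP K 2]

theorem dec_zero {u v : K[X]} (h : u ^ 2 + X * v ^ 2 = 0) : u = 0 ∧ v = 0 := by
  have h2 : (C (2 : K) : K[X]) = 0 := by
    have : (2 : K) = 0 := CharTwo.two_eq_zero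
    rw [this, C_0]
  have h1 := congrArg derivative h
  rw [derivative_add, derivative_mul, derivative_X, derivative_sq, derivative_sq, derivative_zero,
    h2, zero_mul, zero_mul, zero_mul, zero_mul, mul_zero, zero_add, add_zero, one_mul] at h1
  have hv : v = 0 := pow_eq_zero_iff two_ne_zero |>.1 h1
  rw [hv, zero_pow two_ne_zero, mul_zero, add_zero] at h
  exact ⟨pow_eq_zero_iff two_ne_zero |>.1 h, hv⟩

theorem dec_uniq {u v u' v' : K[X]} (h : u ^ 2 + X * v ^ 2 = u' ^ 2 + X * v' ^ 2) :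
    u = u' ∧ v = v' := by
  have h1 : (u + u') ^ 2 + X * (v + v') ^ 2 = 0 := by
    rw [CharTwo.add_sq, CharTwo.add_sq]
    have h2 : u ^ 2 + u' ^ 2 + X * (v ^ 2 + v' ^ 2) =
        (u ^ 2 + X * v ^ 2) + (u' ^ 2 + X * v' ^ 2) := by ring
    rw [h2, h]
    exact CharTwo.add_self_eq_zero _
  obtain ⟨h2, h3⟩ := dec_zero h1
  exact ⟨CharTwo.add_eq_zero.1 h2, CharTwo.add_eq_zero.1 h3⟩

theorem deg_odd {m : K[X]} (hm : m ≠ 0) :
    (X * m ^ 2).degree = ((2 * m.natDegree + 1 : ℕ) : WithBot ℕ) := by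
  rw [degree_mul, degree_X, degree_pow, degree_eq_natDegree hm]
  push_cast
  ring

theorem deg_even {t : K[X]} (ht : t ≠ 0) : (t ^ 2).degree = ((2 * t.natDegree : ℕ) : WithBot ℕ) := by
  rw [degree_pow, degree_eq_natDegree ht]
  push_cast
  ring

theorem monic_of_sq {m : K[X]} (h : (m ^ 2).leadingCoeff = 1) : m.Monic := by
  rw [leadingCoeff_pow] at h
  have h1 : (m.leadingCoeff + 1) ^ 2 = 0 := by
    rw [CharTwo.add_sq, h, one_pow]
    exact CharTwo.add_self_eq_zero _
  exact CharTwo.add_eq_zero.1 (pow_eq_zero_iff two_ne_zero |>.1 h1)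

theorem odd_case {t m : K[X]} {σ : ℕ} (hM : (t ^ 2 + X * m ^ 2).Monic)
    (hd : (t ^ 2 + X * m ^ 2).natDegree = 2 * σ + 1) :
    m.Monic ∧ m.natDegree = σ ∧ t.degree < ((σ + 1 : ℕ) : WithBot ℕ) := by
  have hD : (t ^ 2 + X * m ^ 2).degree = ((2 * σ + 1 : ℕ) : WithBot ℕ) := by
    rw [degree_eq_natDegree hM.ne_zero, hd]
  rcases lt_trichotomy (t ^ 2).degree (X * m ^ 2).degree with h | h | h
  · have hm : m ≠ 0 := by
      rintro rfl
      simp at h
    rw [degree_add_eq_right_of_degree_lt h, deg_odd hm] at hD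
    have h1 : 2 * m.natDegree + 1 = 2 * σ + 1 := by exact_mod_cast hD
    have h2 : m.natDegree = σ := by omega
    refine ⟨monic_of_sq ?_, h2, ?_⟩
    · have h3 := hM.leadingCoeff
      rw [leadingCoeff_add_of_degree_lt h, leadingCoeff_mul, leadingCoeff_X, one_mul] at h3
      exact h3
    · by_cases ht : t = 0
      · rw [ht, degree_zero]
        exact WithBot.bot_lt_coe _
      · rw [deg_even ht, deg_odd hm] at h
        rw [degree_eq_natDegree ht]
        have h3 : 2 * t.natDegree < 2 * m.natDegree + 1 := by exact_mod_cast h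
        exact_mod_cast (by omega : t.natDegree < σ + 1)
  · exfalso
    by_cases hm : m = 0
    · have ht : t = 0 := by
        by_contra ht
        rw [hm, zero_pow two_ne_zero, mul_zero, degree_zero, deg_even ht] at h
        exact absurd h WithBot.coe_ne_bot
      rw [hm, ht] at hM
      simp at hM
    · by_cases ht : t = 0
      · rw [ht, zero_pow two_ne_zero, degree_zero, deg_odd hm] at h
        exact absurd h.symm WithBot.coe_ne_bot
      · rw [deg_even ht, deg_odd hm] at h
        have h3 : 2 * t.natDegree = 2 * m.natDegree + 1 := by exact_mod_cast h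
        omega
  · exfalso
    have ht : t ≠ 0 := by
      rintro rfl
      simp at h
    rw [degree_add_eq_left_of_degree_lt h, deg_even ht] at hD
    have h1 : 2 * t.natDegree = 2 * σ + 1 := by exact_mod_cast hD
    omega

theorem even_case {t m : K[X]} {σ : ℕ} (hM : (m ^ 2 + X * t ^ 2).Monic)
    (hd : (m ^ 2 + X * t ^ 2).natDegree = 2 * σ) :
    m.Monic ∧ m.natDegree = σ ∧ t.degree < (σ : WithBot ℕ) := by
  have hD : (m ^ 2 + X * t ^ 2).degree = ((2 * σ : ℕ) : WithBot ℕ) := by
    rw [degree_eq_natDegree hM.ne_zero, hd]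
  rcases lt_trichotomy (m ^ 2).degree (X * t ^ 2).degree with h | h | h
  · exfalso
    have ht : t ≠ 0 := by
      rintro rfl
      simp at h
    rw [degree_add_eq_right_of_degree_lt h, deg_odd ht] at hD
    have h1 : 2 * t.natDegree + 1 = 2 * σ := by exact_mod_cast hD
    omega
  · exfalso
    by_cases ht : t = 0
    · have hm : m = 0 := by
        by_contra hm
        rw [ht, zero_pow two_ne_zero, mul_zero, degree_zero, deg_even hm] at h
        exact absurd h WithBot.coe_ne_bot
      rw [hm, ht] at hM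
      simp at hM
    · by_cases hm : m = 0
      · rw [hm, zero_pow two_ne_zero, degree_zero, deg_odd ht] at h
        exact absurd h.symm WithBot.coe_ne_bot
      · rw [deg_even hm, deg_odd ht] at h
        have h3 : 2 * m.natDegree = 2 * t.natDegree + 1 := by exact_mod_cast h
        omega
  · have hm : m ≠ 0 := by
      rintro rfl
      simp at h
    rw [degree_add_eq_left_of_degree_lt h, deg_even hm] at hD
    have h1 : 2 * m.natDegree = 2 * σ := by exact_mod_cast hD
    have h2 : m.natDegree = σ := by omega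
    refine ⟨monic_of_sq ?_, h2, ?_⟩
    · have h3 := hM.leadingCoeff
      rw [leadingCoeff_add_of_degree_lt' h] at h3
      exact h3
    · by_cases ht : t = 0
      · rw [ht, degree_zero]
        exact WithBot.bot_lt_coe _
      · rw [deg_odd ht, deg_even hm] at h
        rw [degree_eq_natDegree ht]
        have h3 : 2 * t.natDegree + 1 < 2 * m.natDegree := by exact_mod_cast h
        exact_mod_cast (by omega : t.natDegree < σ)

theorem odd_conv {t m : K[X]} {σ : ℕ} (hm : m.Monic) (hd : m.natDegree = σ)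
    (ht : t.degree < ((σ + 1 : ℕ) : WithBot ℕ)) :
    (t ^ 2 + X * m ^ 2).Monic ∧ (t ^ 2 + X * m ^ 2).natDegree = 2 * σ + 1 := by
  have h : (t ^ 2).degree < (X * m ^ 2).degree := by
    rw [deg_odd hm.ne_zero]
    by_cases ht0 : t = 0
    · rw [ht0, zero_pow two_ne_zero, degree_zero]
      exact WithBot.bot_lt_coe _
    · rw [deg_even ht0]
      rw [degree_eq_natDegree ht0] at ht
      have h3 : t.natDegree < σ + 1 := by exact_mod_cast ht
      exact_mod_cast (by omega : 2 * t.natDegree < 2 * m.natDegree + 1)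
  refine ⟨(monic_X.mul (hm.pow 2)).add_of_right h, ?_⟩
  rw [natDegree_eq_of_degree_eq (degree_add_eq_right_of_degree_lt h),
    natDegree_eq_of_degree_eq_some (deg_odd hm.ne_zero), hd]

theorem even_conv {t m : K[X]} {σ : ℕ} (hm : m.Monic) (hd : m.natDegree = σ)
    (ht : t.degree < (σ : WithBot ℕ)) :
    (m ^ 2 + X * t ^ 2).Monic ∧ (m ^ 2 + X * t ^ 2).natDegree = 2 * σ := by
  have h : (X * t ^ 2).degree < (m ^ 2).degree := by
    rw [deg_even hm.ne_zero]
    by_cases ht0 : t = 0
    · rw [ht0, zero_pow two_ne_zero, mul_zero, degree_zero]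
      exact WithBot.bot_lt_coe _
    · rw [deg_odd ht0]
      rw [degree_eq_natDegree ht0] at ht
      have h3 : t.natDegree < σ := by exact_mod_cast ht
      exact_mod_cast (by omega : 2 * t.natDegree + 1 < 2 * m.natDegree)
  refine ⟨(hm.pow 2).add_of_left h, ?_⟩
  rw [natDegree_eq_of_degree_eq (degree_add_eq_left_of_degree_lt h),
    natDegree_eq_of_degree_eq_some (deg_even hm.ne_zero), hd]

/-- degrees and decompositions -/
theorem fA_iff {o : Bool} {t m : K[X]} {σ : ℕ} :
    ((fA o t m).Monic ∧ (fA o t m).natDegree = 2 * σ + o.toNat) ↔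
      (m.Monic ∧ m.natDegree = σ ∧ t.degree < ((σ + o.toNat : ℕ) : WithBot ℕ)) := by
  cases o with
  | true =>
    have e : fA true t m = t ^ 2 + X * m ^ 2 := rfl
    rw [e]
    exact ⟨fun h => odd_case h.1 h.2, fun h => odd_conv h.1 h.2.1 h.2.2⟩
  | false =>
    have e : fA false t m = m ^ 2 + X * t ^ 2 := rfl
    rw [e]
    exact ⟨fun h => even_case h.1 h.2, fun h => even_conv h.1 h.2.1 h.2.2⟩

theorem fA_uniq {o : Bool} {t m t' m' : K[X]} (h : fA o t m = fA o t' m') : t = t' ∧ m = m' := by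
  cases o with
  | true =>
    have e : t ^ 2 + X * m ^ 2 = t' ^ 2 + X * m' ^ 2 := h
    exact dec_uniq e
  | false =>
    have e : m ^ 2 + X * t ^ 2 = m' ^ 2 + X * t' ^ 2 := h
    exact (dec_uniq e).symm

/-- the square root of the product -/
noncomputable def ga (o : Bool) (t m x w : K[X]) : K[X] :=
  if o then t * x + X * (m * w) else m * w + X * (t * x)

theorem fA_mul (o : Bool) (t m x w : K[X]) :
    fA o t m * fA o x w = ga o t m x w ^ 2 + X * (m * x + t * w) ^ 2 := by
  cases o with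
  | true =>
    have e1 : fA true t m = t ^ 2 + X * m ^ 2 := rfl
    have e2 : fA true x w = x ^ 2 + X * w ^ 2 := rfl
    have e3 : ga true t m x w = t * x + X * (m * w) := rfl
    rw [e1, e2, e3, CharTwo.add_sq, CharTwo.add_sq]
    ring
  | false =>
    have e1 : fA false t m = m ^ 2 + X * t ^ 2 := rfl
    have e2 : fA false x w = w ^ 2 + X * x ^ 2 := rfl
    have e3 : ga false t m x w = m * w + X * (t * x) := rfl
    rw [e1, e2, e3, CharTwo.add_sq, CharTwo.add_sq]
    ring

theorem ga_deg {o : Bool} {t m x w : K[X]} {σ σ' : ℕ} (hm : m.Monic) (hmd : m.natDegree = σ)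
    (hw : w.Monic) (hwd : w.natDegree = σ') (ht : t.degree < ((σ + o.toNat : ℕ) : WithBot ℕ))
    (hx : x.degree < ((σ' + o.toNat : ℕ) : WithBot ℕ)) :
    (ga o t m x w).Monic ∧ (ga o t m x w).natDegree = σ + σ' + o.toNat := by
  have hmw : (m * w).Monic := hm.mul hw
  have hmwd : (m * w).natDegree = σ + σ' := by rw [hm.natDegree_mul hw, hmd, hwd]
  have hmwD : (m * w).degree = ((σ + σ' : ℕ) : WithBot ℕ) := by
    rw [degree_eq_natDegree hmw.ne_zero, hmwd]
  cases o with
  | true =>
    have e3 : ga true t m x w = t * x + X * (m * w) := rfl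
    have h1 : (X * (m * w)).degree = ((σ + σ' + 1 : ℕ) : WithBot ℕ) := by
      rw [degree_mul, degree_X, hmwD]
      push_cast
      ring
    have h : (t * x).degree < (X * (m * w)).degree := by
      rw [h1]
      by_cases ht0 : t = 0
      · rw [ht0, zero_mul, degree_zero]
        exact WithBot.bot_lt_coe _
      · by_cases hx0 : x = 0
        · rw [hx0, mul_zero, degree_zero]
          exact WithBot.bot_lt_coe _
        · rw [degree_eq_natDegree ht0] at ht
          rw [degree_eq_natDegree hx0] at hx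
          have h3 : t.natDegree < σ + 1 := by exact_mod_cast ht
          have h4 : x.natDegree < σ' + 1 := by exact_mod_cast hx
          rw [degree_mul, degree_eq_natDegree ht0, degree_eq_natDegree hx0]
          exact_mod_cast (by omega : t.natDegree + x.natDegree < σ + σ' + 1)
    rw [e3]
    refine ⟨(monic_X.mul hmw).add_of_right h, ?_⟩
    rw [natDegree_eq_of_degree_eq (degree_add_eq_right_of_degree_lt h),
      natDegree_eq_of_degree_eq_some h1]
    rfl
  | false =>
    have e3 : ga false t m x w = m * w + X * (t * x) := rfl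
    have h : (X * (t * x)).degree < (m * w).degree := by
      rw [hmwD]
      by_cases ht0 : t = 0
      · rw [ht0, zero_mul, mul_zero, degree_zero]
        exact WithBot.bot_lt_coe _
      · by_cases hx0 : x = 0
        · rw [hx0, mul_zero, mul_zero, degree_zero]
          exact WithBot.bot_lt_coe _
        · rw [degree_eq_natDegree ht0] at ht
          rw [degree_eq_natDegree hx0] at hx
          have h3 : t.natDegree < σ + 0 := by exact_mod_cast ht
          have h4 : x.natDegree < σ' + 0 := by exact_mod_cast hx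
          rw [degree_mul, degree_mul, degree_X, degree_eq_natDegree ht0, degree_eq_natDegree hx0]
          exact_mod_cast (by omega : 1 + (t.natDegree + x.natDegree) < σ + σ')
    rw [e3]
    refine ⟨hmw.add_of_left h, ?_⟩
    rw [natDegree_eq_of_degree_eq (degree_add_eq_left_of_degree_lt h), hmwd]
    rfl

section Fin

variable [Fintype K]

theorem exists_sqrt (c : K) : ∃ r : K, r ^ 2 = c := by
  obtain ⟨r, hr⟩ := FiniteField.isSquare_of_char_two (ringChar.eq K 2) c
  exact ⟨r, by rw [hr]; ring⟩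

theorem exists_dec (f : K[X]) : ∃ u v : K[X], f = u ^ 2 + X * v ^ 2 := by
  induction f using Polynomial.induction_on' with
  | add p q hp hq =>
    obtain ⟨u, v, rfl⟩ := hp
    obtain ⟨u', v', rfl⟩ := hq
    refine ⟨u + u', v + v', ?_⟩
    rw [CharTwo.add_sq, CharTwo.add_sq]
    ring
  | monomial n a =>
    obtain ⟨r, rfl⟩ := exists_sqrt a
    rcases Nat.even_or_odd' n with ⟨k, rfl | rfl⟩
    · refine ⟨C r * X ^ k, 0, ?_⟩
      rw [← C_mul_X_pow_eq_monomial, C_pow]
      ring
    · refine ⟨0, C r * X ^ k, ?_⟩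
      rw [← C_mul_X_pow_eq_monomial, C_pow]
      ring

theorem exists_fA (o : Bool) (f : K[X]) : ∃ t m : K[X], f = fA o t m := by
  obtain ⟨u, v, h⟩ := exists_dec f
  cases o with
  | true => exact ⟨u, v, h⟩
  | false => exact ⟨v, u, h⟩

theorem fam_finite (o : Bool) (σ σ' : ℕ) (m : K[X]) : (Fam K o σ σ' m).Finite := by
  refine ((Set.finite_range (pol : (Fin (σ + o.toNat) → K) → K[X])).prod
    (Mn K σ').finite_toSet).subset ?_
  rintro ⟨t, w⟩ ⟨h1, h2, h3, -⟩
  refine ⟨?_, ?_⟩
  · obtain ⟨c, hc⟩ := exists_pol h1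
    exact ⟨c, hc⟩
  · rw [Finset.mem_coe, mem_Mn]
    exact ⟨h2, h3⟩

end Fin

/-- the degree of the quotient -/
theorem quot {o : Bool} {σ σ' : ℕ} {m t w : K[X]} (hm : m.Monic)
    (hmd : m.natDegree = σ) (hσ : 1 ≤ σ) (h : (t, w) ∈ Fam K o σ σ' m) :
    m * ((t * w - 1) / m) + t * w = 1 ∧
      ((t * w - 1) / m).degree < ((σ' + o.toNat : ℕ) : WithBot ℕ) := by
  obtain ⟨h1, h2, h3, x, hx⟩ := h
  have h1' : t.degree < ((σ + o.toNat : ℕ) : WithBot ℕ) := h1
  have h2' : w.Monic := h2
  have h3' : w.natDegree = σ' := h3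
  have hx' : t * w - 1 = m * x := hx
  have hq : (t * w - 1) / m = x := by
    rw [hx']
    exact mul_div_cancel_left₀ x hm.ne_zero
  rw [hq]
  have htw : t * w = m * x + 1 := by rw [← hx']; ring
  constructor
  · rw [htw, ← add_assoc, CharTwo.add_self_eq_zero, zero_add]
  · by_cases hx0 : x = 0
    · rw [hx0, degree_zero]
      exact WithBot.bot_lt_coe _
    · have hlt : (m * x).degree < ((σ + σ' + o.toNat : ℕ) : WithBot ℕ) := by
        rw [← hx']
        refine lt_of_le_of_lt (degree_sub_le _ _) (max_lt ?_ ?_)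
        · by_cases ht0 : t = 0
          · rw [ht0, zero_mul, degree_zero]
            exact WithBot.bot_lt_coe _
          · rw [degree_eq_natDegree ht0] at h1'
            have h4 : t.natDegree < σ + o.toNat := by exact_mod_cast h1'
            rw [degree_mul, degree_eq_natDegree ht0, degree_eq_natDegree h2'.ne_zero, h3']
            exact_mod_cast (by omega : t.natDegree + σ' < σ + σ' + o.toNat)
        · rw [degree_one]
          exact_mod_cast (by omega : 0 < σ + σ' + o.toNat)
      rw [degree_mul, degree_eq_natDegree hm.ne_zero, degree_eq_natDegree hx0, hmd] at hlt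
      rw [degree_eq_natDegree hx0]
      have h4 : σ + x.natDegree < σ + σ' + o.toNat := by exact_mod_cast hlt
      exact_mod_cast (by omega : x.natDegree < σ' + o.toNat)

end PairAux

open PairAux

/-- **Task PAIR.** -/
theorem pair : S_pair := by
  intro K _ _ _ o d σ σ' Φ hσ hσ' hd
  have hR : ∀ m : K[X], ∑ᶠ p ∈ Fam K o σ σ' m, Φ (fA o p.1 m) (fAB o p.1 m p.2) =
      ∑ p ∈ (fam_finite o σ σ' m).toFinset, Φ (fA o p.1 m) (fAB o p.1 m p.2) := fun m =>
    finsum_mem_eq_finite_toFinset_sum _ (fam_finite o σ σ' m)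
  simp only [hR]
  rw [Finset.sum_sigma', Finset.sum_sigma']
  symm
  refine Finset.sum_bij (fun (z : Σ _ : K[X], K[X] × K[X]) _ =>
    (⟨ga o z.2.1 z.1 ((z.2.1 * z.2.2 - 1) / z.1) z.2.2, fA o z.2.1 z.1⟩ : Σ _ : K[X], K[X])) ?_ ?_ ?_ ?_
  · -- well defined
    rintro ⟨m, t, w⟩ hz
    rw [Finset.mem_sigma, mem_Mn, Set.Finite.mem_toFinset] at hz
    obtain ⟨⟨hm, hmd⟩, hF⟩ := hz
    obtain ⟨h1, h2⟩ := quot hm hmd hσ hF
    have hF1 : t.degree < ((σ + o.toNat : ℕ) : WithBot ℕ) := hF.1
    have hF2 : w.Monic := hF.2.1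
    have hF3 : w.natDegree = σ' := hF.2.2.1
    rw [Finset.mem_sigma, mem_Mn, Finset.mem_filter, mem_Mn]
    have hg := ga_deg hm hmd hF2 hF3 hF1 h2
    refine ⟨⟨hg.1, hg.2.trans hd⟩, fA_iff.2 ⟨hm, hmd, hF1⟩, ?_⟩
    have e := fA_mul o t m ((t * w - 1) / m) w
    rw [h1, one_pow, mul_one] at e
    exact ⟨_, e.symm⟩
  · -- injective
    rintro ⟨m, t, w⟩ hz ⟨m', t', w'⟩ hz' he
    rw [Finset.mem_sigma, mem_Mn, Set.Finite.mem_toFinset] at hz hz'
    obtain ⟨⟨hm, hmd⟩, hF⟩ := hz
    obtain ⟨⟨hm', hmd'⟩, hF'⟩ := hz'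
    obtain ⟨h1, h2⟩ := quot hm hmd hσ hF
    obtain ⟨h1', h2'⟩ := quot hm' hmd' hσ hF'
    have he1 : ga o t m ((t * w - 1) / m) w = ga o t' m' ((t' * w' - 1) / m') w' :=
      congrArg (fun y : Σ _ : K[X], K[X] => y.1) he
    have he2 : fA o t m = fA o t' m' := congrArg (fun y : Σ _ : K[X], K[X] => y.2) he
    obtain ⟨rfl, rfl⟩ := fA_uniq he2
    have e := fA_mul o t m ((t * w - 1) / m) w
    have e' := fA_mul o t m ((t * w' - 1) / m) w'
    rw [h1, one_pow, mul_one, he1] at e
    rw [h1', one_pow, mul_one, ← e] at e'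
    have hF1 : t.degree < ((σ + o.toNat : ℕ) : WithBot ℕ) := hF.1
    have hne : fA o t m ≠ 0 := (fA_iff.2 ⟨hm, hmd, hF1⟩).1.ne_zero
    have h3 := mul_left_cancel₀ hne e'
    obtain ⟨-, h4⟩ := fA_uniq h3
    rw [h4]
  · -- surjective
    rintro ⟨a, D⟩ hz
    rw [Finset.mem_sigma, mem_Mn, Finset.mem_filter, mem_Mn] at hz
    obtain ⟨⟨ha, had⟩, ⟨hD, hDd⟩, B, hB⟩ := hz
    have ha' : a.Monic := ha
    have had' : a.natDegree = d := had
    have hD' : D.Monic := hD
    have hDd' : D.natDegree = 2 * σ + o.toNat := hDd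
    have hB' : a ^ 2 + X = D * B := hB
    have h1 : (a ^ 2 + X * 1 ^ 2).Monic ∧ (a ^ 2 + X * 1 ^ 2 : K[X]).natDegree = 2 * d :=
      even_conv ha' had' (by
        rw [degree_one]
        exact_mod_cast (by omega : 0 < d))
    rw [one_pow, mul_one, hB'] at h1
    have hBm : B.Monic := hD'.of_mul_monic_left h1.1
    have hBd : B.natDegree = 2 * σ' + o.toNat := by
      have h2 := h1.2
      rw [hD'.natDegree_mul hBm, hDd'] at h2
      omega
    obtain ⟨t, m, rfl⟩ := exists_fA o D
    obtain ⟨x, w, rfl⟩ := exists_fA o B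
    obtain ⟨hm, hmd, ht⟩ := fA_iff.1 ⟨hD', hDd'⟩
    obtain ⟨hw, hwd, hx⟩ := fA_iff.1 ⟨hBm, hBd⟩
    have e := fA_mul o t m x w
    rw [← hB'] at e
    have e2 : a ^ 2 + X * 1 ^ 2 = ga o t m x w ^ 2 + X * (m * x + t * w) ^ 2 := by
      rw [one_pow, mul_one]
      exact e
    obtain ⟨e3, e4⟩ := dec_uniq e2
    have e5 : t * w - 1 = m * x := by
      rw [e4, CharTwo.sub_eq_add, add_comm (m * x) (t * w), ← add_assoc, CharTwo.add_self_eq_zero,
        zero_add]
    have e6 : (t * w - 1) / m = x := by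
      rw [e5]
      exact mul_div_cancel_left₀ x hm.ne_zero
    refine ⟨⟨m, t, w⟩, ?_, ?_⟩
    · rw [Finset.mem_sigma, mem_Mn, Set.Finite.mem_toFinset]
      exact ⟨⟨hm, hmd⟩, ht, hw, hwd, x, e5⟩
    · have e7 : ga o t m ((t * w - 1) / m) w = a := by rw [e6]; exact e3.symm
      show (⟨ga o t m ((t * w - 1) / m) w, fA o t m⟩ : Σ _ : K[X], K[X]) = ⟨a, fA o t m⟩
      rw [e7]
  · -- the values
    rintro ⟨m, t, w⟩ hz
    rw [Finset.mem_sigma, mem_Mn, Set.Finite.mem_toFinset] at hz
    obtain ⟨⟨hm, hmd⟩, hF⟩ := hz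
    obtain ⟨h1, h2⟩ := quot hm hmd hσ hF
    have e := fA_mul o t m ((t * w - 1) / m) w
    rw [h1, one_pow, mul_one] at e
    show Φ (fA o t m) (fA o t m * fA o ((t * w - 1) / m) w) =
      Φ (fA o t m) (ga o t m ((t * w - 1) / m) w ^ 2 + X)
    rw [e]

end Pool.Agent.H604.LD
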