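import Pool.Agent.H604.LD.Stm
import Pool.Agent.H985.KP.Cnt

/-!
# Primes `a ^ 2 + X` over `F_q[X]`, `q` even (helper604): task UP2, by helper187

The two-dimensional upper bound sieve for a fixed `m`.  Modulo the primes `P` of the sieve and of `m₁`
the conditions are periodic (`LS`, `LM`), their density is a product (`den_prod`, `den_LS`), and in the
residue classes the points of the hyperbola modulo the rest `h` of `m` are equidistributed (`S_hyp`).
-/

set_option autoImplicit false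

namespace Pool.Agent.H604.LD.Up2

open Polynomial
open scoped Classical
open Pool.Agent.H985.KP (PA)
open Pool.Agent.H985.KP.Cnt (finite_PA coprime_of_ne card_degLT)

section box
variable {K : Type} [Field K]

/-- the pairs in `S` of degree less than `n` -/
def bx (n : ℕ) (S : Set (K[X] × K[X])) : Set (K[X] × K[X]) :=
  {p | p.1.degree < (n : WithBot ℕ) ∧ p.2.degree < (n : WithBot ℕ) ∧ p ∈ S}

/-- `S` is periodic modulo `Q` -/
def Per (Q : K[X]) (S : Set (K[X] × K[X])) : Prop :=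
  ∀ t w u v : K[X], (t + Q * u, w + Q * v) ∈ S ↔ (t, w) ∈ S

lemma Per.mono {Q Q' : K[X]} {S : Set (K[X] × K[X])} (h : Per Q S) (hd : Q ∣ Q') : Per Q' S := by
  obtain ⟨c, rfl⟩ := hd
  intro t w u v
  rw [mul_assoc, mul_assoc]
  exact h t w (c * u) (c * v)

lemma Per.inter {Q : K[X]} {S S' : Set (K[X] × K[X])} (h : Per Q S) (h' : Per Q S') :
    Per Q (S ∩ S') := fun t w u v => and_congr (h t w u v) (h' t w u v)

lemma deg_mod {Q : K[X]} (hQ : Q.Monic) (t : K[X]) :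
    (t %ₘ Q).degree < (Q.natDegree : WithBot ℕ) := by
  rw [← degree_eq_natDegree hQ.ne_zero]
  exact degree_modByMonic_lt t hQ

lemma mod_mem {Q : K[X]} {S : Set (K[X] × K[X])} (hS : Per Q S) (t w : K[X]) :
    (t %ₘ Q, w %ₘ Q) ∈ S ↔ (t, w) ∈ S := by
  have h := hS (t %ₘ Q) (w %ₘ Q) (t /ₘ Q) (w /ₘ Q)
  rw [modByMonic_add_div t Q, modByMonic_add_div w Q] at h
  exact h.symm

lemma eq_of_dvd {Q a b : K[X]} (hQ : Q.Monic) (ha : a.degree < (Q.natDegree : WithBot ℕ))
    (hb : b.degree < (Q.natDegree : WithBot ℕ)) (h : Q ∣ a - b) : a = b := by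
  have h1 : (a - b).degree < Q.degree := by
    rw [degree_eq_natDegree hQ.ne_zero]
    exact lt_of_le_of_lt (degree_sub_le a b) (max_lt ha hb)
  exact sub_eq_zero.1 (eq_zero_of_dvd_of_degree_lt h h1)

lemma dvd_sub_mod {Q : K[X]} (t : K[X]) : Q ∣ t - t %ₘ Q := by
  have h := modByMonic_add_div t Q
  refine ⟨t /ₘ Q, ?_⟩
  linear_combination -h

lemma crt {Q₁ Q₂ : K[X]} (h₁ : Q₁.Monic) (h₂ : Q₂.Monic) (hc : IsCoprime Q₁ Q₂) (a b : K[X]) :
    ∃ t : K[X], t.degree < ((Q₁ * Q₂).natDegree : WithBot ℕ) ∧ Q₁ ∣ t - a ∧ Q₂ ∣ t - b := by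
  obtain ⟨u, v, huv⟩ := hc
  refine ⟨(a * (v * Q₂) + b * (u * Q₁)) %ₘ (Q₁ * Q₂), deg_mod (h₁.mul h₂) _, ?_, ?_⟩
  · have h := dvd_sub_mod (Q := Q₁ * Q₂) (a * (v * Q₂) + b * (u * Q₁))
    have h' := dvd_trans (dvd_mul_right Q₁ Q₂) h
    have h3 : Q₁ ∣ (a * (v * Q₂) + b * (u * Q₁)) - a := ⟨(b - a) * u, by
      linear_combination a * huv⟩
    have h4 := dvd_sub h3 h'
    have e : (a * (v * Q₂) + b * (u * Q₁)) - a - (a * (v * Q₂) + b * (u * Q₁) -
      (a * (v * Q₂) + b * (u * Q₁)) %ₘ (Q₁ * Q₂)) =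
      (a * (v * Q₂) + b * (u * Q₁)) %ₘ (Q₁ * Q₂) - a := by ring
    rwa [e] at h4
  · have h := dvd_sub_mod (Q := Q₁ * Q₂) (a * (v * Q₂) + b * (u * Q₁))
    have h' := dvd_trans (dvd_mul_left Q₂ Q₁) h
    have h3 : Q₂ ∣ (a * (v * Q₂) + b * (u * Q₁)) - b := ⟨(a - b) * v, by
      linear_combination b * huv⟩
    have h4 := dvd_sub h3 h'
    have e : (a * (v * Q₂) + b * (u * Q₁)) - b - (a * (v * Q₂) + b * (u * Q₁) -
      (a * (v * Q₂) + b * (u * Q₁)) %ₘ (Q₁ * Q₂)) =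
      (a * (v * Q₂) + b * (u * Q₁)) %ₘ (Q₁ * Q₂) - b := by ring
    rwa [e] at h4

lemma mem_of_dvd {Q : K[X]} {S : Set (K[X] × K[X])} (hS : Per Q S) {t w t' w' : K[X]}
    (h : Q ∣ t - t') (h' : Q ∣ w - w') : (t, w) ∈ S ↔ (t', w') ∈ S := by
  obtain ⟨u, hu⟩ := h
  obtain ⟨v, hv⟩ := h'
  have e1 : t = t' + Q * u := by linear_combination hu
  have e2 : w = w' + Q * v := by linear_combination hv
  rw [e1, e2]
  exact hS t' w' u v

lemma mod_eq_iff {Q a b : K[X]} (hQ : Q.Monic) : a %ₘ Q = b %ₘ Q ↔ Q ∣ a - b := by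
  constructor
  · intro h
    have h1 := dvd_sub_mod (Q := Q) a
    have h2 := dvd_sub_mod (Q := Q) b
    rw [h] at h1
    have h3 := dvd_sub h1 h2
    have e : a - b %ₘ Q - (b - b %ₘ Q) = a - b := by ring
    rwa [e] at h3
  · intro h
    refine eq_of_dvd hQ (deg_mod hQ a) (deg_mod hQ b) ?_
    have h1 := dvd_sub_mod (Q := Q) a
    have h2 := dvd_sub_mod (Q := Q) b
    have h3 := dvd_add (dvd_sub h h1) h2
    have e : a - b - (a - a %ₘ Q) + (b - b %ₘ Q) = a %ₘ Q - b %ₘ Q := by ring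
    rwa [e] at h3

/-- multiplicativity of the number of the solutions -/
lemma ncard_mul {Q₁ Q₂ : K[X]} (h₁ : Q₁.Monic) (h₂ : Q₂.Monic) (hc : IsCoprime Q₁ Q₂)
    {S₁ S₂ : Set (K[X] × K[X])} (hS₁ : Per Q₁ S₁) (hS₂ : Per Q₂ S₂) :
    (bx (Q₁ * Q₂).natDegree (S₁ ∩ S₂)).ncard =
      (bx Q₁.natDegree S₁).ncard * (bx Q₂.natDegree S₂).ncard := by
  rw [← Set.ncard_prod]
  refine Set.ncard_congr (fun p _ => ((p.1 %ₘ Q₁, p.2 %ₘ Q₁), (p.1 %ₘ Q₂, p.2 %ₘ Q₂))) ?_ ?_ ?_
  · rintro p ⟨-, -, hp1, hp2⟩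
    exact ⟨⟨deg_mod h₁ _, deg_mod h₁ _, (mod_mem hS₁ p.1 p.2).2 hp1⟩,
      ⟨deg_mod h₂ _, deg_mod h₂ _, (mod_mem hS₂ p.1 p.2).2 hp2⟩⟩
  · rintro p p' ⟨hp1, hp2, -⟩ ⟨hp1', hp2', -⟩ h
    simp only [Prod.mk.injEq] at h
    obtain ⟨⟨a1, a2⟩, a3, a4⟩ := h
    refine Prod.ext ?_ ?_
    · exact eq_of_dvd (h₁.mul h₂) hp1 hp1' (hc.mul_dvd ((mod_eq_iff h₁).1 a1) ((mod_eq_iff h₂).1 a3))
    · exact eq_of_dvd (h₁.mul h₂) hp2 hp2' (hc.mul_dvd ((mod_eq_iff h₁).1 a2) ((mod_eq_iff h₂).1 a4))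
  · rintro ⟨⟨a, b⟩, ⟨c, d⟩⟩ ⟨⟨ha, hb, hab⟩, hc', hd, hcd⟩
    obtain ⟨t, ht, ht1, ht2⟩ := crt h₁ h₂ hc a c
    obtain ⟨w, hw, hw1, hw2⟩ := crt h₁ h₂ hc b d
    refine ⟨(t, w), ⟨ht, hw, (mem_of_dvd hS₁ ht1 hw1).2 hab, (mem_of_dvd hS₂ ht2 hw2).2 hcd⟩, ?_⟩
    have e1 : t %ₘ Q₁ = a := by
      rw [(mod_eq_iff h₁).2 ht1, (modByMonic_eq_self_iff h₁).2]
      rw [degree_eq_natDegree h₁.ne_zero]
      exact ha
    have e2 : w %ₘ Q₁ = b := by
      rw [(mod_eq_iff h₁).2 hw1, (modByMonic_eq_self_iff h₁).2]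
      rw [degree_eq_natDegree h₁.ne_zero]
      exact hb
    have e3 : t %ₘ Q₂ = c := by
      rw [(mod_eq_iff h₂).2 ht2, (modByMonic_eq_self_iff h₂).2]
      rw [degree_eq_natDegree h₂.ne_zero]
      exact hc'
    have e4 : w %ₘ Q₂ = d := by
      rw [(mod_eq_iff h₂).2 hw2, (modByMonic_eq_self_iff h₂).2]
      rw [degree_eq_natDegree h₂.ne_zero]
      exact hd
    simp only [e1, e2, e3, e4]

variable [Fintype K]

lemma win_fin (n : ℕ) : {u : K[X] | u.degree < (n : WithBot ℕ)}.Finite := (card_degLT n).1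

omit [Fintype K] in
lemma bx_sub (n : ℕ) (S : Set (K[X] × K[X])) :
    bx n S ⊆ {u : K[X] | u.degree < (n : WithBot ℕ)} ×ˢ {u : K[X] | u.degree < (n : WithBot ℕ)} :=
  fun _ hp => ⟨hp.1, hp.2.1⟩

lemma bx_finite (n : ℕ) (S : Set (K[X] × K[X])) : (bx n S).Finite :=
  ((win_fin n).prod (win_fin n)).subset (bx_sub n S)

lemma bx_card_le (n : ℕ) (S : Set (K[X] × K[X])) : (bx n S).ncard ≤ Fintype.card K ^ (2 * n) := by
  have h := Set.ncard_le_ncard (bx_sub n S) ((win_fin n).prod (win_fin n))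
  rw [Set.ncard_prod, (card_degLT n).2, ← pow_add, ← two_mul] at h
  exact h

/-- the density -/
noncomputable def den (Q : K[X]) (S : Set (K[X] × K[X])) : ℝ :=
  ((bx Q.natDegree S).ncard : ℝ) / (Fintype.card K : ℝ) ^ (2 * Q.natDegree)

lemma qpos : (0 : ℝ) < (Fintype.card K : ℝ) := by
  exact_mod_cast Fintype.card_pos

lemma den_mul {Q₁ Q₂ : K[X]} (h₁ : Q₁.Monic) (h₂ : Q₂.Monic) (hc : IsCoprime Q₁ Q₂)
    {S₁ S₂ : Set (K[X] × K[X])} (hS₁ : Per Q₁ S₁) (hS₂ : Per Q₂ S₂) :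
    den (Q₁ * Q₂) (S₁ ∩ S₂) = den Q₁ S₁ * den Q₂ S₂ := by
  unfold den
  rw [ncard_mul h₁ h₂ hc hS₁ hS₂, h₁.natDegree_mul h₂, mul_add, pow_add]
  push_cast
  rw [mul_div_mul_comm]

lemma den_one : den (1 : K[X]) Set.univ = 1 := by
  unfold den
  have h : bx (1 : K[X]).natDegree (Set.univ : Set (K[X] × K[X])) = {(0, 0)} := by
    ext p
    rw [Set.mem_singleton_iff]
    constructor
    · rintro ⟨h1, h2, -⟩
      rw [natDegree_one, Nat.cast_zero] at h1 h2
      have e1 : p.1 = 0 := by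
        by_contra h
        exact absurd h1 (not_lt.2 (zero_le_degree_iff.2 h))
      have e2 : p.2 = 0 := by
        by_contra h
        exact absurd h2 (not_lt.2 (zero_le_degree_iff.2 h))
      exact Prod.ext e1 e2
    · rintro rfl
      refine ⟨?_, ?_, Set.mem_univ _⟩ <;>
      · show (0 : K[X]).degree < _
        rw [degree_zero]
        exact WithBot.bot_lt_coe _
  rw [h, Set.ncard_singleton, natDegree_one, mul_zero, pow_zero, Nat.cast_one, div_one]

/-- the density of an intersection -/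
lemma den_prod (F : Finset K[X]) (R : K[X] → K[X]) (S : K[X] → Set (K[X] × K[X]))
    (hR : ∀ P ∈ F, (R P).Monic) (hc : ∀ P ∈ F, ∀ P' ∈ F, P ≠ P' → IsCoprime (R P) (R P'))
    (hS : ∀ P ∈ F, Per (R P) (S P)) :
    den (∏ P ∈ F, R P) (⋂ P ∈ F, S P) = ∏ P ∈ F, den (R P) (S P) := by
  induction F using Finset.induction_on with
  | empty =>
    rw [Finset.prod_empty, Finset.prod_empty]
    have : (⋂ P ∈ (∅ : Finset K[X]), S P) = Set.univ := by simp
    rw [this, den_one]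
  | insert P F hP ih =>
    rw [Finset.prod_insert hP, Finset.prod_insert hP, Finset.set_biInter_insert]
    have hF : ∀ P' ∈ F, P' ∈ insert P F := fun P' h => Finset.mem_insert_of_mem h
    have hPm : P ∈ insert P F := Finset.mem_insert_self P F
    rw [← ih (fun P' h => hR P' (hF P' h)) (fun P₁ h₁ P₂ h₂ => hc P₁ (hF _ h₁) P₂ (hF _ h₂))
      (fun P' h => hS P' (hF P' h))]
    refine den_mul (hR P hPm) (monic_prod_of_monic _ _ fun P' h => hR P' (hF P' h)) ?_
      (hS P hPm) ?_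
    · refine IsCoprime.prod_right fun P' h => hc P hPm P' (hF P' h) ?_
      rintro rfl
      exact hP h
    · intro t w u v
      simp only [Set.mem_iInter]
      refine forall₂_congr fun P' h => ?_
      exact (hS P' (hF P' h)).mono (Finset.dvd_prod_of_mem R h) t w u v

end box

section hyp
variable {K : Type} [Field K]

/-- the pairs of the family in `S` -/
def gg (a b : ℕ) (S : Set (K[X] × K[X])) : Set (K[X] × K[X]) :=
  {p | p.1.degree < (a : WithBot ℕ) ∧ p.2.Monic ∧ p.2.natDegree = b ∧ p ∈ S}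

lemma gg_sub (a b : ℕ) (S : Set (K[X] × K[X])) :
    gg a b S ⊆ {u : K[X] | u.degree < (a : WithBot ℕ)} ×ˢ
      {u : K[X] | u.degree < ((b + 1 : ℕ) : WithBot ℕ)} := by
  rintro p ⟨h1, h2, h3, -⟩
  refine ⟨h1, ?_⟩
  rw [Set.mem_ofPred_eq, degree_eq_natDegree h2.ne_zero, h3]
  exact_mod_cast Nat.lt_succ_self b

/-- the class of the pairs which are congruent to `c` -/
lemma class_bij {Q : K[X]} (hQ : Q.Monic) (a b : ℕ) (ha : Q.natDegree ≤ a) (hb : Q.natDegree ≤ b)
    {S : Set (K[X] × K[X])} (R : K[X] × K[X] → Prop) (hS : Per Q S) (c : K[X] × K[X])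
    (hc : c ∈ bx Q.natDegree S) :
    {p : K[X] × K[X] | p ∈ gg a b {p | p ∈ S ∧ R p} ∧ (p.1 %ₘ Q, p.2 %ₘ Q) = c}.ncard =
    {p : K[X] × K[X] | p.1.degree < ((a - Q.natDegree : ℕ) : WithBot ℕ) ∧
      p.2.degree < ((b - Q.natDegree : ℕ) : WithBot ℕ) ∧
      R (c.1 + Q * p.1, (c.2 + Q * X ^ (b - Q.natDegree)) + Q * p.2)}.ncard := by
  symm
  have hQ0 := hQ.ne_zero
  have hXm : ∀ v : K[X], v.degree < ((b - Q.natDegree : ℕ) : WithBot ℕ) →
      (X ^ (b - Q.natDegree) + v).Monic ∧ (X ^ (b - Q.natDegree) + v).natDegree =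
        b - Q.natDegree := by
    intro v hv
    refine ⟨monic_X_pow_add hv, ?_⟩
    apply natDegree_eq_of_degree_eq_some
    rw [degree_add_eq_left_of_degree_lt, degree_X_pow]
    rw [degree_X_pow]
    exact hv
  obtain ⟨hc1, hc2, hcS⟩ := hc
  refine Set.ncard_congr (fun p _ => (c.1 + Q * p.1, (c.2 + Q * X ^ (b - Q.natDegree)) + Q * p.2))
    ?_ ?_ ?_
  · rintro ⟨t, w⟩ ⟨h1, h2, h3⟩
    have h1' : t.degree < ((a - Q.natDegree : ℕ) : WithBot ℕ) := h1
    have h2' : w.degree < ((b - Q.natDegree : ℕ) : WithBot ℕ) := h2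
    have e : (c.2 + Q * X ^ (b - Q.natDegree)) + Q * w = Q * (X ^ (b - Q.natDegree) + w) + c.2 := by
      ring
    obtain ⟨m1, m2⟩ := hXm w h2'
    have m3 : (Q * (X ^ (b - Q.natDegree) + w)).degree = (b : WithBot ℕ) := by
      rw [degree_eq_natDegree (hQ.mul m1).ne_zero, hQ.natDegree_mul m1, m2]
      exact_mod_cast (by omega : Q.natDegree + (b - Q.natDegree) = b)
    have m4 : c.2.degree < (Q * (X ^ (b - Q.natDegree) + w)).degree := by
      rw [m3]
      exact lt_of_lt_of_le hc2 (by exact_mod_cast hb)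
    refine ⟨⟨?_, ?_, ?_, ?_, h3⟩, ?_⟩
    · show (c.1 + Q * t).degree < (a : WithBot ℕ)
      refine lt_of_le_of_lt (degree_add_le _ _) (max_lt ?_ ?_)
      · exact lt_of_lt_of_le hc1 (by exact_mod_cast ha)
      · by_cases ht : t = 0
        · rw [ht, mul_zero, degree_zero]
          exact WithBot.bot_lt_coe _
        · rw [degree_mul, degree_eq_natDegree hQ0, degree_eq_natDegree ht]
          rw [degree_eq_natDegree ht] at h1'
          have h4 : t.natDegree < a - Q.natDegree := by exact_mod_cast h1'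
          exact_mod_cast (by omega : Q.natDegree + t.natDegree < a)
    · show ((c.2 + Q * X ^ (b - Q.natDegree)) + Q * w).Monic
      rw [e]
      exact (hQ.mul m1).add_of_left m4
    · show ((c.2 + Q * X ^ (b - Q.natDegree)) + Q * w).natDegree = b
      rw [e]
      apply natDegree_eq_of_degree_eq_some
      rw [degree_add_eq_left_of_degree_lt m4, m3]
    · show (c.1 + Q * t, (c.2 + Q * X ^ (b - Q.natDegree)) + Q * w) ∈ S
      have e2 : (c.2 + Q * X ^ (b - Q.natDegree)) + Q * w =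
        c.2 + Q * (X ^ (b - Q.natDegree) + w) := by ring
      rw [e2]
      exact (hS _ _ _ _).2 hcS
    · show ((c.1 + Q * t) %ₘ Q, ((c.2 + Q * X ^ (b - Q.natDegree)) + Q * w) %ₘ Q) = c
      refine Prod.ext ?_ ?_
      · show (c.1 + Q * t) %ₘ Q = c.1
        rw [(mod_eq_iff hQ (b := c.1)).2 ⟨t, by ring⟩, (modByMonic_eq_self_iff hQ).2]
        rw [degree_eq_natDegree hQ0]
        exact hc1
      · show ((c.2 + Q * X ^ (b - Q.natDegree)) + Q * w) %ₘ Q = c.2
        rw [(mod_eq_iff hQ (b := c.2)).2 ⟨X ^ (b - Q.natDegree) + w, by ring⟩,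
          (modByMonic_eq_self_iff hQ).2]
        rw [degree_eq_natDegree hQ0]
        exact hc2
  · rintro ⟨t, w⟩ ⟨t', w'⟩ - - h
    simp only [Prod.mk.injEq] at h
    obtain ⟨h1, h2⟩ := h
    have e1 : Q * t = Q * t' := by linear_combination h1
    have e2 : Q * w = Q * w' := by linear_combination h2
    exact Prod.ext (mul_left_cancel₀ hQ0 e1) (mul_left_cancel₀ hQ0 e2)
  · rintro ⟨t, w⟩ ⟨⟨h1, h2, h3, h4, h5⟩, h6⟩
    have h1' : t.degree < (a : WithBot ℕ) := h1
    have h2' : w.Monic := h2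
    have h3' : w.natDegree = b := h3
    simp only at h6
    have e1 : t %ₘ Q = c.1 := congrArg Prod.fst h6
    have e2 : w %ₘ Q = c.2 := congrArg Prod.snd h6
    have f1 := modByMonic_add_div t Q
    have f2 := modByMonic_add_div w Q
    have hdeg : Q.degree ≤ w.degree := by
      rw [degree_eq_natDegree hQ0, degree_eq_natDegree h2'.ne_zero, h3']
      exact_mod_cast hb
    have g1 : (w /ₘ Q).Monic := by
      rw [Monic, leadingCoeff_divByMonic_of_monic hQ hdeg]
      exact h2'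
    have g2 : (w /ₘ Q).natDegree = b - Q.natDegree := by rw [natDegree_divByMonic w hQ, h3']
    have g3 : (w /ₘ Q - X ^ (b - Q.natDegree)).degree < ((b - Q.natDegree : ℕ) : WithBot ℕ) := by
      have k1 : (w /ₘ Q).degree = (X ^ (b - Q.natDegree) : K[X]).degree := by
        rw [degree_X_pow, degree_eq_natDegree g1.ne_zero, g2]
      have k2 := degree_sub_lt_left k1 g1.ne_zero (by rw [g1.leadingCoeff, leadingCoeff_X_pow])
      refine lt_of_lt_of_eq k2 ?_
      rw [degree_eq_natDegree g1.ne_zero, g2]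
    have g4 : (t /ₘ Q).degree < ((a - Q.natDegree : ℕ) : WithBot ℕ) := by
      by_cases h0 : t /ₘ Q = 0
      · rw [h0, degree_zero]
        exact WithBot.bot_lt_coe _
      · rw [degree_eq_natDegree h0]
        have k3 := natDegree_divByMonic t hQ
        have k4 : Q.degree ≤ t.degree := by
          by_contra hcon
          rw [not_le] at hcon
          exact h0 ((divByMonic_eq_zero_iff hQ).2 hcon)
        have k5 : t ≠ 0 := by
          intro k6
          rw [k6, zero_divByMonic] at h0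
          exact h0 rfl
        have k6 := natDegree_le_natDegree k4
        have k7 := h1'
        rw [degree_eq_natDegree k5] at k7
        have k8 : t.natDegree < a := by exact_mod_cast k7
        rw [k3]
        exact_mod_cast (by omega : t.natDegree - Q.natDegree < a - Q.natDegree)
    have i1 : c.1 + Q * (t /ₘ Q) = t := by rw [← e1]; exact f1
    have i2 : (c.2 + Q * X ^ (b - Q.natDegree)) + Q * (w /ₘ Q - X ^ (b - Q.natDegree)) = w := by
      rw [← e2]
      linear_combination f2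
    refine ⟨(t /ₘ Q, w /ₘ Q - X ^ (b - Q.natDegree)), ⟨g4, g3, ?_⟩, ?_⟩
    · show R (c.1 + Q * (t /ₘ Q), (c.2 + Q * X ^ (b - Q.natDegree)) +
        Q * (w /ₘ Q - X ^ (b - Q.natDegree)))
      rw [i1, i2]
      exact h5
    · show (c.1 + Q * (t /ₘ Q), (c.2 + Q * X ^ (b - Q.natDegree)) +
        Q * (w /ₘ Q - X ^ (b - Q.natDegree))) = (t, w)
      rw [i1, i2]

variable [Fintype K]

lemma gg_finite (a b : ℕ) (S : Set (K[X] × K[X])) : (gg a b S).Finite :=
  ((win_fin a).prod (win_fin (b + 1))).subset (gg_sub a b S)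

/-- the sum over the classes -/
lemma gg_card {Q : K[X]} (hQ : Q.Monic) (a b : ℕ) (ha : Q.natDegree ≤ a) (hb : Q.natDegree ≤ b)
    {S : Set (K[X] × K[X])} (R : K[X] × K[X] → Prop) (hS : Per Q S) :
    (gg a b {p | p ∈ S ∧ R p}).ncard = ∑ c ∈ (bx_finite Q.natDegree S).toFinset,
    {p : K[X] × K[X] | p.1.degree < ((a - Q.natDegree : ℕ) : WithBot ℕ) ∧
      p.2.degree < ((b - Q.natDegree : ℕ) : WithBot ℕ) ∧
      R (c.1 + Q * p.1, (c.2 + Q * X ^ (b - Q.natDegree)) + Q * p.2)}.ncard := by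
  have hfin := gg_finite a b {p | p ∈ S ∧ R p}
  rw [Set.ncard_eq_toFinset_card _ hfin]
  rw [Finset.card_eq_sum_card_fiberwise (f := fun p : K[X] × K[X] => (p.1 %ₘ Q, p.2 %ₘ Q))
    (t := (bx_finite Q.natDegree S).toFinset)]
  · refine Finset.sum_congr rfl fun c hc => ?_
    rw [Set.Finite.mem_toFinset] at hc
    rw [← class_bij hQ a b ha hb R hS c hc, ← Set.ncard_coe_finset]
    congr 1
    ext p
    simp only [Finset.coe_filter, Set.Finite.mem_toFinset, Set.mem_ofPred_eq]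
  · intro p hp
    rw [Finset.mem_coe, Set.Finite.mem_toFinset] at hp
    rw [Finset.mem_coe, Set.Finite.mem_toFinset]
    exact ⟨deg_mod hQ _, deg_mod hQ _, (mod_mem hS p.1 p.2).2 hp.2.2.2.1⟩

/-- equidistribution on the hyperbola in `S` -/
lemma hyp_count {M : ℝ} (hM0 : 1 ≤ M) (hM : ∀ (m E t₀ w₀ : K[X]) (L₁ L₂ : ℕ), m.Monic →
      Squarefree m → IsCoprime E m →
      |(({p : K[X] × K[X] | p.1.degree < (L₁ : WithBot ℕ) ∧ p.2.degree < (L₂ : WithBot ℕ) ∧
          m ∣ (t₀ + E * p.1) * (w₀ + E * p.2) - 1}.ncard : ℝ)) -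
        (Fintype.card K : ℝ) ^ (L₁ + L₂) / (Fintype.card K : ℝ) ^ m.natDegree *
          ∏ᶠ P ∈ PA m, (1 - 1 / (Fintype.card K : ℝ) ^ P.natDegree)| ≤
        M ^ (PA m).ncard * ((Fintype.card K : ℝ) ^ ((m.natDegree : ℝ) / 2) +
          (Fintype.card K : ℝ) ^ ((L₁ - L₂) + (L₂ - L₁))))
    {Q h : K[X]} (hQ : Q.Monic) (hh : h.Monic) (hsq : Squarefree h) (hc : IsCoprime Q h)
    (a b : ℕ) (ha : Q.natDegree ≤ a) (hb : Q.natDegree ≤ b)
    {S : Set (K[X] × K[X])} (hS : Per Q S) :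
    |((gg a b {p | p ∈ S ∧ h ∣ p.1 * p.2 - 1}).ncard : ℝ) - den Q S *
      ((Fintype.card K : ℝ) ^ (a + b) / (Fintype.card K : ℝ) ^ h.natDegree *
          ∏ᶠ P ∈ PA h, (1 - 1 / (Fintype.card K : ℝ) ^ P.natDegree))| ≤
      (Fintype.card K : ℝ) ^ (2 * Q.natDegree) * (M ^ (PA h).ncard *
        ((Fintype.card K : ℝ) ^ ((h.natDegree : ℝ) / 2) +
          (Fintype.card K : ℝ) ^ ((a - b) + (b - a)))) := by
  have hq := qpos (K := K)
  rw [gg_card hQ a b ha hb (fun p => h ∣ p.1 * p.2 - 1) hS]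
  set L₁ := a - Q.natDegree with hL₁
  set L₂ := b - Q.natDegree with hL₂
  set B := (bx_finite Q.natDegree S).toFinset with hB
  have hBc : (B.card : ℝ) = den Q S * (Fintype.card K : ℝ) ^ (2 * Q.natDegree) := by
    unfold den
    rw [div_mul_cancel₀ _ (by positivity), Set.ncard_eq_toFinset_card _ (bx_finite Q.natDegree S)]
  have hmain : den Q S * ((Fintype.card K : ℝ) ^ (a + b) / (Fintype.card K : ℝ) ^ h.natDegree *
          ∏ᶠ P ∈ PA h, (1 - 1 / (Fintype.card K : ℝ) ^ P.natDegree)) =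
      ∑ _c ∈ B, ((Fintype.card K : ℝ) ^ (L₁ + L₂) / (Fintype.card K : ℝ) ^ h.natDegree *
          ∏ᶠ P ∈ PA h, (1 - 1 / (Fintype.card K : ℝ) ^ P.natDegree)) := by
    rw [Finset.sum_const, nsmul_eq_mul, hBc]
    have e : a + b = 2 * Q.natDegree + (L₁ + L₂) := by omega
    rw [e, pow_add]
    ring
  rw [hmain, Nat.cast_sum, ← Finset.sum_sub_distrib]
  refine (Finset.abs_sum_le_sum_abs _ _).trans ?_
  have hterm : ∀ c ∈ B, |(({p : K[X] × K[X] | p.1.degree < (L₁ : WithBot ℕ) ∧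
      p.2.degree < (L₂ : WithBot ℕ) ∧
      h ∣ (c.1 + Q * p.1) * ((c.2 + Q * X ^ L₂) + Q * p.2) - 1}.ncard : ℝ)) -
        (Fintype.card K : ℝ) ^ (L₁ + L₂) / (Fintype.card K : ℝ) ^ h.natDegree *
          ∏ᶠ P ∈ PA h, (1 - 1 / (Fintype.card K : ℝ) ^ P.natDegree)| ≤
      M ^ (PA h).ncard * ((Fintype.card K : ℝ) ^ ((h.natDegree : ℝ) / 2) +
          (Fintype.card K : ℝ) ^ ((a - b) + (b - a))) := by
    intro c _
    have h1 := hM h Q c.1 (c.2 + Q * X ^ L₂) L₁ L₂ hh hsq hc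
    have e : (L₁ - L₂) + (L₂ - L₁) = (a - b) + (b - a) := by omega
    rw [e] at h1
    exact h1
  refine (Finset.sum_le_sum hterm).trans ?_
  rw [Finset.sum_const, nsmul_eq_mul]
  refine mul_le_mul_of_nonneg_right ?_ (by positivity)
  have h2 := bx_card_le (K := K) Q.natDegree S
  rw [Set.ncard_eq_toFinset_card _ (bx_finite Q.natDegree S)] at h2
  exact_mod_cast h2

end hyp

section root
variable {K : Type} [Field K] [Fintype K] [CharP K 2]

/-- the roots modulo `P` are linear -/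
lemma exists_root (o : Bool) {P : K[X]} (hP : Irreducible P) (hX : ¬ P ∣ X) :
    ∃ r : K[X], ∀ x w : K[X], P ∣ fA o x w ↔ P ∣ x - r * w := by
  have : Fact (Irreducible P) := ⟨hP⟩
  have : Module.Finite K (AdjoinRoot P) := (AdjoinRoot.powerBasis hP.ne_zero).finite
  have : Finite (AdjoinRoot P) := Module.finite_of_finite K
  have : CharP (AdjoinRoot P) 2 :=
    charP_of_injective_algebraMap (algebraMap K (AdjoinRoot P)).injective 2
  have hchar : ringChar (AdjoinRoot P) = 2 := ringChar.eq_iff.2 inferInstance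
  have h2 : (2 : AdjoinRoot P) = 0 := CharTwo.two_eq_zero
  have hX' : AdjoinRoot.mk P X ≠ 0 := fun h => hX (AdjoinRoot.mk_eq_zero.1 h)
  cases o
  · obtain ⟨s, hs⟩ := FiniteField.isSquare_of_char_two hchar (AdjoinRoot.mk P X)⁻¹
    obtain ⟨r, hr⟩ := AdjoinRoot.mk_surjective s
    refine ⟨r, fun x w => ?_⟩
    rw [← AdjoinRoot.mk_eq_zero, ← AdjoinRoot.mk_eq_zero]
    have e : AdjoinRoot.mk P (fA false x w) =
        AdjoinRoot.mk P X * (AdjoinRoot.mk P (x - r * w)) ^ 2 := by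
      unfold fA
      rw [if_neg (by decide)]
      simp only [map_add, map_sub, map_mul, map_pow]
      rw [hr]
      have h3 : AdjoinRoot.mk P X * (s * s) = 1 := by
        rw [← hs, mul_inv_cancel₀ hX']
      linear_combination (-(AdjoinRoot.mk P w) ^ 2) * h3 +
        (AdjoinRoot.mk P X * s * AdjoinRoot.mk P x * AdjoinRoot.mk P w) * h2
    rw [e, mul_eq_zero, or_iff_right hX', pow_eq_zero_iff two_ne_zero]
  · obtain ⟨s, hs⟩ := FiniteField.isSquare_of_char_two hchar (AdjoinRoot.mk P X)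
    obtain ⟨r, hr⟩ := AdjoinRoot.mk_surjective s
    refine ⟨r, fun x w => ?_⟩
    rw [← AdjoinRoot.mk_eq_zero, ← AdjoinRoot.mk_eq_zero]
    have e : AdjoinRoot.mk P (fA true x w) = (AdjoinRoot.mk P (x - r * w)) ^ 2 := by
      unfold fA
      rw [if_pos rfl]
      simp only [map_add, map_sub, map_mul, map_pow]
      rw [hr, hs]
      linear_combination (s * AdjoinRoot.mk P x * AdjoinRoot.mk P w) * h2
    rw [e, pow_eq_zero_iff two_ne_zero]

end root

section loc
variable {K : Type} [Field K] [Fintype K]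

omit [Fintype K] in
lemma cop_pow {P t : K[X]} (hP : Irreducible P) (k : ℕ) (h : ¬ P ∣ t) : IsCoprime t (P ^ k) :=
  (((hP.coprime_iff_not_dvd).2 h).pow_left).symm

lemma card_not_dvd {P : K[X]} (hP : P.Monic) (k : ℕ) :
    {t : K[X] | t.degree < (((k + 1) * P.natDegree : ℕ) : WithBot ℕ) ∧ ¬ P ∣ t}.ncard +
      Fintype.card K ^ (k * P.natDegree) = Fintype.card K ^ ((k + 1) * P.natDegree) := by
  have h1 : {t : K[X] | t.degree < (((k + 1) * P.natDegree : ℕ) : WithBot ℕ) ∧ P ∣ t}.ncard =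
      Fintype.card K ^ (k * P.natDegree) := by
    rw [← (card_degLT (K := K) (k * P.natDegree)).2]
    symm
    refine Set.ncard_congr (fun t _ => P * t) ?_ ?_ ?_
    · intro t ht
      refine ⟨?_, dvd_mul_right _ _⟩
      have ht' : t.degree < ((k * P.natDegree : ℕ) : WithBot ℕ) := ht
      by_cases h0 : t = 0
      · rw [h0, mul_zero, degree_zero]
        exact WithBot.bot_lt_coe _
      · rw [degree_mul, degree_eq_natDegree hP.ne_zero, degree_eq_natDegree h0]
        rw [degree_eq_natDegree h0] at ht'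
        have h4 : t.natDegree < k * P.natDegree := by exact_mod_cast ht'
        have h5 : P.natDegree + t.natDegree < (k + 1) * P.natDegree := by
          rw [add_mul, one_mul]
          omega
        exact_mod_cast h5
    · intro t t' _ _ h
      exact mul_left_cancel₀ hP.ne_zero h
    · rintro t ⟨ht, c, rfl⟩
      refine ⟨c, ?_, rfl⟩
      show c.degree < ((k * P.natDegree : ℕ) : WithBot ℕ)
      by_cases h0 : c = 0
      · rw [h0, degree_zero]
        exact WithBot.bot_lt_coe _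
      · rw [degree_mul, degree_eq_natDegree hP.ne_zero, degree_eq_natDegree h0] at ht
        have h4 : P.natDegree + c.natDegree < (k + 1) * P.natDegree := by exact_mod_cast ht
        rw [degree_eq_natDegree h0]
        rw [add_mul, one_mul] at h4
        exact_mod_cast (by omega : c.natDegree < k * P.natDegree)
  have h2 : {t : K[X] | t.degree < (((k + 1) * P.natDegree : ℕ) : WithBot ℕ) ∧ ¬ P ∣ t} ∪
      {t : K[X] | t.degree < (((k + 1) * P.natDegree : ℕ) : WithBot ℕ) ∧ P ∣ t} =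
      {t : K[X] | t.degree < (((k + 1) * P.natDegree : ℕ) : WithBot ℕ)} := by
    ext t
    simp only [Set.mem_union, Set.mem_ofPred_eq]
    tauto
  have h3 : Disjoint {t : K[X] | t.degree < (((k + 1) * P.natDegree : ℕ) : WithBot ℕ) ∧ ¬ P ∣ t}
      {t : K[X] | t.degree < (((k + 1) * P.natDegree : ℕ) : WithBot ℕ) ∧ P ∣ t} := by
    rw [Set.disjoint_left]
    rintro t ⟨-, h4⟩ ⟨-, h5⟩
    exact h4 h5
  have hf1 : {t : K[X] | t.degree < (((k + 1) * P.natDegree : ℕ) : WithBot ℕ) ∧ ¬ P ∣ t}.Finite :=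
    (win_fin ((k + 1) * P.natDegree)).subset fun t ht => ht.1
  have hf2 : {t : K[X] | t.degree < (((k + 1) * P.natDegree : ℕ) : WithBot ℕ) ∧ P ∣ t}.Finite :=
    (win_fin ((k + 1) * P.natDegree)).subset fun t ht => ht.1
  have h6 := Set.ncard_union_eq h3 hf1 hf2
  rw [h2, h1, (card_degLT _).2] at h6
  exact h6.symm

omit [Fintype K] in
/-- the pairs of inverse elements modulo a power of `P` -/
lemma card_units {P : K[X]} (hP : P.Monic) (hI : Irreducible P) (k : ℕ) :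
    (bx (P ^ (k + 1)).natDegree {p : K[X] × K[X] | P ^ (k + 1) ∣ p.1 * p.2 - 1}).ncard =
    {t : K[X] | t.degree < (((k + 1) * P.natDegree : ℕ) : WithBot ℕ) ∧ ¬ P ∣ t}.ncard := by
  have hd : (P ^ (k + 1)).natDegree = (k + 1) * P.natDegree := hP.natDegree_pow _
  have hPk : (P ^ (k + 1)).Monic := hP.pow _
  have hdv : P ∣ P ^ (k + 1) := dvd_pow_self P (Nat.succ_ne_zero k)
  have hnd : ∀ t w : K[X], P ^ (k + 1) ∣ t * w - 1 → ¬ P ∣ t := by
    intro t w h h1
    have h2 := dvd_trans hdv h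
    have h3 := dvd_sub (Dvd.dvd.mul_right h1 w) h2
    rw [sub_sub_cancel] at h3
    exact hI.not_isUnit (isUnit_of_dvd_one h3)
  refine Set.ncard_congr (fun p _ => p.1) ?_ ?_ ?_
  · rintro ⟨t, w⟩ ⟨h1, -, h3⟩
    rw [hd] at h1
    exact ⟨h1, hnd t w h3⟩
  · rintro ⟨t, w⟩ ⟨t', w'⟩ ⟨-, h2, h3⟩ ⟨-, h2', h3'⟩ h
    simp only at h
    subst h
    refine Prod.ext rfl ?_
    have h3a : P ^ (k + 1) ∣ t * w - 1 := h3
    have h3b : P ^ (k + 1) ∣ t * w' - 1 := h3'
    have h4 := dvd_sub h3a h3b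
    have e : t * w - 1 - (t * w' - 1) = t * (w - w') := by ring
    rw [e] at h4
    exact eq_of_dvd hPk h2 h2' ((cop_pow hI (k + 1) (hnd t w h3a)).symm.dvd_of_dvd_mul_left h4)
  · rintro t ⟨ht, h1⟩
    obtain ⟨u, v, huv⟩ := cop_pow hI (k + 1) h1
    refine ⟨(t, u %ₘ P ^ (k + 1)), ⟨?_, deg_mod hPk u, ?_⟩, rfl⟩
    · show t.degree < _
      rw [hd]
      exact ht
    · show P ^ (k + 1) ∣ t * (u %ₘ P ^ (k + 1)) - 1
      have h2 := dvd_sub_mod (Q := P ^ (k + 1)) u
      obtain ⟨c, hc⟩ := h2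
      refine ⟨-v - t * c, ?_⟩
      linear_combination huv - t * hc

lemma den_units {P : K[X]} (hP : P.Monic) (hI : Irreducible P) (k : ℕ) :
    den (P ^ (k + 1)) {p : K[X] × K[X] | P ^ (k + 1) ∣ p.1 * p.2 - 1} =
      (1 - 1 / (Fintype.card K : ℝ) ^ P.natDegree) *
        (1 / ((Fintype.card K : ℝ) ^ P.natDegree) ^ (k + 1)) := by
  have hq := qpos (K := K)
  unfold den
  rw [card_units hP hI]
  have h1 : ({t : K[X] | t.degree < (((k + 1) * P.natDegree : ℕ) : WithBot ℕ) ∧ ¬ P ∣ t}.ncard : ℝ) +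
      (Fintype.card K : ℝ) ^ (k * P.natDegree) = (Fintype.card K : ℝ) ^ ((k + 1) * P.natDegree) := by
    exact_mod_cast card_not_dvd hP k
  have h2 : ({t : K[X] | t.degree < (((k + 1) * P.natDegree : ℕ) : WithBot ℕ) ∧ ¬ P ∣ t}.ncard : ℝ) =
      (Fintype.card K : ℝ) ^ ((k + 1) * P.natDegree) - (Fintype.card K : ℝ) ^ (k * P.natDegree) := by
    linarith
  rw [h2, hP.natDegree_pow]
  set y : ℝ := (Fintype.card K : ℝ) ^ P.natDegree with hy
  have hy0 : 0 < y := by positivity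
  have e1 : (Fintype.card K : ℝ) ^ ((k + 1) * P.natDegree) = y ^ (k + 1) := by
    rw [hy, ← pow_mul, mul_comm]
  have e2 : (Fintype.card K : ℝ) ^ (k * P.natDegree) = y ^ k := by
    rw [hy, ← pow_mul, mul_comm]
  have e3 : (Fintype.card K : ℝ) ^ (2 * ((k + 1) * P.natDegree)) = (y ^ (k + 1)) ^ 2 := by
    rw [mul_comm 2, pow_mul, e1]
  rw [e1, e2, e3]
  field_simp
  ring

lemma den_shift {Q : K[X]} (hQ : Q.Monic) {S : Set (K[X] × K[X])} (hS : Per Q S) (c : K[X]) :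
    den Q {p | (p.1 - c, p.2) ∈ S} = den Q S := by
  unfold den
  congr 2
  refine Set.ncard_congr (fun p _ => ((p.1 - c) %ₘ Q, p.2)) ?_ ?_ ?_
  · rintro ⟨t, w⟩ ⟨-, h2, h3⟩
    refine ⟨deg_mod hQ _, h2, ?_⟩
    have h4 := mem_of_dvd hS (t := (t - c) %ₘ Q) (w := w) (t' := t - c) (w' := w)
      (by
        have h5 := dvd_sub_mod (Q := Q) (t - c)
        have h6 := (dvd_neg (a := Q)).2 h5
        have e : -(t - c - (t - c) %ₘ Q) = (t - c) %ₘ Q - (t - c) := by ring
        rwa [e] at h6) (by rw [sub_self]; exact dvd_zero _)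
    exact h4.2 h3
  · rintro ⟨t, w⟩ ⟨t', w'⟩ ⟨h1, -, -⟩ ⟨h1', -, -⟩ h
    simp only [Prod.mk.injEq] at h
    refine Prod.ext ?_ h.2
    have h2 := (mod_eq_iff hQ).1 h.1
    have e : t - c - (t' - c) = t - t' := by ring
    rw [e] at h2
    exact eq_of_dvd hQ h1 h1' h2
  · rintro ⟨t, w⟩ ⟨h1, h2, h3⟩
    have h1' : t.degree < (Q.natDegree : WithBot ℕ) := h1
    have h5 := dvd_sub_mod (Q := Q) (t + c)
    refine ⟨((t + c) %ₘ Q, w), ⟨deg_mod hQ _, h2, ?_⟩, ?_⟩
    · show ((t + c) %ₘ Q - c, w) ∈ S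
      refine (mem_of_dvd hS (t := (t + c) %ₘ Q - c) (w := w) (t' := t) (w' := w) ?_
        (by rw [sub_self]; exact dvd_zero _)).2 h3
      have h6 := (dvd_neg (a := Q)).2 h5
      have e : -(t + c - (t + c) %ₘ Q) = (t + c) %ₘ Q - c - t := by ring
      rwa [e] at h6
    · show (((t + c) %ₘ Q - c) %ₘ Q, w) = (t, w)
      refine Prod.ext ?_ rfl
      show ((t + c) %ₘ Q - c) %ₘ Q = t
      rw [(mod_eq_iff hQ (b := t)).2, (modByMonic_eq_self_iff hQ).2]
      · rw [degree_eq_natDegree hQ.ne_zero]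
        exact h1'
      · have h6 := (dvd_neg (a := Q)).2 h5
        have e : -(t + c - (t + c) %ₘ Q) = (t + c) %ₘ Q - c - t := by ring
        rwa [e] at h6

/-- the density for a prime in the sieve which does not divide `m` -/
lemma den_two {P : K[X]} (hP : P.Monic) (hI : Irreducible P) :
    den P {p : K[X] × K[X] | P ∣ p.1 ∨ P ∣ p.1 * p.2 - 1} =
      2 / (Fintype.card K : ℝ) ^ P.natDegree - 1 / (Fintype.card K : ℝ) ^ (2 * P.natDegree) := by
  have hq := qpos (K := K)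
  have h1 := card_units hP hI 0
  rw [zero_add, pow_one, one_mul] at h1
  have h2 := card_not_dvd hP 0
  rw [zero_add, one_mul, zero_mul, pow_zero] at h2
  have h3 : (bx P.natDegree {p : K[X] × K[X] | P ∣ p.1}).ncard = Fintype.card K ^ P.natDegree := by
    rw [← (card_degLT (K := K) P.natDegree).2]
    symm
    refine Set.ncard_congr (fun w _ => ((0 : K[X]), w)) ?_ ?_ ?_
    · intro w hw
      refine ⟨?_, hw, dvd_zero _⟩
      show (0 : K[X]).degree < _
      rw [degree_zero]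
      exact WithBot.bot_lt_coe _
    · intro w w' _ _ h
      exact congrArg Prod.snd h
    · rintro ⟨t, w⟩ ⟨ht, hw, hd⟩
      refine ⟨w, hw, ?_⟩
      have h0 : t.degree < P.degree := by
        rw [degree_eq_natDegree hP.ne_zero]
        exact ht
      have : t = 0 := eq_zero_of_dvd_of_degree_lt hd h0
      rw [this]
  have h4 : bx P.natDegree {p : K[X] × K[X] | P ∣ p.1 ∨ P ∣ p.1 * p.2 - 1} =
      bx P.natDegree {p : K[X] × K[X] | P ∣ p.1} ∪
        bx P.natDegree {p : K[X] × K[X] | P ∣ p.1 * p.2 - 1} := by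
    ext p
    unfold bx
    simp only [Set.mem_union, Set.mem_ofPred_eq]
    tauto
  have h5 : Disjoint (bx P.natDegree {p : K[X] × K[X] | P ∣ p.1})
      (bx P.natDegree {p : K[X] × K[X] | P ∣ p.1 * p.2 - 1}) := by
    rw [Set.disjoint_left]
    rintro ⟨t, w⟩ ⟨-, -, h6⟩ ⟨-, -, h7⟩
    have h6' : P ∣ t := h6
    have h7' : P ∣ t * w - 1 := h7
    have h8 := dvd_sub (Dvd.dvd.mul_right h6' w) h7'
    rw [sub_sub_cancel] at h8
    exact hI.not_isUnit (isUnit_of_dvd_one h8)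
  have h6 := Set.ncard_union_eq h5 (bx_finite _ _) (bx_finite _ _)
  rw [← h4, h3, h1] at h6
  unfold den
  rw [h6]
  have h7 : ({t : K[X] | t.degree < (P.natDegree : WithBot ℕ) ∧ ¬ P ∣ t}.ncard : ℝ) + 1 =
      (Fintype.card K : ℝ) ^ P.natDegree := by exact_mod_cast h2
  push_cast
  have h8 : ({t : K[X] | t.degree < (P.natDegree : WithBot ℕ) ∧ ¬ P ∣ t}.ncard : ℝ) =
      (Fintype.card K : ℝ) ^ P.natDegree - 1 := by linarith
  rw [h8]
  have e3 : (Fintype.card K : ℝ) ^ (2 * P.natDegree) = ((Fintype.card K : ℝ) ^ P.natDegree) ^ 2 := by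
    rw [mul_comm 2, pow_mul]
  rw [e3]
  set y : ℝ := (Fintype.card K : ℝ) ^ P.natDegree with hy
  have hy0 : 0 < y := by positivity
  field_simp
  ring

end loc

section sets
variable {K : Type} [Field K]

/-- the local condition -/
def LS (m : K[X]) (r : K[X] → K[X]) (T : Finset K[X]) (P : K[X]) : Set (K[X] × K[X]) :=
  {p | P ^ multiplicity P m ∣ p.1 * p.2 - 1 ∧ (P ∈ T → (P ∣ p.1 - r P * m ∨
    P ^ (multiplicity P m + 1) ∣ (p.1 - r P * m) * p.2 - 1))}

/-- the local modulus -/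
noncomputable def LM (m : K[X]) (T : Finset K[X]) (P : K[X]) : K[X] :=
  P ^ (multiplicity P m + if P ∈ T then 1 else 0)

lemma dvd_shift {D Q : K[X]} (h : D ∣ Q) (t w u v : K[X]) :
    D ∣ (t + Q * u) * (w + Q * v) - 1 ↔ D ∣ t * w - 1 := by
  have e : (t + Q * u) * (w + Q * v) - 1 = Q * (u * w + t * v + Q * u * v) + (t * w - 1) := by ring
  rw [e]
  exact dvd_add_right (Dvd.dvd.mul_right h _)

lemma per_LS (m : K[X]) (r : K[X] → K[X]) (T : Finset K[X]) (P : K[X]) :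
    Per (LM m T P) (LS m r T P) := by
  intro t w u v
  have h1 : P ^ multiplicity P m ∣ LM m T P := pow_dvd_pow P (Nat.le_add_right _ _)
  refine and_congr (dvd_shift h1 t w u v) ?_
  refine imp_congr_right fun hPT => ?_
  have h2 : LM m T P = P ^ (multiplicity P m + 1) := by
    unfold LM
    rw [if_pos hPT]
  have h3 : P ∣ LM m T P := by
    rw [h2]
    exact dvd_pow_self P (Nat.succ_ne_zero _)
  refine or_congr ?_ ?_
  · show P ∣ (t + LM m T P * u) - r P * m ↔ P ∣ t - r P * m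
    have e : (t + LM m T P * u) - r P * m = LM m T P * u + (t - r P * m) := by ring
    rw [e]
    exact dvd_add_right (Dvd.dvd.mul_right h3 _)
  · show P ^ (multiplicity P m + 1) ∣ ((t + LM m T P * u) - r P * m) * (w + LM m T P * v) - 1 ↔
      P ^ (multiplicity P m + 1) ∣ (t - r P * m) * w - 1
    have e : (t + LM m T P * u) - r P * m = (t - r P * m) + LM m T P * u := by ring
    rw [e]
    exact dvd_shift (by rw [h2]) _ _ _ _

/-- the sieve condition in terms of the local sets -/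
lemma mem_iff {o : Bool} {m P r : K[X]} (hm : m ≠ 0) (hI : Irreducible P)
    (hr : ∀ x w : K[X], P ∣ fA o x w ↔ P ∣ x - r * w) {t w : K[X]} (h : m ∣ t * w - 1) :
    P ∣ fAB o t m w ↔ (P ∣ t - r * m ∨ P ^ (multiplicity P m + 1) ∣ (t - r * m) * w - 1) := by
  obtain ⟨x, hx⟩ := h
  have h1 : (t * w - 1) / m = x := by
    rw [hx]
    exact mul_div_cancel_left₀ x hm
  unfold fAB
  rw [h1, hI.prime.dvd_mul, hr, hr]
  refine or_congr_right ?_
  have hfin : FiniteMultiplicity P m := FiniteMultiplicity.of_prime_left hI.prime hm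
  obtain ⟨c, hc, hPc⟩ := hfin.exists_eq_pow_mul_and_not_dvd
  set v := multiplicity P m with hv
  have e : (t - r * m) * w - 1 = P ^ v * (c * (x - r * w)) := by
    have : (t - r * m) * w - 1 = m * (x - r * w) := by linear_combination hx
    rw [this]
    conv_lhs => rw [hc]
    ring
  rw [e, pow_succ]
  rw [mul_dvd_mul_iff_left (pow_ne_zero _ hI.ne_zero)]
  rw [hI.prime.dvd_mul, or_iff_right hPc]

/-- the splitting of `m` -/
lemma exists_split {m : K[X]} (hm : m.Monic) (F : Finset K[X])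
    (hF : ∀ P ∈ F, P.Monic ∧ Irreducible P) :
    ∃ h : K[X], h.Monic ∧ m = (∏ P ∈ F, P ^ multiplicity P m) * h ∧ ∀ P ∈ F, ¬ P ∣ h := by
  have h1 : (∏ P ∈ F, P ^ multiplicity P m) ∣ m := by
    refine Finset.prod_dvd_of_coprime ?_ fun P _ => pow_multiplicity_dvd P m
    intro P hP P' hP' hne
    exact (coprime_of_ne (hF P hP).1 (hF P' hP').1 (hF P hP).2 (hF P' hP').2 hne).pow
  obtain ⟨h, hh⟩ := h1
  have hmon : (∏ P ∈ F, P ^ multiplicity P m).Monic :=
    monic_prod_of_monic _ _ fun P hP => (hF P hP).1.pow _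
  refine ⟨h, ?_, hh, ?_⟩
  · rw [hh] at hm
    exact hmon.of_mul_monic_left hm
  · intro P hP hd
    have hfin : FiniteMultiplicity P m :=
      FiniteMultiplicity.of_prime_left (hF P hP).2.prime hm.ne_zero
    refine hfin.not_pow_dvd_of_multiplicity_lt (Nat.lt_succ_self _) ?_
    rw [pow_succ]
    conv_rhs => rw [hh]
    exact mul_dvd_mul (Finset.dvd_prod_of_mem (fun P => P ^ multiplicity P m) hP) hd

/-- the family with the conditions of the sieve -/
lemma fam_eq {o : Bool} {σ σ' : ℕ} {m h : K[X]} (hm : m.Monic) (F T : Finset K[X])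
    (hF : ∀ P ∈ F, P.Monic ∧ Irreducible P) (hTF : T ⊆ F) (r : K[X] → K[X])
    (hr : ∀ P ∈ T, ∀ x w : K[X], P ∣ fA o x w ↔ P ∣ x - r P * w)
    (hh : m = (∏ P ∈ F, P ^ multiplicity P m) * h) (hFh : ∀ P ∈ F, ¬ P ∣ h) :
    {p | p ∈ Fam K o σ σ' m ∧ ∀ P ∈ T, P ∣ fAB o p.1 m p.2} =
      gg (σ + o.toNat) σ' {p | p ∈ (⋂ P ∈ F, LS m r T P) ∧ h ∣ p.1 * p.2 - 1} := by
  ext ⟨t, w⟩
  constructor
  · rintro ⟨⟨h1, h2, h3, h4⟩, h5⟩
    have h4' : m ∣ t * w - 1 := h4
    refine ⟨h1, h2, h3, ?_, ?_⟩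
    · show (t, w) ∈ ⋂ P ∈ F, LS m r T P
      simp only [Set.mem_iInter]
      intro P hP
      refine ⟨dvd_trans (pow_multiplicity_dvd P m) h4', fun hPT => ?_⟩
      exact (mem_iff hm.ne_zero (hF P hP).2 (hr P hPT) h4').1 (h5 P hPT)
    · show h ∣ t * w - 1
      exact dvd_trans (Dvd.intro_left _ hh.symm) h4'
  · rintro ⟨h1, h2, h3, h4, h5⟩
    have h4' : (t, w) ∈ ⋂ P ∈ F, LS m r T P := h4
    have h5' : h ∣ t * w - 1 := h5
    simp only [Set.mem_iInter] at h4'
    have h6 : m ∣ t * w - 1 := by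
      rw [hh]
      refine IsCoprime.mul_dvd ?_ ?_ h5'
      · exact IsCoprime.prod_left fun P hP =>
          IsCoprime.pow_left (((hF P hP).2.coprime_iff_not_dvd).2 (hFh P hP))
      · refine Finset.prod_dvd_of_coprime ?_ fun P hP => (h4' P hP).1
        intro P hP P' hP' hne
        exact (coprime_of_ne (hF P hP).1 (hF P' hP').1 (hF P hP).2 (hF P' hP').2 hne).pow
    refine ⟨⟨h1, h2, h3, h6⟩, fun P hPT => ?_⟩
    exact (mem_iff hm.ne_zero (hF P (hTF hPT)).2 (hr P hPT) h6).2 ((h4' P (hTF hPT)).2 hPT)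

variable [Fintype K]

/-- the local density -/
lemma den_LS (m : K[X]) (r : K[X] → K[X]) (T : Finset K[X]) {P : K[X]}
    (hP : P.Monic) (hI : Irreducible P) :
    den (LM m T P) (LS m r T P) = 1 / ((Fintype.card K : ℝ) ^ P.natDegree) ^ multiplicity P m *
      (if P ∣ m then (1 - 1 / (Fintype.card K : ℝ) ^ P.natDegree) else 1) *
      (if P ∈ T then wm m P else 1) := by
  have hq := qpos (K := K)
  set y : ℝ := (Fintype.card K : ℝ) ^ P.natDegree with hy
  have hy0 : 0 < y := by positivity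
  by_cases hPT : P ∈ T
  · rw [if_pos hPT]
    have hLM : LM m T P = P ^ (multiplicity P m + 1) := by
      unfold LM
      rw [if_pos hPT]
    set S' : Set (K[X] × K[X]) := {p | P ^ multiplicity P m ∣ p.1 * p.2 - 1 ∧ (P ∣ p.1 ∨
      P ^ (multiplicity P m + 1) ∣ p.1 * p.2 - 1)} with hS'
    have hPS : Per (P ^ (multiplicity P m + 1)) S' := by
      intro t w u v
      refine and_congr (dvd_shift (pow_dvd_pow P (Nat.le_succ _)) t w u v) (or_congr ?_ ?_)
      · show P ∣ t + P ^ (multiplicity P m + 1) * u ↔ P ∣ t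
        have e : t + P ^ (multiplicity P m + 1) * u = P ^ (multiplicity P m + 1) * u + t := by ring
        rw [e]
        exact dvd_add_right (Dvd.dvd.mul_right (dvd_pow_self P (Nat.succ_ne_zero _)) _)
      · exact dvd_shift dvd_rfl t w u v
    have hset : LS m r T P = {p | (p.1 - r P * m, p.2) ∈ S'} := by
      ext ⟨t, w⟩
      have h1 : P ^ multiplicity P m ∣ t * w - 1 ↔
          P ^ multiplicity P m ∣ (t - r P * m) * w - 1 := by
        have e : (t - r P * m) * w - 1 = m * (-(r P * w)) + (t * w - 1) := by ring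
        rw [e]
        exact (dvd_add_right (Dvd.dvd.mul_right (pow_multiplicity_dvd P m) _)).symm
      constructor
      · rintro ⟨h2, h3⟩
        exact ⟨h1.1 h2, h3 hPT⟩
      · rintro ⟨h2, h3⟩
        exact ⟨h1.2 h2, fun _ => h3⟩
    rw [hLM, hset, den_shift (hP.pow _) hPS]
    by_cases hd : P ∣ m
    · have hv : multiplicity P m ≠ 0 := multiplicity_ne_zero.2 hd
      obtain ⟨k, hk⟩ := Nat.exists_eq_succ_of_ne_zero hv
      have hS2 : S' = {p : K[X] × K[X] | P ^ (multiplicity P m + 1) ∣ p.1 * p.2 - 1} := by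
        ext ⟨t, w⟩
        constructor
        · rintro ⟨h2, h3 | h3⟩
          · exfalso
            have h3' : P ∣ t := h3
            have h2' : P ∣ t * w - 1 := dvd_trans (dvd_pow_self P hv) h2
            have h4 := dvd_sub (Dvd.dvd.mul_right h3' w) h2'
            rw [sub_sub_cancel] at h4
            exact hI.not_isUnit (isUnit_of_dvd_one h4)
          · exact h3
        · intro h3
          exact ⟨dvd_trans (pow_dvd_pow P (Nat.le_succ _)) h3, Or.inr h3⟩
      rw [hS2, den_units hP hI, if_pos hd]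
      unfold wm
      rw [if_pos hd, ← hy]
      rw [pow_succ]
      field_simp
    · have hv : multiplicity P m = 0 := multiplicity_eq_zero.2 hd
      have hS2 : S' = {p : K[X] × K[X] | P ∣ p.1 ∨ P ∣ p.1 * p.2 - 1} := by
        rw [hS', hv]
        ext ⟨t, w⟩
        simp only [pow_zero, isUnit_one, IsUnit.dvd, zero_add, pow_one, true_and]
      rw [hS2, hv, zero_add, pow_one, den_two hP hI, if_neg hd]
      unfold wm
      rw [if_neg hd, pow_zero]
      ring
  · rw [if_neg hPT]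
    have hLM : LM m T P = P ^ multiplicity P m := by
      unfold LM
      rw [if_neg hPT, add_zero]
    have hset : LS m r T P = {p : K[X] × K[X] | P ^ multiplicity P m ∣ p.1 * p.2 - 1} := by
      ext ⟨t, w⟩
      constructor
      · rintro ⟨h2, -⟩
        exact h2
      · intro h2
        exact ⟨h2, fun h => absurd h hPT⟩
    rw [hLM, hset]
    by_cases hd : P ∣ m
    · have hv : multiplicity P m ≠ 0 := multiplicity_ne_zero.2 hd
      obtain ⟨k, hk⟩ := Nat.exists_eq_succ_of_ne_zero hv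
      rw [hk, Nat.succ_eq_add_one, den_units hP hI, if_pos hd]
      ring
    · have hv : multiplicity P m = 0 := multiplicity_eq_zero.2 hd
      rw [hv, if_neg hd, pow_zero, pow_zero]
      have : {p : K[X] × K[X] | (1 : K[X]) ∣ p.1 * p.2 - 1} = Set.univ := by
        ext p
        simp only [Set.mem_ofPred_eq, Set.mem_univ, iff_true]
        exact one_dvd _
      rw [this, den_one]
      ring

end sets

section nt
variable {K : Type} [Field K]

lemma facs {h : K[X]} (hm : h.Monic) (hs : Squarefree h) : ∃ I : Finset K[X],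
    (∀ P, P ∈ I ↔ P.Monic ∧ Irreducible P ∧ P ∣ h) ∧ ∏ P ∈ I, P = h := by
  refine ⟨(UniqueFactorizationMonoid.normalizedFactors h).toFinset, ?_, ?_⟩
  · intro P
    rw [Multiset.mem_toFinset, Polynomial.mem_normalizedFactors_iff hm.ne_zero]
    tauto
  · have hn : (UniqueFactorizationMonoid.normalizedFactors h).Nodup :=
      (UniqueFactorizationMonoid.squarefree_iff_nodup_normalizedFactors hm.ne_zero).1 hs
    have h1 := UniqueFactorizationMonoid.prod_normalizedFactors_eq hm.ne_zero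
    rw [hm.normalize_eq_self] at h1
    show (Multiset.map (fun P => P) _).prod = _
    rw [Multiset.map_id', Multiset.toFinset_val, hn.dedup, h1]

/-- a prime divisor of `m` is in `F` or divides `h` -/
lemma dvd_cases {m h P : K[X]} (F : Finset K[X]) (hF : ∀ P ∈ F, P.Monic ∧ Irreducible P)
    (hh : m = (∏ P ∈ F, P ^ multiplicity P m) * h) (hP : P.Monic) (hI : Irreducible P)
    (hd : P ∣ m) : P ∈ F ∨ P ∣ h := by
  rw [hh, hI.prime.dvd_mul] at hd
  rcases hd with hd | hd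
  · left
    obtain ⟨P', hP', hd'⟩ := (hI.prime.dvd_finsetProd_iff _).1 hd
    have h1 := hI.prime.dvd_of_dvd_pow hd'
    have h2 := eq_of_monic_of_associated hP (hF P' hP').1
      (hI.associated_of_dvd (hF P' hP').2 h1)
    rw [h2]
    exact hP'
  · exact Or.inr hd

lemma h_dvd {m m₁ m₂ h : K[X]} (hm : m = m₁ * m₂) (hhm : h.Monic)
    (F : Finset K[X]) (hF1 : ∀ P ∈ PA m₁, P ∈ F)
    (hh : m = (∏ P ∈ F, P ^ multiplicity P m) * h) (hFh : ∀ P ∈ F, ¬ P ∣ h) : h ∣ m₂ := by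
  have h1 : IsCoprime h m₁ := by
    refine isCoprime_of_irreducible_dvd (fun h0 => hhm.ne_zero h0.1) ?_
    intro z hz hzh hzm
    have hz0 := hz.ne_zero
    have hass := normalize_associated z
    refine hFh (normalize z) (hF1 _ ⟨monic_normalize hz0, ?_, hass.dvd.trans hzm⟩)
      (hass.dvd.trans hzh)
    exact (hass.irreducible_iff).2 hz
  have h2 : h ∣ m₁ * m₂ := by
    rw [← hm]
    exact Dvd.intro_left _ hh.symm
  exact h1.dvd_of_dvd_mul_left h2

lemma m2_dvd {m m₁ m₂ h : K[X]} (h₂ : m₂.Monic) (hm : m = m₁ * m₂)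
    (hc : IsCoprime m₁ m₂) (hs : Squarefree m₂)
    (F T : Finset K[X]) (hF : ∀ P ∈ F, P.Monic ∧ Irreducible P)
    (hF1 : ∀ P ∈ F, P ∈ T ∨ P ∣ m₁)
    (hh : m = (∏ P ∈ F, P ^ multiplicity P m) * h) : m₂ ∣ h * ∏ P ∈ T, P := by
  obtain ⟨I, hI, hIp⟩ := facs h₂ hs
  rw [← hIp]
  refine Finset.prod_dvd_of_coprime ?_ ?_
  · intro P hP P' hP' hne
    exact coprime_of_ne ((hI P).1 hP).1 ((hI P').1 hP').1 ((hI P).1 hP).2.1 ((hI P').1 hP').2.1 hne
  · intro P hP
    obtain ⟨hPm, hPi, hPd⟩ := (hI P).1 hP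
    have h1 : P ∣ m := by
      rw [hm]
      exact Dvd.dvd.mul_left hPd _
    rcases dvd_cases F hF hh hPm hPi h1 with h2 | h2
    · rcases hF1 P h2 with h3 | h3
      · exact Dvd.dvd.mul_left (Finset.dvd_prod_of_mem (fun P => P) h3) _
      · exfalso
        exact hPi.not_isUnit (hc.isUnit_of_dvd' h3 hPd)
    · exact Dvd.dvd.mul_right h2 _

variable [Fintype K]

lemma pz_props {z : ℕ} {P : K[X]} (h : P ∈ Pz K z) : P.Monic ∧ Irreducible P ∧ ¬ P ∣ X := by
  unfold Pz at h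
  rw [Finset.mem_erase, Pool.Agent.H694.Typ.mem_PU] at h
  obtain ⟨h1, h2, h3, -⟩ := h
  refine ⟨h2, h3, fun hd => h1 ?_⟩
  exact eq_of_monic_of_associated h2 monic_X (h3.associated_of_dvd irreducible_X hd)

/-- the number of the pairs of the family with the conditions of the sieve -/
lemma NT [CharP K 2] {M : ℝ} (hM0 : 1 ≤ M)
    (hM : ∀ (m E t₀ w₀ : K[X]) (L₁ L₂ : ℕ), m.Monic →
      Squarefree m → IsCoprime E m →
      |(({p : K[X] × K[X] | p.1.degree < (L₁ : WithBot ℕ) ∧ p.2.degree < (L₂ : WithBot ℕ) ∧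
          m ∣ (t₀ + E * p.1) * (w₀ + E * p.2) - 1}.ncard : ℝ)) -
        (Fintype.card K : ℝ) ^ (L₁ + L₂) / (Fintype.card K : ℝ) ^ m.natDegree *
          ∏ᶠ P ∈ PA m, (1 - 1 / (Fintype.card K : ℝ) ^ P.natDegree)| ≤
        M ^ (PA m).ncard * ((Fintype.card K : ℝ) ^ ((m.natDegree : ℝ) / 2) +
          (Fintype.card K : ℝ) ^ ((L₁ - L₂) + (L₂ - L₁))))
    (o : Bool) (σ σ' : ℕ) (m m₁ m₂ : K[X]) (T : Finset K[X])
    (hT : ∀ P ∈ T, P.Monic ∧ Irreducible P ∧ ¬ P ∣ X) (hm : m = m₁ * m₂) (h₁ : m₁.Monic)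
    (h₂ : m₂.Monic) (hd : m.natDegree = σ) (hc : IsCoprime m₁ m₂) (hs : Squarefree m₂) (D e : ℕ)
    (hTD : ∑ P ∈ T, P.natDegree ≤ D) (he : m₁.natDegree ≤ e) (ha : e + 2 * D ≤ σ + o.toNat)
    (hb : e + 2 * D ≤ σ') :
    ∃ h : K[X], h ≠ 0 ∧ h.natDegree ≤ σ ∧
      |({p : K[X] × K[X] | p ∈ Fam K o σ σ' m ∧ ∀ P ∈ T, P ∣ fAB o p.1 m p.2}.ncard : ℝ) -
        (Fintype.card K : ℝ) ^ (σ' + o.toNat) *
          (∏ᶠ P ∈ PA m, (1 - 1 / (Fintype.card K : ℝ) ^ P.natDegree)) * ∏ P ∈ T, wm m P| ≤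
      (Fintype.card K : ℝ) ^ (2 * (e + 2 * D)) * (M ^ (PA h).ncard *
        ((Fintype.card K : ℝ) ^ ((σ : ℝ) / 2) +
          (Fintype.card K : ℝ) ^ ((σ + o.toNat - σ') + (σ' - (σ + o.toNat))))) := by
  have hq := qpos (K := K)
  have hq1 : (1 : ℝ) ≤ (Fintype.card K : ℝ) := by
    exact_mod_cast Fintype.card_pos (α := K)
  have hmm : m.Monic := by rw [hm]; exact h₁.mul h₂
  have hroot : ∀ P : K[X], ∃ r : K[X], P ∈ T → ∀ x w : K[X], P ∣ fA o x w ↔ P ∣ x - r * w := by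
    intro P
    by_cases hP : P ∈ T
    · obtain ⟨r, hr⟩ := exists_root o (hT P hP).2.1 (hT P hP).2.2
      exact ⟨r, fun _ => hr⟩
    · exact ⟨0, fun h => absurd h hP⟩
  choose r hr using hroot
  have hfin1 := finite_PA (K := K) h₁.ne_zero
  set F : Finset K[X] := T ∪ hfin1.toFinset with hFdef
  have hTF : T ⊆ F := Finset.subset_union_left
  have hF : ∀ P ∈ F, P.Monic ∧ Irreducible P := by
    intro P hP
    rw [hFdef, Finset.mem_union, Set.Finite.mem_toFinset] at hP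
    rcases hP with hP | hP
    · exact ⟨(hT P hP).1, (hT P hP).2.1⟩
    · exact ⟨hP.1, hP.2.1⟩
  have hF1 : ∀ P ∈ F, P ∈ T ∨ P ∣ m₁ := by
    intro P hP
    rw [hFdef, Finset.mem_union, Set.Finite.mem_toFinset] at hP
    exact hP.imp_right fun h => h.2.2
  have hF2 : ∀ P ∈ PA m₁, P ∈ F := by
    intro P hP
    rw [hFdef, Finset.mem_union, Set.Finite.mem_toFinset]
    exact Or.inr hP
  obtain ⟨h, hhm, hh, hFh⟩ := exists_split hmm F hF
  have hPi : (∏ P ∈ F, P ^ multiplicity P m).Monic :=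
    monic_prod_of_monic _ _ fun P hP => (hF P hP).1.pow _
  have hdeg1 : (∏ P ∈ F, P ^ multiplicity P m).natDegree + h.natDegree = σ := by
    rw [← hd]
    conv_rhs => rw [hh]
    rw [hPi.natDegree_mul hhm]
  have hdeg2 : (∏ P ∈ F, P ^ multiplicity P m).natDegree =
      ∑ P ∈ F, multiplicity P m * P.natDegree := by
    rw [natDegree_prod_of_monic _ _ fun P hP => (hF P hP).1.pow _]
    exact Finset.sum_congr rfl fun P hP => (hF P hP).1.natDegree_pow _
  have hsq : Squarefree h := hs.squarefree_of_dvd (h_dvd hm hhm F hF2 hh hFh)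
  have hTm : (∏ P ∈ T, P).Monic := monic_prod_of_monic _ _ fun P hP => (hT P hP).1
  have hdeg3 : m₂.natDegree ≤ h.natDegree + ∑ P ∈ T, P.natDegree := by
    have h3 := natDegree_le_of_dvd (m2_dvd h₂ hm hc hs F T hF hF1 hh) (hhm.mul hTm).ne_zero
    rw [hhm.natDegree_mul hTm, natDegree_prod_of_monic _ _ fun P hP => (hT P hP).1] at h3
    exact h3
  have hdeg4 : m₁.natDegree + m₂.natDegree = σ := by
    rw [← hd, hm, h₁.natDegree_mul h₂]
  -- the modulus
  set Q : K[X] := ∏ P ∈ F, LM m T P with hQdef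
  have hLMm : ∀ P ∈ F, (LM m T P).Monic := fun P hP => (hF P hP).1.pow _
  have hQ : Q.Monic := monic_prod_of_monic _ _ hLMm
  have hQd : Q.natDegree ≤ e + 2 * D := by
    have h4 : Q.natDegree = ∑ P ∈ F, multiplicity P m * P.natDegree + ∑ P ∈ T, P.natDegree := by
      rw [hQdef, natDegree_prod_of_monic _ _ hLMm]
      have h5 : ∀ P ∈ F, (LM m T P).natDegree = multiplicity P m * P.natDegree +
          (if P ∈ T then P.natDegree else 0) := by
        intro P hP
        unfold LM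
        rw [(hF P hP).1.natDegree_pow, add_mul]
        split_ifs
        · rw [one_mul]
        · rw [zero_mul]
      rw [Finset.sum_congr rfl h5, Finset.sum_add_distrib, Finset.sum_ite_mem,
        Finset.inter_eq_right.2 hTF]
    rw [h4, ← hdeg2]
    omega
  have hQc : IsCoprime Q h := IsCoprime.prod_left fun P hP =>
    IsCoprime.pow_left (((hF P hP).2.coprime_iff_not_dvd).2 (hFh P hP))
  have hper : Per Q (⋂ P ∈ F, LS m r T P) := by
    intro t w u v
    simp only [Set.mem_iInter]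
    refine forall₂_congr fun P' h' => ?_
    exact (per_LS m r T P').mono (Finset.dvd_prod_of_mem (LM m T) h') t w u v
  have hcount := hyp_count hM0 hM hQ hhm hsq hQc (σ + o.toNat) σ' (hQd.trans ha) (hQd.trans hb)
    hper
  rw [← fam_eq hmm F T hF hTF r (fun P hP => hr P hP) hh hFh] at hcount
  -- the density
  have hden : den Q (⋂ P ∈ F, LS m r T P) =
      1 / (Fintype.card K : ℝ) ^ (∏ P ∈ F, P ^ multiplicity P m).natDegree *
      (∏ P ∈ F.filter (fun P => P ∣ m), (1 - 1 / (Fintype.card K : ℝ) ^ P.natDegree)) *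
      ∏ P ∈ T, wm m P := by
    rw [hQdef, den_prod F (LM m T) (LS m r T) hLMm ?_ (fun P _ => per_LS m r T P)]
    · rw [Finset.prod_congr rfl fun P hP => den_LS m r T (hF P hP).1 (hF P hP).2]
      rw [Finset.prod_mul_distrib, Finset.prod_mul_distrib, Finset.prod_ite_mem,
        Finset.inter_eq_right.2 hTF, Finset.prod_filter]
      congr 2
      rw [Finset.prod_div_distrib, Finset.prod_const_one, hdeg2, ← Finset.prod_pow_eq_pow_sum]
      congr 1
      refine Finset.prod_congr rfl fun P _ => ?_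
      rw [← pow_mul, mul_comm]
    · intro P hP P' hP' hne
      exact (coprime_of_ne (hF P hP).1 (hF P' hP').1 (hF P hP).2 (hF P' hP').2 hne).pow
  have hPA : ∏ᶠ P ∈ PA m, (1 - 1 / (Fintype.card K : ℝ) ^ P.natDegree) =
      (∏ P ∈ F.filter (fun P => P ∣ m), (1 - 1 / (Fintype.card K : ℝ) ^ P.natDegree)) *
      ∏ᶠ P ∈ PA h, (1 - 1 / (Fintype.card K : ℝ) ^ P.natDegree) := by
    have h5 : PA m = ((F.filter (fun P => P ∣ m) : Finset K[X]) : Set K[X]) ∪ PA h := by
      ext P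
      rw [Set.mem_union, Finset.mem_coe, Finset.mem_filter]
      constructor
      · rintro ⟨h6, h7, h8⟩
        rcases dvd_cases F hF hh h6 h7 h8 with h9 | h9
        · exact Or.inl ⟨h9, h8⟩
        · exact Or.inr ⟨h6, h7, h9⟩
      · rintro (⟨h6, h7⟩ | ⟨h6, h7, h8⟩)
        · exact ⟨(hF P h6).1, (hF P h6).2, h7⟩
        · exact ⟨h6, h7, h8.trans (Dvd.intro_left _ hh.symm)⟩
    have h6 : Disjoint ((F.filter (fun P => P ∣ m) : Finset K[X]) : Set K[X]) (PA h) := by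
      rw [Set.disjoint_left]
      intro P hP hP'
      rw [Finset.mem_coe, Finset.mem_filter] at hP
      exact hFh P hP.1 hP'.2.2
    rw [h5, finprod_mem_union h6 (Finset.finite_toSet _) (finite_PA hhm.ne_zero),
      finprod_mem_coe_finset]
  have hmain : den Q (⋂ P ∈ F, LS m r T P) *
      ((Fintype.card K : ℝ) ^ (σ + o.toNat + σ') / (Fintype.card K : ℝ) ^ h.natDegree *
          ∏ᶠ P ∈ PA h, (1 - 1 / (Fintype.card K : ℝ) ^ P.natDegree)) =
      (Fintype.card K : ℝ) ^ (σ' + o.toNat) *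
          (∏ᶠ P ∈ PA m, (1 - 1 / (Fintype.card K : ℝ) ^ P.natDegree)) * ∏ P ∈ T, wm m P := by
    rw [hden, hPA]
    have e1 : (Fintype.card K : ℝ) ^ (σ + o.toNat + σ') =
        (Fintype.card K : ℝ) ^ (∏ P ∈ F, P ^ multiplicity P m).natDegree *
          (Fintype.card K : ℝ) ^ h.natDegree * (Fintype.card K : ℝ) ^ (σ' + o.toNat) := by
      rw [← pow_add, ← pow_add, hdeg1]
      congr 1
      omega
    rw [e1]
    field_simp
  rw [hmain] at hcount
  refine ⟨h, hhm.ne_zero, by omega, hcount.trans ?_⟩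
  have hM1 : 0 ≤ M ^ (PA h).ncard := by positivity
  have e2 : (h.natDegree : ℝ) ≤ σ := by
    exact_mod_cast (by omega : h.natDegree ≤ σ)
  gcongr

end nt

section omega
variable {K : Type} [Field K]

lemma PA_large (h : K[X]) (hh : h ≠ 0) (D : ℕ) (F : Finset K[X])
    (hF : ∀ P ∈ F, P ∈ PA h ∧ D < P.natDegree) : F.card * (D + 1) ≤ h.natDegree := by
  have h1 : ∏ P ∈ F, P ∣ h := by
    apply Finset.prod_dvd_of_coprime
    · intro P hP P' hP' hne
      rw [Finset.mem_coe] at hP hP'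
      exact coprime_of_ne (hF P hP).1.1 (hF P' hP').1.1 (hF P hP).1.2.1 (hF P' hP').1.2.1 hne
    · intro P hP
      exact (hF P hP).1.2.2
  have h2 := natDegree_le_of_dvd h1 hh
  rw [natDegree_prod_of_monic _ _ (fun P hP => (hF P hP).1.1)] at h2
  refine le_trans ?_ h2
  rw [← smul_eq_mul, ← Finset.sum_const]
  exact Finset.sum_le_sum (fun P hP => (hF P hP).2)

variable [Fintype K]

lemma PA_ncard (h : K[X]) (hh : h ≠ 0) (D : ℕ) :
    (PA h).ncard ≤ Fintype.card K ^ (D + 1) + h.natDegree / (D + 1) := by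
  have hfin := finite_PA (K := K) hh
  rw [Set.ncard_eq_toFinset_card _ hfin,
    ← Finset.card_filter_add_card_filter_not (s := hfin.toFinset) (fun P => P.natDegree < D + 1)]
  apply add_le_add
  · have h1 : ((hfin.toFinset.filter (fun P => P.natDegree < D + 1) : Finset K[X]) : Set K[X]) ⊆
        {u : K[X] | u.degree < ((D + 1 : ℕ) : WithBot ℕ)} := by
      intro P hP
      rw [Finset.mem_coe, Finset.mem_filter, Set.Finite.mem_toFinset] at hP
      rw [Set.mem_ofPred_eq, degree_eq_natDegree hP.1.1.ne_zero]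
      exact_mod_cast hP.2
    have h2 := Set.ncard_le_ncard h1 (win_fin (D + 1))
    rw [Set.ncard_coe_finset, (card_degLT (D + 1)).2] at h2
    exact h2
  · rw [Nat.le_div_iff_mul_le (Nat.succ_pos D)]
    apply PA_large h hh
    intro P hP
    rw [Finset.mem_filter, Set.Finite.mem_toFinset] at hP
    exact ⟨hP.1, by omega⟩

lemma omega_bound (K : Type) [Field K] [Fintype K] (M : ℝ) (hM : 1 ≤ M) (η : ℝ) (hη : 1 < η) :
    ∃ A : ℝ, 1 ≤ A ∧ ∀ h : K[X], h ≠ 0 → ∀ d, h.natDegree ≤ d → M ^ (PA h).ncard ≤ A * η ^ d := by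
  obtain ⟨D, hD⟩ := pow_unbounded_of_one_lt M hη
  refine ⟨M ^ (Fintype.card K ^ (D + 1)), one_le_pow₀ hM, fun h hh d hd => ?_⟩
  have h1 : M ≤ η ^ (D + 1) := hD.le.trans (pow_le_pow_right₀ hη.le (Nat.le_succ D))
  calc M ^ (PA h).ncard ≤ M ^ (Fintype.card K ^ (D + 1) + h.natDegree / (D + 1)) :=
        pow_le_pow_right₀ hM (PA_ncard h hh D)
    _ = M ^ (Fintype.card K ^ (D + 1)) * M ^ (h.natDegree / (D + 1)) := pow_add _ _ _
    _ ≤ M ^ (Fintype.card K ^ (D + 1)) * η ^ d := by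
        apply mul_le_mul_of_nonneg_left _ (by positivity)
        calc M ^ (h.natDegree / (D + 1)) ≤ (η ^ (D + 1)) ^ (h.natDegree / (D + 1)) :=
              pow_le_pow_left₀ (by linarith) h1 _
          _ = η ^ ((D + 1) * (h.natDegree / (D + 1))) := by rw [pow_mul]
          _ ≤ η ^ d := pow_le_pow_right₀ hη.le ((Nat.mul_div_le _ _).trans hd)

/-- the number of the sets of primes of bounded total degree -/
lemma card_sets (S : Finset K[X]) (hS : ∀ P ∈ S, P.Monic ∧ Irreducible P) (D : ℕ) :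
    (S.powerset.filter (fun T => ∑ P ∈ T, P.natDegree ≤ D)).card ≤ Fintype.card K ^ (D + 1) := by
  rw [← (card_degLT (K := K) (D + 1)).2, ← Set.ncard_coe_finset]
  refine Set.ncard_le_ncard_of_injOn (fun T => ∏ P ∈ T, P) ?_ ?_ (win_fin (D + 1))
  · intro T hT
    rw [Finset.mem_coe, Finset.mem_filter, Finset.mem_powerset] at hT
    have hm : (∏ P ∈ T, P).Monic := monic_prod_of_monic _ _ fun P hP => (hS P (hT.1 hP)).1
    rw [Set.mem_ofPred_eq, degree_eq_natDegree hm.ne_zero,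
      natDegree_prod_of_monic _ _ fun P hP => (hS P (hT.1 hP)).1]
    exact_mod_cast Nat.lt_succ_of_le hT.2
  · intro T hT T' hT' h
    rw [Finset.mem_coe, Finset.mem_filter, Finset.mem_powerset] at hT hT'
    have key : ∀ T₁ T₂ : Finset K[X], T₁ ⊆ S → T₂ ⊆ S → ∏ P ∈ T₁, P = ∏ P ∈ T₂, P → T₁ ⊆ T₂ := by
      intro T₁ T₂ h₁ h₂ h P hP
      have h3 : P ∣ ∏ P ∈ T₂, P := by
        rw [← h]
        exact Finset.dvd_prod_of_mem (fun P => P) hP
      obtain ⟨P', hP', hd⟩ := ((hS P (h₁ hP)).2.prime.dvd_finsetProd_iff _).1 h3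
      have h4 := eq_of_monic_of_associated (hS P (h₁ hP)).1 (hS P' (h₂ hP')).1
        ((hS P (h₁ hP)).2.associated_of_dvd (hS P' (h₂ hP')).2 hd)
      rw [h4]
      exact hP'
    exact Finset.Subset.antisymm (key T T' hT.1 hT'.1 h) (key T' T hT'.1 hT.1 h.symm)

end omega

section fin
variable {K : Type} [Field K] [Fintype K]

lemma fam_finite (o : Bool) (σ σ' : ℕ) (m : K[X]) : (Fam K o σ σ' m).Finite := by
  refine ((win_fin (σ + o.toNat)).prod (win_fin (σ' + 1))).subset ?_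
  rintro p ⟨h1, h2, h3, -⟩
  refine ⟨h1, ?_⟩
  rw [Set.mem_ofPred_eq, degree_eq_natDegree h2.ne_zero, h3]
  exact_mod_cast Nat.lt_succ_self σ'

/-- interchange of the summations -/
lemma sum_swap (o : Bool) (σ σ' z : ℕ) (U : Finset K[X] → ℝ) (m : K[X]) :
    ∑ᶠ p ∈ Fam K o σ σ' m, bw z U (fAB o p.1 m p.2) = ∑ T ∈ (Pz K z).powerset, U T *
      ({p : K[X] × K[X] | p ∈ Fam K o σ σ' m ∧ ∀ P ∈ T, P ∣ fAB o p.1 m p.2}.ncard : ℝ) := by
  have hfin := fam_finite (K := K) o σ σ' m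
  rw [finsum_mem_eq_finite_toFinset_sum _ hfin]
  have h1 : ∀ f : K[X], bw z U f = ∑ T ∈ (Pz K z).powerset,
      if ∀ P ∈ T, P ∣ f then U T else 0 := by
    intro f
    unfold bw
    rw [← Finset.sum_filter]
    refine Finset.sum_congr ?_ fun _ _ => rfl
    ext T
    rw [Finset.mem_powerset, Finset.mem_filter, Finset.mem_powerset]
    constructor
    · intro h
      exact ⟨fun P hP => (Finset.mem_filter.1 (h hP)).1, fun P hP => (Finset.mem_filter.1 (h hP)).2⟩
    · rintro ⟨h2, h3⟩ P hP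
      exact Finset.mem_filter.2 ⟨h2 hP, h3 P hP⟩
  rw [Finset.sum_congr rfl fun p _ => h1 (fAB o p.1 m p.2), Finset.sum_comm]
  refine Finset.sum_congr rfl fun T _ => ?_
  rw [← Finset.sum_filter, Finset.sum_const, nsmul_eq_mul, mul_comm, ← Set.ncard_coe_finset]
  congr 3
  ext p
  simp only [Finset.coe_filter, Set.Finite.mem_toFinset, Set.mem_ofPred_eq]

/-- for the level zero `z` is bounded -/
lemma bhw_zero {z : ℕ} {C : ℝ} {U : Finset K[X] → ℝ} (hz : 1 ≤ z) (h : BHW K z 0 C U) :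
    (z : ℝ) ^ 2 ≤ C := by
  obtain ⟨-, h1, h2, -, h3⟩ := h
  have h4 := h3 1 monic_one
  have h5 : ∑ T ∈ (Pz K z).powerset, U T * ∏ P ∈ T, wm (1 : K[X]) P = 1 := by
    rw [Finset.sum_eq_single ∅]
    · rw [h1, Finset.prod_empty, mul_one]
    · intro T hT hne
      by_cases hU : U T = 0
      · rw [hU, zero_mul]
      · exfalso
        obtain ⟨P, hP⟩ := Finset.nonempty_iff_ne_empty.2 hne
        have h6 := (h2 T hU).2
        rw [zero_mul] at h6
        have h7 := Finset.sum_eq_zero_iff.1 (Nat.le_zero.1 h6) P hP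
        have h8 := (pz_props ((h2 T hU).1 hP)).2.1.natDegree_pos
        omega
    · intro h6
      exact absurd (Finset.mem_powerset.2 (Finset.empty_subset _)) h6
  have h6 : PA (1 : K[X]) = ∅ := by
    rw [Set.eq_empty_iff_forall_notMem]
    rintro P ⟨-, hI, hd⟩
    exact hI.not_isUnit (isUnit_of_dvd_one hd)
  rw [h5, h6, finprod_mem_empty, mul_one] at h4
  have hz' : (0 : ℝ) < (z : ℝ) ^ 2 := by
    have : (0 : ℝ) < z := by exact_mod_cast hz
    positivity
  rwa [le_div_iff₀ hz', one_mul] at h4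

lemma tend (q a C : ℝ) (hq : 1 < q) : ∃ σ₀ : ℕ, ∀ σ : ℕ, σ₀ ≤ σ →
    a * (C + (σ : ℝ) ^ 2) ≤ q ^ (41 / 100 * (σ : ℝ)) := by
  set r : ℝ := q ^ (-(41 / 100) : ℝ) with hr
  have hq0 : 0 < q := by linarith
  have hr0 : 0 < r := Real.rpow_pos_of_pos hq0 _
  have hr1 : r < 1 := Real.rpow_lt_one_of_one_lt_of_neg hq (by norm_num)
  have habs : |r| < 1 := by rw [abs_of_pos hr0]; exact hr1
  have t1 := (tendsto_pow_const_mul_const_pow_of_abs_lt_one 2 habs).const_mul a
  have t2 := (tendsto_pow_atTop_nhds_zero_of_lt_one hr0.le hr1).const_mul (a * C)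
  have t3 := t2.add t1
  rw [mul_zero, mul_zero, add_zero] at t3
  have h := t3.eventually (gt_mem_nhds (zero_lt_one))
  rw [Filter.eventually_atTop] at h
  obtain ⟨σ₀, hσ₀⟩ := h
  refine ⟨σ₀, fun σ hσ => ?_⟩
  have h1 := (hσ₀ σ hσ).le
  have h2 : r ^ σ * q ^ (41 / 100 * (σ : ℝ)) = 1 := by
    rw [hr, ← Real.rpow_natCast, ← Real.rpow_mul hq0.le, ← Real.rpow_add hq0]
    have : -(41 / 100) * (σ : ℝ) + 41 / 100 * (σ : ℝ) = 0 := by ring
    rw [this, Real.rpow_zero]
  have h3 : 0 < q ^ (41 / 100 * (σ : ℝ)) := Real.rpow_pos_of_pos hq0 _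
  calc a * (C + (σ : ℝ) ^ 2) = (a * C * r ^ σ + a * ((σ : ℝ) ^ 2 * r ^ σ)) *
        q ^ (41 / 100 * (σ : ℝ)) := by
        linear_combination (-(a * (C + (σ : ℝ) ^ 2))) * h2
    _ ≤ 1 * q ^ (41 / 100 * (σ : ℝ)) := mul_le_mul_of_nonneg_right h1 h3.le
    _ = _ := one_mul _

end fin

end Pool.Agent.H604.LD.Up2

namespace Pool.Agent.H604.LD

open Polynomial
open scoped Classical
open Pool.Agent.H985.KP (PA)
open Pool.Agent.H604.LD.Up2

/-- **Task UP2.** -/
theorem up2 (hh : S_hyp) : S_up2 := by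
  intro K _ _ _ A C hC
  obtain ⟨M, hM0, hM⟩ := hh K
  have hcard : 2 ≤ Fintype.card K := Fintype.one_lt_card
  have hq2 : (2 : ℝ) ≤ (Fintype.card K : ℝ) := by exact_mod_cast hcard
  have hq1 : (1 : ℝ) < (Fintype.card K : ℝ) := by linarith
  have hq0 : (0 : ℝ) < (Fintype.card K : ℝ) := by linarith
  have hη : 1 < (Fintype.card K : ℝ) ^ ((1 : ℝ) / 100) := Real.one_lt_rpow hq1 (by norm_num)
  obtain ⟨A₀, hA₀, hom⟩ := omega_bound K M hM0 _ hη
  obtain ⟨σ₀, hσ₀⟩ := tend (Fintype.card K : ℝ) (2 * A₀ * (Fintype.card K : ℝ) ^ 2) C hq1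
  refine ⟨(Fintype.card K : ℝ) * C + 1, 1 / 100, by positivity, by norm_num, σ₀, ?_⟩
  intro o σ σ' z U m m₁ m₂ hσ hz hAz hσσ' hU hm h₁ h₂ hd hc hs hdm₁
  have hD : ((A * z : ℕ) : ℝ) ≤ σ / 100 := by linarith
  have he : (m₁.natDegree : ℝ) ≤ σ / 100 := by linarith
  have hab := abs_le.1 hσσ'
  have hσ0 : (0 : ℝ) ≤ σ := Nat.cast_nonneg σ
  have hlow : 99 / 100 * (σ : ℝ) ≤ σ' := by linarith [hab.2]
  have ho : o.toNat ≤ 1 := by cases o <;> decide
  have ha : m₁.natDegree + 2 * (A * z) ≤ σ + o.toNat := by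
    have h1 : ((m₁.natDegree + 2 * (A * z) : ℕ) : ℝ) ≤ (σ : ℝ) := by
      push_cast at hD ⊢
      linarith
    have h2 : m₁.natDegree + 2 * (A * z) ≤ σ := by exact_mod_cast h1
    omega
  have hb : m₁.natDegree + 2 * (A * z) ≤ σ' := by
    have h1 : ((m₁.natDegree + 2 * (A * z) : ℕ) : ℝ) ≤ (σ' : ℝ) := by
      push_cast at hD ⊢
      linarith
    exact_mod_cast h1
  have hz0 : (0 : ℝ) < (z : ℝ) ^ 2 := by
    have : (0 : ℝ) < z := by exact_mod_cast hz
    positivity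
  -- the bound of `z`
  have hzb : (z : ℝ) ^ 2 ≤ C + (σ : ℝ) ^ 2 := by
    rcases Nat.eq_zero_or_pos A with hA | hA
    · subst hA
      have := bhw_zero hz hU
      nlinarith
    · have h1 : z ≤ A * z := Nat.le_mul_of_pos_left z hA
      have h2 : (z : ℝ) ≤ σ := by
        have h3 : (z : ℝ) ≤ ((A * z : ℕ) : ℝ) := by exact_mod_cast h1
        linarith
      have h4 : (0 : ℝ) ≤ z := Nat.cast_nonneg z
      nlinarith
  -- the error
  set q : ℝ := (Fintype.card K : ℝ) with hqdef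
  set E : ℝ := 2 * A₀ * q * q ^ (57 / 100 * (σ : ℝ)) with hE
  have hE0 : 0 ≤ E := by positivity
  set Pm : ℝ := ∏ᶠ P ∈ PA m, (1 - 1 / q ^ P.natDegree) with hPm
  have herr : ∀ T : Finset K[X], U T ≠ 0 →
      |({p : K[X] × K[X] | p ∈ Fam K o σ σ' m ∧ ∀ P ∈ T, P ∣ fAB o p.1 m p.2}.ncard : ℝ) -
        q ^ (σ' + o.toNat) * Pm * ∏ P ∈ T, wm m P| ≤ E := by
    intro T hT
    obtain ⟨hT1, hT2⟩ := hU.2.2.1 T hT
    obtain ⟨h, h0, hdeg, hcount⟩ := NT hM0 hM o σ σ' m m₁ m₂ T (fun P hP => pz_props (hT1 hP))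
      hm h₁ h₂ hd hc hs (A * z) m₁.natDegree hT2 le_rfl ha hb
    refine hcount.trans ?_
    have b1 : q ^ (2 * (m₁.natDegree + 2 * (A * z))) ≤ q ^ (6 / 100 * (σ : ℝ)) := by
      rw [← Real.rpow_natCast]
      refine Real.rpow_le_rpow_of_exponent_le hq1.le ?_
      push_cast at hD ⊢
      linarith
    have b2 : M ^ (PA h).ncard ≤ A₀ * q ^ (1 / 100 * (σ : ℝ)) := by
      have h3 := hom h h0 σ hdeg
      rw [← Real.rpow_natCast (q ^ ((1 : ℝ) / 100)), ← Real.rpow_mul hq0.le] at h3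
      exact h3
    have b3 : q ^ ((σ : ℝ) / 2) ≤ q * q ^ ((σ : ℝ) / 2) :=
      le_mul_of_one_le_left (by positivity) hq1.le
    have b4 : q ^ ((σ + o.toNat - σ') + (σ' - (σ + o.toNat))) ≤ q * q ^ ((σ : ℝ) / 2) := by
      have e1 : q * q ^ ((σ : ℝ) / 2) = q ^ (1 + (σ : ℝ) / 2) := by
        rw [Real.rpow_add hq0, Real.rpow_one]
      rw [e1, ← Real.rpow_natCast]
      refine Real.rpow_le_rpow_of_exponent_le hq1.le ?_
      have ho' : (o.toNat : ℝ) ≤ 1 := by exact_mod_cast ho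
      have ho0 : (0 : ℝ) ≤ o.toNat := Nat.cast_nonneg _
      rcases le_total σ' (σ + o.toNat) with h3 | h3
      · have h4 : (σ + o.toNat - σ') + (σ' - (σ + o.toNat)) = σ + o.toNat - σ' := by omega
        rw [h4, Nat.cast_sub h3]
        push_cast
        linarith
      · have h4 : (σ + o.toNat - σ') + (σ' - (σ + o.toNat)) = σ' - (σ + o.toNat) := by omega
        rw [h4, Nat.cast_sub h3]
        push_cast
        linarith [hab.1]
    calc q ^ (2 * (m₁.natDegree + 2 * (A * z))) * (M ^ (PA h).ncard *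
          (q ^ ((σ : ℝ) / 2) + q ^ ((σ + o.toNat - σ') + (σ' - (σ + o.toNat)))))
        ≤ q ^ (6 / 100 * (σ : ℝ)) * ((A₀ * q ^ (1 / 100 * (σ : ℝ))) *
          (q * q ^ ((σ : ℝ) / 2) + q * q ^ ((σ : ℝ) / 2))) := by
          have hM1 : 0 ≤ M ^ (PA h).ncard := by positivity
          refine mul_le_mul b1 ?_ (by positivity) (by positivity)
          exact mul_le_mul b2 (add_le_add b3 b4) (by positivity) (by positivity)
      _ = 2 * A₀ * q * (q ^ (6 / 100 * (σ : ℝ)) * q ^ (1 / 100 * (σ : ℝ)) *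
          q ^ ((σ : ℝ) / 2)) := by ring
      _ = E := by
          rw [← Real.rpow_add hq0, ← Real.rpow_add hq0, hE]
          congr 2
          ring
  -- the sum
  rw [sum_swap]
  have hterm : ∀ T ∈ (Pz K z).powerset, U T *
      ({p : K[X] × K[X] | p ∈ Fam K o σ σ' m ∧ ∀ P ∈ T, P ∣ fAB o p.1 m p.2}.ncard : ℝ) ≤
      U T * (q ^ (σ' + o.toNat) * Pm * ∏ P ∈ T, wm m P) +
        (if ∑ P ∈ T, P.natDegree ≤ A * z then E else 0) := by
    intro T _
    by_cases hT : U T = 0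
    · rw [hT, zero_mul, zero_mul, zero_add]
      split_ifs
      · exact hE0
      · exact le_rfl
    · rw [if_pos (hU.2.2.1 T hT).2]
      have h3 := herr T hT
      have h4 := hU.1 T
      set N : ℝ := ({p : K[X] × K[X] | p ∈ Fam K o σ σ' m ∧
        ∀ P ∈ T, P ∣ fAB o p.1 m p.2}.ncard : ℝ)
      set Mn : ℝ := q ^ (σ' + o.toNat) * Pm * ∏ P ∈ T, wm m P
      have h5 : U T * (N - Mn) ≤ E := by
        calc U T * (N - Mn) ≤ |U T * (N - Mn)| := le_abs_self _
          _ = |U T| * |N - Mn| := abs_mul _ _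
          _ ≤ 1 * E := mul_le_mul h4 h3 (abs_nonneg _) zero_le_one
          _ = E := one_mul E
      linarith
  refine (Finset.sum_le_sum hterm).trans ?_
  rw [Finset.sum_add_distrib]
  have hmain : ∑ T ∈ (Pz K z).powerset, U T * (q ^ (σ' + o.toNat) * Pm * ∏ P ∈ T, wm m P) ≤
      q * C * q ^ σ' / (z : ℝ) ^ 2 := by
    have h3 : ∑ T ∈ (Pz K z).powerset, U T * (q ^ (σ' + o.toNat) * Pm * ∏ P ∈ T, wm m P) =
        q ^ (σ' + o.toNat) * ((∑ T ∈ (Pz K z).powerset, U T * ∏ P ∈ T, wm m P) * Pm) := by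
      rw [Finset.sum_mul, Finset.mul_sum]
      exact Finset.sum_congr rfl fun T _ => by ring
    have hmm : m.Monic := by rw [hm]; exact h₁.mul h₂
    have h4 := hU.2.2.2.2 m hmm
    rw [h3]
    calc q ^ (σ' + o.toNat) * ((∑ T ∈ (Pz K z).powerset, U T * ∏ P ∈ T, wm m P) * Pm)
        ≤ q ^ (σ' + o.toNat) * (C / (z : ℝ) ^ 2) := mul_le_mul_of_nonneg_left h4 (by positivity)
      _ ≤ (q ^ σ' * q) * (C / (z : ℝ) ^ 2) := by
          refine mul_le_mul_of_nonneg_right ?_ (by positivity)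
          rw [← pow_succ]
          exact pow_le_pow_right₀ hq1.le (by omega)
      _ = _ := by ring
  have hrest : ∑ T ∈ (Pz K z).powerset, (if ∑ P ∈ T, P.natDegree ≤ A * z then E else 0) ≤
      q ^ σ' / (z : ℝ) ^ 2 := by
    rw [← Finset.sum_filter, Finset.sum_const, nsmul_eq_mul, le_div_iff₀ hz0]
    have h3 : ((((Pz K z).powerset.filter (fun T => ∑ P ∈ T, P.natDegree ≤ A * z)).card : ℕ) : ℝ) ≤
        q * q ^ (1 / 100 * (σ : ℝ)) := by
      have h4 := card_sets (Pz K z) (fun P hP => ⟨(pz_props hP).1, (pz_props hP).2.1⟩) (A * z)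
      have h5 : ((((Pz K z).powerset.filter (fun T => ∑ P ∈ T, P.natDegree ≤ A * z)).card : ℕ) : ℝ)
          ≤ q ^ (A * z + 1) := by
        rw [hqdef]
        exact_mod_cast h4
      refine h5.trans ?_
      rw [pow_succ, mul_comm]
      refine mul_le_mul_of_nonneg_left ?_ hq0.le
      rw [← Real.rpow_natCast]
      refine Real.rpow_le_rpow_of_exponent_le hq1.le ?_
      linarith
    have h6 := hσ₀ σ hσ
    calc ((((Pz K z).powerset.filter (fun T => ∑ P ∈ T, P.natDegree ≤ A * z)).card : ℕ) : ℝ) * E *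
          (z : ℝ) ^ 2
        ≤ (q * q ^ (1 / 100 * (σ : ℝ))) * E * (C + (σ : ℝ) ^ 2) := by
          refine mul_le_mul (mul_le_mul_of_nonneg_right h3 hE0) hzb (by positivity) (by positivity)
      _ = (2 * A₀ * q ^ 2 * (C + (σ : ℝ) ^ 2)) * (q ^ (1 / 100 * (σ : ℝ)) *
          q ^ (57 / 100 * (σ : ℝ))) := by
          rw [hE]
          ring
      _ ≤ q ^ (41 / 100 * (σ : ℝ)) * (q ^ (1 / 100 * (σ : ℝ)) * q ^ (57 / 100 * (σ : ℝ))) :=
          mul_le_mul_of_nonneg_right h6 (by positivity)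
      _ = q ^ (99 / 100 * (σ : ℝ)) := by
          rw [← Real.rpow_add hq0, ← Real.rpow_add hq0]
          congr 1
          ring
      _ ≤ q ^ (σ' : ℝ) := Real.rpow_le_rpow_of_exponent_le hq1.le hlow
      _ = q ^ σ' := Real.rpow_natCast _ _
  refine (add_le_add hmain hrest).trans (le_of_eq ?_)
  ring

end Pool.Agent.H604.LD
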