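import Mathlib
import Pool.Agent.H604.LD.Win6a

/-!
# Primes `a ^ 2 + X`, `q` even (helper604): task WIN6
-/

set_option autoImplicit false
set_option linter.unusedSectionVars false

namespace Pool.Agent.H604.LD

open Polynomial
open Pool.Agent.H985.Chow (mob MD Wl S_key S_cmp)
open Pool.Agent.H985.KP (sg PA mobg S_cnt)
open Pool.Agent.H985.FC (gl GP S_lock S_locf S_gcs S_winF S_full)
open Pool.Agent.H985.Chow.Win (facs two0 twoP finU card_P cop_der)
open Pool.Agent.H604.FC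
open Pool.Agent.H604.FC.W4

/-- **Task WIN6.** -/
theorem win6 (hgcs : S_gcs) (hlock : S_lock) (hlocf : S_locf) (hfin : S_fin) (hbadt : S_badt)
    (hcnt : S_cnt) : S_win6 := by
  obtain ⟨M, hM, hw⟩ := win4e hgcs hlock hlocf hfin hbadt hcnt 1 1
  refine ⟨M, hM, ?_⟩
  intro K _ _ _ L D T E b h' h'' Z g ε c1 c2 c3 c4 c5 c6 c7 c8 c9 c10 c11
  classical
  obtain ⟨Is, hIs, hIsp⟩ := facs (c1.mul c2) c3
  have hPA : PA (h' * h'') = ↑Is := by
    ext P
    rw [Finset.mem_coe, hIs]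
    rfl
  have hdv : ∀ {P w v : K[X]}, P ∣ v → ε P (w + v) = ε P w := by
    rintro P w v ⟨x, rfl⟩
    exact c9 P w x
  have hsq : ∀ P w, ε P w * ε P w = 1 := by
    intro P w
    rcases c8 P w with h | h <;> rw [h] <;> norm_num
  have key := hw K L D T E (fun _ => b) (fun _ => h') (fun _ => h'') (fun _ => Z) (fun _ => g)
    (fun _ => 0) 0 (fun u => ∏ P ∈ Is, ε P (Z + E * u))
    (fun _ => ⟨c1, c2, c3, c4, c5, c6, c7⟩) (fun i j hij => absurd (Subsingleton.elim i j) hij)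
    ⟨0, rfl⟩ (fun i j hij => absurd (Subsingleton.elim i j) hij) c10 (by omega) ?_ ?_
  · have e1 : ∀ u : K[X], (∏ P ∈ Is, ε P (Z + E * u)) * ∏ _i : Fin 1,
        ∏ᶠ P ∈ PA (h' * h''), GP b g P (Z + E * u) =
        ∏ᶠ P ∈ PA (h' * h''), (GP b g P (Z + E * u) * ε P (Z + E * u)) := by
      intro u
      rw [Fin.prod_univ_one, hPA, finprod_mem_coe_finset, finprod_mem_coe_finset,
        Finset.prod_mul_distrib, mul_comm]
    have e2 : ∑ᶠ u ∈ {u : K[X] | u.degree < (L : WithBot ℕ)}, ((∏ P ∈ Is, ε P (Z + E * u)) *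
        ∏ _i : Fin 1, ∏ᶠ P ∈ PA (h' * h''), GP b g P (Z + E * u)) =
        ∑ᶠ u ∈ {u : K[X] | u.degree < (L : WithBot ℕ)},
          ∏ᶠ P ∈ PA (h' * h''), (GP b g P (Z + E * u) * ε P (Z + E * u)) :=
      finsum_congr fun u => finsum_congr fun _ => e1 u
    rw [← e2]
    refine le_trans (le_of_eq ?_) (key.trans (le_of_eq ?_))
    · norm_num
    · rw [Fin.sum_univ_one]
  · intro u
    rw [Finset.abs_prod]
    refine Finset.prod_le_one (fun _ _ => abs_nonneg _) fun P _ => ?_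
    rcases c8 P (Z + E * u) with h | h <;> rw [h] <;> norm_num
  · intro t t₀ u
    have hHk : ∀ l : Fin 1 × Bool × Fin 3, Hk (fun _ => h') (fun _ => h'') (0 : Fin 1) l = h' := by
      intro l
      unfold Hk
      rw [if_neg]
      rintro ⟨-, h⟩
      exact h (Subsingleton.elim _ _)
    simp only [hHk]
    have h1 : ∀ P ∈ Is, (∏ A : Finset (Fin 1 × Bool × Fin 3),
        ε P (Z + E * (u + ∑ l ∈ A, h' * t l))) * ∏ A : Finset (Fin 1 × Bool × Fin 3),
        ε P (Z + E * (u + h'' * t₀ + ∑ l ∈ A, h' * t l)) = 1 := by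
      intro P hP
      obtain ⟨h2, h3, h4⟩ := (hIs P).1 hP
      rcases h3.prime.dvd_or_dvd h4 with h5 | h5
      · have h6 : ∀ (v : K[X]) (A : Finset (Fin 1 × Bool × Fin 3)),
            ε P (Z + E * (v + ∑ l ∈ A, h' * t l)) = ε P (Z + E * v) := by
          intro v A
          rw [mul_add, ← add_assoc]
          exact hdv (Dvd.dvd.mul_left (Finset.dvd_sum fun l _ => h5.mul_right _) _)
        simp only [h6, Finset.prod_const, Finset.card_univ, Fintype.card_finset, Fintype.card_prod,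
          Fintype.card_fin, Fintype.card_bool]
        have h7 : ∀ x : ℝ, x * x = 1 → x ^ 2 ^ (1 * (2 * 3)) = 1 := by
          intro x hx
          rw [show (2 : ℕ) ^ (1 * (2 * 3)) = 2 * 32 by norm_num, pow_mul, sq, hx, one_pow]
        rw [h7 _ (hsq _ _), h7 _ (hsq _ _), one_mul]
      · rw [← Finset.prod_mul_distrib]
        apply Finset.prod_eq_one
        intro A _
        have h6 : Z + E * (u + h'' * t₀ + ∑ l ∈ A, h' * t l) =
            Z + E * (u + ∑ l ∈ A, h' * t l) + E * (h'' * t₀) := by ring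
        rw [h6, hdv (Dvd.dvd.mul_left (h5.mul_right _) _)]
        exact hsq _ _
    show (∏ A : Finset (Fin 1 × Bool × Fin 3), ∏ P ∈ Is, ε P (Z + E * (u + ∑ l ∈ A, h' * t l))) *
      (∏ A : Finset (Fin 1 × Bool × Fin 3), ∏ P ∈ Is,
        ε P (Z + E * (u + h'' * t₀ + ∑ l ∈ A, h' * t l))) = 1
    rw [Finset.prod_comm, Finset.prod_comm (s := (Finset.univ : Finset (Finset (Fin 1 × Bool × Fin 3))))
      (t := Is) (f := fun A P => ε P (Z + E * (u + h'' * t₀ + ∑ l ∈ A, h' * t l))),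
      ← Finset.prod_mul_distrib]
    exact Finset.prod_eq_one h1

end Pool.Agent.H604.LD
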