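import Mathlib
import Pool.Agent.H604.FC.Final
import Pool.Agent.H604.LD.Win6
import Pool.Agent.H604.LD.Weyl
import Pool.Agent.H604.LD.Bhw
import Pool.Agent.H604.LD.Far1
import Pool.Agent.H604.LD.Far2
import Pool.Agent.H604.LD.Hid
import Pool.Agent.H604.LD.Hyp
import Pool.Agent.H604.LD.Up2
import Pool.Agent.H604.LD.Typc
import Pool.Agent.H604.LD.Pair
import Pool.Agent.H604.LD.Near
import Pool.Agent.H604.LD.Fin
import Pool.Agent.H524.LD.ParInf
import Pool.Agent.H955.KP.Weil

/-!
# Primes `a ^ 2 + X` over `F_q[X]`, `q` even: final assembly (helper604)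
-/

set_option autoImplicit false

namespace Pool.Agent.H604.LD

open Pool.Agent.H985.Chow (cmp s_key)
open Pool.Agent.H985.KP (cnt typ2)
open Pool.Agent.H985.FC (lock locf winF)
open Pool.Agent.H604.FC (fin_ badt)

theorem s_win6 : S_win6 :=
  win6 Pool.Agent.H914.FC.gcs lock locf (fin_ cmp) (badt cnt) cnt

theorem s_weyl : S_weyl :=
  weyl Pool.Agent.H524.LD.s_parinf cube Pool.Agent.H914.FC.gcs

theorem s_typc : S_typc := typc s_win6 (winF s_key)

theorem s_up2 : S_up2 := up2 (hyp Pool.Agent.H955.KP.weil)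

theorem s_near : S_near := near s_up2 s_typc pair typ2

/-- **Primes `a ^ 2 + X` over `F_q[X]`, `q` even.** -/
theorem s_landau : S_landau :=
  ldfin hid far1 (far2 s_weyl) s_near bhw

end Pool.Agent.H604.LD
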