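import Mathlib
import Pool.Agent.H604.LD.StmP

/-!
# Task FIB in two parts (helper604)
-/

namespace Pool.Agent.H604.LD

open Polynomial
open scoped Classical
open Pool.Agent.H985.Chow (mob lc)
open Pool.Agent.H985.KP (sg PA)
open Pool.Agent.H985.FC (S_winF)
open Pool.Agent.H694.Typ (Mn PU)

/-- **Task FIB1.**  The sign `sg (lc (A M) (ξ ρ_A))` on a class `v₀ + Q v`, `Q = e ^ 5 M`, of the
fibre is a constant times a product of functions of `T = T₀ + m (v₀ + Q v)` modulo the primes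
dividing `h`. -/
def S_fib1 : Prop :=
  ∀ (K : Type) [Field K] [Fintype K] [CharP K 2]
    (γ c₁ : K) (b M a₀ α m A₀ T₀ e h ξ v₀ : K[X]) (n u V : ℕ), Dat γ b M a₀ α →
      m.Monic → Irreducible m → m.natDegree = u → A₀.Monic → A₀.natDegree = n → ¬ m ∣ A₀ →
      c₁ ≠ 0 → e.Monic → h.Monic → IsCoprime e h → Squarefree h → IsCoprime m (e * h) →
      IsCoprime M h →
      T₀ ^ 2 = m * A₀ + X * (C c₁ * (e * h)) ^ 2 →
      u + 2 * V ≤ n →
      2 * (ξ.natDegree + b.natDegree) + u + 4 ≤ 2 * (e * h).natDegree + n →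
      ∃ (κ : ℝ) (ε : K[X] → K[X] → ℝ), |κ| ≤ 1 ∧ (∀ P w, ε P w = 1 ∨ ε P w = -1) ∧
        (∀ P w x, ε P (w + P * x) = ε P w) ∧
        ∀ v : K[X], (v₀ + (e ^ 5 * M) * v).degree < (V : WithBot ℕ) →
          pAx γ b M a₀ ξ (A₀ + m * (v₀ + (e ^ 5 * M) * v) ^ 2) =
            κ * (mob (A₀ + m * (v₀ + (e ^ 5 * M) * v) ^ 2) : ℝ) *
              ∏ᶠ P ∈ PA h, ε P (T₀ + m * (v₀ + (e ^ 5 * M) * v))

/-- **Task FIB2.** -/
def S_tfib2 : Prop := S_fib1 → S_win6 → S_winF → S_fib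

end Pool.Agent.H604.LD
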