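import Pool.Agent.H604.LD.StmP
import Pool.Agent.H604.LD.Cube

/-!
# Task WSUM: the sum over all the fibres (helper328, for helper604)
-/

set_option autoImplicit false

namespace Pool.Agent.H604.LD

open Polynomial
open scoped Classical
open Pool.Agent.H985.Chow (mob lc)
open Pool.Agent.H985.KP (sg PA)
open Pool.Agent.H694.Typ (Mn mem_Mn card_Mn Irn mem_Irn q_ge)

namespace WsumL

section dec
variable {K : Type} [Field K]

/-- the decomposition of `s` in the squarefree part and the rest -/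
lemma dec (s : K[X]) : s ≠ 0 → ∃ (c : K) (e h k : K[X]), c ≠ 0 ∧ e.Monic ∧ h.Monic ∧ k.Monic ∧
    s = C c * (e * h) ∧ IsCoprime e h ∧ Squarefree h ∧ k ^ 2 ∣ e ∧
    e.natDegree ≤ 3 * k.natDegree := by
  refine UniqueFactorizationMonoid.induction_on_coprime (P := fun s : K[X] => s ≠ 0 →
    ∃ (c : K) (e h k : K[X]), c ≠ 0 ∧ e.Monic ∧ h.Monic ∧ k.Monic ∧
    s = C c * (e * h) ∧ IsCoprime e h ∧ Squarefree h ∧ k ^ 2 ∣ e ∧
    e.natDegree ≤ 3 * k.natDegree) s (fun h => absurd rfl h) ?_ ?_ ?_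
  · intro x hx _
    obtain ⟨c, hc, rfl⟩ := Polynomial.isUnit_iff.1 hx
    refine ⟨c, 1, 1, 1, hc.ne_zero, monic_one, monic_one, monic_one, by ring, isCoprime_one_left,
      squarefree_one, by norm_num, by simp⟩
  · intro p i hp _
    have hp0 := hp.ne_zero
    have hl : p.leadingCoeff ≠ 0 := leadingCoeff_ne_zero.2 hp0
    set P := p * C (p.leadingCoeff)⁻¹ with hP
    have hPm : P.Monic := monic_mul_leadingCoeff_inv hp0
    have hpP : p = C p.leadingCoeff * P := by
      rw [hP]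
      have : C p.leadingCoeff * C (p.leadingCoeff)⁻¹ = (1 : K[X]) := by
        rw [← C_mul, mul_inv_cancel₀ hl, C_1]
      calc p = p * 1 := (mul_one p).symm
        _ = p * (C p.leadingCoeff * C (p.leadingCoeff)⁻¹) := by rw [this]
        _ = _ := by ring
    have hpow : p ^ i = C (p.leadingCoeff ^ i) * P ^ i := by
      calc p ^ i = (C p.leadingCoeff * P) ^ i := by rw [← hpP]
        _ = _ := by rw [mul_pow, C_pow]
    have hPi : Irreducible P := by
      have h1 : Associated p P := by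
        refine ⟨Units.map (C : K →+* K[X]).toMonoidHom (Units.mk0 (p.leadingCoeff)⁻¹
          (inv_ne_zero hl)), ?_⟩
        rw [hP]
        rfl
      exact h1.irreducible hp.irreducible
    rcases i with _ | _ | i
    · exact ⟨1, 1, 1, 1, one_ne_zero, monic_one, monic_one, monic_one, by simp,
        isCoprime_one_left, squarefree_one, by norm_num, by simp⟩
    · refine ⟨p.leadingCoeff ^ 1, 1, P, 1, pow_ne_zero _ hl, monic_one, hPm, monic_one, ?_,
        isCoprime_one_left, hPi.squarefree, by norm_num, by simp⟩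
      rw [zero_add] at hpow ⊢
      rw [hpow]
      ring
    · refine ⟨p.leadingCoeff ^ (i + 1 + 1), P ^ (i + 1 + 1), 1, P ^ ((i + 2) / 2),
        pow_ne_zero _ hl, hPm.pow _, monic_one, hPm.pow _, ?_, isCoprime_one_right,
        squarefree_one, ?_, ?_⟩
      · rw [hpow]
        ring
      · rw [← pow_mul]
        exact pow_dvd_pow _ (by omega)
      · rw [hPm.natDegree_pow, hPm.natDegree_pow, ← mul_assoc]
        exact Nat.mul_le_mul_right _ (by omega)
  · intro x y hxy hx hy hxy0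
    have hx0 : x ≠ 0 := left_ne_zero_of_mul hxy0
    have hy0 : y ≠ 0 := right_ne_zero_of_mul hxy0
    have hc : IsCoprime x y := hxy.isCoprime
    obtain ⟨c, e, h, k, h1, h2, h3, h4, h5, h6, h7, h8, h9⟩ := hx hx0
    obtain ⟨c', e', h', k', h1', h2', h3', h4', h5', h6', h7', h8', h9'⟩ := hy hy0
    have de : e ∣ x := ⟨C c * h, by rw [h5]; ring⟩
    have dh : h ∣ x := ⟨C c * e, by rw [h5]; ring⟩
    have de' : e' ∣ y := ⟨C c' * h', by rw [h5']; ring⟩
    have dh' : h' ∣ y := ⟨C c' * e', by rw [h5']; ring⟩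
    have hc1 : IsCoprime e h' := (hc.of_isCoprime_of_dvd_left de).of_isCoprime_of_dvd_right dh'
    have hc2 : IsCoprime e' h :=
      (hc.symm.of_isCoprime_of_dvd_left de').of_isCoprime_of_dvd_right dh
    have hc3 : IsCoprime h h' := (hc.of_isCoprime_of_dvd_left dh).of_isCoprime_of_dvd_right dh'
    refine ⟨c * c', e * e', h * h', k * k', mul_ne_zero h1 h1', h2.mul h2', h3.mul h3',
      h4.mul h4', ?_, ?_, ?_, ?_, ?_⟩
    · rw [h5, h5', C_mul]
      ring
    · exact IsCoprime.mul_left (IsCoprime.mul_right h6 hc1) (IsCoprime.mul_right hc2 h6')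
    · exact (squarefree_mul_iff.2 ⟨hc3.isRelPrime, h7, h7'⟩)
    · rw [mul_pow]
      exact mul_dvd_mul h8 h8'
    · rw [h2.natDegree_mul h2', h4.natDegree_mul h4']
      omega

end dec

section alg
variable {K : Type} [Field K] [CharP K 2]

omit [CharP K 2] in
/-- `m ∣ (m A)'` implies `m ∣ A` -/
lemma dvd_of_dvd_der [Finite K] {m A : K[X]} (hm : Irreducible m) (h : m ∣ derivative (m * A)) :
    m ∣ A := by
  rw [derivative_mul] at h
  have h1 : m ∣ derivative m * A := (dvd_add_left (dvd_mul_right m _)).1 h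
  have h2 : m.Separable := PerfectField.separable_of_irreducible hm
  exact IsCoprime.dvd_of_dvd_mul_left h2 h1

lemma der_shift (m A v : K[X]) : derivative (m * (A + m * v ^ 2)) = derivative (m * A) := by
  have : m * (A + m * v ^ 2) = m * A + (m * v) ^ 2 := by ring
  rw [this, derivative_add, CubeL.deriv_sq, add_zero]

/-- the fibres of `A ↦ (m A)'` -/
lemma fibre [Finite K] {m A A' : K[X]} (hm : Irreducible m)
    (h : derivative (m * A) = derivative (m * A')) : ∃ v : K[X], A' = A + m * v ^ 2 := by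
  obtain ⟨e, o, heo⟩ := CubeL.even_odd (m * (A' - A))
  have h1 : derivative (m * (A' - A)) = 0 := by
    rw [mul_sub, derivative_sub, h, sub_self]
  have h2 : derivative (e ^ 2 + X * o ^ 2) = o ^ 2 := by
    rw [derivative_add, derivative_mul, CubeL.deriv_sq, CubeL.deriv_sq, derivative_X]
    ring
  rw [heo, h2] at h1
  have h3 : o = 0 := pow_eq_zero_iff (two_ne_zero) |>.1 h1
  rw [h3] at heo
  have h4 : m * (A' - A) = e ^ 2 := by rw [heo]; ring
  have h5 : m ∣ e := hm.prime.dvd_of_dvd_pow (n := 2) ⟨A' - A, h4.symm⟩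
  obtain ⟨v, rfl⟩ := h5
  refine ⟨v, ?_⟩
  have h6 : m * (A' - A) = m * (m * v ^ 2) := by rw [h4]; ring
  have h7 := mul_left_cancel₀ hm.ne_zero h6
  rw [← h7]
  ring

/-- the square root of `F'` -/
lemma exists_root [Finite K] (F : K[X]) : ∃ s : K[X], s ^ 2 = derivative F := by
  obtain ⟨e, o, heo⟩ := CubeL.even_odd F
  refine ⟨o, ?_⟩
  rw [heo, derivative_add, derivative_mul, CubeL.deriv_sq, CubeL.deriv_sq, derivative_X]
  ring

lemma sq_inj' {x y : K[X]} (h : x ^ 2 = y ^ 2) : x = y := by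
  have h1 : (x + y) ^ 2 = 0 := by
    rw [CubeL.sq_add', h]
    linear_combination y ^ 2 * CubeL.two_zero (K := K)
  have h2 : x + y = 0 := pow_eq_zero_iff two_ne_zero |>.1 h1
  have h3 : x = -y := eq_neg_of_add_eq_zero_left h2
  rw [h3]
  linear_combination (-y) * CubeL.two_zero (K := K)

end alg

section count
variable {K : Type} [Field K] [Fintype K]

/-- the polynomials of degree `< n` -/
noncomputable def Dl (K : Type) [Field K] [Fintype K] (n : ℕ) : Finset K[X] :=
  Finset.univ.image (Pool.Agent.H694.Typ.pol : (Fin n → K) → K[X])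

lemma mem_Dl {n : ℕ} {f : K[X]} : f ∈ Dl K n ↔ f.degree < (n : WithBot ℕ) := by
  unfold Dl
  rw [Finset.mem_image]
  constructor
  · rintro ⟨c, -, rfl⟩
    exact Pool.Agent.H694.Typ.pol_degree c
  · intro h
    obtain ⟨c, hc⟩ := Pool.Agent.H694.Typ.exists_pol h
    exact ⟨c, Finset.mem_univ _, hc⟩

lemma card_Dl (n : ℕ) : (Dl K n).card = Fintype.card K ^ n := by
  unfold Dl
  rw [Finset.card_image_of_injective _ Pool.Agent.H694.Typ.pol_inj, Finset.card_univ,
    Fintype.card_fun, Fintype.card_fin]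

lemma finsum_Dl (n : ℕ) (F : K[X] → ℝ) :
    ∑ᶠ v ∈ {v : K[X] | v.degree < (n : WithBot ℕ)}, F v = ∑ v ∈ Dl K n, F v := by
  have h : {v : K[X] | v.degree < (n : WithBot ℕ)} = ↑(Dl K n) := by
    ext v
    rw [Finset.mem_coe, mem_Dl]
    rfl
  rw [h, finsum_mem_coe_finset]

lemma deg_mv {m v : K[X]} (hm : m.Monic) {u n V : ℕ} (hu : m.natDegree = u) (h : u + 2 * V ≤ n)
    (hv : v ∈ Dl K V) : (m * v ^ 2).degree < (n : WithBot ℕ) ∧
      (m * v ^ 2 ≠ 0 → (m * v ^ 2).natDegree + 2 ≤ u + 2 * V) := by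
  rw [mem_Dl] at hv
  by_cases hv0 : v = 0
  · subst hv0
    have e : m * (0 : K[X]) ^ 2 = 0 := by ring
    rw [e]
    refine ⟨?_, fun h => absurd rfl h⟩
    rw [degree_zero]
    exact WithBot.bot_lt_coe n
  · have h1 : v.natDegree < V := by
      rwa [degree_eq_natDegree hv0, Nat.cast_lt] at hv
    have h2 : (m * v ^ 2).natDegree = u + 2 * v.natDegree := by
      rw [natDegree_mul hm.ne_zero (pow_ne_zero 2 hv0), natDegree_pow, hu]
    have h3 : m * v ^ 2 ≠ 0 := mul_ne_zero hm.ne_zero (pow_ne_zero 2 hv0)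
    refine ⟨?_, fun _ => by omega⟩
    rw [degree_eq_natDegree h3, Nat.cast_lt]
    omega

lemma shift_mem {n : ℕ} {A w : K[X]} (hA : A ∈ Mn K n) (hw : w.degree < (n : WithBot ℕ)) :
    A + w ∈ Mn K n := by
  rw [mem_Mn] at hA ⊢
  have h1 : w.degree < A.degree := by
    rw [degree_eq_natDegree hA.1.ne_zero, hA.2]
    exact hw
  exact ⟨hA.1.add_of_left h1, by rw [natDegree_add_eq_left_of_degree_lt h1, hA.2]⟩

lemma sum_shift {n : ℕ} {w : K[X]} (hw : w.degree < (n : WithBot ℕ)) (G : K[X] → ℝ) :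
    ∑ A ∈ Mn K n, G (A + w) = ∑ A ∈ Mn K n, G A := by
  refine Finset.sum_bij' (fun A _ => A + w) (fun A _ => A + (-w)) ?_ ?_ ?_ ?_ ?_
  · intro A hA
    exact shift_mem hA hw
  · intro A hA
    exact shift_mem hA (by rwa [degree_neg])
  · intro A _
    ring
  · intro A _
    ring
  · intro A _
    rfl

/-- averaging over the fibres -/
lemma avg {m : K[X]} (hm : m.Monic) {u n V : ℕ} (hu : m.natDegree = u) (h : u + 2 * V ≤ n)
    (G : K[X] → ℝ) : (Fintype.card K : ℝ) ^ V * ∑ A ∈ Mn K n, G A =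
      ∑ A ∈ Mn K n, ∑ v ∈ Dl K V, G (A + m * v ^ 2) := by
  rw [Finset.sum_comm, Finset.sum_congr rfl fun v hv => sum_shift (deg_mv hm hu h hv).1 G,
    Finset.sum_const, card_Dl, nsmul_eq_mul]
  push_cast
  rfl

omit [Fintype K] in
/-- `(m A)'` is the square of a member of `S` -/
def Rt (S : Finset K[X]) (m A : K[X]) : Prop := ∃ s ∈ S, s ^ 2 = derivative (m * A)

/-- the number of the `A` with `(m A)'` in the squares of `S` -/
lemma card_fibre [CharP K 2] {m : K[X]} (hm : m.Monic) (hi : Irreducible m) {u n : ℕ}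
    (hu : m.natDegree = u) (S : Finset K[X]) :
    ((Mn K n).filter (fun A => Rt S m A)).card ≤
      Fintype.card K ^ ((n - u) / 2 + 1) * S.card := by
  choose f hf using fun A : K[X] => exists_root (m * A)
  refine Finset.card_le_mul_card_image_of_maps_to (f := f) ?_ _ ?_
  · intro A hA
    obtain ⟨-, s, hs, h⟩ := Finset.mem_filter.1 hA
    rw [← hf A] at h
    rw [← sq_inj' h]
    exact hs
  · intro b _
    set F := ((Mn K n).filter (fun A => Rt S m A)).filter
      (fun A => f A = b) with hF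
    rcases F.eq_empty_or_nonempty with h0 | ⟨A₀, hA₀⟩
    · rw [h0, Finset.card_empty]
      exact Nat.zero_le _
    · have hsub : F ⊆ (Dl K ((n - u) / 2 + 1)).image (fun v => A₀ + m * v ^ 2) := by
        intro A hA
        have h1 := Finset.mem_filter.1 hA
        have h2 := Finset.mem_filter.1 hA₀
        have h3 : derivative (m * A₀) = derivative (m * A) := by
          rw [← hf A, ← hf A₀, h1.2, h2.2]
        obtain ⟨v, hv⟩ := fibre hi h3
        rw [Finset.mem_image]
        refine ⟨v, ?_, hv.symm⟩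
        rw [mem_Dl]
        by_cases hv0 : v = 0
        · rw [hv0, degree_zero]
          exact WithBot.bot_lt_coe _
        · have hA1 := mem_Mn.1 (Finset.mem_filter.1 h1.1).1
          have hA2 := mem_Mn.1 (Finset.mem_filter.1 h2.1).1
          have h4 : (A - A₀).degree < A.degree := by
            refine degree_sub_lt_left ?_ hA1.1.ne_zero ?_
            · rw [degree_eq_natDegree hA1.1.ne_zero, degree_eq_natDegree hA2.1.ne_zero, hA1.2,
                hA2.2]
            · rw [hA1.1.leadingCoeff, hA2.1.leadingCoeff]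
          have h5 : A - A₀ = m * v ^ 2 := by rw [hv]; ring
          have h6 : m * v ^ 2 ≠ 0 := mul_ne_zero hm.ne_zero (pow_ne_zero 2 hv0)
          rw [h5, degree_eq_natDegree h6, degree_eq_natDegree hA1.1.ne_zero, Nat.cast_lt,
            natDegree_mul hm.ne_zero (pow_ne_zero 2 hv0), natDegree_pow, hu, hA1.2] at h4
          rw [degree_eq_natDegree hv0, Nat.cast_lt]
          omega
      refine (Finset.card_le_card hsub).trans (Finset.card_image_le.trans ?_)
      rw [card_Dl]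

/-- the polynomials with a large square divisor -/
lemma card_S3 (J c : ℕ) : ∃ S : Finset K[X], (∀ s : K[X], s ≠ 0 → s.natDegree ≤ J →
    (∃ k : K[X], k.Monic ∧ c < k.natDegree ∧ k ^ 2 ∣ s) → s ∈ S) ∧
    (S.card : ℝ) ≤ (Fintype.card K : ℝ) * (((J : ℝ) + 1) *
      ((Fintype.card K : ℝ) ^ J * (1 / 2) ^ c)) := by
  refine ⟨(Finset.univ : Finset K).biUnion fun a => (Finset.range (J + 1)).biUnion fun j =>
    ((Mn K j).filter (fun b => ∃ g : K[X], g.Monic ∧ c < g.natDegree ∧ g ^ 2 ∣ b)).image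
      (fun f => C a * f), ?_, ?_⟩
  · rintro s hs hJ ⟨k, hk, hc, hks⟩
    have hl : s.leadingCoeff ≠ 0 := leadingCoeff_ne_zero.2 hs
    rw [Finset.mem_biUnion]
    refine ⟨s.leadingCoeff, Finset.mem_univ _, ?_⟩
    rw [Finset.mem_biUnion]
    refine ⟨s.natDegree, Finset.mem_range.2 (by omega), ?_⟩
    rw [Finset.mem_image]
    refine ⟨s * C (s.leadingCoeff)⁻¹, ?_, ?_⟩
    · rw [Finset.mem_filter, mem_Mn]
      refine ⟨⟨monic_mul_leadingCoeff_inv hs, natDegree_mul_leadingCoeff_inv s hs⟩, k, hk, hc,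
        hks.mul_right _⟩
    · have : C s.leadingCoeff * C (s.leadingCoeff)⁻¹ = (1 : K[X]) := by
        rw [← C_mul, mul_inv_cancel₀ hl, C_1]
      linear_combination s * this
  · have hq := Pool.Agent.H694.Typ.q_ge (k := K)
    have h1 : ∀ a : K, (((Finset.range (J + 1)).biUnion fun j =>
        ((Mn K j).filter (fun b => ∃ g : K[X], g.Monic ∧ c < g.natDegree ∧ g ^ 2 ∣ b)).image
        (fun f => C a * f)).card : ℝ) ≤ ((J : ℝ) + 1) *
          ((Fintype.card K : ℝ) ^ J * (1 / 2) ^ c) := by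
      intro a
      have h2 : (((Finset.range (J + 1)).biUnion fun j =>
        ((Mn K j).filter (fun b => ∃ g : K[X], g.Monic ∧ c < g.natDegree ∧ g ^ 2 ∣ b)).image
        (fun f => C a * f)).card : ℝ) ≤ ∑ j ∈ Finset.range (J + 1), (((Mn K j).filter
          (fun b => ∃ g : K[X], g.Monic ∧ c < g.natDegree ∧ g ^ 2 ∣ b)).card : ℝ) := by
        have := Finset.card_biUnion_le.trans (Finset.sum_le_sum fun j (_ : j ∈ Finset.range (J + 1))
          => Finset.card_image_le (s := (Mn K j).filter (fun b => ∃ g : K[X], g.Monic ∧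
            c < g.natDegree ∧ g ^ 2 ∣ b)) (f := fun f => C a * f))
        exact_mod_cast this
      refine h2.trans ?_
      have h3 : ∀ j ∈ Finset.range (J + 1), (((Mn K j).filter
          (fun b => ∃ g : K[X], g.Monic ∧ c < g.natDegree ∧ g ^ 2 ∣ b)).card : ℝ) ≤
          (Fintype.card K : ℝ) ^ J * (1 / 2) ^ c := by
        intro j hj
        rw [Finset.mem_range] at hj
        refine (Pool.Agent.H694.Typ.sq_bound (k := K) j c).trans ?_
        refine mul_le_mul_of_nonneg_right ?_ (by positivity)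
        exact pow_le_pow_right₀ (by linarith) (by omega)
      refine (Finset.sum_le_sum h3).trans ?_
      rw [Finset.sum_const, Finset.card_range, nsmul_eq_mul]
      push_cast
      exact le_refl _
    have h4 := Finset.card_biUnion_le (s := (Finset.univ : Finset K)) (t := fun a =>
      (Finset.range (J + 1)).biUnion fun j =>
        ((Mn K j).filter (fun b => ∃ g : K[X], g.Monic ∧ c < g.natDegree ∧ g ^ 2 ∣ b)).image
        (fun f => C a * f))
    have h5 : (((Finset.univ : Finset K).biUnion fun a => (Finset.range (J + 1)).biUnion fun j =>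
        ((Mn K j).filter (fun b => ∃ g : K[X], g.Monic ∧ c < g.natDegree ∧ g ^ 2 ∣ b)).image
        (fun f => C a * f)).card : ℝ) ≤ ∑ a : K, (((Finset.range (J + 1)).biUnion fun j =>
        ((Mn K j).filter (fun b => ∃ g : K[X], g.Monic ∧ c < g.natDegree ∧ g ^ 2 ∣ b)).image
        (fun f => C a * f)).card : ℝ) := by exact_mod_cast h4
    refine h5.trans ((Finset.sum_le_sum fun a _ => h1 a).trans ?_)
    rw [Finset.sum_const, Finset.card_univ, nsmul_eq_mul]

/-- the number of the primes of degree `a` -/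
lemma cnt_le {a : ℕ} (ha : 1 ≤ a) {m A : K[X]} (h : derivative (m * A) ≠ 0) :
    cntP K a m A ≤ ((derivative (m * A)).natDegree : ℝ) := by
  unfold cntP
  set S := (Irr K a).filter (fun P => P ∣ derivative (m * A)) with hS
  have hI : ∀ P ∈ S, P.Monic ∧ P.natDegree = a ∧ Irreducible P ∧ P ∣ derivative (m * A) := by
    intro P hP
    rw [hS, Finset.mem_filter] at hP
    obtain ⟨h1, h2⟩ := hP
    unfold Irr at h1
    rw [Finset.mem_filter, mem_Mn] at h1
    exact ⟨h1.1.1, h1.1.2, h1.2, h2⟩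
  have hprod : ∏ P ∈ S, P ∣ derivative (m * A) := by
    refine Finset.prod_dvd_of_coprime ?_ ?_
    · intro P hP Q hQ hPQ
      have hP' := hI P hP
      have hQ' := hI Q hQ
      exact Pool.Agent.H694.Typ.coprime_of_ne hP'.1 hP'.2.2.1 hQ'.1 hQ'.2.2.1 hPQ
    · intro P hP
      exact (hI P hP).2.2.2
  have h2 := natDegree_le_of_dvd hprod h
  rw [natDegree_prod_of_monic _ _ fun P hP => (hI P hP).1,
    Finset.sum_congr rfl fun P hP => (hI P hP).2.1, Finset.sum_const, smul_eq_mul] at h2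
  have h3 : S.card ≤ S.card * a := Nat.le_mul_of_pos_right _ ha
  exact_mod_cast h3.trans h2

lemma Irr_card_le (a : ℕ) : (Irr K a).card ≤ Fintype.card K ^ a := by
  rw [← card_Mn]
  exact Finset.card_le_card (Finset.filter_subset _ _)

lemma cnt_le' (a : ℕ) (m A : K[X]) : cntP K a m A ≤ (Fintype.card K : ℝ) ^ a := by
  unfold cntP
  have := (Finset.card_le_card (Finset.filter_subset (fun P => P ∣ derivative (m * A))
    (Irr K a))).trans (Irr_card_le a)
  exact_mod_cast this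

lemma cnt_nonneg (a : ℕ) (m A : K[X]) : 0 ≤ cntP K a m A := by
  unfold cntP
  exact Nat.cast_nonneg _

lemma Irr_eq (a : ℕ) : Irr K a = Irn K a := by
  unfold Irr Irn
  rfl

lemma Irr_ge {a : ℕ} (ha : 4 ≤ a) :
    (Fintype.card K : ℝ) ^ a ≤ 2 * a * ((Irr K a).card : ℝ) := by
  have hq := Pool.Agent.H694.Typ.q_ge (k := K)
  have h1 := Pool.Agent.H694.Typ.irn_wt_ge (k := K) ha
  rw [Finset.sum_congr rfl (fun P hP => by rw [(mem_Irn.1 hP).2.1]), Finset.sum_const,
    nsmul_eq_mul, ← Irr_eq] at h1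
  unfold Pool.Agent.H694.Typ.wt at h1
  have hpos : (0 : ℝ) < (Fintype.card K : ℝ) ^ a := by positivity
  have ha0 : (0 : ℝ) < a := by exact_mod_cast (show 0 < a by omega)
  rw [← div_eq_mul_inv, div_le_div_iff₀ (by positivity) hpos] at h1
  linarith

end count

/-- the conclusion of `S_fib` -/
def FibK (K : Type) [Field K] [Fintype K] (η c : ℝ) (n₀ : ℕ) : Prop :=
  ∀ (γ c₁ : K) (b M a₀ α m A₀ e h P ξ : K[X]) (n u a V : ℕ), n₀ ≤ n → Dat γ b M a₀ α →
      m.Monic → Irreducible m → m.natDegree = u → A₀.Monic → A₀.natDegree = n → ¬ m ∣ A₀ →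
      c₁ ≠ 0 → e.Monic → h.Monic → IsCoprime e h → Squarefree h → IsCoprime m (e * h) →
      (C c₁ * (e * h)) ^ 2 = derivative (m * A₀) →
      P.Monic → Irreducible P → P.natDegree = a → P ∣ h →
      (e.natDegree : ℝ) ≤ η * n → (M.natDegree : ℝ) ≤ η * n → (ξ.natDegree : ℝ) ≤ η * n →
      u + 2 * V ≤ n → 2 * V + 5 * u + 3 * n ≤ 8 * (e * h).natDegree →
      ((e * h).natDegree : ℝ) + 40 * η * n ≤ V + a → (a : ℝ) + 40 * η * n ≤ V →
      (V : ℝ) + 10 * η * n ≤ 2 * ((e * h).natDegree - a) →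
      |∑ᶠ v ∈ {v : K[X] | v.degree < (V : WithBot ℕ)}, pAx γ b M a₀ ξ (A₀ + m * v ^ 2)| ≤
        (Fintype.card K : ℝ) ^ ((V : ℝ) - c * n)

section per
variable {K : Type} [Field K] [Fintype K]

lemma abs_pAx (γ : K) (b M a₀ ξ A : K[X]) : |pAx γ b M a₀ ξ A| ≤ 1 := by
  unfold pAx
  split_ifs
  · rw [abs_mul]
    have h1 : |(mob A : ℝ)| ≤ 1 := by
      unfold mob
      split_ifs
      · rw [Int.cast_pow, abs_pow]
        simp
      · simp
    have h2 : |sg (lc (A * M) (ξ * rho γ b M a₀ A))| ≤ 1 := by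
      unfold sg
      split_ifs
      · simp
      · simp
    calc _ ≤ (1 : ℝ) * 1 := mul_le_mul h1 h2 (abs_nonneg _) zero_le_one
      _ = 1 := by ring
  · simp

variable [CharP K 2]

/-- the bad `A` -/
def Bad (t n : ℕ) (S : Finset K[X]) (m A : K[X]) : Prop :=
  m ∣ A ∨ Rt (Dl K ((n + 40 * t) / 2 - 5 * t + 1)) m A ∨ Rt S m A

/-- the good fibres -/
lemma good {t n n₀ : ℕ} (ht : 1 ≤ t) (h1 : 1000 * t ≤ n) (h2 : n < 1000 * (t + 1)) {c : ℝ}
    (hf : FibK K (1 / 1000) c n₀) (hn : n₀ ≤ n) {S : Finset K[X]}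
    (hS : ∀ s : K[X], s ≠ 0 → s.natDegree ≤ (n + 40 * t) / 2 →
      (∃ k : K[X], k.Monic ∧ t / 3 < k.natDegree ∧ k ^ 2 ∣ s) → s ∈ S)
    {γ : K} {b M a₀ α ξ : K[X]} (hD : Dat γ b M a₀ α) (hM : (M.natDegree : ℝ) ≤ 1 / 1000 * n)
    (hξ : (ξ.natDegree : ℝ) ≤ 1 / 1000 * n) {m : K[X]} (hm : m.Monic) (hmi : Irreducible m)
    (hmu : m.natDegree = 40 * t) {A : K[X]} (hA : A ∈ Mn K n) (hb : ¬ Bad t n S m A) {P : K[X]}
    (hP : P ∈ Irr K (200 * t)) (hPd : P ∣ derivative (m * A)) :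
    |∑ v ∈ Dl K ((n - 120 * t) / 2), pAx γ b M a₀ ξ (A + m * v ^ 2)| ≤
      (Fintype.card K : ℝ) ^ ((((n - 120 * t) / 2 : ℕ) : ℝ) - c * n) := by
  unfold Irr at hP
  rw [Finset.mem_filter, mem_Mn] at hP
  obtain ⟨⟨hPm, hPa⟩, hPi⟩ := hP
  rw [mem_Mn] at hA
  obtain ⟨hAm, hAn⟩ := hA
  unfold Bad Rt at hb
  push Not at hb
  obtain ⟨hmA, hb2, hb3⟩ := hb
  obtain ⟨s, hs⟩ := exists_root (m * A)
  have hsL : s ∉ Dl K ((n + 40 * t) / 2 - 5 * t + 1) := fun h => hb2 s h hs
  have hsS : s ∉ S := fun h => hb3 s h hs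
  rw [mem_Dl] at hsL
  have hs0 : s ≠ 0 := by
    rintro rfl
    apply hsL
    rw [degree_zero]
    exact WithBot.bot_lt_coe _
  rw [degree_eq_natDegree hs0, Nat.cast_lt, not_lt] at hsL
  have hsd : 2 * s.natDegree < n + 40 * t := by
    have h3 : (m * A).natDegree = 40 * t + n := by
      rw [hm.natDegree_mul hAm, hmu, hAn]
    have h4 := natDegree_derivative_lt (p := m * A) (by omega)
    rw [← hs, natDegree_pow, h3] at h4
    omega
  obtain ⟨c₁, e, h, k, hc1, he, hh, hk, hseh, hcop, hsq, hke, hdeg⟩ := dec s hs0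
  have hkt : k.natDegree ≤ t / 3 := by
    by_contra hcon
    apply hsS
    apply hS s hs0 (by omega)
    refine ⟨k, hk, by omega, hke.trans ⟨C c₁ * h, ?_⟩⟩
    rw [hseh]
    ring
  have het : e.natDegree ≤ t := by omega
  have hehd : (e * h).natDegree = s.natDegree := by
    rw [hseh, natDegree_C_mul hc1]
  have hPh : P ∣ h := by
    have h3 : P ∣ s := hPi.prime.dvd_of_dvd_pow (n := 2) (by rw [hs]; exact hPd)
    rw [hseh] at h3
    rcases hPi.prime.dvd_or_dvd h3 with h4 | h4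
    · exfalso
      have h5 := natDegree_le_of_dvd h4 (by simpa using hc1)
      rw [natDegree_C] at h5
      omega
    · rcases hPi.prime.dvd_or_dvd h4 with h5 | h5
      · exfalso
        have h6 := natDegree_le_of_dvd h5 he.ne_zero
        omega
      · exact h5
  have hmeh : IsCoprime m (e * h) := by
    refine hmi.coprime_iff_not_dvd.2 fun h3 => hmA (dvd_of_dvd_der hmi ?_)
    rw [← hs, hseh]
    exact (h3.mul_left _).trans (dvd_pow_self _ two_ne_zero)
  rw [← finsum_Dl]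
  have e1 : (t : ℝ) ≤ 1 / 1000 * n := by
    have : (1000 : ℝ) * t ≤ n := by exact_mod_cast h1
    linarith
  have e2 : 1 / 1000 * (n : ℝ) < t + 1 := by
    have : (n : ℝ) < 1000 * (t + 1) := by exact_mod_cast h2
    linarith
  have e3 : (1 : ℝ) ≤ t := by exact_mod_cast ht
  have e4 : 1000 * (t : ℝ) ≤ n := by exact_mod_cast h1
  set V := (n - 120 * t) / 2 with hV
  have v1 : 2 * V + 120 * t ≤ n := by omega
  have v2 : n ≤ 2 * V + 120 * t + 1 := by omega
  have v1' : 2 * (V : ℝ) + 120 * t ≤ n := by exact_mod_cast v1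
  have v2' : (n : ℝ) ≤ 2 * V + 120 * t + 1 := by exact_mod_cast v2
  have d1 : n + 30 * t ≤ 2 * s.natDegree := by omega
  have d1' : (n : ℝ) + 30 * t ≤ 2 * s.natDegree := by exact_mod_cast d1
  have d2' : 2 * (s.natDegree : ℝ) ≤ n + 40 * t := by exact_mod_cast hsd.le
  refine hf γ c₁ b M a₀ α m A e h P ξ n (40 * t) (200 * t) V hn hD hm hmi hmu hAm hAn hmA hc1 he hh
    hcop hsq hmeh ?_ hPm hPi hPa hPh ?_ hM hξ (by omega) ?_ ?_ ?_ ?_
  · rw [← hseh]
    exact hs
  · have : (e.natDegree : ℝ) ≤ t := by exact_mod_cast het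
    linarith
  · rw [hehd]
    omega
  · rw [hehd]
    push_cast
    linarith
  · push_cast
    linarith
  · rw [hehd]
    push_cast
    linarith

/-- the sum for one `m` -/
lemma per_m {t n n₀ : ℕ} (ht : 1 ≤ t) (h1 : 1000 * t ≤ n) (h2 : n < 1000 * (t + 1)) {c : ℝ}
    (hc : 0 < c)
    (hf : FibK K (1 / 1000) c n₀) (hn : n₀ ≤ n)
    {γ : K} {b M a₀ α ξ : K[X]} (hD : Dat γ b M a₀ α) (hM : (M.natDegree : ℝ) ≤ 1 / 1000 * n)
    (hξ : (ξ.natDegree : ℝ) ≤ 1 / 1000 * n) {φ : K[X] → ℝ} (hφ : ∀ A, |φ A| ≤ 1)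
    (hφ2 : ∀ A A' : K[X], A.Monic → A'.Monic → A.natDegree = n → A'.natDegree = n →
        ((A - A').natDegree : ℝ) + 1 / 1000 * n ≤ n → φ A = φ A')
    {m : K[X]} (hm : m ∈ Irr K (40 * t)) :
    |∑ A ∈ Mn K n, φ A * pAx γ b M a₀ ξ A * cntP K (200 * t) m A| ≤
      (Fintype.card K : ℝ) ^ n * ((n : ℝ) ^ 2 * (Fintype.card K : ℝ) ^ 2 *
        (4 * (Fintype.card K : ℝ) ^ (-c * n) + 16 * (1 / 2) ^ (t / 3))) := by
  have hq := q_ge (k := K)
  set q := (Fintype.card K : ℝ) with hqdef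
  have hm' := hm
  unfold Irr at hm'
  rw [Finset.mem_filter, mem_Mn] at hm'
  obtain ⟨⟨hmm, hmu⟩, hmi⟩ := hm'
  obtain ⟨S, hS, hSc⟩ := card_S3 (K := K) ((n + 40 * t) / 2) (t / 3)
  rw [← hqdef] at hSc
  set V := (n - 120 * t) / 2 with hV
  have v1 : 2 * V + 120 * t ≤ n := by omega
  set δ := q ^ (-c * n : ℝ) with hδ
  have hδ0 : 0 < δ := by
    rw [hδ]
    positivity
  have hδ1 : δ ≤ 1 := by
    rw [hδ]
    apply Real.rpow_le_one_of_one_le_of_nonpos (by linarith)
    have : 0 ≤ c * n := by positivity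
    linarith
  set cn := fun A => cntP K (200 * t) m A with hcn
  set G := fun A => φ A * pAx γ b M a₀ ξ A * cntP K (200 * t) m A with hG
  set ib := fun A => if Bad t n S m A then (1 : ℝ) else 0 with hib
  set iz := fun A => if derivative (m * A) = 0 then (1 : ℝ) else 0 with hiz
  have key : ∀ A ∈ Mn K n, |∑ v ∈ Dl K V, G (A + m * v ^ 2)| ≤ q ^ V * (cn A * (δ + ib A)) := by
    intro A hA
    have hA' := mem_Mn.1 hA
    have e1 : ∀ v ∈ Dl K V, G (A + m * v ^ 2) =
        φ A * cn A * pAx γ b M a₀ ξ (A + m * v ^ 2) := by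
      intro v hv
      have hd := deg_mv hmm hmu (n := n) (V := V) (by omega) hv
      have hs := mem_Mn.1 (shift_mem hA hd.1)
      have e2 : φ A = φ (A + m * v ^ 2) := by
        apply hφ2 A _ hA'.1 hs.1 hA'.2 hs.2
        have e3 : A - (A + m * v ^ 2) = -(m * v ^ 2) := by ring
        rw [e3, natDegree_neg]
        have h2' : (n : ℝ) < 1000 * (t + 1) := by exact_mod_cast h2
        have h1' : 1000 * (t : ℝ) ≤ n := by exact_mod_cast h1
        have v1' : 2 * (V : ℝ) + 120 * t ≤ n := by exact_mod_cast v1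
        have ht' : (1 : ℝ) ≤ t := by exact_mod_cast ht
        by_cases h0 : m * v ^ 2 = 0
        · rw [h0, natDegree_zero, Nat.cast_zero]
          have : (0 : ℝ) ≤ n := Nat.cast_nonneg n
          linarith
        · have h4 : (((m * v ^ 2).natDegree : ℕ) : ℝ) + 2 ≤ 40 * t + 2 * V := by
            exact_mod_cast hd.2 h0
          linarith
      have e4 : cntP K (200 * t) m (A + m * v ^ 2) = cntP K (200 * t) m A := by
        unfold cntP
        rw [der_shift]
      simp only [hG, hcn]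
      rw [← e2, e4]
      ring
    rw [Finset.sum_congr rfl e1, ← Finset.mul_sum, abs_mul, abs_mul]
    have hcn0 : 0 ≤ cn A := cnt_nonneg _ _ _
    rw [abs_of_nonneg hcn0]
    have hib0 : 0 ≤ ib A := by
      simp only [hib]
      split_ifs <;> norm_num
    have htriv : |∑ v ∈ Dl K V, pAx γ b M a₀ ξ (A + m * v ^ 2)| ≤ q ^ V := by
      refine (Finset.abs_sum_le_sum_abs _ _).trans ?_
      refine (Finset.sum_le_sum fun v _ => abs_pAx γ b M a₀ ξ (A + m * v ^ 2)).trans ?_
      rw [Finset.sum_const, card_Dl, nsmul_eq_mul]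
      push_cast
      rw [mul_one]
    by_cases hb : Bad t n S m A
    · have hib1 : ib A = 1 := by
        simp only [hib]
        rw [if_pos hb]
      rw [hib1]
      calc |φ A| * cn A * |∑ v ∈ Dl K V, pAx γ b M a₀ ξ (A + m * v ^ 2)| ≤ 1 * cn A * q ^ V := by
            have := hφ A
            gcongr
        _ ≤ 1 * cn A * q ^ V * (δ + 1) := by
            have h3 : 0 ≤ 1 * cn A * q ^ V := by positivity
            exact le_mul_of_one_le_right h3 (by linarith)
        _ = _ := by ring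
    · by_cases h0 : cn A = 0
      · rw [h0]
        simp
      · have hcard : 0 < ((Irr K (200 * t)).filter (fun P => P ∣ derivative (m * A))).card := by
          rw [Nat.pos_iff_ne_zero]
          intro h3
          apply h0
          simp only [hcn]
          unfold cntP
          rw [h3, Nat.cast_zero]
        obtain ⟨P, hP⟩ := Finset.card_pos.1 hcard
        rw [Finset.mem_filter] at hP
        have hg := good ht h1 h2 hf hn hS hD hM hξ hmm hmi hmu hA hb hP.1 hP.2
        have e5 : q ^ ((((n - 120 * t) / 2 : ℕ) : ℝ) - c * n) = q ^ V * δ := by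
          rw [hδ, ← Real.rpow_natCast q V, ← Real.rpow_add (by linarith)]
          congr 1
          ring
        rw [← hqdef, e5] at hg
        calc |φ A| * cn A * |∑ v ∈ Dl K V, pAx γ b M a₀ ξ (A + m * v ^ 2)| ≤
              1 * cn A * (q ^ V * δ) := by
              have := hφ A
              gcongr
          _ = q ^ V * (cn A * (δ + 0)) := by ring
          _ ≤ _ := by gcongr
  have hqV : 0 < q ^ V := by positivity
  have step1 : |∑ A ∈ Mn K n, G A| ≤ ∑ A ∈ Mn K n, cn A * (δ + ib A) := by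
    have e1 := avg hmm hmu (n := n) (V := V) (by omega) G
    rw [← hqdef] at e1
    have e2 : q ^ V * |∑ A ∈ Mn K n, G A| ≤ q ^ V * ∑ A ∈ Mn K n, cn A * (δ + ib A) := by
      rw [← abs_of_pos hqV, ← abs_mul, abs_of_pos hqV, e1, Finset.mul_sum]
      exact (Finset.abs_sum_le_sum_abs _ _).trans (Finset.sum_le_sum key)
    exact le_of_mul_le_mul_left e2 hqV
  have hn0 : (0 : ℝ) ≤ n := Nat.cast_nonneg n
  have step2 : ∑ A ∈ Mn K n, cn A * (δ + ib A) ≤
      ∑ A ∈ Mn K n, (2 * n * δ + 2 * n * ib A + 2 * q ^ (200 * t) * iz A) := by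
    refine Finset.sum_le_sum fun A hA => ?_
    have hA' := mem_Mn.1 hA
    have hib0 : 0 ≤ ib A := by
      simp only [hib]
      split_ifs <;> norm_num
    have hib1 : ib A ≤ 1 := by
      simp only [hib]
      split_ifs <;> norm_num
    by_cases hz : derivative (m * A) = 0
    · have hiz1 : iz A = 1 := by
        simp only [hiz]
        rw [if_pos hz]
      have h3 : cn A ≤ q ^ (200 * t) := cnt_le' _ _ _
      rw [hiz1]
      have h4 : cn A * (δ + ib A) ≤ q ^ (200 * t) * 2 := by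
        have : δ + ib A ≤ 2 := by linarith
        have h5 : 0 ≤ cn A := cnt_nonneg _ _ _
        gcongr
      have h6 : 0 ≤ 2 * n * δ + 2 * n * ib A := by positivity
      linarith
    · have h3 : cn A ≤ 2 * n := by
        have h4 := cnt_le (K := K) (a := 200 * t) (by omega) (m := m) (A := A) hz
        have h5 : (derivative (m * A)).natDegree ≤ 2 * n := by
          have h6 : (m * A).natDegree = 40 * t + n := by
            rw [hmm.natDegree_mul hA'.1, hmu, hA'.2]
          have h7 := natDegree_derivative_le (m * A)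
          omega
        refine h4.trans ?_
        exact_mod_cast h5
      have hiz0 : 0 ≤ 2 * q ^ (200 * t) * iz A := by
        have : 0 ≤ iz A := by
          simp only [hiz]
          split_ifs <;> norm_num
        positivity
      have h4 : cn A * (δ + ib A) ≤ 2 * n * (δ + ib A) := by gcongr
      linarith
  have step3 : ∑ A ∈ Mn K n, (2 * n * δ + 2 * n * ib A + 2 * q ^ (200 * t) * iz A) =
      q ^ n * (2 * n * δ) + 2 * n * (((Mn K n).filter (fun A => Bad t n S m A)).card : ℝ) +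
        2 * q ^ (200 * t) * (((Mn K n).filter (fun A => derivative (m * A) = 0)).card : ℝ) := by
    rw [Finset.sum_add_distrib, Finset.sum_add_distrib, Finset.sum_const, card_Mn, nsmul_eq_mul,
      ← Finset.mul_sum, ← Finset.mul_sum]
    simp only [hib, hiz]
    rw [Finset.sum_boole, Finset.sum_boole]
    push_cast
    rfl
  have ex : (n - 40 * t) / 2 + 1 + 200 * t + t ≤ n := by omega
  have hq1 : (1 : ℝ) ≤ q := by linarith
  -- the case `(m A)' = 0`
  have cZ : q ^ (200 * t) * (((Mn K n).filter (fun A => derivative (m * A) = 0)).card : ℝ) ≤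
      q ^ (n - t) := by
    have h3 := card_fibre hmm hmi hmu (n := n) {0}
    have h4 : (Mn K n).filter (fun A => derivative (m * A) = 0) ⊆
        (Mn K n).filter (fun A => Rt {0} m A) := by
      intro A hA
      rw [Finset.mem_filter] at hA ⊢
      exact ⟨hA.1, 0, Finset.mem_singleton_self _, by rw [hA.2]; ring⟩
    have h5 : (((Mn K n).filter (fun A => derivative (m * A) = 0)).card : ℝ) ≤
        q ^ ((n - 40 * t) / 2 + 1) := by
      have := (Finset.card_le_card h4).trans h3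
      rw [Finset.card_singleton, mul_one] at this
      rw [hqdef]
      exact_mod_cast this
    calc q ^ (200 * t) * (((Mn K n).filter (fun A => derivative (m * A) = 0)).card : ℝ) ≤
          q ^ (200 * t) * q ^ ((n - 40 * t) / 2 + 1) := by gcongr
      _ = q ^ (200 * t + ((n - 40 * t) / 2 + 1)) := (pow_add _ _ _).symm
      _ ≤ q ^ (n - t) := pow_le_pow_right₀ hq1 (by omega)
  -- the bad ones
  have cB : (((Mn K n).filter (fun A => Bad t n S m A)).card : ℝ) ≤
      q ^ (n - t) + q ^ (n - t) + q ^ n * (n * q ^ 2 * (1 / 2) ^ (t / 3)) := by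
    have h3 : (Mn K n).filter (fun A => Bad t n S m A) ⊆ (Mn K n).filter (fun A => m ∣ A) ∪
        ((Mn K n).filter (fun A => Rt (Dl K ((n + 40 * t) / 2 - 5 * t + 1)) m A) ∪
        (Mn K n).filter (fun A => Rt S m A)) := by
      intro A hA
      rw [Finset.mem_filter] at hA
      rw [Finset.mem_union, Finset.mem_union, Finset.mem_filter, Finset.mem_filter,
        Finset.mem_filter]
      rcases hA.2 with h | h | h
      · exact Or.inl ⟨hA.1, h⟩
      · exact Or.inr (Or.inl ⟨hA.1, h⟩)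
      · exact Or.inr (Or.inr ⟨hA.1, h⟩)
    have h4 := (Finset.card_le_card h3).trans ((Finset.card_union_le _ _).trans
      (Nat.add_le_add_left (Finset.card_union_le _ _) _))
    have c1 : (((Mn K n).filter (fun A => m ∣ A)).card : ℝ) ≤ q ^ (n - t) := by
      rw [Pool.Agent.H694.Typ.card_dvd hmm (by omega), hmu, Nat.cast_pow]
      exact pow_le_pow_right₀ hq1 (by omega)
    have c2 : (((Mn K n).filter (fun A => Rt (Dl K ((n + 40 * t) / 2 - 5 * t + 1)) m A)).card : ℝ) ≤ q ^ (n - t) := by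
      have h5 := card_fibre hmm hmi hmu (n := n) (Dl K ((n + 40 * t) / 2 - 5 * t + 1))
      rw [card_Dl, ← pow_add] at h5
      have h6 : (((Mn K n).filter (fun A => Rt (Dl K ((n + 40 * t) / 2 - 5 * t + 1)) m A)).card : ℝ) ≤
          q ^ ((n - 40 * t) / 2 + 1 + ((n + 40 * t) / 2 - 5 * t + 1)) := by
        rw [hqdef]
        exact_mod_cast h5
      refine h6.trans (pow_le_pow_right₀ hq1 (by omega))
    have c3 : (((Mn K n).filter (fun A => Rt S m A)).card : ℝ) ≤
        q ^ n * (n * q ^ 2 * (1 / 2) ^ (t / 3)) := by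
      have h5 := card_fibre hmm hmi hmu (n := n) S
      have h6 : (((Mn K n).filter (fun A => Rt S m A)).card : ℝ) ≤
          q ^ ((n - 40 * t) / 2 + 1) * (S.card : ℝ) := by
        rw [hqdef]
        exact_mod_cast h5
      have h7 : (((n + 40 * t) / 2 : ℕ) : ℝ) + 1 ≤ n := by
        have : (n + 40 * t) / 2 + 1 ≤ n := by omega
        exact_mod_cast this
      calc (((Mn K n).filter (fun A => Rt S m A)).card : ℝ) ≤
          q ^ ((n - 40 * t) / 2 + 1) * (S.card : ℝ) := h6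
        _ ≤ q ^ ((n - 40 * t) / 2 + 1) * (q * (((((n + 40 * t) / 2 : ℕ) : ℝ) + 1) *
            (q ^ ((n + 40 * t) / 2) * (1 / 2) ^ (t / 3)))) := by gcongr
        _ ≤ q ^ ((n - 40 * t) / 2 + 1) * (q * (n *
            (q ^ ((n + 40 * t) / 2) * (1 / 2) ^ (t / 3)))) := by gcongr
        _ = q ^ ((n - 40 * t) / 2 + 1 + (n + 40 * t) / 2 + 1) * (n * (1 / 2) ^ (t / 3)) := by
            ring
        _ ≤ q ^ (n + 2) * (n * (1 / 2) ^ (t / 3)) := by
            refine mul_le_mul_of_nonneg_right (pow_le_pow_right₀ hq1 (by omega)) (by positivity)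
        _ = _ := by rw [pow_add]; ring
    have h5 : (((Mn K n).filter (fun A => Bad t n S m A)).card : ℝ) ≤
        (((Mn K n).filter (fun A => m ∣ A)).card : ℝ) +
        ((((Mn K n).filter (fun A => Rt (Dl K ((n + 40 * t) / 2 - 5 * t + 1)) m A)).card : ℝ) +
        (((Mn K n).filter (fun A => Rt S m A)).card : ℝ)) := by
      exact_mod_cast h4
    linarith
  have hε : q ^ (n - t) ≤ q ^ n * (1 / 2) ^ (t / 3) := by
    have h3 : q ^ n = q ^ (n - t) * q ^ t := by
      rw [← pow_add]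
      congr 1
      omega
    rw [h3, mul_assoc]
    have h4 : 1 ≤ q ^ t * (1 / 2) ^ (t / 3) := by
      calc (1 : ℝ) = 2 ^ t * (1 / 2) ^ t := by
            rw [← mul_pow]
            norm_num
        _ ≤ q ^ t * (1 / 2) ^ (t / 3) := by
            have h5 : (1 / 2 : ℝ) ^ t ≤ (1 / 2) ^ (t / 3) :=
              pow_le_pow_of_le_one (by norm_num) (by norm_num) (by omega)
            gcongr
    exact le_mul_of_one_le_right (by positivity) h4
  rw [step3] at step2
  refine (step1.trans step2).trans ?_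
  set ε : ℝ := (1 / 2) ^ (t / 3) with hεd
  have hε0 : 0 < ε := by rw [hεd]; positivity
  have hn1 : (1 : ℝ) ≤ n := by exact_mod_cast (show 1 ≤ n by omega)
  have hqn : 0 < q ^ n := by positivity
  have hq2 : 1 ≤ q ^ 2 := one_le_pow₀ hq1
  have hn2 : (n : ℝ) ≤ n ^ 2 := le_self_pow₀ hn1 two_ne_zero
  have hnq : (n : ℝ) ≤ n ^ 2 * q ^ 2 := by
    calc (n : ℝ) ≤ n ^ 2 := hn2
      _ = n ^ 2 * 1 := (mul_one _).symm
      _ ≤ n ^ 2 * q ^ 2 := by gcongr
  have h1q : (1 : ℝ) ≤ n ^ 2 * q ^ 2 := hn1.trans hnq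
  have f1 : q ^ n * (2 * n * δ) ≤ q ^ n * (n ^ 2 * q ^ 2 * (4 * δ)) := by
    have h3 : 2 * n * δ ≤ 2 * (n ^ 2 * q ^ 2) * δ := by gcongr
    have h4 : 0 ≤ (n : ℝ) ^ 2 * q ^ 2 * δ := by positivity
    have : 2 * n * δ ≤ n ^ 2 * q ^ 2 * (4 * δ) := by linarith
    gcongr
  have f2 : 2 * n * (((Mn K n).filter (fun A => Bad t n S m A)).card : ℝ) ≤
      q ^ n * (n ^ 2 * q ^ 2 * (6 * ε)) := by
    calc 2 * n * (((Mn K n).filter (fun A => Bad t n S m A)).card : ℝ) ≤
          2 * n * (q ^ n * ε + q ^ n * ε + q ^ n * (n * q ^ 2 * ε)) := by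
          have := cB.trans (by linarith : q ^ (n - t) + q ^ (n - t) + q ^ n * (n * q ^ 2 * ε) ≤
            q ^ n * ε + q ^ n * ε + q ^ n * (n * q ^ 2 * ε))
          gcongr
      _ = q ^ n * ε * (4 * n + 2 * (n ^ 2 * q ^ 2)) := by ring
      _ ≤ q ^ n * ε * (4 * (n ^ 2 * q ^ 2) + 2 * (n ^ 2 * q ^ 2)) := by gcongr
      _ = _ := by ring
  have f3 : 2 * q ^ (200 * t) * (((Mn K n).filter (fun A => derivative (m * A) = 0)).card : ℝ) ≤
      q ^ n * (n ^ 2 * q ^ 2 * (2 * ε)) := by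
    calc 2 * q ^ (200 * t) * (((Mn K n).filter (fun A => derivative (m * A) = 0)).card : ℝ) =
          2 * (q ^ (200 * t) *
            (((Mn K n).filter (fun A => derivative (m * A) = 0)).card : ℝ)) := by ring
      _ ≤ 2 * (q ^ n * ε) := by
          have := cZ.trans hε
          gcongr
      _ = q ^ n * (1 * (2 * ε)) := by ring
      _ ≤ _ := by gcongr
  have f4 : 0 ≤ q ^ n * (n ^ 2 * q ^ 2 * (8 * ε)) := by positivity
  calc _ ≤ q ^ n * (n ^ 2 * q ^ 2 * (4 * δ)) + q ^ n * (n ^ 2 * q ^ 2 * (6 * ε)) +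
        q ^ n * (n ^ 2 * q ^ 2 * (2 * ε)) := by linarith
    _ ≤ q ^ n * (n ^ 2 * q ^ 2 * (4 * δ)) + q ^ n * (n ^ 2 * q ^ 2 * (6 * ε)) +
        q ^ n * (n ^ 2 * q ^ 2 * (2 * ε)) + q ^ n * (n ^ 2 * q ^ 2 * (8 * ε)) := by linarith
    _ = _ := by ring

end per

/-- the final estimate -/
lemma fin_asym (q c : ℝ) (hq : 2 ≤ q) (hc : 0 < c) : ∃ c' : ℝ, 0 < c' ∧ ∃ n₁ : ℕ, ∀ n : ℕ,
    n₁ ≤ n → n * (q ^ n * ((n : ℝ) ^ 2 * q ^ 2 * (4 * q ^ (-c * n : ℝ) +
      17 * (1 / 2) ^ (n / 1000 / 3)))) ≤ q ^ ((1 - c') * n : ℝ) := by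
  have hq0 : 0 < q := by linarith
  have hlq : 0 < Real.log q := Real.log_pos (by linarith)
  have hl2 : 0 < Real.log 2 := Real.log_pos (by norm_num)
  set b : ℝ := min c (Real.log 2 / Real.log q / 3000) with hb
  have hb0 : 0 < b := by
    rw [hb]
    exact lt_min hc (by positivity)
  have hb1 : b ≤ c := min_le_left _ _
  have hb2 : b ≤ Real.log 2 / Real.log q / 3000 := min_le_right _ _
  have hr0 : 0 < q ^ (-(b / 2)) := by positivity
  have hr1 : q ^ (-(b / 2)) < 1 :=
    Real.rpow_lt_one_of_one_lt_of_neg (by linarith) (by linarith)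
  have ht := tendsto_pow_const_mul_const_pow_of_abs_lt_one 3 (r := q ^ (-(b / 2)))
    (by rw [abs_of_pos hr0]; exact hr1)
  have hev := ht.eventually (gt_mem_nhds (show (0 : ℝ) < 1 / (38 * q ^ 2) by positivity))
  obtain ⟨n₁, hn₁⟩ := Filter.eventually_atTop.1 hev
  refine ⟨b / 2, by linarith, n₁, fun n hn => ?_⟩
  have h1 := hn₁ n hn
  have hn0 : (0 : ℝ) ≤ n := Nat.cast_nonneg n
  have e1 : q ^ (-c * n : ℝ) ≤ q ^ (-b * n : ℝ) := by
    apply Real.rpow_le_rpow_of_exponent_le (by linarith)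
    nlinarith
  have e2 : (1 / 2 : ℝ) ^ (n / 1000 / 3) ≤ 2 * q ^ (-b * n : ℝ) := by
    have h2 : (n : ℝ) / 3000 - 1 ≤ ((n / 1000 / 3 : ℕ) : ℝ) := by
      have h3 : n ≤ 3000 * (n / 1000 / 3 + 1) := by omega
      have h4 : (n : ℝ) ≤ 3000 * (((n / 1000 / 3 : ℕ) : ℝ) + 1) := by exact_mod_cast h3
      linarith
    calc (1 / 2 : ℝ) ^ (n / 1000 / 3) = (1 / 2 : ℝ) ^ ((n / 1000 / 3 : ℕ) : ℝ) :=
          (Real.rpow_natCast _ _).symm
      _ ≤ (1 / 2 : ℝ) ^ ((n : ℝ) / 3000 - 1) :=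
          Real.rpow_le_rpow_of_exponent_ge (by norm_num) (by norm_num) h2
      _ = 2 * (1 / 2 : ℝ) ^ ((n : ℝ) / 3000) := by
          rw [Real.rpow_sub (by norm_num), Real.rpow_one]
          ring
      _ = 2 * q ^ (-(Real.log 2 / Real.log q / 3000) * n : ℝ) := by
          congr 1
          rw [Real.rpow_def_of_pos (by norm_num), Real.rpow_def_of_pos hq0, one_div, Real.log_inv]
          congr 1
          field_simp
      _ ≤ 2 * q ^ (-b * n : ℝ) := by
          have : q ^ (-(Real.log 2 / Real.log q / 3000) * n : ℝ) ≤ q ^ (-b * n : ℝ) := by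
            apply Real.rpow_le_rpow_of_exponent_le (by linarith)
            nlinarith
          linarith
  have e3 : q ^ (-b * n : ℝ) = (q ^ (-(b / 2))) ^ n * (q ^ (-(b / 2))) ^ n := by
    rw [← Real.rpow_natCast, ← Real.rpow_mul hq0.le, ← Real.rpow_add hq0]
    congr 1
    ring
  have e4 : q ^ ((1 - b / 2) * n : ℝ) = q ^ n * (q ^ (-(b / 2))) ^ n := by
    rw [← Real.rpow_natCast (q ^ (-(b / 2))), ← Real.rpow_mul hq0.le, ← Real.rpow_natCast q n,
      ← Real.rpow_add hq0]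
    congr 1
    ring
  set r := (q ^ (-(b / 2))) ^ n with hr
  have hrn : 0 < r := by rw [hr]; positivity
  have hqn : 0 < q ^ n := by positivity
  have h5 : 38 * q ^ 2 * ((n : ℝ) ^ 3 * r) ≤ 1 := by
    rw [lt_div_iff₀ (by positivity)] at h1
    linarith
  calc n * (q ^ n * ((n : ℝ) ^ 2 * q ^ 2 * (4 * q ^ (-c * n : ℝ) +
      17 * (1 / 2) ^ (n / 1000 / 3)))) ≤ n * (q ^ n * ((n : ℝ) ^ 2 * q ^ 2 *
        (4 * q ^ (-b * n : ℝ) + 17 * (2 * q ^ (-b * n : ℝ))))) := by gcongr
    _ = (q ^ n * r) * (38 * q ^ 2 * ((n : ℝ) ^ 3 * r)) := by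
        rw [e3]
        ring
    _ ≤ (q ^ n * r) * 1 := by gcongr
    _ = _ := by rw [e4, mul_one]

end WsumL

open WsumL in
/-- **Task WSUM.** -/
theorem wsum (hc : S_cov) (hf : S_fib) : S_wsum := by
  intro K _ _ _
  obtain ⟨c, hc0, n₀, hF⟩ := hf K (1 / 1000) (by norm_num)
  have hF' : FibK K (1 / 1000) c n₀ := hF
  have hq := q_ge (k := K)
  obtain ⟨c', hc', n₁, hfin⟩ := fin_asym (Fintype.card K : ℝ) c hq hc0
  refine ⟨c', 1 / 1000, hc', by norm_num, max n₀ (max n₁ 1000), ?_⟩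
  intro γ b M a₀ α ξ n φ hn hD hM hξ hφ hφ2
  have hn0 : n₀ ≤ n := (le_max_left _ _).trans hn
  have hn1 : n₁ ≤ n := ((le_max_left _ _).trans (le_max_right _ _)).trans hn
  have hn2 : 1000 ≤ n := ((le_max_right _ _).trans (le_max_right _ _)).trans hn
  have hfin' := hfin n hn1
  set t := n / 1000 with ht
  have ht1 : 1 ≤ t := by omega
  have htn : 1000 * t ≤ n := by omega
  have htn' : n < 1000 * (t + 1) := by omega
  have hcov := hc K n (200 * t) (40 * t) (by omega) (by omega) (by omega)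
  have hm : ∀ m ∈ Irr K (40 * t), _ := fun m hm =>
    per_m ht1 htn htn' hc0 hF' hn0 hD hM hξ hφ hφ2 hm
  set q := (Fintype.card K : ℝ) with hqdef
  set R := q ^ n * ((n : ℝ) ^ 2 * q ^ 2 * (4 * q ^ (-c * n) + 16 * (1 / 2) ^ (t / 3))) with hR
  set I : ℝ := ((Irr K (40 * t)).card : ℝ) with hI
  set lam := lamP K (200 * t) with hlam
  set p := fun A => pAx γ b M a₀ ξ A with hp
  set x := fun A => ∑ m ∈ Irr K (40 * t), (cntP K (200 * t) m A - lam) with hx
  set S := ∑ A ∈ Mn K n, φ A * p A with hS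
  have hq1 : (1 : ℝ) ≤ q := by linarith
  have hqn : 0 < q ^ n := by positivity
  -- the identity
  have hid : I * lam * S = ∑ m ∈ Irr K (40 * t), ∑ A ∈ Mn K n, φ A * p A * cntP K (200 * t) m A -
      ∑ A ∈ Mn K n, φ A * p A * x A := by
    rw [Finset.sum_comm, ← Finset.sum_sub_distrib, hS, Finset.mul_sum]
    refine Finset.sum_congr rfl fun A _ => ?_
    simp only [hx]
    rw [← Finset.mul_sum, Finset.sum_sub_distrib, Finset.sum_const, nsmul_eq_mul]
    ring
  have hI1 : (4 : ℝ) ^ t ≤ I := by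
    have h1 := Irr_ge (K := K) (a := 40 * t) (by omega)
    rw [← hqdef, ← hI] at h1
    have h2 : (2 : ℝ) ^ (40 * t) ≤ q ^ (40 * t) := by gcongr
    have h3 : (80 * t : ℕ) ≤ 2 ^ (38 * t) := by
      calc 80 * t ≤ 2 ^ 7 * 2 ^ t := Nat.mul_le_mul (by norm_num) Nat.lt_two_pow_self.le
        _ = 2 ^ (7 + t) := by rw [pow_add]
        _ ≤ 2 ^ (38 * t) := Nat.pow_le_pow_right (by norm_num) (by omega)
    have h4 : (80 * t : ℝ) ≤ 2 ^ (38 * t) := by exact_mod_cast h3
    have h5 : (4 : ℝ) ^ t * 2 ^ (38 * t) = 2 ^ (40 * t) := by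
      have : (4 : ℝ) ^ t = 2 ^ (2 * t) := by rw [pow_mul]; norm_num
      rw [this, ← pow_add]
      congr 1
      ring
    have h6 : (0 : ℝ) < 2 ^ (38 * t) := by positivity
    have h7 : (4 : ℝ) ^ t * 2 ^ (38 * t) ≤ I * 2 ^ (38 * t) := by
      calc (4 : ℝ) ^ t * 2 ^ (38 * t) = 2 ^ (40 * t) := h5
        _ ≤ q ^ (40 * t) := h2
        _ ≤ 2 * ((40 * t : ℕ) : ℝ) * I := h1
        _ = I * (80 * t) := by push_cast; ring
        _ ≤ _ := by gcongr
    exact le_of_mul_le_mul_right h7 h6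
  have hI0 : 0 < I := lt_of_lt_of_le (by positivity) hI1
  set J := Real.sqrt I with hJ
  have hJ0 : 0 < J := Real.sqrt_pos.2 hI0
  have hJ2 : J ^ 2 = I := Real.sq_sqrt hI0.le
  have hJ1 : (2 : ℝ) ^ t ≤ J := by
    rw [hJ]
    apply Real.le_sqrt_of_sq_le
    rw [← pow_mul, mul_comm t 2, pow_mul]
    norm_num
    exact hI1
  have hlam1 : 1 ≤ n * lam := by
    have h1 := Irr_ge (K := K) (a := 200 * t) (by omega)
    rw [← hqdef] at h1
    have h2 : lam = ((Irr K (200 * t)).card : ℝ) / q ^ (200 * t) := rfl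
    have h3 : 0 < q ^ (200 * t) := by positivity
    rw [h2, ← mul_div_assoc, le_div_iff₀ h3, one_mul]
    refine h1.trans ?_
    have h4 : 2 * ((200 * t : ℕ) : ℝ) ≤ n := by
      have : 2 * (200 * t) ≤ n := by omega
      exact_mod_cast this
    gcongr
  have hR0 : 0 ≤ R := by
    rw [hR]
    positivity
  -- the first part
  have p1 : |∑ A ∈ Mn K n, φ A * p A * x A| ≤ J * q ^ n := by
    have h1 : |∑ A ∈ Mn K n, φ A * p A * x A| ≤ ∑ A ∈ Mn K n, |x A| := by
      refine (Finset.abs_sum_le_sum_abs _ _).trans (Finset.sum_le_sum fun A _ => ?_)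
      rw [abs_mul, abs_mul]
      have h2 := hφ A
      have h3 : |p A| ≤ 1 := abs_pAx _ _ _ _ _ _
      calc |φ A| * |p A| * |x A| ≤ 1 * 1 * |x A| := by gcongr
        _ = _ := by ring
    refine h1.trans ?_
    have h2 := sq_sum_le_card_mul_sum_sq (s := Mn K n) (f := fun A => |x A|)
    rw [card_Mn] at h2
    have h3 : ∑ A ∈ Mn K n, |x A| ^ 2 = ∑ A ∈ Mn K n, x A ^ 2 :=
      Finset.sum_congr rfl fun A _ => sq_abs _
    rw [h3] at h2
    have h4 : (∑ A ∈ Mn K n, |x A|) ^ 2 ≤ (J * q ^ n) ^ 2 := by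
      refine h2.trans ?_
      push_cast
      rw [← hqdef]
      calc q ^ n * ∑ A ∈ Mn K n, x A ^ 2 ≤ q ^ n * (I * q ^ n) := by
            gcongr
        _ = _ := by rw [← hJ2]; ring
    have h5 : 0 ≤ ∑ A ∈ Mn K n, |x A| := Finset.sum_nonneg fun A _ => abs_nonneg _
    exact (sq_le_sq₀ h5 (by positivity)).1 h4
  -- the second part
  have p2 : |∑ m ∈ Irr K (40 * t), ∑ A ∈ Mn K n, φ A * p A * cntP K (200 * t) m A| ≤ I * R := by
    refine (Finset.abs_sum_le_sum_abs _ _).trans ((Finset.sum_le_sum hm).trans ?_)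
    rw [Finset.sum_const, nsmul_eq_mul]
  have p3 : I * lam * |S| ≤ I * R + J * q ^ n := by
    have hlam0 : 0 ≤ lam := by
      by_contra hcon
      have : (n : ℝ) * lam ≤ 0 := mul_nonpos_of_nonneg_of_nonpos (Nat.cast_nonneg n) (by linarith)
      linarith
    have h1 : I * lam * |S| = |I * lam * S| := by
      rw [abs_mul, abs_of_nonneg (mul_nonneg hI0.le hlam0)]
    rw [h1, hid]
    refine (abs_sub _ _).trans ?_
    linarith
  have p4 : J * (lam * |S|) ≤ J * R + q ^ n := by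
    have h1 : J * (J * (lam * |S|)) ≤ J * (J * R + q ^ n) := by
      calc J * (J * (lam * |S|)) = I * lam * |S| := by rw [← hJ2]; ring
        _ ≤ _ := p3
        _ = _ := by rw [← hJ2]; ring
    exact le_of_mul_le_mul_left h1 hJ0
  have p5 : q ^ n ≤ J * (q ^ n * (1 / 2) ^ (t / 3)) := by
    have h1 : (1 : ℝ) ≤ J * (1 / 2) ^ (t / 3) := by
      calc (1 : ℝ) = 2 ^ t * (1 / 2) ^ t := by
            rw [← mul_pow]
            norm_num
        _ ≤ J * (1 / 2) ^ (t / 3) := by
            have h5 : (1 / 2 : ℝ) ^ t ≤ (1 / 2) ^ (t / 3) :=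
              pow_le_pow_of_le_one (by norm_num) (by norm_num) (by omega)
            gcongr
    calc q ^ n = q ^ n * 1 := (mul_one _).symm
      _ ≤ q ^ n * (J * (1 / 2) ^ (t / 3)) := by gcongr
      _ = _ := by ring
  have p6 : lam * |S| ≤ R + q ^ n * (1 / 2) ^ (t / 3) := by
    have h1 : J * (lam * |S|) ≤ J * (R + q ^ n * (1 / 2) ^ (t / 3)) := by
      rw [mul_add]
      linarith
    exact le_of_mul_le_mul_left h1 hJ0
  have hn' : (1 : ℝ) ≤ n := by exact_mod_cast (show 1 ≤ n by omega)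
  have p7 : |S| ≤ n * (R + q ^ n * (1 / 2) ^ (t / 3)) := by
    calc |S| = 1 * |S| := (one_mul _).symm
      _ ≤ n * lam * |S| := by gcongr
      _ = n * (lam * |S|) := by ring
      _ ≤ _ := by gcongr
  refine p7.trans (le_trans ?_ hfin')
  have h8 : R + q ^ n * (1 / 2) ^ (t / 3) ≤ q ^ n * ((n : ℝ) ^ 2 * q ^ 2 *
      (4 * q ^ (-c * n : ℝ) + 17 * (1 / 2) ^ (t / 3))) := by
    have h9 : (1 : ℝ) ≤ (n : ℝ) ^ 2 * q ^ 2 := by
      have h10 : 1 ≤ (n : ℝ) ^ 2 := one_le_pow₀ hn'
      have h11 : 1 ≤ q ^ 2 := one_le_pow₀ hq1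
      nlinarith
    have h12 : q ^ n * (1 / 2) ^ (t / 3) ≤ (n : ℝ) ^ 2 * q ^ 2 * (q ^ n * (1 / 2) ^ (t / 3)) :=
      le_mul_of_one_le_left (by positivity) h9
    rw [hR]
    calc _ ≤ q ^ n * ((n : ℝ) ^ 2 * q ^ 2 * (4 * q ^ (-c * n) + 16 * (1 / 2) ^ (t / 3))) +
          (n : ℝ) ^ 2 * q ^ 2 * (q ^ n * (1 / 2) ^ (t / 3)) := by linarith
      _ = _ := by ring
  gcongr

end Pool.Agent.H604.LD
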