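import Pool.Agent.H604.LD.FinP
import Pool.Agent.H604.LD.HidG
import Pool.Agent.H604.LD.Far1U
import Pool.Agent.H604.LD.Far2U
import Pool.Agent.H604.LD.WeylU
import Pool.Agent.H604.LD.NearP
import Pool.Agent.H604.LD.Wsum
import Pool.Agent.H604.LD.Cov
import Pool.Agent.H604.LD.BhqP
import Pool.Agent.H604.LD.StmF
import Pool.Agent.H604.LD.Final
import Pool.Agent.H524.LD.ParInfG

/-!
# The uniform theorem with power saving, from the fibre bound (helper604)
-/

set_option autoImplicit false

namespace Pool.Agent.H604.LD

/-- The uniform theorem with power saving, from the fibre bound. -/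
theorem landaup_of_fib (hf : S_fib) : S_landaup :=
  ldfinp hidg far1u (far2u (weylu Pool.Agent.H524.LD.s_parinfg Pool.Agent.H914.FC.gcs))
    (nearp (wsum cov hf))

end Pool.Agent.H604.LD
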