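import Pool.Agent.H604.LD.WeylM
import Pool.Agent.H604.LD.Deg
import Pool.Agent.H604.LD.CubeM
import Pool.Agent.H604.LD.FinM
import Pool.Agent.H604.LD.Final
import Pool.Agent.H524.LD.ParInfG

/-!
# The dichotomy for the products of the `μ(a² + c_i)`, `q` even (helper604)
-/

set_option autoImplicit false

namespace Pool.Agent.H604.LD

/-- **The dichotomy.** -/
theorem s_dich : S_dich :=
  finm (weylm Pool.Agent.H524.LD.s_parinfg cubem0 cubem1 Pool.Agent.H914.FC.gcs)
    (deg Pool.Agent.H524.LD.s_parinfg)

end Pool.Agent.H604.LD
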