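import Pool.Agent.H604.LD.StmG
import Pool.Agent.H604.LD.Hyp

/-!
# Task HYPG: equidistribution on the hyperbola, two moduli, arbitrary unit (helper553)
-/

set_option autoImplicit false
set_option linter.unusedSectionVars false

namespace Pool.Agent.H604.LD

open Polynomial
open Pool.Agent.H985.KP (sg PA pol S_weil)
open Pool.Agent.H985.Chow (S_cmp)
open Pool.Agent.H985.Chow.Win (psiK psiK_apply psiK_ne card_P facs)

namespace HypGAux

open HypAux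

section glob

variable {K : Type} [Field K] [Fintype K] [CharP K 2]

noncomputable local instance ftU (L : ℕ) : Fintype (degreeLT K L) := Fintype.ofFinite _

variable {E₁ E₂ : K[X]} {T : Finset K[X]} (hT : ∀ P ∈ T, P.Monic ∧ Irreducible P)
  (hE₁ : ∀ P ∈ T, ¬ P ∣ E₁) (hE₂ : ∀ P ∈ T, ¬ P ∣ E₂)
include hT hE₁ hE₂

lemma halfG (hcmp : S_cmp) (hne : T.Nonempty) [inst : ∀ i : {P // P ∈ T}, Fact (Irreducible i.1)]
    {L₁ L₂ : ℕ} (hL : ∑ P ∈ T, P.natDegree ≤ L₁) (a b : ∀ i : {P // P ∈ T}, AdjoinRoot i.1) :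
    |∑ x : degreeLT K L₁, ∑ y : degreeLT K L₂, ∏ i : {P // P ∈ T},
      gF (a i + ph1 E₁ L₁ i.1 x, b i + ph1 E₂ L₂ i.1 y)| ≤ (Fintype.card K : ℝ) ^ (L₁ - L₂) := by
  classical
  have hq : (1 : ℝ) ≤ Fintype.card K := by exact_mod_cast Nat.succ_le_of_lt Fintype.card_pos
  have hq0 : (0 : ℝ) < Fintype.card K := by linarith
  have h1 : ∑ x : degreeLT K L₁, ∑ y : degreeLT K L₂, ∏ i : {P // P ∈ T},
      gF (a i + ph1 E₁ L₁ i.1 x, b i + ph1 E₂ L₂ i.1 y) =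
      (Fintype.card K : ℝ) ^ L₁ / (Fintype.card K : ℝ) ^ (∑ P ∈ T, P.natDegree) *
        ∑ y : degreeLT K L₂, ∏ i : {P // P ∈ T}, hF (b i + ph1 E₂ L₂ i.1 y) := by
    rw [Finset.sum_comm, Finset.mul_sum]
    refine Finset.sum_congr rfl fun y _ => ?_
    have h2 := row hT hE₁ hL (fun i t => gF (t, b i + ph1 E₂ L₂ i.1 y)) a
    simp only [sum_g_left] at h2
    exact h2
  rw [h1]
  rcases le_total L₂ (∑ P ∈ T, P.natDegree) with h | h
  · rw [abs_mul, abs_of_pos (by positivity)]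
    calc (Fintype.card K : ℝ) ^ L₁ / (Fintype.card K : ℝ) ^ (∑ P ∈ T, P.natDegree) *
        |∑ y : degreeLT K L₂, ∏ i : {P // P ∈ T}, hF (b i + ph1 E₂ L₂ i.1 y)| ≤
        (Fintype.card K : ℝ) ^ L₁ / (Fintype.card K : ℝ) ^ (∑ P ∈ T, P.natDegree) * 1 :=
          mul_le_mul_of_nonneg_left (col hT hE₂ hcmp h b) (by positivity)
      _ = (Fintype.card K : ℝ) ^ (L₁ - ∑ P ∈ T, P.natDegree) := by
          rw [mul_one, pow_sub₀ _ hq0.ne' hL, div_eq_mul_inv]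
      _ ≤ _ := pow_le_pow_right₀ hq (by omega)
  · have h3 := row hT hE₂ h (fun i t => hF t) b
    have h4 : ∏ i : {P // P ∈ T}, ∑ t : AdjoinRoot i.1, hF t = 0 := by
      obtain ⟨P, hP⟩ := hne
      exact Finset.prod_eq_zero (Finset.mem_univ ⟨P, hP⟩) sum_h
    rw [h3, h4, mul_zero, mul_zero, abs_zero]
    positivity

lemma partG (hcmp : S_cmp) {C : ℝ}
    (hC : ∀ (F : Type) [Field F] [Fintype F] [CharP F 2] (m : ℕ), m ≤ 1 →
    ∀ (r γ : Fin m → F), Function.Injective r → (∃ i, γ i ≠ 0) → ∀ ξ η : F,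
      |∑ x, pol r γ ξ η x| ≤ C * Real.sqrt (Fintype.card F)) (hC1 : 1 ≤ C)
    (hne : T.Nonempty) [inst : ∀ i : {P // P ∈ T}, Fact (Irreducible i.1)]
    (L₁ L₂ : ℕ) (a b : ∀ i : {P // P ∈ T}, AdjoinRoot i.1) :
    |∑ x : degreeLT K L₁, ∑ y : degreeLT K L₂, ∏ i : {P // P ∈ T},
      gF (a i + ph1 E₁ L₁ i.1 x, b i + ph1 E₂ L₂ i.1 y)| ≤
      C ^ T.card * ((Fintype.card K : ℝ) ^ (((∑ P ∈ T, P.natDegree : ℕ) : ℝ) / 2) +
        (Fintype.card K : ℝ) ^ ((L₁ - L₂) + (L₂ - L₁))) := by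
  classical
  have hq : (1 : ℝ) ≤ Fintype.card K := by exact_mod_cast Nat.succ_le_of_lt Fintype.card_pos
  have hq0 : (0 : ℝ) < Fintype.card K := by linarith
  have hCT : 1 ≤ C ^ T.card := one_le_pow₀ hC1
  have hr : 0 ≤ (Fintype.card K : ℝ) ^ (((∑ P ∈ T, P.natDegree : ℕ) : ℝ) / 2) :=
    Real.rpow_nonneg hq0.le _
  have hfin : ∀ n : ℕ, n ≤ (L₁ - L₂) + (L₂ - L₁) → (Fintype.card K : ℝ) ^ n ≤
      C ^ T.card * ((Fintype.card K : ℝ) ^ (((∑ P ∈ T, P.natDegree : ℕ) : ℝ) / 2) +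
        (Fintype.card K : ℝ) ^ ((L₁ - L₂) + (L₂ - L₁))) := by
    intro n hn
    have h1 : (Fintype.card K : ℝ) ^ n ≤ (Fintype.card K : ℝ) ^ ((L₁ - L₂) + (L₂ - L₁)) :=
      pow_le_pow_right₀ hq hn
    have h2 : 0 < (Fintype.card K : ℝ) ^ ((L₁ - L₂) + (L₂ - L₁)) := by positivity
    nlinarith
  by_cases h1 : ∑ P ∈ T, P.natDegree ≤ L₁
  · exact (halfG hT hE₁ hE₂ hcmp hne h1 a b).trans (hfin _ (by omega))
  by_cases h2 : ∑ P ∈ T, P.natDegree ≤ L₂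
  · have h3 := halfG hT hE₂ hE₁ hcmp hne (L₂ := L₁) h2 b a
    have h4 : ∑ x : degreeLT K L₁, ∑ y : degreeLT K L₂, ∏ i : {P // P ∈ T},
        gF (a i + ph1 E₁ L₁ i.1 x, b i + ph1 E₂ L₂ i.1 y) =
        ∑ y : degreeLT K L₂, ∑ x : degreeLT K L₁, ∏ i : {P // P ∈ T},
        gF (b i + ph1 E₂ L₂ i.1 y, a i + ph1 E₁ L₁ i.1 x) := by
      rw [Finset.sum_comm]
      refine Finset.sum_congr rfl fun y _ => Finset.sum_congr rfl fun x _ =>
        Finset.prod_congr rfl fun i _ => gF_symm _ _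
    rw [h4]
    exact h3.trans (hfin _ (by omega))
  · push Not at h1 h2
    have h3 := hcmp {P // P ∈ T} (fun i => AdjoinRoot i.1 × AdjoinRoot i.1)
      (degreeLT K L₁ × degreeLT K L₂)
      (fun i => (ph1 E₁ L₁ i.1).prodMap (ph1 E₂ L₂ i.1)) (fun i v => (gF v : ℂ)) ∅
      (fun u hu => by
        have h5 : ∀ P (hP : P ∈ T), (ph1 E₁ L₁ P u.1, ph1 E₂ L₂ P u.2) = 0 := fun P hP =>
          hu ⟨P, hP⟩ (Finset.notMem_empty _)
        exact Prod.ext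
          (ph1_inj hT hE₁ h1.le u.1 fun P hP => congrArg Prod.fst (h5 P hP))
          (ph1_inj hT hE₂ h2.le u.2 fun P hP => congrArg Prod.snd (h5 P hP)))
      (fun i => C * Real.sqrt (Fintype.card (AdjoinRoot i.1)))
      (fun i => by positivity)
      (fun i _ χ => hat_g hC hC1 χ)
      (fun i hi => absurd hi (Finset.notMem_empty _)) (fun i => (a i, b i))
    have h4 : ((∑ x : degreeLT K L₁, ∑ y : degreeLT K L₂, ∏ i : {P // P ∈ T},
        gF (a i + ph1 E₁ L₁ i.1 x, b i + ph1 E₂ L₂ i.1 y) : ℝ) : ℂ) =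
        ∑ u : degreeLT K L₁ × degreeLT K L₂, ∏ i : {P // P ∈ T},
          (gF ((a i, b i) + (ph1 E₁ L₁ i.1).prodMap (ph1 E₂ L₂ i.1) u) : ℂ) := by
      rw [Fintype.sum_prod_type]
      push_cast
      rfl
    rw [← Real.norm_eq_abs, ← Complex.norm_real, h4]
    refine h3.trans ?_
    rw [Finset.prod_mul_distrib, sqrt_prod hT hE₁, Finset.prod_const, Finset.card_univ,
      Fintype.card_coe]
    have h5 : 0 < (Fintype.card K : ℝ) ^ ((L₁ - L₂) + (L₂ - L₁)) := by positivity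
    exact mul_le_mul_of_nonneg_left (by linarith) (by positivity)

end glob

section asm

variable {K : Type} [Field K] [Fintype K] [CharP K 2]

noncomputable local instance ftU' (L : ℕ) : Fintype (degreeLT K L) := Fintype.ofFinite _

/-- the sum over the box for a set of primes -/
noncomputable def SG (E₁ E₂ t₀ w₀ : K[X]) (L₁ L₂ : ℕ) (T : Finset K[X]) : ℝ :=
  ∑ x : degreeLT K L₁, ∑ y : degreeLT K L₂, ∏ P ∈ T, GG P (t₀ + E₁ * x.1) (w₀ + E₂ * y.1)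

lemma SG_le (hcmp : S_cmp) {C : ℝ}
    (hC : ∀ (F : Type) [Field F] [Fintype F] [CharP F 2] (m : ℕ), m ≤ 1 →
    ∀ (r γ : Fin m → F), Function.Injective r → (∃ i, γ i ≠ 0) → ∀ ξ η : F,
      |∑ x, pol r γ ξ η x| ≤ C * Real.sqrt (Fintype.card F)) (hC1 : 1 ≤ C)
    {E₁ E₂ t₀ w₀ : K[X]} {L₁ L₂ : ℕ} {T : Finset K[X]} (hT : ∀ P ∈ T, P.Monic ∧ Irreducible P)
    (hE₁ : ∀ P ∈ T, ¬ P ∣ E₁) (hE₂ : ∀ P ∈ T, ¬ P ∣ E₂) (hne : T.Nonempty) :
    |SG E₁ E₂ t₀ w₀ L₁ L₂ T| ≤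
      C ^ T.card * ((Fintype.card K : ℝ) ^ (((∑ P ∈ T, P.natDegree : ℕ) : ℝ) / 2) +
        (Fintype.card K : ℝ) ^ ((L₁ - L₂) + (L₂ - L₁))) := by
  have inst : ∀ i : {P // P ∈ T}, Fact (Irreducible i.1) := fun i => ⟨(hT i.1 i.2).2⟩
  have h1 := partG hT hE₁ hE₂ hcmp hC hC1 hne L₁ L₂ (fun i => AdjoinRoot.mk i.1 t₀)
    (fun i => AdjoinRoot.mk i.1 w₀)
  have h2 : SG E₁ E₂ t₀ w₀ L₁ L₂ T = ∑ x : degreeLT K L₁, ∑ y : degreeLT K L₂,
      ∏ i : {P // P ∈ T}, gF (AdjoinRoot.mk i.1 t₀ + ph1 E₁ L₁ i.1 x,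
        AdjoinRoot.mk i.1 w₀ + ph1 E₂ L₂ i.1 y) := by
    unfold SG
    refine Finset.sum_congr rfl fun x _ => Finset.sum_congr rfl fun y _ => ?_
    rw [← Finset.prod_coe_sort T (fun P => GG P (t₀ + E₁ * x.1) (w₀ + E₂ * y.1))]
    refine Finset.prod_congr rfl fun i _ => ?_
    rw [GG_eq, map_add, map_add]
    rfl
  rw [h2]
  exact h1

end asm

end HypGAux

open HypAux HypGAux in
/-- **Task HYPG.** -/
theorem hypg (hw : Pool.Agent.H985.KP.S_weil) : S_hypg := by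
  classical
  intro K _ _ _
  obtain ⟨C, hC1, hC⟩ := hw 1
  have hcmp : S_cmp := Pool.Agent.H985.Chow.cmp
  have hq : (1 : ℝ) ≤ Fintype.card K := by exact_mod_cast Nat.succ_le_of_lt Fintype.card_pos
  have hq0 : (0 : ℝ) < Fintype.card K := by linarith
  refine ⟨1 + C, by linarith, ?_⟩
  intro m E₁ E₂ t₀ w₀ L₁ L₂ hm hsq hcop₁ hcop₂
  obtain ⟨I, hI, hprod⟩ := facs hm hsq
  have hT : ∀ P ∈ I, P.Monic ∧ Irreducible P := fun P hP => ⟨((hI P).1 hP).1, ((hI P).1 hP).2.1⟩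
  have hE₁ : ∀ P ∈ I, ¬ P ∣ E₁ := by
    intro P hP hd
    have h1 := (hI P).1 hP
    exact h1.2.1.not_isUnit (hcop₁.isUnit_of_dvd' hd h1.2.2)
  have hE₂ : ∀ P ∈ I, ¬ P ∣ E₂ := by
    intro P hP hd
    have h1 := (hI P).1 hP
    exact h1.2.1.not_isUnit (hcop₂.isUnit_of_dvd' hd h1.2.2)
  have hPA : PA m = (I : Set K[X]) := by
    ext P
    rw [Finset.mem_coe, hI]
    rfl
  have hdeg : m.natDegree = ∑ P ∈ I, P.natDegree := by
    rw [← hprod]
    exact natDegree_prod_of_monic _ _ fun P hP => (hT P hP).1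
  -- the count
  let ft : ∀ L : ℕ, Fintype (degreeLT K L) := fun L => Fintype.ofFinite _
  have hcount : (({p : K[X] × K[X] | p.1.degree < (L₁ : WithBot ℕ) ∧
      p.2.degree < (L₂ : WithBot ℕ) ∧ m ∣ (t₀ + E₁ * p.1) * (w₀ + E₂ * p.2) - 1}.ncard : ℕ) : ℝ) =
      ∑ x : degreeLT K L₁, ∑ y : degreeLT K L₂,
        if m ∣ (t₀ + E₁ * x.1) * (w₀ + E₂ * y.1) - 1 then (1 : ℝ) else 0 := by
    have h1 : {p : K[X] × K[X] | p.1.degree < (L₁ : WithBot ℕ) ∧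
        p.2.degree < (L₂ : WithBot ℕ) ∧ m ∣ (t₀ + E₁ * p.1) * (w₀ + E₂ * p.2) - 1} =
        (fun u : degreeLT K L₁ × degreeLT K L₂ => ((u.1.1, u.2.1) : K[X] × K[X])) ''
          ((Finset.univ.filter fun u : degreeLT K L₁ × degreeLT K L₂ =>
            m ∣ (t₀ + E₁ * u.1.1) * (w₀ + E₂ * u.2.1) - 1 : Finset _) : Set _) := by
      ext p
      constructor
      · rintro ⟨h2, h3, h4⟩
        refine ⟨(⟨p.1, mem_degreeLT.2 h2⟩, ⟨p.2, mem_degreeLT.2 h3⟩), ?_, rfl⟩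
        rw [Finset.mem_coe, Finset.mem_filter]
        exact ⟨Finset.mem_univ _, h4⟩
      · rintro ⟨u, hu, rfl⟩
        rw [Finset.mem_coe, Finset.mem_filter] at hu
        exact ⟨mem_degreeLT.1 u.1.2, mem_degreeLT.1 u.2.2, hu.2⟩
    have h2 : Function.Injective
        (fun u : degreeLT K L₁ × degreeLT K L₂ => ((u.1.1, u.2.1) : K[X] × K[X])) := by
      intro u v huv
      exact Prod.ext (Subtype.ext (congrArg Prod.fst huv)) (Subtype.ext (congrArg Prod.snd huv))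
    rw [h1, Set.ncard_image_of_injective _ h2, Set.ncard_coe_finset, Finset.card_filter]
    push_cast
    rw [Fintype.sum_prod_type]
  -- the expansion
  have hexp : ∀ a b : K[X], (if m ∣ a * b - 1 then (1 : ℝ) else 0) =
      ∑ T ∈ I.powerset, (∏ P ∈ T, GG P a b) * ∏ P ∈ I \ T, dd P := by
    intro a b
    rw [← Finset.prod_add]
    have h1 : ∀ P ∈ I, GG P a b + dd P = if P ∣ a * b - 1 then (1 : ℝ) else 0 := by
      intro P _
      unfold GG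
      ring
    rw [Finset.prod_congr rfl h1]
    by_cases h2 : m ∣ a * b - 1
    · rw [if_pos h2]
      symm
      apply Finset.prod_eq_one
      intro P hP
      rw [if_pos (((hI P).1 hP).2.2.trans h2)]
    · rw [if_neg h2]
      symm
      rw [Finset.prod_eq_zero_iff]
      by_contra hc
      push Not at hc
      apply h2
      rw [← hprod]
      apply Finset.prod_dvd_of_coprime
      · intro P hP Q hQ hPQ
        rw [Finset.mem_coe] at hP hQ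
        show IsCoprime P Q
        rw [(hT P hP).2.coprime_iff_not_dvd]
        intro hd
        exact hPQ (eq_of_monic_of_associated (hT P hP).1 (hT Q hQ).1
          ((hT P hP).2.associated_of_dvd (hT Q hQ).2 hd))
      · intro P hP
        by_contra h3
        exact hc P hP (if_neg h3)
  have hsum : ∑ x : degreeLT K L₁, ∑ y : degreeLT K L₂,
      (if m ∣ (t₀ + E₁ * x.1) * (w₀ + E₂ * y.1) - 1 then (1 : ℝ) else 0) =
      ∑ T ∈ I.powerset, SG E₁ E₂ t₀ w₀ L₁ L₂ T * ∏ P ∈ I \ T, dd P := by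
    unfold SG
    simp only [hexp]
    simp only [Finset.sum_mul]
    have h1 : ∀ x : degreeLT K L₁, ∑ y : degreeLT K L₂, ∑ T ∈ I.powerset,
        (∏ P ∈ T, GG P (t₀ + E₁ * x.1) (w₀ + E₂ * y.1)) * ∏ P ∈ I \ T, dd P =
        ∑ T ∈ I.powerset, ∑ y : degreeLT K L₂,
        (∏ P ∈ T, GG P (t₀ + E₁ * x.1) (w₀ + E₂ * y.1)) * ∏ P ∈ I \ T, dd P :=
      fun x => Finset.sum_comm
    simp only [h1]
    exact Finset.sum_comm
  have hempty : SG E₁ E₂ t₀ w₀ L₁ L₂ ∅ * ∏ P ∈ I \ ∅, dd P =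
      (Fintype.card K : ℝ) ^ (L₁ + L₂) / (Fintype.card K : ℝ) ^ m.natDegree *
        ∏ᶠ P ∈ PA m, (1 - 1 / (Fintype.card K : ℝ) ^ P.natDegree) := by
    have h1 : SG E₁ E₂ t₀ w₀ L₁ L₂ ∅ = (Fintype.card K : ℝ) ^ (L₁ + L₂) := by
      unfold SG
      simp only [Finset.prod_empty, Finset.sum_const, Finset.card_univ, nsmul_eq_mul, mul_one]
      have c1 := card_U (K := K) L₁
      have c2 := card_U (K := K) L₂
      rw [c1, c2, pow_add]
      push_cast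
      ring
    have h2 : ∏ P ∈ I, dd P = (∏ P ∈ I, (1 - 1 / (Fintype.card K : ℝ) ^ P.natDegree)) /
        (Fintype.card K : ℝ) ^ m.natDegree := by
      rw [hdeg, ← Finset.prod_pow_eq_pow_sum, ← Finset.prod_div_distrib]
      refine Finset.prod_congr rfl fun P _ => ?_
      unfold dd
      have h3 : (Fintype.card K : ℝ) ^ P.natDegree ≠ 0 := (pow_pos hq0 _).ne'
      field_simp
    rw [h1, Finset.sdiff_empty, h2, hPA, finprod_mem_coe_finset]
    ring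
  rw [hcount, hsum, ← hempty,
    ← Finset.add_sum_erase _ _ (Finset.empty_mem_powerset I), add_sub_cancel_left]
  have hR : 0 ≤ (Fintype.card K : ℝ) ^ ((m.natDegree : ℝ) / 2) +
      (Fintype.card K : ℝ) ^ ((L₁ - L₂) + (L₂ - L₁)) :=
    add_nonneg (Real.rpow_nonneg hq0.le _) (by positivity)
  calc |∑ T ∈ I.powerset.erase ∅, SG E₁ E₂ t₀ w₀ L₁ L₂ T * ∏ P ∈ I \ T, dd P|
      ≤ ∑ T ∈ I.powerset.erase ∅, |SG E₁ E₂ t₀ w₀ L₁ L₂ T * ∏ P ∈ I \ T, dd P| :=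
        Finset.abs_sum_le_sum_abs _ _
    _ ≤ ∑ T ∈ I.powerset.erase ∅, C ^ T.card * ((Fintype.card K : ℝ) ^ ((m.natDegree : ℝ) / 2) +
          (Fintype.card K : ℝ) ^ ((L₁ - L₂) + (L₂ - L₁))) := by
        refine Finset.sum_le_sum fun T hT' => ?_
        obtain ⟨hT0, hTI⟩ := Finset.mem_erase.1 hT'
        rw [Finset.mem_powerset] at hTI
        have h1 := SG_le hcmp hC hC1 (t₀ := t₀) (w₀ := w₀) (L₁ := L₁) (L₂ := L₂)
          (fun P hP => hT P (hTI hP)) (fun P hP => hE₁ P (hTI hP)) (fun P hP => hE₂ P (hTI hP))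
          (Finset.nonempty_iff_ne_empty.2 hT0)
        have h2 : ∏ P ∈ I \ T, dd P ≤ 1 :=
          Finset.prod_le_one (fun P _ => dd_nonneg P) fun P _ => dd_le P
        have h3 : 0 ≤ ∏ P ∈ I \ T, dd P := Finset.prod_nonneg fun P _ => dd_nonneg P
        have h4 : (Fintype.card K : ℝ) ^ (((∑ P ∈ T, P.natDegree : ℕ) : ℝ) / 2) ≤
            (Fintype.card K : ℝ) ^ ((m.natDegree : ℝ) / 2) := by
          apply Real.rpow_le_rpow_of_exponent_le hq
          have h5 : ∑ P ∈ T, P.natDegree ≤ m.natDegree := by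
            rw [hdeg]
            exact Finset.sum_le_sum_of_subset hTI
          have h6 : ((∑ P ∈ T, P.natDegree : ℕ) : ℝ) ≤ (m.natDegree : ℝ) := by exact_mod_cast h5
          linarith
        rw [abs_mul, abs_of_nonneg h3]
        calc |SG E₁ E₂ t₀ w₀ L₁ L₂ T| * ∏ P ∈ I \ T, dd P ≤ |SG E₁ E₂ t₀ w₀ L₁ L₂ T| * 1 :=
              mul_le_mul_of_nonneg_left h2 (abs_nonneg _)
          _ = |SG E₁ E₂ t₀ w₀ L₁ L₂ T| := mul_one _
          _ ≤ _ := h1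
          _ ≤ _ := mul_le_mul_of_nonneg_left (by linarith) (by positivity)
    _ ≤ ∑ T ∈ I.powerset, C ^ T.card * ((Fintype.card K : ℝ) ^ ((m.natDegree : ℝ) / 2) +
          (Fintype.card K : ℝ) ^ ((L₁ - L₂) + (L₂ - L₁))) :=
        Finset.sum_le_sum_of_subset_of_nonneg (Finset.erase_subset _ _) fun T _ _ =>
          mul_nonneg (by positivity) hR
    _ = (1 + C) ^ (PA m).ncard * ((Fintype.card K : ℝ) ^ ((m.natDegree : ℝ) / 2) +
          (Fintype.card K : ℝ) ^ ((L₁ - L₂) + (L₂ - L₁))) := by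
        rw [← Finset.sum_mul, hPA, Set.ncard_coe_finset]
        congr 1
        have h1 := Finset.sum_pow_mul_eq_add_pow C 1 I
        simp only [one_pow, mul_one] at h1
        rw [h1, add_comm]

/-- The same with an arbitrary unit. -/
def S_hypu : Prop :=
  ∀ (K : Type) [Field K] [Fintype K] [CharP K 2], ∃ M : ℝ, 1 ≤ M ∧
    ∀ (m E₁ E₂ t₀ w₀ c : K[X]) (L₁ L₂ : ℕ), m.Monic → Squarefree m → IsCoprime E₁ m →
      IsCoprime E₂ m → IsCoprime c m →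
      |(({p : K[X] × K[X] | p.1.degree < (L₁ : WithBot ℕ) ∧ p.2.degree < (L₂ : WithBot ℕ) ∧
          m ∣ (t₀ + E₁ * p.1) * (w₀ + E₂ * p.2) - c}.ncard : ℝ)) -
        (Fintype.card K : ℝ) ^ (L₁ + L₂) / (Fintype.card K : ℝ) ^ m.natDegree *
          ∏ᶠ P ∈ PA m, (1 - 1 / (Fintype.card K : ℝ) ^ P.natDegree)| ≤
        M ^ (PA m).ncard * ((Fintype.card K : ℝ) ^ ((m.natDegree : ℝ) / 2) +
          (Fintype.card K : ℝ) ^ ((L₁ - L₂) + (L₂ - L₁)))

theorem hypu_of (h : S_hypg) : S_hypu := by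
  intro K _ _ _
  obtain ⟨M, hM, h1⟩ := h K
  refine ⟨M, hM, ?_⟩
  intro m E₁ E₂ t₀ w₀ c L₁ L₂ hm hsq hcop₁ hcop₂ hc
  obtain ⟨u, v, huv⟩ := hc
  -- `u * c + v * m = 1`
  have hu : IsCoprime u m := ⟨c, v, by rw [← huv]; ring⟩
  have h2 := h1 m (u * E₁) E₂ (u * t₀) w₀ L₁ L₂ hm hsq (hu.mul_left hcop₁) hcop₂
  have h3 : {p : K[X] × K[X] | p.1.degree < (L₁ : WithBot ℕ) ∧ p.2.degree < (L₂ : WithBot ℕ) ∧
      m ∣ (t₀ + E₁ * p.1) * (w₀ + E₂ * p.2) - c} =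
      {p : K[X] × K[X] | p.1.degree < (L₁ : WithBot ℕ) ∧ p.2.degree < (L₂ : WithBot ℕ) ∧
      m ∣ (u * t₀ + u * E₁ * p.1) * (w₀ + E₂ * p.2) - 1} := by
    ext p
    simp only [Set.mem_ofPred_eq]
    have e1 : (u * t₀ + u * E₁ * p.1) * (w₀ + E₂ * p.2) - 1 =
        u * ((t₀ + E₁ * p.1) * (w₀ + E₂ * p.2) - c) - m * v := by
      linear_combination huv
    have e2 : m ∣ (u * t₀ + u * E₁ * p.1) * (w₀ + E₂ * p.2) - 1 ↔
        m ∣ (t₀ + E₁ * p.1) * (w₀ + E₂ * p.2) - c := by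
      rw [e1]
      constructor
      · intro h4
        have h5 : m ∣ u * ((t₀ + E₁ * p.1) * (w₀ + E₂ * p.2) - c) := by
          have h6 := dvd_add h4 (dvd_mul_right m v)
          rwa [sub_add_cancel] at h6
        exact hu.symm.dvd_of_dvd_mul_left h5
      · intro h4
        exact dvd_sub (h4.mul_left u) (dvd_mul_right m v)
    rw [e2]
  rw [h3]
  exact h2

theorem hypu (hw : Pool.Agent.H985.KP.S_weil) : S_hypu := hypu_of (hypg hw)

end Pool.Agent.H604.LD
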