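import Pool.Agent.H604.LD.StmG
import Pool.Agent.H604.LD.Near

/-!
# Primes `a ^ 2 + c` over `F_q[X]`, `q` even: the near sums, general case (task NEARG)
-/

set_option autoImplicit false

namespace Pool.Agent.H604.LD

open Polynomial
open scoped Classical
open Pool.Agent.H985.Chow (mob lc)
open Pool.Agent.H985.KP (sg PA mobg Good2 S_typ2)
open Pool.Agent.H985.FC (GP S_gcs S_winF)
open Pool.Agent.H694.Typ (Mn PU)

namespace NearGL

section base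
variable {K : Type} [Field K] [Fintype K]
set_option linter.unusedSectionVars false

theorem bw_nonneg {z A : ℕ} {C : ℝ} {U : Finset K[X] → ℝ} (hU : BHWG K z A C U) (f : K[X]) :
    0 ≤ bw z U f :=
  hU.2.2.2.1 _ (Finset.filter_subset _ _)

theorem bw_le {z A : ℕ} {C : ℝ} {U : Finset K[X] → ℝ} (hU : BHWG K z A C U) (f : K[X]) :
    bw z U f ≤ 2 ^ ((Pz K z).filter (fun P => P ∣ f)).card := by
  unfold bw
  calc ∑ T ∈ ((Pz K z).filter (fun P => P ∣ f)).powerset, U T ≤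
      ∑ T ∈ ((Pz K z).filter (fun P => P ∣ f)).powerset, (1 : ℝ) :=
        Finset.sum_le_sum fun T _ => (abs_le.1 (hU.1 T)).2
    _ = 2 ^ ((Pz K z).filter (fun P => P ∣ f)).card := by
        rw [Finset.sum_const, Finset.card_powerset, nsmul_eq_mul, mul_one]
        push_cast
        rfl

/-- the map on the family that is injective -/
noncomputable def fmap (b m : K[X]) (p : K[X] × K[X]) : K[X] × (Fin (b.natDegree + 1) → K) :=
  (p.2, fun i => ((p.1 * b) /ₘ m).coeff i)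

theorem fam_maps (γ : K) (b M a₀ : K[X]) (o : Bool) (σ σ' : ℕ) (m : K[X]) :
    Set.MapsTo (fmap b m) (FamG γ b M a₀ o σ σ' m)
      (((Mn K σ') ×ˢ (Finset.univ : Finset (Fin (b.natDegree + 1) → K)) :
        Finset (K[X] × (Fin (b.natDegree + 1) → K))) :
          Set (K[X] × (Fin (b.natDegree + 1) → K))) := by
  intro p hp
  simp only [Finset.coe_product, Finset.coe_univ, Set.mem_prod, Finset.mem_coe, Set.mem_univ,
    and_true, fmap]
  exact Pool.Agent.H694.Typ.mem_Mn.2 ⟨hp.2.1, hp.2.2.1⟩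

theorem fam_inj {γ : K} (hγ : γ ≠ 0) {b : K[X]} (hb : b.Monic) (M a₀ : K[X]) (o : Bool)
    (σ σ' : ℕ) {m : K[X]} (hm : m.Monic) (hmd : m.natDegree = σ) :
    Set.InjOn (fmap b m) (FamG γ b M a₀ o σ σ' m) := by
  have hdiv : ∀ p ∈ FamG γ b M a₀ o σ σ' m, ((p.1 * b) /ₘ m).natDegree < b.natDegree + 1 := by
    intro p hp
    rw [natDegree_divByMonic _ hm, hmd]
    have h1 : p.1.natDegree ≤ σ := by
      have h2 : p.1.degree < ((σ + o.toNat : ℕ) : WithBot ℕ) := hp.1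
      have h3 : o.toNat ≤ 1 := Bool.toNat_le o
      have h4 : p.1.degree < ((σ + 1 : ℕ) : WithBot ℕ) :=
        lt_of_lt_of_le h2 (by exact_mod_cast Nat.add_le_add_left h3 σ)
      have h5 := Order.lt_succ_iff.1 (show p.1.degree < Order.succ ((σ : ℕ) : WithBot ℕ) from h4)
      exact natDegree_le_iff_degree_le.2 h5
    have h6 := natDegree_mul_le (p := p.1) (q := b)
    omega
  intro p hp p' hp' hpp
  have e1 : p.2 = p'.2 := congrArg Prod.fst hpp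
  have e2 : ∀ i : Fin (b.natDegree + 1), ((p.1 * b) /ₘ m).coeff i = ((p'.1 * b) /ₘ m).coeff i :=
    fun i => congrFun (congrArg Prod.snd hpp) i
  have e3 : (p.1 * b) /ₘ m = (p'.1 * b) /ₘ m := by
    ext i
    rcases lt_or_ge i (b.natDegree + 1) with h | h
    · exact e2 ⟨i, h⟩
    · rw [coeff_eq_zero_of_natDegree_lt ((hdiv p hp).trans_le h),
        coeff_eq_zero_of_natDegree_lt ((hdiv p' hp').trans_le h)]
  have d1 : m ∣ p.1 * p.2 - C γ * b := hp.2.2.2.1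
  have d2 : m ∣ p'.1 * p.2 - C γ * b := by
    rw [e1]
    exact hp'.2.2.2.1
  have d3 : m ∣ p.1 * b - p'.1 * b := by
    obtain ⟨u, hu⟩ := d1
    obtain ⟨v, hv⟩ := d2
    have hC : (C γ⁻¹ : K[X]) * C γ = 1 := by
      rw [← C_mul, inv_mul_cancel₀ hγ, C_1]
    have h1 : C γ * (p.1 * b - p'.1 * b) = m * (p'.1 * u - p.1 * v) := by
      have : m * (p'.1 * u - p.1 * v) = p'.1 * (m * u) - p.1 * (m * v) := by ring
      rw [this, ← hu, ← hv]; ring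
    refine ⟨C γ⁻¹ * (p'.1 * u - p.1 * v), ?_⟩
    calc p.1 * b - p'.1 * b = (C γ⁻¹ * C γ) * (p.1 * b - p'.1 * b) := by rw [hC, one_mul]
      _ = C γ⁻¹ * (C γ * (p.1 * b - p'.1 * b)) := by ring
      _ = C γ⁻¹ * (m * (p'.1 * u - p.1 * v)) := by rw [h1]
      _ = m * (C γ⁻¹ * (p'.1 * u - p.1 * v)) := by ring
  have e4 : (p.1 * b) %ₘ m = (p'.1 * b) %ₘ m := modByMonic_eq_of_dvd_sub hm d3
  have e5 : p.1 * b = p'.1 * b := by
    rw [← modByMonic_add_div (p.1 * b) m, ← modByMonic_add_div (p'.1 * b) m, e3, e4]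
  exact Prod.ext (mul_right_cancel₀ hb.ne_zero e5) e1

theorem fam_fin {γ : K} (hγ : γ ≠ 0) {b : K[X]} (hb : b.Monic) (M a₀ : K[X]) (o : Bool)
    (σ σ' : ℕ) {m : K[X]} (hm : m.Monic) (hmd : m.natDegree = σ) :
    (FamG γ b M a₀ o σ σ' m).Finite :=
  Set.Finite.of_injOn (fam_maps γ b M a₀ o σ σ' m) (fam_inj hγ hb M a₀ o σ σ' hm hmd)
    (Finset.finite_toSet _)

theorem fam_card {γ : K} (hγ : γ ≠ 0) {b : K[X]} (hb : b.Monic) (M a₀ : K[X]) (o : Bool)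
    (σ σ' : ℕ) {m : K[X]} (hm : m.Monic) (hmd : m.natDegree = σ) :
    (fam_fin hγ hb M a₀ o σ σ' hm hmd).toFinset.card ≤
      Fintype.card K ^ (σ' + (b.natDegree + 1)) := by
  have h1 := Set.ncard_le_ncard_of_injOn _ (fam_maps γ b M a₀ o σ σ' m)
    (fam_inj hγ hb M a₀ o σ σ' hm hmd) (Finset.finite_toSet _)
  rw [Set.ncard_coe_finset, Finset.card_product, Pool.Agent.H694.Typ.card_Mn, Finset.card_univ,
    Fintype.card_fun, Fintype.card_fin,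
    Set.ncard_eq_toFinset_card _ (fam_fin hγ hb M a₀ o σ σ' hm hmd)] at h1
  rwa [pow_add]

/-- the products are of the form `ga γ b α a` -/
theorem form (hp : S_pairg) [CharP K 2] {γ : K} {b M a₀ α : K[X]} (hD : Dat γ b M a₀ α)
    (o : Bool) (d σ σ' : ℕ) (hbd : b.natDegree < d) (h1 : 1 ≤ σ) (h2 : 1 ≤ σ')
    (h3 : σ + σ' + o.toNat = d) {m : K[X]} (hm : m ∈ Mn K σ) {p : K[X] × K[X]}
    (hpF : p ∈ FamG γ b M a₀ o σ σ' m) :
    ∃ a ∈ As K d M a₀, fABg o γ b α p.1 m p.2 = ga γ b α a := by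
  by_contra hcon
  have h := hp K γ b M a₀ α o d σ σ' (fun _ f => if ∃ a ∈ As K d M a₀, f = ga γ b α a then 0 else 1)
    hD hbd h1 h2 h3
  have h0 : ∑ a ∈ As K d M a₀, ∑ D ∈ (Mn K (2 * σ + o.toNat)).filter (fun D => D ∣ ga γ b α a),
      (if ∃ a' ∈ As K d M a₀, ga γ b α a = ga γ b α a' then (0 : ℝ) else 1) = 0 := by
    refine Finset.sum_eq_zero fun a ha => Finset.sum_eq_zero fun D _ => ?_
    exact if_pos ⟨a, ha, rfl⟩
  rw [h0] at h
  have hfin : ∀ m ∈ Mn K σ, (FamG γ b M a₀ o σ σ' m).Finite := fun m hm =>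
    fam_fin hD.γ0 hD.hb M a₀ o σ σ' (Pool.Agent.H694.Typ.mem_Mn.1 hm).1
      (Pool.Agent.H694.Typ.mem_Mn.1 hm).2
  have hite : ∀ f : K[X], (0 : ℝ) ≤ if ∃ a ∈ As K d M a₀, f = ga γ b α a then 0 else 1 := by
    intro f
    split_ifs <;> norm_num
  have hr : ∀ m ∈ Mn K σ, (0 : ℝ) ≤ ∑ᶠ p ∈ FamG γ b M a₀ o σ σ' m,
      if ∃ a ∈ As K d M a₀, fABg o γ b α p.1 m p.2 = ga γ b α a then 0 else 1 := by
    intro m hm
    rw [finsum_mem_eq_finite_toFinset_sum _ (hfin m hm)]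
    exact Finset.sum_nonneg fun p _ => hite _
  have h4 := (Finset.sum_eq_zero_iff_of_nonneg hr).1 h.symm m hm
  rw [finsum_mem_eq_finite_toFinset_sum _ (hfin m hm)] at h4
  have h5 := (Finset.sum_eq_zero_iff_of_nonneg fun p _ => hite _).1 h4 p
    ((hfin m hm).mem_toFinset.2 hpF)
  rw [if_neg hcon] at h5
  exact one_ne_zero h5

theorem z_sq {z A : ℕ} {C : ℝ} (hC : 0 < C) {U : Finset K[X] → ℝ} (hU : BHWG K z A C U)
    (hz : 1 ≤ z) {d : ℕ} (hA : A * z ≤ d) : (z : ℝ) ^ 2 ≤ C + (d : ℝ) ^ 2 := by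
  rcases Nat.eq_zero_or_pos A with hA0 | hA0
  · have h1 := hU.2.2.2.2 1 1 monic_one monic_one
    have h2 : ∑ T ∈ (Pz K z).powerset, U T * ∏ P ∈ T, wmg (1 : K[X]) 1 P = 1 := by
      rw [Finset.sum_eq_single ∅]
      · rw [hU.2.1, Finset.prod_empty, mul_one]
      · intro T hT hne
        have h3 : U T = 0 := by
          by_contra h0
          obtain ⟨h4, h5⟩ := hU.2.2.1 T h0
          obtain ⟨P, hP⟩ := Finset.nonempty_iff_ne_empty.2 hne
          have h6 : P ∈ PU K z := (Finset.mem_erase.1 (h4 hP)).2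
          have h7 := (Pool.Agent.H694.Typ.mem_PU.1 h6).2.1.natDegree_pos
          have h8 : P.natDegree ≤ ∑ P ∈ T, P.natDegree :=
            Finset.single_le_sum (f := fun P : K[X] => P.natDegree) (fun _ _ => Nat.zero_le _) hP
          rw [hA0, Nat.zero_mul] at h5
          omega
        rw [h3, zero_mul]
      · intro h
        exact absurd (Finset.empty_mem_powerset _) h
    have h3 : PA (1 : K[X]) = ∅ := by
      rw [Set.eq_empty_iff_forall_notMem]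
      rintro P ⟨-, h4, h5⟩
      exact h4.not_isUnit (isUnit_of_dvd_one h5)
    rw [h2, h3, finprod_mem_empty, mul_one, one_pow, mul_one] at h1
    have hz0 : (0 : ℝ) < (z : ℝ) ^ 2 := by
      have : (1 : ℝ) ≤ z := by exact_mod_cast hz
      positivity
    rw [le_div_iff₀ hz0, one_mul] at h1
    have : (0 : ℝ) ≤ (d : ℝ) ^ 2 := by positivity
    linarith
  · have h1 : z ≤ d := le_trans (Nat.le_mul_of_pos_left z hA0) hA
    have h2 : (z : ℝ) ≤ d := by exact_mod_cast h1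
    have h3 : (0 : ℝ) ≤ z := Nat.cast_nonneg z
    nlinarith

/-- the trivial bound by the sum of the weights -/
theorem abs_le_bw {z A : ℕ} {C : ℝ} {U : Finset K[X] → ℝ} (hU : BHWG K z A C U) {γ : K}
    (hγ : γ ≠ 0) {b : K[X]} (hb : b.Monic) (M a₀ α : K[X]) (o : Bool)
    (σ σ' : ℕ) {m : K[X]} (hm : m.Monic) (hmd : m.natDegree = σ) :
    |∑ᶠ p ∈ FamG γ b M a₀ o σ σ' m, (mob (fA o p.1 m) : ℝ) * bw z U (fABg o γ b α p.1 m p.2)| ≤
      ∑ᶠ p ∈ FamG γ b M a₀ o σ σ' m, bw z U (fABg o γ b α p.1 m p.2) := by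
  rw [finsum_mem_eq_finite_toFinset_sum _ (fam_fin hγ hb M a₀ o σ σ' hm hmd),
    finsum_mem_eq_finite_toFinset_sum _ (fam_fin hγ hb M a₀ o σ σ' hm hmd)]
  refine (Finset.abs_sum_le_sum_abs _ _).trans (Finset.sum_le_sum fun p _ => ?_)
  rw [abs_mul, abs_of_nonneg (bw_nonneg hU _)]
  calc |(mob (fA o p.1 m) : ℝ)| * bw z U (fABg o γ b α p.1 m p.2) ≤
      1 * bw z U (fABg o γ b α p.1 m p.2) :=
        mul_le_mul_of_nonneg_right (NearL.mob_abs _) (bw_nonneg hU _)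
    _ = _ := one_mul _

/-- the trivial bound for the sum of the weights -/
theorem bw_triv (hp : S_pairg) [CharP K 2] {z A : ℕ} {C : ℝ} {U : Finset K[X] → ℝ}
    (hU : BHWG K z A C U) {γ : K} {b M a₀ α : K[X]} (hD : Dat γ b M a₀ α) (o : Bool)
    (d σ σ' k : ℕ) (hbd : b.natDegree < d) (hk : 1 ≤ k) (h1 : 1 ≤ σ) (h2 : 1 ≤ σ')
    (h3 : σ + σ' + o.toNat = d) {m : K[X]} (hm : m ∈ Mn K σ) :
    ∑ᶠ p ∈ FamG γ b M a₀ o σ σ' m, bw z U (fABg o γ b α p.1 m p.2) ≤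
      (Fintype.card K : ℝ) ^ (σ' + (b.natDegree + 1)) * 2 ^ ((PU K k).card + 2 * d / k) := by
  have hm' := Pool.Agent.H694.Typ.mem_Mn.1 hm
  rw [finsum_mem_eq_finite_toFinset_sum _ (fam_fin hD.γ0 hD.hb M a₀ o σ σ' hm'.1 hm'.2)]
  have hbb : ∀ p ∈ (fam_fin hD.γ0 hD.hb M a₀ o σ σ' hm'.1 hm'.2).toFinset,
      bw z U (fABg o γ b α p.1 m p.2) ≤ 2 ^ ((PU K k).card + 2 * d / k) := by
    intro p hpF
    rw [Set.Finite.mem_toFinset] at hpF
    obtain ⟨a, ha, hf⟩ := form hp hD o d σ σ' hbd h1 h2 h3 hm hpF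
    have haM : M ∣ a - a₀ := (Finset.mem_filter.1 ha).2
    have ha' := Pool.Agent.H694.Typ.mem_Mn.1 (Finset.mem_filter.1 ha).1
    have hd : (fa γ b a).natDegree = 2 * d := by
      have h4 : (a ^ 2).natDegree = 2 * d := by rw [ha'.1.natDegree_pow, ha'.2]
      have h5 : (X * (Polynomial.C γ * b) ^ 2 : K[X]).natDegree < (a ^ 2).natDegree := by
        have h6 : (X * (Polynomial.C γ * b) ^ 2 : K[X]).natDegree ≤ 1 + 2 * (0 + b.natDegree) := by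
          refine natDegree_mul_le.trans (add_le_add natDegree_X_le ?_)
          refine natDegree_pow_le.trans (Nat.mul_le_mul_left _ ?_)
          refine natDegree_mul_le.trans (add_le_add (natDegree_C γ).le le_rfl)
        omega
      unfold fa
      rw [natDegree_add_eq_left_of_natDegree_lt h5, h4]
    have hne : fa γ b a ≠ 0 := by
      intro h0
      rw [h0, natDegree_zero] at hd
      omega
    have hαa : α ∣ fa γ b a := by
      have e : fa γ b a = fa γ b a₀ + (a - a₀) * (a + a₀) := by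
        unfold fa; ring
      rw [e]
      exact dvd_add hD.αf ((hD.αM.trans haM).mul_right _)
    have hαg : α * ga γ b α a = fa γ b a := EuclideanDomain.mul_div_cancel' hD.hα.ne_zero hαa
    have hgne : ga γ b α a ≠ 0 := by
      intro h0
      rw [h0, mul_zero] at hαg
      exact hne hαg.symm
    have hgd : (ga γ b α a).natDegree ≤ 2 * d := by
      rw [← hd]
      exact natDegree_le_of_dvd ⟨α, by rw [← hαg, mul_comm]⟩ hne
    rw [hf]
    refine (bw_le hU _).trans ?_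
    exact pow_le_pow_right₀ (by norm_num) (NearL.card_primes z k (2 * d) hk hgne hgd)
  have h5 := Finset.sum_le_card_nsmul _ _ _ hbb
  rw [nsmul_eq_mul] at h5
  refine h5.trans ?_
  have h6 : ((fam_fin hD.γ0 hD.hb M a₀ o σ σ' hm'.1 hm'.2).toFinset.card : ℝ) ≤
      (Fintype.card K : ℝ) ^ (σ' + (b.natDegree + 1)) := by
    exact_mod_cast fam_card hD.γ0 hD.hb M a₀ o σ σ' hm'.1 hm'.2
  exact mul_le_mul_of_nonneg_right h6 (by positivity)

end base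

end NearGL

open NearGL

set_option maxHeartbeats 4000000 in
/-- **Task NEARG.** -/
theorem nearg (hu : S_up2g) (ht : S_typcg) (hp : S_pairg) (hy : Pool.Agent.H985.KP.S_typ2) :
    S_nearg := by
  intro K _ _ _ γ b M a₀ α A C ε hDat hC hε
  have hγ := hDat.γ0
  have hbm := hDat.hb
  obtain ⟨C₁, θ₁, hC₁, hθ₁, σ₁, hup⟩ := hu K γ b M a₀ α A C hDat hC
  obtain ⟨δ, E₀, hδ, σ₂, hty⟩ := hy K 1 one_ne_zero (ε / (4 * C₁)) (by positivity)
  obtain ⟨θ₂, hθ₂, σ₃, htc⟩ := ht K γ b M a₀ α A E₀ C δ hDat hδ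
  have hq : (2 : ℝ) ≤ (Fintype.card K : ℝ) := Pool.Agent.H694.Typ.q_ge
  obtain ⟨q, hqdef⟩ : ∃ q : ℝ, q = (Fintype.card K : ℝ) := ⟨_, rfl⟩
  rw [← hqdef] at hq
  have hq0 : 0 < q := by linarith
  obtain ⟨k, hk1, hk⟩ : ∃ k : ℕ, 1 ≤ k ∧ 36 / θ₁ ≤ (k : ℝ) :=
    ⟨max 1 ⌈36 / θ₁⌉₊, le_max_left _ _, (Nat.le_ceil _).trans (by
      exact_mod_cast le_max_right _ _)⟩
  have hk0 : (0 : ℝ) < k := by exact_mod_cast hk1
  obtain ⟨N₀, hN₀⟩ : ∃ N₀ : ℕ, N₀ = (PU K k).card := ⟨_, rfl⟩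
  have hr1 : q ^ (-(θ₂ / 3)) < 1 :=
    Real.rpow_lt_one_of_one_lt_of_neg (by linarith) (by linarith)
  have hr2 : (2 : ℝ) ^ (-(θ₁ / 18)) < 1 :=
    Real.rpow_lt_one_of_one_lt_of_neg (by norm_num) (by linarith)
  have ev1 := NearL.decay C (q ^ (-(θ₂ / 3))) (by positivity) hr1 1 (ε / 4) (by positivity)
  have ev2 := NearL.decay C ((2 : ℝ) ^ (-(θ₁ / 18))) (by positivity) hr2
    (q ^ (b.natDegree + 1) * 2 ^ (N₀ + 1)) (ε / 4)
    (by positivity)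
  obtain ⟨d₁, hd₁⟩ := Filter.eventually_atTop.1 (ev1.and ev2)
  have hθ0 : 0 < min (1 / 10 : ℝ) (min θ₁ θ₂ / 3) := by positivity
  refine ⟨min (1 / 10) (min θ₁ θ₂ / 3), hθ0,
    max (max d₁ (30 + b.natDegree)) (3 * (σ₁ + σ₂ + σ₃ + 1)), ?_⟩
  intro d n z U hd hz hAz hnd hU
  obtain ⟨θ, hθdef⟩ : ∃ θ : ℝ, θ = min (1 / 10) (min θ₁ θ₂ / 3) := ⟨_, rfl⟩
  rw [← hθdef] at hAz hnd hθ0
  have hθa : θ ≤ 1 / 10 := by rw [hθdef]; exact min_le_left _ _
  have hθb : 3 * θ ≤ θ₁ := by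
    have h1 : θ ≤ min θ₁ θ₂ / 3 := by rw [hθdef]; exact min_le_right _ _
    have h2 := min_le_left θ₁ θ₂
    linarith
  have hθc : 3 * θ ≤ θ₂ := by
    have h1 : θ ≤ min θ₁ θ₂ / 3 := by rw [hθdef]; exact min_le_right _ _
    have h2 := min_le_right θ₁ θ₂
    linarith
  have hdd1 : d₁ ≤ d := (le_max_left _ _).trans ((le_max_left _ _).trans hd)
  have hd30' : 30 + b.natDegree ≤ d := (le_max_right _ _).trans ((le_max_left _ _).trans hd)
  have hd30 : 30 ≤ d := by omega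
  have hbd : b.natDegree < d := by omega
  have hdσ : 3 * (σ₁ + σ₂ + σ₃ + 1) ≤ d := (le_max_right _ _).trans hd
  obtain ⟨hda, hdb⟩ := hd₁ d hdd1
  have hd30r : (30 : ℝ) ≤ d := by exact_mod_cast hd30
  -- the parity
  obtain ⟨o, σ, hn⟩ : ∃ (o : Bool) (σ : ℕ), n = 2 * σ + o.toNat := by
    obtain ⟨σ, h | h⟩ := Nat.even_or_odd' n
    · exact ⟨false, σ, by simpa using h⟩
    · exact ⟨true, σ, by simpa using h⟩
  have ho : o.toNat ≤ 1 := Bool.toNat_le o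
  have hor : (o.toNat : ℝ) ≤ 1 := by exact_mod_cast ho
  have hor0 : (0 : ℝ) ≤ (o.toNat : ℝ) := Nat.cast_nonneg _
  have hnr : (n : ℝ) = 2 * σ + o.toNat := by rw [hn]; push_cast; ring
  obtain ⟨hnd1, hnd2⟩ := abs_le.1 hnd
  have hθd : θ * d ≤ d / 10 := by
    have := mul_le_mul_of_nonneg_right hθa (by linarith : (0 : ℝ) ≤ d)
    linarith
  have hσlow : (d : ℝ) / 3 ≤ σ := by linarith
  have hσo : σ + o.toNat ≤ d := by
    have : (σ : ℝ) + o.toNat ≤ d := by linarith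
    exact_mod_cast this
  obtain ⟨σ', hσ'⟩ : ∃ σ', σ + σ' + o.toNat = d := ⟨d - σ - o.toNat, by omega⟩
  have hσ'r : (σ : ℝ) + σ' + o.toNat = d := by exact_mod_cast hσ'
  have hσ1 : 1 ≤ σ := by
    have : (1 : ℝ) ≤ σ := by linarith
    exact_mod_cast this
  have hσ'1 : 1 ≤ σ' := by
    have : (1 : ℝ) ≤ σ' := by linarith
    exact_mod_cast this
  have hσbig : σ₁ + σ₂ + σ₃ + 1 ≤ σ := by
    have h1 : ((3 * (σ₁ + σ₂ + σ₃ + 1) : ℕ) : ℝ) ≤ d := by exact_mod_cast hdσ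
    have h2 : ((σ₁ + σ₂ + σ₃ + 1 : ℕ) : ℝ) ≤ σ := by
      push_cast at h1 ⊢
      linarith
    exact_mod_cast h2
  have hσ0 : (0 : ℝ) ≤ σ := Nat.cast_nonneg σ
  have hθσ : θ * d ≤ 3 * θ * σ := by nlinarith
  have hθσ1 : θ * d ≤ θ₁ * σ := hθσ.trans (mul_le_mul_of_nonneg_right hθb hσ0)
  have hθσ2 : θ * d ≤ θ₂ * σ := hθσ.trans (mul_le_mul_of_nonneg_right hθc hσ0)
  have hdiff : |(σ : ℝ) - σ'| ≤ θ * d := by
    have e : (σ : ℝ) - σ' = n - d := by linarith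
    rw [e]; exact hnd
  have hz2 : (z : ℝ) ^ 2 ≤ C + (d : ℝ) ^ 2 := by
    refine z_sq hC hU hz ?_
    have h1 : ((A * z : ℕ) : ℝ) ≤ d := by linarith
    exact_mod_cast h1
  have hz0 : (0 : ℝ) < (z : ℝ) ^ 2 := by
    have : (1 : ℝ) ≤ z := by exact_mod_cast hz
    positivity
  -- the sum over `m`
  have hpair := hp K γ b M a₀ α o d σ σ' (fun D f => (mob D : ℝ) * bw z U f) hDat hbd hσ1 hσ'1 hσ'
  have hNn : NnG γ b M a₀ α d n z U = ∑ m ∈ Mn K σ, ∑ᶠ p ∈ FamG γ b M a₀ o σ σ' m,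
      (mob (fA o p.1 m) : ℝ) * bw z U (fABg o γ b α p.1 m p.2) := by
    rw [← hpair, hn]
    rfl
  -- the number `c`
  obtain ⟨c, hc⟩ : ∃ c : ℕ, c = ⌊θ₁ * σ / 3⌋₊ := ⟨_, rfl⟩
  have hc1 : 3 * (c : ℝ) ≤ θ₁ * σ := by
    have := Nat.floor_le (show 0 ≤ θ₁ * σ / 3 by positivity)
    rw [← hc] at this
    linarith
  have hc2 : θ₁ * d / 9 - 1 ≤ (c : ℝ) := by
    have h1 := Nat.lt_floor_add_one (θ₁ * σ / 3)
    rw [← hc] at h1
    have h2 : θ₁ * (d / 3) ≤ θ₁ * σ := mul_le_mul_of_nonneg_left hσlow hθ₁.le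
    linarith
  obtain ⟨Bc, hBc⟩ : ∃ Bc : ℝ, Bc = q ^ (σ' + (b.natDegree + 1)) * 2 ^ (N₀ + 2 * d / k) := ⟨_, rfl⟩
  have hBc0 : 0 ≤ Bc := by rw [hBc]; positivity
  have ha0 : 0 ≤ q ^ ((σ' : ℝ) - θ₂ * σ) := by positivity
  have hb0 : 0 ≤ C₁ * q ^ σ' / (z : ℝ) ^ 2 := by positivity
  have key : ∀ m ∈ Mn K σ, |∑ᶠ p ∈ FamG γ b M a₀ o σ σ' m,
      (mob (fA o p.1 m) : ℝ) * bw z U (fABg o γ b α p.1 m p.2)| ≤ q ^ ((σ' : ℝ) - θ₂ * σ) +
        (if ¬ Good2 1 δ E₀ σ m then C₁ * q ^ σ' / (z : ℝ) ^ 2 else 0) +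
        (if ∃ g : K[X], g.Monic ∧ c < g.natDegree ∧ g ^ 2 ∣ m then Bc else 0) := by
    intro m hm
    have hm' := Pool.Agent.H694.Typ.mem_Mn.1 hm
    have hi1 : (0 : ℝ) ≤ if ¬ Good2 1 δ E₀ σ m then C₁ * q ^ σ' / (z : ℝ) ^ 2 else 0 := by
      split_ifs <;> first | exact hb0 | exact le_rfl
    have hi2 : (0 : ℝ) ≤ if ∃ g : K[X], g.Monic ∧ c < g.natDegree ∧ g ^ 2 ∣ m then Bc else 0 := by
      split_ifs <;> first | exact hBc0 | exact le_rfl
    by_cases hG : Good2 1 δ E₀ σ m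
    · have h1 := htc o σ σ' z U m (by omega) (hAz.trans hθσ2) (hdiff.trans hθσ2) hU hm'.1 hm'.2 hG
      rw [← hqdef] at h1
      linarith
    · have h0 := abs_le_bw hU hγ hbm M a₀ α o σ σ' hm'.1 hm'.2
      by_cases hS : ∃ g : K[X], g.Monic ∧ c < g.natDegree ∧ g ^ 2 ∣ m
      · have h1 := bw_triv hp hU hDat o d σ σ' k hbd hk1 hσ1 hσ'1 hσ' hm
        rw [← hqdef, ← hN₀, ← hBc] at h1
        rw [if_pos hS]
        linarith
      · obtain ⟨m₁, m₂, hmm, hm₁, hm₂, hcop, hsq, -, hdeg⟩ :=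
          Pool.Agent.H694.Typ.decomp (s := 1) hm'.1 one_ne_zero c (fun g hg hgm => by
            by_contra hlt
            exact hS ⟨g, hg, by omega, hgm⟩)
        rw [natDegree_one, add_zero] at hdeg
        have hdeg' : (m₁.natDegree : ℝ) ≤ θ₁ * σ := by
          have h2 : (m₁.natDegree : ℝ) ≤ 3 * c := by exact_mod_cast hdeg
          linarith
        have h1 := hup o σ σ' z U m m₁ m₂ (by omega) hz (hAz.trans hθσ1) (hdiff.trans hθσ1) hU
          hmm hm₁ hm₂ hm'.2 hcop hsq hdeg'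
        rw [← hqdef] at h1
        rw [if_pos hG]
        linarith
  -- the three sums
  have hbad : (((Mn K σ).filter (fun m => ¬ Good2 1 δ E₀ σ m)).card : ℝ) ≤
      ε / (4 * C₁) * q ^ σ := by
    have h1 := hty σ (by omega)
    have h2 : Pool.Agent.H985.Chow.MD K σ ∩ {b | ¬ Good2 1 δ E₀ σ b} =
        (((Mn K σ).filter (fun m => ¬ Good2 1 δ E₀ σ m) : Finset K[X]) : Set K[X]) := by
      ext m
      simp only [Set.mem_inter_iff, Finset.coe_filter, Set.mem_ofPred_eq,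
        Pool.Agent.H985.Chow.MD, Pool.Agent.H694.Typ.mem_Mn]
    rw [h2, Set.ncard_coe_finset, ← hqdef] at h1
    exact h1
  have hsqr : (((Mn K σ).filter (fun m => ∃ g : K[X], g.Monic ∧ c < g.natDegree ∧
      g ^ 2 ∣ m)).card : ℝ) ≤ q ^ σ * (1 / 2) ^ c := by
    have h1 := Pool.Agent.H694.Typ.sq_bound (k := K) σ c
    rw [← hqdef] at h1
    exact h1
  have htot : |NnG γ b M a₀ α d n z U| ≤ q ^ σ * q ^ ((σ' : ℝ) - θ₂ * σ) +
      (ε / (4 * C₁) * q ^ σ) * (C₁ * q ^ σ' / (z : ℝ) ^ 2) + (q ^ σ * (1 / 2) ^ c) * Bc := by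
    rw [hNn]
    refine (Finset.abs_sum_le_sum_abs _ _).trans ((Finset.sum_le_sum key).trans ?_)
    rw [Finset.sum_add_distrib, Finset.sum_add_distrib, ← Finset.sum_filter, ← Finset.sum_filter,
      Finset.sum_const, Finset.sum_const, Finset.sum_const, nsmul_eq_mul, nsmul_eq_mul,
      nsmul_eq_mul, Pool.Agent.H694.Typ.card_Mn, Nat.cast_pow, ← hqdef]
    exact add_le_add (add_le_add le_rfl (mul_le_mul_of_nonneg_right hbad hb0))
      (mul_le_mul_of_nonneg_right hsqr hBc0)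
  -- first sum
  have hqd : (0 : ℝ) < q ^ d := by positivity
  have hqσ : q ^ σ * q ^ σ' ≤ q ^ d := by
    rw [← pow_add]
    exact pow_le_pow_right₀ (by linarith) (by omega)
  have t1 : q ^ σ * q ^ ((σ' : ℝ) - θ₂ * σ) ≤ ε / 4 * q ^ d / (z : ℝ) ^ 2 := by
    rw [le_div_iff₀ hz0]
    have h1 : q ^ σ * q ^ ((σ' : ℝ) - θ₂ * σ) ≤ q ^ d * (q ^ (-(θ₂ / 3))) ^ d := by
      rw [← Real.rpow_natCast q σ, ← Real.rpow_natCast q d, ← Real.rpow_natCast _ d,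
        ← Real.rpow_mul hq0.le, ← Real.rpow_add hq0, ← Real.rpow_add hq0]
      apply Real.rpow_le_rpow_of_exponent_le (by linarith)
      have h2 : θ₂ * (d / 3) ≤ θ₂ * σ := mul_le_mul_of_nonneg_left hσlow hθ₂.le
      linarith
    have h3 : (0 : ℝ) ≤ (q ^ (-(θ₂ / 3))) ^ d := by positivity
    calc q ^ σ * q ^ ((σ' : ℝ) - θ₂ * σ) * (z : ℝ) ^ 2 ≤
        (q ^ d * (q ^ (-(θ₂ / 3))) ^ d) * (C + (d : ℝ) ^ 2) :=
          mul_le_mul h1 hz2 hz0.le (by positivity)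
      _ = q ^ d * (1 * ((C + (d : ℝ) ^ 2) * (q ^ (-(θ₂ / 3))) ^ d)) := by ring
      _ ≤ q ^ d * (ε / 4) := mul_le_mul_of_nonneg_left hda hqd.le
      _ = ε / 4 * q ^ d := by ring
  have t2 : (ε / (4 * C₁) * q ^ σ) * (C₁ * q ^ σ' / (z : ℝ) ^ 2) ≤
      ε / 4 * q ^ d / (z : ℝ) ^ 2 := by
    have e1 : (ε / (4 * C₁) * q ^ σ) * (C₁ * q ^ σ' / (z : ℝ) ^ 2) =
        ε / 4 * (q ^ σ * q ^ σ') / (z : ℝ) ^ 2 := by
      field_simp
    rw [e1]
    apply div_le_div_of_nonneg_right _ hz0.le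
    exact mul_le_mul_of_nonneg_left hqσ (by positivity)
  have t3 : (q ^ σ * (1 / 2) ^ c) * Bc ≤ ε / 4 * q ^ d / (z : ℝ) ^ 2 := by
    rw [le_div_iff₀ hz0, hBc]
    have h1 : ((2 * d / k : ℕ) : ℝ) ≤ θ₁ * d / 18 := by
      have h2 : ((2 * d / k : ℕ) : ℝ) ≤ ((2 * d : ℕ) : ℝ) / k := Nat.cast_div_le
      refine h2.trans ?_
      rw [div_le_iff₀ hk0]
      have h3 : 36 ≤ k * θ₁ := by
        rw [div_le_iff₀ hθ₁] at hk
        exact hk
      push_cast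
      have hd0 : (0 : ℝ) ≤ d := by linarith
      nlinarith
    have h4 : (1 / 2 : ℝ) ^ c * 2 ^ (N₀ + 2 * d / k) ≤
        2 ^ (N₀ + 1) * ((2 : ℝ) ^ (-(θ₁ / 18))) ^ d := by
      have e1 : (1 / 2 : ℝ) ^ c = (2 : ℝ) ^ (-(c : ℝ)) := by
        rw [Real.rpow_neg (by norm_num), Real.rpow_natCast, one_div, inv_pow]
      rw [e1, ← Real.rpow_natCast 2 (N₀ + 2 * d / k), ← Real.rpow_natCast 2 (N₀ + 1),
        ← Real.rpow_natCast _ d, ← Real.rpow_mul (by norm_num), ← Real.rpow_add (by norm_num),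
        ← Real.rpow_add (by norm_num)]
      apply Real.rpow_le_rpow_of_exponent_le (by norm_num)
      push_cast
      linarith
    have h5 : (q ^ σ * (1 / 2) ^ c) * (q ^ (σ' + (b.natDegree + 1)) * 2 ^ (N₀ + 2 * d / k)) =
        (q ^ σ * q ^ σ') * q ^ (b.natDegree + 1) * ((1 / 2 : ℝ) ^ c * 2 ^ (N₀ + 2 * d / k)) := by
      rw [pow_add q σ']; ring
    rw [h5]
    calc (q ^ σ * q ^ σ') * q ^ (b.natDegree + 1) * ((1 / 2 : ℝ) ^ c * 2 ^ (N₀ + 2 * d / k)) *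
          (z : ℝ) ^ 2 ≤
        (q ^ d * q ^ (b.natDegree + 1) * (2 ^ (N₀ + 1) * ((2 : ℝ) ^ (-(θ₁ / 18))) ^ d)) *
          (C + (d : ℝ) ^ 2) := by
          apply mul_le_mul _ hz2 hz0.le (by positivity)
          apply mul_le_mul _ h4 (by positivity) (by positivity)
          exact mul_le_mul_of_nonneg_right hqσ (by positivity)
      _ = q ^ d * (q ^ (b.natDegree + 1) * 2 ^ (N₀ + 1) *
            ((C + (d : ℝ) ^ 2) * ((2 : ℝ) ^ (-(θ₁ / 18))) ^ d)) := by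
          ring
      _ ≤ q ^ d * (ε / 4) := mul_le_mul_of_nonneg_left hdb hqd.le
      _ = ε / 4 * q ^ d := by ring
  rw [← hqdef]
  have hfinal : ε / 4 * q ^ d / (z : ℝ) ^ 2 + ε / 4 * q ^ d / (z : ℝ) ^ 2 +
      ε / 4 * q ^ d / (z : ℝ) ^ 2 ≤ ε * q ^ d / (z : ℝ) ^ 2 := by
    have h1 : 0 ≤ ε * q ^ d / (z : ℝ) ^ 2 := by positivity
    have e1 : ε / 4 * q ^ d / (z : ℝ) ^ 2 = (ε * q ^ d / (z : ℝ) ^ 2) / 4 := by ring
    rw [e1]
    linarith
  linarith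

end Pool.Agent.H604.LD
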