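import Pool.Agent.H604.LD.Pair
import Pool.Agent.H604.LD.DatL

/-!
# Task PAIRG: the factorizations of `f_a / α` (helper249, for helper604)
-/

set_option autoImplicit false
set_option linter.unusedSectionVars false

namespace Pool.Agent.H604.LD

open Polynomial
open scoped Classical
open Pool.Agent.H694.Typ (Mn mem_Mn exists_pol pol)

namespace PairGAux

variable {K : Type} [Field K] [CharP K 2]

theorem aG_eq (o : Bool) (γ : K) (b t m w : K[X]) :
    aG o γ b t m w = PairAux.ga o t m (xG γ b t m w) w := rfl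

/-- the quotient -/
theorem quot {o : Bool} {σ σ' d : ℕ} {γ : K} {b m t w : K[X]} (hm : m.Monic)
    (hmd : m.natDegree = σ) (hb : b.natDegree < d) (hd : σ + σ' + o.toNat = d)
    (h1 : t.degree < ((σ + o.toNat : ℕ) : WithBot ℕ)) (h2 : w.Monic) (h3 : w.natDegree = σ')
    (h4 : m ∣ t * w - C γ * b) :
    m * xG γ b t m w + t * w = C γ * b ∧
      (xG γ b t m w).degree < ((σ' + o.toNat : ℕ) : WithBot ℕ) := by
  obtain ⟨x, hx⟩ := h4
  have hq : xG γ b t m w = x := by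
    unfold xG
    rw [hx]
    exact mul_div_cancel_left₀ x hm.ne_zero
  rw [hq]
  have htw : t * w = m * x + C γ * b := by rw [← hx]; ring
  constructor
  · rw [htw, ← add_assoc, CharTwo.add_self_eq_zero, zero_add]
  · by_cases hx0 : x = 0
    · rw [hx0, degree_zero]
      exact WithBot.bot_lt_coe _
    · have hlt : (m * x).degree < ((σ + σ' + o.toNat : ℕ) : WithBot ℕ) := by
        rw [← hx]
        refine lt_of_le_of_lt (degree_sub_le _ _) (max_lt ?_ ?_)
        · by_cases ht0 : t = 0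
          · rw [ht0, zero_mul, degree_zero]
            exact WithBot.bot_lt_coe _
          · rw [degree_eq_natDegree ht0] at h1
            have h4 : t.natDegree < σ + o.toNat := by exact_mod_cast h1
            rw [degree_mul, degree_eq_natDegree ht0, degree_eq_natDegree h2.ne_zero, h3]
            exact_mod_cast (by omega : t.natDegree + σ' < σ + σ' + o.toNat)
        · refine lt_of_le_of_lt degree_le_natDegree ?_
          have h5 := natDegree_C_mul_le γ b
          exact_mod_cast (by omega : (C γ * b).natDegree < σ + σ' + o.toNat)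
      rw [degree_mul, degree_eq_natDegree hm.ne_zero, degree_eq_natDegree hx0, hmd] at hlt
      rw [degree_eq_natDegree hx0]
      have h4 : σ + x.natDegree < σ + σ' + o.toNat := by exact_mod_cast hlt
      exact_mod_cast (by omega : x.natDegree < σ' + o.toNat)

theorem fA_mul_fa {o : Bool} {γ : K} {b m t w : K[X]}
    (h : m * xG γ b t m w + t * w = C γ * b) :
    fA o t m * fA o (xG γ b t m w) w = fa γ b (aG o γ b t m w) := by
  rw [PairAux.fA_mul, h, aG_eq]
  rfl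

section Fin

variable [Fintype K]

theorem famG_finite (γ : K) (b M a₀ : K[X]) (o : Bool) (σ σ' : ℕ) (m : K[X]) :
    (FamG γ b M a₀ o σ σ' m).Finite := by
  refine ((Set.finite_range (pol : (Fin (σ + o.toNat) → K) → K[X])).prod
    (Mn K σ').finite_toSet).subset ?_
  rintro ⟨t, w⟩ ⟨h1, h2, h3, -⟩
  refine ⟨?_, ?_⟩
  · obtain ⟨c, hc⟩ := exists_pol h1
    exact ⟨c, hc⟩
  · rw [Finset.mem_coe, mem_Mn]
    exact ⟨h2, h3⟩

end Fin

end PairGAux

open PairGAux

/-- **Task PAIRG.** -/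
theorem pairg : S_pairg := by
  intro K _ _ _ γ b M a₀ α o d σ σ' Φ h hb hσ hσ' hd
  have hR : ∀ m : K[X], ∑ᶠ p ∈ FamG γ b M a₀ o σ σ' m,
      Φ (fA o p.1 m) (fABg o γ b α p.1 m p.2) =
      ∑ p ∈ (famG_finite γ b M a₀ o σ σ' m).toFinset,
        Φ (fA o p.1 m) (fABg o γ b α p.1 m p.2) := fun m =>
    finsum_mem_eq_finite_toFinset_sum _ (famG_finite γ b M a₀ o σ σ' m)
  simp only [hR]
  rw [Finset.sum_sigma', Finset.sum_sigma']
  symm
  refine Finset.sum_bij (fun (z : Σ _ : K[X], K[X] × K[X]) _ =>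
    (⟨aG o γ b z.2.1 z.1 z.2.2, fA o z.2.1 z.1⟩ : Σ _ : K[X], K[X])) ?_ ?_ ?_ ?_
  · -- well defined
    rintro ⟨m, t, w⟩ hz
    rw [Finset.mem_sigma, mem_Mn, Set.Finite.mem_toFinset] at hz
    obtain ⟨⟨hm, hmd⟩, hF⟩ := hz
    obtain ⟨hF1, hF2, hF3, hF4, hF5, hF6⟩ := hF
    have hF1' : t.degree < ((σ + o.toNat : ℕ) : WithBot ℕ) := hF1
    have hF2' : w.Monic := hF2
    have hF3' : w.natDegree = σ' := hF3
    have hF4' : m ∣ t * w - C γ * b := hF4
    have hF5' : M ∣ aG o γ b t m w - a₀ := hF5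
    have hF6' : IsCoprime (fA o t m) M := hF6
    obtain ⟨h1, h2⟩ := quot (o := o) hm hmd hb hd hF1' hF2' hF3' hF4'
    have hg := PairAux.ga_deg hm hmd hF2' hF3' hF1' h2
    rw [← aG_eq] at hg
    rw [Finset.mem_sigma, Finset.mem_filter]
    unfold As
    rw [Finset.mem_filter, mem_Mn, mem_Mn]
    refine ⟨⟨⟨hg.1, hg.2.trans hd⟩, hF5'⟩, PairAux.fA_iff.2 ⟨hm, hmd, hF1'⟩, ?_⟩
    exact (h.dvd_ga_iff hF5' _).2 ⟨⟨_, (fA_mul_fa h1).symm⟩, hF6'⟩
  · -- injective
    rintro ⟨m, t, w⟩ hz ⟨m', t', w'⟩ hz' he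
    rw [Finset.mem_sigma, mem_Mn, Set.Finite.mem_toFinset] at hz hz'
    obtain ⟨⟨hm, hmd⟩, hF1, hF2, hF3, hF4, hF5, hF6⟩ := hz
    obtain ⟨⟨hm', hmd'⟩, hG1, hG2, hG3, hG4, hG5, hG6⟩ := hz'
    have hF1' : t.degree < ((σ + o.toNat : ℕ) : WithBot ℕ) := hF1
    have hG1' : t'.degree < ((σ + o.toNat : ℕ) : WithBot ℕ) := hG1
    obtain ⟨h1, h2⟩ := quot (o := o) hm hmd hb hd hF1' hF2 hF3 hF4
    obtain ⟨h1', h2'⟩ := quot (o := o) hm' hmd' hb hd hG1' hG2 hG3 hG4
    have he1 : aG o γ b t m w = aG o γ b t' m' w' :=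
      congrArg (fun y : Σ _ : K[X], K[X] => y.1) he
    have he2 : fA o t m = fA o t' m' := congrArg (fun y : Σ _ : K[X], K[X] => y.2) he
    obtain ⟨rfl, rfl⟩ := PairAux.fA_uniq he2
    have e := fA_mul_fa (o := o) h1
    have e' := fA_mul_fa (o := o) h1'
    rw [he1, ← e'] at e
    have hne : fA o t m ≠ 0 := (PairAux.fA_iff.2 ⟨hm, hmd, hF1'⟩).1.ne_zero
    have h3 := mul_left_cancel₀ hne e
    obtain ⟨-, h4⟩ := PairAux.fA_uniq h3
    have h5 : w = w' := h4
    rw [h5]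
  · -- surjective
    rintro ⟨a, D⟩ hz
    rw [Finset.mem_sigma, Finset.mem_filter] at hz
    unfold As at hz
    rw [Finset.mem_filter, mem_Mn, mem_Mn] at hz
    obtain ⟨⟨⟨ha, had⟩, haM⟩, ⟨hD, hDd⟩, hDg⟩ := hz
    have ha' : a.Monic := ha
    have had' : a.natDegree = d := had
    have haM' : M ∣ a - a₀ := haM
    have hD' : D.Monic := hD
    have hDd' : D.natDegree = 2 * σ + o.toNat := hDd
    obtain ⟨⟨B, hB⟩, hDM⟩ := (h.dvd_ga_iff haM' D).1 hDg
    have h1 : (fa γ b a).Monic := fa_monic γ ha' (by rw [had']; exact hb)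
    have h2 : (fa γ b a).natDegree = 2 * a.natDegree := fa_natDegree γ ha' (by rw [had']; exact hb)
    rw [hB] at h1 h2
    have hBm : B.Monic := hD'.of_mul_monic_left h1
    have hBd : B.natDegree = 2 * σ' + o.toNat := by
      rw [hD'.natDegree_mul hBm, hDd', had'] at h2
      omega
    obtain ⟨t, m, rfl⟩ := PairAux.exists_fA o D
    obtain ⟨x, w, rfl⟩ := PairAux.exists_fA o B
    obtain ⟨hm, hmd, ht⟩ := PairAux.fA_iff.1 ⟨hD', hDd'⟩
    obtain ⟨hw, hwd, hx⟩ := PairAux.fA_iff.1 ⟨hBm, hBd⟩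
    have e := PairAux.fA_mul o t m x w
    rw [← hB] at e
    have e2 : a ^ 2 + X * (C γ * b) ^ 2 =
        PairAux.ga o t m x w ^ 2 + X * (m * x + t * w) ^ 2 := e
    obtain ⟨e3, e4⟩ := PairAux.dec_uniq e2
    have e5 : t * w - C γ * b = m * x := by
      rw [e4, CharTwo.sub_eq_add, add_comm (m * x) (t * w), ← add_assoc, CharTwo.add_self_eq_zero,
        zero_add]
    have e6 : xG γ b t m w = x := by
      unfold xG
      rw [e5]
      exact mul_div_cancel_left₀ x hm.ne_zero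
    have e7 : aG o γ b t m w = a := by rw [aG_eq, e6]; exact e3.symm
    refine ⟨⟨m, t, w⟩, ?_, ?_⟩
    · rw [Finset.mem_sigma, mem_Mn, Set.Finite.mem_toFinset]
      refine ⟨⟨hm, hmd⟩, ht, hw, hwd, ⟨x, e5⟩, ?_, hDM⟩
      show M ∣ aG o γ b t m w - a₀
      rw [e7]
      exact haM'
    · show (⟨aG o γ b t m w, fA o t m⟩ : Σ _ : K[X], K[X]) = ⟨a, fA o t m⟩
      rw [e7]
  · -- the values
    rintro ⟨m, t, w⟩ hz
    rw [Finset.mem_sigma, mem_Mn, Set.Finite.mem_toFinset] at hz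
    obtain ⟨⟨hm, hmd⟩, hF1, hF2, hF3, hF4, hF5, hF6⟩ := hz
    obtain ⟨h1, h2⟩ := quot (o := o) hm hmd hb hd hF1 hF2 hF3 hF4
    show Φ (fA o t m) (fA o t m * fA o (xG γ b t m w) w / α) =
      Φ (fA o t m) (fa γ b (aG o γ b t m w) / α)
    rw [fA_mul_fa h1]

end Pool.Agent.H604.LD
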