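import Pool.Agent.H604.LD.PairG
import Pool.Agent.H604.LD.StmU

/-!
# Task PAIRU: the factorizations of `f_a / α`, `a` in a short interval (helper249, for helper604)
-/

set_option autoImplicit false
set_option linter.unusedSectionVars false

namespace Pool.Agent.H604.LD

open Polynomial
open scoped Classical
open Pool.Agent.H694.Typ (Mn mem_Mn exists_pol pol)

namespace PairUAux

variable {K : Type} [Field K] [CharP K 2]

/-- `a` is determined by `f_a / α` -/
theorem ga_inj {γ : K} {b M a₀ α a a' : K[X]} (h : Dat γ b M a₀ α) (ha : M ∣ a - a₀)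
    (ha' : M ∣ a' - a₀) (he : ga γ b α a = ga γ b α a') : a = a' := by
  have h1 : fa γ b a - fa γ b a' = 0 := by rw [h.fa_eq ha, h.fa_eq ha', he, sub_self]
  rw [fa_sub] at h1
  exact sub_eq_zero.1 (pow_eq_zero_iff two_ne_zero |>.1 h1)

/-- the weight which is supported on the short interval -/
noncomputable def Ph (γ : K) (b M a₀ α g : K[X]) (l d : ℕ) (Φ : K[X] → K[X] → ℝ)
    (D f : K[X]) : ℝ :=
  if ∃ a : K[X], M ∣ a - a₀ ∧ (a - g).degree < ((d - l : ℕ) : WithBot ℕ) ∧ ga γ b α a = f then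
    Φ D f else 0

theorem Ph_ga {γ : K} {b M a₀ α g : K[X]} {l d : ℕ} (Φ : K[X] → K[X] → ℝ)
    (h : Dat γ b M a₀ α) {a : K[X]} (ha : M ∣ a - a₀) (D : K[X]) :
    Ph γ b M a₀ α g l d Φ D (ga γ b α a) =
      if (a - g).degree < ((d - l : ℕ) : WithBot ℕ) then Φ D (ga γ b α a) else 0 := by
  unfold Ph
  by_cases hc : (a - g).degree < ((d - l : ℕ) : WithBot ℕ)
  · rw [if_pos hc, if_pos ⟨a, ha, hc, rfl⟩]
  · rw [if_neg hc, if_neg]
    rintro ⟨a', h1, h2, h3⟩
    rw [ga_inj h h1 ha h3] at h2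
    exact hc h2

end PairUAux

open PairUAux

/-- **Task PAIRU.** -/
theorem pairu (hp : S_pairg) : S_pairu := by
  intro K _ _ _ γ b M a₀ α g o l d σ σ' Φ hD hb hσ hσ' hd
  have h := hD.dat
  have key := hp K γ b M a₀ α o d σ σ' (Ph γ b M a₀ α g l d Φ) h hb hσ hσ' hd
  have hL : ∑ a ∈ AsU K d M a₀ g l, ∑ D ∈ (Mn K (2 * σ + o.toNat)).filter
        (fun D => D ∣ ga γ b α a), Φ D (ga γ b α a) =
      ∑ a ∈ As K d M a₀, ∑ D ∈ (Mn K (2 * σ + o.toNat)).filter (fun D => D ∣ ga γ b α a),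
        Ph γ b M a₀ α g l d Φ D (ga γ b α a) := by
    unfold AsU
    rw [Finset.sum_filter]
    refine Finset.sum_congr rfl fun a ha => ?_
    have haM : M ∣ a - a₀ := by
      unfold As at ha
      exact (Finset.mem_filter.1 ha).2
    by_cases hc : (a - g).degree < ((d - l : ℕ) : WithBot ℕ)
    · rw [if_pos hc]
      refine Finset.sum_congr rfl fun D _ => ?_
      rw [Ph_ga Φ h haM, if_pos hc]
    · rw [if_neg hc]
      symm
      refine Finset.sum_eq_zero fun D _ => ?_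
      rw [Ph_ga Φ h haM, if_neg hc]
  rw [hL, key]
  refine Finset.sum_congr rfl fun m hm => ?_
  rw [mem_Mn] at hm
  obtain ⟨hm, hmd⟩ := hm
  have h1 : ∑ᶠ p ∈ FamG γ b M a₀ o σ σ' m,
        Ph γ b M a₀ α g l d Φ (fA o p.1 m) (fABg o γ b α p.1 m p.2) =
      ∑ᶠ p ∈ FamG γ b M a₀ o σ σ' m,
        (if (aG o γ b p.1 m p.2 - g).degree < ((d - l : ℕ) : WithBot ℕ) then
          Φ (fA o p.1 m) (fABg o γ b α p.1 m p.2) else 0) := by
    refine finsum_mem_congr rfl fun p hpF => ?_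
    obtain ⟨hF1, hF2, hF3, hF4, hF5, hF6⟩ := hpF
    obtain ⟨h1, -⟩ := PairGAux.quot (o := o) hm hmd hb hd hF1 hF2 hF3 hF4
    have h2 : fABg o γ b α p.1 m p.2 = ga γ b α (aG o γ b p.1 m p.2) := by
      unfold fABg ga
      rw [PairGAux.fA_mul_fa h1]
    rw [h2, Ph_ga Φ h hF5]
  have h2 : ∑ᶠ p ∈ FamG γ b M a₀ o σ σ' m,
        (if (aG o γ b p.1 m p.2 - g).degree < ((d - l : ℕ) : WithBot ℕ) then
          Φ (fA o p.1 m) (fABg o γ b α p.1 m p.2) else 0) =
      ∑ᶠ p ∈ FamU γ b M a₀ g l o σ σ' m,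
        (if (aG o γ b p.1 m p.2 - g).degree < ((d - l : ℕ) : WithBot ℕ) then
          Φ (fA o p.1 m) (fABg o γ b α p.1 m p.2) else 0) := by
    apply finsum_mem_inter_support_eq'
    intro p hps
    have hc : (aG o γ b p.1 m p.2 - g).degree < ((d - l : ℕ) : WithBot ℕ) := by
      by_contra hc
      rw [Function.mem_support, if_neg hc] at hps
      exact hps rfl
    constructor
    · intro hpF
      exact ⟨hpF, by rw [hd]; exact hc⟩
    · intro hpF
      exact hpF.1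
  rw [h1, h2]
  refine finsum_mem_congr rfl fun p hpF => ?_
  have hc : (aG o γ b p.1 m p.2 - g).degree < ((d - l : ℕ) : WithBot ℕ) := by
    have h3 := hpF.2
    rw [hd] at h3
    exact h3
  rw [if_pos hc]

end Pool.Agent.H604.LD
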